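import Pool.Agent.NNb.DischDefs

/-!
Triangles (`m = 3`): special tiles (definitions only).
-/

namespace Pool.Agent.NNb

namespace Sys

variable {ι ν : Type} {n : ℕ} (S : Sys ι ν 3 n)

/-- every tile has at most one node of valence 3 -/
def H2 : Prop := ∀ i x y, x ∈ S.N i → y ∈ S.N i → S.val x = 3 → S.val y = 3 → x = y

/-- no node of valence `n - 1` -/
def H3 : Prop := ∀ i x, x ∈ S.N i → S.val x + 1 ≠ n

/-- Around a node `g` of valence 3 at most two tiles have exactly three nodes; if `i` and `k` are two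
such tiles and `j` is the third tile at `g`, then `N i = {g, p, q}`, `N k = {g, p, w}` with
`q, w ∈ N j`. -/
def H4 : Prop := ∀ g i j k, S.val g = 3 → i ≠ j → j ≠ k → i ≠ k → g ∈ S.N i → g ∈ S.N j →
  g ∈ S.N k → (S.N i).card = 3 → (S.N k).card = 3 →
  4 ≤ (S.N j).card ∧ ∃ p q w, q ≠ w ∧ (∀ x, x ∈ S.N i ↔ x = g ∨ x = p ∨ x = q) ∧
    (∀ x, x ∈ S.N k ↔ x = g ∨ x = p ∨ x = w) ∧ q ∈ S.N j ∧ w ∈ S.N j

/-- tiles with exactly three nodes, of valences `n - 2, 4, 4` -/
def IsA (i : ι) : Prop :=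
  (S.N i).card = 3 ∧ ∃ h ∈ S.N i, S.val h + 2 = n ∧ ∀ x ∈ S.N i, x ≠ h → S.val x = 4

/-- tiles with exactly three nodes, of valences `n - 3, 5, 4` -/
def IsB (i : ι) : Prop :=
  (S.N i).card = 3 ∧ ∃ h y w, h ∈ S.N i ∧ y ∈ S.N i ∧ w ∈ S.N i ∧ S.val h + 3 = n ∧
    S.val y = 5 ∧ S.val w = 4

open Classical in
/-- number of ordered pairs of 4-valent nodes of `j` which also lie on another tile of type `A` -/
noncomputable def recA (j : ι) : ℕ :=
  ((S.N j ×ˢ S.N j).filter (fun q => q.1 ≠ q.2 ∧ S.val q.1 = 4 ∧ S.val q.2 = 4 ∧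
    ∃ i, i ≠ j ∧ S.IsA i ∧ q.1 ∈ S.N i ∧ q.2 ∈ S.N i)).card

open Classical in
/-- the number of nodes of valence `v` on the tile `i` -/
noncomputable def cv (v : ℕ) (i : ι) : ℕ := ((S.N i).filter (fun x => S.val x = v)).card

open Classical in
/-- the number of 5-valent nodes `x` of `i` with `R x = i` -/
noncomputable def rB (R : ν → ι) (i : ι) : ℕ :=
  ((S.N i).filter (fun x => S.val x = 5 ∧ R x = i)).card

open Classical in
/-- the value of a tile after the transfers of the `A`- and `B`-tiles -/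
noncomputable def w (R : ν → ι) (i : ι) : ℝ :=
  S.f i + (S.recA i) * (51 / 2000) - (if S.IsA i then 51 / 1000 else 0) +
    (S.rB R i) * (12 / 1000) - (if S.IsB i then 3 / 1000 else 0)

end Sys

end Pool.Agent.NNb
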