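import Pool.Agent.NNb.Val

/-!
Module EULER.  `ang_N`: the angles of the tile `i` at all its nodes (flat ones included) add up to
`(|N i| - 2) π`: the corners give `(m - 2) π`, the `|N i| - m` other nodes `π` each.
`euler`: divide by `2 π`.
-/

namespace Pool.Agent.NNb

namespace Sys

variable {ι ν : Type} {m n : ℕ} (S : Sys ι ν m n)

theorem ang_N (i : ι) : ∑ x ∈ S.N i, S.ang i x = (((S.N i).card : ℝ) - 2) * Real.pi := by
  classical
  rw [← Finset.sum_sdiff (S.C_sub i), S.ang_tile i]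
  have h1 : ∑ x ∈ S.N i \ S.C i, S.ang i x = ∑ _x ∈ S.N i \ S.C i, Real.pi := by
    apply Finset.sum_congr rfl
    intro x hx
    rw [Finset.mem_sdiff] at hx
    exact S.ang_flat i x hx.1 hx.2
  have hle : m ≤ (S.N i).card := (S.C_card i).symm.le.trans (Finset.card_le_card (S.C_sub i))
  rw [h1, Finset.sum_const, nsmul_eq_mul, Finset.card_sdiff_of_subset (S.C_sub i), S.C_card i,
    Nat.cast_sub hle]
  ring

theorem euler (i : ι) :
    S.f i = ∑ x ∈ S.N i, (1 / (S.val x : ℝ) - S.ang i x / (2 * Real.pi)) := by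
  have hpi := Real.pi_pos
  unfold f
  have e1 : ∑ x ∈ S.N i, S.ang i x / (2 * Real.pi) = (∑ x ∈ S.N i, S.ang i x) / (2 * Real.pi) :=
    (Finset.sum_div _ _ _).symm
  have e2 : ∑ x ∈ S.N i, (1 / (S.val x : ℝ) - S.ang i x / (2 * Real.pi)) =
      ∑ x ∈ S.N i, 1 / (S.val x : ℝ) - (((S.N i).card : ℝ) - 2) * Real.pi / (2 * Real.pi) := by
    rw [Finset.sum_sub_distrib, e1, S.ang_N i]
  have e3 : ∑ x ∈ S.N i, ((1 : ℝ) / 2 - 1 / (S.val x : ℝ)) =
      ((S.N i).card : ℝ) / 2 - ∑ x ∈ S.N i, 1 / (S.val x : ℝ) := by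
    rw [Finset.sum_sub_distrib, Finset.sum_const, nsmul_eq_mul]
    ring
  rw [e2, e3, mul_div_mul_right _ _ hpi.ne']
  ring

end Sys

end Pool.Agent.NNb
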