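import Pool.Agent.NNb.Val

/-!
Module LINK.  The tiles around a node of valence 3 or 4.

`part_two`: on a tile with exactly `N i = {x, y, z}` (three distinct elements) etc. is in `Val`.
`link3`: `tl x = {i, j, k}`.  The two partners of `x` on `i` are shared with `j` or `k`, and not both
with the same tile (`three`); the same for `j` and `k`.
`link4`: see the docstring of the statement.  The fourth tile `l ∈ tl x` has two partners `r ≠ s` of
`x`, each shared with exactly one more tile among `i, j, k`.  The partners of `x` on `j` are exactly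
`p` and `q` (`p ≠ q`, otherwise `x, p` are on `i, j, k`).  If `r ∈ N j` then `r` is a partner of `x` on
`j`, so `r = p` or `r = q`, and then `x, r` lie on three tiles, contradiction; same for `s`.  So `r` and
`s` are in `N i ∪ N k`; if both are in `N i` then `x` has three partners `p, r, s` on `i` (`p ≠ r, s` by
`edge`), contradiction; same for `k`.
-/

namespace Pool.Agent.NNb

namespace Sys

variable {ι ν : Type} {m n : ℕ} (S : Sys ι ν m n)

/-- a node on a tile has at most two partners: three pairwise different partners are impossible -/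
theorem not_three_partners {i : ι} {x p q r : ν} (hp : Part S.N i x p) (hq : Part S.N i x q)
    (hr : Part S.N i x r) : p = q ∨ q = r ∨ p = r := by
  obtain ⟨y, z, _, _, _, huniq⟩ := S.part i x hp.1
  rcases huniq p hp with h1 | h1 <;> rcases huniq q hq with h2 | h2 <;>
    rcases huniq r hr with h3 | h3 <;> subst_vars <;> simp

/-- in a valence-3 node with tiles `i, j, k`, every partner on `i` is shared with `j` or `k` -/
private theorem two_partners {x : ν} {i j k : ι} (ht : ∀ l, x ∈ S.N l → l = i ∨ l = j ∨ l = k)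
    (hjk : j ≠ k) (hi : x ∈ S.N i) (hj : x ∈ S.N j) (hk : x ∈ S.N k) (hij : i ≠ j) (hik : i ≠ k) :
    ∃ p q, p ≠ x ∧ q ≠ x ∧ p ≠ q ∧ p ∈ S.N i ∧ p ∈ S.N j ∧ q ∈ S.N i ∧ q ∈ S.N k := by
  obtain ⟨y, z, hyz, hy, hz, _⟩ := S.part i x hi
  obtain ⟨_, hyi, hxy, a, hai, hxa, hya⟩ := hy
  obtain ⟨_, hzi, hxz, b, hbi, hxb, hzb⟩ := hz
  have ha : a = j ∨ a = k := by
    rcases ht a hxa with h | h
    · exact absurd h hai
    · exact h
  have hb : b = j ∨ b = k := by
    rcases ht b hxb with h | h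
    · exact absurd h hbi
    · exact h
  rcases ha with rfl | rfl <;> rcases hb with rfl | rfl
  · exfalso
    rcases S.three i b x y z hij hi hyi hzi hj hya hzb with h | h | h
    · exact hxy h
    · exact hyz h
    · exact hxz h
  · exact ⟨y, z, hxy.symm, hxz.symm, hyz, hyi, hya, hzi, hzb⟩
  · exact ⟨z, y, hxz.symm, hxy.symm, hyz.symm, hzi, hzb, hyi, hya⟩
  · exfalso
    rcases S.three i b x y z hik hi hyi hzi hk hya hzb with h | h | h
    · exact hxy h
    · exact hyz h
    · exact hxz h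

private theorem tl3 {x : ν} {i j k : ι} (hv : S.val x = 3) (hij : i ≠ j) (hjk : j ≠ k)
    (hik : i ≠ k) (hi : x ∈ S.N i) (hj : x ∈ S.N j) (hk : x ∈ S.N k) :
    ∀ l, x ∈ S.N l → l = i ∨ l = j ∨ l = k := by
  classical
  have hsub : ({i, j, k} : Finset ι) ⊆ S.tl x := by
    intro l hl
    simp only [Finset.mem_insert, Finset.mem_singleton] at hl
    rw [S.mem_tl]
    rcases hl with rfl | rfl | rfl <;> assumption
  have hcard : ({i, j, k} : Finset ι).card = 3 := by
    rw [Finset.card_eq_three]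
    exact ⟨i, j, k, hij, hik, hjk, rfl⟩
  have heq : ({i, j, k} : Finset ι) = S.tl x := by
    apply Finset.eq_of_subset_of_card_le hsub
    rw [hcard]
    exact hv.le
  intro l hl
  have : l ∈ S.tl x := (S.mem_tl l x).2 hl
  rw [← heq] at this
  simpa using this

theorem link3 {x : ν} {i j k : ι} (hv : S.val x = 3) (hij : i ≠ j) (hjk : j ≠ k) (hik : i ≠ k)
    (hi : x ∈ S.N i) (hj : x ∈ S.N j) (hk : x ∈ S.N k) :
    ∃ p q r, p ≠ x ∧ q ≠ x ∧ r ≠ x ∧ p ≠ q ∧ q ≠ r ∧ p ≠ r ∧ p ∈ S.N i ∧ p ∈ S.N j ∧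
      q ∈ S.N j ∧ q ∈ S.N k ∧ r ∈ S.N k ∧ r ∈ S.N i := by
  have ht := S.tl3 hv hij hjk hik hi hj hk
  obtain ⟨p, r, hpx, hrx, hpr, hpi, hpj, hri, hrk⟩ :=
    S.two_partners ht hjk hi hj hk hij hik
  have ht' : ∀ l, x ∈ S.N l → l = j ∨ l = i ∨ l = k := by
    intro l hl
    rcases ht l hl with h | h | h
    · exact Or.inr (Or.inl h)
    · exact Or.inl h
    · exact Or.inr (Or.inr h)
  obtain ⟨p', q, hpx', hqx, hpq', hpj', hpi', hqj, hqk⟩ :=
    S.two_partners ht' hik hj hi hk hij.symm hjk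
  refine ⟨p, q, r, hpx, hqx, hrx, ?_, ?_, hpr, hpi, hpj, hqj, hqk, hrk, hri⟩
  · rintro rfl
    rcases S.edge x p i j k hpx.symm hi hpi hj hpj hk hqk with h | h | h
    · exact hij h
    · exact hjk h
    · exact hik h
  · rintro rfl
    rcases S.edge x q i j k hqx.symm hi hri hj hqj hk hqk with h | h | h
    · exact hij h
    · exact hjk h
    · exact hik h

/-- if `i, j` share `p` and `j, k` share `q` besides the 4-valent node `x`, then the fourth tile
`l` at `x` shares nodes `r ≠ x` with `k` and `s ≠ x` with `i` -/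
theorem link4 {x p q : ν} {i j k : ι} (hv : S.val x = 4) (hij : i ≠ j) (hjk : j ≠ k)
    (hik : i ≠ k) (hi : x ∈ S.N i) (hj : x ∈ S.N j) (hk : x ∈ S.N k) (hp : p ≠ x)
    (hpi : p ∈ S.N i) (hpj : p ∈ S.N j) (hq : q ≠ x) (hqj : q ∈ S.N j) (hqk : q ∈ S.N k) :
    ∃ l r s, l ≠ i ∧ l ≠ j ∧ l ≠ k ∧ x ∈ S.N l ∧ r ≠ x ∧ s ≠ x ∧ r ≠ s ∧ r ∈ S.N k ∧
      r ∈ S.N l ∧ s ∈ S.N l ∧ s ∈ S.N i := by
  classical
  -- the fourth tile
  have hsub : ({i, j, k} : Finset ι) ⊆ S.tl x := by
    intro l hl
    simp only [Finset.mem_insert, Finset.mem_singleton] at hl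
    rw [S.mem_tl]
    rcases hl with rfl | rfl | rfl <;> assumption
  have hcard : ({i, j, k} : Finset ι).card = 3 := by
    rw [Finset.card_eq_three]
    exact ⟨i, j, k, hij, hik, hjk, rfl⟩
  have hdiff : (S.tl x \ {i, j, k}).card = 1 := by
    rw [Finset.card_sdiff_of_subset hsub, hcard]
    have : (S.tl x).card = 4 := hv
    omega
  obtain ⟨l, hl⟩ := Finset.card_eq_one.1 hdiff
  have hlm : l ∈ S.tl x \ {i, j, k} := by rw [hl]; simp
  rw [Finset.mem_sdiff, S.mem_tl] at hlm
  obtain ⟨hxl, hnot⟩ := hlm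
  simp only [Finset.mem_insert, Finset.mem_singleton, not_or] at hnot
  obtain ⟨hli, hlj, hlk⟩ := hnot
  have hall : ∀ a, x ∈ S.N a → a = i ∨ a = j ∨ a = k ∨ a = l := by
    intro a ha
    by_cases h : a ∈ ({i, j, k} : Finset ι)
    · simp only [Finset.mem_insert, Finset.mem_singleton] at h
      tauto
    · have : a ∈ S.tl x \ {i, j, k} := Finset.mem_sdiff.2 ⟨(S.mem_tl a x).2 ha, h⟩
      rw [hl, Finset.mem_singleton] at this
      exact Or.inr (Or.inr (Or.inr this))
  have hpq : p ≠ q := by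
    rintro rfl
    rcases S.edge x p i j k hp.symm hi hpi hj hpj hk hqk with h | h | h
    · exact hij h
    · exact hjk h
    · exact hik h
  have partp : Part S.N j x p := ⟨hj, hpj, hp.symm, i, hij, hi, hpi⟩
  have partq : Part S.N j x q := ⟨hj, hqj, hq.symm, k, hjk.symm, hk, hqk⟩
  -- a node of `l` different from `x` is not on `j`
  have key : ∀ w, w ≠ x → w ∈ S.N l → w ∉ S.N j := by
    intro w hwx hwl hwj
    have partw : Part S.N j x w := ⟨hj, hwj, hwx.symm, l, hlj, hxl, hwl⟩
    rcases S.not_three_partners partp partq partw with h | h | h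
    · exact hpq h
    · subst h
      rcases S.edge x q j k l hq.symm hj hqj hk hqk hxl hwl with h | h | h
      · exact hjk h
      · exact hlk h.symm
      · exact hlj h.symm
    · subst h
      rcases S.edge x p i j l hp.symm hi hpi hj hpj hxl hwl with h | h | h
      · exact hij h
      · exact hlj h.symm
      · exact hli h.symm
  have keyp : ∀ w, w ≠ x → w ∈ S.N l → w ≠ p := by
    rintro w hwx hwl rfl
    exact key w hwx hwl hpj
  have keyq : ∀ w, w ≠ x → w ∈ S.N l → w ≠ q := by
    rintro w hwx hwl rfl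
    exact key w hwx hwl hqj
  obtain ⟨y, z, hyz, hy, hz, _⟩ := S.part l x hxl
  obtain ⟨_, hyl, hxy, a, hal, hxa, hya⟩ := hy
  obtain ⟨_, hzl, hxz, b, hbl, hxb, hzb⟩ := hz
  have ha : a = i ∨ a = k := by
    rcases hall a hxa with h | h | h | h
    · exact Or.inl h
    · subst h; exact absurd hya (key y hxy.symm hyl)
    · exact Or.inr h
    · exact absurd h hal
  have hb : b = i ∨ b = k := by
    rcases hall b hxb with h | h | h | h
    · exact Or.inl h
    · subst h; exact absurd hzb (key z hxz.symm hzl)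
    · exact Or.inr h
    · exact absurd h hbl
  rcases ha with rfl | rfl <;> rcases hb with rfl | rfl
  · exfalso
    have py : Part S.N b x y := ⟨hxa, hya, hxy, l, hli, hxl, hyl⟩
    have pz : Part S.N b x z := ⟨hxa, hzb, hxz, l, hli, hxl, hzl⟩
    have pp : Part S.N b x p := ⟨hxa, hpi, hp.symm, j, hij.symm, hj, hpj⟩
    rcases S.not_three_partners py pz pp with h | h | h
    · exact hyz h
    · exact keyp z hxz.symm hzl h
    · exact keyp y hxy.symm hyl h
  · exact ⟨l, z, y, hli, hlj, hlk, hxl, hxz.symm, hxy.symm, hyz.symm, hzb, hzl, hyl, hya⟩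
  · exact ⟨l, y, z, hli, hlj, hlk, hxl, hxy.symm, hxz.symm, hyz, hya, hyl, hzl, hzb⟩
  · exfalso
    have py : Part S.N b x y := ⟨hxa, hya, hxy, l, hlk, hxl, hyl⟩
    have pz : Part S.N b x z := ⟨hxa, hzb, hxz, l, hlk, hxl, hzl⟩
    have pp : Part S.N b x q := ⟨hxa, hqk, hq.symm, j, hjk, hj, hqj⟩
    rcases S.not_three_partners py pz pp with h | h | h
    · exact hyz h
    · exact keyq z hxz.symm hzl h
    · exact keyq y hxy.symm hyl h

end Sys

end Pool.Agent.NNb
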