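import Pool.Agent.NNb.SumVal
import Pool.Agent.NNb.Link
import Pool.Agent.NNb.Euler
import Pool.Agent.NNb.ADefs

/-!
Module AFAR.  Triangles: the tile across the 4-4 edge of an `A`-tile has at least 4 nodes.

(1) `isA_of`: if `h, x ∈ N i`, `val h = n - 2`, `val x = 4`, then `IsA i`: `∑ (val - 2) = n` leaves `2`
for the other nodes of `i` (at least one, `|N i| ≥ 3`); two others would both have valence 3,
contradiction to `H2`.
(2) Let `N i = {h, x, y}` (`IsA i`), `j ≠ i` with `x, y ∈ N j`, and suppose `|N j| = 3`: the third node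
`w` of `j` has valence `n - 2` (`sum_val`), so `IsA j`.  `w ≠ h` (`three`).
(3) Let `i'` be the other tile with `h, x ∈ N i'`; `IsA i'` by (1), `N i' = {h, x, y'}`, `y' ≠ y`.
`link4` at `x` with `(i, j, k) := (j, i, i')`, `p = y`, `q = h` gives a tile `l` and nodes `r ∈ N i' ∩ N l`,
`s ∈ N l ∩ N j`.  `r = y'` (`r ≠ h` by `edge`), `s = w` (`s ≠ y` by `edge`).  So `l` contains `x` and `w`:
`IsA l`, and `l` is the tile across `{x, y'}` of `i'`, with `|N l| = 3`.
(4) So the set `G` of the tiles `i ∋ h` for which the tile across the 4-4 edge has exactly 3 nodes is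
closed under the step from `i` to the tile across `{h, x}`.  Suppose `G ≠ ∅`.  Let `X` be the set of the
nodes `≠ h` of the tiles of `G`: each tile of `G` has two, each `x ∈ X` is on exactly two tiles of `G`
(the two tiles containing `h` and `x`), so `|X| = |G|`.  Let `D` be the set of the tiles across;
`|D| ≤ |G|`, disjoint from `G` (they do not contain `h`).  All four tiles at `x ∈ X` are in `G ∪ D`
(by (3): `i, i', j, l`).  Angle count: `2 π |X| = ` sum of all angles at `X` `≤` sum over the tiles of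
`G ∪ D` of all angles (`π` each, `ang_N`) minus the angles at `h` of the tiles of `G`
`< π |G| + π |D| ≤ 2 π |G|`.  Contradiction.
-/

namespace Pool.Agent.NNb

namespace Sys

variable {ι ν : Type} {n : ℕ}

theorem isA_of (S : Sys ι ν 3 n) (hn : 15 ≤ n) (h2 : S.H2) {i : ι} {h x : ν} (hi : h ∈ S.N i)
    (hx : x ∈ S.N i) (hh : S.val h + 2 = n) (hx4 : S.val x = 4) : S.IsA i := by
  classical
  have hne : x ≠ h := by rintro rfl; omega
  have hsum := S.sum_val i
  have hx' : x ∈ (S.N i).erase h := Finset.mem_erase.mpr ⟨hne, hx⟩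
  rw [← Finset.add_sum_erase _ _ hi, ← Finset.add_sum_erase _ _ hx'] at hsum
  set s := ((S.N i).erase h).erase x with hs
  have hsN : ∀ y ∈ s, y ∈ S.N i := fun y hy =>
    Finset.mem_of_mem_erase (Finset.mem_of_mem_erase hy)
  have hcard : s.card + 2 = (S.N i).card := by
    have h1 : 0 < ((S.N i).erase h).card := Finset.card_pos.mpr ⟨x, hx'⟩
    rw [hs, Finset.card_erase_of_mem hx']
    rw [Finset.card_erase_of_mem hi] at h1 ⊢
    omega
  have h3 := S.card_ge i
  have hval : ∀ y ∈ s, 3 ≤ S.val y := fun y hy => S.val_ge (hsN y hy)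
  have hle : s.card ≤ ∑ y ∈ s, (S.val y - 2) := by
    rw [Finset.card_eq_sum_ones]
    exact Finset.sum_le_sum (fun y hy => by have := hval y hy; omega)
  have hsum2 : ∑ y ∈ s, (S.val y - 2) = 2 := by omega
  have hc : s.card = 1 ∨ s.card = 2 := by omega
  rcases hc with hc | hc
  · obtain ⟨y, hy⟩ := Finset.card_eq_one.mp hc
    rw [hy, Finset.sum_singleton] at hsum2
    refine ⟨by omega, h, hi, hh, fun z hz hzh => ?_⟩
    by_cases hzx : z = x
    · rw [hzx]; exact hx4
    · have hzs : z ∈ s := Finset.mem_erase.mpr ⟨hzx, Finset.mem_erase.mpr ⟨hzh, hz⟩⟩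
      rw [hy, Finset.mem_singleton] at hzs
      rw [hzs]
      omega
  · obtain ⟨y, z, hyz, hs2⟩ := Finset.card_eq_two.mp hc
    rw [hs2, Finset.sum_pair hyz] at hsum2
    have hy : y ∈ s := by rw [hs2]; simp
    have hz : z ∈ s := by rw [hs2]; simp
    have := hval y hy
    have := hval z hz
    exact absurd (h2 i y z (hsN y hy) (hsN z hz) (by omega) (by omega)) hyz

/-- The hub of an `A` tile is determined by its valence. -/
private theorem AFAR_hub (S : Sys ι ν 3 n) (hn : 15 ≤ n) {i : ι} {h : ν} (hA : S.IsA i)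
    (hh : S.val h + 2 = n) (hi : h ∈ S.N i) : ∀ x ∈ S.N i, x ≠ h → S.val x = 4 := by
  obtain ⟨_, h', _, hv, hall⟩ := hA
  have he : h = h' := by
    by_contra hne
    have := hall h hi hne
    omega
  rw [he]
  exact hall

/-- A three-element set. -/
private theorem AFAR_three {s : Finset ν} {a b c : ν} (hs : s.card = 3) (ha : a ∈ s)
    (hb : b ∈ s) (hc : c ∈ s) (hab : a ≠ b) (hbc : b ≠ c) (hac : a ≠ c) :
    ∀ z ∈ s, z = a ∨ z = b ∨ z = c := by
  classical
  intro z hz
  have hsub : ({a, b, c} : Finset ν) ⊆ s := by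
    intro w hw
    simp only [Finset.mem_insert, Finset.mem_singleton] at hw
    rcases hw with rfl | rfl | rfl <;> assumption
  have hcard : ({a, b, c} : Finset ν).card = 3 := Finset.card_eq_three.mpr ⟨a, b, c, hab, hac, hbc, rfl⟩
  have heq := Finset.eq_of_subset_of_card_le hsub (by omega)
  rw [← heq] at hz
  simpa using hz

theorem A_far (S : Sys ι ν 3 n) (hn : 15 ≤ n) (h2 : S.H2) {i j : ι} {x y : ν} (hA : S.IsA i)
    (hij : i ≠ j) (hxy : x ≠ y) (hx : x ∈ S.N i) (hy : y ∈ S.N i) (hx4 : S.val x = 4)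
    (hy4 : S.val y = 4) (hxj : x ∈ S.N j) (hyj : y ∈ S.N j) : 4 ≤ (S.N j).card := by
  classical
  by_contra hcon
  have hj3 : (S.N j).card = 3 := by
    have := S.card_ge j
    omega
  obtain ⟨h, hhi, hh⟩ : ∃ h ∈ S.N i, S.val h + 2 = n := by
    obtain ⟨_, h, h1, h2, _⟩ := hA
    exact ⟨h, h1, h2⟩
  have hxh : x ≠ h := by rintro rfl; omega
  have hyh : y ≠ h := by rintro rfl; omega
  -- the set of bad tiles around the hub
  set P : ι → Prop := fun g => S.IsA g ∧ ∃ j, j ≠ g ∧ (S.N j).card = 3 ∧
    ∀ z ∈ S.N g, z ≠ h → z ∈ S.N j with hP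
  set G : Finset ι := (S.tl h).filter P with hG
  have hiG : i ∈ G := by
    rw [hG, Finset.mem_filter, S.mem_tl]
    refine ⟨hhi, hA, j, hij.symm, hj3, fun z hz hzh => ?_⟩
    rcases AFAR_three hA.1 hhi hx hy hxh.symm hxy hyh.symm z hz with h1 | h1 | h1
    · exact absurd h1 hzh
    · rw [h1]; exact hxj
    · rw [h1]; exact hyj
  have hGh : ∀ g ∈ G, h ∈ S.N g := by
    intro g hg
    rw [hG, Finset.mem_filter, S.mem_tl] at hg
    exact hg.1
  have hGP : ∀ g ∈ G, P g := by
    intro g hg
    rw [hG, Finset.mem_filter] at hg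
    exact hg.2
  have hGA : ∀ g ∈ G, S.IsA g := fun g hg => (hGP g hg).1
  have hGd : ∀ g : ι, ∃ j, g ∈ G → (j ≠ g ∧ (S.N j).card = 3 ∧ ∀ z ∈ S.N g, z ≠ h → z ∈ S.N j) := by
    intro g
    by_cases hg : g ∈ G
    · obtain ⟨j, hj⟩ := (hGP g hg).2
      exact ⟨j, fun _ => hj⟩
    · exact ⟨g, fun h => absurd h hg⟩
  choose d hd using hGd
  set D : Finset ι := G.image d with hD
  set X : Finset ν := G.biUnion (fun g => (S.N g).erase h) with hX
  have hXmem : ∀ z, z ∈ X ↔ ∃ g ∈ G, z ≠ h ∧ z ∈ S.N g := by
    intro z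
    rw [hX, Finset.mem_biUnion]
    simp only [Finset.mem_erase]
  -- all tiles at a node of X
  have hcov : ∀ z ∈ X, ∀ t ∈ S.tl z, t ∈ G ∨ t ∈ D := by
    intro z hz t ht
    obtain ⟨g, hg, hzh, hzg⟩ := (hXmem z).mp hz
    have hgA := hGA g hg
    have hgh := hGh g hg
    have hz4 : S.val z = 4 := AFAR_hub S hn hgA hh hgh z hzg hzh
    obtain ⟨hdg, hd3, hdN⟩ := hd g hg
    -- third node
    obtain ⟨u, hu, huz, huh⟩ : ∃ u ∈ S.N g, u ≠ z ∧ u ≠ h := by
      by_contra hno
      push Not at hno
      have hsub : S.N g ⊆ {z, h} := by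
        intro u hu
        rw [Finset.mem_insert, Finset.mem_singleton]
        by_cases h1 : u = z
        · exact Or.inl h1
        · exact Or.inr (hno u hu h1)
      have h1 := Finset.card_le_card hsub
      have h2 : ({z, h} : Finset ν).card ≤ 2 := Finset.card_le_two
      have h3 := hgA.1
      omega
    have hu4 : S.val u = 4 := AFAR_hub S hn hgA hh hgh u hu huh
    have hzd : z ∈ S.N (d g) := hdN z hzg hzh
    have hud : u ∈ S.N (d g) := hdN u hu huh
    have hhd : h ∉ S.N (d g) := by
      intro hhd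
      rcases S.three g (d g) z u h hdg.symm hzg hu hgh hzd hud hhd with h1 | h1 | h1
      · exact huz h1.symm
      · exact huh h1
      · exact hzh h1
    -- the other tile at the edge from h to z
    obtain ⟨_, _, _, i', hi'g, hzi', hhi'⟩ := S.part_of_three hgA.1 hzg hgh hzh
    have hi'A : S.IsA i' := S.isA_of hn h2 hhi' hzi' hh hz4
    have hi'd : i' ≠ d g := by
      intro he
      rw [he] at hhi'
      exact hhd hhi'
    obtain ⟨l, r, s, hld, hlg, hli, hzl, hrz, hsz, hrs, hri, hrl, hsl, hsd⟩ :=
      S.link4 (x := z) (p := u) (q := h) (i := d g) (j := g) (k := i') hz4 hdg hi'g.symm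
        hi'd.symm hzd hzg hzi' huz hud hu hzh.symm hgh hhi'
    have hrh : r ≠ h := by
      intro he
      rw [he] at hrl
      rcases S.edge z h g i' l hzh hzg hgh hzi' hhi' hzl hrl with h1 | h1 | h1
      · exact hi'g h1.symm
      · exact hli h1.symm
      · exact hlg h1.symm
    have hsu : s ≠ u := by
      intro he
      rw [he] at hsl
      rcases S.edge z u g (d g) l huz.symm hzg hu hzd hud hzl hsl with h1 | h1 | h1
      · exact hdg h1.symm
      · exact hld h1.symm
      · exact hlg h1.symm
    -- the valence of s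
    have hNd : S.N (d g) = {z, u, s} := by
      ext w
      simp only [Finset.mem_insert, Finset.mem_singleton]
      constructor
      · exact AFAR_three hd3 hzd hud hsd huz.symm hsu.symm hsz.symm w
      · rintro (h1 | h1 | h1) <;> rw [h1] <;> assumption
    have hsval : S.val s + 2 = n := by
      have h1 := S.sum_val (d g)
      rw [hNd, Finset.sum_insert (by
        simp only [Finset.mem_insert, Finset.mem_singleton, not_or]
        exact ⟨huz.symm, hsz.symm⟩), Finset.sum_pair hsu.symm, hz4, hu4] at h1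
      omega
    have hlA : S.IsA l := S.isA_of hn h2 hsl hzl hsval hz4
    have hi'G : i' ∈ G := by
      rw [hG, Finset.mem_filter, S.mem_tl]
      refine ⟨hhi', hi'A, l, hli, hlA.1, fun w hw hwh => ?_⟩
      rcases AFAR_three hi'A.1 hhi' hzi' hri hzh.symm hrz.symm hrh.symm w hw with h1 | h1 | h1
      · exact absurd h1 hwh
      · rw [h1]; exact hzl
      · rw [h1]; exact hrl
    have hlD : l ∈ D := by
      obtain ⟨hdi', _, hdN'⟩ := hd i' hi'G
      have h1 := hdN' z hzi' hzh
      have h2 := hdN' r hri hrh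
      have h3 : l = d i' := by
        rcases S.edge z r i' l (d i') hrz.symm hzi' hri hzl hrl h1 h2 with h4 | h4 | h4
        · exact absurd h4.symm hli
        · exact h4
        · exact absurd h4.symm hdi'
      rw [h3, hD]
      exact Finset.mem_image_of_mem d hi'G
    have hdD : d g ∈ D := by
      rw [hD]
      exact Finset.mem_image_of_mem d hg
    -- the four tiles are all
    have hsub : ({g, d g, i', l} : Finset ι) ⊆ S.tl z := by
      intro w hw
      simp only [Finset.mem_insert, Finset.mem_singleton] at hw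
      rw [S.mem_tl]
      rcases hw with h1 | h1 | h1 | h1 <;> rw [h1] <;> assumption
    have hc4 : ({g, d g, i', l} : Finset ι).card = 4 := by
      rw [Finset.card_insert_of_notMem, Finset.card_insert_of_notMem,
        Finset.card_insert_of_notMem, Finset.card_singleton]
      · rw [Finset.mem_singleton]
        exact hli.symm
      · simp only [Finset.mem_insert, Finset.mem_singleton, not_or]
        exact ⟨hi'd.symm, hld.symm⟩
      · simp only [Finset.mem_insert, Finset.mem_singleton, not_or]
        exact ⟨hdg.symm, hi'g.symm, hlg.symm⟩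
    have heq := Finset.eq_of_subset_of_card_le hsub (by
      rw [hc4]
      exact hz4.le)
    rw [← heq] at ht
    simp only [Finset.mem_insert, Finset.mem_singleton] at ht
    rcases ht with h1 | h1 | h1 | h1
    · exact Or.inl (h1 ▸ hg)
    · exact Or.inr (h1 ▸ hdD)
    · exact Or.inl (h1 ▸ hi'G)
    · exact Or.inr (h1 ▸ hlD)
  -- the number of nodes
  have hcount : G.card ≤ X.card := by
    have h1 : ∑ g ∈ G, ((S.N g).erase h).card = 2 * G.card := by
      rw [Finset.sum_congr rfl (g := fun _ => 2), Finset.sum_const, smul_eq_mul, mul_comm]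
      intro g hg
      rw [Finset.card_erase_of_mem (hGh g hg), (hGA g hg).1]
    have h2 : ∑ g ∈ G, ((S.N g).erase h).card =
        ∑ z ∈ X, (G.filter (fun g => z ∈ (S.N g).erase h)).card := by
      refine Eq.trans ?_ (Finset.sum_card_bipartiteAbove_eq_sum_card_bipartiteBelow
        (fun g z => z ∈ (S.N g).erase h))
      apply Finset.sum_congr rfl
      intro g hg
      congr 1
      ext z
      rw [Finset.bipartiteAbove, Finset.mem_filter]
      constructor
      · intro hz
        exact ⟨(hXmem z).mpr ⟨g, hg, (Finset.mem_erase.mp hz).1, (Finset.mem_erase.mp hz).2⟩, hz⟩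
      · exact fun hz => hz.2
    have h3 : ∀ z ∈ X, (G.filter (fun g => z ∈ (S.N g).erase h)).card ≤ 2 := by
      intro z hz
      by_contra hc
      push Not at hc
      obtain ⟨a, ha, b, hb, c, hc', hab, hac, hbc⟩ := Finset.two_lt_card.mp hc
      rw [Finset.mem_filter, Finset.mem_erase] at ha hb hc'
      rcases S.edge z h a b c ha.2.1 ha.2.2 (hGh a ha.1) hb.2.2 (hGh b hb.1) hc'.2.2
        (hGh c hc'.1) with h4 | h4 | h4
      · exact hab h4
      · exact hbc h4
      · exact hac h4
    have h4 := Finset.sum_le_sum h3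
    rw [Finset.sum_const, smul_eq_mul] at h4
    omega
  -- the angle count
  have hpos : ∀ t z, 0 ≤ (if z ∈ S.N t then S.ang t z else 0) := by
    intro t z
    split_ifs with h1
    · exact (S.ang_pos h1).le
    · exact le_rfl
  have e1 : ∑ z ∈ X, (2 * Real.pi) ≤ ∑ z ∈ X, (∑ t ∈ G, (if z ∈ S.N t then S.ang t z else 0) +
      ∑ t ∈ D, (if z ∈ S.N t then S.ang t z else 0)) := by
    apply Finset.sum_le_sum
    intro z hz
    obtain ⟨g, _, _, hzg⟩ := (hXmem z).mp hz
    rw [← S.ang_node g z hzg]
    calc ∑ t ∈ S.tl z, S.ang t z = ∑ t ∈ S.tl z, (if z ∈ S.N t then S.ang t z else 0) := by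
          apply Finset.sum_congr rfl
          intro t ht
          rw [if_pos ((S.mem_tl t z).mp ht)]
      _ ≤ ∑ t ∈ G ∪ D, (if z ∈ S.N t then S.ang t z else 0) := by
          apply Finset.sum_le_sum_of_subset_of_nonneg
          · intro t ht
            rw [Finset.mem_union]
            exact hcov z hz t ht
          · intro t _ _
            exact hpos t z
      _ ≤ _ := by
          have h1 := Finset.sum_union_inter (s₁ := G) (s₂ := D)
            (f := fun t => if z ∈ S.N t then S.ang t z else 0)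
          have h2 : 0 ≤ ∑ t ∈ G ∩ D, (if z ∈ S.N t then S.ang t z else 0) :=
            Finset.sum_nonneg (fun t _ => hpos t z)
          linarith
  rw [Finset.sum_add_distrib, Finset.sum_comm (s := X) (t := G), Finset.sum_comm (s := X) (t := D)]
    at e1
  have e2 : ∀ t ∈ G, ∑ z ∈ X, (if z ∈ S.N t then S.ang t z else 0) ≤ Real.pi - S.ang t h := by
    intro t ht
    have h1 := S.ang_N t
    rw [(hGA t ht).1, ← Finset.add_sum_erase _ _ (hGh t ht)] at h1
    have h2 : ∑ z ∈ X, (if z ∈ S.N t then S.ang t z else 0) ≤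
        ∑ z ∈ (S.N t).erase h, S.ang t z := by
      rw [← Finset.sum_filter]
      apply Finset.sum_le_sum_of_subset_of_nonneg
      · intro z hz
        rw [Finset.mem_filter] at hz
        obtain ⟨_, _, hzh, _⟩ := (hXmem z).mp hz.1
        exact Finset.mem_erase.mpr ⟨hzh, hz.2⟩
      · intro z hz _
        exact (S.ang_pos (Finset.mem_of_mem_erase hz)).le
    push_cast at h1
    linarith
  have e3 : ∀ t ∈ D, ∑ z ∈ X, (if z ∈ S.N t then S.ang t z else 0) ≤ Real.pi := by
    intro t ht
    rw [hD, Finset.mem_image] at ht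
    obtain ⟨g, hg, rfl⟩ := ht
    have h1 := S.ang_N (d g)
    rw [(hd g hg).2.1] at h1
    have h2 : ∑ z ∈ X, (if z ∈ S.N (d g) then S.ang (d g) z else 0) ≤
        ∑ z ∈ S.N (d g), S.ang (d g) z := by
      rw [← Finset.sum_filter]
      apply Finset.sum_le_sum_of_subset_of_nonneg
      · intro z hz
        rw [Finset.mem_filter] at hz
        exact hz.2
      · intro z hz _
        exact (S.ang_pos hz).le
    push_cast at h1
    linarith
  have e4 := Finset.sum_le_sum e2
  have e5 := Finset.sum_le_sum e3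
  rw [Finset.sum_sub_distrib, Finset.sum_const, nsmul_eq_mul] at e4
  rw [Finset.sum_const, nsmul_eq_mul] at e5
  rw [Finset.sum_const, nsmul_eq_mul] at e1
  have e6 : 0 < ∑ t ∈ G, S.ang t h :=
    Finset.sum_pos (fun t ht => S.ang_pos (hGh t ht)) ⟨i, hiG⟩
  have e7 : (D.card : ℝ) ≤ G.card := by exact_mod_cast Finset.card_image_le
  have e8 : (G.card : ℝ) ≤ X.card := by exact_mod_cast hcount
  have hpi := Real.pi_pos
  nlinarith

end Sys

end Pool.Agent.NNb
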