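import Pool.Agent.NNb.Val
import Pool.Agent.NNb.ADefs

/-!
Module CNT.  Node types in a tiling by congruent triangles.

`cnt k x` = number of tiles with corner `x = lab i k`, `fl x` = number of tiles at `x` of which `x`
is not a corner.  `val_cnt`: partition of `tl x` (labels are injective on a tile, `lab_C`).
`ang_cnt`: `ang_node` with `lab_ang`, `ang_flat`.  `fl_le`: if two tiles are flat at `x` then the
angles of these two already give `2 π`, but some tile has a corner at `x` (`corner`, `ang_corner`).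
`three_valent`: `cnt 0 + cnt 1 + cnt 2 + fl = 3`.  Subtract `2 (θ 0 + θ 1 + θ 2) = 2 π` from `ang_cnt` if
`fl = 0`: `(2 - a) θ 0 + (2 - b) θ 1 + (2 - c) θ 2 = 0` with `a + b + c = 3`, which forces `c = 3` and
`θ 2 = 2 (θ 0 + θ 1)`, `θ 2 = 2 π / 3` (check the ten triples, using `0 < θ 0 ≤ θ 1 ≤ θ 2`).  If `fl = 1`:
`(1 - a) θ 0 + (1 - b) θ 1 + (1 - c) θ 2 = 0` with `a + b + c = 2`, which forces `c = 2`, `θ 2 = π / 2`.
`card3_corner`: `C i ⊆ N i`, both with three elements.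
`cnt_corner`: if `lab i k = x` then `cnt k x ≥ 1` (for a node `x`), and every node is a corner of some
tile, so `cnt 0 + cnt 1 + cnt 2 ≥ 1`.
-/

namespace Pool.Agent.NNb

namespace Sys3

variable {ι : Type} {n : ℕ} (S : Sys3 ι n)

open Classical in
/-- number of tiles whose corner with label `k` is `x` -/
noncomputable def cnt (k : Fin 3) (x : ℂ) : ℕ := ((S.tl x).filter (fun i => S.lab i k = x)).card

open Classical in
/-- number of tiles at `x` of which `x` is not a corner -/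
noncomputable def fl (x : ℂ) : ℕ := ((S.tl x).filter (fun i => x ∉ S.C i)).card

theorem lab_mem (i : ι) (k : Fin 3) : S.lab i k ∈ S.N i :=
  S.C_sub i ((S.lab_C i _).2 ⟨k, rfl⟩)

theorem C_eq (i : ι) (x : ℂ) : x ∈ S.C i ↔ x = S.lab i 0 ∨ x = S.lab i 1 ∨ x = S.lab i 2 := by
  rw [S.lab_C]
  constructor
  · rintro ⟨k, rfl⟩
    fin_cases k
    · exact Or.inl rfl
    · exact Or.inr (Or.inl rfl)
    · exact Or.inr (Or.inr rfl)
  · rintro (h | h | h)
    · exact ⟨0, h⟩
    · exact ⟨1, h⟩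
    · exact ⟨2, h⟩

theorem CNT_ne (i : ι) : S.lab i 0 ≠ S.lab i 1 ∧ S.lab i 0 ≠ S.lab i 2 ∧ S.lab i 1 ≠ S.lab i 2 := by
  refine ⟨fun h => ?_, fun h => ?_, fun h => ?_⟩
  · exact absurd (S.lab_inj i h) (by decide)
  · exact absurd (S.lab_inj i h) (by decide)
  · exact absurd (S.lab_inj i h) (by decide)

open Classical in
theorem CNT_sum (x : ℂ) (g : ι → ℝ) (a : Fin 3 → ℝ) (b : ℝ)
    (hg : ∀ i ∈ S.tl x, g i = (if S.lab i 0 = x then a 0 else 0) +
      (if S.lab i 1 = x then a 1 else 0) + (if S.lab i 2 = x then a 2 else 0) +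
      (if x ∉ S.C i then b else 0)) :
    ∑ i ∈ S.tl x, g i = S.cnt 0 x * a 0 + S.cnt 1 x * a 1 + S.cnt 2 x * a 2 + S.fl x * b := by
  rw [Finset.sum_congr rfl hg]
  rw [Finset.sum_add_distrib, Finset.sum_add_distrib, Finset.sum_add_distrib]
  rw [← Finset.sum_filter, ← Finset.sum_filter, ← Finset.sum_filter, ← Finset.sum_filter]
  simp only [Finset.sum_const, nsmul_eq_mul]
  rfl

open Classical in
theorem CNT_case (x : ℂ) (i : ι) (a : Fin 3 → ℝ) (b : ℝ) :
    (∃ k, S.lab i k = x ∧ (if S.lab i 0 = x then a 0 else 0) +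
      (if S.lab i 1 = x then a 1 else 0) + (if S.lab i 2 = x then a 2 else 0) +
      (if x ∉ S.C i then b else 0) = a k) ∨
    (x ∉ S.C i ∧ (if S.lab i 0 = x then a 0 else 0) +
      (if S.lab i 1 = x then a 1 else 0) + (if S.lab i 2 = x then a 2 else 0) +
      (if x ∉ S.C i then b else 0) = b) := by
  obtain ⟨h01, h02, h12⟩ := S.CNT_ne i
  by_cases hx : x ∈ S.C i
  · left
    rcases (S.C_eq i x).1 hx with rfl | rfl | rfl
    · exact ⟨0, rfl, by simp [h01.symm, h02.symm, hx]⟩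
    · exact ⟨1, rfl, by simp [h01, h12.symm, hx]⟩
    · exact ⟨2, rfl, by simp [h02, h12, hx]⟩
  · right
    refine ⟨hx, ?_⟩
    have h0 : S.lab i 0 ≠ x := fun h => hx ((S.C_eq i x).2 (Or.inl h.symm))
    have h1 : S.lab i 1 ≠ x := fun h => hx ((S.C_eq i x).2 (Or.inr (Or.inl h.symm)))
    have h2 : S.lab i 2 ≠ x := fun h => hx ((S.C_eq i x).2 (Or.inr (Or.inr h.symm)))
    simp [h0, h1, h2, hx]

theorem val_cnt (x : ℂ) : S.val x = S.cnt 0 x + S.cnt 1 x + S.cnt 2 x + S.fl x := by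
  classical
  have h := S.CNT_sum x (fun _ => 1) (fun _ => 1) 1 (by
    intro i _
    rcases S.CNT_case x i (fun _ => 1) 1 with ⟨k, _, h⟩ | ⟨_, h⟩
    · exact h.symm
    · exact h.symm)
  simp only [Finset.sum_const, nsmul_eq_mul, mul_one] at h
  have h' : ((S.tl x).card : ℝ) = ((S.cnt 0 x + S.cnt 1 x + S.cnt 2 x + S.fl x : ℕ) : ℝ) := by
    push_cast
    exact h
  exact_mod_cast h'

theorem ang_cnt {i : ι} {x : ℂ} (hx : x ∈ S.N i) :
    (S.cnt 0 x : ℝ) * S.θ 0 + S.cnt 1 x * S.θ 1 + S.cnt 2 x * S.θ 2 + S.fl x * Real.pi =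
      2 * Real.pi := by
  classical
  rw [← S.ang_node i x hx]
  symm
  apply S.CNT_sum x (fun j => S.ang j x) S.θ Real.pi
  intro j hj
  have hj' : x ∈ S.N j := (S.mem_tl j x).1 hj
  rcases S.CNT_case x j S.θ Real.pi with ⟨k, hk, h⟩ | ⟨hc, h⟩
  · rw [h, ← hk]
    exact S.lab_ang j k
  · rw [h]
    exact S.ang_flat j x hj' hc

theorem cnt_pos (i : ι) (k : Fin 3) : 1 ≤ S.cnt k (S.lab i k) := by
  classical
  unfold cnt
  rw [Nat.one_le_iff_ne_zero, ← Nat.pos_iff_ne_zero, Finset.card_pos]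
  exact ⟨i, Finset.mem_filter.2 ⟨(S.mem_tl i _).2 (S.lab_mem i k), rfl⟩⟩

theorem CNT_some {i : ι} {x : ℂ} (hx : x ∈ S.N i) : ∃ k, 1 ≤ S.cnt k x := by
  obtain ⟨j, hj⟩ := S.corner i x hx
  obtain ⟨k, hk⟩ := (S.lab_C j x).1 hj
  exact ⟨k, hk ▸ S.cnt_pos j k⟩

theorem fl_le {i : ι} {x : ℂ} (hx : x ∈ S.N i) : S.fl x ≤ 1 := by
  by_contra hcon
  have h2 : 2 ≤ S.fl x := by omega
  have h2' : (2 : ℝ) ≤ S.fl x := by exact_mod_cast h2
  have hsum := S.ang_cnt hx
  have hpi := Real.pi_pos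
  obtain ⟨k, hk⟩ := S.CNT_some hx
  have hk' : (1 : ℝ) ≤ S.cnt k x := by exact_mod_cast hk
  have hth := S.θ_pos
  have hnn : ∀ l, 0 ≤ (S.cnt l x : ℝ) * S.θ l := fun l => mul_nonneg (Nat.cast_nonneg _) (hth l).le
  have hpos : 0 < (S.cnt k x : ℝ) * S.θ k := mul_pos (by linarith) (hth k)
  have h3 : 2 * Real.pi ≤ S.fl x * Real.pi := mul_le_mul_of_nonneg_right h2' hpi.le
  have hall : 0 < (S.cnt 0 x : ℝ) * S.θ 0 + S.cnt 1 x * S.θ 1 + S.cnt 2 x * S.θ 2 := by
    have a0 := hnn 0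
    have a1 := hnn 1
    have a2 := hnn 2
    fin_cases k
    · have : 0 < (S.cnt 0 x : ℝ) * S.θ 0 := hpos
      linarith
    · have : 0 < (S.cnt 1 x : ℝ) * S.θ 1 := hpos
      linarith
    · have : 0 < (S.cnt 2 x : ℝ) * S.θ 2 := hpos
      linarith
  linarith

/-- if all tiles at `x` are counted by `cnt k x`, then `x` is the corner with label `k` of each -/
theorem lab_of_cnt {i : ι} {x : ℂ} {k : Fin 3} (hx : x ∈ S.N i) (h : S.cnt k x = S.val x) :
    S.lab i k = x := by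
  classical
  have h1 : (S.tl x).filter (fun i => S.lab i k = x) = S.tl x := by
    apply Finset.eq_of_subset_of_card_le (Finset.filter_subset _ _)
    exact le_of_eq h.symm
  have h2 : i ∈ (S.tl x).filter (fun i => S.lab i k = x) := by
    rw [h1]
    exact (S.mem_tl i x).2 hx
  exact (Finset.mem_filter.1 h2).2

theorem three_valent {i : ι} {x : ℂ} (hx : x ∈ S.N i) (hv : S.val x = 3) :
    (S.θ 2 = 2 * Real.pi / 3 ∧ S.cnt 2 x = 3 ∧ S.fl x = 0) ∨
    (S.θ 2 = Real.pi / 2 ∧ S.cnt 2 x = 2 ∧ S.fl x = 1) := by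
  have h1 := S.val_cnt x
  rw [hv] at h1
  have h2 := S.ang_cnt hx
  have h3 := S.fl_le hx
  have t0 := S.θ_pos 0
  have t01 := S.θ_le01
  have t12 := S.θ_le12
  have ts := S.θ_sum
  generalize S.cnt 0 x = a at *
  generalize S.cnt 1 x = b at *
  generalize S.cnt 2 x = c at *
  generalize S.fl x = d at *
  have ha : a ≤ 3 := by omega
  have hb : b ≤ 3 := by omega
  have hc : c ≤ 3 := by omega
  interval_cases d
  · left
    interval_cases a <;> interval_cases b <;> interval_cases c <;>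
      first
      | (exfalso; omega)
      | (exfalso; push_cast at h2; linarith)
      | (refine ⟨?_, rfl, rfl⟩; push_cast at h2; linarith)
  · right
    interval_cases a <;> interval_cases b <;> interval_cases c <;>
      first
      | (exfalso; omega)
      | (exfalso; push_cast at h2; linarith)
      | (refine ⟨?_, rfl, rfl⟩; push_cast at h2; linarith)

theorem card3_corner {i : ι} (h : (S.N i).card = 3) : S.N i = S.C i :=
  (Finset.eq_of_subset_of_card_le (S.C_sub i) (by rw [h, S.C_card])).symm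

/-- `N i` consists of the three corners if `|N i| = 3` -/
theorem card3_mem {i : ι} (h : (S.N i).card = 3) (x : ℂ) :
    x ∈ S.N i ↔ x = S.lab i 0 ∨ x = S.lab i 1 ∨ x = S.lab i 2 := by
  rw [S.card3_corner h]
  exact S.C_eq i x

end Sys3

end Pool.Agent.NNb
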