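import Pool.Agent.NNb.SumVal
import Pool.Agent.NNb.Link
import Pool.Agent.NNb.Cnt

/-!
Module CLS2A.  Scalene triangles with `θ 2 = 2π/3` (`θ 0 < θ 1`, so `θ 0 + θ 1 = π/3`): `H2` and `H3`.

`cls2_three`: a node of valence 3 on `i` is the corner `lab i 2` of `i` (`three_valent`: `cnt 2 = 3 = val`,
`lab_of_cnt`).  So `H2`.
`cls2_four`: a node of valence 4 has `cnt 0 = cnt 1 = cnt 2 = fl = 1`: with
`a θ 0 + b θ 1 + c · 2π/3 + fl π = 2π`, `a + b + c + fl = 4`.  `fl = 0`: `c = 3` gives `a + b = 1` and
`a θ 0 + b θ 1 = 0`; `c ≥ 4` too large; `c = 2`: `a θ 0 + b θ 1 = 2π/3` with `a + b = 2`, but `2 θ 1 < 2π/3`;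
`c = 1`: `3 θ 1 < π < 4π/3`; `c = 0`: `4 θ 1 < 4π/3 < 2π`.  `fl = 1`: `c = 0`: `3 θ 1 < π`; `c ≥ 2`: too large;
`c = 1`: `a + b = 2`, `a θ 0 + b θ 1 = π/3 = θ 0 + θ 1`, so `a = b = 1` as `θ 0 ≠ θ 1`.
`cls2_H3`: suppose `val p = n - 1`, `p ∈ N i`.  `∑ (val - 2) = n` leaves `3` for the at least two other
nodes, at most one of valence 3: so `N i = {p, g, y}` with `val g = 3`, `val y = 4`, for every tile `i` at
`p`.  All three nodes are corners, `g = lab i 2`, so `y = lab i 0` or `lab i 1`.  Fix `i`, `y`, and let `i'` be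
the other tile with `p, y` (`part_of_three`, `part_other`): `N i' = {p, g', y}`, `g' ≠ g`.  By `cls2_four`,
`tl y = {i, i', V, W}` where `lab V 2 = y` (`V ≠ i, i'` since `y` has label `0` or `1` there) and `y ∉ C W`.
`V` has two partners of `y`, each shared with exactly one of `i, i', W`; not both with `W` (`three`).  If
`e ∈ N V ∩ N i`, `e ≠ y`: `e` is a partner of `y` on `i`, so `e = p` or `e = g`; `e ≠ p` (`edge`); so
`g ∈ N V`, and by `cls2_three` `lab V 2 = g`, contradiction with `lab V 2 = y ≠ g`.  The same for `i'`.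
-/

namespace Pool.Agent.NNb

namespace Sys3

variable {ι : Type} {n : ℕ} (S : Sys3 ι n)

theorem cls2_three (h2 : S.θ 2 = 2 * Real.pi / 3) {i : ι} {x : ℂ} (hx : x ∈ S.N i)
    (hv : S.val x = 3) : S.lab i 2 = x := by
  rcases S.three_valent hx hv with h | h
  · exact S.lab_of_cnt hx (by rw [h.2.1, hv])
  · exfalso
    have h3 := h.1
    rw [h2] at h3
    have := Real.pi_pos
    linarith

theorem cls2_H2 (h2 : S.θ 2 = 2 * Real.pi / 3) : S.H2 := by
  intro i x y hx hy hvx hvy
  rw [← S.cls2_three h2 hx hvx, ← S.cls2_three h2 hy hvy]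

theorem cls2_four (h2 : S.θ 2 = 2 * Real.pi / 3) (h01 : S.θ 0 < S.θ 1) {i : ι} {x : ℂ}
    (hx : x ∈ S.N i) (hv : S.val x = 4) :
    S.cnt 0 x = 1 ∧ S.cnt 1 x = 1 ∧ S.cnt 2 x = 1 ∧ S.fl x = 1 := by
  have hc := S.val_cnt x
  have ha := S.ang_cnt hx
  have hf := S.fl_le hx
  rw [hv] at hc
  have h0 := S.θ_pos 0
  have hs := S.θ_sum
  have hp := Real.pi_pos
  rw [h2] at ha hs
  generalize S.cnt 0 x = A at *
  generalize S.cnt 1 x = B at *
  generalize S.cnt 2 x = C at *
  generalize S.fl x = F at *
  generalize S.θ 0 = u at *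
  generalize S.θ 1 = v at *
  have hC : C ≤ 4 := by omega
  have hB : B ≤ 4 := by omega
  interval_cases F
  · exfalso
    interval_cases C
    all_goals interval_cases B
    all_goals first
      | omega
      | skip
    all_goals first
      | (have hA : A = 4 := by omega
         subst hA; push_cast at ha; linarith)
      | (have hA : A = 3 := by omega
         subst hA; push_cast at ha; linarith)
      | (have hA : A = 2 := by omega
         subst hA; push_cast at ha; linarith)
      | (have hA : A = 1 := by omega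
         subst hA; push_cast at ha; linarith)
      | (have hA : A = 0 := by omega
         subst hA; push_cast at ha; linarith)
  · interval_cases C
    all_goals interval_cases B
    all_goals first
      | omega
      | skip
    all_goals exfalso
    all_goals first
      | (have hA : A = 3 := by omega
         subst hA; push_cast at ha; linarith)
      | (have hA : A = 2 := by omega
         subst hA; push_cast at ha; linarith)
      | (have hA : A = 1 := by omega
         subst hA; push_cast at ha; linarith)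
      | (have hA : A = 0 := by omega
         subst hA; push_cast at ha; linarith)

private theorem CLS2A_three (hn : 15 ≤ n) (h2 : S.θ 2 = 2 * Real.pi / 3) {t : ι} {p : ℂ}
    (hp : p ∈ S.N t) (hv : S.val p + 1 = n) :
    ∃ g y, g ∈ S.N t ∧ y ∈ S.N t ∧ g ≠ y ∧ g ≠ p ∧ y ≠ p ∧ S.val g = 3 ∧ S.val y = 4 ∧
      (S.N t).card = 3 ∧ ∀ x ∈ S.N t, x = p ∨ x = g ∨ x = y := by
  classical
  have hs := S.sum_val t
  rw [← Finset.add_sum_erase _ _ hp] at hs
  have hsum : ∑ y ∈ (S.N t).erase p, (S.val y - 2) = 3 := by omega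
  have hc : 3 ≤ (S.N t).card := S.card_ge t
  have hc' : ((S.N t).erase p).card = (S.N t).card - 1 := Finset.card_erase_of_mem hp
  have hge : ∀ x ∈ (S.N t).erase p, 3 ≤ S.val x := fun x hx =>
    S.val_ge (Finset.mem_of_mem_erase hx)
  have hone : ∀ x ∈ (S.N t).erase p, ∀ y ∈ (S.N t).erase p, x ≠ y →
      S.val x = 3 → S.val y = 3 → False := by
    intro x hx y hy hxy hvx hvy
    exact hxy (S.cls2_H2 h2 t x y (Finset.mem_of_mem_erase hx) (Finset.mem_of_mem_erase hy)
      hvx hvy)
  have hcard : ((S.N t).erase p).card = 2 := by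
    by_contra hne
    have h3 : 2 < ((S.N t).erase p).card := by omega
    rw [Finset.two_lt_card] at h3
    obtain ⟨a, ha, b, hb, c, hc3, hab, hac, hbc⟩ := h3
    have h4 : ∑ y ∈ ({a, b, c} : Finset ℂ), (S.val y - 2) ≤
        ∑ y ∈ (S.N t).erase p, (S.val y - 2) := by
      refine Finset.sum_le_sum_of_subset ?_
      intro x hx
      simp only [Finset.mem_insert, Finset.mem_singleton] at hx
      rcases hx with rfl | rfl | rfl
      · exact ha
      · exact hb
      · exact hc3
    rw [Finset.sum_insert (by simp [hab, hac]), Finset.sum_insert (by simp [hbc]),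
      Finset.sum_singleton] at h4
    have h5 := hge a ha
    have h6 := hge b hb
    have h7 := hge c hc3
    have h8 := hone a ha b hb hab
    have h9 := hone a ha c hc3 hac
    have h10 := hone b hb c hc3 hbc
    by_cases k1 : S.val a = 3 <;> by_cases k2 : S.val b = 3 <;> by_cases k3 : S.val c = 3
    · exact h8 k1 k2
    · exact h8 k1 k2
    · exact h9 k1 k3
    · omega
    · exact h10 k2 k3
    · omega
    · omega
    · omega
  have key : ∀ a b : ℂ, a ≠ b → (S.N t).erase p = {a, b} → S.val a = 3 → S.val b = 4 →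
      ∃ g y, g ∈ S.N t ∧ y ∈ S.N t ∧ g ≠ y ∧ g ≠ p ∧ y ≠ p ∧ S.val g = 3 ∧ S.val y = 4 ∧
      (S.N t).card = 3 ∧ ∀ x ∈ S.N t, x = p ∨ x = g ∨ x = y := by
    intro a b hab he h3 h4
    have ha : a ∈ (S.N t).erase p := by rw [he]; simp
    have hb : b ∈ (S.N t).erase p := by rw [he]; simp
    refine ⟨a, b, Finset.mem_of_mem_erase ha, Finset.mem_of_mem_erase hb, hab,
      Finset.ne_of_mem_erase ha, Finset.ne_of_mem_erase hb, h3, h4, by omega, ?_⟩
    intro x hx
    by_cases hxp : x = p
    · exact Or.inl hxp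
    · right
      have h5 : x ∈ (S.N t).erase p := Finset.mem_erase.2 ⟨hxp, hx⟩
      rw [he] at h5
      simpa using h5
  obtain ⟨a, b, hab, he⟩ := Finset.card_eq_two.1 hcard
  have hsum' := hsum
  rw [he, Finset.sum_insert (by simp [hab]), Finset.sum_singleton] at hsum'
  have ha : a ∈ (S.N t).erase p := by rw [he]; simp
  have hb : b ∈ (S.N t).erase p := by rw [he]; simp
  have h5 := hge a ha
  have h6 := hge b hb
  by_cases k : S.val a = 3
  · exact key a b hab he k (by omega)
  · have k1 : S.val a = 4 := by omega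
    have k2 : S.val b = 3 := by omega
    exact key b a hab.symm (by rw [he, Finset.pair_comm]) k2 k1

theorem cls2_H3 (hn : 15 ≤ n) (h2 : S.θ 2 = 2 * Real.pi / 3) (h01 : S.θ 0 < S.θ 1) : S.H3 := by
  classical
  intro i p hp hv
  obtain ⟨g, y, hg, hy, hgy, hgp, hyp, hvg, hvy, hc, hall⟩ := CLS2A_three S hn h2 hp hv
  obtain ⟨i', hi', hpart, hoth⟩ := S.part_other (S.part_of_three hc hp hy hyp.symm)
  have hp' : p ∈ S.N i' := hpart.1
  have hy' : y ∈ S.N i' := hpart.2.1
  obtain ⟨g', y', hg', hyy', hgy', hgp', hyp', hvg', hvy', hc', hall'⟩ :=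
    CLS2A_three S hn h2 hp' hv
  have hyeq : y = y' := by
    rcases hall' y hy' with h | h | h
    · exact absurd h hyp
    · rw [h] at hvy; omega
    · exact h
  subst hyeq
  obtain ⟨_, _, hc2, _⟩ := S.cls2_four h2 h01 hy hvy
  have hV : ∃ V, V ∈ S.tl y ∧ S.lab V 2 = y := by
    unfold cnt at hc2
    obtain ⟨V, hV⟩ := Finset.card_pos.1 (by rw [hc2]; exact Nat.one_pos)
    rw [Finset.mem_filter] at hV
    exact ⟨V, hV⟩
  obtain ⟨V, hVt, hVl⟩ := hV
  have hyV : y ∈ S.N V := (S.mem_tl V y).1 hVt
  have hVi : V ≠ i := by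
    rintro rfl
    have := S.cls2_three h2 hg hvg
    exact hgy (this.symm.trans hVl)
  have hVi' : V ≠ i' := by
    rintro rfl
    have := S.cls2_three h2 hg' hvg'
    exact hgy' (this.symm.trans hVl)
  -- no node other than y is shared between V and i, or V and i'
  have hnoi : ∀ e, e ≠ y → e ∈ S.N V → e ∉ S.N i := by
    intro e hey heV hei
    rcases hall e hei with h | h | h
    · subst h
      rcases S.edge e y i i' V hyp.symm hp hy hp' hy' heV hyV with h | h | h
      · exact hi' h.symm
      · exact hVi' h.symm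
      · exact hVi h.symm
    · subst h
      have := S.cls2_three h2 heV hvg
      exact hgy (this.symm.trans hVl)
    · exact hey h
  have hnoi' : ∀ e, e ≠ y → e ∈ S.N V → e ∉ S.N i' := by
    intro e hey heV hei
    rcases hall' e hei with h | h | h
    · subst h
      rcases S.edge e y i i' V hyp.symm hp hy hp' hy' heV hyV with h | h | h
      · exact hi' h.symm
      · exact hVi' h.symm
      · exact hVi h.symm
    · subst h
      have := S.cls2_three h2 heV hvg'
      exact hgy' (this.symm.trans hVl)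
    · exact hey h
  obtain ⟨e1, e2, he12, hp1, hp2, _⟩ := S.part V y hyV
  obtain ⟨_, h1V, hye1, j1, hj1, hyj1, h1j1⟩ := hp1
  obtain ⟨_, h2V, hye2, j2, hj2, hyj2, h2j2⟩ := hp2
  have hj1i : j1 ≠ i := by rintro rfl; exact hnoi e1 hye1.symm h1V h1j1
  have hj1i' : j1 ≠ i' := by rintro rfl; exact hnoi' e1 hye1.symm h1V h1j1
  have hj2i : j2 ≠ i := by rintro rfl; exact hnoi e2 hye2.symm h2V h2j2
  have hj2i' : j2 ≠ i' := by rintro rfl; exact hnoi' e2 hye2.symm h2V h2j2
  have hj12 : j1 = j2 := by
    by_contra hne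
    have h5 : ({i, i', V, j1, j2} : Finset ι) ⊆ S.tl y := by
      intro t ht
      simp only [Finset.mem_insert, Finset.mem_singleton] at ht
      rw [S.mem_tl]
      rcases ht with rfl | rfl | rfl | rfl | rfl
      · exact hy
      · exact hy'
      · exact hyV
      · exact hyj1
      · exact hyj2
    have h6 := Finset.card_le_card h5
    have h7 : ({i, i', V, j1, j2} : Finset ι).card = 5 := by
      rw [Finset.card_insert_of_notMem, Finset.card_insert_of_notMem,
        Finset.card_insert_of_notMem, Finset.card_insert_of_notMem, Finset.card_singleton]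
      · simp [hne]
      · simp [hj1.symm, hj2.symm]
      · simp [hVi'.symm, hj1i'.symm, hj2i'.symm]
      · simp [hi'.symm, hVi.symm, hj1i.symm, hj2i.symm]
    have h8 : (S.tl y).card = 4 := hvy
    omega
  subst hj12
  rcases S.three V j1 y e1 e2 hj1.symm hyV h1V h2V hyj1 h1j1 h2j2 with h | h | h
  · exact hye1 h
  · exact he12 h
  · exact hye2 h

end Sys3

end Pool.Agent.NNb
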