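import Pool.Agent.NNb.Cnt
import Pool.Agent.NNb.Link

/-!
Module TRIS.  Elementary geometry of the sides of the labelled triangles of a `Sys3`.

All statements are about the non-collinear points `lab i 0, lab i 1, lab i 2` (`ncol`; by symmetry the
`crs` of any two differences is nonzero), `segment ℝ` and `Sbtw ℝ`/`openSegment`.
* `corner_not_side`: a corner is not on the opposite side.
* `side_inter`: two different sides meet only in the common corner.
* `part_corner`: a partner `y` of the corner `lab i k` lies on one of the two sides at this corner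
  (`same_side`, `corner_not_side`).
* `part_corner_two`: the partner of the corner `lab i k` on the side to `lab i l` is unique: if both
  partners were on the same side, then `part_dir` in the direction of the third corner would give a
  third one (`side_inter`), contradiction to `not_three_partners`.
* `flat_side`: if `x` is inside the side `k, l` and `x, y` are partners, then `y` is on the same side.
* `part_flat_two`: if `x` is inside the side `k l` of `i`, and `y ≠ z` are partners of `x` on `i`, then one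
  of them is in `segment x (lab i k)` and the other one in `segment x (lab i l)`; more precisely if
  `y ∈ segment ℝ x (lab i k)` then `z ∈ segment ℝ x (lab i l)` (`part_dir` in both directions gives all
  partners).
* `ray_cmp`: `y ≠ x` lies on the segments `[x, P]` and `[x, Q]` with `P = lab i a`, `Q = lab j b`, so `P - x`
  and `Q - x` are positive multiples of `y - x`.  If `dist x P < dist x Q`, then `P` is strictly between
  `x` and `Q`, hence on the side `[lab j b', lab j b]` which contains `x`, so `P ∈ N j` (`side_mem`) and `P`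
  is not a corner of `j`.  If the distances are equal, `P = Q`.
-/

namespace Pool.Agent.NNb

namespace Sys3

variable {ι : Type} {n : ℕ} (S : Sys3 ι n)

theorem TRIS_seg {a b x : ℂ} : x ∈ segment ℝ a b ↔ ∃ t : ℝ, 0 ≤ t ∧ t ≤ 1 ∧ x = a + t • (b - a) := by
  rw [segment_eq_image']
  constructor
  · rintro ⟨t, ⟨h0, h1⟩, rfl⟩
    exact ⟨t, h0, h1, rfl⟩
  · rintro ⟨t, h0, h1, rfl⟩
    exact ⟨t, ⟨h0, h1⟩, rfl⟩

theorem TRIS_crs_smul_left (t : ℝ) (a b : ℂ) : crs (t • a) b = t * crs a b := by
  unfold crs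
  simp
  ring

theorem TRIS_crs_smul_right (t : ℝ) (a b : ℂ) : crs a (t • b) = t * crs a b := by
  unfold crs
  simp
  ring

theorem TRIS_crs_self (a : ℂ) : crs a a = 0 := by
  unfold crs
  ring

theorem TRIS_ncol (i : ι) {k l m : Fin 3} (hkl : k ≠ l) (hkm : k ≠ m) (hlm : l ≠ m) :
    crs (S.lab i l - S.lab i k) (S.lab i m - S.lab i k) ≠ 0 := by
  have h := S.ncol i
  intro hz
  apply h
  unfold crs at hz ⊢
  simp only [Complex.sub_re, Complex.sub_im] at hz ⊢
  fin_cases k <;> fin_cases l <;> fin_cases m <;> simp at hkl hkm hlm hz ⊢ <;> linarith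

theorem TRIS_ne (i : ι) {k l : Fin 3} (hkl : k ≠ l) : S.lab i k ≠ S.lab i l :=
  fun h => hkl (S.lab_inj i h)

theorem TRIS_third (k l : Fin 3) (hkl : k ≠ l) : ∃ m : Fin 3, k ≠ m ∧ l ≠ m := by
  revert k l
  decide

theorem TRIS_cases (k l m a : Fin 3) (hkl : k ≠ l) (hkm : k ≠ m) (hlm : l ≠ m) :
    a = k ∨ a = l ∨ a = m := by
  revert k l m a
  decide

theorem corner_not_side (i : ι) {k l m : Fin 3} (hkl : k ≠ l) (hkm : k ≠ m) (hlm : l ≠ m) :
    S.lab i k ∉ segment ℝ (S.lab i l) (S.lab i m) := by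
  intro h
  obtain ⟨t, _, _, ht⟩ := TRIS_seg.1 h
  apply S.TRIS_ncol i hkl hkm hlm
  have e1 : S.lab i l - S.lab i k = (-t) • (S.lab i m - S.lab i l) := by
    rw [ht]
    simp
  have e2 : S.lab i m - S.lab i k = (1 - t) • (S.lab i m - S.lab i l) := by
    rw [ht, sub_smul, one_smul]
    ring
  rw [e1, e2, TRIS_crs_smul_left, TRIS_crs_smul_right, TRIS_crs_self]
  ring

theorem side_inter (i : ι) {k l m : Fin 3} (hkl : k ≠ l) (hkm : k ≠ m) (hlm : l ≠ m) {x : ℂ}
    (h1 : x ∈ segment ℝ (S.lab i k) (S.lab i l)) (h2 : x ∈ segment ℝ (S.lab i k) (S.lab i m)) :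
    x = S.lab i k := by
  obtain ⟨t, _, _, ht⟩ := TRIS_seg.1 h1
  obtain ⟨u, _, _, hu⟩ := TRIS_seg.1 h2
  have h := S.TRIS_ncol i hkl hkm hlm
  have e : t • (S.lab i l - S.lab i k) = u • (S.lab i m - S.lab i k) := by
    have := ht.symm.trans hu
    exact add_left_cancel this
  have e2 : t * crs (S.lab i l - S.lab i k) (S.lab i m - S.lab i k) = 0 := by
    rw [← TRIS_crs_smul_left, e, TRIS_crs_smul_left, TRIS_crs_self, mul_zero]
  have ht0 : t = 0 := by
    rcases mul_eq_zero.1 e2 with h' | h'
    · exact h'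
    · exact absurd h' h
  rw [ht, ht0, zero_smul, add_zero]

theorem part_corner {i : ι} {k : Fin 3} {y : ℂ} (h : Part S.N i (S.lab i k) y) :
    ∃ l, l ≠ k ∧ y ∈ segment ℝ (S.lab i k) (S.lab i l) := by
  obtain ⟨a, b, hab, h1, h2⟩ := S.same_side i _ _ h
  by_cases hka : k = a
  · subst hka
    exact ⟨b, hab.symm, h2⟩
  · by_cases hkb : k = b
    · subst hkb
      refine ⟨a, hab, ?_⟩
      rw [segment_symm]
      exact h2
    · exact absurd h1 (S.corner_not_side i hka hkb hab)

theorem part_corner_two {i : ι} {k l : Fin 3} {y z : ℂ} (hkl : l ≠ k)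
    (h : Part S.N i (S.lab i k) y) (h' : Part S.N i (S.lab i k) z)
    (hy : y ∈ segment ℝ (S.lab i k) (S.lab i l)) (hz : z ∈ segment ℝ (S.lab i k) (S.lab i l)) :
    y = z := by
  obtain ⟨m, hkm, hlm⟩ := TRIS_third k l hkl.symm
  obtain ⟨w, hw, hw2⟩ := S.part_dir i k m (S.lab i k) (S.lab_mem i k) hkm
    (left_mem_segment ℝ _ _) (S.TRIS_ne i hkm)
  rcases S.not_three_partners h h' hw with e | e | e
  · exact e
  · exfalso
    rw [← e] at hw2
    exact h'.2.2.1 (S.side_inter i hkl.symm hkm hlm hz hw2).symm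
  · exfalso
    rw [← e] at hw2
    exact h.2.2.1 (S.side_inter i hkl.symm hkm hlm hy hw2).symm

theorem flat_side {i : ι} {k l : Fin 3} {x y : ℂ} (hx : x ∉ S.C i)
    (hs : x ∈ segment ℝ (S.lab i k) (S.lab i l)) (hkl : k ≠ l) (h : Part S.N i x y) :
    y ∈ segment ℝ (S.lab i k) (S.lab i l) := by
  have hxc : ∀ c, x ≠ S.lab i c := fun c hc => hx ((S.lab_C i x).2 ⟨c, hc⟩)
  obtain ⟨a, b, hab, h1, h2⟩ := S.same_side i _ _ h
  -- reduce to the case that `a` is `k` or `l`
  have key : ∀ a b : Fin 3, a ≠ b → x ∈ segment ℝ (S.lab i a) (S.lab i b) →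
      y ∈ segment ℝ (S.lab i a) (S.lab i b) → (a = k ∨ a = l) →
      y ∈ segment ℝ (S.lab i k) (S.lab i l) := by
    intro a b hab h1 h2 ha
    rcases ha with ha | ha
    · subst ha
      by_cases hbl : b = l
      · subst hbl
        exact h2
      · exact absurd (S.side_inter i hkl hab (fun e => hbl e.symm) hs h1) (hxc a)
    · subst ha
      by_cases hbk : b = k
      · subst hbk
        rw [segment_symm]
        exact h2
      · rw [segment_symm] at hs
        exact absurd (S.side_inter i hkl.symm hab (fun e => hbk e.symm) hs h1) (hxc a)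
  by_cases ha : a = k ∨ a = l
  · exact key a b hab h1 h2 ha
  · push Not at ha
    have hb : b = k ∨ b = l := by
      rcases TRIS_cases k l a b hkl (fun e => ha.1 e.symm) (fun e => ha.2 e.symm) with e | e | e
      · exact Or.inl e
      · exact Or.inr e
      · exact absurd e.symm hab
    exact key b a hab.symm (segment_symm ℝ (S.lab i a) (S.lab i b) ▸ h1)
      (segment_symm ℝ (S.lab i a) (S.lab i b) ▸ h2) hb

theorem part_flat_two {i : ι} {k l : Fin 3} {x y z : ℂ} (hx : x ∉ S.C i)
    (hs : x ∈ segment ℝ (S.lab i k) (S.lab i l)) (hkl : k ≠ l) (hyz : y ≠ z)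
    (h : Part S.N i x y) (h' : Part S.N i x z) (hy : y ∈ segment ℝ x (S.lab i k)) :
    z ∈ segment ℝ x (S.lab i l) := by
  have hxc : ∀ c, x ≠ S.lab i c := fun c hc => hx ((S.lab_C i x).2 ⟨c, hc⟩)
  obtain ⟨w, hw, hw2⟩ := S.part_dir i k l x h.1 hkl hs (hxc l)
  rcases S.not_three_partners h h' hw with e | e | e
  · exact absurd e hyz
  · rw [e]
    exact hw2
  · exfalso
    rw [← e] at hw2
    obtain ⟨t, ht0, ht1, ht⟩ := TRIS_seg.1 hs
    obtain ⟨α, hα0, _, hα⟩ := TRIS_seg.1 hy
    obtain ⟨β, hβ0, _, hβ⟩ := TRIS_seg.1 hw2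
    have hkl' : S.lab i l - S.lab i k ≠ 0 := sub_ne_zero.2 (S.TRIS_ne i hkl.symm)
    have e1 : S.lab i k - x = (-t) • (S.lab i l - S.lab i k) := by
      rw [ht]
      simp
    have e2 : S.lab i l - x = (1 - t) • (S.lab i l - S.lab i k) := by
      rw [ht, sub_smul, one_smul]
      ring
    rw [e1] at hα
    rw [e2] at hβ
    have e3 : (α * (-t)) • (S.lab i l - S.lab i k) =
        (β * (1 - t)) • (S.lab i l - S.lab i k) := by
      have h3 := hα.symm.trans hβ
      have h4 := add_left_cancel h3
      rw [smul_smul, smul_smul] at h4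
      exact h4
    have e4 : α * (-t) = β * (1 - t) := smul_left_injective ℝ hkl' e3
    have hαt : α * t = 0 := by
      have p1 : 0 ≤ α * t := mul_nonneg hα0 ht0
      have p2 : 0 ≤ β * (1 - t) := mul_nonneg hβ0 (by linarith)
      nlinarith
    rcases mul_eq_zero.1 hαt with hz | hz
    · apply h.2.2.1
      rw [hα, hz, zero_smul, add_zero]
    · apply hxc k
      rw [ht, hz, zero_smul, add_zero]

theorem ray_cmp {i j : ι} {a b b' : Fin 3} {x y : ℂ} (hy : y ≠ x)
    (h1 : y ∈ segment ℝ x (S.lab i a)) (h2 : y ∈ segment ℝ x (S.lab j b)) (hb : b ≠ b')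
    (hx : x ∈ segment ℝ (S.lab j b') (S.lab j b)) :
    (dist x (S.lab i a) < dist x (S.lab j b) → S.lab i a ∈ S.N j ∧ S.lab i a ∉ S.C j) ∧
    (dist x (S.lab i a) = dist x (S.lab j b) → S.lab i a = S.lab j b) := by
  obtain ⟨α, hα0, _, hα⟩ := TRIS_seg.1 h1
  obtain ⟨β, hβ0, _, hβ⟩ := TRIS_seg.1 h2
  obtain ⟨t, ht0, ht1, ht⟩ := TRIS_seg.1 hx
  have hα' : 0 < α := by
    rcases hα0.lt_or_eq with h | h
    · exact h
    · exfalso
      apply hy
      rw [hα, ← h, zero_smul, add_zero]
  have hβ' : 0 < β := by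
    rcases hβ0.lt_or_eq with h | h
    · exact h
    · exfalso
      apply hy
      rw [hβ, ← h, zero_smul, add_zero]
  have hQx : S.lab j b - x ≠ 0 := by
    intro h
    apply hy
    rw [hβ, h, smul_zero, add_zero]
  set γ := β / α with hγ
  have hγ0 : 0 < γ := div_pos hβ' hα'
  have hP : S.lab i a - x = γ • (S.lab j b - x) := by
    have h3 : α • (S.lab i a - x) = β • (S.lab j b - x) := add_left_cancel (hα.symm.trans hβ)
    rw [hγ, div_eq_inv_mul, mul_smul, ← h3, smul_smul, inv_mul_cancel₀ hα'.ne', one_smul]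
  have hPe : S.lab i a = x + γ • (S.lab j b - x) := by
    rw [← hP]
    ring
  have hd : dist x (S.lab i a) = γ * dist x (S.lab j b) := by
    rw [dist_comm, dist_eq_norm, hP, norm_smul, dist_comm x, dist_eq_norm, Real.norm_eq_abs,
      abs_of_pos hγ0]
  have hdQ : 0 < dist x (S.lab j b) := by
    rw [dist_pos]
    intro h
    apply hQx
    rw [← h, sub_self]
  constructor
  · intro hlt
    have hγ1 : γ < 1 := by
      rw [hd] at hlt
      by_contra hcon
      have : dist x (S.lab j b) ≤ γ * dist x (S.lab j b) := by nlinarith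
      linarith
    have hseg : S.lab i a ∈ segment ℝ (S.lab j b') (S.lab j b) := by
      have hc := convex_segment (𝕜 := ℝ) (S.lab j b') (S.lab j b)
      apply hc.segment_subset hx (right_mem_segment ℝ _ _)
      exact TRIS_seg.2 ⟨γ, hγ0.le, hγ1.le, hPe⟩
    refine ⟨S.side_mem j i b' b _ (S.lab_mem i a) hseg, ?_⟩
    intro hC
    obtain ⟨c, hc⟩ := (S.lab_C j _).1 hC
    obtain ⟨m, hbm, hb'm⟩ := TRIS_third b b' hb
    rcases TRIS_cases b b' m c hb hbm hb'm with e | e | e
    · subst e
      rw [hc] at hP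
      have h5 : (1 - γ) • (S.lab j c - x) = 0 := by
        rw [sub_smul, one_smul, ← hP, sub_self]
      rcases smul_eq_zero.1 h5 with h6 | h6
      · linarith
      · exact hQx h6
    · subst e
      have hne : S.lab j b - S.lab j c ≠ 0 := sub_ne_zero.2 (S.TRIS_ne j hb)
      have h5 : (t + γ * (1 - t)) • (S.lab j b - S.lab j c) = 0 := by
        have h6 : S.lab j b - x = (1 - t) • (S.lab j b - S.lab j c) := by
          rw [ht, sub_smul, one_smul]
          ring
        have h7 : S.lab j c = x + γ • (S.lab j b - x) := hc ▸ hPe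
        rw [h6, smul_smul] at h7
        rw [add_smul]
        have h8 : S.lab j c + (t • (S.lab j b - S.lab j c) +
            (γ * (1 - t)) • (S.lab j b - S.lab j c)) = S.lab j c := by
          rw [← add_assoc, ← ht, ← h7]
        exact add_eq_left.1 h8
      rcases smul_eq_zero.1 h5 with h6 | h6
      · have p1 : 0 ≤ γ * (1 - t) := mul_nonneg hγ0.le (by linarith)
        have p2 : t = 0 := by linarith
        rw [p2] at h6
        linarith
      · exact hne h6
    · subst e
      rw [hc] at hseg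
      exact S.corner_not_side j hb'm.symm hbm.symm hb.symm hseg
  · intro heq
    rw [hd] at heq
    have hγ1 : γ = 1 := by
      have h5 : (γ - 1) * dist x (S.lab j b) = 0 := by linarith
      rcases mul_eq_zero.1 h5 with h6 | h6
      · linarith
      · exact absurd h6 hdQ.ne'
    rw [hPe, hγ1, one_smul]
    ring

end Sys3

end Pool.Agent.NNb
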