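import Pool.Agent.NNb.HubA
import Pool.Agent.NNb.Cls2A
import Pool.Agent.NNb.TriS

/-!
Module ASWAP.  Two adjacent `A`-tiles (three nodes, valences `n - 2, 4, 4`) at the node `p` of valence
`n - 2`, for a scalene triangle with `θ 2 = 2π/3`; and an elementary fact on four points in the plane.

`a_swap`: `N j = {p, y, z}` with `p = lab j k`, `y = lab j l`, `z = lab j m` (`{k, l, m} = {0, 1, 2}`,
`card3_mem`), `val y = val z = 4` (`IsA`; `n - 2 ≠ 4`).  Let `j' ≠ j` contain `p` and `y`.  By `hubA4`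
(`H2` from `cls2_H2`) `N j' = {p, y, z'}` with `val z' = 4`: `IsA j'`.  Let `z' = lab j' m'`.  By `side` the
distance `dist p y` is `ρ sin (θ m)` (computed in `j`) and `ρ sin (θ m')` (in `j'`).  The three values
`sin (θ 0) < sin (θ 1) < sin (θ 2)` are different (`θ 0 < θ 1 < π/3`, `sin (2π/3) = sin (π/3)`), so `m' = m` and
`{p, y} = {lab j' k, lab j' l}`.  By `cls2_four` `cnt l y = 1`, and `lab j l = y`, so `lab j' l ≠ y`
(`j, j' ∈ tl y`); hence `lab j' l = p` and `lab j' k = y`.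

`no_disphenoid`: four points `p, x, y, z` with equal opposite distances.  Put `Y = y - p` etc.
(`dt` = inner product): `2 dt Y Z = |Y|² + |Z|² - |y - z|²` and so on, so with `A = |Z|²`, `B = |Y|²`,
`C = |X|²`: `2 Y·Z = A + B - C`, `2 X·Y = B + C - A`, `2 X·Z = A + C - B`.  The Gram determinant of three
vectors in the plane vanishes (polynomial identity in the six coordinates), and it equals
`(A + B - C)(A + C - B)(B + C - A)/2`.  If `C > A + B` (and `A, B ≥ 0`) this is not zero: the first factor is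
negative, the others are positive.
-/

namespace Pool.Agent.NNb

private theorem ASWAP_dist (a b : ℂ) : dist a b ^ 2 = (a.re - b.re) ^ 2 + (a.im - b.im) ^ 2 := by
  rw [Complex.dist_eq, Complex.sq_norm, Complex.normSq_apply, Complex.sub_re, Complex.sub_im]
  ring

theorem no_disphenoid (p x y z : ℂ) (h1 : dist p y = dist z x) (h2 : dist p z = dist y x)
    (h3 : dist p x = dist y z) (h : dist p y ^ 2 + dist p z ^ 2 < dist p x ^ 2) : False := by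
  have e1 : dist p y ^ 2 = dist z x ^ 2 := by rw [h1]
  have e2 : dist p z ^ 2 = dist y x ^ 2 := by rw [h2]
  have e3 : dist p x ^ 2 = dist y z ^ 2 := by rw [h3]
  rw [ASWAP_dist, ASWAP_dist] at e1 e2 e3
  rw [ASWAP_dist, ASWAP_dist, ASWAP_dist] at h
  obtain ⟨X1, hX1⟩ : ∃ t, t = x.re - p.re := ⟨_, rfl⟩
  obtain ⟨X2, hX2⟩ : ∃ t, t = x.im - p.im := ⟨_, rfl⟩
  obtain ⟨Y1, hY1⟩ : ∃ t, t = y.re - p.re := ⟨_, rfl⟩
  obtain ⟨Y2, hY2⟩ : ∃ t, t = y.im - p.im := ⟨_, rfl⟩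
  obtain ⟨Z1, hZ1⟩ : ∃ t, t = z.re - p.re := ⟨_, rfl⟩
  obtain ⟨Z2, hZ2⟩ : ∃ t, t = z.im - p.im := ⟨_, rfl⟩
  obtain ⟨A, hA⟩ : ∃ t, t = Z1 ^ 2 + Z2 ^ 2 := ⟨_, rfl⟩
  obtain ⟨B, hB⟩ : ∃ t, t = Y1 ^ 2 + Y2 ^ 2 := ⟨_, rfl⟩
  obtain ⟨C, hC⟩ : ∃ t, t = X1 ^ 2 + X2 ^ 2 := ⟨_, rfl⟩
  have hA0 : 0 ≤ A := by rw [hA]; positivity
  have hB0 : 0 ≤ B := by rw [hB]; positivity
  have hlt : B + A < C := by
    rw [hA, hB, hC, hX1, hX2, hY1, hY2, hZ1, hZ2]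
    linarith
  have d1 : Y1 * Z1 + Y2 * Z2 = (A + B - C) / 2 := by
    rw [hA, hB, hC, hX1, hX2, hY1, hY2, hZ1, hZ2]
    linarith
  have d2 : X1 * Y1 + X2 * Y2 = (B + C - A) / 2 := by
    rw [hA, hB, hC, hX1, hX2, hY1, hY2, hZ1, hZ2]
    linarith
  have d3 : X1 * Z1 + X2 * Z2 = (A + C - B) / 2 := by
    rw [hA, hB, hC, hX1, hX2, hY1, hY2, hZ1, hZ2]
    linarith
  have G : C * (B * A - (Y1 * Z1 + Y2 * Z2) ^ 2) -
      (X1 * Y1 + X2 * Y2) * ((X1 * Y1 + X2 * Y2) * A - (Y1 * Z1 + Y2 * Z2) * (X1 * Z1 + X2 * Z2)) +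
      (X1 * Z1 + X2 * Z2) * ((X1 * Y1 + X2 * Y2) * (Y1 * Z1 + Y2 * Z2) - B * (X1 * Z1 + X2 * Z2))
      = 0 := by
    rw [hA, hB, hC]
    ring
  rw [d1, d2, d3] at G
  have G2 : (A + B - C) * ((A + C - B) * (B + C - A)) = 0 := by linarith
  rcases mul_eq_zero.1 G2 with g | g
  · linarith
  · rcases mul_eq_zero.1 g with g | g
    · linarith
    · linarith

private theorem ASWAP_perm (k l m a b : Fin 3) (hkl : k ≠ l) (hkm : k ≠ m) (hlm : l ≠ m)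
    (hab : a ≠ b) (ham : a ≠ m) (hbm : b ≠ m) : (a = k ∧ b = l) ∨ (a = l ∧ b = k) := by
  revert k l m a b
  decide

namespace Sys3

variable {ι : Type} {n : ℕ} (S : Sys3 ι n)

theorem ASWAP_side (i : ι) {k l m : Fin 3} (hkl : k ≠ l) (hkm : k ≠ m) (hlm : l ≠ m) :
    dist (S.lab i k) (S.lab i l) = S.ρ * Real.sin (S.θ m) := by
  obtain ⟨s0, s1, s2⟩ := S.side i
  have hcases : (k = 0 ∧ l = 1 ∧ m = 2) ∨ (k = 0 ∧ l = 2 ∧ m = 1) ∨ (k = 1 ∧ l = 0 ∧ m = 2) ∨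
      (k = 1 ∧ l = 2 ∧ m = 0) ∨ (k = 2 ∧ l = 0 ∧ m = 1) ∨ (k = 2 ∧ l = 1 ∧ m = 0) := by
    revert k l m
    decide
  rcases hcases with ⟨rfl, rfl, rfl⟩ | ⟨rfl, rfl, rfl⟩ | ⟨rfl, rfl, rfl⟩ | ⟨rfl, rfl, rfl⟩ |
    ⟨rfl, rfl, rfl⟩ | ⟨rfl, rfl, rfl⟩
  · exact s2
  · exact s1
  · rw [dist_comm]; exact s2
  · exact s0
  · rw [dist_comm]; exact s1
  · rw [dist_comm]; exact s0

theorem ASWAP_sin (h2 : S.θ 2 = 2 * Real.pi / 3) (h01 : S.θ 0 < S.θ 1) :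
    Real.sin (S.θ 0) < Real.sin (S.θ 1) ∧ Real.sin (S.θ 1) < Real.sin (S.θ 2) := by
  have hp := Real.pi_pos
  have h0 := S.θ_pos 0
  have hs := S.θ_sum
  constructor
  · apply Real.sin_lt_sin_of_lt_of_le_pi_div_two
    · linarith
    · linarith
    · exact h01
  · have e : Real.sin (S.θ 2) = Real.sin (Real.pi / 3) := by
      rw [← Real.sin_pi_sub, h2]
      congr 1
      ring
    rw [e]
    apply Real.sin_lt_sin_of_lt_of_le_pi_div_two
    · linarith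
    · linarith
    · linarith

theorem ASWAP_inj (h2 : S.θ 2 = 2 * Real.pi / 3) (h01 : S.θ 0 < S.θ 1) {a b : Fin 3}
    (h : Real.sin (S.θ a) = Real.sin (S.θ b)) : a = b := by
  obtain ⟨s1, s2⟩ := S.ASWAP_sin h2 h01
  fin_cases a <;> fin_cases b <;> first
    | rfl
    | (exfalso; simp only [Fin.zero_eta, Fin.mk_one, Fin.reduceFinMk] at h; linarith)

theorem a_swap (hn : 15 ≤ n) (h2 : S.θ 2 = 2 * Real.pi / 3) (h01 : S.θ 0 < S.θ 1) {j j' : ι}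
    {k l m : Fin 3} (hkl : k ≠ l) (hkm : k ≠ m) (hlm : l ≠ m) (hA : S.toSys.IsA j)
    (hp : S.val (S.lab j k) + 2 = n) (hj : j' ≠ j) (h1' : S.lab j k ∈ S.N j')
    (h2' : S.lab j l ∈ S.N j') :
    S.toSys.IsA j' ∧ S.lab j' l = S.lab j k ∧ S.lab j' k = S.lab j l := by
  classical
  obtain ⟨hc, h, hh, hvh, hoth⟩ := hA
  have hpl : S.lab j k ≠ S.lab j l := S.TRIS_ne j hkl
  have hk : S.lab j k = h := by
    by_contra hne
    have := hoth _ (S.lab_mem j k) hne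
    omega
  have hvy : S.val (S.lab j l) = 4 := hoth _ (S.lab_mem j l) (by rw [← hk]; exact hpl.symm)
  obtain ⟨hc', w, hw, hwp, hwy, hvw, hall⟩ := S.toSys.hubA4 hn (S.cls2_H2 h2) h1' h2' hp hvy
  have hA' : S.toSys.IsA j' := by
    refine ⟨hc', _, h1', hp, fun x hx hxp => ?_⟩
    rcases (hall x).1 hx with e | e | e
    · exact absurd e hxp
    · rw [e]; exact hvy
    · rw [e]; exact hvw
  refine ⟨hA', ?_⟩
  obtain ⟨a, ha⟩ := (S.lab_C j' _).1 ((S.card3_corner hc') ▸ h1')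
  obtain ⟨b, hb⟩ := (S.lab_C j' _).1 ((S.card3_corner hc') ▸ h2')
  have hab : a ≠ b := by
    rintro rfl
    exact hpl (ha.trans hb.symm)
  obtain ⟨c, hac, hbc⟩ := TRIS_third a b hab
  have hd1 := S.ASWAP_side j hkl hkm hlm
  have hd2 := S.ASWAP_side j' hab hac hbc
  rw [← ha, ← hb, hd1] at hd2
  have hmc : m = c := S.ASWAP_inj h2 h01 (mul_left_cancel₀ S.ρ_pos.ne' hd2)
  subst hmc
  have hcase := ASWAP_perm k l m a b hkl hkm hlm hab hac hbc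
  rcases hcase with ⟨rfl, rfl⟩ | ⟨rfl, rfl⟩
  · exfalso
    have h4 := S.cls2_four h2 h01 h2' hvy
    have h5 : S.cnt b (S.lab j b) = 1 := by
      fin_cases b
      · exact h4.1
      · exact h4.2.1
      · exact h4.2.2.1
    unfold cnt at h5
    obtain ⟨t, ht⟩ := Finset.card_eq_one.1 h5
    have m1 : j ∈ (S.tl (S.lab j b)).filter (fun i => S.lab i b = S.lab j b) :=
      Finset.mem_filter.2 ⟨(S.mem_tl _ _).2 (S.lab_mem j b), rfl⟩
    have m2 : j' ∈ (S.tl (S.lab j b)).filter (fun i => S.lab i b = S.lab j b) :=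
      Finset.mem_filter.2 ⟨(S.mem_tl _ _).2 h2', hb.symm⟩
    rw [ht, Finset.mem_singleton] at m1 m2
    exact hj (m2.trans m1.symm)
  · exact ⟨ha.symm, hb.symm⟩

end Sys3

end Pool.Agent.NNb
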