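import Pool.Agent.NNb.Cone

/-!
Module ANGIMG.  Angles are invariant under isometries.

An isometry `e` of `ℂ` is affine (Mazur-Ulam, `IsometryEquiv.toRealAffineIsometryEquiv`) with linear
part `L` (a linear isometry), `dcone (e '' S) (e x) = L '' (dcone S x)`, and `L` preserves the volume
(`LinearIsometryEquiv.measurePreserving`) and the unit ball.
-/

namespace Pool.Agent.NNb

theorem angl_image (S : Set ℂ) (x : ℂ) (e : ℂ ≃ᵢ ℂ) : angl (e '' S) (e x) = angl S x := by
  set a : ℂ ≃ᵃⁱ[ℝ] ℂ := e.toRealAffineIsometryEquiv with ha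
  set L : ℂ ≃ₗᵢ[ℝ] ℂ := a.linearIsometryEquiv with hL
  have hea : ∀ z, e z = a z := fun z => by
    rw [ha, IsometryEquiv.coeFn_toRealAffineIsometryEquiv]
  have hadd : ∀ z v, e (z + v) = e z + L v := by
    intro z v
    rw [hea, hea]
    have := a.map_vadd z v
    rw [vadd_eq_add, vadd_eq_add] at this
    rw [add_comm z v, this, add_comm]
  have hcone : dcone (e '' S) (e x) ∩ Metric.ball 0 1 = L.symm ⁻¹' (dcone S x ∩ Metric.ball 0 1) := by
    ext v
    simp only [dcone, Set.mem_inter_iff, Set.mem_ofPred_eq, Set.mem_preimage, Metric.mem_ball,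
      dist_zero_right, LinearIsometryEquiv.norm_map]
    have key : ∀ t : ℝ, e x + t • v = e (x + t • L.symm v) := by
      intro t
      rw [hadd, map_smul, LinearIsometryEquiv.apply_symm_apply]
    constructor
    · rintro ⟨⟨t, ht, hv⟩, hn⟩
      refine ⟨⟨t, ht, ?_⟩, hn⟩
      rw [key, e.injective.mem_set_image] at hv
      exact hv
    · rintro ⟨⟨t, ht, hv⟩, hn⟩
      refine ⟨⟨t, ht, ?_⟩, hn⟩
      rw [key, e.injective.mem_set_image]
      exact hv
  unfold angl
  rw [hcone]
  have hmp : MeasureTheory.MeasurePreserving L.symm MeasureTheory.volume MeasureTheory.volume :=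
    L.symm.measurePreserving
  have h2 := hmp.measure_preimage_equiv (f := L.symm.toHomeomorph.toMeasurableEquiv)
    (dcone S x ∩ Metric.ball 0 1)
  simpa using congrArg (fun m => 2 * ENNReal.toReal m) h2

end Pool.Agent.NNb
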