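import Pool.Agent.NNb.Angl

/-!
Module ANGSUM.  The angle sum of a convex `m`-gon.

Proof (normal cones).  For `x ∈ ext S` let `Nrm x = {v | ∀ y ∈ S, dt v (y - x) ≤ 0}`.
(1) The union of the `Nrm x` is `ℂ`: for `v`, the functional `dt v` attains its maximum over the
compact set `S = convexHull (ext S)` at some extreme point.
(2) For `x ≠ x'` in `ext S`, `Nrm x ∩ Nrm x' ⊆ {v | dt v (x - x') = 0}` is a null set.
(3) Hence `∑ volume (Nrm x ∩ ball 0 1) = volume (ball 0 1) = π`.
(4) With `dcone S x = sector c d` (`0 < crs c d`) one has `Nrm x = {v | dt v c ≤ 0 ∧ dt v d ≤ 0}`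
`= sector (I * d) (- I * c)`: `crs (I d) v = - dt d v`, `crs v (-I c) = - dt v c` (elements of `S - x`
are nonnegative combinations of `c`, `d`, and positive multiples of `c`, `d` are in `S - x`).  Its
angle is `π - angle c d`: `crs (I d)(-I c) = crs c d`, `dt (I d) (-I c) = - dt c d`.
(5) So `∑ (π - angl S x) / 2 = π`.
In particular there are at least three extreme points, because `angl S x > 0`.
-/

namespace Pool.Agent.NNb

open Set

variable {S : Set ℂ}

private theorem angsum_lin (a : ℂ) : IsLinearMap ℝ (dt a) where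
  map_add x y := by simp only [dt, Complex.add_re, Complex.add_im]; ring
  map_smul c x := by
    simp only [dt, Complex.real_smul, Complex.mul_re, Complex.mul_im, Complex.ofReal_re,
      Complex.ofReal_im, smul_eq_mul]
    ring

private theorem angsum_sub (a b c : ℂ) : dt a (b - c) = dt a b - dt a c := by
  simp only [dt, Complex.sub_re, Complex.sub_im]; ring

private theorem angsum_comm (a b : ℂ) : dt a b = dt b a := by
  simp only [dt]; ring

private theorem angsum_cont (a : ℂ) : Continuous (fun v => dt v a) := by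
  unfold dt
  exact (Complex.continuous_re.mul continuous_const).add
    (Complex.continuous_im.mul continuous_const)

/-- the normal cone -/
private def angsumN (S : Set ℂ) (x : ℂ) : Set ℂ := {v | ∀ y ∈ S, dt v (y - x) ≤ 0}

private theorem angsum_closed (S : Set ℂ) (x : ℂ) : IsClosed (angsumN S x) := by
  have : angsumN S x = ⋂ y ∈ S, {v | dt v (y - x) ≤ 0} := by
    ext v; simp only [angsumN, Set.mem_ofPred_eq, Set.mem_iInter]
  rw [this]
  exact isClosed_biInter fun y _ => isClosed_le (angsum_cont _) continuous_const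

private theorem angsum_cover (h : IsPoly S) (v : ℂ) :
    ∃ x ∈ S.extremePoints ℝ, v ∈ angsumN S x := by
  have hne : (S.extremePoints ℝ).Nonempty := h.isCompact.extremePoints_nonempty h.nonempty
  obtain ⟨x, hx, hmax⟩ := Set.exists_max_image (S.extremePoints ℝ) (dt v) h.ext_finite hne
  refine ⟨x, hx, ?_⟩
  intro y hy
  have hsub : S ⊆ {y : ℂ | dt v y ≤ dt v x} := by
    rw [← h.hull_ext]
    exact convexHull_min (fun z hz => hmax z hz) (convex_halfSpace_le (angsum_lin v) _)
  have := hsub hy
  rw [Set.mem_ofPred_eq] at this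
  rw [angsum_sub]
  linarith

private theorem angsum_null {a : ℂ} (ha : a ≠ 0) : MeasureTheory.volume {v : ℂ | dt v a = 0} = 0 := by
  set L : Submodule ℝ ℂ := LinearMap.ker (IsLinearMap.mk' (dt a) (angsum_lin a)) with hL
  have hLs : (L : Set ℂ) = {v : ℂ | dt v a = 0} := by
    ext v
    rw [SetLike.mem_coe, hL, LinearMap.mem_ker, IsLinearMap.mk'_apply, Set.mem_ofPred_eq,
      angsum_comm]
  have hLt : L ≠ ⊤ := by
    intro h
    have : a ∈ L := by rw [h]; trivial
    rw [hL, LinearMap.mem_ker, IsLinearMap.mk'_apply] at this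
    have hn : 0 < a.re * a.re + a.im * a.im := by
      have := Complex.normSq_pos.2 ha
      rwa [Complex.normSq_apply] at this
    simp only [dt] at this
    linarith
  rw [← hLs]
  exact MeasureTheory.Measure.addHaar_submodule _ L hLt

private theorem angsum_disj {x x' : ℂ} (hx : x ∈ S) (hx' : x' ∈ S) (hne : x ≠ x') :
    MeasureTheory.AEDisjoint MeasureTheory.volume (angsumN S x ∩ Metric.ball 0 1)
      (angsumN S x' ∩ Metric.ball 0 1) := by
  refine MeasureTheory.measure_mono_null ?_ (angsum_null (sub_ne_zero.2 hne))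
  rintro v ⟨⟨h1, -⟩, ⟨h2, -⟩⟩
  have e1 := h1 x' hx'
  have e2 := h2 x hx
  have e3 : dt v (x' - x) = - dt v (x - x') := by
    rw [angsum_sub, angsum_sub]; ring
  rw [Set.mem_ofPred_eq]
  linarith

private theorem angsum_vol (h : IsPoly S) {x : ℂ} (hx : x ∈ S.extremePoints ℝ) :
    MeasureTheory.volume (angsumN S x ∩ Metric.ball 0 1) =
      ENNReal.ofReal ((Real.pi - angl S x) / 2) := by
  have hf : x ∈ frontier S := h.ext_frontier hx
  obtain ⟨c, d, hc, hd, hcd, hD⟩ := h.dirs hf
  have hpos : 0 < crs c d := (h.ext_iff hf hc hd hcd hD).1 hx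
  have hN : angsumN S x = sector (Complex.I * d) (-(Complex.I * c)) := by
    have hIc : ∀ v : ℂ, crs v (-(Complex.I * c)) = - dt v c := by
      intro v
      simp only [crs, dt, Complex.neg_re, Complex.neg_im, Complex.mul_re, Complex.mul_im,
        Complex.I_re, Complex.I_im]
      ring
    have hId : ∀ v : ℂ, crs (Complex.I * d) v = - dt v d := by
      intro v
      simp only [crs, dt, Complex.mul_re, Complex.mul_im, Complex.I_re, Complex.I_im]
      ring
    ext v
    simp only [sector, Set.mem_ofPred_eq, hIc, hId, angsumN]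
    constructor
    · intro hv
      have hvD : ∀ w ∈ dcone S x, dt v w ≤ 0 := by
        rintro w ⟨t, ht, hw⟩
        have h1 := hv _ hw
        rw [add_sub_cancel_left, (angsum_lin v).map_smul, smul_eq_mul] at h1
        by_contra hcon
        push Not at hcon
        have := mul_pos ht hcon
        linarith
      have hcm : c ∈ dcone S x := by
        rw [hD]
        refine ⟨?_, hpos.le⟩
        simp only [crs]; linarith [mul_comm c.re c.im]
      have hdm : d ∈ dcone S x := by
        rw [hD]
        refine ⟨hpos.le, ?_⟩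
        simp only [crs]; linarith [mul_comm d.re d.im]
      exact ⟨by linarith [hvD d hdm], by linarith [hvD c hcm]⟩
    · rintro ⟨hvd, hvc⟩ y hy
      have hyD : y - x ∈ sector c d := by rw [← hD]; exact sub_mem_dcone hy
      set w : ℂ := y - x with hw
      obtain ⟨hw1, hw2⟩ := hyD
      have key : crs c d * dt v w = crs w d * dt v c + crs c w * dt v d := by
        simp only [crs, dt]; ring
      by_contra hcon
      push Not at hcon
      have h1 := mul_pos hpos hcon
      have h2 : crs w d * dt v c ≤ 0 := mul_nonpos_of_nonneg_of_nonpos hw2 (by linarith)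
      have h3 : crs c w * dt v d ≤ 0 := mul_nonpos_of_nonneg_of_nonpos hw1 (by linarith)
      linarith
  have hpos' : 0 < crs (Complex.I * d) (-(Complex.I * c)) := by
    have : crs (Complex.I * d) (-(Complex.I * c)) = crs c d := by
      simp only [crs, Complex.neg_re, Complex.neg_im, Complex.mul_re, Complex.mul_im,
        Complex.I_re, Complex.I_im]
      ring
    rw [this]; exact hpos
  have hnd : ‖Complex.I * d‖ = 1 := by rw [norm_mul, Complex.norm_I, hd, one_mul]
  have hnc : ‖-(Complex.I * c)‖ = 1 := by rw [norm_neg, norm_mul, Complex.norm_I, hc, one_mul]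
  have hang : InnerProductGeometry.angle (Complex.I * d) (-(Complex.I * c)) =
      Real.pi - angl S x := by
    rw [InnerProductGeometry.angle_neg_right, h.angl_eq hc hd hpos hD]
    congr 1
    rw [InnerProductGeometry.angle_comm]
    simp only [InnerProductGeometry.angle, norm_mul, Complex.norm_I, one_mul]
    congr 2
    rw [Complex.inner, Complex.inner, map_mul, Complex.conj_I]
    congr 1
    have : Complex.I * d * (-Complex.I * (starRingEnd ℂ) c) =
      -(Complex.I * Complex.I) * (d * (starRingEnd ℂ) c) := by ring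
    rw [this, Complex.I_mul_I, neg_neg, one_mul]
  rw [hN, (volume_sector_angle _ _ hnd hnc hpos').1, hang]

theorem IsPoly.angl_sum (h : IsPoly S) :
    ∑ x ∈ h.ext_finite.toFinset, angl S x =
      ((h.ext_finite.toFinset.card : ℝ) - 2) * Real.pi := by
  have hmem : ∀ x, x ∈ h.ext_finite.toFinset ↔ x ∈ S.extremePoints ℝ :=
    fun x => h.ext_finite.mem_toFinset
  have hU : (⋃ x ∈ h.ext_finite.toFinset, (angsumN S x ∩ Metric.ball 0 1)) =
      Metric.ball (0 : ℂ) 1 := by
    apply Set.Subset.antisymm
    · exact Set.iUnion₂_subset fun x _ => Set.inter_subset_right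
    · intro v hv
      obtain ⟨x, hx, hvx⟩ := angsum_cover h v
      exact Set.mem_biUnion ((hmem x).2 hx) ⟨hvx, hv⟩
  have hsum := MeasureTheory.measure_biUnion_finset₀ (μ := MeasureTheory.volume)
    (s := h.ext_finite.toFinset) (f := fun x => angsumN S x ∩ Metric.ball (0 : ℂ) 1)
    (by
      intro x hx x' hx' hne
      exact angsum_disj ((hmem x).1 hx).1 ((hmem x').1 hx').1 hne)
    (fun x _ => ((angsum_closed S x).measurableSet.inter
      measurableSet_ball).nullMeasurableSet)
  rw [hU, Complex.volume_ball] at hsum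
  have hle : ∀ x ∈ h.ext_finite.toFinset, 0 ≤ (Real.pi - angl S x) / 2 := by
    intro x hx
    have := (h.angl_corner ((hmem x).1 hx)).2
    linarith
  rw [Finset.sum_congr rfl (fun x hx => angsum_vol h ((hmem x).1 hx)),
    ← ENNReal.ofReal_sum_of_nonneg hle] at hsum
  have hpi : ENNReal.ofReal 1 ^ 2 * (NNReal.pi : ENNReal) = ENNReal.ofReal Real.pi := by
    rw [ENNReal.ofReal_one, one_pow, one_mul, ← NNReal.coe_real_pi, ENNReal.ofReal_coe_nnreal]
  rw [hpi] at hsum
  have hfin := (ENNReal.ofReal_eq_ofReal_iff Real.pi_pos.le (Finset.sum_nonneg hle)).1 hsum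
  rw [← Finset.sum_div, Finset.sum_sub_distrib, Finset.sum_const, nsmul_eq_mul] at hfin
  linarith

theorem IsPoly.three_le_card (h : IsPoly S) : 3 ≤ h.ext_finite.toFinset.card := by
  have hmem : ∀ x, x ∈ h.ext_finite.toFinset ↔ x ∈ S.extremePoints ℝ :=
    fun x => h.ext_finite.mem_toFinset
  have hne : h.ext_finite.toFinset.Nonempty := by
    obtain ⟨x, hx⟩ := h.isCompact.extremePoints_nonempty h.nonempty
    exact ⟨x, (hmem x).2 hx⟩
  have hpos : 0 < ∑ x ∈ h.ext_finite.toFinset, angl S x :=
    Finset.sum_pos (fun x hx => (h.angl_corner ((hmem x).1 hx)).1) hne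
  rw [h.angl_sum] at hpos
  have h2 : (0 : ℝ) < (h.ext_finite.toFinset.card : ℝ) - 2 := by
    by_contra hcon
    push Not at hcon
    have := mul_nonpos_of_nonpos_of_nonneg hcon Real.pi_pos.le
    linarith
  have h3 : (2 : ℝ) < (h.ext_finite.toFinset.card : ℝ) := by linarith
  exact_mod_cast h3

end Pool.Agent.NNb
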