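import Pool.Agent.NNb.Defs

/-!
Module SECT.  The area of a sector.

Proof of `volume_sector`.  Multiplication by the unit `conj c` (a linear isometry, `rotation`)
reduces to `c = 1`.  Then `sector 1 (exp (θ I)) = {v | 0 ≤ v.im ∧ 0 ≤ v.re sin θ - v.im cos θ}`.  In
polar coordinates (`Complex.lintegral_comp_polarCoord_symm` or `Complex.integral_comp_polarCoord_symm`
for the indicator function; target `(0, ∞) × (-π, π)`): a point `r (cos φ + i sin φ)` is in the
sector iff `0 ≤ sin φ` and `0 ≤ sin (θ - φ)` iff `φ ∈ [0, θ]` (`φ ∈ (-π, π)`), so the volume is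
`∫_0^1 r dr · θ = θ / 2`.

`volume_sector_angle`: if `0 < crs c d` then `d = c exp (θ I)` with
`θ = InnerProductGeometry.angle c d ∈ (0, π)` (`crs c d = sin θ`, `dt c d = cos θ`).
-/

namespace Pool.Agent.NNb

open Set MeasureTheory Metric

private lemma measurable_sector (c d : ℂ) : MeasurableSet (sector c d ∩ ball 0 1) := by
  apply MeasurableSet.inter _ isOpen_ball.measurableSet
  apply IsClosed.measurableSet
  have h1 : IsClosed {v : ℂ | 0 ≤ crs c v} := isClosed_le continuous_const (by unfold crs; fun_prop)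
  have h2 : IsClosed {v : ℂ | 0 ≤ crs v d} := isClosed_le continuous_const (by unfold crs; fun_prop)
  exact h1.inter h2

private lemma crs_mul (c a b : ℂ) : crs (c * a) (c * b) = (c.re ^ 2 + c.im ^ 2) * crs a b := by
  simp only [crs, Complex.mul_re, Complex.mul_im]; ring

private lemma sq_norm_one {c : ℂ} (hc : ‖c‖ = 1) : c.re ^ 2 + c.im ^ 2 = 1 := by
  have := Complex.normSq_eq_norm_sq c
  rw [hc, Complex.normSq_apply] at this
  linarith

private lemma volume_rot (c w : ℂ) (hc : ‖c‖ = 1) :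
    volume (sector c (c * w) ∩ ball 0 1) = volume (sector 1 w ∩ ball 0 1) := by
  let u : Circle := ⟨c, by simpa [Submonoid.unitSphere] using hc⟩
  have hL := (rotation u).measurePreserving
  have := hL.measure_preimage (measurable_sector c (c * w)).nullMeasurableSet
  rw [← this]
  congr 1
  ext v
  simp only [Set.mem_preimage, Set.mem_inter_iff, rotation_apply, mem_ball_zero_iff]
  have hu : ((u : Circle) : ℂ) = c := rfl
  rw [hu, norm_mul, hc, one_mul]
  have e1 : crs c (c * v) = crs 1 v := by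
    have := crs_mul c 1 v
    rw [mul_one, sq_norm_one hc, one_mul] at this
    exact this
  have e2 : crs (c * v) (c * w) = crs v w := by
    rw [crs_mul, sq_norm_one hc, one_mul]
  simp only [sector, Set.mem_ofPred_eq, e1, e2]

private lemma polar_iff (θ : ℝ) (h0 : 0 < θ) (h1 : θ ≤ Real.pi) (r φ : ℝ) (hr : 0 < r)
    (hφ : φ ∈ Ioo (-Real.pi) Real.pi) :
    (Complex.polarCoord.symm (r, φ) ∈ sector 1 (Complex.exp (θ * Complex.I)) ∩ ball 0 1) ↔
      r < 1 ∧ 0 ≤ φ ∧ φ ≤ θ := by
  have hx : Complex.polarCoord.symm (r, φ) = (r : ℂ) * (Real.cos φ + Real.sin φ * Complex.I) := by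
    rw [Complex.polarCoord_symm_apply]
  have hre : ((r : ℂ) * (Real.cos φ + Real.sin φ * Complex.I)).re = r * Real.cos φ := by
    simp [-Complex.ofReal_cos, -Complex.ofReal_sin]
  have him : ((r : ℂ) * (Real.cos φ + Real.sin φ * Complex.I)).im = r * Real.sin φ := by
    simp [-Complex.ofReal_cos, -Complex.ofReal_sin]
  have hnorm : ‖(r : ℂ) * (Real.cos φ + Real.sin φ * Complex.I)‖ = r := by
    rw [norm_mul, Complex.norm_real, Real.norm_eq_abs, abs_of_pos hr]
    have : ((Real.cos φ : ℂ) + Real.sin φ * Complex.I) = Complex.exp (φ * Complex.I) := by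
      rw [Complex.exp_mul_I]; push_cast; rfl
    rw [this, Complex.norm_exp_ofReal_mul_I, mul_one]
  rw [hx]
  simp only [sector, Set.mem_inter_iff, Set.mem_ofPred_eq, mem_ball_zero_iff, hnorm, crs, hre, him,
    Complex.one_re, Complex.one_im, Complex.exp_ofReal_mul_I_re, Complex.exp_ofReal_mul_I_im,
    one_mul, zero_mul, sub_zero]
  have e1 : r * Real.cos φ * Real.sin θ - r * Real.sin φ * Real.cos θ = r * Real.sin (θ - φ) := by
    rw [Real.sin_sub]; ring
  rw [e1]
  have hs1 : 0 ≤ r * Real.sin φ ↔ 0 ≤ Real.sin φ := by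
    constructor
    · intro h; exact nonneg_of_mul_nonneg_right h hr
    · intro h; positivity
  have hs2 : 0 ≤ r * Real.sin (θ - φ) ↔ 0 ≤ Real.sin (θ - φ) := by
    constructor
    · intro h; exact nonneg_of_mul_nonneg_right h hr
    · intro h; positivity
  rw [hs1, hs2]
  have hφ1 := hφ.1
  have hφ2 := hφ.2
  constructor
  · rintro ⟨⟨h2, h3⟩, h4⟩
    have h5 : 0 ≤ φ := by
      by_contra hcon
      push Not at hcon
      have := Real.sin_neg_of_neg_of_neg_pi_lt hcon hφ1
      linarith
    refine ⟨h4, h5, ?_⟩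
    by_contra hcon
    push Not at hcon
    have := Real.sin_neg_of_neg_of_neg_pi_lt (x := θ - φ) (by linarith) (by linarith)
    linarith
  · rintro ⟨h2, h3, h4⟩
    exact ⟨⟨Real.sin_nonneg_of_nonneg_of_le_pi h3 (by linarith),
      Real.sin_nonneg_of_nonneg_of_le_pi (by linarith) (by linarith)⟩, h2⟩

private lemma lint_r : ∫⁻ r in Ioo (0 : ℝ) 1, ENNReal.ofReal r = ENNReal.ofReal (1 / 2) := by
  rw [← ofReal_integral_eq_lintegral_ofReal]
  · congr 1
    rw [← integral_Ioc_eq_integral_Ioo, ← intervalIntegral.integral_of_le zero_le_one, integral_id]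
    norm_num
  · have : IntegrableOn (fun x : ℝ => x) (Icc 0 1) volume := continuous_id.integrableOn_Icc
    exact this.mono_set Ioo_subset_Icc_self
  · filter_upwards [ae_restrict_mem measurableSet_Ioo] with x hx
    exact hx.1.le

private lemma volume_sector_one (θ : ℝ) (h0 : 0 < θ) (h1 : θ ≤ Real.pi) :
    volume (sector 1 (Complex.exp (θ * Complex.I)) ∩ ball 0 1) = ENNReal.ofReal (θ / 2) := by
  set A := sector 1 (Complex.exp (θ * Complex.I)) ∩ ball 0 1 with hA
  have hmeas : MeasurableSet A := measurable_sector _ _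
  rw [← lintegral_indicator_one hmeas, ← Complex.lintegral_comp_polarCoord_symm]
  have hset : ∀ p ∈ polarCoord.target,
      ENNReal.ofReal p.1 • A.indicator (1 : ℂ → ENNReal) (Complex.polarCoord.symm p) =
      (Ioo (0 : ℝ) 1 ×ˢ (Ico 0 Real.pi ∩ Icc 0 θ)).indicator (fun p => ENNReal.ofReal p.1 * 1) p := by
    rintro ⟨r, φ⟩ hp
    have hp' : 0 < r ∧ φ ∈ Ioo (-Real.pi) Real.pi := by
      simpa [polarCoord] using hp
    have hiff := polar_iff θ h0 h1 r φ hp'.1 hp'.2
    by_cases hin : Complex.polarCoord.symm (r, φ) ∈ A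
    · have h2 := hiff.mp hin
      rw [indicator_of_mem hin, indicator_of_mem]
      · simp
      · exact ⟨⟨hp'.1, h2.1⟩, ⟨h2.2.1, hp'.2.2⟩, h2.2.1, h2.2.2⟩
    · rw [indicator_of_notMem hin, indicator_of_notMem]
      · simp
      · intro hmem
        apply hin
        exact hiff.mpr ⟨hmem.1.2, hmem.2.2.1, hmem.2.2.2⟩
  have hms : MeasurableSet (polarCoord.target) := polarCoord.open_target.measurableSet
  rw [setLIntegral_congr_fun hms hset]
  have hB : MeasurableSet (Ioo (0 : ℝ) 1 ×ˢ (Ico 0 Real.pi ∩ Icc 0 θ)) :=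
    measurableSet_Ioo.prod (measurableSet_Ico.inter measurableSet_Icc)
  rw [setLIntegral_indicator hB]
  have hsub : Ioo (0 : ℝ) 1 ×ˢ (Ico 0 Real.pi ∩ Icc 0 θ) ∩ polarCoord.target =
      Ioo (0 : ℝ) 1 ×ˢ (Ico 0 Real.pi ∩ Icc 0 θ) := by
    apply inter_eq_left.mpr
    rintro ⟨r, φ⟩ ⟨hr, hφ⟩
    have hpi := Real.pi_pos
    have : 0 < r ∧ φ ∈ Ioo (-Real.pi) Real.pi := ⟨hr.1, by linarith [hφ.1.1], hφ.1.2⟩
    simpa [polarCoord] using this
  rw [hsub, Measure.volume_eq_prod, ← Measure.prod_restrict]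
  rw [lintegral_prod_mul (f := fun x : ℝ => ENNReal.ofReal x) (g := fun _ : ℝ => (1 : ENNReal))
    (by fun_prop) (by fun_prop)]
  rw [lint_r, lintegral_one, Measure.restrict_apply_univ]
  have hvol : volume (Ico 0 Real.pi ∩ Icc 0 θ) = ENNReal.ofReal θ := by
    apply le_antisymm
    · calc volume (Ico 0 Real.pi ∩ Icc 0 θ) ≤ volume (Icc 0 θ) := measure_mono inter_subset_right
        _ = ENNReal.ofReal θ := by rw [Real.volume_Icc, sub_zero]
    · calc ENNReal.ofReal θ = volume (Ioo 0 θ) := by rw [Real.volume_Ioo, sub_zero]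
        _ ≤ _ := by
          apply measure_mono
          intro y hy
          exact ⟨⟨hy.1.le, by linarith [hy.2]⟩, hy.1.le, hy.2.le⟩
  rw [hvol, ← ENNReal.ofReal_mul (by norm_num)]
  congr 1
  ring

theorem volume_sector (c : ℂ) (hc : ‖c‖ = 1) (θ : ℝ) (h0 : 0 < θ) (h1 : θ ≤ Real.pi) :
    volume (sector c (c * Complex.exp (θ * Complex.I)) ∩ ball 0 1) = ENNReal.ofReal (θ / 2) := by
  rw [volume_rot c _ hc]
  exact volume_sector_one θ h0 h1

theorem volume_sector_angle (c d : ℂ) (hc : ‖c‖ = 1) (hd : ‖d‖ = 1) (h : 0 < crs c d) :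
    volume (sector c d ∩ ball 0 1) = ENNReal.ofReal (InnerProductGeometry.angle c d / 2) ∧
      0 < InnerProductGeometry.angle c d ∧ InnerProductGeometry.angle c d < Real.pi := by
  have hc0 : c ≠ 0 := by intro h; rw [h, norm_zero] at hc; exact one_ne_zero hc.symm
  have hd0 : d ≠ 0 := by intro h; rw [h, norm_zero] at hd; exact one_ne_zero hd.symm
  have hdc : c * (d / c) = d := by field_simp
  have him : 0 < (d / c).im := by
    have h1 := crs_mul c 1 (d / c)
    rw [mul_one, hdc, sq_norm_one hc, one_mul] at h1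
    rw [h1] at h
    simpa [crs] using h
  have hargpos : 0 < (d / c).arg := by
    have h1 : 0 ≤ (d / c).arg := Complex.arg_nonneg_iff.mpr him.le
    rcases lt_or_eq_of_le h1 with h2 | h2
    · exact h2
    · exfalso
      have := Complex.arg_eq_zero_iff.mp h2.symm
      linarith [this.2]
  have harglt : (d / c).arg < Real.pi := by
    rw [Complex.arg_lt_pi_iff]
    right
    exact him.ne'
  have hang : InnerProductGeometry.angle c d = (d / c).arg := by
    rw [InnerProductGeometry.angle_comm, Complex.angle_eq_abs_arg hd0 hc0, abs_of_pos hargpos]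
  have hexp : d = c * Complex.exp ((d / c).arg * Complex.I) := by
    have h1 := Complex.norm_mul_exp_arg_mul_I (d / c)
    rw [norm_div, hc, hd, div_one, Complex.ofReal_one, one_mul] at h1
    rw [h1, hdc]
  refine ⟨?_, by rw [hang]; exact hargpos, by rw [hang]; exact harglt⟩
  rw [hang]
  conv_lhs => rw [hexp]
  exact volume_sector c hc _ hargpos harglt.le

theorem volume_sector_flat (c : ℂ) (hc : ‖c‖ = 1) :
    volume (sector c (-c) ∩ ball 0 1) = ENNReal.ofReal (Real.pi / 2) := by
  have := volume_sector c hc Real.pi Real.pi_pos le_rfl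
  rw [Complex.exp_pi_mul_I, mul_neg, mul_one] at this
  exact this

end Pool.Agent.NNb
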