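import Pool.Agent.NNb.Dirs
import Pool.Agent.NNb.Sector

/-!
Module ANGL.  Values of the angle `angl S x = 2 * area (dcone S x ∩ unit disc)`.

From `IsPoly.dirs`, `IsPoly.ext_iff` and the volumes in `Sector.lean`.
-/

namespace Pool.Agent.NNb

open Set

variable {S : Set ℂ} {x : ℂ}

theorem IsPoly.angl_flat (h : IsPoly S) (hx : x ∈ frontier S) (hne : x ∉ S.extremePoints ℝ) :
    angl S x = Real.pi := by
  obtain ⟨c, d, hc, hd, hcd, hD⟩ := h.dirs hx
  have h1 := h.ext_iff hx hc hd hcd hD
  have h2 : d = -c := by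
    rcases hcd with h3 | h3
    · exact absurd (h1.mpr h3) hne
    · exact h3
  subst h2
  unfold angl
  rw [hD, volume_sector_flat c hc, ENNReal.toReal_ofReal (by positivity)]
  ring

/-- the angle in terms of the two boundary directions -/
theorem IsPoly.angl_eq (h : IsPoly S) {c d : ℂ} (hc : ‖c‖ = 1) (hd : ‖d‖ = 1)
    (hcd : 0 < crs c d) (hD : dcone S x = sector c d) :
    angl S x = InnerProductGeometry.angle c d := by
  have _ := h
  obtain ⟨h1, h2, h3⟩ := volume_sector_angle c d hc hd hcd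
  unfold angl
  rw [hD, h1, ENNReal.toReal_ofReal (by positivity)]
  ring

/-- membership in the extreme points implies the frontier -/
theorem IsPoly.ext_frontier_aux (h : IsPoly S) (hx : x ∈ S.extremePoints ℝ) : x ∈ frontier S := by
  have hcl : IsClosed S := by
    obtain ⟨⟨V, hV, hS⟩, _⟩ := h
    rw [hS]
    exact (hV.isCompact_convexHull ℝ).isClosed
  rw [hcl.frontier_eq]
  refine ⟨hx.1, fun hi => ?_⟩
  obtain ⟨ε, hε, hb⟩ := Metric.isOpen_iff.mp isOpen_interior x hi
  have h1 : x + ((ε / 2 : ℝ) : ℂ) ∈ S := by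
    apply interior_subset
    apply hb
    rw [Metric.mem_ball, dist_eq_norm, add_sub_cancel_left, Complex.norm_real, Real.norm_eq_abs,
      abs_of_pos (by positivity)]
    linarith
  have h2 : x - ((ε / 2 : ℝ) : ℂ) ∈ S := by
    apply interior_subset
    apply hb
    rw [Metric.mem_ball, dist_eq_norm, sub_sub_cancel_left, norm_neg, Complex.norm_real,
      Real.norm_eq_abs, abs_of_pos (by positivity)]
    linarith
  have h3 : x ∈ openSegment ℝ (x + ((ε / 2 : ℝ) : ℂ)) (x - ((ε / 2 : ℝ) : ℂ)) := by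
    refine ⟨1 / 2, 1 / 2, by norm_num, by norm_num, by norm_num, ?_⟩
    rw [Complex.real_smul, Complex.real_smul]
    push_cast
    ring
  have h4 := hx.2 h1 h2 h3
  have h5 : ((ε / 2 : ℝ) : ℂ) = 0 := by
    have := congrArg (fun z => z - x) h4
    simpa using this
  have h6 : (ε / 2 : ℝ) = 0 := by exact_mod_cast h5
  linarith

theorem IsPoly.angl_corner (h : IsPoly S) (hx : x ∈ S.extremePoints ℝ) :
    0 < angl S x ∧ angl S x < Real.pi := by
  have hf := h.ext_frontier_aux hx
  obtain ⟨c, d, hc, hd, hcd, hD⟩ := h.dirs hf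
  have h1 := (h.ext_iff hf hc hd hcd hD).mp hx
  obtain ⟨_, h2, h3⟩ := volume_sector_angle c d hc hd h1
  rw [h.angl_eq hc hd h1 hD]
  exact ⟨h2, h3⟩

end Pool.Agent.NNb
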