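import Pool.Agent.NNb.Defs

/-!
Module AVG.  The averaging principle (abstract form).

Proof.  Suppose `∑ j ∈ nb i, K i j < -δ` for all `i`.  Let `c R = ncard {i | ‖b i‖ ≤ R}`.  Sum over all
`i` with `‖b i‖ ≤ R`: the pairs `i, j` with both in the ball cancel (`K i j = - K j i`, `nb`
symmetric); the other pairs have `R - L < ‖b i‖ ≤ R` (`‖b j‖ ≤ ‖b i‖ + L`), so
`-δ c(R) > ... ≥ - B n (c(R) - c(R - L))`, i.e. `c(R - L) ≤ (1 - δ/(B n)) c(R)` (if `B n = 0` this is
an immediate contradiction as soon as `c(R) > 0`), for all `R ≥ 0`.  So `c` grows exponentially: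
`c(k L) ≥ q^k c(0')` with `q > 1`, contradicting `c(R) ≤ C (R + 1)²`.  (WLOG `L > 0`, `B > 0`.)
-/

namespace Pool.Agent.NNb

open Classical in
private lemma avg_step {ι : Type} (b : ι → ℂ) (L : ℝ)
    (hfin : ∀ R : ℝ, {i | ‖b i‖ ≤ R}.Finite)
    (nb : ι → Finset ι) (n : ℕ) (hcard : ∀ i, (nb i).card = n)
    (hsymm : ∀ i j, j ∈ nb i ↔ i ∈ nb j) (hnear : ∀ i j, j ∈ nb i → ‖b i - b j‖ ≤ L)
    (K : ι → ι → ℝ) (hK : ∀ i j, K i j = - K j i) (B : ℝ) (hB0 : 0 ≤ B) (hB : ∀ i j, |K i j| ≤ B)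
    (δ : ℝ) (h : ∀ i, ∑ j ∈ nb i, K i j < -δ) (R : ℝ) (hL : 0 ≤ L) :
    δ * ((hfin R).toFinset.card : ℝ) ≤
      B * n * (((hfin R).toFinset.card : ℝ) - ((hfin (R - L)).toFinset.card : ℝ)) := by
  set S := (hfin R).toFinset with hS
  set S' := (hfin (R - L)).toFinset with hS'
  have hmem : ∀ i, i ∈ S ↔ ‖b i‖ ≤ R := by intro i; simp [hS]
  have hmem' : ∀ i, i ∈ S' ↔ ‖b i‖ ≤ R - L := by intro i; simp [hS']
  have hsub : S' ⊆ S := by
    intro i hi
    rw [hmem'] at hi
    rw [hmem]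
    linarith
  -- total sum
  have h1 : ∑ i ∈ S, ∑ j ∈ nb i, K i j ≤ ∑ i ∈ S, (-δ) := by
    apply Finset.sum_le_sum
    intro i _
    exact (h i).le
  have h2 : ∑ i ∈ S, (-δ) = -δ * (S.card : ℝ) := by
    rw [Finset.sum_const, nsmul_eq_mul]; ring
  -- split inner sum
  have h3 : ∀ i, ∑ j ∈ nb i, K i j =
      ∑ j ∈ (nb i).filter (fun j => j ∈ S), K i j + ∑ j ∈ (nb i).filter (fun j => ¬ j ∈ S), K i j := by
    intro i
    rw [Finset.sum_filter_add_sum_filter_not]
  have h4 : ∑ i ∈ S, ∑ j ∈ (nb i).filter (fun j => j ∈ S), K i j = 0 := by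
    have e1 : ∑ i ∈ S, ∑ j ∈ (nb i).filter (fun j => j ∈ S), K i j =
        ∑ i ∈ S, ∑ j ∈ S, if j ∈ nb i then K i j else 0 := by
      apply Finset.sum_congr rfl
      intro i _
      rw [← Finset.sum_filter]
      apply Finset.sum_congr _ (fun _ _ => rfl)
      ext j
      simp only [Finset.mem_filter]
      tauto
    have e2 : ∑ i ∈ S, ∑ j ∈ S, (if j ∈ nb i then K i j else 0) =
        ∑ i ∈ S, ∑ j ∈ S, (if j ∈ nb i then K j i else 0) := by
      rw [Finset.sum_comm]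
      apply Finset.sum_congr rfl
      intro i _
      apply Finset.sum_congr rfl
      intro j _
      by_cases hij : j ∈ nb i
      · rw [if_pos hij, if_pos ((hsymm i j).mp hij)]
      · rw [if_neg hij, if_neg (fun hh => hij ((hsymm i j).mpr hh))]
    have e3 : ∑ i ∈ S, ∑ j ∈ S, (if j ∈ nb i then K j i else 0) =
        - ∑ i ∈ S, ∑ j ∈ S, (if j ∈ nb i then K i j else 0) := by
      rw [← Finset.sum_neg_distrib]
      apply Finset.sum_congr rfl
      intro i _
      rw [← Finset.sum_neg_distrib]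
      apply Finset.sum_congr rfl
      intro j _
      by_cases hij : j ∈ nb i
      · rw [if_pos hij, if_pos hij, hK j i]
      · rw [if_neg hij, if_neg hij]; simp
    rw [e1]
    have := e2.trans e3
    linarith
  have h5 : ∀ i ∈ S, -(B * n) * (if i ∈ S' then 0 else 1) ≤
      ∑ j ∈ (nb i).filter (fun j => ¬ j ∈ S), K i j := by
    intro i hi
    by_cases hi' : i ∈ S'
    · rw [if_pos hi', mul_zero]
      apply le_of_eq
      symm
      apply Finset.sum_eq_zero
      intro j hj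
      exfalso
      rw [Finset.mem_filter] at hj
      apply hj.2
      rw [hmem]
      have a1 := hnear i j hj.1
      have a2 := (hmem' i).mp hi'
      have a3 : ‖b j‖ ≤ ‖b i‖ + ‖b i - b j‖ := by
        have : b j = b i - (b i - b j) := by ring
        calc ‖b j‖ = ‖b i - (b i - b j)‖ := by rw [← this]
          _ ≤ _ := norm_sub_le _ _
      linarith
    · rw [if_neg hi', mul_one]
      have a1 : ∑ j ∈ (nb i).filter (fun j => ¬ j ∈ S), (-B) ≤
          ∑ j ∈ (nb i).filter (fun j => ¬ j ∈ S), K i j := by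
        apply Finset.sum_le_sum
        intro j _
        have := hB i j
        have := neg_abs_le (K i j)
        linarith
      rw [Finset.sum_const, nsmul_eq_mul] at a1
      have a2 : (((nb i).filter (fun j => ¬ j ∈ S)).card : ℝ) ≤ n := by
        have : ((nb i).filter (fun j => ¬ j ∈ S)).card ≤ (nb i).card := Finset.card_filter_le _ _
        rw [hcard i] at this
        exact_mod_cast this
      nlinarith
  have h6 : ∑ i ∈ S, (-(B * n) * (if i ∈ S' then (0 : ℝ) else 1)) ≤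
      ∑ i ∈ S, ∑ j ∈ (nb i).filter (fun j => ¬ j ∈ S), K i j := Finset.sum_le_sum h5
  have h7 : ∑ i ∈ S, (-(B * n) * (if i ∈ S' then (0 : ℝ) else 1)) =
      -(B * n) * ((S.card : ℝ) - (S'.card : ℝ)) := by
    rw [← Finset.mul_sum]
    congr 1
    have : ∀ i ∈ S, (if i ∈ S' then (0 : ℝ) else 1) = 1 - (if i ∈ S' then (1 : ℝ) else 0) := by
      intro i _
      split_ifs <;> ring
    rw [Finset.sum_congr rfl this, Finset.sum_sub_distrib]
    congr 1
    · simp
    · rw [← Finset.sum_filter]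
      have : S.filter (fun i => i ∈ S') = S' := by
        ext i
        simp only [Finset.mem_filter]
        exact ⟨fun hh => hh.2, fun hh => ⟨hsub hh, hh⟩⟩
      rw [this]
      simp
  have h8 : ∑ i ∈ S, ∑ j ∈ nb i, K i j =
      ∑ i ∈ S, ∑ j ∈ (nb i).filter (fun j => j ∈ S), K i j +
      ∑ i ∈ S, ∑ j ∈ (nb i).filter (fun j => ¬ j ∈ S), K i j := by
    rw [← Finset.sum_add_distrib]
    exact Finset.sum_congr rfl (fun i _ => h3 i)
  rw [h8, h4, zero_add] at h1
  rw [h2] at h1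
  rw [h7] at h6
  nlinarith

theorem avg_abs {ι : Type} [Nonempty ι] (b : ι → ℂ) (C L : ℝ)
    (hfin : ∀ R : ℝ, {i | ‖b i‖ ≤ R}.Finite)
    (hcount : ∀ R : ℝ, 0 ≤ R → ({i | ‖b i‖ ≤ R}.ncard : ℝ) ≤ C * (R + 1) ^ 2)
    (nb : ι → Finset ι) (n : ℕ) (hcard : ∀ i, (nb i).card = n)
    (hsymm : ∀ i j, j ∈ nb i ↔ i ∈ nb j) (hnear : ∀ i j, j ∈ nb i → ‖b i - b j‖ ≤ L)
    (K : ι → ι → ℝ) (hK : ∀ i j, K i j = - K j i) (hB : ∃ B, ∀ i j, |K i j| ≤ B)
    (δ : ℝ) (hδ : 0 < δ) : ∃ i, -δ ≤ ∑ j ∈ nb i, K i j := by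
  by_contra hcon
  push Not at hcon
  obtain ⟨B, hB⟩ := hB
  obtain ⟨i0⟩ := (inferInstance : Nonempty ι)
  have hB0 : 0 ≤ B := le_trans (abs_nonneg (K i0 i0)) (hB i0 i0)
  set L' := max L 1 with hL'
  have hL1 : 1 ≤ L' := le_max_right _ _
  have hL0 : 0 ≤ L' := le_trans zero_le_one hL1
  have hnear' : ∀ i j, j ∈ nb i → ‖b i - b j‖ ≤ L' := fun i j hj => (hnear i j hj).trans (le_max_left _ _)
  obtain ⟨c, hc⟩ : ∃ c : ℝ → ℝ, ∀ R, c R = ((hfin R).toFinset.card : ℝ) := ⟨_, fun _ => rfl⟩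
  have hstep : ∀ R, δ * c R ≤ B * n * (c R - c (R - L')) := by
    intro R
    rw [hc, hc]
    exact avg_step b L' hfin nb n hcard hsymm hnear' K hK B hB0 hB δ hcon R hL0
  have hbn : 0 ≤ B * n := by positivity
  obtain ⟨M, hM⟩ : ∃ M, M = B * n + δ := ⟨_, rfl⟩
  have hM0 : 0 < M := by rw [hM]; linarith
  have hcnn : ∀ R, 0 ≤ c R := fun R => by rw [hc]; exact Nat.cast_nonneg _
  have hstep2 : ∀ R, δ * c R ≤ M * (c R - c (R - L')) := by
    intro R
    have h1 := hstep R
    have h2 : 0 ≤ c R - c (R - L') := by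
      have : (hfin (R - L')).toFinset.card ≤ (hfin R).toFinset.card := by
        apply Finset.card_le_card
        intro i hi
        simp only [Set.Finite.mem_toFinset, Set.mem_ofPred_eq] at hi ⊢
        linarith
      have : c (R - L') ≤ c R := by rw [hc, hc]; exact_mod_cast this
      linarith
    nlinarith
  -- c (R - L') ≤ (1 - δ / M) c R
  have hq : ∀ R, M * c (R - L') ≤ (B * n) * c R := by
    intro R
    have := hstep2 R
    have h2 : M * c (R - L') ≤ (M - δ) * c R := by linarith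
    have h3 : M - δ = B * n := by rw [hM]; ring
    rwa [h3] at h2
  set R0 := ‖b i0‖ with hR0
  have hR00 : 0 ≤ R0 := norm_nonneg _
  have hc0 : 1 ≤ c R0 := by
    have : 0 < (hfin R0).toFinset.card := by
      apply Finset.card_pos.mpr
      exact ⟨i0, by simp [hR0]⟩
    rw [hc]
    exact_mod_cast this
  have hiter : ∀ k : ℕ, M ^ k * c R0 ≤ (B * n) ^ k * c (R0 + k * L') := by
    intro k
    induction k with
    | zero => simp
    | succ k ih =>
      have h1 := hq (R0 + (k + 1 : ℕ) * L')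
      have h2 : R0 + ((k + 1 : ℕ) : ℝ) * L' - L' = R0 + k * L' := by push_cast; ring
      rw [h2] at h1
      have h3 : 0 ≤ (B * n) ^ k := by positivity
      calc M ^ (k + 1) * c R0 = M * (M ^ k * c R0) := by ring
        _ ≤ M * ((B * n) ^ k * c (R0 + k * L')) := mul_le_mul_of_nonneg_left ih hM0.le
        _ = (B * n) ^ k * (M * c (R0 + k * L')) := by ring
        _ ≤ (B * n) ^ k * ((B * n) * c (R0 + (k + 1 : ℕ) * L')) := mul_le_mul_of_nonneg_left h1 h3
        _ = _ := by ring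
  -- contradiction
  have hcount' : ∀ R, 0 ≤ R → c R ≤ C * (R + 1) ^ 2 := by
    intro R hR
    have := hcount R hR
    rw [Set.ncard_eq_toFinset_card _ (hfin R)] at this
    rw [hc]
    exact this
  set q := (B * n) / M with hqdef
  have hq0 : 0 ≤ q := by positivity
  have hq1 : q < 1 := by
    rw [hqdef, div_lt_one hM0]
    linarith
  have hineq : ∀ k : ℕ, 1 ≤ q ^ k * (C * (R0 + k * L' + 1) ^ 2) := by
    intro k
    have h1 := hiter k
    have h2 : c (R0 + k * L') ≤ C * (R0 + k * L' + 1) ^ 2 := hcount' _ (by positivity)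
    have h3 : 0 < M ^ k := by positivity
    have h4 : M ^ k * 1 ≤ (B * n) ^ k * (C * (R0 + k * L' + 1) ^ 2) := by
      calc M ^ k * 1 ≤ M ^ k * c R0 := mul_le_mul_of_nonneg_left hc0 h3.le
        _ ≤ _ := h1
        _ ≤ _ := mul_le_mul_of_nonneg_left h2 (by positivity)
    rw [hqdef, div_pow, div_mul_eq_mul_div, le_div_iff₀ h3]
    linarith
  have hlim : Filter.Tendsto (fun k : ℕ => q ^ k * (C * (R0 + k * L' + 1) ^ 2)) Filter.atTop (nhds 0) := by
    have t0 : Filter.Tendsto (fun k : ℕ => (k : ℝ) ^ 0 * q ^ k) Filter.atTop (nhds 0) :=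
      tendsto_pow_const_mul_const_pow_of_lt_one 0 hq0 hq1
    have t1 : Filter.Tendsto (fun k : ℕ => (k : ℝ) ^ 1 * q ^ k) Filter.atTop (nhds 0) :=
      tendsto_pow_const_mul_const_pow_of_lt_one 1 hq0 hq1
    have t2 : Filter.Tendsto (fun k : ℕ => (k : ℝ) ^ 2 * q ^ k) Filter.atTop (nhds 0) :=
      tendsto_pow_const_mul_const_pow_of_lt_one 2 hq0 hq1
    have t := ((t0.const_mul (C * (R0 + 1) ^ 2)).add (t1.const_mul (2 * C * (R0 + 1) * L'))).add
      (t2.const_mul (C * L' ^ 2))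
    simp only [mul_zero, add_zero] at t
    refine t.congr ?_
    intro k
    ring
  have := ge_of_tendsto' hlim hineq
  linarith

end Pool.Agent.NNb
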