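import Pool.Agent.NNb.Defs

/-!
Module PHI.  The concave function `phi k = k / (2 (k + 2)) = 1/2 - 1/(k + 2)`.

`phi_chord`: `phi (l + e) - phi l = e / ((l + 2)(l + e + 2)) ≥ (e / E) (phi (l + E) - phi l)` for
`e ≤ E` (the chord slope `1 / ((l + 2)(l + E + 2))` decreases in `E`).
`phi_incr`: the increments decrease.
`conc` (concentration lemma): let `l x ≤ k x`, `l x ≤ L` and `∑ k = ∑ l + E`.  With `e x = k x - l x`
(`0 ≤ e x ≤ E`, `∑ e x = E`):
`phi (k x) - phi (l x) ≥ phi (L + e x) - phi L ≥ (e x / E) (phi (L + E) - phi L)`; sum over `x`.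
(`E = 0` trivial.)
-/

namespace Pool.Agent.NNb

theorem phi_eq (k : ℕ) : phi k = 1 / 2 - 1 / ((k : ℝ) + 2) := by
  unfold phi
  have h : (k : ℝ) + 2 ≠ 0 := by positivity
  field_simp
  ring

theorem phi_val {v : ℕ} (hv : 2 ≤ v) : phi (v - 2) = 1 / 2 - 1 / (v : ℝ) := by
  rw [phi_eq, Nat.cast_sub hv]
  congr 2
  push_cast
  ring

theorem phi_nonneg (k : ℕ) : 0 ≤ phi k := by
  unfold phi
  positivity

theorem phi_lt_half (k : ℕ) : phi k < 1 / 2 := by
  rw [phi_eq]
  have : (0 : ℝ) < 1 / ((k : ℝ) + 2) := by positivity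
  linarith

theorem phi_mono {k l : ℕ} (h : k ≤ l) : phi k ≤ phi l := by
  rw [phi_eq, phi_eq]
  have h1 : (k : ℝ) ≤ l := by exact_mod_cast h
  have h2 : 1 / ((l : ℝ) + 2) ≤ 1 / ((k : ℝ) + 2) :=
    one_div_le_one_div_of_le (by positivity) (by linarith)
  linarith

theorem PHI_diff (a e : ℕ) : phi (a + e) - phi a = (e : ℝ) / (((a : ℝ) + 2) * ((a : ℝ) + e + 2)) := by
  rw [phi_eq, phi_eq]
  push_cast
  have h : (a : ℝ) + 2 ≠ 0 := by positivity
  have h' : (a : ℝ) + e + 2 ≠ 0 := by positivity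
  field_simp
  ring

theorem phi_incr {a b : ℕ} (e : ℕ) (h : a ≤ b) : phi (b + e) - phi b ≤ phi (a + e) - phi a := by
  rw [PHI_diff, PHI_diff]
  have h1 : (a : ℝ) ≤ b := by exact_mod_cast h
  apply div_le_div_of_nonneg_left (by positivity) (by positivity)
  gcongr

theorem phi_chord (l : ℕ) {e E : ℕ} (he : e ≤ E) (hE : 0 < E) :
    (e : ℝ) / E * (phi (l + E) - phi l) ≤ phi (l + e) - phi l := by
  rw [PHI_diff, PHI_diff]
  have h1 : (e : ℝ) ≤ E := by exact_mod_cast he
  have hE' : (E : ℝ) ≠ 0 := by positivity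
  have e1 : (e : ℝ) / E * ((E : ℝ) / (((l : ℝ) + 2) * ((l : ℝ) + E + 2))) =
      (e : ℝ) / (((l : ℝ) + 2) * ((l : ℝ) + E + 2)) := by
    have h2 : (l : ℝ) + 2 ≠ 0 := by positivity
    have h3 : (l : ℝ) + E + 2 ≠ 0 := by positivity
    field_simp
  rw [e1]
  apply div_le_div_of_nonneg_left (by positivity) (by positivity)
  gcongr

/-- lower chord bound between `a` and `b` -/
theorem phi_between {a b k : ℕ} (h1 : a ≤ k) (h2 : k ≤ b) (hab : a < b) :
    phi a + ((k : ℝ) - a) / ((b : ℝ) - a) * (phi b - phi a) ≤ phi k := by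
  obtain ⟨e, rfl⟩ := Nat.exists_eq_add_of_le h1
  obtain ⟨E, rfl⟩ := Nat.exists_eq_add_of_le hab.le
  have h := phi_chord a (e := e) (E := E) (by omega) (by omega)
  push_cast
  have e1 : ((a : ℝ) + e - a) = e := by ring
  have e2 : ((a : ℝ) + E - a) = E := by ring
  rw [e1, e2]
  linarith

theorem conc {ν : Type} (N : Finset ν) (k l : ν → ℕ) (L E : ℕ) (hl : ∀ x ∈ N, l x ≤ k x)
    (hL : ∀ x ∈ N, l x ≤ L) (hE : ∑ x ∈ N, k x = ∑ x ∈ N, l x + E) :
    ∑ x ∈ N, phi (l x) + phi (L + E) - phi L ≤ ∑ x ∈ N, phi (k x) := by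
  have hsum : ∑ x ∈ N, (k x - l x) = E := by
    have h1 : ∑ x ∈ N, k x = ∑ x ∈ N, l x + ∑ x ∈ N, (k x - l x) := by
      rw [← Finset.sum_add_distrib]
      refine Finset.sum_congr rfl fun x hx => ?_
      have := hl x hx
      omega
    omega
  rcases Nat.eq_zero_or_pos E with h0 | hpos
  · subst h0
    have : ∑ x ∈ N, phi (l x) ≤ ∑ x ∈ N, phi (k x) :=
      Finset.sum_le_sum fun x hx => phi_mono (hl x hx)
    simpa using this
  · have key : ∀ x ∈ N, phi (l x) + ((k x - l x : ℕ) : ℝ) / E * (phi (L + E) - phi L) ≤ phi (k x) := by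
      intro x hx
      have hle : k x - l x ≤ E := by
        rw [← hsum]
        exact Finset.single_le_sum (f := fun x => k x - l x) (fun _ _ => Nat.zero_le _) hx
      have h1 := phi_chord L hle hpos
      have h2 := phi_incr (k x - l x) (hL x hx)
      have h3 : l x + (k x - l x) = k x := by
        have := hl x hx
        omega
      rw [h3] at h2
      linarith
    have h := Finset.sum_le_sum key
    rw [Finset.sum_add_distrib, ← Finset.sum_mul, ← Finset.sum_div] at h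
    have h4 : ∑ x ∈ N, ((k x - l x : ℕ) : ℝ) = (E : ℝ) := by exact_mod_cast hsum
    have hE' : (E : ℝ) ≠ 0 := by positivity
    rw [h4, div_self hE', one_mul] at h
    linarith

/-- special case: all `k x ≥ l` -/
theorem conc_const {ν : Type} (N : Finset ν) (k : ν → ℕ) (l n : ℕ) (hN : N.Nonempty)
    (hl : ∀ x ∈ N, l ≤ k x) (hn : ∑ x ∈ N, k x = n) :
    ((N.card : ℝ) - 1) * phi l + phi (n - (N.card - 1) * l) ≤ ∑ x ∈ N, phi (k x) := by
  have hc : 1 ≤ N.card := Finset.card_pos.mpr hN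
  have hle : N.card * l ≤ n := by
    rw [← hn, ← smul_eq_mul, ← Finset.sum_const]
    exact Finset.sum_le_sum hl
  have h := conc N k (fun _ => l) l (n - N.card * l) hl (fun _ _ => le_rfl) (by
    rw [hn, Finset.sum_const, smul_eq_mul]
    omega)
  have e1 : l + (n - N.card * l) = n - (N.card - 1) * l := by
    obtain ⟨c, hc'⟩ : ∃ c, N.card = c + 1 := ⟨N.card - 1, by omega⟩
    rw [hc'] at hle ⊢
    have : (c + 1) * l = c * l + l := by ring
    rw [this] at hle ⊢
    simp only [Nat.add_sub_cancel]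
    omega
  rw [e1, Finset.sum_const, nsmul_eq_mul] at h
  linarith

end Pool.Agent.NNb
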