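import Pool.Agent.NNb.SumVal
import Pool.Agent.NNb.Phi

/-!
Module FPHI.  The potential of a tile in terms of `phi`, general bounds.

`f_eq`: `phi_val`.  `f_le`: `conc_const` with `l = 1`:
`∑ phi ≥ (s - 1)/6 + phi (n - s + 1)`, i.e. `f ≤ 2/3 - s/6 + 1/(n - s + 3)`.
`f_le2`: if all nodes have valence `≥ 4`: `l = 2`: `f ≤ 3/4 - s/4 + 1/(n - 2 s + 4)`.
-/

namespace Pool.Agent.NNb

namespace Sys

variable {ι ν : Type} {m n : ℕ} (S : Sys ι ν m n)

theorem f_eq (i : ι) : S.f i = 1 - ∑ x ∈ S.N i, phi (S.val x - 2) := by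
  unfold f
  congr 1
  refine Finset.sum_congr rfl fun x hx => ?_
  rw [phi_val]
  have := S.val_ge hx
  omega

theorem f_le (i : ι) (h1 : 1 ≤ (S.N i).card) :
    S.f i ≤ 2 / 3 - ((S.N i).card : ℝ) / 6 + 1 / ((n : ℝ) - (S.N i).card + 3) := by
  have hne : (S.N i).Nonempty := Finset.card_pos.mp h1
  have h := conc_const (S.N i) (fun x => S.val x - 2) 1 n hne (fun x hx => by
    have := S.val_ge hx
    omega) (S.sum_val i)
  rw [f_eq]
  have hle := S.card_le i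
  have e1 : phi (n - ((S.N i).card - 1) * 1) = 1 / 2 - 1 / ((n : ℝ) - (S.N i).card + 3) := by
    rw [phi_eq]
    congr 2
    rw [mul_one, Nat.cast_sub (by omega), Nat.cast_sub h1]
    push_cast
    ring
  have e2 : phi 1 = 1 / 6 := by unfold phi; norm_num
  rw [e1, e2] at h
  linarith

theorem f_le2 (i : ι) (h1 : 1 ≤ (S.N i).card) (h4 : ∀ x ∈ S.N i, 4 ≤ S.val x) :
    2 * (S.N i).card ≤ n ∧
    S.f i ≤ 3 / 4 - ((S.N i).card : ℝ) / 4 + 1 / ((n : ℝ) - 2 * (S.N i).card + 4) := by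
  have hne : (S.N i).Nonempty := Finset.card_pos.mp h1
  have hk : ∀ x ∈ S.N i, 2 ≤ S.val x - 2 := fun x hx => by
    have := h4 x hx
    omega
  have hle : 2 * (S.N i).card ≤ n := by
    calc 2 * (S.N i).card = ∑ x ∈ S.N i, 2 := by rw [Finset.sum_const, smul_eq_mul, mul_comm]
      _ ≤ ∑ x ∈ S.N i, (S.val x - 2) := Finset.sum_le_sum hk
      _ = n := S.sum_val i
  refine ⟨hle, ?_⟩
  have h := conc_const (S.N i) (fun x => S.val x - 2) 2 n hne hk (S.sum_val i)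
  rw [f_eq]
  have e1 : phi (n - ((S.N i).card - 1) * 2) = 1 / 2 - 1 / ((n : ℝ) - 2 * (S.N i).card + 4) := by
    rw [phi_eq]
    congr 2
    rw [Nat.cast_sub (by omega), Nat.cast_mul, Nat.cast_sub h1]
    push_cast
    ring
  have e2 : phi 2 = 1 / 4 := by unfold phi; norm_num
  rw [e1, e2] at h
  linarith

theorem abs_f_le (i : ι) : |S.f i| ≤ 1 + n := by
  rw [f_eq]
  have h0 : 0 ≤ ∑ x ∈ S.N i, phi (S.val x - 2) := Finset.sum_nonneg fun x _ => phi_nonneg _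
  have h1 : ∑ x ∈ S.N i, phi (S.val x - 2) ≤ ∑ x ∈ S.N i, (1 / 2 : ℝ) :=
    Finset.sum_le_sum fun x _ => (phi_lt_half _).le
  rw [Finset.sum_const, nsmul_eq_mul] at h1
  have h2 : ((S.N i).card : ℝ) ≤ n := by exact_mod_cast S.card_le i
  have h3 : (0 : ℝ) ≤ n := Nat.cast_nonneg n
  rw [abs_le]
  constructor <;> linarith

end Sys

end Pool.Agent.NNb
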