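import Pool.Agent.NNb.ADefs

/-!
Third wave (`17 ≤ n ≤ 20`, triangles): definitions only.

`small` tile: exactly three nodes; `big` tile: at least four nodes.
-/

namespace Pool.Agent.NNb

namespace Sys

variable {ι ν : Type} {n : ℕ} (S : Sys ι ν 3 n)

/-- tiles with exactly three nodes, of valences `3, 5, n - 2` -/
def IsE (i : ι) : Prop :=
  (S.N i).card = 3 ∧ ∃ g u p, g ∈ S.N i ∧ u ∈ S.N i ∧ p ∈ S.N i ∧ S.val g = 3 ∧ S.val u = 5 ∧
    S.val p + 2 = n

/-- every tile has at least two nodes of valence `≥ 4` -/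
def U2 : Prop := ∀ i, ∃ x y, x ∈ S.N i ∧ y ∈ S.N i ∧ x ≠ y ∧ 4 ≤ S.val x ∧ 4 ≤ S.val y

/-- every 3-valent node lies on a big tile -/
def U3 : Prop := ∀ i x, x ∈ S.N i → S.val x = 3 → ∃ j, x ∈ S.N j ∧ 4 ≤ (S.N j).card

/-- the tile across the 4-4 edge of an `A`-tile is big -/
def U4 : Prop := ∀ i j x y, S.IsA i → j ≠ i → x ≠ y → x ∈ S.N i → y ∈ S.N i → S.val x = 4 →
  S.val y = 4 → x ∈ S.N j → y ∈ S.N j → 4 ≤ (S.N j).card

/-- the tile `j` across the 3-5 edge `{g, u}` of an `E`-tile is big, and the other partner of `g` on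
`j` has valence 4, or valence 5 and then `j` has at least 5 nodes -/
def U5 : Prop := ∀ i j g u, S.IsE i → j ≠ i → g ∈ S.N i → u ∈ S.N i → S.val g = 3 → S.val u = 5 →
  g ∈ S.N j → u ∈ S.N j → 4 ≤ (S.N j).card ∧
    ∀ z, z ≠ u → Part S.N j g z → S.val z = 4 ∨ (S.val z = 5 ∧ 5 ≤ (S.N j).card)

end Sys

/-! ### Rational charge functions

`n` the neighbour number, `E` the charge sent by an `E`-tile, `a` the charge of an `A`-tile, `b` the
charge of a `B`-tile, `s` the number of nodes of the receiving tile, `v` the valence of a node of this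
tile and `y`, `z` the valences of its two partners there. -/

/-- `1/100000` -/
def epsq : ℚ := 1 / 100000

/-- the value of a small tile with valences `3, z, n + 3 - z` -/
def e3q (n z : ℕ) : ℚ := 1 / (z : ℚ) + 1 / ((n : ℚ) + 3 - z) - 1 / 6

/-- charge sent by a small tile with a 3-valent node across the edge to the node of valence `z`, if
both other tiles at the 3-valent node are big -/
def shq (n : ℕ) (E : ℚ) (z : ℕ) : ℚ :=
  if z = 5 then E
  else if 6 ≤ z ∧ z + 3 ≤ n then
    (if n + 3 < 2 * z then 77 / 200 * e3q n z + epsq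
      else if 2 * z < n + 3 then 123 / 200 * e3q n z + epsq
      else e3q n z / 2 + epsq)
  else 0

/-- the same if one of the other tiles at the 3-valent node is small -/
def dbq (n : ℕ) (E : ℚ) (z : ℕ) : ℚ :=
  if z = 5 then E else if 6 ≤ z ∧ z + 3 ≤ n then e3q n z + epsq else 0

/-- received from one side -/
def m1q (n : ℕ) (E : ℚ) (s y z : ℕ) : ℚ :=
  if y = 5 then (if z = 4 ∨ (z = 5 ∧ 5 ≤ s) then E else 0) else shq n E y

/-- received from both sides -/
def m2q (n : ℕ) (E : ℚ) (s y z : ℕ) : ℚ :=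
  if y = z then (if y = 5 then (if 5 ≤ s then 2 * E else 0) else 2 * dbq n E y) else 0

/-- maximal charge received at a 3-valent node with partners of valences `y`, `z` -/
def c3q (n : ℕ) (E : ℚ) (s y z : ℕ) : ℚ :=
  max (max (m1q n E s y z) (m1q n E s z y)) (m2q n E s y z)

/-- maximal charge received at a node of valence `v` with partners of valences `y`, `z` -/
def wq (n : ℕ) (E a b : ℚ) (s v y z : ℕ) : ℚ :=
  if v = 3 then c3q n E s y z
  else if v = 4 then a / 2 * ((if y = 4 then 1 else 0) + (if z = 4 then 1 else 0))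
  else if v = 5 then b * (2 * (if y = 4 then 1 else 0) + 2 * (if z = 4 then 1 else 0) +
    (if y + 3 = n then 1 else 0) + (if z + 3 = n then 1 else 0))
  else 0

/-- minus the cost of a node -/
def ndq (n : ℕ) (E a b : ℚ) (s v y z : ℕ) : ℚ := 1 / (v : ℚ) - 1 / 2 + wq n E a b s v y z

/-- charge of an `A`-tile -/
def aq (n : ℕ) : ℚ := 1 / ((n : ℚ) - 2) + epsq

/-- charge of a `B`-tile -/
def bq (n : ℕ) : ℚ := 1 / ((n : ℚ) - 3) - 1 / 20 + epsq

/-- charge of an `E`-tile for `n = 18` -/
def eq18 : ℚ := 1 / 5 + 1 / 16 - 1 / 6 + epsq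

end Pool.Agent.NNb
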