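import Pool.Agent.NNb.SumVal
import Pool.Agent.NNb.FPhi
import Pool.Agent.NNb.UDefs

/-!
Module SMALLT.  Small tiles (`|N i| = 3`), `17 ≤ n ≤ 20`.

Write `k = val - 2 ≥ 1`, `k1 + k2 + k3 = n` (`sum_val`).
`small_A`: valences `n - 2, 4, 4`: `f = 1/(n-2) + 1/4 + 1/4 - 1/2`.  `small_B`: `1/(n-3) + 1/5 + 1/4 - 1/2`
(the three nodes `h, y, w` are distinct because their valences are).
`small_other`: all valences `≥ 4`, not of type `A` or `B`.  Sorted `k1 ≤ k2 ≤ k3`: `k1 = 2`: `k2 = 2` would be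
`A` (`val = n - 2` for the third), `k2 = 3` would be `B`; so `k2 ≥ 4` and by `conc` (or directly, `phi` concave)
`f ≤ 1 - 1/4 - 1/3 - phi (n - 6) = -1/12 + 1/(n - 4) ≤ -1/12 + 1/13`.  `k1 ≥ 3`:
`f ≤ 1 - 3/10 - 3/10 - phi (n - 6) = -1/10 + 1/(n - 4)`.
`small_3`: a 3-valent node `g` and the two others `y`, `z`: `val y + val z = n + 3`, both `≥ 4` (`U2` and
`|N i| = 3`), not `4` (`H3`: the other one would have valence `n - 1`); if one of them is `5` the other is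
`n - 2` and the tile is of type `E`; otherwise both are in `[6, n - 3]`.
`f = 1/3 + 1/val y + 1/val z - 1/2`.
-/

namespace Pool.Agent.NNb

namespace Sys

variable {ι ν : Type} {n : ℕ}

theorem SMALLT_eq (S : Sys ι ν 3 n) {i : ι} (hc : (S.N i).card = 3) {a b c : ν} (ha : a ∈ S.N i)
    (hb : b ∈ S.N i) (hc' : c ∈ S.N i) (hab : a ≠ b) (hac : a ≠ c) (hbc : b ≠ c) :
    (∀ x ∈ S.N i, x = a ∨ x = b ∨ x = c) ∧ S.val a + S.val b + S.val c = n + 6 ∧
      S.f i = 1 / (S.val a : ℝ) + 1 / (S.val b : ℝ) + 1 / (S.val c : ℝ) - 1 / 2 := by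
  classical
  have hs : ({a, b, c} : Finset ν) ⊆ S.N i := by
    intro z hz
    simp only [Finset.mem_insert, Finset.mem_singleton] at hz
    rcases hz with rfl | rfl | rfl <;> assumption
  have hcd : ({a, b, c} : Finset ν).card = 3 := Finset.card_eq_three.2 ⟨a, b, c, hab, hac, hbc, rfl⟩
  have he : ({a, b, c} : Finset ν) = S.N i := Finset.eq_of_subset_of_card_le hs (by rw [hcd, hc])
  have hsum : ∀ {R : Type} [AddCommMonoid R] (F : ν → R), ∑ x ∈ S.N i, F x = F a + (F b + F c) := by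
    intro R _ F
    rw [← he, Finset.sum_insert (by simp [hab, hac]), Finset.sum_insert (by simp [hbc]),
      Finset.sum_singleton]
  refine ⟨?_, ?_, ?_⟩
  · intro x hx
    rw [← he] at hx
    simpa using hx
  · have h := S.sum_val i
    rw [hsum] at h
    have h1 := S.val_ge ha
    have h2 := S.val_ge hb
    have h3 := S.val_ge hc'
    omega
  · unfold Sys.f
    rw [hsum]
    ring

theorem SMALLT_two (S : Sys ι ν 3 n) {i : ι} (hc : (S.N i).card = 3) {a : ν} (ha : a ∈ S.N i) :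
    ∃ b c, b ∈ S.N i ∧ c ∈ S.N i ∧ a ≠ b ∧ a ≠ c ∧ b ≠ c := by
  classical
  have h1 : ((S.N i).erase a).card = 2 := by rw [Finset.card_erase_of_mem ha, hc]
  obtain ⟨b, c, hbc, he⟩ := Finset.card_eq_two.1 h1
  have hb : b ∈ (S.N i).erase a := by rw [he]; simp
  have hc' : c ∈ (S.N i).erase a := by rw [he]; simp
  rw [Finset.mem_erase] at hb hc'
  exact ⟨b, c, hb.2, hc'.2, hb.1.symm, hc'.1.symm, hbc⟩

theorem small_A (S : Sys ι ν 3 n) (hn : 15 ≤ n) {i : ι} (h : S.IsA i) :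
    S.f i = 1 / ((n : ℝ) - 2) := by
  obtain ⟨hc, h, hh, hv, h4⟩ := h
  obtain ⟨b, c, hb, hc', hab, hac, hbc⟩ := S.SMALLT_two hc hh
  obtain ⟨-, -, hf⟩ := S.SMALLT_eq hc hh hb hc' hab hac hbc
  rw [hf, h4 b hb hab.symm, h4 c hc' hac.symm]
  have h1 : ((S.val h : ℕ) : ℝ) = (n : ℝ) - 2 := by
    have h2 : ((S.val h + 2 : ℕ) : ℝ) = (n : ℝ) := congrArg _ hv
    push_cast at h2
    linarith
  rw [h1]
  norm_num
  ring

theorem small_B (S : Sys ι ν 3 n) (hn : 15 ≤ n) {i : ι} (h : S.IsB i) :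
    S.f i = 1 / ((n : ℝ) - 3) - 1 / 20 := by
  obtain ⟨hc, h, y, w, hh, hy, hw, hv, hvy, hvw⟩ := h
  have hab : h ≠ y := by rintro rfl; omega
  have hac : h ≠ w := by rintro rfl; omega
  have hbc : y ≠ w := by rintro rfl; omega
  obtain ⟨-, -, hf⟩ := S.SMALLT_eq hc hh hy hw hab hac hbc
  rw [hf, hvy, hvw]
  have h1 : ((S.val h : ℕ) : ℝ) = (n : ℝ) - 3 := by
    have h2 : ((S.val h + 3 : ℕ) : ℝ) = (n : ℝ) := congrArg _ hv
    push_cast at h2
    linarith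
  rw [h1]
  norm_num
  ring

theorem SMALLT_inv {v : ℕ} (l : ℕ) (hl : 0 < l) (h : l ≤ v) : 1 / (v : ℝ) ≤ 1 / (l : ℝ) := by
  apply one_div_le_one_div_of_le
  · exact_mod_cast hl
  · exact_mod_cast h

theorem SMALLT_num (hn : 17 ≤ n) {a b c : ℕ} (h4 : 4 ≤ a) (hab : a ≤ b) (hbc : b ≤ c)
    (hs : a + b + c = n + 6) (h1 : ¬ (a = 4 ∧ b = 4)) (h2 : ¬ (a = 4 ∧ b = 5)) :
    1 / (a : ℝ) + 1 / (b : ℝ) + 1 / (c : ℝ) - 1 / 2 ≤ -(1 / 1000) := by
  by_cases ha : a = 4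
  · have hb : 6 ≤ b := by omega
    have e1 := SMALLT_inv 4 (by norm_num) ha.ge
    by_cases h6 : b = 6
    · have e2 := SMALLT_inv 6 (by norm_num) h6.ge
      have e3 := SMALLT_inv (v := c) 13 (by norm_num) (by omega)
      norm_num at e1 e2 e3 ⊢
      linarith
    · by_cases h7 : b = 7
      · have e2 := SMALLT_inv 7 (by norm_num) h7.ge
        have e3 := SMALLT_inv (v := c) 12 (by norm_num) (by omega)
        norm_num at e1 e2 e3 ⊢
        linarith
      · have e2 := SMALLT_inv (v := b) 8 (by norm_num) (by omega)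
        have e3 := SMALLT_inv (v := c) 10 (by norm_num) (by omega)
        norm_num at e1 e2 e3 ⊢
        linarith
  · by_cases hb : b = 5
    · have e1 := SMALLT_inv (v := a) 5 (by norm_num) (by omega)
      have e2 := SMALLT_inv (v := b) 5 (by norm_num) (by omega)
      have e3 := SMALLT_inv (v := c) 13 (by norm_num) (by omega)
      norm_num at e1 e2 e3 ⊢
      linarith
    · have e1 := SMALLT_inv (v := a) 5 (by norm_num) (by omega)
      have e2 := SMALLT_inv (v := b) 6 (by norm_num) (by omega)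
      have e3 := SMALLT_inv (v := c) 8 (by norm_num) (by omega)
      norm_num at e1 e2 e3 ⊢
      linarith

theorem SMALLT_sorted (S : Sys ι ν 3 n) (hn : 17 ≤ n) {i : ι} (hc : (S.N i).card = 3)
    (h4 : ∀ x ∈ S.N i, 4 ≤ S.val x) (hA : ¬ S.IsA i) (hB : ¬ S.IsB i) {a b c : ν} (ha : a ∈ S.N i)
    (hb : b ∈ S.N i) (hc' : c ∈ S.N i) (hab : a ≠ b) (hac : a ≠ c) (hbc : b ≠ c)
    (h1 : S.val a ≤ S.val b) (h2 : S.val b ≤ S.val c) : S.f i ≤ -(1 / 1000) := by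
  obtain ⟨hall, hs, hf⟩ := S.SMALLT_eq hc ha hb hc' hab hac hbc
  rw [hf]
  refine SMALLT_num hn (h4 a ha) h1 h2 hs ?_ ?_
  · rintro ⟨e1, e2⟩
    apply hA
    refine ⟨hc, c, hc', by omega, fun x hx hxc => ?_⟩
    rcases hall x hx with rfl | rfl | rfl
    · exact e1
    · exact e2
    · exact absurd rfl hxc
  · rintro ⟨e1, e2⟩
    apply hB
    exact ⟨hc, c, b, a, hc', hb, ha, by omega, e2, e1⟩

theorem small_other (S : Sys ι ν 3 n) (hn : 17 ≤ n) {i : ι} (hc : (S.N i).card = 3)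
    (h4 : ∀ x ∈ S.N i, 4 ≤ S.val x) (hA : ¬ S.IsA i) (hB : ¬ S.IsB i) :
    S.f i ≤ -(1 / 1000) := by
  obtain ⟨a, ha⟩ : (S.N i).Nonempty := Finset.card_pos.1 (by omega)
  obtain ⟨b, c, hb, hc', hab, hac, hbc⟩ := S.SMALLT_two hc ha
  rcases le_total (S.val a) (S.val b) with h1 | h1 <;>
    rcases le_total (S.val b) (S.val c) with h2 | h2 <;>
    rcases le_total (S.val a) (S.val c) with h3 | h3
  · exact S.SMALLT_sorted hn hc h4 hA hB ha hb hc' hab hac hbc h1 h2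
  · exact S.SMALLT_sorted hn hc h4 hA hB ha hb hc' hab hac hbc h1 h2
  · exact S.SMALLT_sorted hn hc h4 hA hB ha hc' hb hac hab hbc.symm h3 h2
  · exact S.SMALLT_sorted hn hc h4 hA hB hc' ha hb hac.symm hbc.symm hab h3 h1
  · exact S.SMALLT_sorted hn hc h4 hA hB hb ha hc' hab.symm hbc hac h1 h3
  · exact S.SMALLT_sorted hn hc h4 hA hB hb hc' ha hbc hab.symm hac.symm h2 h3
  · exact S.SMALLT_sorted hn hc h4 hA hB hc' hb ha hbc.symm hac.symm hab.symm h2 h1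
  · exact S.SMALLT_sorted hn hc h4 hA hB hc' hb ha hbc.symm hac.symm hab.symm h2 h1

theorem small_3 (S : Sys ι ν 3 n) (hn : 15 ≤ n) (h1 : S.H3) (h2 : S.U2) {i : ι} {g y z : ν}
    (hc : (S.N i).card = 3) (hg : g ∈ S.N i) (hy : y ∈ S.N i) (hz : z ∈ S.N i) (hyg : y ≠ g)
    (hzg : z ≠ g) (hyz : y ≠ z) (hv : S.val g = 3) :
    S.f i = 1 / (S.val y : ℝ) + 1 / (S.val z : ℝ) - 1 / 6 ∧ S.val y + S.val z = n + 3 ∧
      ((S.val y = 5 ∧ S.val z + 2 = n ∧ S.IsE i) ∨ (S.val z = 5 ∧ S.val y + 2 = n ∧ S.IsE i) ∨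
       (6 ≤ S.val y ∧ 6 ≤ S.val z ∧ S.val y + 3 ≤ n ∧ S.val z + 3 ≤ n)) := by
  obtain ⟨hall, hs, hf⟩ := S.SMALLT_eq hc hg hy hz hyg.symm hzg.symm hyz
  have hsum : S.val y + S.val z = n + 3 := by omega
  have hy4 : 4 ≤ S.val y ∧ 4 ≤ S.val z := by
    obtain ⟨u, w, hu, hw, huw, hu4, hw4⟩ := h2 i
    have hug : u ≠ g := by rintro rfl; omega
    have hwg : w ≠ g := by rintro rfl; omega
    rcases hall u hu with e1 | e1 | e1 <;> rcases hall w hw with e2 | e2 | e2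
    · exact absurd e1 hug
    · exact absurd e1 hug
    · exact absurd e1 hug
    · exact absurd e2 hwg
    · exact absurd (e1.trans e2.symm) huw
    · rw [← e1, ← e2]; exact ⟨hu4, hw4⟩
    · exact absurd e2 hwg
    · rw [← e1, ← e2]; exact ⟨hw4, hu4⟩
    · exact absurd (e1.trans e2.symm) huw
  have hy1 := h1 i y hy
  have hz1 := h1 i z hz
  refine ⟨?_, hsum, ?_⟩
  · rw [hf, hv]
    norm_num
    ring
  · by_cases k1 : S.val y = 5
    · exact Or.inl ⟨k1, by omega, hc, g, y, z, hg, hy, hz, hv, k1, by omega⟩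
    · by_cases k2 : S.val z = 5
      · exact Or.inr (Or.inl ⟨k2, by omega, hc, g, z, y, hg, hz, hy, hv, k2, by omega⟩)
      · exact Or.inr (Or.inr ⟨by omega, by omega, by omega, by omega⟩)

end Sys

end Pool.Agent.NNb
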