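import Pool.Agent.NNb.SumVal
import Pool.Agent.NNb.Link
import Pool.Agent.NNb.UDefs
import Pool.Agent.NNb.SmallT

/-!
Module BNBR.  Every `B`-tile (three nodes, valences `n - 3, 5, 4`) finds a big tile nearby, which
contains its 5-valent node.

Let `N i = {h, y, w}` with `val h = n - 3`, `val y = 5`, `val w = 4` (pairwise partners,
`part_of_three`).  Let `S₁` be the other tile with `y, w` and `T` the other tile with `h, y`
(`part_other`).
* If `S₁` is big take `j = S₁` (common node `w`).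
* If `T` is big take `j = T` (common node `h`).
* Otherwise both are small.  `N S₁ = {y, w, h'}`, by `sum_val` `val h' = n - 3`; `N T = {h, y, w'}`,
  `val w' = 4`.  `h' ≠ h`, `w' ≠ w` (`three`).  Let `S₂` be the other tile (`≠ T`) with `y, w'`.  If it is
  big take `j = S₂` and `t = T`, second alternative.
* Suppose that `S₂` is small: `N S₂ = {y, w', h''}`, `val h'' = n - 3` (`n - 3 ≠ 4`).  The four tiles
  `i, S₁, T, S₂` are distinct (`S₁ = T` would contain `h, y, w`; `S₂ = S₁` would need `w' ∈ N S₁ = {y, w, h'}`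
  with valence 4, `w' ≠ w`; `S₂ = i` similarly).  `val y = 5`: let `X` be the fifth tile at `y`.  `X` has two
  partners of `y`, each is shared with one other tile at `y`, and for this tile it is a partner of `y`.
  The partners of `y` are: on `i`: `h, w`; on `S₁`: `w, h'`; on `T`: `h, w'`; on `S₂`: `w', h''`.
  `h, w, w'` are already on two tiles each (`i,T`; `i,S₁`; `T,S₂`), so they are not on `X` (`edge`); hence the
  two partners of `y` on `X` are `h'` and `h''`, and they are different.  So `N X` contains `y, h', h''`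
  and `∑ (val - 2) ≥ 3 + 2 (n - 5) > n` for `n ≥ 15`: contradiction to `sum_val`.
-/

namespace Pool.Agent.NNb

namespace Sys

variable {ι ν : Type} {n : ℕ}

/-- third node of a small tile -/
theorem BNBR_third (S : Sys ι ν 3 n) {i : ι} (hc : (S.N i).card = 3) {a b : ν} (ha : a ∈ S.N i)
    (hb : b ∈ S.N i) (hab : a ≠ b) : ∃ c, c ∈ S.N i ∧ a ≠ c ∧ b ≠ c := by
  classical
  have h1 : (((S.N i).erase a).erase b).card = 1 := by
    rw [Finset.card_erase_of_mem (Finset.mem_erase.2 ⟨hab.symm, hb⟩),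
      Finset.card_erase_of_mem ha, hc]
  obtain ⟨c, he⟩ := Finset.card_eq_one.1 h1
  have hc' : c ∈ ((S.N i).erase a).erase b := by rw [he]; simp
  rw [Finset.mem_erase, Finset.mem_erase] at hc'
  exact ⟨c, hc'.2.2, hc'.2.1.symm, hc'.1.symm⟩

/-- the tile across an edge of a small tile -/
theorem BNBR_across (S : Sys ι ν 3 n) {i : ι} (hc : (S.N i).card = 3) {a b : ν} (ha : a ∈ S.N i)
    (hb : b ∈ S.N i) (hab : a ≠ b) : ∃ j, j ≠ i ∧ a ∈ S.N j ∧ b ∈ S.N j := by
  obtain ⟨j, hj, hp, -⟩ := S.part_other (S.part_of_three hc ha hb hab)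
  exact ⟨j, hj, hp.1, hp.2.1⟩

/-- two nodes of valence `n - 3` and a third node of valence `5` -/
theorem BNBR_sum (S : Sys ι ν 3 n) (hn : 15 ≤ n) {i : ι} {a b c : ν} (ha : a ∈ S.N i)
    (hb : b ∈ S.N i) (hc : c ∈ S.N i) (hab : a ≠ b) (hac : a ≠ c) (hbc : b ≠ c)
    (h1 : S.val a = 5) (h2 : S.val b + 3 = n) (h3 : S.val c + 3 = n) : False := by
  classical
  have h := S.sum_val i
  have h4 : ∑ x ∈ ({a, b, c} : Finset ν), (S.val x - 2) ≤ ∑ x ∈ S.N i, (S.val x - 2) := by
    refine Finset.sum_le_sum_of_subset ?_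
    intro x hx
    simp only [Finset.mem_insert, Finset.mem_singleton] at hx
    rcases hx with rfl | rfl | rfl <;> assumption
  rw [Finset.sum_insert (by simp [hab, hac]), Finset.sum_insert (by simp [hbc]),
    Finset.sum_singleton, h] at h4
  omega

theorem b_target (S : Sys ι ν 3 n) (hn : 15 ≤ n) {i : ι} {y : ν} (hi : S.IsB i)
    (hy : y ∈ S.N i) (hv : S.val y = 5) :
    ∃ j, y ∈ S.N j ∧ 4 ≤ (S.N j).card ∧
      ((∃ w, w ∈ S.N i ∧ w ∈ S.N j ∧ w ≠ y ∧ (S.val w = 4 ∨ S.val w + 3 = n)) ∨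
       (∃ t w h, t ≠ i ∧ t ≠ j ∧ (S.N t).card = 3 ∧ y ∈ S.N t ∧ h ∈ S.N i ∧ h ∈ S.N t ∧ h ≠ y ∧
          S.val h + 3 = n ∧ w ∈ S.N t ∧ w ∈ S.N j ∧ w ≠ y ∧ S.val w = 4)) := by
  classical
  obtain ⟨hc, h, y0, w, hh, hy0, hw, hvh, hvy0, hvw⟩ := hi
  have hab : h ≠ y0 := by rintro rfl; omega
  have hac : h ≠ w := by rintro rfl; omega
  have hbc : y0 ≠ w := by rintro rfl; omega
  obtain ⟨hall, -, -⟩ := S.SMALLT_eq hc hh hy0 hw hab hac hbc
  have hyy : y = y0 := by
    rcases hall y hy with e | e | e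
    · rw [e] at hv; omega
    · exact e
    · rw [e] at hv; omega
  subst hyy
  obtain ⟨S1, hS1, hyS1, hwS1⟩ := S.BNBR_across hc hy hw hbc
  obtain ⟨T, hT, hhT, hyT⟩ := S.BNBR_across hc hh hy hab
  by_cases k1 : 4 ≤ (S.N S1).card
  · exact ⟨S1, hyS1, k1, Or.inl ⟨w, hw, hwS1, hbc.symm, Or.inl hvw⟩⟩
  by_cases k2 : 4 ≤ (S.N T).card
  · exact ⟨T, hyT, k2, Or.inl ⟨h, hh, hhT, hab, Or.inr hvh⟩⟩
  have c1 : (S.N S1).card = 3 := by
    have := S.card_ge S1
    omega
  have c2 : (S.N T).card = 3 := by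
    have := S.card_ge T
    omega
  obtain ⟨h', hh', hyh', hwh'⟩ := S.BNBR_third c1 hyS1 hwS1 hbc
  obtain ⟨hall1, hsum1, -⟩ := S.SMALLT_eq c1 hyS1 hwS1 hh' hbc hyh' hwh'
  obtain ⟨w', hw', hhw', hyw'⟩ := S.BNBR_third c2 hhT hyT hab
  obtain ⟨hall2, hsum2, -⟩ := S.SMALLT_eq c2 hhT hyT hw' hab hhw' hyw'
  have hvh' : S.val h' + 3 = n := by omega
  have hvw' : S.val w' = 4 := by omega
  have hh'i : h' ∉ S.N i := by
    intro hcon
    rcases S.three i S1 y w h' hS1.symm hy hw hcon hyS1 hwS1 hh' with e | e | e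
    · exact hbc e
    · exact hwh' e
    · exact hyh' e
  have hw'i : w' ∉ S.N i := by
    intro hcon
    rcases S.three i T h y w' hT.symm hh hy hcon hhT hyT hw' with e | e | e
    · exact hab e
    · exact hyw' e
    · exact hhw' e
  obtain ⟨S2, hS2, hyS2, hw'S2⟩ := S.BNBR_across c2 hyT hw' hyw'
  by_cases k3 : 4 ≤ (S.N S2).card
  · exact ⟨S2, hyS2, k3, Or.inr ⟨T, w', h, hT, hS2.symm, c2, hyT, hh, hhT, hab, hvh, hw', hw'S2,
      hyw'.symm, hvw'⟩⟩
  exfalso
  have c3 : (S.N S2).card = 3 := by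
    have := S.card_ge S2
    omega
  obtain ⟨h'', hh'', hyh'', hw'h''⟩ := S.BNBR_third c3 hyS2 hw'S2 hyw'
  obtain ⟨hall3, hsum3, -⟩ := S.SMALLT_eq c3 hyS2 hw'S2 hh'' hyw' hyh'' hw'h''
  have hvh'' : S.val h'' + 3 = n := by omega
  have d1 : S1 ≠ T := by
    rintro rfl
    rcases hall1 h hhT with e | e | e
    · exact hab e
    · exact hac e
    · exact hh'i (e ▸ hh)
  have d2 : S2 ≠ i := by
    rintro rfl
    exact hw'i hw'S2
  have d3 : S2 ≠ S1 := by
    rintro rfl
    rcases hall1 w' hw'S2 with e | e | e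
    · exact hyw' e.symm
    · exact hw'i (e ▸ hw)
    · rw [e] at hvw'; omega
  -- the fifth tile
  have hsub : ({i, S1, T, S2} : Finset ι) ⊆ S.tl y := by
    intro l hl
    simp only [Finset.mem_insert, Finset.mem_singleton] at hl
    rw [S.mem_tl]
    rcases hl with rfl | rfl | rfl | rfl <;> assumption
  have hcard : ({i, S1, T, S2} : Finset ι).card = 4 := by
    rw [Finset.card_insert_of_notMem (by simp [hS1.symm, hT.symm, d2.symm]),
      Finset.card_insert_of_notMem (by simp [d1, d3.symm]),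
      Finset.card_insert_of_notMem (by simp [hS2.symm]), Finset.card_singleton]
  have hdiff : (S.tl y \ {i, S1, T, S2}).card = 1 := by
    rw [Finset.card_sdiff_of_subset hsub, hcard]
    have : (S.tl y).card = 5 := hv
    omega
  obtain ⟨X, hX⟩ := Finset.card_eq_one.1 hdiff
  have hXm : X ∈ S.tl y \ {i, S1, T, S2} := by rw [hX]; simp
  rw [Finset.mem_sdiff, S.mem_tl] at hXm
  obtain ⟨hyX, hnot⟩ := hXm
  simp only [Finset.mem_insert, Finset.mem_singleton, not_or] at hnot
  obtain ⟨x1, x2, x3, x4⟩ := hnot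
  have hallt : ∀ a, y ∈ S.N a → a ≠ X → a = i ∨ a = S1 ∨ a = T ∨ a = S2 := by
    intro a ha haX
    by_cases hh1 : a ∈ ({i, S1, T, S2} : Finset ι)
    · simpa only [Finset.mem_insert, Finset.mem_singleton] using hh1
    · exfalso
      have : a ∈ S.tl y \ {i, S1, T, S2} := Finset.mem_sdiff.2 ⟨(S.mem_tl a y).2 ha, hh1⟩
      rw [hX, Finset.mem_singleton] at this
      exact haX this
  -- no node of the edges used twice
  have nh : h ∉ S.N X := by
    intro hcon
    rcases S.edge y h i T X hab.symm hy hh hyT hhT hyX hcon with e | e | e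
    · exact hT e.symm
    · exact x3 e.symm
    · exact x1 e.symm
  have nw : w ∉ S.N X := by
    intro hcon
    rcases S.edge y w i S1 X hbc hy hw hyS1 hwS1 hyX hcon with e | e | e
    · exact hS1 e.symm
    · exact x2 e.symm
    · exact x1 e.symm
  have nw' : w' ∉ S.N X := by
    intro hcon
    rcases S.edge y w' T S2 X hyw' hyT hw' hyS2 hw'S2 hyX hcon with e | e | e
    · exact hS2 e.symm
    · exact x4 e.symm
    · exact x3 e.symm
  have key : ∀ p, Part S.N X y p → S.val p + 3 = n := by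
    rintro p ⟨-, hpX, hyp, a, haX, hya, hpa⟩
    rcases hallt a hya haX with rfl | rfl | rfl | rfl
    · rcases hall p hpa with rfl | rfl | rfl
      · exact absurd hpX nh
      · exact absurd rfl hyp
      · exact absurd hpX nw
    · rcases hall1 p hpa with rfl | rfl | rfl
      · exact absurd rfl hyp
      · exact absurd hpX nw
      · exact hvh'
    · rcases hall2 p hpa with rfl | rfl | rfl
      · exact absurd hpX nh
      · exact absurd rfl hyp
      · exact absurd hpX nw'
    · rcases hall3 p hpa with rfl | rfl | rfl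
      · exact absurd rfl hyp
      · exact absurd hpX nw'
      · exact hvh''
  obtain ⟨p, q, hpq, hp, hq, -⟩ := S.part X y hyX
  exact S.BNBR_sum hn hyX hp.2.1 hq.2.1 hp.2.2.1 hq.2.2.1 hpq hv (key p hp) (key q hq)

end Sys

end Pool.Agent.NNb
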