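import Pool.Agent.NNb.HRep

/-!
Module BASIC.  Elementary properties of convex polygons.

* convex, compact, closed: `convexHull` of a finite set (`Set.Finite.isCompact_convexHull`).
* `closure (interior S) = S`: `Convex.closure_interior_eq_closure_of_nonempty_interior`.
* finitely many extreme points: `extremePoints_convexHull_subset` (the extreme points of
  `convexHull ℝ V` are in `V`).
* `convexHull ℝ (ext S) = S`: Krein-Milman `closure_convexHull_extremePoints` and finiteness.
* image under an isometry `e` of `ℂ`: `e` is affine (Mazur-Ulam: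
  `IsometryEquiv.toRealAffineIsometryEquiv`), so it maps `convexHull ℝ V` to
  `convexHull ℝ (e '' V)`, and it is a homeomorphism; likewise for the extreme points.
-/

namespace Pool.Agent.NNb

open Set

variable {S : Set ℂ}

theorem IsPoly.convex (h : IsPoly S) : Convex ℝ S := by
  obtain ⟨⟨V, hV, rfl⟩, -⟩ := h
  exact convex_convexHull ℝ V

theorem IsPoly.isCompact (h : IsPoly S) : IsCompact S := by
  obtain ⟨⟨V, hV, rfl⟩, -⟩ := h
  exact hV.isCompact_convexHull (𝕜 := ℝ)

theorem IsPoly.isClosed (h : IsPoly S) : IsClosed S := h.isCompact.isClosed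

theorem IsPoly.nonempty (h : IsPoly S) : S.Nonempty := h.2.mono interior_subset

theorem IsPoly.closure_interior (h : IsPoly S) : closure (interior S) = S := by
  rw [Convex.closure_interior_eq_closure_of_nonempty_interior (𝕜 := ℝ) h.convex h.2,
    h.isClosed.closure_eq]

theorem IsPoly.ext_finite (h : IsPoly S) : (S.extremePoints ℝ).Finite := by
  obtain ⟨⟨V, hV, rfl⟩, -⟩ := h
  exact hV.subset extremePoints_convexHull_subset

theorem IsPoly.hull_ext (h : IsPoly S) : convexHull ℝ (S.extremePoints ℝ) = S := by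
  have h1 := closure_convexHull_extremePoints h.isCompact h.convex
  rwa [(h.ext_finite.isCompact_convexHull (𝕜 := ℝ)).isClosed.closure_eq] at h1

/-- an isometry of `ℂ` is affine -/
theorem BASIC_affine (e : ℂ ≃ᵢ ℂ) : ∃ f : ℂ →ᵃ[ℝ] ℂ, ∀ z, f z = e z := by
  refine ⟨(e.toRealAffineIsometryEquiv.toAffineEquiv : ℂ →ᵃ[ℝ] ℂ), fun z => ?_⟩
  exact congrFun e.coeFn_toRealAffineIsometryEquiv z

theorem BASIC_hull (e : ℂ ≃ᵢ ℂ) (V : Set ℂ) :
    e '' (convexHull ℝ V) = convexHull ℝ (e '' V) := by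
  obtain ⟨f, hf⟩ := BASIC_affine e
  have e1 : ∀ X : Set ℂ, e '' X = f '' X := by
    intro X
    exact image_congr fun z _ => (hf z).symm
  rw [e1, e1, f.image_convexHull]

theorem BASIC_openSegment (e : ℂ ≃ᵢ ℂ) (a b : ℂ) :
    e '' (openSegment ℝ a b) = openSegment ℝ (e a) (e b) := by
  obtain ⟨f, hf⟩ := BASIC_affine e
  rw [← hf a, ← hf b, ← image_openSegment]
  exact image_congr fun z _ => (hf z).symm

theorem BASIC_segment (e : ℂ ≃ᵢ ℂ) (a b : ℂ) :
    e '' (segment ℝ a b) = segment ℝ (e a) (e b) := by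
  obtain ⟨f, hf⟩ := BASIC_affine e
  rw [← hf a, ← hf b, ← image_segment]
  exact image_congr fun z _ => (hf z).symm

theorem BASIC_interior (e : ℂ ≃ᵢ ℂ) (S : Set ℂ) :
    interior (e '' S) = e '' (interior S) :=
  (e.toHomeomorph.image_interior S).symm

theorem IsPoly.image (h : IsPoly S) (e : ℂ ≃ᵢ ℂ) : IsPoly (e '' S) := by
  obtain ⟨⟨V, hV, hS⟩, h2⟩ := h
  refine ⟨⟨e '' V, hV.image _, ?_⟩, ?_⟩
  · rw [hS, BASIC_hull]
  · rw [BASIC_interior]
    exact h2.image _

theorem image_extremePoints (S : Set ℂ) (e : ℂ ≃ᵢ ℂ) :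
    (e '' S).extremePoints ℝ = e '' (S.extremePoints ℝ) := by
  have key : ∀ (X : Set ℂ) (g : ℂ ≃ᵢ ℂ), g '' (X.extremePoints ℝ) ⊆ (g '' X).extremePoints ℝ := by
    rintro X g _ ⟨x, hx, rfl⟩
    rw [mem_extremePoints_iff_left] at hx ⊢
    refine ⟨mem_image_of_mem _ hx.1, ?_⟩
    rintro _ ⟨a, ha, rfl⟩ _ ⟨b, hb, rfl⟩ hab
    rw [← BASIC_openSegment] at hab
    obtain ⟨y, hy, hyx⟩ := hab
    rw [g.injective hyx] at hy
    rw [hx.2 a ha b hb hy]
  apply Subset.antisymm
  · intro y hy
    have h1 := key (e '' S) e.symm (mem_image_of_mem _ hy)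
    have h2 : e.symm '' (e '' S) = S := by
      rw [← image_comp]
      have : (⇑e.symm ∘ ⇑e) = id := by
        ext z
        simp
      rw [this, image_id]
    rw [h2] at h1
    exact ⟨e.symm y, h1, by simp⟩
  · exact key S e

/-- an extreme point is not an interior point -/
theorem IsPoly.ext_frontier (h : IsPoly S) : S.extremePoints ℝ ⊆ frontier S := by
  intro x hx
  rw [mem_extremePoints_iff_left] at hx
  rw [frontier, h.isClosed.closure_eq]
  refine ⟨hx.1, fun hxi => ?_⟩
  obtain ⟨ε, hε, hb⟩ := Metric.isOpen_iff.1 isOpen_interior x hxi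
  have hm : ∀ t : ℝ, |t| < ε → x + (t : ℂ) ∈ S := by
    intro t ht
    apply interior_subset
    apply hb
    rw [Metric.mem_ball, dist_eq_norm, add_sub_cancel_left, Complex.norm_real, Real.norm_eq_abs]
    exact ht
  have h1 : x + ((ε / 2 : ℝ) : ℂ) ∈ S := hm _ (by rw [abs_of_pos (by linarith)]; linarith)
  have h2 : x + ((-(ε / 2) : ℝ) : ℂ) ∈ S :=
    hm _ (by rw [abs_neg, abs_of_pos (by linarith)]; linarith)
  have h3 : x ∈ openSegment ℝ (x + ((ε / 2 : ℝ) : ℂ)) (x + ((-(ε / 2) : ℝ) : ℂ)) := by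
    refine ⟨1 / 2, 1 / 2, by norm_num, by norm_num, by norm_num, ?_⟩
    simp only [Complex.real_smul]
    push_cast
    ring
  have h4 := hx.2 _ h1 _ h2 h3
  have h5 : ((ε / 2 : ℝ) : ℂ) = 0 := by
    have := congrArg (fun z => z - x) h4
    simpa using this
  have h6 : ε / 2 = 0 := by exact_mod_cast h5
  linarith

end Pool.Agent.NNb
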