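import Pool.Agent.NNb.Cyc
import Pool.Agent.NNb.Chk
import Pool.Agent.NNb.FPhi

/-!
Module BIG45.  Tiles with 4 or 5 nodes: from the cyclic order and the finite checks.

`cyc4`: `N i = {x1, x2, x3, x4}`; the partners of `x1` are `x4`, `x2` etc.; `sum_val` gives
`∑ val = n + 8`; `f i = 1 - ∑ (1/2 - 1/val)` (definition of `f`).  `U2` gives two nodes of valence `≥ 4`.
Cast `chk4` (for `E = 0`, `a = aq n`, `b = bq n`) resp. `chk4E` to `ℝ`.  The same for 5 nodes.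
-/

namespace Pool.Agent.NNb

namespace Sys

variable {ι ν : Type} {n : ℕ}

private theorem b45_ndq (n : ℕ) (E a b : ℚ) (s v y z : ℕ) :
    ((ndq n E a b s v y z : ℚ) : ℝ) =
      1 / (v : ℝ) - 1 / 2 + ((wq n E a b s v y z : ℚ) : ℝ) := by
  unfold ndq
  push_cast
  rfl

open Classical in
private theorem b45_u2 (S : Sys ι ν 3 n) (h2 : S.U2) (i : ι) :
    2 ≤ ∑ x ∈ S.N i, (if 4 ≤ S.val x then 1 else 0) := by
  obtain ⟨x, y, hx, hy, hxy, vx, vy⟩ := h2 i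
  have hsub : ({x, y} : Finset ν) ⊆ S.N i := by
    intro z hz
    rw [Finset.mem_insert, Finset.mem_singleton] at hz
    rcases hz with rfl | rfl
    · exact hx
    · exact hy
  calc 2 = ∑ z ∈ ({x, y} : Finset ν), (if 4 ≤ S.val z then 1 else 0) := by
        rw [Finset.sum_pair hxy, if_pos vx, if_pos vy]
    _ ≤ _ := Finset.sum_le_sum_of_subset hsub

private theorem b45_4 (S : Sys ι ν 3 n) (h2 : S.U2) {i : ι} {E a b : ℚ}
    (h4 : (S.N i).card = 4) (ψ : ν → ℝ)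
    (hψ : ∀ x y z, x ∈ S.N i → y ≠ z → Part S.N i x y → Part S.N i x z →
      ψ x ≤ ((wq n E a b (S.N i).card (S.val x) (S.val y) (S.val z) : ℚ) : ℝ))
    (hC : ∀ v1 v2 v3 v4 : ℕ, 3 ≤ v1 → 3 ≤ v2 → 3 ≤ v3 → 3 ≤ v4 → v1 + v2 + v3 + v4 = n + 8 →
      2 ≤ (if 4 ≤ v1 then 1 else 0) + (if 4 ≤ v2 then 1 else 0) + (if 4 ≤ v3 then 1 else 0) +
      (if 4 ≤ v4 then 1 else 0) →
      1 + ndq n E a b 4 v1 v4 v2 + ndq n E a b 4 v2 v1 v3 + ndq n E a b 4 v3 v2 v4 +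
        ndq n E a b 4 v4 v3 v1 ≤ -epsq) :
    S.f i + ∑ x ∈ S.N i, ψ x ≤ -((epsq : ℚ) : ℝ) := by
  classical
  obtain ⟨x1, x2, x3, x4, n12, n13, n14, n23, n24, n34, hN, p12, p23, p34, p41⟩ := S.cyc4 h4
  have hNe : S.N i = {x1, x2, x3, x4} := by
    ext x
    rw [hN]
    simp only [Finset.mem_insert, Finset.mem_singleton]
  have hsum : ∀ {M : Type} [AddCommMonoid M] (g : ν → M),
      ∑ x ∈ S.N i, g x = g x1 + (g x2 + (g x3 + g x4)) := by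
    intro M _ g
    rw [hNe, Finset.sum_insert (by simp [n12, n13, n14]), Finset.sum_insert (by simp [n23, n24]),
      Finset.sum_pair n34]
  have m1 := (hN x1).2 (Or.inl rfl)
  have m2 := (hN x2).2 (Or.inr (Or.inl rfl))
  have m3 := (hN x3).2 (Or.inr (Or.inr (Or.inl rfl)))
  have m4 := (hN x4).2 (Or.inr (Or.inr (Or.inr rfl)))
  have v1 := S.val_ge m1
  have v2 := S.val_ge m2
  have v3 := S.val_ge m3
  have v4 := S.val_ge m4
  have hv := S.sum_val i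
  rw [hsum] at hv
  have hu := b45_u2 S h2 i
  rw [hsum] at hu
  rw [h4] at hψ
  have c := hC (S.val x1) (S.val x2) (S.val x3) (S.val x4) v1 v2 v3 v4 (by omega) (by omega)
  have c' : ((1 + ndq n E a b 4 (S.val x1) (S.val x4) (S.val x2) +
      ndq n E a b 4 (S.val x2) (S.val x1) (S.val x3) +
      ndq n E a b 4 (S.val x3) (S.val x2) (S.val x4) +
      ndq n E a b 4 (S.val x4) (S.val x3) (S.val x1) : ℚ) : ℝ) ≤ ((-epsq : ℚ) : ℝ) :=
    Rat.cast_le.2 c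
  rw [Rat.cast_add, Rat.cast_add, Rat.cast_add, Rat.cast_add, Rat.cast_one, Rat.cast_neg,
    b45_ndq, b45_ndq, b45_ndq, b45_ndq] at c'
  have q1 := hψ x1 x4 x2 m1 n24.symm (S.part_symm p41) p12
  have q2 := hψ x2 x1 x3 m2 n13 (S.part_symm p12) p23
  have q3 := hψ x3 x2 x4 m3 n24 (S.part_symm p23) p34
  have q4 := hψ x4 x3 x1 m4 n13.symm (S.part_symm p34) p41
  unfold f
  rw [hsum, hsum]
  linarith

private theorem b45_5 (S : Sys ι ν 3 n) (h2 : S.U2) {i : ι} {E a b : ℚ}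
    (h5 : (S.N i).card = 5) (ψ : ν → ℝ)
    (hψ : ∀ x y z, x ∈ S.N i → y ≠ z → Part S.N i x y → Part S.N i x z →
      ψ x ≤ ((wq n E a b (S.N i).card (S.val x) (S.val y) (S.val z) : ℚ) : ℝ))
    (hC : ∀ v1 v2 v3 v4 v5 : ℕ, 3 ≤ v1 → 3 ≤ v2 → 3 ≤ v3 → 3 ≤ v4 → 3 ≤ v5 →
      v1 + v2 + v3 + v4 + v5 = n + 10 →
      2 ≤ (if 4 ≤ v1 then 1 else 0) + (if 4 ≤ v2 then 1 else 0) + (if 4 ≤ v3 then 1 else 0) +
      (if 4 ≤ v4 then 1 else 0) + (if 4 ≤ v5 then 1 else 0) →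
      1 + ndq n E a b 5 v1 v5 v2 + ndq n E a b 5 v2 v1 v3 + ndq n E a b 5 v3 v2 v4 +
        ndq n E a b 5 v4 v3 v5 + ndq n E a b 5 v5 v4 v1 ≤ -epsq) :
    S.f i + ∑ x ∈ S.N i, ψ x ≤ -((epsq : ℚ) : ℝ) := by
  classical
  obtain ⟨x1, x2, x3, x4, x5, n12, n13, n14, n15, n23, n24, n25, n34, n35, n45, hN, p12, p23,
    p34, p45, p51⟩ := S.cyc5 h5
  have hNe : S.N i = {x1, x2, x3, x4, x5} := by
    ext x
    rw [hN]
    simp only [Finset.mem_insert, Finset.mem_singleton]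
  have hsum : ∀ {M : Type} [AddCommMonoid M] (g : ν → M),
      ∑ x ∈ S.N i, g x = g x1 + (g x2 + (g x3 + (g x4 + g x5))) := by
    intro M _ g
    rw [hNe, Finset.sum_insert (by simp [n12, n13, n14, n15]),
      Finset.sum_insert (by simp [n23, n24, n25]), Finset.sum_insert (by simp [n34, n35]),
      Finset.sum_pair n45]
  have m1 := (hN x1).2 (Or.inl rfl)
  have m2 := (hN x2).2 (Or.inr (Or.inl rfl))
  have m3 := (hN x3).2 (Or.inr (Or.inr (Or.inl rfl)))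
  have m4 := (hN x4).2 (Or.inr (Or.inr (Or.inr (Or.inl rfl))))
  have m5 := (hN x5).2 (Or.inr (Or.inr (Or.inr (Or.inr rfl))))
  have v1 := S.val_ge m1
  have v2 := S.val_ge m2
  have v3 := S.val_ge m3
  have v4 := S.val_ge m4
  have v5 := S.val_ge m5
  have hv := S.sum_val i
  rw [hsum] at hv
  have hu := b45_u2 S h2 i
  rw [hsum] at hu
  rw [h5] at hψ
  have c := hC (S.val x1) (S.val x2) (S.val x3) (S.val x4) (S.val x5) v1 v2 v3 v4 v5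
    (by omega) (by omega)
  have c' : ((1 + ndq n E a b 5 (S.val x1) (S.val x5) (S.val x2) +
      ndq n E a b 5 (S.val x2) (S.val x1) (S.val x3) +
      ndq n E a b 5 (S.val x3) (S.val x2) (S.val x4) +
      ndq n E a b 5 (S.val x4) (S.val x3) (S.val x5) +
      ndq n E a b 5 (S.val x5) (S.val x4) (S.val x1) : ℚ) : ℝ) ≤ ((-epsq : ℚ) : ℝ) :=
    Rat.cast_le.2 c
  rw [Rat.cast_add, Rat.cast_add, Rat.cast_add, Rat.cast_add, Rat.cast_add, Rat.cast_one,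
    Rat.cast_neg, b45_ndq, b45_ndq, b45_ndq, b45_ndq, b45_ndq] at c'
  have q1 := hψ x1 x5 x2 m1 n25.symm (S.part_symm p51) p12
  have q2 := hψ x2 x1 x3 m2 n13 (S.part_symm p12) p23
  have q3 := hψ x3 x2 x4 m3 n24 (S.part_symm p23) p34
  have q4 := hψ x4 x3 x5 m4 n35 (S.part_symm p34) p45
  have q5 := hψ x5 x4 x1 m5 n14.symm (S.part_symm p45) p51
  unfold f
  rw [hsum, hsum]
  linarith

theorem big45 (S : Sys ι ν 3 n) (hn : 17 ≤ n) (hn' : n ≤ 20) (h2 : S.U2) {i : ι}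
    (h4 : 4 ≤ (S.N i).card) (h5 : (S.N i).card ≤ 5) (ψ : ν → ℝ)
    (hψ : ∀ x y z, x ∈ S.N i → y ≠ z → Part S.N i x y → Part S.N i x z →
      ψ x ≤ ((wq n 0 (aq n) (bq n) (S.N i).card (S.val x) (S.val y) (S.val z) : ℚ) : ℝ)) :
    S.f i + ∑ x ∈ S.N i, ψ x ≤ -((epsq : ℚ) : ℝ) := by
  rcases (by omega : (S.N i).card = 4 ∨ (S.N i).card = 5) with hc | hc
  · exact b45_4 S h2 hc ψ hψ fun v1 v2 v3 v4 => chk4 n v1 v2 v3 v4 hn hn'
  · exact b45_5 S h2 hc ψ hψ fun v1 v2 v3 v4 v5 => chk5 n v1 v2 v3 v4 v5 hn hn'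

theorem big45E (S : Sys ι ν 3 n) (hn : n = 18) (h2 : S.U2) {i : ι}
    (h4 : 4 ≤ (S.N i).card) (h5 : (S.N i).card ≤ 5) (ψ : ν → ℝ)
    (hψ : ∀ x y z, x ∈ S.N i → y ≠ z → Part S.N i x y → Part S.N i x z →
      ψ x ≤ ((wq n eq18 0 0 (S.N i).card (S.val x) (S.val y) (S.val z) : ℚ) : ℝ)) :
    S.f i + ∑ x ∈ S.N i, ψ x ≤ -((epsq : ℚ) : ℝ) := by
  subst hn
  rcases (by omega : (S.N i).card = 4 ∨ (S.N i).card = 5) with hc | hc
  · exact b45_4 S h2 hc ψ hψ chk4E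
  · exact b45_5 S h2 hc ψ hψ chk5E

end Sys

end Pool.Agent.NNb
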