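import Pool.Agent.NNb.SumVal
import Pool.Agent.NNb.FPhi
import Pool.Agent.NNb.UDefs

/-!
Module BIG6.  Tiles with at least 6 nodes (`E = 0`).

Let `d v = dbq n 0 v` (`= e3q n v + epsq` for `6 ≤ v ≤ n - 3`, else `0`); `0 ≤ d v ≤ 1/(n-3) + epsq`
(`e3q n v = (n+3)/(v (n+3-v)) - 1/6` and `v (n+3-v) ≥ 6 (n-3)` for `6 ≤ v ≤ n-3`; `e3q ≥ 4/(n+3) - 1/6 > 0` for
`n ≤ 20`).
(1) `c3q n 0 s y z ≤ d y + d z` (`m1q n 0 s y z = shq n 0 y ≤ d y`, or `0`; `m2q = 2 d y` if `y = z`).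
(2) Sum over the 3-valent nodes `g` of `i` with partners `y`, `z`: every ordered partner pair `(g, y)` with
`val g = 3` contributes `d (val y)`, and each `y` is in at most two such pairs (its two partners), so
`∑_{g : val g = 3} ψ g ≤ ∑_{y} 2 d (val y)` (use `VAL_Pr`, or `Finset.sum_comm` over the pairs `Part`).
(3) So with `c v = phi (v-2) - (charge attributed to v)`:
`f + ∑ ψ ≤ 1 - ∑_x c (val x)` where `c 3 = 1/6`, `c 4 = 1/4 - aq n`, `c 5 = 3/10 - 4 bq n`,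
`c v = phi (v - 2) - 2 d v` for `v ≥ 6`.  For `17 ≤ n ≤ 20`: `c 4 ≥ 1833/10000 - 1/100000`,
`c 5 ≥ 214/1000`, `c v ≥ 1/3 - 2 (1/14 + epsq) ≥ 19/100` for `6 ≤ v`, (`phi (v - 2) ≥ 1/3`).
(4) `|N i| = s ≥ 6`, all valences `≥ 3`, at least two are `≥ 4` (`U2`):
`f + ∑ ψ ≤ 1 - (s - 2)/6 - 2 · 0.183 ≤ 1 - 4/6 - 0.366 < -1/100`.
-/

namespace Pool.Agent.NNb

theorem BIG6_e3q {n z : ℕ} (hn : 17 ≤ n) (hn' : n ≤ 20) (h6 : 6 ≤ z) (hz : z + 3 ≤ n) :
    0 ≤ e3q n z ∧ e3q n z + epsq ≤ 1 / 14 + 1 / 100000 := by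
  have hz' : z ≤ 17 := by omega
  unfold e3q epsq
  interval_cases z <;> interval_cases n <;> first | omega | norm_num

theorem BIG6_d {n : ℕ} (hn : 17 ≤ n) (hn' : n ≤ 20) (v : ℕ) :
    0 ≤ dbq n 0 v ∧ dbq n 0 v ≤ 1 / 14 + 1 / 100000 := by
  unfold dbq
  split_ifs with h1 h2
  · norm_num
  · have h := BIG6_e3q hn hn' h2.1 h2.2
    refine ⟨?_, h.2⟩
    have h3 : (0 : ℚ) ≤ epsq := by unfold epsq; norm_num
    linarith [h.1]
  · norm_num

theorem BIG6_sh {n : ℕ} (hn : 17 ≤ n) (hn' : n ≤ 20) (v : ℕ) : shq n 0 v ≤ dbq n 0 v := by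
  unfold shq dbq
  split_ifs with h1 h2 h3 h4
  · exact le_rfl
  · have h := BIG6_e3q hn hn' h2.1 h2.2
    linarith [h.1]
  · have h := BIG6_e3q hn hn' h2.1 h2.2
    linarith [h.1]
  · have h := BIG6_e3q hn hn' h2.1 h2.2
    linarith [h.1]
  · exact le_rfl

theorem BIG6_m1 {n : ℕ} (hn : 17 ≤ n) (hn' : n ≤ 20) (s y z : ℕ) :
    m1q n 0 s y z ≤ dbq n 0 y + dbq n 0 z := by
  have h1 := (BIG6_d hn hn' y).1
  have h2 := (BIG6_d hn hn' z).1
  have h3 := BIG6_sh hn hn' y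
  unfold m1q
  split_ifs <;> linarith

theorem BIG6_c3 {n : ℕ} (hn : 17 ≤ n) (hn' : n ≤ 20) (s y z : ℕ) :
    c3q n 0 s y z ≤ dbq n 0 y + dbq n 0 z := by
  unfold c3q
  refine max_le (max_le (BIG6_m1 hn hn' s y z) ?_) ?_
  · rw [add_comm]
    exact BIG6_m1 hn hn' s z y
  · have h1 := (BIG6_d hn hn' y).1
    have h2 := (BIG6_d hn hn' z).1
    unfold m2q
    split_ifs with h h' h''
    · linarith
    · linarith
    · rw [← h]; linarith
    · linarith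

theorem BIG6_a {n : ℕ} (hn : 17 ≤ n) (hn' : n ≤ 20) : 0 ≤ aq n ∧ aq n ≤ 1 / 15 + 1 / 100000 := by
  unfold aq epsq
  interval_cases n <;> norm_num

theorem BIG6_b {n : ℕ} (hn : 17 ≤ n) (hn' : n ≤ 20) :
    0 ≤ bq n ∧ bq n ≤ 1 / 14 - 1 / 20 + 1 / 100000 := by
  unfold bq epsq
  interval_cases n <;> norm_num

/-- charge attributed to a node of valence `4` or `5` -/
def BIG6_base (n v : ℕ) : ℚ := if v = 4 then aq n else if v = 5 then 4 * bq n else 0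

theorem BIG6_w {n : ℕ} (hn : 17 ≤ n) (hn' : n ≤ 20) (s v y z : ℕ) :
    wq n 0 (aq n) (bq n) s v y z ≤ BIG6_base n v + (dbq n 0 y + dbq n 0 z) := by
  have h1 := (BIG6_d hn hn' y).1
  have h2 := (BIG6_d hn hn' z).1
  have ha := (BIG6_a hn hn').1
  have hb := (BIG6_b hn hn').1
  unfold wq BIG6_base
  by_cases k3 : v = 3
  · subst k3
    have := BIG6_c3 hn hn' s y z
    norm_num
    exact this
  · by_cases k4 : v = 4
    · subst k4
      norm_num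
      split_ifs <;> linarith
    · by_cases k5 : v = 5
      · subst k5
        norm_num
        split_ifs <;> first | omega | linarith
      · simp only [if_neg k3, if_neg k4, if_neg k5]
        linarith

/-- the cost of a node -/
def BIG6_c (n v : ℕ) : ℚ := 1 / 2 - 1 / (v : ℚ) - BIG6_base n v - 2 * dbq n 0 v

theorem BIG6_c4 {n v : ℕ} (hn : 17 ≤ n) (hn' : n ≤ 20) (hv : 4 ≤ v) :
    183 / 1000 ≤ BIG6_c n v := by
  have ha := (BIG6_a hn hn').2
  have hb := (BIG6_b hn hn').2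
  unfold BIG6_c BIG6_base
  by_cases k4 : v = 4
  · subst k4
    have hd : dbq n 0 4 = 0 := by unfold dbq; norm_num
    rw [hd, if_pos rfl]
    norm_num at ha ⊢
    linarith
  · by_cases k5 : v = 5
    · subst k5
      have hd : dbq n 0 5 = 0 := by unfold dbq; norm_num
      rw [hd, if_neg (by norm_num), if_pos rfl]
      norm_num at hb ⊢
      linarith
    · rw [if_neg k4, if_neg k5]
      have h6 : (6 : ℚ) ≤ v := by
        have : 6 ≤ v := by omega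
        exact_mod_cast this
      have h7 : 1 / (v : ℚ) ≤ 1 / 6 := one_div_le_one_div_of_le (by norm_num) h6
      have h8 := (BIG6_d hn hn' v).2
      linarith

theorem BIG6_c3' {n v : ℕ} (hn : 17 ≤ n) (hn' : n ≤ 20) (hv : 3 ≤ v) :
    1 / 6 ≤ BIG6_c n v := by
  by_cases k : v = 3
  · subst k
    unfold BIG6_c BIG6_base dbq
    norm_num
  · have := BIG6_c4 hn hn' (v := v) (by omega)
    linarith

namespace Sys

variable {ι ν : Type} {n : ℕ}

/-- sum over the ordered partner pairs, second component -/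
theorem BIG6_pairs (S : Sys ι ν 3 n) (i : ι) (F : ν → ℝ) (P : ν → ν × ν)
    (hP : ∀ x ∈ S.N i, (P x).1 ≠ (P x).2 ∧ Part S.N i x (P x).1 ∧ Part S.N i x (P x).2 ∧
      ∀ w, Part S.N i x w → w = (P x).1 ∨ w = (P x).2) :
    ∑ x ∈ S.N i, (F (P x).1 + F (P x).2) = 2 * ∑ x ∈ S.N i, F x := by
  classical
  have h1 : ∀ x ∈ S.N i, ∀ G : ν × ν → ℝ, ∑ p ∈ (S.VAL_Pr i).filter (fun p => p.1 = x), G p =
      G (x, (P x).1) + G (x, (P x).2) := by
    intro x hx G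
    obtain ⟨hyz, hy, hz, hw⟩ := hP x hx
    have e : (S.VAL_Pr i).filter (fun p => p.1 = x) = {(x, (P x).1), (x, (P x).2)} := by
      ext ⟨a, b⟩
      simp only [Finset.mem_filter, VAL_mem_Pr, Finset.mem_insert, Finset.mem_singleton,
        Prod.mk.injEq]
      constructor
      · rintro ⟨h1, rfl⟩
        rcases hw b h1 with h | h
        · exact Or.inl ⟨rfl, h⟩
        · exact Or.inr ⟨rfl, h⟩
      · rintro (⟨rfl, rfl⟩ | ⟨rfl, rfl⟩)
        · exact ⟨hy, rfl⟩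
        · exact ⟨hz, rfl⟩
    rw [e, Finset.sum_pair]
    intro h
    exact hyz (Prod.mk.inj h).2
  have h2 : ∀ G : ν × ν → ℝ, ∑ p ∈ S.VAL_Pr i, G p =
      ∑ x ∈ S.N i, (G (x, (P x).1) + G (x, (P x).2)) := by
    intro G
    rw [← Finset.sum_fiberwise_of_maps_to (g := Prod.fst) (t := S.N i)
      (fun p hp => ((S.VAL_mem_Pr i p).1 hp).1)]
    exact Finset.sum_congr rfl fun x hx => h1 x hx G
  have h3 : ∑ p ∈ S.VAL_Pr i, F p.2 = ∑ p ∈ S.VAL_Pr i, F p.1 := by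
    refine Finset.sum_nbij' (fun p => (p.2, p.1)) (fun p => (p.2, p.1)) ?_ ?_ ?_ ?_ ?_
    · intro p hp
      rw [VAL_mem_Pr] at hp ⊢
      exact S.part_symm hp
    · intro p hp
      rw [VAL_mem_Pr] at hp ⊢
      exact S.part_symm hp
    · intro p _
      rfl
    · intro p _
      rfl
    · intro p _
      rfl
  rw [h2 (fun p => F p.2), h2 (fun p => F p.1)] at h3
  rw [h3, Finset.mul_sum]
  refine Finset.sum_congr rfl fun x _ => ?_
  ring

theorem big6 (S : Sys ι ν 3 n) (hn : 17 ≤ n) (hn' : n ≤ 20) (h2 : S.U2) {i : ι}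
    (h6 : 6 ≤ (S.N i).card) (ψ : ν → ℝ)
    (hψ : ∀ x y z, x ∈ S.N i → y ≠ z → Part S.N i x y → Part S.N i x z →
      ψ x ≤ ((wq n 0 (aq n) (bq n) (S.N i).card (S.val x) (S.val y) (S.val z) : ℚ) : ℝ)) :
    S.f i + ∑ x ∈ S.N i, ψ x ≤ -((epsq : ℚ) : ℝ) := by
  classical
  have hex : ∀ x : ν, ∃ P : ν × ν, x ∈ S.N i → (P.1 ≠ P.2 ∧ Part S.N i x P.1 ∧ Part S.N i x P.2 ∧
      ∀ w, Part S.N i x w → w = P.1 ∨ w = P.2) := by
    intro x
    by_cases hx : x ∈ S.N i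
    · obtain ⟨y, z, h⟩ := S.part i x hx
      exact ⟨(y, z), fun _ => h⟩
    · exact ⟨(x, x), fun h => absurd h hx⟩
  choose P hP using hex
  have h1 : ∑ x ∈ S.N i, ψ x ≤ ∑ x ∈ S.N i, (((BIG6_base n (S.val x) : ℚ) : ℝ) +
      (((dbq n 0 (S.val (P x).1) : ℚ) : ℝ) + ((dbq n 0 (S.val (P x).2) : ℚ) : ℝ))) := by
    refine Finset.sum_le_sum fun x hx => ?_
    obtain ⟨k1, k2, k3, -⟩ := hP x hx
    refine (hψ x _ _ hx k1 k2 k3).trans ?_
    exact_mod_cast BIG6_w hn hn' (S.N i).card (S.val x) (S.val (P x).1) (S.val (P x).2)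
  rw [Finset.sum_add_distrib,
    S.BIG6_pairs i (fun x => ((dbq n 0 (S.val x) : ℚ) : ℝ)) P hP] at h1
  have h3 : S.f i + ∑ x ∈ S.N i, ψ x ≤ 1 - ∑ x ∈ S.N i, ((BIG6_c n (S.val x) : ℚ) : ℝ) := by
    have h4 : ∑ x ∈ S.N i, ((BIG6_c n (S.val x) : ℚ) : ℝ) = ∑ x ∈ S.N i, (1 / 2 - 1 / (S.val x : ℝ)) -
        ∑ x ∈ S.N i, ((BIG6_base n (S.val x) : ℚ) : ℝ) -
        2 * ∑ x ∈ S.N i, ((dbq n 0 (S.val x) : ℚ) : ℝ) := by
      rw [Finset.mul_sum, ← Finset.sum_sub_distrib, ← Finset.sum_sub_distrib]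
      refine Finset.sum_congr rfl fun x _ => ?_
      unfold BIG6_c
      push_cast
      ring
    rw [h4]
    unfold Sys.f
    linarith
  obtain ⟨u, w, hu, hw, huw, hu4, hw4⟩ := h2 i
  have hsub : ({u, w} : Finset ν) ⊆ S.N i := by
    intro x hx
    simp only [Finset.mem_insert, Finset.mem_singleton] at hx
    rcases hx with rfl | rfl <;> assumption
  have h5 : (2 * (183 / 1000) + 4 * (1 / 6) : ℝ) ≤ ∑ x ∈ S.N i, ((BIG6_c n (S.val x) : ℚ) : ℝ) := by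
    rw [← Finset.sum_sdiff hsub, Finset.sum_pair huw]
    have e1 : (183 / 1000 : ℝ) ≤ ((BIG6_c n (S.val u) : ℚ) : ℝ) := by
      have := BIG6_c4 hn hn' hu4
      have h9 : ((183 / 1000 : ℚ) : ℝ) ≤ ((BIG6_c n (S.val u) : ℚ) : ℝ) := by exact_mod_cast this
      push_cast at h9
      exact h9
    have e2 : (183 / 1000 : ℝ) ≤ ((BIG6_c n (S.val w) : ℚ) : ℝ) := by
      have := BIG6_c4 hn hn' hw4
      have h9 : ((183 / 1000 : ℚ) : ℝ) ≤ ((BIG6_c n (S.val w) : ℚ) : ℝ) := by exact_mod_cast this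
      push_cast at h9
      exact h9
    have e3 : ((S.N i \ {u, w}).card : ℝ) * (1 / 6) ≤
        ∑ x ∈ S.N i \ {u, w}, ((BIG6_c n (S.val x) : ℚ) : ℝ) := by
      rw [← nsmul_eq_mul, ← Finset.sum_const]
      refine Finset.sum_le_sum fun x hx => ?_
      have hx' := (Finset.mem_sdiff.1 hx).1
      have := BIG6_c3' hn hn' (S.val_ge hx')
      have h9 : ((1 / 6 : ℚ) : ℝ) ≤ ((BIG6_c n (S.val x) : ℚ) : ℝ) := by exact_mod_cast this
      push_cast at h9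
      exact h9
    have e4 : (4 : ℝ) ≤ ((S.N i \ {u, w}).card : ℝ) := by
      have h7 : (S.N i \ {u, w}).card = (S.N i).card - 2 := by
        rw [Finset.card_sdiff_of_subset hsub, Finset.card_pair huw]
      have h8 : 4 ≤ (S.N i \ {u, w}).card := by omega
      exact_mod_cast h8
    linarith
  have h7 : ((epsq : ℚ) : ℝ) = 1 / 100000 := by
    unfold epsq
    norm_num
  rw [h7]
  linarith

end Sys

end Pool.Agent.NNb
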