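import Pool.Agent.NNb.SumVal
import Pool.Agent.NNb.FPhi
import Pool.Agent.NNb.UDefs

/-!
Module BIG6E.  Tiles with at least 6 nodes (`n = 18`, with the charge `E = eq18 = 0.09584...`).

Let `d v = dbq 18 E v`: `d 5 = E`, `d v = e3q 18 v + epsq` for `6 ≤ v ≤ 15`, `0` otherwise;
`e3q 18 6 = e3q 18 15 = 1/15`, `e3q 18 7 = 1/21`, `e3q 18 8 = 1/8 + 1/13 - 1/6`: in general
`e3q 18 v = 21/(v (21 - v)) - 1/6 ≤ 1/15`, and `e3q 18 11 = 1/10 + 1/11 - 1/6`.
`c3q 18 E s y z ≤ d y + d z`, and `c3q 18 E s y z ≤ 2 E`.  Here `wq 18 E 0 0 s v y z = 0` for `v ≠ 3`.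
Let `t` = number of 3-valent nodes, `q` = number of 5-valent nodes, `r` = number of the other nodes
(valence 4 or `≥ 6`), `s = t + q + r ≥ 6`, `q + r ≥ 2` (`U2`), and `∑ k = 18` (`k = val - 2`), i.e.
`t + 3 q + ∑_R k = 18`.  Two bounds:
(I) `∑ ψ ≤ 2 E t`, so `f + ∑ ψ ≤ 1 - t/6 - 3q/10 - r/4 + 2 E t`  (`2 E - 1/6 ≤ 0.0251`).
(II) `∑ ψ ≤ ∑_{y} 2 d (val y)` (each node `y` is a partner of at most two 3-valent nodes), so
`f + ∑ ψ ≤ 1 - t/6 - 0.1083 q - ∑_R g(v)` with `g v = phi (v - 2) - 2 d v`.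
Case `t < q`: (I), linear.  Case `t ≥ q`: (II) and the line `g v ≥ 0.1555 + 0.0111 (v - 2)`:
`f + ∑ ψ ≤ 0.8 - 0.1555 (t + r) - 0.0749 q`; the remaining cases are `q = 2`, `t + r = 4` and
`t = q = 3`, `r = 0`: `r = 0` is impossible (`∑ k = 18`), `(3, 2, 1)`: `k = 9`; `(2, 2, 2)`: finite check.
-/

namespace Pool.Agent.NNb

open Finset

/-- cost of a node with `k = val - 2` -/
def BIG6E_c (k : ℕ) : ℚ := (k : ℚ) / (2 * ((k : ℚ) + 2)) - 2 * dbq 18 eq18 (k + 2)

theorem BIG6E_line : ∀ k : ℕ, k < 19 → (k = 2 ∨ 4 ≤ k) →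
    (1555 / 10000 : ℚ) + 111 / 10000 * (k : ℚ) ≤ BIG6E_c k := by
  decide +kernel

theorem BIG6E_c1 : (1666 / 10000 : ℚ) ≤ BIG6E_c 1 := by decide +kernel
theorem BIG6E_c3 : (1083 / 10000 : ℚ) ≤ BIG6E_c 3 := by decide +kernel
theorem BIG6E_c9 : (36 / 100 : ℚ) ≤ BIG6E_c 9 := by decide +kernel

theorem BIG6E_two : ∀ k : ℕ, k < 19 → ∀ l : ℕ, l < 19 → (k = 2 ∨ 4 ≤ k) → (l = 2 ∨ 4 ≤ l) → k + l = 10 →
    (49 / 100 : ℚ) ≤ BIG6E_c k + BIG6E_c l := by
  decide +kernel

theorem BIG6E_d_nonneg : ∀ v : ℕ, v < 22 → 0 ≤ dbq 18 eq18 v := by decide +kernel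

theorem BIG6E_c3q : ∀ y : ℕ, y < 22 → ∀ z : ℕ, z < 22 → c3q 18 eq18 6 y z ≤ dbq 18 eq18 y + dbq 18 eq18 z ∧
    c3q 18 eq18 6 y z ≤ 2 * eq18 := by
  decide +kernel

theorem BIG6E_s {s : ℕ} (hs : 5 ≤ s) (y z : ℕ) : c3q 18 eq18 s y z = c3q 18 eq18 6 y z := by
  unfold c3q m1q m2q
  have h6 : (5 : ℕ) ≤ 6 := by norm_num
  simp only [hs, h6]

theorem BIG6E_wq {s v : ℕ} (hv : v ≠ 3) (y z : ℕ) : wq 18 eq18 0 0 s v y z = 0 := by
  unfold wq
  rw [if_neg hv]
  split_ifs <;> simp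

theorem BIG6E_wq3 {s v : ℕ} (hv : v = 3) (y z : ℕ) :
    wq 18 eq18 0 0 s v y z = c3q 18 eq18 s y z := by
  unfold wq
  rw [if_pos hv]

namespace Sys

variable {ι ν : Type} {n : ℕ}

open Classical in
/-- sum over the partners of the partners -/
theorem BIG6E_pairs {m : ℕ} (S : Sys ι ν m n) (i : ι) (F G : ν → ℝ) (hF : ∀ x ∈ S.N i, 0 ≤ F x)
    (hG : ∀ x y z, x ∈ S.N i → y ≠ z → Part S.N i x y → Part S.N i x z → G x ≤ F y + F z) :
    ∑ x ∈ S.N i, G x ≤ ∑ y ∈ S.N i, 2 * F y := by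
  have h1 : ∑ x ∈ S.N i, G x ≤ ∑ x ∈ S.N i, ∑ p ∈ (S.VAL_Pr i).filter (fun p => p.1 = x), F p.2 := by
    refine Finset.sum_le_sum fun x hx => ?_
    obtain ⟨y, z, hyz, hy, hz, hw⟩ := S.part i x hx
    have e : (S.VAL_Pr i).filter (fun p => p.1 = x) = {(x, y), (x, z)} := by
      ext ⟨a, b⟩
      simp only [Finset.mem_filter, VAL_mem_Pr, Finset.mem_insert, Finset.mem_singleton,
        Prod.mk.injEq]
      constructor
      · rintro ⟨h1, rfl⟩
        rcases hw b h1 with h | h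
        · exact Or.inl ⟨rfl, h⟩
        · exact Or.inr ⟨rfl, h⟩
      · rintro (⟨rfl, rfl⟩ | ⟨rfl, rfl⟩)
        · exact ⟨hy, rfl⟩
        · exact ⟨hz, rfl⟩
    rw [e, Finset.sum_pair]
    · exact hG x y z hx hyz hy hz
    · intro h
      exact hyz (Prod.mk.inj h).2
  have h2 : ∑ x ∈ S.N i, ∑ p ∈ (S.VAL_Pr i).filter (fun p => p.1 = x), F p.2 =
      ∑ p ∈ S.VAL_Pr i, F p.2 :=
    Finset.sum_fiberwise_of_maps_to (fun p hp => ((S.VAL_mem_Pr i p).1 hp).1) _
  have h3 : ∑ y ∈ S.N i, ∑ p ∈ (S.VAL_Pr i).filter (fun p => p.2 = y), F p.2 =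
      ∑ p ∈ S.VAL_Pr i, F p.2 :=
    Finset.sum_fiberwise_of_maps_to (fun p hp => ((S.VAL_mem_Pr i p).1 hp).2.1) _
  have h4 : ∀ y ∈ S.N i, ∑ p ∈ (S.VAL_Pr i).filter (fun p => p.2 = y), F p.2 = 2 * F y := by
    intro x hx
    obtain ⟨y, z, hyz, hy, hz, hw⟩ := S.part i x hx
    have e : (S.VAL_Pr i).filter (fun p => p.2 = x) = {(y, x), (z, x)} := by
      ext ⟨a, b⟩
      simp only [Finset.mem_filter, VAL_mem_Pr, Finset.mem_insert, Finset.mem_singleton,
        Prod.mk.injEq]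
      constructor
      · rintro ⟨h1, rfl⟩
        rcases hw a (S.part_symm h1) with h | h
        · exact Or.inl ⟨h, rfl⟩
        · exact Or.inr ⟨h, rfl⟩
      · rintro (⟨rfl, rfl⟩ | ⟨rfl, rfl⟩)
        · exact ⟨S.part_symm hy, rfl⟩
        · exact ⟨S.part_symm hz, rfl⟩
    rw [e, Finset.sum_pair]
    · ring
    · intro h
      exact hyz (Prod.mk.inj h).1
  rw [h2, ← h3, Finset.sum_congr rfl h4] at h1
  exact h1

theorem big6E (S : Sys ι ν 3 n) (hn : n = 18) (h2 : S.U2) {i : ι}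
    (h6 : 6 ≤ (S.N i).card) (ψ : ν → ℝ)
    (hψ : ∀ x y z, x ∈ S.N i → y ≠ z → Part S.N i x y → Part S.N i x z →
      ψ x ≤ ((wq n eq18 0 0 (S.N i).card (S.val x) (S.val y) (S.val z) : ℚ) : ℝ)) :
    S.f i + ∑ x ∈ S.N i, ψ x ≤ -((epsq : ℚ) : ℝ) := by
  classical
  subst hn
  have hE : (eq18 : ℚ) = 1 / 5 + 1 / 16 - 1 / 6 + 1 / 100000 := rfl
  have heps : ((epsq : ℚ) : ℝ) = 1 / 100000 := by unfold epsq; norm_num
  have hv3 : ∀ x ∈ S.N i, 3 ≤ S.val x := fun x hx => S.val_ge hx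
  have hv20 : ∀ x ∈ S.N i, S.val x ≤ 20 := by
    intro x hx
    have h : S.val x - 2 ≤ ∑ x ∈ S.N i, (S.val x - 2) :=
      Finset.single_le_sum (f := fun x => S.val x - 2) (fun _ _ => Nat.zero_le _) hx
    have h' := S.sum_val i
    omega
  -- the three classes of nodes
  set T := (S.N i).filter (fun x => S.val x = 3) with hT
  set U := (S.N i).filter (fun x => ¬ S.val x = 3) with hU
  set Q := U.filter (fun x => S.val x = 5) with hQ
  set R := U.filter (fun x => ¬ S.val x = 5) with hR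
  have hsplit : ∀ F : ν → ℝ, ∑ x ∈ S.N i, F x = ∑ x ∈ T, F x + (∑ x ∈ Q, F x + ∑ x ∈ R, F x) := by
    intro F
    rw [hQ, hR, Finset.sum_filter_add_sum_filter_not, hT, hU, Finset.sum_filter_add_sum_filter_not]
  have hcard : T.card + (Q.card + R.card) = (S.N i).card := by
    rw [hQ, hR, Finset.card_filter_add_card_filter_not, hT, hU,
      Finset.card_filter_add_card_filter_not]
  have hTm : ∀ x ∈ T, x ∈ S.N i ∧ S.val x = 3 := fun x hx => Finset.mem_filter.1 hx
  have hQm : ∀ x ∈ Q, x ∈ S.N i ∧ S.val x = 5 := fun x hx => by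
    rw [hQ, Finset.mem_filter, hU, Finset.mem_filter] at hx
    exact ⟨hx.1.1, hx.2⟩
  have hRm : ∀ x ∈ R, x ∈ S.N i ∧ S.val x ≠ 3 ∧ S.val x ≠ 5 := fun x hx => by
    rw [hR, Finset.mem_filter, hU, Finset.mem_filter] at hx
    exact ⟨hx.1.1, hx.1.2, hx.2⟩
  have hqr : 2 ≤ Q.card + R.card := by
    obtain ⟨x, y, hx, hy, hxy, hx4, hy4⟩ := h2 i
    have e : Q.card + R.card = U.card := by
      rw [hQ, hR, Finset.card_filter_add_card_filter_not]
    rw [e]
    have h1 : ({x, y} : Finset ν) ⊆ U := by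
      intro z hz
      rw [Finset.mem_insert, Finset.mem_singleton] at hz
      rw [hU, Finset.mem_filter]
      rcases hz with rfl | rfl
      · exact ⟨hx, by omega⟩
      · exact ⟨hy, by omega⟩
    have h2 := Finset.card_le_card h1
    rw [Finset.card_pair hxy] at h2
    exact h2
  -- the sum of the `k`
  have hsumk : (T.card : ℝ) + (3 * (Q.card : ℝ) + ∑ x ∈ R, ((S.val x - 2 : ℕ) : ℝ)) = 18 := by
    have h1 := S.sum_val i
    have h3 : ((∑ x ∈ S.N i, (S.val x - 2) : ℕ) : ℝ) = 18 := by rw [h1]; norm_num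
    rw [Nat.cast_sum, hsplit] at h3
    have e1 : ∑ x ∈ T, ((S.val x - 2 : ℕ) : ℝ) = (T.card : ℝ) := by
      rw [Finset.sum_congr rfl (fun x hx => by rw [(hTm x hx).2] : ∀ x ∈ T,
        ((S.val x - 2 : ℕ) : ℝ) = ((3 - 2 : ℕ) : ℝ)), Finset.sum_const]
      simp
    have e2 : ∑ x ∈ Q, ((S.val x - 2 : ℕ) : ℝ) = 3 * (Q.card : ℝ) := by
      rw [Finset.sum_congr rfl (fun x hx => by rw [(hQm x hx).2] : ∀ x ∈ Q,
        ((S.val x - 2 : ℕ) : ℝ) = ((5 - 2 : ℕ) : ℝ)), Finset.sum_const]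
      simp
      ring
    rw [e1, e2] at h3
    exact h3
  have hf := S.f_eq i
  have hphi : ∀ k : ℕ, phi k = ((((k : ℚ) / (2 * ((k : ℚ) + 2))) : ℚ) : ℝ) := by
    intro k
    unfold phi
    push_cast
    rfl
  have hψ0 : ∀ x ∈ S.N i, S.val x ≠ 3 → ψ x ≤ 0 := by
    intro x hx h3
    obtain ⟨y, z, hyz, hy, hz, -⟩ := S.part i x hx
    have := hψ x y z hx hyz hy hz
    rw [BIG6E_wq h3] at this
    simpa using this
  have hψ3 : ∀ x y z, x ∈ S.N i → y ≠ z → Part S.N i x y → Part S.N i x z → S.val x = 3 →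
      ψ x ≤ ((dbq 18 eq18 (S.val y) : ℚ) : ℝ) + ((dbq 18 eq18 (S.val z) : ℚ) : ℝ) ∧
        ψ x ≤ 2 * ((eq18 : ℚ) : ℝ) := by
    intro x y z hx hyz hy hz h3
    have h := hψ x y z hx hyz hy hz
    rw [BIG6E_wq3 h3, BIG6E_s (by omega)] at h
    have hc := BIG6E_c3q (S.val y) (by have := hv20 y hy.2.1; omega) (S.val z)
      (by have := hv20 z hz.2.1; omega)
    refine ⟨h.trans ?_, h.trans ?_⟩
    · exact_mod_cast hc.1
    · exact_mod_cast hc.2
  have hrR : ∀ x ∈ R, (S.val x - 2 = 2 ∨ 4 ≤ S.val x - 2) ∧ S.val x - 2 < 19 := by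
    intro x hx
    obtain ⟨h1, h2, h3⟩ := hRm x hx
    have := hv3 x h1
    have := hv20 x h1
    omega
  rcases Nat.lt_or_ge T.card Q.card with hlt | hge
  · -- bound (I)
    have hI : ∑ x ∈ S.N i, ψ x ≤ 2 * ((eq18 : ℚ) : ℝ) * T.card := by
      rw [hsplit]
      have a1 : ∑ x ∈ T, ψ x ≤ ∑ x ∈ T, 2 * ((eq18 : ℚ) : ℝ) := by
        refine Finset.sum_le_sum fun x hx => ?_
        obtain ⟨y, z, hyz, hy, hz, -⟩ := S.part i x (hTm x hx).1
        exact (hψ3 x y z (hTm x hx).1 hyz hy hz (hTm x hx).2).2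
      have a2 : ∑ x ∈ Q, ψ x ≤ 0 := Finset.sum_nonpos fun x hx =>
        hψ0 x (hQm x hx).1 (by rw [(hQm x hx).2]; norm_num)
      have a3 : ∑ x ∈ R, ψ x ≤ 0 := Finset.sum_nonpos fun x hx =>
        hψ0 x (hRm x hx).1 (hRm x hx).2.1
      rw [Finset.sum_const, nsmul_eq_mul] at a1
      linarith
    have hP : (T.card : ℝ) * (1 / 6) + (Q.card * (3 / 10) + R.card * (1 / 4)) ≤
        ∑ x ∈ S.N i, phi (S.val x - 2) := by
      rw [hsplit]
      have a1 : ∑ x ∈ T, phi (S.val x - 2) = T.card * (1 / 6) := by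
        rw [Finset.sum_congr rfl (fun x hx => by rw [(hTm x hx).2] : ∀ x ∈ T,
          phi (S.val x - 2) = phi (3 - 2)), Finset.sum_const, nsmul_eq_mul]
        congr 1
        unfold phi; norm_num
      have a2 : ∑ x ∈ Q, phi (S.val x - 2) = Q.card * (3 / 10) := by
        rw [Finset.sum_congr rfl (fun x hx => by rw [(hQm x hx).2] : ∀ x ∈ Q,
          phi (S.val x - 2) = phi (5 - 2)), Finset.sum_const, nsmul_eq_mul]
        congr 1
        unfold phi; norm_num
      have a3 : R.card * (1 / 4) ≤ ∑ x ∈ R, phi (S.val x - 2) := by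
        have : ∑ x ∈ R, (1 / 4 : ℝ) ≤ ∑ x ∈ R, phi (S.val x - 2) := by
          refine Finset.sum_le_sum fun x hx => ?_
          have hk := (hrR x hx).1
          have hk2 : (2 : ℝ) ≤ ((S.val x - 2 : ℕ) : ℝ) := by
            have : 2 ≤ S.val x - 2 := by omega
            exact_mod_cast this
          unfold phi
          rw [div_le_div_iff₀ (by norm_num) (by linarith)]
          linarith
        rw [Finset.sum_const, nsmul_eq_mul] at this
        exact this
      rw [a1, a2]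
      linarith
    have hE' : ((eq18 : ℚ) : ℝ) = 1 / 5 + 1 / 16 - 1 / 6 + 1 / 100000 := by
      rw [hE]; push_cast; norm_num
    rw [hf, heps]
    rw [hE'] at hI
    have hs6 : 6 ≤ T.card + (Q.card + R.card) := by rw [hcard]; exact h6
    have c1 : (T.card : ℝ) + 1 ≤ Q.card := by exact_mod_cast hlt
    have c2 : (6 : ℝ) ≤ T.card + (Q.card + R.card) := by exact_mod_cast hs6
    have c3 : (0 : ℝ) ≤ T.card := Nat.cast_nonneg _
    have c4 : (0 : ℝ) ≤ R.card := Nat.cast_nonneg _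
    rcases Nat.lt_or_ge Q.card 4 with hq | hq
    · rcases Nat.eq_zero_or_pos R.card with hr | hr
      · exfalso; omega
      · have c5 : (1 : ℝ) ≤ R.card := by exact_mod_cast hr
        rcases Nat.lt_or_ge Q.card 3 with hq2 | hq2
        · have c6 : (Q.card : ℝ) ≤ 2 := by
            have : Q.card ≤ 2 := by omega
            exact_mod_cast this
          linarith
        · have c6 : (3 : ℝ) ≤ Q.card := by exact_mod_cast hq2
          have c7 : (Q.card : ℝ) ≤ 3 := by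
            have : Q.card ≤ 3 := by omega
            exact_mod_cast this
          linarith
    · have c6 : (4 : ℝ) ≤ Q.card := by exact_mod_cast hq
      linarith
  · -- bound (II)
    have hII : ∑ x ∈ S.N i, ψ x ≤ ∑ x ∈ S.N i, 2 * ((dbq 18 eq18 (S.val x) : ℚ) : ℝ) := by
      have hFn : ∀ x ∈ S.N i, (0 : ℝ) ≤ ((dbq 18 eq18 (S.val x) : ℚ) : ℝ) := by
        intro x hx
        have := BIG6E_d_nonneg (S.val x) (by have := hv20 x hx; omega)
        exact_mod_cast this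
      refine S.BIG6E_pairs i (fun x => ((dbq 18 eq18 (S.val x) : ℚ) : ℝ)) ψ hFn ?_
      intro x y z hx hyz hy hz
      by_cases h3 : S.val x = 3
      · exact (hψ3 x y z hx hyz hy hz h3).1
      · have a1 := hψ0 x hx h3
        have a2 := hFn y hy.2.1
        have a3 := hFn z hz.2.1
        show ψ x ≤ ((dbq 18 eq18 (S.val y) : ℚ) : ℝ) + ((dbq 18 eq18 (S.val z) : ℚ) : ℝ)
        linarith
    have hc : S.f i + ∑ x ∈ S.N i, ψ x ≤ 1 - ∑ x ∈ S.N i, ((BIG6E_c (S.val x - 2) : ℚ) : ℝ) := by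
      rw [hf]
      have e1 : ∑ x ∈ S.N i, ((BIG6E_c (S.val x - 2) : ℚ) : ℝ) =
          ∑ x ∈ S.N i, phi (S.val x - 2) - ∑ x ∈ S.N i, 2 * ((dbq 18 eq18 (S.val x) : ℚ) : ℝ) := by
        rw [← Finset.sum_sub_distrib]
        refine Finset.sum_congr rfl fun x hx => ?_
        have h3 := hv3 x hx
        have e2 : S.val x - 2 + 2 = S.val x := by omega
        rw [hphi]
        unfold BIG6E_c
        rw [e2]
        push_cast
        rfl
      rw [e1]
      linarith
    refine hc.trans ?_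
    rw [heps, hsplit]
    have a1 : (T.card : ℝ) * (1666 / 10000) ≤ ∑ x ∈ T, ((BIG6E_c (S.val x - 2) : ℚ) : ℝ) := by
      rw [Finset.sum_congr rfl (fun x hx => by rw [(hTm x hx).2] : ∀ x ∈ T,
        ((BIG6E_c (S.val x - 2) : ℚ) : ℝ) = ((BIG6E_c (3 - 2) : ℚ) : ℝ)), Finset.sum_const,
        nsmul_eq_mul]
      refine mul_le_mul_of_nonneg_left ?_ (Nat.cast_nonneg _)
      have := BIG6E_c1
      have h' : (((1666 / 10000 : ℚ)) : ℝ) ≤ ((BIG6E_c 1 : ℚ) : ℝ) := by exact_mod_cast this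
      push_cast at h'
      exact h'
    have a2 : (Q.card : ℝ) * (1083 / 10000) ≤ ∑ x ∈ Q, ((BIG6E_c (S.val x - 2) : ℚ) : ℝ) := by
      rw [Finset.sum_congr rfl (fun x hx => by rw [(hQm x hx).2] : ∀ x ∈ Q,
        ((BIG6E_c (S.val x - 2) : ℚ) : ℝ) = ((BIG6E_c (5 - 2) : ℚ) : ℝ)), Finset.sum_const,
        nsmul_eq_mul]
      refine mul_le_mul_of_nonneg_left ?_ (Nat.cast_nonneg _)
      have := BIG6E_c3
      have h' : (((1083 / 10000 : ℚ)) : ℝ) ≤ ((BIG6E_c 3 : ℚ) : ℝ) := by exact_mod_cast this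
      push_cast at h'
      exact h'
    have a3 : (R.card : ℝ) * (1555 / 10000) + 111 / 10000 * ∑ x ∈ R, ((S.val x - 2 : ℕ) : ℝ) ≤
        ∑ x ∈ R, ((BIG6E_c (S.val x - 2) : ℚ) : ℝ) := by
      rw [Finset.mul_sum, ← nsmul_eq_mul, ← Finset.sum_const, ← Finset.sum_add_distrib]
      refine Finset.sum_le_sum fun x hx => ?_
      have h3 := BIG6E_line (S.val x - 2) (hrR x hx).2 (hrR x hx).1
      have h' : (((1555 / 10000 : ℚ) + 111 / 10000 * ((S.val x - 2 : ℕ) : ℚ) : ℚ) : ℝ) ≤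
        ((BIG6E_c (S.val x - 2) : ℚ) : ℝ) := by exact_mod_cast h3
      push_cast at h'
      push_cast
      linarith
    have hs6 : 6 ≤ T.card + (Q.card + R.card) := by rw [hcard]; exact h6
    have c1 : (Q.card : ℝ) ≤ T.card := by exact_mod_cast hge
    have c2 : (6 : ℝ) ≤ T.card + (Q.card + R.card) := by exact_mod_cast hs6
    have c3 : (0 : ℝ) ≤ T.card := Nat.cast_nonneg _
    have c4 : (0 : ℝ) ≤ R.card := Nat.cast_nonneg _
    have c0 : (0 : ℝ) ≤ Q.card := Nat.cast_nonneg _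
    rcases Nat.lt_or_ge Q.card 2 with hq | hq
    · have c5 : (Q.card : ℝ) ≤ 1 := by
        have : Q.card ≤ 1 := by omega
        exact_mod_cast this
      linarith
    rcases Nat.lt_or_ge Q.card 4 with hq4 | hq4
    · -- `q = 2` or `q = 3`
      rcases Nat.eq_zero_or_pos R.card with hr0 | hr0
      · have hRe : R = ∅ := Finset.card_eq_zero.1 hr0
        rw [hRe, Finset.sum_empty] at hsumk
        rw [hRe, Finset.sum_empty]
        have c5 : (Q.card : ℝ) ≤ 3 := by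
          have : Q.card ≤ 3 := by omega
          exact_mod_cast this
        linarith
      rcases Nat.lt_or_ge Q.card 3 with hq3 | hq3
      · have hq2 : Q.card = 2 := by omega
        have c5 : (Q.card : ℝ) = 2 := by rw [hq2]; norm_num
        rcases Nat.lt_or_ge (T.card + R.card) 5 with h5 | h5
        · -- `t + r = 4`
          have h4 : T.card + R.card = 4 := by omega
          rcases Nat.lt_or_ge R.card 2 with hr1 | hr1
          · have hr : R.card = 1 := by omega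
            have ht : T.card = 3 := by omega
            obtain ⟨x, hx⟩ := Finset.card_eq_one.1 hr
            rw [hx, Finset.sum_singleton, hq2, ht] at hsumk
            have hk : ((S.val x - 2 : ℕ) : ℝ) = 9 := by
              push_cast at hsumk
              linarith
            have hk' : S.val x - 2 = 9 := by exact_mod_cast hk
            rw [hx, Finset.sum_singleton, hk']
            have h9 : (((36 / 100 : ℚ)) : ℝ) ≤ ((BIG6E_c 9 : ℚ) : ℝ) := by
              exact_mod_cast BIG6E_c9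
            push_cast at h9
            have ht' : (T.card : ℝ) = 3 := by rw [ht]; norm_num
            rw [ht'] at a1
            rw [c5] at a2
            linarith
          · have hr : R.card = 2 := by omega
            have ht : T.card = 2 := by omega
            obtain ⟨x, y, hxy, hx⟩ := Finset.card_eq_two.1 hr
            have hxR : x ∈ R := by rw [hx]; simp
            have hyR : y ∈ R := by rw [hx]; simp
            rw [hx, Finset.sum_pair hxy, hq2, ht] at hsumk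
            have hk : ((S.val x - 2 : ℕ) : ℝ) + ((S.val y - 2 : ℕ) : ℝ) = 10 := by
              push_cast at hsumk
              linarith
            have hk' : (S.val x - 2) + (S.val y - 2) = 10 := by exact_mod_cast hk
            rw [hx, Finset.sum_pair hxy]
            have h9 := BIG6E_two _ (hrR x hxR).2 _ (hrR y hyR).2 (hrR x hxR).1 (hrR y hyR).1 hk'
            have h9' : (((49 / 100 : ℚ)) : ℝ) ≤ ((BIG6E_c (S.val x - 2) : ℚ) : ℝ) +
                ((BIG6E_c (S.val y - 2) : ℚ) : ℝ) := by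
              exact_mod_cast h9
            push_cast at h9'
            have ht' : (T.card : ℝ) = 2 := by rw [ht]; norm_num
            rw [ht'] at a1
            rw [c5] at a2
            linarith
        · have c6 : (5 : ℝ) ≤ T.card + R.card := by exact_mod_cast h5
          linarith
      · have c5 : (3 : ℝ) ≤ Q.card := by exact_mod_cast hq3
        have c7 : (Q.card : ℝ) ≤ 3 := by
          have : Q.card ≤ 3 := by omega
          exact_mod_cast this
        have c6 : (1 : ℝ) ≤ R.card := by exact_mod_cast hr0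
        linarith
    · have c5 : (4 : ℝ) ≤ Q.card := by exact_mod_cast hq4
      linarith

end Sys

end Pool.Agent.NNb
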