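import Pool.Agent.NNb.Trans3
import Pool.Agent.NNb.SmallT
import Pool.Agent.NNb.Big6
import Pool.Agent.NNb.BNbr

/-!
Module C3BD.  The transfers `trans3` with the concrete charge functions `shq`, `dbq`.

`E ≥ 0` rational with: if there is an `E`-tile, then `1/5 + 1/(n-2) - 1/6 + epsq ≤ E`.
Apply `trans3` with `sh z = shq n E z`, `db z = dbq n E z` (cast to `ℝ`), `e = epsq`, `B = E + 1`.
* bounds: `0 ≤ e3q n z ≤ 1` for `6 ≤ z ≤ n - 3` (`e3q = (n+3)/(z (n+3-z)) - 1/6`,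
  `z (n+3-z) ≤ ((n+3)/2)^2` and `4/(n+3) ≥ 1/6` for `n ≤ 20`).
* `hs`: `small_3`: if the tile is of type `E`: `f = 1/5 + 1/(n-2) - 1/6`, `sh 5 = E`, `sh (n-2) = 0` (as
  `6 ≤ z ∧ z + 3 ≤ n` fails for `z = n - 2`).  Otherwise `val z = n + 3 - val y`, `f = e3q`, and
  `sh (val y) + sh (val z) = e3q + 2 epsq` in all three cases of the definition (`77/200 + 123/200 = 1`).
* `hd`: `small_3` with the third node `z` of `i`.  `E`-tile and `val y = 5`: `db 5 = E`.  `E`-tile and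
  `val y = n - 2`: then `z` has valence 5, and the tile `k` is the other tile containing `g, z` (`val g = 3`,
  `link3`: `N i ∩ N j = {g, y}`, so the other partner `z` of `g` on `i` is shared with `k`), which is
  small: contradiction to `U5` (applied to `i`, `k`, `g`, `z`).  Otherwise `db (val y) = e3q + epsq`.
* Result: for a big tile `j` and a 3-valent node `g` of `j` with partners `y ≠ z` on `j`: the other tiles at
  `g` are `i ∋ y` and `k ∋ z` (definition of `Part`; `i ≠ k` by `three`).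
  - `i`, `k` both small: `N i = {g, p, y}`, `N k = {g, p, z}` with the common node `p` (`link3`), so
    `val y = n + 3 - val p = val z` (`small_3`).  `φ j g ≤ 2 db (val y)`.  If `val y = 5`, then `i` is of type
    `E` (`small_3`; `n - 2 ≠ 5`), and `U5` (for `i`, `j`, `g`, `y`, and the partner `z`) gives `|N j| ≥ 5`; so
    `φ j g ≤ 2 E = m2q`.  If `val y ≠ 5`: `2 db (val y) = m2q`.
  - only `i` small: `φ j g ≤ sh (val y)`.  If `val y = 5`: `i` is of type `E`, and by `U5`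
    `val z = 4 ∨ (val z = 5 ∧ 5 ≤ |N j|)`, so `sh 5 = E = m1q`.  Otherwise `sh (val y) = m1q`.
  - only `k` small: symmetric.  - none: `φ j g ≤ 0 ≤ m1q`.
-/

namespace Pool.Agent.NNb

theorem C3BD_eps : (0 : ℚ) ≤ epsq ∧ epsq ≤ 1 / 100000 := by
  unfold epsq
  norm_num

theorem C3BD_sh {n : ℕ} (hn : 17 ≤ n) (hn' : n ≤ 20) {E : ℚ} (hE : 0 ≤ E) (v : ℕ) :
    0 ≤ shq n E v ∧ shq n E v ≤ E + 1 := by
  have he := C3BD_eps
  unfold shq
  split_ifs with h1 h2 h3 h4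
  · exact ⟨hE, by linarith⟩
  · have h := BIG6_e3q hn hn' h2.1 h2.2
    constructor <;> linarith [h.1, h.2, he.1, he.2]
  · have h := BIG6_e3q hn hn' h2.1 h2.2
    constructor <;> linarith [h.1, h.2, he.1, he.2]
  · have h := BIG6_e3q hn hn' h2.1 h2.2
    constructor <;> linarith [h.1, h.2, he.1, he.2]
  · exact ⟨le_rfl, by linarith⟩

theorem C3BD_db {n : ℕ} (hn : 17 ≤ n) (hn' : n ≤ 20) {E : ℚ} (hE : 0 ≤ E) (v : ℕ) :
    0 ≤ dbq n E v ∧ dbq n E v ≤ E + 1 := by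
  have he := C3BD_eps
  unfold dbq
  split_ifs with h1 h2
  · exact ⟨hE, by linarith⟩
  · have h := BIG6_e3q hn hn' h2.1 h2.2
    constructor <;> linarith [h.1, h.2, he.1, he.2]
  · exact ⟨le_rfl, by linarith⟩

theorem C3BD_m1 {n : ℕ} (hn : 17 ≤ n) (hn' : n ≤ 20) {E : ℚ} (hE : 0 ≤ E) (s y z : ℕ) :
    0 ≤ m1q n E s y z := by
  unfold m1q
  split_ifs
  · exact hE
  · exact le_rfl
  · exact (C3BD_sh hn hn' hE y).1

/-- value of a small tile in terms of `e3q` -/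
theorem C3BD_e3 {n y z : ℕ} (h : y + z = n + 3) :
    ((e3q n y : ℚ) : ℝ) = 1 / (y : ℝ) + 1 / (z : ℝ) - 1 / 6 := by
  have h1 : (y : ℝ) + (z : ℝ) = (n : ℝ) + 3 := by exact_mod_cast h
  have h2 : (n : ℝ) + 3 - (y : ℝ) = z := by linarith
  unfold e3q
  push_cast
  rw [h2]

theorem C3BD_shsum {n y z : ℕ} {E : ℚ} (h : y + z = n + 3) (hy : 6 ≤ y) (hz : 6 ≤ z)
    (hy' : y + 3 ≤ n) (hz' : z + 3 ≤ n) : e3q n y + epsq ≤ shq n E y + shq n E z := by
  have he := C3BD_eps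
  have h0 : e3q n z = e3q n y := by
    have h1 : (y : ℚ) + (z : ℚ) = (n : ℚ) + 3 := by exact_mod_cast h
    have h2 : (n : ℚ) + 3 - (y : ℚ) = z := by linarith
    have h3 : (n : ℚ) + 3 - (z : ℚ) = y := by linarith
    unfold e3q
    rw [h2, h3]
    ring
  unfold shq
  rw [h0]
  split_ifs <;> first | omega | linarith [he.1]

namespace Sys

variable {ι ν : Type} {n : ℕ}

theorem C3BD_val2 (S : Sys ι ν 3 n) {y : ν} (h : S.val y + 2 = n) :
    1 / (S.val y : ℝ) = 1 / ((n : ℝ) - 2) := by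
  have h1 : ((S.val y : ℕ) : ℝ) = (n : ℝ) - 2 := by
    have h2 : ((S.val y + 2 : ℕ) : ℝ) = (n : ℝ) := congrArg _ h
    push_cast at h2
    linarith
  rw [h1]

/-- third common node of two of the three tiles at a 3-valent node -/
theorem C3BD_link (S : Sys ι ν 3 n) {g y : ν} {i j k : ι} (hv : S.val g = 3) (hij : i ≠ j)
    (hjk : j ≠ k) (hik : i ≠ k) (hgi : g ∈ S.N i) (hgj : g ∈ S.N j) (hgk : g ∈ S.N k)
    (hyg : y ≠ g) (hyi : y ∈ S.N i) (hyj : y ∈ S.N j) :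
    ∃ r, r ≠ g ∧ r ≠ y ∧ r ∈ S.N k ∧ r ∈ S.N i := by
  obtain ⟨p, q, r, hp, hq, hr, hpq, hqr, hpr, hpi, hpj, hqj, hqk, hrk, hri⟩ :=
    S.link3 hv hij hjk hik hgi hgj hgk
  refine ⟨r, hr, ?_, hrk, hri⟩
  have hpy : g = y ∨ y = p ∨ g = p := S.three i j g y p hij hgi hyi hpi hgj hyj hpj
  rcases hpy with e | e | e
  · exact absurd e.symm hyg
  · rw [e]; exact hpr.symm
  · exact absurd e.symm hp

theorem C3BD_five (S : Sys ι ν 3 n) (hn : 17 ≤ n) (h1 : S.H3) (h2 : S.U2) {i : ι} {g y z : ν}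
    (hc : (S.N i).card = 3) (hg : g ∈ S.N i) (hy : y ∈ S.N i) (hz : z ∈ S.N i) (hyg : y ≠ g)
    (hzg : z ≠ g) (hyz : y ≠ z) (hv : S.val g = 3) (h5 : S.val y = 5) : S.IsE i := by
  obtain ⟨-, -, h⟩ := S.small_3 (by omega) h1 h2 hc hg hy hz hyg hzg hyz hv
  rcases h with h | h | h
  · exact h.2.2
  · exact h.2.2
  · omega

theorem trans3' (S : Sys ι ν 3 n) (hn : 17 ≤ n) (hn' : n ≤ 20) (h1 : S.H3) (h2 : S.U2)
    (h3 : S.U3) (h5 : S.U5) (E : ℚ) (hE0 : 0 ≤ E)
    (hE : ∀ i, S.IsE i → 1 / 5 + 1 / ((n : ℝ) - 2) - 1 / 6 + ((epsq : ℚ) : ℝ) ≤ ((E : ℚ) : ℝ)) :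
    ∃ φ : ι → ν → ℝ, S.ZS φ ∧ S.Bdd φ ∧
      (∀ i g, (S.N i).card = 3 → g ∈ S.N i → S.val g = 3 →
        S.f i + ∑ x ∈ S.N i, φ i x ≤ -((epsq : ℚ) : ℝ)) ∧
      (∀ i, (S.N i).card = 3 → (∀ g ∈ S.N i, S.val g ≠ 3) → ∑ x ∈ S.N i, φ i x ≤ 0) ∧
      (∀ j x, 4 ≤ (S.N j).card → x ∈ S.N j → S.val x ≠ 3 → φ j x ≤ 0) ∧
      (∀ j g y z, 4 ≤ (S.N j).card → S.val g = 3 → g ∈ S.N j → y ≠ z → Part S.N j g y →
        Part S.N j g z →
        φ j g ≤ ((c3q n E (S.N j).card (S.val y) (S.val z) : ℚ) : ℝ)) := by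
  classical
  have hEr : (0 : ℝ) ≤ (E : ℝ) := by exact_mod_cast hE0
  have cast : ∀ a b : ℚ, a ≤ b → (a : ℝ) ≤ (b : ℝ) := fun a b h => by exact_mod_cast h
  have hsh : ∀ z, 0 ≤ ((shq n E z : ℚ) : ℝ) ∧ ((shq n E z : ℚ) : ℝ) ≤ (E : ℝ) + 1 := by
    intro z
    have h := C3BD_sh hn hn' hE0 z
    constructor
    · exact_mod_cast h.1
    · exact_mod_cast h.2
  have hdb : ∀ z, 0 ≤ ((dbq n E z : ℚ) : ℝ) ∧ ((dbq n E z : ℚ) : ℝ) ≤ (E : ℝ) + 1 := by
    intro z
    have h := C3BD_db hn hn' hE0 z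
    constructor
    · exact_mod_cast h.1
    · exact_mod_cast h.2
  have e5 : ((5 : ℕ) : ℝ) = 5 := by norm_num
  have sh5 : shq n E 5 = E := by unfold shq; simp
  have db5 : dbq n E 5 = E := by unfold dbq; simp
  have hs : ∀ i g y z, (S.N i).card = 3 → g ∈ S.N i → y ∈ S.N i → z ∈ S.N i → y ≠ g → z ≠ g →
      y ≠ z → S.val g = 3 → S.f i + ((epsq : ℚ) : ℝ) ≤
        ((shq n E (S.val y) : ℚ) : ℝ) + ((shq n E (S.val z) : ℚ) : ℝ) := by
    intro i g y z hc hg hy hz hyg hzg hyz hv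
    obtain ⟨hf, hsum, h⟩ := S.small_3 (by omega) h1 h2 hc hg hy hz hyg hzg hyz hv
    rcases h with ⟨k1, k2, k3⟩ | ⟨k1, k2, k3⟩ | ⟨k1, k2, k3, k4⟩
    · rw [hf, S.C3BD_val2 k2, k1, sh5]
      have hk := hE i k3
      have hk' := (hsh (S.val z)).1
      rw [e5]
      linarith
    · rw [hf, S.C3BD_val2 k2, k1, sh5]
      have hk := hE i k3
      have hk' := (hsh (S.val y)).1
      rw [e5]
      linarith
    · rw [hf, ← C3BD_e3 hsum]
      have := cast _ _ (C3BD_shsum (E := E) hsum k1 k2 k3 k4)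
      push_cast at this
      linarith
  have hd : ∀ i j k g y, (S.N i).card = 3 → 4 ≤ (S.N j).card → (S.N k).card = 3 → i ≠ k →
      g ∈ S.N i → g ∈ S.N j → g ∈ S.N k → S.val g = 3 → y ∈ S.N i → y ∈ S.N j → y ≠ g →
      S.f i + ((epsq : ℚ) : ℝ) ≤ ((dbq n E (S.val y) : ℚ) : ℝ) := by
    intro i j k g y hci hcj hck hik hgi hgj hgk hv hyi hyj hyg
    have hij : i ≠ j := by rintro rfl; omega
    have hjk : j ≠ k := by rintro rfl; omega
    obtain ⟨z, hzg, hzy, hzk, hzi⟩ :=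
      S.C3BD_link hv hij hjk hik hgi hgj hgk hyg hyi hyj
    obtain ⟨hf, hsum, h⟩ := S.small_3 (by omega) h1 h2 hci hgi hyi hzi hyg hzg hzy.symm hv
    rcases h with ⟨k1, k2, k3⟩ | ⟨k1, k2, k3⟩ | ⟨k1, k2, k3, k4⟩
    · rw [hf, S.C3BD_val2 k2, k1, db5]
      have hk := hE i k3
      rw [e5]
      linarith
    · exfalso
      have := (h5 i k g z k3 hik.symm hgi hzi hv k1 hgk hzk).1
      omega
    · rw [hf, ← C3BD_e3 hsum]
      unfold dbq
      rw [if_neg (by omega), if_pos ⟨k1, k3⟩]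
      push_cast
      exact le_rfl
  obtain ⟨φ, hZ, hB, p1, p2, p3, p4⟩ := S.trans3 h2 h3 (fun z => ((shq n E z : ℚ) : ℝ))
    (fun z => ((dbq n E z : ℚ) : ℝ)) ((E : ℝ) + 1) ((epsq : ℚ) : ℝ) hsh hdb hs hd
  refine ⟨φ, hZ, hB, p1, p2, p3, ?_⟩
  intro j g y z hcj hv hgj hyz hpy hpz
  obtain ⟨-, hyj, hgy, i, hij, hgi, hyi⟩ := hpy
  have hpz' := hpz
  obtain ⟨-, hzj, hgz, k, hkj, hgk, hzk⟩ := hpz
  have hik : i ≠ k := by
    rintro rfl
    rcases S.three i j g y z hij hgi hyi hzk hgj hyj hzj with e | e | e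
    · exact hgy e
    · exact hyz e
    · exact hgz e
  have h := p4 j g y z i k hcj hv hgj hgi hgk hij hkj hik hgy.symm hgz.symm hyi hyj hzk hzj
  refine h.trans ?_
  have m1 : m1q n E (S.N j).card (S.val y) (S.val z) ≤ c3q n E (S.N j).card (S.val y) (S.val z) := by
    unfold c3q
    exact (le_max_left _ _).trans (le_max_left _ _)
  have m1' : m1q n E (S.N j).card (S.val z) (S.val y) ≤
      c3q n E (S.N j).card (S.val y) (S.val z) := by
    unfold c3q
    exact (le_max_right _ _).trans (le_max_left _ _)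
  have m2 : m2q n E (S.N j).card (S.val y) (S.val z) ≤ c3q n E (S.N j).card (S.val y) (S.val z) := by
    unfold c3q
    exact le_max_right _ _
  have hpy : Part S.N j g y := ⟨hgj, hyj, hgy, i, hij, hgi, hyi⟩
  by_cases ci : (S.N i).card = 3
  · by_cases ck : (S.N k).card = 3
    · rw [if_pos ci, if_pos ck, if_pos ck, if_pos ci]
      obtain ⟨r, hrg, hry, hrk, hri⟩ :=
        S.C3BD_link hv hij hkj.symm hik hgi hgj hgk hgy.symm hyi hyj
      have hrz : z ≠ r := by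
        rintro rfl
        rcases S.edge g z i j k hgz hgi hri hgj hzj hgk hzk with e | e | e
        · exact hij e
        · exact hkj e.symm
        · exact hik e
      obtain ⟨-, hsi, -⟩ := S.small_3 (by omega) h1 h2 ci hgi hyi hri hgy.symm hrg hry.symm hv
      obtain ⟨-, hsk, -⟩ := S.small_3 (by omega) h1 h2 ck hgk hzk hrk hgz.symm hrg hrz hv
      have hvv : S.val y = S.val z := by omega
      have e1 : ((dbq n E (S.val y) : ℚ) : ℝ) + ((dbq n E (S.val z) : ℚ) : ℝ) ≤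
          ((m2q n E (S.N j).card (S.val y) (S.val z) : ℚ) : ℝ) := by
        unfold m2q
        rw [if_pos hvv, ← hvv]
        by_cases k5 : S.val y = 5
        · have hEi : S.IsE i := S.C3BD_five hn h1 h2 ci hgi hyi hri hgy.symm hrg hry.symm hv k5
          have hu := (h5 i j g y hEi hij.symm hgi hyi hv k5 hgj hyj).2 z hyz.symm hpz'
          have h5c : 5 ≤ (S.N j).card := by
            rcases hu with hu | hu
            · omega
            · exact hu.2
          rw [if_pos k5, if_pos h5c, k5, db5]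
          push_cast
          linarith
        · rw [if_neg k5]
          push_cast
          linarith
      exact e1.trans (cast _ _ m2)
    · rw [if_pos ci, if_neg ck, if_neg ck, add_zero]
      refine le_trans ?_ (cast _ _ m1)
      unfold m1q
      by_cases k5 : S.val y = 5
      · obtain ⟨r, hri, hgr, hyr⟩ := S.BNBR_third ci hgi hyi hgy
        have hEi : S.IsE i := S.C3BD_five hn h1 h2 ci hgi hyi hri hgy.symm hgr.symm hyr hv k5
        have hu := (h5 i j g y hEi hij.symm hgi hyi hv k5 hgj hyj).2 z hyz.symm hpz'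
        rw [if_pos k5, if_pos hu, k5, sh5]
      · rw [if_neg k5]
  · by_cases ck : (S.N k).card = 3
    · rw [if_neg ci, if_pos ck, if_neg ci, zero_add]
      refine le_trans ?_ (cast _ _ m1')
      unfold m1q
      by_cases k5 : S.val z = 5
      · obtain ⟨r, hrk, hgr, hzr⟩ := S.BNBR_third ck hgk hzk hgz
        have hEk : S.IsE k := S.C3BD_five hn h1 h2 ck hgk hzk hrk hgz.symm hgr.symm hzr hv k5
        have hu := (h5 k j g z hEk hkj.symm hgk hzk hv k5 hgj hzj).2 y hyz hpy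
        rw [if_pos k5, if_pos hu, k5, sh5]
      · rw [if_neg k5]
    · rw [if_neg ci, if_neg ck, add_zero]
      have := cast _ _ ((C3BD_m1 hn hn' hE0 (S.N j).card (S.val y) (S.val z)).trans m1)
      push_cast at this
      exact this

end Sys

end Pool.Agent.NNb
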