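import Pool.Agent.NNb.Val

/-!
Module SUMVAL.  `∑_{x ∈ N i} (val x - 2) = n`.

Proof.  Count the pairs `(x, j)` with `x ∈ N i`, `j ∈ tl x`, `j ≠ i`: for fixed `x` there are
`val x - 1`.  For a fixed neighbour `j ∈ nb i` (these are exactly the `j ≠ i` which occur) the number
of `x` is `|N i ∩ N j|`, which is `1` or `2` (`three`).  So `∑ (val x - 1) = n + T`, where `T` is the
number of neighbours `j` with two common nodes.  Count the ordered partner pairs `(x, y)` on `i`: each
`x ∈ N i` has exactly two partners, so there are `2 |N i|`; each such pair determines a unique tile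
`j ≠ i` with `x, y ∈ N j` (`part_other`), and each `j` with two common nodes `x ≠ y` arises from exactly
the two ordered pairs `(x, y)`, `(y, x)`.  So `T = |N i|`, and `∑ (val x - 1) = n + |N i|`.
-/

namespace Pool.Agent.NNb

namespace Sys

variable {ι ν : Type} {m n : ℕ} (S : Sys ι ν m n)

open Classical in
theorem SUMVAL_tl {i : ι} {x : ν} (hx : x ∈ S.N i) :
    ((S.nb i).filter (fun j => x ∈ S.N j)).card + 1 = S.val x := by
  have h1 : S.tl x = insert i ((S.nb i).filter (fun j => x ∈ S.N j)) := by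
    ext k
    rw [Finset.mem_insert, Finset.mem_filter, S.mem_tl, S.mem_nb]
    constructor
    · intro hk
      by_cases h : k = i
      · exact Or.inl h
      · exact Or.inr ⟨⟨h, x, hx, hk⟩, hk⟩
    · rintro (h | h)
      · rw [h]; exact hx
      · exact h.2
  have h2 : i ∉ (S.nb i).filter (fun j => x ∈ S.N j) := by
    intro h
    exact ((S.mem_nb i i).1 (Finset.mem_filter.1 h).1).1 rfl
  unfold Sys.val
  rw [h1, Finset.card_insert_of_notMem h2]

open Classical in
theorem SUMVAL_double (i : ι) : ∑ x ∈ S.N i, ((S.nb i).filter (fun j => x ∈ S.N j)).card =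
    ∑ j ∈ S.nb i, (S.N i ∩ S.N j).card := by
  simp_rw [Finset.card_filter]
  rw [Finset.sum_comm]
  refine Finset.sum_congr rfl fun j _ => ?_
  rw [← Finset.card_filter, Finset.filter_mem_eq_inter]

theorem sum_val (i : ι) : ∑ x ∈ S.N i, (S.val x - 2) = n := by
  classical
  have h1 : ∑ x ∈ S.N i, (S.val x - 2) + 2 * (S.N i).card = ∑ x ∈ S.N i, S.val x := by
    rw [mul_comm, ← smul_eq_mul, ← Finset.sum_const, ← Finset.sum_add_distrib]
    refine Finset.sum_congr rfl fun x hx => ?_
    have := S.val_ge hx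
    omega
  have h2 : ∑ x ∈ S.N i, S.val x = ∑ j ∈ S.nb i, (S.N i ∩ S.N j).card + (S.N i).card := by
    rw [← S.SUMVAL_double i, Finset.card_eq_sum_ones, ← Finset.sum_add_distrib]
    refine Finset.sum_congr rfl fun x hx => ?_
    exact (S.SUMVAL_tl hx).symm
  have h3 : 2 * ∑ j ∈ S.nb i, (S.N i ∩ S.N j).card = 2 * n + 2 * (S.N i).card := by
    rw [← S.VAL_card_Pr i, ← S.VAL_sum_fib i, Finset.mul_sum]
    have h4 : 2 * n = ∑ j ∈ S.nb i, 2 := by
      rw [Finset.sum_const, S.nb_card i, smul_eq_mul, mul_comm]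
    rw [h4, ← Finset.sum_add_distrib]
    refine Finset.sum_congr rfl fun j hj => ?_
    rw [S.VAL_fib_eq hj, Finset.offDiag_card]
    have a1 := S.VAL_inter_le hj
    have a2 := S.VAL_inter_ge hj
    generalize (S.N i ∩ S.N j).card = c at a1 a2
    interval_cases c <;> simp
  omega

theorem sum_val_real (i : ι) : ∑ x ∈ S.N i, ((S.val x : ℝ) - 2) = n := by
  have h := S.sum_val i
  calc ∑ x ∈ S.N i, ((S.val x : ℝ) - 2) = ∑ x ∈ S.N i, ((S.val x - 2 : ℕ) : ℝ) := by
        refine Finset.sum_congr rfl fun x hx => ?_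
        have := S.val_ge hx
        rw [Nat.cast_sub (by omega)]
        norm_num
    _ = ((∑ x ∈ S.N i, (S.val x - 2) : ℕ) : ℝ) := by push_cast; rfl
    _ = n := by rw [h]

end Sys

end Pool.Agent.NNb
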