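import Pool.Agent.NNb.Cls12
import Pool.Agent.NNb.Cnt
import Pool.Agent.NNb.SumVal

/-!
Module CLS1.  Triangles with largest angle different from `2π/3` and `π/2`.

By `three_valent` all valences are `≥ 4`.  `H2`, `H4` are vacuous.  `H3`: a node with `val = n - 1` on `i`
leaves `3` for the sum of `val - 2` over the at least two other nodes, each `≥ 2`.  Apply `cls12`.
-/

namespace Pool.Agent.NNb

namespace Sys3

variable {ι : Type} {n : ℕ}

theorem cls1 (S : Sys3 ι n) (hn : 22 ≤ n) (h1 : S.θ 2 ≠ 2 * Real.pi / 3)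
    (h2 : S.θ 2 ≠ Real.pi / 2) : False := by
  classical
  have h3v : ∀ i x, x ∈ S.N i → S.val x ≠ 3 := by
    intro i x hx hv
    rcases S.three_valent hx hv with h | h
    · exact h1 h.1
    · exact h2 h.1
  have h4v : ∀ i x, x ∈ S.N i → 4 ≤ S.val x := by
    intro i x hx
    have h5 := S.val_ge hx
    have h6 := h3v i x hx
    omega
  refine S.toSys.cls12 hn ?_ ?_ ?_
  · intro i x y hx hy hvx hvy
    exact absurd hvx (h3v i x hx)
  · intro i x hx hv
    have hs := S.sum_val i
    rw [← Finset.add_sum_erase _ _ hx] at hs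
    have hc : 3 ≤ (S.N i).card := S.card_ge i
    have hc' : ((S.N i).erase x).card = (S.N i).card - 1 := Finset.card_erase_of_mem hx
    have h5 : ((S.N i).erase x).card • 2 ≤ ∑ y ∈ (S.N i).erase x, (S.val y - 2) := by
      refine Finset.card_nsmul_le_sum _ _ _ ?_
      intro y hy
      have h6 := h4v i y (Finset.mem_of_mem_erase hy)
      omega
    rw [smul_eq_mul] at h5
    omega
  · intro g i j k hv _ _ _ hg _ _ _ _
    exact absurd hv (h3v i g hg)

end Sys3

end Pool.Agent.NNb
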