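import Pool.Agent.NNb.Defs

/-!
Node potentials (definitions only).
-/

namespace Pool.Agent.NNb

namespace Sys

variable {ι ν : Type} {m n : ℕ} (S : Sys ι ν m n)

/-- a node potential with zero sum at every node -/
def ZS (φ : ι → ν → ℝ) : Prop := ∀ i x, x ∈ S.N i → ∑ j ∈ S.tl x, φ j x = 0

/-- a bounded node potential -/
def Bdd (φ : ι → ν → ℝ) : Prop := ∃ B : ℝ, ∀ i x, x ∈ S.N i → |φ i x| ≤ B

end Sys

end Pool.Agent.NNb
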