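import Pool.Agent.NNb.Euler
import Pool.Agent.NNb.DischDefs

/-!
Module DISCH.  The discharging principle.

`discharge`: put `K i j = ∑_{x ∈ N i ∩ N j} (φ i x - φ j x) / val x` (for `i ≠ j`; `0` if `i = j`).  It is
antisymmetric, bounded (`|N i ∩ N j| ≤ 2` by `three`), and
`∑_{j ∈ nb i} K i j = ∑_{x ∈ N i} ∑_{j ∈ tl x} (φ i x - φ j x) / val x = ∑_{x ∈ N i} φ i x`
(the term `j = i` vanishes, `∑_{j ∈ tl x} φ j x = 0`, `|tl x| = val x`).  Apply `avg`.
`no_neg`: `δ = c / 2`.  `no_pos`: `-φ`.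
`no_neg_f`: add the potential `φ0 i x = 1 / val x - ang i x / (2 π)` (zero sum by `ang_node`, bounded
by `1`), use `euler`.
`ZS_add`, `Bdd_add`, `ZS_of_pairs`: routine.  `ZS_of_pairs`: the transfers
`φ j x = ∑_{i ∈ tl x} (σ x i j - σ x j i)` have zero sum.  `Bdd_of_pairs`: `|σ| ≤ B` gives
`|φ| ≤ 2 B (n + 1)` (`val_le`).
-/

namespace Pool.Agent.NNb

namespace Sys

variable {ι ν : Type} {m n : ℕ} (S : Sys ι ν m n)

theorem ZS_add {φ ψ : ι → ν → ℝ} (h : S.ZS φ) (h' : S.ZS ψ) :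
    S.ZS (fun i x => φ i x + ψ i x) := by
  intro i x hx
  rw [Finset.sum_add_distrib, h i x hx, h' i x hx, add_zero]

theorem Bdd_add {φ ψ : ι → ν → ℝ} (h : S.Bdd φ) (h' : S.Bdd ψ) :
    S.Bdd (fun i x => φ i x + ψ i x) := by
  obtain ⟨B, hB⟩ := h
  obtain ⟨B', hB'⟩ := h'
  exact ⟨B + B', fun i x hx => (abs_add_le _ _).trans (add_le_add (hB i x hx) (hB' i x hx))⟩

/-- transfers at the nodes: `σ x i j` is sent by `i` to `j` at the node `x` -/
theorem ZS_of_pairs (σ : ν → ι → ι → ℝ) :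
    S.ZS (fun j x => ∑ i ∈ S.tl x, (σ x i j - σ x j i)) := by
  intro i x _
  simp only [Finset.sum_sub_distrib]
  rw [Finset.sum_comm, sub_self]

theorem Bdd_of_pairs (σ : ν → ι → ι → ℝ) (B : ℝ) (hB : ∀ x i j, |σ x i j| ≤ B) :
    S.Bdd (fun j x => ∑ i ∈ S.tl x, (σ x i j - σ x j i)) := by
  refine ⟨((n : ℝ) + 1) * (2 * B), fun j x hx => ?_⟩
  have hB0 : 0 ≤ B := (abs_nonneg _).trans (hB x j j)
  have h1 : |∑ i ∈ S.tl x, (σ x i j - σ x j i)| ≤ ∑ i ∈ S.tl x, 2 * B := by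
    refine (Finset.abs_sum_le_sum_abs _ _).trans (Finset.sum_le_sum fun i _ => ?_)
    have := abs_sub (σ x i j) (σ x j i)
    have h2 := hB x i j
    have h3 := hB x j i
    linarith
  refine h1.trans ?_
  rw [Finset.sum_const, nsmul_eq_mul]
  apply mul_le_mul_of_nonneg_right _ (by linarith)
  have := S.val_le hx
  unfold val at this
  exact_mod_cast this

theorem discharge {φ : ι → ν → ℝ} (h : S.ZS φ) (hb : S.Bdd φ) {δ : ℝ} (hδ : 0 < δ) :
    ∃ i, -δ ≤ ∑ x ∈ S.N i, φ i x := by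
  classical
  obtain ⟨B, hB⟩ := hb
  set K : ι → ι → ℝ := fun i j => if i = j then 0 else
    ∑ x ∈ S.N i ∩ S.N j, (φ i x - φ j x) / (S.val x : ℝ) with hK
  have hanti : ∀ i j, K i j = - K j i := by
    intro i j
    simp only [hK]
    by_cases hij : i = j
    · subst hij; simp
    · rw [if_neg hij, if_neg (Ne.symm hij), Finset.inter_comm, ← Finset.sum_neg_distrib]
      apply Finset.sum_congr rfl
      intro x _
      ring
  have hcard : ∀ i j, i ≠ j → (S.N i ∩ S.N j).card ≤ 2 := by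
    intro i j hij
    by_contra hcon
    push Not at hcon
    obtain ⟨x, y, z, hx, hy, hz, hxy, hxz, hyz⟩ := Finset.two_lt_card_iff.1 hcon
    rw [Finset.mem_inter] at hx hy hz
    rcases S.three i j x y z hij hx.1 hy.1 hz.1 hx.2 hy.2 hz.2 with h1 | h1 | h1
    · exact hxy h1
    · exact hyz h1
    · exact hxz h1
  have hbd : ∃ B', ∀ i j, |K i j| ≤ B' := by
    refine ⟨4 * |B|, fun i j => ?_⟩
    simp only [hK]
    split_ifs with hij
    · simp
    · have h1 : |∑ x ∈ S.N i ∩ S.N j, (φ i x - φ j x) / (S.val x : ℝ)| ≤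
          ∑ x ∈ S.N i ∩ S.N j, 2 * |B| := by
        refine (Finset.abs_sum_le_sum_abs _ _).trans (Finset.sum_le_sum fun x hx => ?_)
        rw [Finset.mem_inter] at hx
        have hv : (1 : ℝ) ≤ S.val x := by
          have := S.val_ge hx.1
          exact_mod_cast (by omega : 1 ≤ S.val x)
        rw [abs_div, abs_of_pos (by linarith : (0 : ℝ) < S.val x), div_le_iff₀ (by linarith)]
        have h2 := hB i x hx.1
        have h3 := hB j x hx.2
        have h4 := abs_sub (φ i x) (φ j x)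
        have h5 := le_abs_self B
        have h6 : 0 ≤ |B| := abs_nonneg B
        nlinarith
      refine h1.trans ?_
      rw [Finset.sum_const, nsmul_eq_mul]
      have h2 : ((S.N i ∩ S.N j).card : ℝ) ≤ 2 := by exact_mod_cast hcard i j hij
      have h6 : 0 ≤ |B| := abs_nonneg B
      nlinarith
  obtain ⟨i, hi⟩ := S.avg K hanti hbd δ hδ
  refine ⟨i, hi.trans (le_of_eq ?_)⟩
  have hself : ∀ j ∈ S.nb i, K i j = ∑ x ∈ S.N i,
      if x ∈ S.N j then (φ i x - φ j x) / (S.val x : ℝ) else 0 := by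
    intro j hj
    have hji := ((S.mem_nb i j).1 hj).1
    simp only [hK]
    rw [if_neg (Ne.symm hji), ← Finset.sum_filter]
    apply Finset.sum_congr _ (fun _ _ => rfl)
    ext x
    simp [Finset.mem_inter]
  rw [Finset.sum_congr rfl hself, Finset.sum_comm]
  apply Finset.sum_congr rfl
  intro x hx
  have hv : (0 : ℝ) < S.val x := by
    have := S.val_ge hx
    exact_mod_cast (by omega : 0 < S.val x)
  have hset : (S.nb i).filter (fun j => x ∈ S.N j) = (S.tl x).erase i := by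
    ext j
    rw [Finset.mem_filter, Finset.mem_erase, S.mem_nb, S.mem_tl]
    constructor
    · rintro ⟨⟨h1, _⟩, h2⟩; exact ⟨h1, h2⟩
    · rintro ⟨h1, h2⟩; exact ⟨⟨h1, x, hx, h2⟩, h2⟩
  rw [← Finset.sum_filter, hset]
  have h1 : ∑ j ∈ (S.tl x).erase i, (φ i x - φ j x) / (S.val x : ℝ) =
      ∑ j ∈ S.tl x, (φ i x - φ j x) / (S.val x : ℝ) := by
    rw [← Finset.add_sum_erase _ _ ((S.mem_tl i x).2 hx), sub_self, zero_div, zero_add]
  rw [h1, ← Finset.sum_div, Finset.sum_sub_distrib, h i x hx, Finset.sum_const, nsmul_eq_mul,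
    sub_zero]
  have : ((S.tl x).card : ℝ) = S.val x := rfl
  rw [this]
  field_simp

theorem no_neg {φ : ι → ν → ℝ} (h : S.ZS φ) (hb : S.Bdd φ) {c : ℝ} (hc : 0 < c)
    (hneg : ∀ i, ∑ x ∈ S.N i, φ i x ≤ -c) : False := by
  obtain ⟨i, hi⟩ := S.discharge h hb (half_pos hc)
  have := hneg i
  linarith

theorem no_pos {φ : ι → ν → ℝ} (h : S.ZS φ) (hb : S.Bdd φ) {c : ℝ} (hc : 0 < c)
    (hpos : ∀ i, c ≤ ∑ x ∈ S.N i, φ i x) : False := by
  have h' : S.ZS (fun i x => - φ i x) := by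
    intro i x hx
    rw [Finset.sum_neg_distrib, h i x hx, neg_zero]
  have hb' : S.Bdd (fun i x => - φ i x) := by
    obtain ⟨B, hB⟩ := hb
    exact ⟨B, fun i x hx => by rw [abs_neg]; exact hB i x hx⟩
  apply S.no_neg h' hb' hc
  intro i
  rw [Finset.sum_neg_distrib]
  linarith [hpos i]

private theorem phi0_ZS : S.ZS (fun i x => 1 / (S.val x : ℝ) - S.ang i x / (2 * Real.pi)) := by
  intro i x hx
  have hv : (0 : ℝ) < S.val x := by
    have := S.val_ge hx
    exact_mod_cast (by omega : 0 < S.val x)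
  have hpi := Real.pi_pos
  have e1 : ∑ j ∈ S.tl x, S.ang j x / (2 * Real.pi) = (∑ j ∈ S.tl x, S.ang j x) / (2 * Real.pi) :=
    (Finset.sum_div _ _ _).symm
  have : ((S.tl x).card : ℝ) = S.val x := rfl
  rw [Finset.sum_sub_distrib, e1, S.ang_node i x hx, Finset.sum_const, nsmul_eq_mul, this]
  rw [mul_one_div_cancel hv.ne', div_self (by positivity), sub_self]

private theorem phi0_Bdd : S.Bdd (fun i x => 1 / (S.val x : ℝ) - S.ang i x / (2 * Real.pi)) := by
  refine ⟨1, fun i x hx => ?_⟩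
  have hv : (1 : ℝ) ≤ S.val x := by
    have := S.val_ge hx
    exact_mod_cast (by omega : 1 ≤ S.val x)
  have hpi := Real.pi_pos
  have h1 : 0 < 1 / (S.val x : ℝ) := by positivity
  have h2 : 1 / (S.val x : ℝ) ≤ 1 := by
    rw [div_le_one (by linarith)]; exact hv
  have h3 : 0 ≤ S.ang i x / (2 * Real.pi) := div_nonneg (S.ang_pos hx).le (by linarith)
  have h4 : S.ang i x / (2 * Real.pi) ≤ 1 := by
    rw [div_le_one (by linarith)]
    have := S.ang_le hx
    linarith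
  rw [abs_le]
  constructor <;> linarith

theorem no_neg_f {φ : ι → ν → ℝ} (h : S.ZS φ) (hb : S.Bdd φ) {c : ℝ} (hc : 0 < c)
    (hneg : ∀ i, S.f i + ∑ x ∈ S.N i, φ i x ≤ -c) : False := by
  apply S.no_neg (S.ZS_add S.phi0_ZS h) (S.Bdd_add S.phi0_Bdd hb) hc
  intro i
  rw [Finset.sum_add_distrib, ← S.euler i]
  exact hneg i

theorem no_neg_f' {c : ℝ} (hc : 0 < c) (hneg : ∀ i, S.f i ≤ -c) : False := by
  apply S.no_neg S.phi0_ZS S.phi0_Bdd hc
  intro i
  rw [← S.euler i]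
  exact hneg i

theorem no_pos_f' {c : ℝ} (hc : 0 < c) (hpos : ∀ i, c ≤ S.f i) : False := by
  apply S.no_pos S.phi0_ZS S.phi0_Bdd hc
  intro i
  rw [← S.euler i]
  exact hpos i

end Sys

end Pool.Agent.NNb
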