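import Pool.Agent.NNb.ADefs
import Pool.Agent.NNb.Disch

/-!
Module TRANSC.  Averaging over the three tiles at a node of valence 3.

`φ i g = (∑_{j ∈ tl g} w j) / 3 - w i` if `val g = 3`, `0` otherwise.  Zero sum since `|tl g| = 3`.
By `H2` a tile has at most one node of valence 3.
-/

namespace Pool.Agent.NNb

namespace Sys

variable {ι ν : Type} {n : ℕ}

theorem transC (S : Sys ι ν 3 n) (h2 : S.H2) (w : ι → ℝ) (hw : ∃ B, ∀ i, |w i| ≤ B) :
    ∃ φ : ι → ν → ℝ, S.ZS φ ∧ S.Bdd φ ∧
      (∀ i, (∀ x ∈ S.N i, S.val x ≠ 3) → ∑ x ∈ S.N i, φ i x = 0) ∧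
      (∀ i g, g ∈ S.N i → S.val g = 3 →
        ∑ x ∈ S.N i, φ i x = (∑ j ∈ S.tl g, w j) / 3 - w i) := by
  classical
  obtain ⟨B, hB⟩ := hw
  refine ⟨fun i g => if S.val g = 3 then (∑ j ∈ S.tl g, w j) / 3 - w i else 0, ?_, ?_, ?_, ?_⟩
  · intro i x _
    by_cases hx : S.val x = 3
    · have hc : ((S.tl x).card : ℝ) = 3 := by
        have : (S.tl x).card = 3 := hx
        rw [this]
        norm_num
      simp only [hx, if_true]
      rw [Finset.sum_sub_distrib, Finset.sum_const, nsmul_eq_mul, hc]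
      ring
    · simp [hx]
  · refine ⟨2 * |B|, fun i x _ => ?_⟩
    have hB' : ∀ j, |w j| ≤ |B| := fun j => (hB j).trans (le_abs_self B)
    by_cases hx : S.val x = 3
    · simp only [hx, if_true]
      have h1 : |(∑ j ∈ S.tl x, w j) / 3| ≤ |B| := by
        rw [abs_div, abs_of_pos (by norm_num : (0 : ℝ) < 3), div_le_iff₀ (by norm_num)]
        calc |∑ j ∈ S.tl x, w j| ≤ ∑ j ∈ S.tl x, |w j| := Finset.abs_sum_le_sum_abs _ _
          _ ≤ ∑ _j ∈ S.tl x, |B| := Finset.sum_le_sum fun j _ => hB' j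
          _ = |B| * 3 := by
              rw [Finset.sum_const, nsmul_eq_mul]
              have : ((S.tl x).card : ℝ) = 3 := by
                have : (S.tl x).card = 3 := hx
                rw [this]
                norm_num
              rw [this]
              ring
      calc |(∑ j ∈ S.tl x, w j) / 3 - w i| ≤ |(∑ j ∈ S.tl x, w j) / 3| + |w i| := abs_sub _ _
        _ ≤ |B| + |B| := add_le_add h1 (hB' i)
        _ = 2 * |B| := by ring
    · simp only [hx, if_false, abs_zero]
      positivity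
  · intro i hi
    exact Finset.sum_eq_zero fun x hx => if_neg (hi x hx)
  · intro i g hg hv
    rw [Finset.sum_eq_single g]
    · simp only [hv, if_true]
    · intro x hx hxg
      refine if_neg fun hx3 => hxg (h2 i x g hx hg hx3 hv)
    · intro h
      exact absurd hg h

end Sys

end Pool.Agent.NNb
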