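import Pool.Agent.NNb.AFar
import Pool.Agent.NNb.Disch

/-!
Module TRANSA.  The transfers of the `A`-tiles.

`transA`: `σ x i j = a/2` if `IsA i`, `i ≠ j`, `val x = 4`, and there is `y ≠ x`, `val y = 4` with
`x, y ∈ N i` and `x, y ∈ N j`; otherwise `0`.  `φ j x = ∑_{i ∈ tl x} (σ x i j - σ x j i)`.
Received by `j`: `(a/2) ·` number of pairs `(x, i)`; for given `(x, y)` the tile `i ≠ j` is unique
(`edge`), and for given `x, i` (`IsA i`, `j ≠ i`) the node `y` is unique (`three`, or because `IsA i` has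
only two 4-valent nodes), so this is `recA j · a/2`.  Sent by an `A`-tile `i` with 4-valent nodes `x, y`:
`a/2` at `x` and `a/2` at `y` (to the unique other tile containing `x, y`, `part_of_three`,
`part_other`).  (`n ≥ 15`, so `n - 2 ≠ 4`.)
`recA_le`: an ordered pair counted in `recA` is a partner pair of 4-valent nodes; every node has two
partners.  `recA_zero`, `recA_two`: ordered pairs of distinct elements of a set with `≤ 1`
respectively `2` elements.  `recA_three`: `A_far`.
-/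

namespace Pool.Agent.NNb

namespace Sys

variable {ι ν : Type} {n : ℕ}

private lemma A_nodes (S : Sys ι ν 3 n) (_hn : 15 ≤ n) {i : ι} (hA : S.IsA i) :
    ∃ h p q, h ≠ p ∧ h ≠ q ∧ p ≠ q ∧ (∀ x, x ∈ S.N i ↔ x = h ∨ x = p ∨ x = q) ∧
      S.val h + 2 = n ∧ S.val p = 4 ∧ S.val q = 4 := by
  classical
  obtain ⟨hc, h, hh, hv, hall⟩ := hA
  have hce : ((S.N i).erase h).card = 2 := by
    rw [Finset.card_erase_of_mem hh, hc]
  obtain ⟨p, q, hpq, hpqs⟩ := Finset.card_eq_two.mp hce
  have hp : p ∈ (S.N i).erase h := by rw [hpqs]; simp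
  have hq : q ∈ (S.N i).erase h := by rw [hpqs]; simp
  refine ⟨h, p, q, (Finset.ne_of_mem_erase hp).symm, (Finset.ne_of_mem_erase hq).symm, hpq, ?_, hv,
    hall p (Finset.mem_of_mem_erase hp) (Finset.ne_of_mem_erase hp),
    hall q (Finset.mem_of_mem_erase hq) (Finset.ne_of_mem_erase hq)⟩
  intro x
  constructor
  · intro hx
    by_cases hxh : x = h
    · exact Or.inl hxh
    · right
      have : x ∈ (S.N i).erase h := Finset.mem_erase.mpr ⟨hxh, hx⟩
      rw [hpqs] at this
      simpa using this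
  · rintro (rfl | rfl | rfl)
    · exact hh
    · exact Finset.mem_of_mem_erase hp
    · exact Finset.mem_of_mem_erase hq

private lemma A_four (S : Sys ι ν 3 n) (hn : 15 ≤ n) {i : ι} (hA : S.IsA i) {x y z : ν}
    (hx : x ∈ S.N i) (hy : y ∈ S.N i) (hz : z ∈ S.N i) (vx : S.val x = 4) (vy : S.val y = 4)
    (vz : S.val z = 4) (hxy : x ≠ y) (hxz : x ≠ z) : y = z := by
  obtain ⟨h, p, q, _, _, _, hN, hv, vp, vq⟩ := S.A_nodes hn hA
  have key : ∀ w, w ∈ S.N i → S.val w = 4 → w = p ∨ w = q := by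
    intro w hw vw
    rcases (hN w).mp hw with rfl | h1 | h1
    · omega
    · exact Or.inl h1
    · exact Or.inr h1
  rcases key x hx vx with rfl | rfl
  · rcases key y hy vy with rfl | rfl
    · exact absurd rfl hxy
    · rcases key z hz vz with rfl | rfl
      · exact absurd rfl hxz
      · rfl
  · rcases key y hy vy with rfl | rfl
    · rcases key z hz vz with rfl | rfl
      · rfl
      · exact absurd rfl hxz
    · exact absurd rfl hxy

private lemma sum_ite_unique {α : Type*} (s : Finset α) (P : α → Prop) [DecidablePred P]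
    [Decidable (∃ y ∈ s, P y)] (c : ℝ)
    (h : ∀ y ∈ s, ∀ y' ∈ s, P y → P y' → y = y') :
    ∑ y ∈ s, (if P y then c else 0) = if (∃ y ∈ s, P y) then c else 0 := by
  by_cases hex : ∃ y ∈ s, P y
  · rw [if_pos hex]
    obtain ⟨y, hy, hPy⟩ := hex
    rw [Finset.sum_eq_single y]
    · rw [if_pos hPy]
    · intro y' hy' hne
      exact if_neg fun hP => hne (h y' hy' y hy hP hPy)
    · intro h'
      exact absurd hy h'
  · rw [if_neg hex]
    refine Finset.sum_eq_zero fun y hy => if_neg fun hP => hex ⟨y, hy, hP⟩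

open Classical in
theorem transA (S : Sys ι ν 3 n) (hn : 15 ≤ n) (a : ℝ) (ha : 0 ≤ a) :
    ∃ φ : ι → ν → ℝ, S.ZS φ ∧ S.Bdd φ ∧
      ∀ i, ∑ x ∈ S.N i, φ i x = (S.recA i) * (a / 2) - (if S.IsA i then a else 0) := by
  set σ : ν → ι → ι → ℝ := fun x i j =>
    if S.IsA i ∧ i ≠ j ∧ S.val x = 4 ∧ x ∈ S.N i ∧ x ∈ S.N j ∧
      ∃ y, x ≠ y ∧ S.val y = 4 ∧ y ∈ S.N i ∧ y ∈ S.N j then a / 2 else 0 with hσ
  refine ⟨fun j x => ∑ i ∈ S.tl x, (σ x i j - σ x j i), S.ZS_of_pairs σ,
    S.Bdd_of_pairs σ (a / 2) ?_, ?_⟩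
  · intro x i j
    simp only [hσ]
    split_ifs
    · rw [abs_of_nonneg (by positivity)]
    · rw [abs_zero]
      positivity
  · intro j
    -- received
    have hrec : ∑ x ∈ S.N j, ∑ i ∈ S.tl x, σ x i j = (S.recA j) * (a / 2) := by
      have h1 : ∀ x ∈ S.N j, ∑ i ∈ S.tl x, σ x i j =
          ∑ y ∈ S.N j, if (x ≠ y ∧ S.val x = 4 ∧ S.val y = 4 ∧
            ∃ i, i ≠ j ∧ S.IsA i ∧ x ∈ S.N i ∧ y ∈ S.N i) then a / 2 else 0 := by
        intro x hx
        have h2 : ∀ i ∈ S.tl x, σ x i j = ∑ y ∈ S.N j,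
            if (S.IsA i ∧ i ≠ j ∧ S.val x = 4 ∧ x ∈ S.N i ∧ x ≠ y ∧ S.val y = 4 ∧ y ∈ S.N i)
              then a / 2 else 0 := by
          intro i _
          rw [sum_ite_unique (S.N j) (fun y => S.IsA i ∧ i ≠ j ∧ S.val x = 4 ∧ x ∈ S.N i ∧
            x ≠ y ∧ S.val y = 4 ∧ y ∈ S.N i)]
          · simp only [hσ]
            congr 1
            apply propext
            constructor
            · rintro ⟨q1, q2, q3, q4, _, y, q6, q7, q8, q9⟩
              exact ⟨y, q9, q1, q2, q3, q4, q6, q7, q8⟩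
            · rintro ⟨y, q9, q1, q2, q3, q4, q6, q7, q8⟩
              exact ⟨q1, q2, q3, q4, hx, y, q6, q7, q8, q9⟩
          · rintro y _ y' _ ⟨q1, _, q3, q4, q5, q6, q7⟩ ⟨_, _, _, _, r5, r6, r7⟩
            exact S.A_four hn q1 q4 q7 r7 q3 q6 r6 q5 r5
        rw [Finset.sum_congr rfl h2, Finset.sum_comm]
        refine Finset.sum_congr rfl fun y hy => ?_
        rw [sum_ite_unique (S.tl x) (fun i => S.IsA i ∧ i ≠ j ∧ S.val x = 4 ∧ x ∈ S.N i ∧
            x ≠ y ∧ S.val y = 4 ∧ y ∈ S.N i)]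
        · congr 1
          apply propext
          constructor
          · rintro ⟨i, _, q1, q2, q3, q4, q5, q6, q7⟩
            exact ⟨q5, q3, q6, i, q2, q1, q4, q7⟩
          · rintro ⟨q5, q3, q6, i, q2, q1, q4, q7⟩
            exact ⟨i, (S.mem_tl i x).mpr q4, q1, q2, q3, q4, q5, q6, q7⟩
        · rintro i _ i' _ ⟨q1, q2, q3, q4, q5, q6, q7⟩ ⟨r1, r2, r3, r4, r5, r6, r7⟩
          rcases S.edge x y i i' j q5 q4 q7 r4 r7 hx hy with h | h | h
          · exact h
          · exact absurd h r2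
          · exact absurd h q2
      rw [Finset.sum_congr rfl h1, ← Finset.sum_product', ← Finset.sum_filter, Finset.sum_const,
        nsmul_eq_mul]
      rfl
    -- sent
    have hsent : ∑ x ∈ S.N j, ∑ i ∈ S.tl x, σ x j i = if S.IsA j then a else 0 := by
      by_cases hA : S.IsA j
      · rw [if_pos hA]
        obtain ⟨h, p, q, hhp, hhq, hpq, hN, hv, vp, vq⟩ := S.A_nodes hn hA
        have hcard : (S.N j).card = 3 := hA.1
        have hNs : S.N j = {h, p, q} := by
          ext x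
          rw [hN x]
          simp
        have h0 : ∑ i ∈ S.tl h, σ h j i = 0 := by
          refine Finset.sum_eq_zero fun i _ => ?_
          simp only [hσ]
          rw [if_neg]
          rintro ⟨_, _, h4, _⟩
          omega
        have hside : ∀ x y, x ∈ S.N j → y ∈ S.N j → x ≠ y → S.val x = 4 → S.val y = 4 →
            ∑ i ∈ S.tl x, σ x j i = a / 2 := by
          intro x y hx hy hxy vx vy
          obtain ⟨k, hkj, hpk, huniq⟩ := S.part_other (S.part_of_three hcard hx hy hxy)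
          rw [Finset.sum_eq_single k]
          · simp only [hσ]
            rw [if_pos ⟨hA, hkj.symm, vx, hx, hpk.1, y, hxy, vy, hy, hpk.2.1⟩]
          · intro i _ hik
            simp only [hσ]
            rw [if_neg]
            rintro ⟨_, hji, _, _, hxi, y', hxy', vy', hy'j, hy'i⟩
            have : y = y' := S.A_four hn hA hx hy hy'j vx vy vy' hxy hxy'
            subst this
            rcases huniq i hxi hy'i with h1 | h1
            · exact hji h1.symm
            · exact hik h1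
          · intro hk
            exact absurd ((S.mem_tl k x).mpr hpk.1) hk
        have hp : p ∈ S.N j := (hN p).mpr (Or.inr (Or.inl rfl))
        have hq : q ∈ S.N j := (hN q).mpr (Or.inr (Or.inr rfl))
        rw [hNs, Finset.sum_insert (by simp [hhp, hhq]), Finset.sum_insert (by simp [hpq]),
          Finset.sum_singleton, h0, hside p q hp hq hpq vp vq, hside q p hq hp hpq.symm vq vp]
        ring
      · rw [if_neg hA]
        refine Finset.sum_eq_zero fun x _ => Finset.sum_eq_zero fun i _ => ?_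
        simp only [hσ]
        rw [if_neg]
        rintro ⟨h1, _⟩
        exact hA h1
    show ∑ x ∈ S.N j, ∑ i ∈ S.tl x, (σ x i j - σ x j i) = _
    have h3 : ∑ x ∈ S.N j, ∑ k ∈ S.tl x, (σ x k j - σ x j k) =
        ∑ x ∈ S.N j, ∑ k ∈ S.tl x, σ x k j - ∑ x ∈ S.N j, ∑ k ∈ S.tl x, σ x j k := by
      rw [← Finset.sum_sub_distrib]
      exact Finset.sum_congr rfl fun x _ => Finset.sum_sub_distrib _ _
    rw [h3, hrec, hsent]

private lemma recA_le_offDiag (S : Sys ι ν 3 n) (i : ι) :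
    S.recA i ≤ S.cv 4 i * S.cv 4 i - S.cv 4 i := by
  classical
  unfold recA cv
  have hle : (S.N i ×ˢ S.N i).filter (fun q => q.1 ≠ q.2 ∧ S.val q.1 = 4 ∧ S.val q.2 = 4 ∧
      ∃ k, k ≠ i ∧ S.IsA k ∧ q.1 ∈ S.N k ∧ q.2 ∈ S.N k) ⊆
      ((S.N i).filter (fun x => S.val x = 4)).offDiag := by
    intro q hq
    rw [Finset.mem_filter, Finset.mem_product] at hq
    rw [Finset.mem_offDiag, Finset.mem_filter, Finset.mem_filter]
    exact ⟨⟨hq.1.1, hq.2.2.1⟩, ⟨hq.1.2, hq.2.2.2.1⟩, hq.2.1⟩
  have h2 := Finset.card_le_card hle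
  rw [Finset.offDiag_card] at h2
  convert h2 using 2

theorem recA_le (S : Sys ι ν 3 n) (i : ι) : S.recA i ≤ 2 * S.cv 4 i := by
  classical
  unfold recA cv
  refine Finset.card_le_mul_card_image_of_maps_to (f := Prod.fst) ?_ 2 ?_
  · intro q hq
    rw [Finset.mem_filter, Finset.mem_product] at hq
    rw [Finset.mem_filter]
    exact ⟨hq.1.1, hq.2.2.1⟩
  · intro x hx
    rw [Finset.mem_filter] at hx
    obtain ⟨y, z, _, _, _, hpart⟩ := S.part i x hx.1
    refine (Finset.card_le_card (t := {(x, y), (x, z)}) ?_).trans Finset.card_le_two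
    intro q hq
    rw [Finset.mem_filter, Finset.mem_filter, Finset.mem_product] at hq
    obtain ⟨⟨⟨h1, h2⟩, hne, _, _, k, hki, _, hk1, hk2⟩, hqx⟩ := hq
    have hp : Part S.N i x q.2 := by
      rw [← hqx]
      exact ⟨h1, h2, hne, k, hki, hk1, hk2⟩
    have : q = (x, q.2) := by
      ext
      · exact hqx
      · rfl
    rw [this]
    rcases hpart q.2 hp with h | h
    · simp [h]
    · simp [h]

theorem recA_zero (S : Sys ι ν 3 n) (i : ι) (h : S.cv 4 i ≤ 1) : S.recA i = 0 := by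
  have h1 := S.recA_le_offDiag i
  have h2 : S.cv 4 i = 0 ∨ S.cv 4 i = 1 := by omega
  rcases h2 with h2 | h2 <;> rw [h2] at h1 <;> omega

theorem recA_two (S : Sys ι ν 3 n) (i : ι) (h : S.cv 4 i = 2) : S.recA i ≤ 2 := by
  have h1 := S.recA_le_offDiag i
  rw [h] at h1
  omega

theorem recA_three (S : Sys ι ν 3 n) (hn : 15 ≤ n) (h2 : S.H2) (i : ι)
    (h : (S.N i).card = 3) : S.recA i = 0 := by
  classical
  unfold recA
  rw [Finset.card_eq_zero, Finset.filter_eq_empty_iff]
  intro q hq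
  rw [Finset.mem_product] at hq
  rintro ⟨hne, v1, v2, k, hki, hA, hk1, hk2⟩
  have := S.A_far hn h2 hA hki hne hk1 hk2 v1 v2 hq.1 hq.2
  omega

end Sys

end Pool.Agent.NNb
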