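import Pool.Agent.NNb.SumVal
import Pool.Agent.NNb.ADefs
import Pool.Agent.NNb.Disch

/-!
Module TRANSB.  The transfers of the `B`-tiles (valences `n - 3, 5, 4`).

`parity5`: a general parity principle: at a 5-valent node `y` it is impossible that every tile `i` at
`y` has exactly three nodes exactly one of which, `e i ≠ y`, is 4-valent (say).  Proof: `{y, e i}` is a
partner pair on `i` (`part_of_three`); the other tile `i'` containing `y, e i` (`part_other`) has
`e i' = e i`.  So `i ↦ i'` is an involution without fixed points on `tl y`, which has 5 elements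
(`Finset.sum_involution` in `ZMod 2`, or `Finset.card_involution`-type lemmas): contradiction.
`B_parity`: special case.
`transB`: for each 5-valent node `y` choose `R y ∈ tl y` with `¬ IsB (R y)` (`B_parity`); for the other
points `R y` is arbitrary (`ι` is nonempty).  `σ y i j = b` if `val y = 5`, `IsB i`, `j = R y`, else `0`.
`φ = ∑ (σ y i j - σ y j i)` over `i ∈ tl y`.  A `B`-tile has exactly one 5-valent node (`n - 3 ≠ 5`) and
sends exactly `b` (as `R y ≠ i`); `j` receives at most `4 b` at each 5-valent node `y` with `R y = j`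
(the tiles of `tl y` different from `j`: 4).
-/

namespace Pool.Agent.NNb

namespace Sys

variable {ι ν : Type} {n : ℕ}

theorem parity5 (S : Sys ι ν 3 n) {y : ν} (hy : S.val y = 5) (Q : ν → Prop)
    (h : ∀ i ∈ S.tl y, (S.N i).card = 3 ∧ ∃ e ∈ S.N i, e ≠ y ∧ Q e ∧
      ∀ e' ∈ S.N i, e' ≠ y → Q e' → e' = e) : False := by
  classical
  have h' : ∀ i ∈ S.tl y, ∃ e, e ∈ S.N i ∧ e ≠ y ∧ Q e ∧
      ∀ e' ∈ S.N i, e' ≠ y → Q e' → e' = e := by
    intro i hi
    obtain ⟨_, e, he, h1, h2, h3⟩ := h i hi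
    exact ⟨e, he, h1, h2, h3⟩
  have : Nonempty ν := ⟨y⟩
  have : Nonempty ι := by
    have h5 : (S.tl y).card = 5 := hy
    obtain ⟨i, _⟩ := Finset.card_pos.mp (by rw [h5]; norm_num : 0 < (S.tl y).card)
    exact ⟨i⟩
  choose! e he using h'
  have hg : ∀ i ∈ S.tl y, ∃ j, j ∈ S.tl y ∧ j ≠ i ∧ e j = e i ∧
      ∀ k ∈ S.tl y, e i ∈ S.N k → k = i ∨ k = j := by
    intro i hi
    have hyi : y ∈ S.N i := (S.mem_tl i y).mp hi
    have hp := S.part_of_three (h i hi).1 hyi (he i hi).1 (he i hi).2.1.symm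
    obtain ⟨j, hji, hpj, huniq⟩ := S.part_other hp
    have hj : j ∈ S.tl y := (S.mem_tl j y).mpr hpj.1
    refine ⟨j, hj, hji, ((he j hj).2.2.2 (e i) hpj.2.1 (he i hi).2.1 (he i hi).2.2.1).symm, ?_⟩
    intro k hk hek
    exact huniq k ((S.mem_tl k y).mp hk) hek
  choose! g hg using hg
  have hinv : ∑ _x ∈ S.tl y, (1 : ZMod 2) = 0 := by
    refine Finset.sum_involution (fun a _ => g a) ?_ ?_ ?_ ?_
    · intro a _
      decide
    · intro a ha _
      exact (hg a ha).2.1
    · intro a ha
      exact (hg a ha).1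
    · intro a ha
      have hga := (hg a ha).1
      have h1 := (hg (g a) hga).2.2.2 a ha (by
        rw [(hg a ha).2.2.1]
        exact (he a ha).1)
      rcases h1 with h1 | h1
      · exact absurd h1.symm (hg a ha).2.1
      · exact h1.symm
  rw [Finset.sum_const] at hinv
  have hc : (S.tl y).card = 5 := hy
  rw [hc] at hinv
  revert hinv
  decide

private lemma B_nodes (S : Sys ι ν 3 n) (hn : 15 ≤ n) {i : ι} (h : S.IsB i) :
    ∃ a y w, a ∈ S.N i ∧ y ∈ S.N i ∧ w ∈ S.N i ∧ S.val a + 3 = n ∧ S.val y = 5 ∧ S.val w = 4 ∧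
      ∀ x ∈ S.N i, x = a ∨ x = y ∨ x = w := by
  classical
  obtain ⟨hc, a, y, w, ha, hy, hw, va, vy, vw⟩ := h
  refine ⟨a, y, w, ha, hy, hw, va, vy, vw, ?_⟩
  have hay : a ≠ y := by
    rintro rfl
    omega
  have haw : a ≠ w := by
    rintro rfl
    omega
  have hyw : y ≠ w := by
    rintro rfl
    omega
  have hsub : ({a, y, w} : Finset ν) ⊆ S.N i := by
    intro x hx
    simp only [Finset.mem_insert, Finset.mem_singleton] at hx
    rcases hx with rfl | rfl | rfl
    · exact ha
    · exact hy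
    · exact hw
  have hcard : ({a, y, w} : Finset ν).card = 3 := Finset.card_eq_three.mpr
    ⟨a, y, w, hay, haw, hyw, rfl⟩
  have heq := Finset.eq_of_subset_of_card_le hsub (by rw [hc, hcard])
  intro x hx
  rw [← heq] at hx
  simpa using hx

theorem B_parity (S : Sys ι ν 3 n) (hn : 15 ≤ n) {y : ν} (hy : S.val y = 5)
    (h : ∀ i ∈ S.tl y, S.IsB i) : False := by
  refine S.parity5 hy (fun x => S.val x = 4) fun i hi => ⟨(h i hi).1, ?_⟩
  obtain ⟨a, y', w, ha, hy', hw, va, vy, vw, hall⟩ := S.B_nodes hn (h i hi)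
  refine ⟨w, hw, ?_, vw, ?_⟩
  · rintro rfl
    omega
  · intro e' he' _ hv
    rcases hall e' he' with rfl | rfl | rfl
    · omega
    · omega
    · rfl

open Classical in
theorem transB (S : Sys ι ν 3 n) (hn : 15 ≤ n) (b : ℝ) (hb : 0 ≤ b) :
    ∃ (φ : ι → ν → ℝ) (R : ν → ι), S.ZS φ ∧ S.Bdd φ ∧ (∀ i, S.IsB i → S.rB R i = 0) ∧
      ∀ i, ∑ x ∈ S.N i, φ i x ≤ (S.rB R i) * (4 * b) - (if S.IsB i then b else 0) := by
  have hex : ∀ y : ν, ∃ r : ι, S.val y = 5 → (r ∈ S.tl y ∧ ¬ S.IsB r) := by
    intro y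
    by_cases hy : S.val y = 5
    · by_contra hcon
      push Not at hcon
      refine S.B_parity hn hy fun i hi => ?_
      exact (hcon i).2 hi
    · obtain ⟨i, _⟩ := S.avg (fun _ _ => 0) (fun _ _ => by simp) ⟨0, fun _ _ => by simp⟩ 1 one_pos
      exact ⟨i, fun h => absurd h hy⟩
  choose R hR using hex
  set σ : ν → ι → ι → ℝ := fun x i j => if S.val x = 5 ∧ S.IsB i ∧ j = R x then b else 0 with hσ
  refine ⟨fun j x => ∑ i ∈ S.tl x, (σ x i j - σ x j i), R, S.ZS_of_pairs σ,
    S.Bdd_of_pairs σ b ?_, ?_, ?_⟩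
  · intro x i j
    simp only [hσ]
    split_ifs
    · rw [abs_of_nonneg hb]
    · rw [abs_zero]
      exact hb
  · intro i hi
    unfold rB
    rw [Finset.card_eq_zero, Finset.filter_eq_empty_iff]
    rintro x _ ⟨hx5, hxi⟩
    have := (hR x hx5).2
    rw [hxi] at this
    exact this hi
  · intro i
    have h1 : ∀ x ∈ S.N i, ∑ k ∈ S.tl x, σ x k i ≤
        if S.val x = 5 ∧ R x = i then 4 * b else 0 := by
      intro x hx
      by_cases hc : S.val x = 5 ∧ R x = i
      · rw [if_pos hc]
        have hRi := hR x hc.1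
        rw [hc.2] at hRi
        have hbound : ∀ k ∈ S.tl x, σ x k i ≤ if k = i then 0 else b := by
          intro k _
          by_cases hk : k = i
          · rw [if_pos hk]
            simp only [hσ]
            rw [if_neg]
            rintro ⟨_, hB, _⟩
            rw [hk] at hB
            exact hRi.2 hB
          · rw [if_neg hk]
            simp only [hσ]
            split_ifs
            · exact le_rfl
            · exact hb
        refine (Finset.sum_le_sum hbound).trans ?_
        have hsplit : ∑ k ∈ S.tl x, (if k = i then (0 : ℝ) else b) =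
            ∑ k ∈ (S.tl x).erase i, b := by
          rw [← Finset.sum_erase_add _ _ hRi.1]
          rw [if_pos rfl, add_zero]
          refine Finset.sum_congr rfl fun k hk => ?_
          rw [if_neg (Finset.ne_of_mem_erase hk)]
        rw [hsplit, Finset.sum_const, Finset.card_erase_of_mem hRi.1]
        have hc5 : (S.tl x).card = 5 := hc.1
        rw [hc5]
        norm_num
      · rw [if_neg hc]
        refine le_of_eq (Finset.sum_eq_zero fun k _ => ?_)
        simp only [hσ]
        rw [if_neg]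
        rintro ⟨h5, _, hRx⟩
        exact hc ⟨h5, hRx.symm⟩
    have h2 : ∀ x ∈ S.N i, ∑ k ∈ S.tl x, σ x i k =
        if S.val x = 5 ∧ S.IsB i then b else 0 := by
      intro x hx
      by_cases hc : S.val x = 5 ∧ S.IsB i
      · rw [if_pos hc, Finset.sum_eq_single (R x)]
        · simp only [hσ]
          rw [if_pos ⟨hc.1, hc.2, trivial⟩]
        · intro k _ hk
          simp only [hσ]
          rw [if_neg]
          rintro ⟨_, _, h⟩
          exact hk h
        · intro h
          exact absurd (hR x hc.1).1 h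
      · rw [if_neg hc]
        refine Finset.sum_eq_zero fun k _ => ?_
        simp only [hσ]
        rw [if_neg]
        rintro ⟨h5, hB, _⟩
        exact hc ⟨h5, hB⟩
    have h3 : ∑ x ∈ S.N i, ∑ k ∈ S.tl x, (σ x k i - σ x i k) =
        ∑ x ∈ S.N i, ∑ k ∈ S.tl x, σ x k i - ∑ x ∈ S.N i, ∑ k ∈ S.tl x, σ x i k := by
      rw [← Finset.sum_sub_distrib]
      exact Finset.sum_congr rfl fun x _ => Finset.sum_sub_distrib _ _
    have h4 : ∑ x ∈ S.N i, ∑ k ∈ S.tl x, σ x k i ≤ (S.rB R i) * (4 * b) := by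
      refine (Finset.sum_le_sum h1).trans (le_of_eq ?_)
      rw [← Finset.sum_filter, Finset.sum_const, nsmul_eq_mul]
      rfl
    have h5 : (if S.IsB i then b else 0) ≤ ∑ x ∈ S.N i, ∑ k ∈ S.tl x, σ x i k := by
      have h50 : ∀ x ∈ S.N i, 0 ≤ ∑ k ∈ S.tl x, σ x i k := by
        intro x hx
        rw [h2 x hx]
        split_ifs
        · exact hb
        · exact le_rfl
      by_cases hB : S.IsB i
      · rw [if_pos hB]
        obtain ⟨a, y', w, ha, hy', hw, va, vy, vw, hall⟩ := S.B_nodes hn hB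
        refine le_trans ?_ (Finset.single_le_sum h50 hy')
        rw [h2 y' hy', if_pos ⟨vy, hB⟩]
      · rw [if_neg hB]
        exact Finset.sum_nonneg h50
    show ∑ x ∈ S.N i, ∑ k ∈ S.tl x, (σ x k i - σ x i k) ≤ _
    rw [h3]
    linarith

end Sys

end Pool.Agent.NNb
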