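import Pool.Agent.NNb.FPhi
import Pool.Agent.NNb.TransA
import Pool.Agent.NNb.TransB

/-!
Module WTHREE.  `n ≥ 22`: a cluster with two tiles with exactly three nodes.

`tl g = {i, j, k}`, `N i = {g, p, q}`, `N k = {g, p, w}`, `q, w ∈ N j`, `q ≠ w`, `|N j| ≥ 4`.
With `P = val p - 2`, `Q = val q - 2`: `∑ (val - 2) = n` for `i` and `k` gives `P + Q = n - 1` and
`val w = val q`.  `P, Q ≠ n - 3` (`H3`), so `P, Q ≥ 3`.  Let `M = N j \ {g, q, w}` (nonempty), all
`k ≥ 2` (`H2`), `∑_M k = r := n - 1 - 2 Q`, so `r ≥ 2`.  None of the tiles is of type `A` or `B`.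
`f i = f k = 5/6 - phi P - phi Q`, `f j = 5/6 - 2 phi Q - ∑_M phi k`.
Charges: `recA i = recA k = 0`; `recA j ≤ 2 q4` with `q4` the number of 4-valent nodes in `M`, `recA j = 0`
if `q4 ≤ 1`.  `rB`: the 5-valent nodes `y` with `R y ∈ {i, j, k}`: each is counted for one tile only, so
the three `rB` add up to at most the number of 5-valent nodes in `N i ∪ N j ∪ N k`
`= {g, p, q, w} ∪ M`: at most `2 [Q = 3] + [P = 3] + q5(M)`.
(a) `∑_M phi k - (51/1000) q4 [q4 ≥ 2] - (12/1000) q5(M) ≥ phi r - (12/1000) [r = 3]`: if `|M| = 1` this is an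
equality; if `|M| = t ≥ 2`: `∑_M phi ≥ (t - 1)/4 + phi (r - 2(t - 1))` (`conc_const`) and the charges are
`≤ (51/1000) t`: for `t = 2`, `phi r - phi (r - 2) ≤ 1/12` (`r ≥ 4`), for `t ≥ 3` use `phi r ≤ 1/2`,
`phi (r - 2 (t-1)) ≥ 1/4`.
(b) So the sum of the three `w` is at most
`15/6 - 2 phi P - 4 phi Q - phi r + (12/1000) (2 [Q = 3] + [P = 3] + [r = 3])`, with `P = n - 1 - Q`,
`r = n - 1 - 2 Q ≥ 2`, i.e.
`F = -1 + 2/(n + 1 - Q) + 4/(Q + 2) + 1/(n + 1 - 2 Q)` plus the last term.
`Q = 3`: `P = n - 4`, `r = n - 7 ≥ 15`: `-1/5 + 2/(n-2) + 1/(n - 5) + 24/1000 ≤ -1/5 + 1/10 + 1/17 + 24/1000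
< -1/100`.  `Q ≥ 4` (`2 Q ≤ n - 3`, so `P ≥ 11 > 3`): `4/(Q+2) ≤ 2/3` and `2/(n + 1 - Q) ≤ 4/(n + 5)`...
`F ≤ -1/10`: for `4 ≤ Q ≤ 6`: `F ≤ -1 + 2/17 + 2/3 + 1/11`; for `Q ≥ 7`: `F ≤ -1 + 4/27 + 4/9 + 1/4`.
-/

namespace Pool.Agent.NNb

/-- part (b): the final inequality -/
theorem WTHREE_num {n P Q r : ℕ} (hn : 22 ≤ n) (hP : P + Q + 1 = n) (hr : r + 2 * Q + 1 = n)
    (hQ : 3 ≤ Q) (hr2 : 2 ≤ r) :
    5 / 2 - 2 * phi P - 4 * phi Q - phi r + ((if Q = 3 then (2 : ℝ) else 0) +
      (if P = 3 then 1 else 0) + (if r = 3 then 1 else 0)) * (12 / 1000) ≤ -(1 / 100) := by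
  rw [phi_eq, phi_eq, phi_eq]
  have hPr : (P : ℝ) + 2 = n + 1 - Q := by
    have : ((P + Q + 1 : ℕ) : ℝ) = n := by rw [hP]
    push_cast at this; linarith
  have hrr : (r : ℝ) + 2 = n + 1 - 2 * Q := by
    have : ((r + 2 * Q + 1 : ℕ) : ℝ) = n := by rw [hr]
    push_cast at this; linarith
  have hP3 : P ≠ 3 := by omega
  rw [if_neg hP3]
  by_cases hQ3 : Q = 3
  · subst hQ3
    have hr3 : r ≠ 3 := by omega
    rw [if_neg hr3, if_pos rfl]
    have h1 : (20 : ℝ) ≤ (P : ℝ) + 2 := by
      have : 18 ≤ P := by omega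
      have : (18 : ℝ) ≤ P := by exact_mod_cast this
      linarith
    have h2 : (17 : ℝ) ≤ (r : ℝ) + 2 := by
      have : 15 ≤ r := by omega
      have : (15 : ℝ) ≤ r := by exact_mod_cast this
      linarith
    have h3 : 1 / ((P : ℝ) + 2) ≤ 1 / 20 := one_div_le_one_div_of_le (by norm_num) h1
    have h4 : 1 / ((r : ℝ) + 2) ≤ 1 / 17 := one_div_le_one_div_of_le (by norm_num) h2
    push_cast
    norm_num at h3 h4 ⊢
    linarith
  · rw [if_neg hQ3]
    have hr1 : (if r = 3 then (1 : ℝ) else 0) ≤ 1 := by split_ifs <;> norm_num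
    by_cases hQ6 : Q ≤ 6
    · have h1 : (17 : ℝ) ≤ (P : ℝ) + 2 := by
        have : 15 ≤ P := by omega
        have : (15 : ℝ) ≤ P := by exact_mod_cast this
        linarith
      have h2 : (11 : ℝ) ≤ (r : ℝ) + 2 := by
        have : 9 ≤ r := by omega
        have : (9 : ℝ) ≤ r := by exact_mod_cast this
        linarith
      have h5 : (6 : ℝ) ≤ (Q : ℝ) + 2 := by
        have : 4 ≤ Q := by omega
        have : (4 : ℝ) ≤ Q := by exact_mod_cast this
        linarith
      have h3 : 1 / ((P : ℝ) + 2) ≤ 1 / 17 := one_div_le_one_div_of_le (by norm_num) h1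
      have h4 : 1 / ((r : ℝ) + 2) ≤ 1 / 11 := one_div_le_one_div_of_le (by norm_num) h2
      have h6 : 1 / ((Q : ℝ) + 2) ≤ 1 / 6 := one_div_le_one_div_of_le (by norm_num) h5
      linarith
    · have h1 : (14 : ℝ) ≤ (P : ℝ) + 2 := by
        have : 12 ≤ P := by omega
        have : (12 : ℝ) ≤ P := by exact_mod_cast this
        linarith
      have h2 : (4 : ℝ) ≤ (r : ℝ) + 2 := by
        have : (2 : ℝ) ≤ r := by exact_mod_cast hr2
        linarith
      have h5 : (9 : ℝ) ≤ (Q : ℝ) + 2 := by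
        have : 7 ≤ Q := by omega
        have : (7 : ℝ) ≤ Q := by exact_mod_cast this
        linarith
      have h3 : 1 / ((P : ℝ) + 2) ≤ 1 / 14 := one_div_le_one_div_of_le (by norm_num) h1
      have h4 : 1 / ((r : ℝ) + 2) ≤ 1 / 4 := one_div_le_one_div_of_le (by norm_num) h2
      have h6 : 1 / ((Q : ℝ) + 2) ≤ 1 / 9 := one_div_le_one_div_of_le (by norm_num) h5
      linarith

theorem WTHREE_phi2 : phi 2 = 1 / 4 := by unfold phi; norm_num

theorem WTHREE_phi1 : phi 1 = 1 / 6 := by unfold phi; norm_num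

/-- part (a) -/
theorem WTHREE_a {ν : Type} (M : Finset ν) (k : ν → ℕ) (r q4 q5 : ℕ) (hM : M.Nonempty)
    (hk : ∀ x ∈ M, 2 ≤ k x) (hr : ∑ x ∈ M, k x = r)
    (h4 : q4 = (M.filter (fun x => k x = 2)).card) (h5 : q5 = (M.filter (fun x => k x = 3)).card)
    (c : ℝ) (hc0 : c ≤ 2 * q4) (hc1 : q4 ≤ 1 → c ≤ 0) :
    phi r - (if r = 3 then (1 : ℝ) else 0) * (12 / 1000) ≤
      ∑ x ∈ M, phi (k x) - c * (51 / 2000) - q5 * (12 / 1000) := by
  classical
  obtain ht | ht : M.card = 1 ∨ 2 ≤ M.card := by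
    have := hM.card_pos
    omega
  · obtain ⟨x, rfl⟩ := Finset.card_eq_one.1 ht
    rw [Finset.sum_singleton] at hr ⊢
    have hq4 : q4 ≤ 1 := by
      rw [h4]
      exact (Finset.card_filter_le _ _).trans (by simp)
    have hc := hc1 hq4
    have hq5 : (q5 : ℝ) = if r = 3 then (1 : ℝ) else 0 := by
      rw [h5, ← hr, Finset.filter_singleton]
      split_ifs <;> simp
    rw [hq5, hr]
    linarith
  · have hq : q4 + q5 ≤ M.card := by
      rw [h4, h5, ← Finset.card_union_of_disjoint]
      · apply Finset.card_le_card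
        intro x hx
        simp only [Finset.mem_union, Finset.mem_filter] at hx
        tauto
      · rw [Finset.disjoint_filter]
        intro x _ h h'
        omega
    have hqr : (q4 : ℝ) + q5 ≤ M.card := by exact_mod_cast hq
    have hq50 : (0 : ℝ) ≤ q5 := Nat.cast_nonneg _
    have hsum := conc_const M k 2 r hM hk hr
    rw [WTHREE_phi2] at hsum
    have hr2 : 2 * M.card ≤ r := by
      rw [← hr]
      calc 2 * M.card = ∑ x ∈ M, 2 := by rw [Finset.sum_const, smul_eq_mul, mul_comm]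
        _ ≤ _ := Finset.sum_le_sum hk
    have hi : (0 : ℝ) ≤ (if r = 3 then (1 : ℝ) else 0) := by split_ifs <;> norm_num
    obtain ht2 | ht3 : M.card = 2 ∨ 3 ≤ M.card := by omega
    · rw [ht2] at hsum hqr hr2
      obtain ⟨s, rfl⟩ : ∃ s, r = s + 2 := ⟨r - 2, by omega⟩
      have hs : 2 ≤ s := by omega
      have e1 : s + 2 - (2 - 1) * 2 = s := by omega
      rw [e1] at hsum
      have hsr : (2 : ℝ) ≤ s := by exact_mod_cast hs
      have hphi : phi (s + 2) - phi s ≤ 1 / 12 := by
        have := phi_incr 2 hs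
        have e2 : phi (2 + 2) - phi 2 = 1 / 12 := by unfold phi; norm_num
        linarith
      push_cast at hsum hqr
      linarith
    · have ht3r : (3 : ℝ) ≤ M.card := by exact_mod_cast ht3
      have h1 : (1 : ℝ) / 4 ≤ phi (r - (M.card - 1) * 2) := by
        rw [← WTHREE_phi2]
        apply phi_mono
        omega
      have h2 := phi_lt_half r
      linarith

namespace Sys

variable {ι ν : Type} {n : ℕ}

/-- upper bound of `w` without the negative terms -/
theorem WTHREE_w_le (S : Sys ι ν 3 n) (R : ν → ι) (i : ι) :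
    S.w R i ≤ S.f i + (S.recA i) * (51 / 2000) + (S.rB R i) * (12 / 1000) := by
  classical
  unfold w
  have h1 : (0 : ℝ) ≤ (if S.IsA i then 51 / 1000 else 0) := by split_ifs <;> norm_num
  have h2 : (0 : ℝ) ≤ (if S.IsB i then 3 / 1000 else 0) := by split_ifs <;> norm_num
  linarith

theorem w_cluster_two (S : Sys ι ν 3 n) (hn : 22 ≤ n) (h2 : S.H2) (h3 : S.H3) (R : ν → ι)
    {i j k : ι} {g p q v : ν} (hg3 : S.val g = 3) (hij : i ≠ j) (hjk : j ≠ k) (hik : i ≠ k)
    (hgi : g ∈ S.N i) (hgj : g ∈ S.N j) (hgk : g ∈ S.N k) (hci : (S.N i).card = 3)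
    (hck : (S.N k).card = 3) (hcj : 4 ≤ (S.N j).card) (hqv : q ≠ v)
    (hi : ∀ x, x ∈ S.N i ↔ x = g ∨ x = p ∨ x = q) (hk : ∀ x, x ∈ S.N k ↔ x = g ∨ x = p ∨ x = v)
    (hq : q ∈ S.N j) (hv : v ∈ S.N j) :
    S.w R i + S.w R j + S.w R k ≤ -(1 / 100) := by
  classical
  have eNi : S.N i = {g, p, q} := by ext x; rw [hi]; simp
  have eNk : S.N k = {g, p, v} := by ext x; rw [hk]; simp
  have hgp : g ≠ p := by
    rintro rfl
    rw [eNi] at hci
    have : ({g, g, q} : Finset ν).card ≤ 2 := by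
      rw [Finset.insert_eq_of_mem (by simp)]
      exact Finset.card_le_two
    omega
  have hgq : g ≠ q := by
    rintro rfl
    rw [eNi] at hci
    have : ({g, p, g} : Finset ν).card ≤ 2 := by
      rw [Finset.pair_comm, Finset.insert_eq_of_mem (by simp)]
      exact Finset.card_le_two
    omega
  have hpq : p ≠ q := by
    rintro rfl
    rw [eNi] at hci
    have : ({g, p, p} : Finset ν).card ≤ 2 := by
      rw [Finset.insert_eq_of_mem (a := p) (by simp)]
      exact Finset.card_le_two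
    omega
  have hgv : g ≠ v := by
    rintro rfl
    rw [eNk] at hck
    have : ({g, p, g} : Finset ν).card ≤ 2 := by
      rw [Finset.pair_comm, Finset.insert_eq_of_mem (by simp)]
      exact Finset.card_le_two
    omega
  have hpv : p ≠ v := by
    rintro rfl
    rw [eNk] at hck
    have : ({g, p, p} : Finset ν).card ≤ 2 := by
      rw [Finset.insert_eq_of_mem (a := p) (by simp)]
      exact Finset.card_le_two
    omega
  -- valences
  have hpi : p ∈ S.N i := (hi p).2 (Or.inr (Or.inl rfl))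
  have hqi : q ∈ S.N i := (hi q).2 (Or.inr (Or.inr rfl))
  have hvk : v ∈ S.N k := (hk v).2 (Or.inr (Or.inr rfl))
  have hval : ∀ {l x}, g ∈ S.N l → x ∈ S.N l → x ≠ g → 4 ≤ S.val x := by
    intro l x hgl hx hxg
    have h := S.val_ge hx
    have h' : S.val x ≠ 3 := fun e => hxg (h2 l x g hx hgl e hg3)
    omega
  have vp := hval hgi hpi hgp.symm
  have vq := hval hgi hqi hgq.symm
  have vv := hval hgk hvk hgv.symm
  obtain ⟨P, hP⟩ : ∃ P, S.val p = P + 2 := ⟨S.val p - 2, by omega⟩
  obtain ⟨Q, hQ⟩ : ∃ Q, S.val q = Q + 2 := ⟨S.val q - 2, by omega⟩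
  obtain ⟨V, hV⟩ : ∃ V, S.val v = V + 2 := ⟨S.val v - 2, by omega⟩
  have sNi : ∀ F : ν → ℝ, ∑ x ∈ S.N i, F x = F g + F p + F q := by
    intro F
    rw [eNi, Finset.sum_insert (by simp [hgp, hgq]), Finset.sum_insert (by simp [hpq]),
      Finset.sum_singleton]
    ring
  have sNk : ∀ F : ν → ℝ, ∑ x ∈ S.N k, F x = F g + F p + F v := by
    intro F
    rw [eNk, Finset.sum_insert (by simp [hgp, hgv]), Finset.sum_insert (by simp [hpv]),
      Finset.sum_singleton]
    ring
  have si := S.sum_val_real i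
  rw [sNi, hg3, hP, hQ] at si
  have sk := S.sum_val_real k
  rw [sNk, hg3, hP, hV] at sk
  push_cast at si sk
  have hPQ : P + Q + 1 = n := by
    have : ((P + Q + 1 : ℕ) : ℝ) = (n : ℝ) := by push_cast; linarith
    exact_mod_cast this
  have hVQ : V = Q := by
    have : (V : ℝ) = Q := by linarith
    exact_mod_cast this
  subst hVQ
  have hQ3 : 3 ≤ V := by
    have := h3 i p hpi
    omega
  -- the tile `j`
  set M : Finset ν := S.N j \ {g, q, v} with hM
  have hsub : ({g, q, v} : Finset ν) ⊆ S.N j := by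
    intro x hx
    simp only [Finset.mem_insert, Finset.mem_singleton] at hx
    rcases hx with rfl | rfl | rfl <;> assumption
  have hc3 : ({g, q, v} : Finset ν).card = 3 := by
    rw [Finset.card_insert_of_notMem (by simp [hgq, hgv]), Finset.card_pair hqv]
  have hMne : M.Nonempty := by
    rw [← Finset.card_pos, hM, Finset.card_sdiff_of_subset hsub, hc3]
    omega
  have sNj : ∀ F : ν → ℝ, ∑ x ∈ S.N j, F x = F g + F q + F v + ∑ x ∈ M, F x := by
    intro F
    rw [← Finset.sum_sdiff hsub, Finset.sum_insert (by simp [hgq, hgv]),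
      Finset.sum_insert (by simp [hqv]), Finset.sum_singleton]
    ring
  have hMmem : ∀ x ∈ M, x ∈ S.N j ∧ x ≠ g ∧ x ≠ q ∧ x ≠ v := by
    intro x hx
    rw [hM, Finset.mem_sdiff] at hx
    simpa only [Finset.mem_insert, Finset.mem_singleton, not_or] using hx
  have hM4 : ∀ x ∈ M, 4 ≤ S.val x := fun x hx => hval hgj (hMmem x hx).1 (hMmem x hx).2.1
  have sj := S.sum_val_real j
  rw [sNj, hg3, hQ, hV] at sj
  push_cast at sj
  set r : ℕ := ∑ x ∈ M, (S.val x - 2) with hr
  have hrr : (r : ℝ) = ∑ x ∈ M, ((S.val x : ℝ) - 2) := by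
    rw [hr, Nat.cast_sum]
    apply Finset.sum_congr rfl
    intro x hx
    have := hM4 x hx
    rw [Nat.cast_sub (by omega)]
    norm_num
  rw [← hrr] at sj
  have hrn : r + 2 * V + 1 = n := by
    have : ((r + 2 * V + 1 : ℕ) : ℝ) = (n : ℝ) := by push_cast; linarith
    exact_mod_cast this
  have hk2 : ∀ x ∈ M, 2 ≤ S.val x - 2 := fun x hx => by have := hM4 x hx; omega
  have hr2 : 2 ≤ r := by
    obtain ⟨x, hx⟩ := hMne
    calc 2 ≤ S.val x - 2 := hk2 x hx
      _ ≤ r := Finset.single_le_sum (f := fun x => S.val x - 2) (fun _ _ => Nat.zero_le _) hx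
  -- the functions `f`
  have e3 : S.val g - 2 = 1 := by rw [hg3]
  have eP : S.val p - 2 = P := by rw [hP]; rfl
  have eQ : S.val q - 2 = V := by rw [hQ]; rfl
  have eV : S.val v - 2 = V := by rw [hV]; rfl
  have fi := S.f_eq i
  rw [sNi, e3, eP, eQ, WTHREE_phi1] at fi
  have fk := S.f_eq k
  rw [sNk, e3, eP, eV, WTHREE_phi1] at fk
  have fj := S.f_eq j
  rw [sNj, e3, eQ, eV, WTHREE_phi1] at fj
  -- charges
  have ri := S.recA_three (by omega) h2 i hci
  have rk := S.recA_three (by omega) h2 k hck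
  have c4 : S.cv 4 j = (M.filter (fun x => S.val x - 2 = 2)).card := by
    unfold cv
    congr 1
    ext x
    simp only [Finset.mem_filter]
    constructor
    · rintro ⟨hx, hx4⟩
      refine ⟨?_, by omega⟩
      rw [hM, Finset.mem_sdiff]
      refine ⟨hx, ?_⟩
      simp only [Finset.mem_insert, Finset.mem_singleton]
      rintro (rfl | rfl | rfl) <;> omega
    · rintro ⟨hx, hx4⟩
      have := hM4 x hx
      exact ⟨(hMmem x hx).1, by omega⟩
  have hA := WTHREE_a M (fun x => S.val x - 2) r (S.cv 4 j)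
    ((M.filter (fun x => S.val x - 2 = 3)).card) hMne hk2 hr.symm c4 rfl (S.recA j)
    (by exact_mod_cast S.recA_le j)
    (fun h => by rw [S.recA_zero j h]; simp)
  -- the 5-valent nodes
  have hB : S.rB R i + S.rB R j + S.rB R k ≤ (if V = 3 then 2 else 0) + (if P = 3 then 1 else 0) +
      (M.filter (fun x => S.val x - 2 = 3)).card := by
    have hunion : S.rB R i + S.rB R j + S.rB R k =
        ((S.N i).filter (fun x => S.val x = 5 ∧ R x = i) ∪
          (S.N j).filter (fun x => S.val x = 5 ∧ R x = j) ∪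
          (S.N k).filter (fun x => S.val x = 5 ∧ R x = k)).card := by
      rw [Finset.card_union_of_disjoint, Finset.card_union_of_disjoint]
      · rfl
      · rw [Finset.disjoint_left]
        intro x hx hx'
        simp only [Finset.mem_filter] at hx hx'
        exact hij (hx.2.2.symm.trans hx'.2.2)
      · rw [Finset.disjoint_left]
        intro x hx hx'
        simp only [Finset.mem_filter, Finset.mem_union] at hx hx'
        rcases hx with hx | hx
        · exact hik (hx.2.2.symm.trans hx'.2.2)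
        · exact hjk (hx.2.2.symm.trans hx'.2.2)
    rw [hunion]
    have hsub2 : ((S.N i).filter (fun x => S.val x = 5 ∧ R x = i) ∪
          (S.N j).filter (fun x => S.val x = 5 ∧ R x = j) ∪
          (S.N k).filter (fun x => S.val x = 5 ∧ R x = k)) ⊆
        ((({q, v} : Finset ν).filter (fun _ => V = 3)) ∪
          (({p} : Finset ν).filter (fun _ => P = 3))) ∪ M.filter (fun x => S.val x - 2 = 3) := by
      intro x hx
      have hx' : (x ∈ S.N i ∨ x ∈ S.N j ∨ x ∈ S.N k) ∧ S.val x = 5 := by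
        simp only [Finset.mem_filter, Finset.mem_union] at hx
        tauto
      obtain ⟨hx1, hx5⟩ := hx'
      simp only [Finset.mem_filter, Finset.mem_union, Finset.mem_insert, Finset.mem_singleton]
      have hcase : x = g ∨ x = p ∨ x = q ∨ x = v ∨ x ∈ M := by
        rcases hx1 with h | h | h
        · rcases (hi x).1 h with h | h | h <;> simp [h]
        · by_cases hxm : x ∈ ({g, q, v} : Finset ν)
          · simp only [Finset.mem_insert, Finset.mem_singleton] at hxm
            rcases hxm with h | h | h <;> simp [h]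
          · right; right; right; right
            rw [hM, Finset.mem_sdiff]
            exact ⟨h, hxm⟩
        · rcases (hk x).1 h with h | h | h <;> simp [h]
      rcases hcase with rfl | rfl | rfl | rfl | h
      · omega
      · left; right
        exact ⟨rfl, by omega⟩
      · left; left
        exact ⟨Or.inl rfl, by omega⟩
      · left; left
        exact ⟨Or.inr rfl, by omega⟩
      · right
        exact ⟨h, by omega⟩
    refine (Finset.card_le_card hsub2).trans ?_
    refine (Finset.card_union_le _ _).trans ?_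
    refine Nat.add_le_add_right ((Finset.card_union_le _ _).trans ?_) _
    apply Nat.add_le_add
    · by_cases h : V = 3
      · simp only [h, if_true]
        exact (Finset.card_filter_le _ _).trans Finset.card_le_two
      · simp [h]
    · by_cases h : P = 3
      · simp only [h, if_true]
        exact (Finset.card_filter_le _ _).trans (by simp)
      · simp [h]
  have hBr : (S.rB R i : ℝ) + S.rB R j + S.rB R k ≤ (if V = 3 then (2 : ℝ) else 0) +
      (if P = 3 then 1 else 0) + (M.filter (fun x => S.val x - 2 = 3)).card := by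
    have := (Nat.cast_le (α := ℝ)).2 hB
    push_cast at this
    exact this
  have wi := S.WTHREE_w_le R i
  have wj := S.WTHREE_w_le R j
  have wk := S.WTHREE_w_le R k
  rw [ri] at wi
  rw [rk] at wk
  push_cast at wi wk
  have hnum := WTHREE_num hn hPQ hrn hQ3 hr2
  rw [fi] at wi
  rw [fk] at wk
  rw [fj] at wj
  linarith

end Sys

end Pool.Agent.NNb
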