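import Pool.Agent.NNb.FPhi
import Pool.Agent.NNb.TransA
import Pool.Agent.NNb.TransB

/-!
Module WTWO.  `n ≥ 22`: the value `w` of a tile with exactly one node `g` of valence 3 (`H2`).

All other `k = val - 2` are `≥ 2`, their sum is `n - 1`.  Not of type `A` or `B`.
`w_cluster4` (`s = |N i| ≥ 4`): with `q4 = cv 4`, `q5 = cv 5`, `rB ≤ q5`:
* `s = 4` (three others, sum `n - 1 ≥ 21`): `q4 = 3` is impossible.  `q4 = 2`: the last is `n - 5 ≥ 17`,
  `f = 1 - 1/6 - 1/2 - phi (n - 5) = -1/6 + 1/(n - 3)`, `recA ≤ 2` (`recA_two`), `rB = 0`: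
  `w ≤ -1/6 + 1/19 + 51/1000`.  `q4 ≤ 1`: `recA = 0`, `f ≤ 1 - 1/6 - 1/4 - 3/10 - phi (n - 6)`
  (`conc` with `l = 1, 2, 3, 3`, `L = 3`), `rB ≤ 2`: `w ≤ -13/60 + 1/18 + 24/1000`.
* `s = 5`: `f ≤ 1 - 1/6 - 3/4 - phi (n - 7) = 1/12 - 1/2 + 1/(n - 5)`, charges `≤ 4 · 51/1000`.
* `s ≥ 6`: `f ≤ 5/6 - (s - 2)/4 - 1/4`, charges `≤ (s - 1) 51/1000`.
`w_cluster3` (`|N i| = 3`): `recA = 0`; the two others have `k1 + k2 = n - 1`, none of them is `n - 3`
(`H3`), so both are `≥ 3`: `f ≤ 5/6 - 3/10 - phi (n - 4) = 1/30 + 1/(n - 2)`, `rB ≤ 1`.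
-/

namespace Pool.Agent.NNb

namespace Sys

variable {ι ν : Type} {n : ℕ}

private theorem w_le (S : Sys ι ν 3 n) (R : ν → ι) (i : ι) :
    S.w R i ≤ S.f i + (S.recA i) * (51 / 2000) + (S.rB R i) * (12 / 1000) := by
  unfold w
  split_ifs <;> linarith

open Classical in
private theorem rB_le (S : Sys ι ν 3 n) (R : ν → ι) (i : ι) : S.rB R i ≤ S.cv 5 i := by
  unfold rB cv
  apply Finset.card_le_card
  intro x hx
  rw [Finset.mem_filter] at hx ⊢
  exact ⟨hx.1, hx.2.1⟩

open Classical in
private theorem rest (S : Sys ι ν 3 n) (h2 : S.H2) (i : ι) (g : ν) (hg : g ∈ S.N i)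
    (hg3 : S.val g = 3) :
    S.f i = 5 / 6 - ∑ x ∈ (S.N i).erase g, phi (S.val x - 2) ∧
      1 + ∑ x ∈ (S.N i).erase g, (S.val x - 2) = n ∧
      (∀ x ∈ (S.N i).erase g, 2 ≤ S.val x - 2) ∧ ((S.N i).erase g).card + 1 = (S.N i).card ∧
      (∀ v, v ≠ 3 → (S.N i).filter (fun x => S.val x = v) ⊆ (S.N i).erase g) := by
  refine ⟨?_, ?_, ?_, ?_, ?_⟩
  · rw [S.f_eq, ← Finset.add_sum_erase _ _ hg, hg3]
    have : phi (3 - 2) = 1 / 6 := by unfold phi; norm_num
    rw [this]
    ring
  · have := S.sum_val i
    rw [← Finset.add_sum_erase _ _ hg, hg3] at this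
    exact this
  · intro x hx
    rw [Finset.mem_erase] at hx
    have h3 := S.val_ge hx.2
    have h4 : S.val x ≠ 3 := fun h => hx.1 (h2 i x g hx.2 hg h hg3)
    omega
  · have := Finset.card_erase_add_one hg
    exact this
  · intro v hv x hx
    rw [Finset.mem_filter] at hx
    rw [Finset.mem_erase]
    refine ⟨?_, hx.1⟩
    rintro rfl
    exact hv (hx.2.symm.trans hg3)

private theorem phi2 : phi 2 = 1 / 4 := by unfold phi; norm_num

private theorem phi3 : phi 3 = 3 / 10 := by unfold phi; norm_num

open Classical in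
private theorem cvcard (S : Sys ι ν 3 n) (i : ι) (g : ν) (hg : g ∈ S.N i) (hg3 : S.val g = 3) :
    S.cv 4 i + S.cv 5 i + 1 ≤ (S.N i).card := by
  unfold cv
  have hd : Disjoint ((S.N i).filter (fun x => S.val x = 4))
      ((S.N i).filter (fun x => S.val x = 5)) := by
    rw [Finset.disjoint_left]
    intro x hx hx'
    rw [Finset.mem_filter] at hx hx'
    omega
  rw [← Finset.card_union_of_disjoint hd, ← Finset.card_erase_add_one hg]
  apply Nat.add_le_add_right
  apply Finset.card_le_card
  intro x hx
  rw [Finset.mem_union, Finset.mem_filter, Finset.mem_filter] at hx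
  rw [Finset.mem_erase]
  rcases hx with hx | hx
  · refine ⟨?_, hx.1⟩
    rintro rfl
    omega
  · refine ⟨?_, hx.1⟩
    rintro rfl
    omega

theorem w_cluster4 (S : Sys ι ν 3 n) (hn : 22 ≤ n) (h2 : S.H2) (R : ν → ι)
    (i : ι) (g : ν) (hg : g ∈ S.N i) (hg3 : S.val g = 3) (hc : 4 ≤ (S.N i).card) :
    S.w R i ≤ -(63 / 1000) := by
  classical
  obtain ⟨hf, hs, hk, hcd, hfil⟩ := rest S h2 i g hg hg3
  have hw := w_le S R i
  have hrB := rB_le S R i
  have hcv := cvcard S i g hg hg3
  have hrA := S.recA_le i
  set N' := (S.N i).erase g with hN'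
  have hN'ne : N'.Nonempty := by
    rw [← Finset.card_pos]
    omega
  have hsum : ∑ x ∈ N', (S.val x - 2) = n - 1 := by omega
  have hconc := conc_const N' (fun x => S.val x - 2) 2 (n - 1) hN'ne hk hsum
  have hn' : (22 : ℝ) ≤ n := by exact_mod_cast hn
  have rAr : (S.recA i : ℝ) ≤ 2 * S.cv 4 i := by exact_mod_cast hrA
  have rBr : (S.rB R i : ℝ) ≤ S.cv 5 i := by exact_mod_cast hrB
  have c4 : (0 : ℝ) ≤ S.cv 4 i := Nat.cast_nonneg _
  have c5 : (0 : ℝ) ≤ S.cv 5 i := Nat.cast_nonneg _
  rw [phi2] at hconc
  have hmin : N'.card * 2 ≤ n - 1 := by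
    rw [← hsum]
    have := Finset.card_nsmul_le_sum N' (fun x => S.val x - 2) 2 hk
    simpa using this
  rcases Nat.lt_or_ge (S.N i).card 6 with hlt | hge
  · have hcase : (S.N i).card = 4 ∨ (S.N i).card = 5 := by omega
    rcases hcase with h4 | h5
    · -- four nodes
      have hcN : N'.card = 3 := by omega
      rw [hcN] at hconc
      rcases Nat.lt_or_ge (S.cv 4 i) 2 with hq | hq
      · -- at most one 4-valent node
        have hrA0 : S.recA i = 0 := S.recA_zero i (by omega)
        -- choose x0
        have hx0 : ∃ x0 ∈ N', ∀ x ∈ N', x ≠ x0 → 3 ≤ S.val x - 2 := by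
          by_cases hex : ∃ x ∈ N', S.val x - 2 = 2
          · obtain ⟨x0, hx0, hx02⟩ := hex
            refine ⟨x0, hx0, ?_⟩
            intro x hx hne
            by_contra hcon
            have hx2 : S.val x - 2 = 2 := by
              have := hk x hx
              omega
            have hsub : ({x0, x} : Finset ν) ⊆ (S.N i).filter (fun x => S.val x = 4) := by
              intro y hy
              rw [Finset.mem_insert, Finset.mem_singleton] at hy
              rw [Finset.mem_filter]
              rcases hy with rfl | rfl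
              · exact ⟨Finset.mem_of_mem_erase hx0, by omega⟩
              · exact ⟨Finset.mem_of_mem_erase hx, by omega⟩
            have hcc := Finset.card_le_card hsub
            rw [Finset.card_pair (Ne.symm hne)] at hcc
            unfold cv at hq
            omega
          · obtain ⟨x0, hx0⟩ := hN'ne
            refine ⟨x0, hx0, ?_⟩
            intro x hx _
            have h3 := hk x hx
            have h4 : S.val x - 2 ≠ 2 := fun h => hex ⟨x, hx, h⟩
            omega
        obtain ⟨x0, hx0, hx03⟩ := hx0
        have hlsum : ∑ x ∈ N', (if x = x0 then 2 else 3) = 8 := by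
          rw [← Finset.add_sum_erase _ _ hx0, if_pos rfl]
          have : ∑ x ∈ N'.erase x0, (if x = x0 then 2 else 3) = ∑ x ∈ N'.erase x0, 3 := by
            apply Finset.sum_congr rfl
            intro x hx
            rw [if_neg (Finset.ne_of_mem_erase hx)]
          rw [this, Finset.sum_const, Finset.card_erase_of_mem hx0, hcN]
          norm_num
        have hcc := conc N' (fun x => S.val x - 2) (fun x => if x = x0 then 2 else 3) 3 (n - 9)
          (by
            intro x hx
            split_ifs with h
            · exact hk x hx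
            · exact hx03 x hx h)
          (by
            intro x _
            split_ifs <;> omega)
          (by rw [hlsum, hsum]; omega)
        have hlphi : ∑ x ∈ N', phi (if x = x0 then 2 else 3) = 1 / 4 + 2 * (3 / 10) := by
          rw [← Finset.add_sum_erase _ _ hx0, if_pos rfl, phi2]
          have : ∑ x ∈ N'.erase x0, phi (if x = x0 then 2 else 3) =
              ∑ x ∈ N'.erase x0, (3 / 10 : ℝ) := by
            apply Finset.sum_congr rfl
            intro x hx
            rw [if_neg (Finset.ne_of_mem_erase hx), phi3]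
          rw [this, Finset.sum_const, Finset.card_erase_of_mem hx0, hcN]
          norm_num
        rw [hlphi, phi3, phi_eq] at hcc
        have he : ((3 + (n - 9) : ℕ) : ℝ) = (n : ℝ) - 6 := by
          have : 3 + (n - 9) = n - 6 := by omega
          rw [this, Nat.cast_sub (by omega)]
          norm_num
        rw [he] at hcc
        have hinv : 1 / ((n : ℝ) - 6 + 2) ≤ 1 / 18 :=
          one_div_le_one_div_of_le (by norm_num) (by linarith)
        have hcv5 : (S.cv 5 i : ℝ) ≤ 3 := by
          have : S.cv 5 i ≤ 3 := by omega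
          exact_mod_cast this
        rw [hrA0] at hw
        push_cast at hw
        linarith
      · -- two 4-valent nodes
        have hq2 : S.cv 4 i = 2 := by
          by_contra hne
          have h3 : 3 ≤ S.cv 4 i := by omega
          have hsub := hfil 4 (by norm_num)
          have heq : (S.N i).filter (fun x => S.val x = 4) = N' := by
            apply Finset.eq_of_subset_of_card_le hsub
            rw [hcN]
            exact h3
          have h6 : ∑ x ∈ N', (S.val x - 2) = ∑ x ∈ N', 2 := by
            apply Finset.sum_congr rfl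
            intro x hx
            rw [← heq, Finset.mem_filter] at hx
            rw [hx.2]
          rw [Finset.sum_const, hcN, hsum] at h6
          simp at h6
          omega
        have hcv50 : S.cv 5 i = 0 := by
          by_contra hne
          have hex : ∃ y, y ∈ (S.N i).filter (fun x => S.val x = 5) := by
            have : 0 < ((S.N i).filter (fun x => S.val x = 5)).card := Nat.pos_of_ne_zero hne
            exact Finset.card_pos.1 this
          obtain ⟨y, hy⟩ := hex
          have hyN := hfil 5 (by norm_num) hy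
          rw [Finset.mem_filter] at hy
          have hsub := hfil 4 (by norm_num)
          have hy4 : y ∉ (S.N i).filter (fun x => S.val x = 4) := by
            rw [Finset.mem_filter]
            rintro ⟨_, h⟩
            omega
          have heq : insert y ((S.N i).filter (fun x => S.val x = 4)) = N' := by
            apply Finset.eq_of_subset_of_card_le
            · intro z hz
              rw [Finset.mem_insert] at hz
              rcases hz with rfl | hz
              · exact hyN
              · exact hsub hz
            · rw [hcN, Finset.card_insert_of_notMem hy4]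
              unfold cv at hq2
              omega
          rw [← heq, Finset.sum_insert hy4] at hsum
          have h6 : ∑ x ∈ (S.N i).filter (fun x => S.val x = 4), (S.val x - 2) =
              ∑ x ∈ (S.N i).filter (fun x => S.val x = 4), 2 := by
            apply Finset.sum_congr rfl
            intro x hx
            rw [Finset.mem_filter] at hx
            rw [hx.2]
          rw [h6, Finset.sum_const, hy.2] at hsum
          unfold cv at hq2
          rw [hq2] at hsum
          simp at hsum
          omega
        have hrA2 := S.recA_two i hq2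
        have rA2 : (S.recA i : ℝ) ≤ 2 := by exact_mod_cast hrA2
        rw [hcv50] at rBr
        push_cast at rBr hconc
        rw [phi_eq] at hconc
        have he : ((n - 1 - (3 - 1) * 2 : ℕ) : ℝ) = (n : ℝ) - 5 := by
          have : n - 1 - (3 - 1) * 2 = n - 5 := by omega
          rw [this, Nat.cast_sub (by omega)]
          norm_num
        rw [he] at hconc
        have hinv : 1 / ((n : ℝ) - 5 + 2) ≤ 1 / 19 :=
          one_div_le_one_div_of_le (by norm_num) (by linarith)
        have : (1 : ℝ) / 19 < 52632 / 1000000 := by norm_num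
        linarith
    · -- five nodes
      have hcN : N'.card = 4 := by omega
      rw [hcN, phi_eq] at hconc
      have he : ((n - 1 - (4 - 1) * 2 : ℕ) : ℝ) = (n : ℝ) - 7 := by
        have : n - 1 - (4 - 1) * 2 = n - 7 := by omega
        rw [this, Nat.cast_sub (by omega)]
        norm_num
      rw [he] at hconc
      have hinv : 1 / ((n : ℝ) - 7 + 2) ≤ 1 / 17 :=
        one_div_le_one_div_of_le (by norm_num) (by linarith)
      have hcv' : (S.cv 4 i : ℝ) + S.cv 5 i ≤ 4 := by
        have : S.cv 4 i + S.cv 5 i ≤ 4 := by omega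
        exact_mod_cast this
      push_cast at hconc
      linarith
  · -- at least six nodes
    have hlast : (1 : ℝ) / 4 ≤ phi (n - 1 - (N'.card - 1) * 2) := by
      rw [← phi2]
      apply phi_mono
      omega
    have hcv' : (S.cv 4 i : ℝ) + S.cv 5 i ≤ N'.card := by
      have : S.cv 4 i + S.cv 5 i ≤ N'.card := by omega
      exact_mod_cast this
    have hc5 : (5 : ℝ) ≤ N'.card := by
      have : 5 ≤ N'.card := by omega
      exact_mod_cast this
    linarith

theorem w_cluster3 (S : Sys ι ν 3 n) (hn : 22 ≤ n) (h2 : S.H2) (h3 : S.H3) (R : ν → ι)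
    (i : ι) (g : ν) (hg : g ∈ S.N i) (hg3 : S.val g = 3) (hc : (S.N i).card = 3) :
    S.w R i ≤ 96 / 1000 := by
  classical
  obtain ⟨hf, hs, hk, hcd, hfil⟩ := rest S h2 i g hg hg3
  have hw := w_le S R i
  have hrB := rB_le S R i
  set N' := (S.N i).erase g with hN'
  have hcN : N'.card = 2 := by omega
  obtain ⟨x, y, hxy, hNxy⟩ := Finset.card_eq_two.1 hcN
  have hx : x ∈ N' := by rw [hNxy]; simp
  have hy : y ∈ N' := by rw [hNxy]; simp
  have hsum : ∑ x ∈ N', (S.val x - 2) = n - 1 := by omega
  have hsum2 := hsum
  rw [hNxy, Finset.sum_pair hxy] at hsum2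
  have kx := hk x hx
  have ky := hk y hy
  have vx := h3 i x (Finset.mem_of_mem_erase hx)
  have vy := h3 i y (Finset.mem_of_mem_erase hy)
  have kx3 : 3 ≤ S.val x - 2 := by omega
  have ky3 : 3 ≤ S.val y - 2 := by omega
  have hcv4 : S.cv 4 i = 0 := by
    unfold cv
    rw [Finset.card_eq_zero, Finset.filter_eq_empty_iff]
    intro z hz hz4
    have hzN : z ∈ N' := hfil 4 (by norm_num) (by rw [Finset.mem_filter]; exact ⟨hz, hz4⟩)
    rw [hNxy, Finset.mem_insert, Finset.mem_singleton] at hzN
    rcases hzN with rfl | rfl <;> omega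
  have hrA0 : S.recA i = 0 := S.recA_zero i (by omega)
  have hcv5 : S.cv 5 i ≤ 1 := by
    by_contra hcon
    have h2' : 2 ≤ S.cv 5 i := by omega
    have heq : (S.N i).filter (fun x => S.val x = 5) = N' := by
      apply Finset.eq_of_subset_of_card_le (hfil 5 (by norm_num))
      rw [hcN]
      exact h2'
    rw [← heq, Finset.mem_filter] at hx hy
    omega
  have hconc := conc_const N' (fun x => S.val x - 2) 3 (n - 1) ⟨x, hx⟩ (by
    intro z hz
    rw [hNxy, Finset.mem_insert, Finset.mem_singleton] at hz
    rcases hz with rfl | rfl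
    · exact kx3
    · exact ky3) hsum
  rw [hcN, phi3, phi_eq] at hconc
  have he : ((n - 1 - (2 - 1) * 3 : ℕ) : ℝ) = (n : ℝ) - 4 := by
    have : n - 1 - (2 - 1) * 3 = n - 4 := by omega
    rw [this, Nat.cast_sub (by omega)]
    norm_num
  rw [he] at hconc
  have hn' : (22 : ℝ) ≤ n := by exact_mod_cast hn
  have hinv : 1 / ((n : ℝ) - 4 + 2) ≤ 1 / 20 :=
    one_div_le_one_div_of_le (by norm_num) (by linarith)
  have rBr : (S.rB R i : ℝ) ≤ 1 := by
    have : S.rB R i ≤ 1 := hrB.trans hcv5
    exact_mod_cast this
  rw [hrA0] at hw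
  push_cast at hw hconc
  linarith

end Sys

end Pool.Agent.NNb
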