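import Pool.Agent.NNb.WOne
import Pool.Agent.NNb.WTwo
import Pool.Agent.NNb.WThree
import Pool.Agent.NNb.TransC

/-!
Module CLS12.  Triangles with `H2`, `H3`, `H4`, `n ≥ 22`: contradiction.

Take `φA` from `transA` with `a = 51/1000`, `φB`, `R` from `transB` with `b = 3/1000`,
`w = S.w R` (`f i + ∑ φA + ∑ φB ≤ w i`, bounded), `φC` from `transC` for `w`.  Total value of a tile
`f + ∑ φA + ∑ φB + ∑ φC ≤ w i + ∑ φC`: without 3-valent node: `w i ≤ -3/10000` (`w_noncluster`).
With a 3-valent node `g`, `tl g = {i, j, k}`: `(w i + w j + w k)/3`; the number of tiles with exactly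
3 nodes among them is at most 2 (`H4`): 0: `≤ -63/1000`; 1: `(96 - 126)/3000`; 2: `w_cluster_two`.
Apply `no_neg_f` with `c = 3/10000`.
(`w` is bounded: `abs_f_le`, `recA ≤ 2 |N i| ≤ 2 n`, `rB ≤ |N i| ≤ n`.)
-/

namespace Pool.Agent.NNb

namespace Sys

variable {ι ν : Type} {n : ℕ}

private theorem w_bdd (S : Sys ι ν 3 n) (R : ν → ι) : ∃ B, ∀ i, |S.w R i| ≤ B := by
  classical
  refine ⟨(1 + n) + 2 * n * (51 / 2000) + 51 / 1000 + n * (12 / 1000) + 3 / 1000, ?_⟩
  intro i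
  have hf := S.abs_f_le i
  rw [abs_le] at hf
  have h1 : S.recA i ≤ 2 * n := by
    refine (S.recA_le i).trans (Nat.mul_le_mul_left 2 ?_)
    unfold cv
    exact (Finset.card_filter_le _ _).trans (S.card_le i)
  have h2 : S.rB R i ≤ n := by
    unfold rB
    exact (Finset.card_filter_le _ _).trans (S.card_le i)
  have h1' : (S.recA i : ℝ) ≤ 2 * n := by exact_mod_cast h1
  have h2' : (S.rB R i : ℝ) ≤ n := by exact_mod_cast h2
  have h3 : (0 : ℝ) ≤ S.recA i := Nat.cast_nonneg _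
  have h4 : (0 : ℝ) ≤ S.rB R i := Nat.cast_nonneg _
  have h5 : (0 : ℝ) ≤ n := Nat.cast_nonneg _
  unfold w
  rw [abs_le]
  constructor <;> split_ifs <;> linarith

private theorem cluster (S : Sys ι ν 3 n) (hn : 22 ≤ n) (h2 : S.H2) (h3 : S.H3) (h4 : S.H4)
    (R : ν → ι) {g : ν} {a b c : ι} (hg3 : S.val g = 3) (hab : a ≠ b) (hbc : b ≠ c) (hac : a ≠ c)
    (hga : g ∈ S.N a) (hgb : g ∈ S.N b) (hgc : g ∈ S.N c) (ha : (S.N a).card = 3)
    (hc : (S.N c).card = 3) : S.w R a + S.w R b + S.w R c ≤ -(1 / 100) := by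
  obtain ⟨hb, p, q, v, hqv, hi, hk, hq, hv⟩ := h4 g a b c hg3 hab hbc hac hga hgb hgc ha hc
  exact w_cluster_two S hn h2 h3 R hg3 hab hbc hac hga hgb hgc ha hc hb hqv hi hk hq hv

private theorem cluster_all (S : Sys ι ν 3 n) (hn : 22 ≤ n) (h2 : S.H2) (h3 : S.H3) (h4 : S.H4)
    (R : ν → ι) {g : ν} {a b c : ι} (hg3 : S.val g = 3) (hab : a ≠ b) (hbc : b ≠ c) (hac : a ≠ c)
    (hga : g ∈ S.N a) (hgb : g ∈ S.N b) (hgc : g ∈ S.N c) :
    S.w R a + S.w R b + S.w R c ≤ -(1 / 100) := by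
  have ca := S.card_ge a
  have cb := S.card_ge b
  have cc := S.card_ge c
  by_cases ha : (S.N a).card = 3
  · by_cases hc : (S.N c).card = 3
    · exact cluster S hn h2 h3 h4 R hg3 hab hbc hac hga hgb hgc ha hc
    · by_cases hb : (S.N b).card = 3
      · have := cluster S hn h2 h3 h4 R hg3 hac hbc.symm hab hga hgc hgb ha hb
        linarith
      · have w1 := w_cluster3 S hn h2 h3 R a g hga hg3 ha
        have w2 := w_cluster4 S hn h2 R b g hgb hg3 (by omega)
        have w3 := w_cluster4 S hn h2 R c g hgc hg3 (by omega)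
        linarith
  · have w1 := w_cluster4 S hn h2 R a g hga hg3 (by omega)
    by_cases hc : (S.N c).card = 3
    · by_cases hb : (S.N b).card = 3
      · have := cluster S hn h2 h3 h4 R hg3 hab.symm hac hbc hgb hga hgc hb hc
        linarith
      · have w2 := w_cluster4 S hn h2 R b g hgb hg3 (by omega)
        have w3 := w_cluster3 S hn h2 h3 R c g hgc hg3 hc
        linarith
    · have w3 := w_cluster4 S hn h2 R c g hgc hg3 (by omega)
      by_cases hb : (S.N b).card = 3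
      · have w2 := w_cluster3 S hn h2 h3 R b g hgb hg3 hb
        linarith
      · have w2 := w_cluster4 S hn h2 R b g hgb hg3 (by omega)
        linarith

theorem cls12 (S : Sys ι ν 3 n) (hn : 22 ≤ n) (h2 : S.H2) (h3 : S.H3) (h4 : S.H4) : False := by
  classical
  obtain ⟨φA, zA, bA, eA⟩ := transA S (by omega) (51 / 1000) (by norm_num)
  obtain ⟨φB, R, zB, bB, hR, eB⟩ := transB S (by omega) (3 / 1000) (by norm_num)
  obtain ⟨φC, zC, bC, e0, e3⟩ := transC S h2 (S.w R) (w_bdd S R)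
  have z1 := S.ZS_add (S.ZS_add zA zB) zC
  have b1 := S.Bdd_add (S.Bdd_add bA bB) bC
  refine S.no_neg_f z1 b1 (c := 3 / 10000) (by norm_num) ?_
  intro i
  have hsplit : ∑ x ∈ S.N i, (φA i x + φB i x + φC i x) =
      ∑ x ∈ S.N i, φA i x + ∑ x ∈ S.N i, φB i x + ∑ x ∈ S.N i, φC i x := by
    rw [Finset.sum_add_distrib, Finset.sum_add_distrib]
  rw [hsplit, eA i]
  have hB := eB i
  have hw : S.f i + (S.recA i * (51 / 1000 / 2) - (if S.IsA i then 51 / 1000 else 0)) +
      ∑ x ∈ S.N i, φB i x ≤ S.w R i := by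
    unfold w
    linarith
  by_cases hex : ∃ g ∈ S.N i, S.val g = 3
  · obtain ⟨g, hg, hg3⟩ := hex
    rw [e3 i g hg hg3]
    have hc3 : (S.tl g).card = 3 := hg3
    obtain ⟨a, b, c, hab, hac, hbc, htl⟩ := Finset.card_eq_three.1 hc3
    have ga : g ∈ S.N a := (S.mem_tl a g).1 (by rw [htl]; simp)
    have gb : g ∈ S.N b := (S.mem_tl b g).1 (by rw [htl]; simp)
    have gc : g ∈ S.N c := (S.mem_tl c g).1 (by rw [htl]; simp)
    have hall := cluster_all S hn h2 h3 h4 R hg3 hab hbc hac ga gb gc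
    have hs : ∑ j ∈ S.tl g, S.w R j = S.w R a + S.w R b + S.w R c := by
      rw [htl, Finset.sum_insert (by simp [hab, hac]), Finset.sum_insert (by simp [hbc]),
        Finset.sum_singleton]
      ring
    rw [hs]
    linarith
  · have hno : ∀ x ∈ S.N i, S.val x ≠ 3 := fun x hx h => hex ⟨x, hx, h⟩
    rw [e0 i hno]
    have := w_noncluster S hn h2 R hR i hno
    linarith

end Sys

end Pool.Agent.NNb
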