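import Pool.Agent.NNb.UThm
import Pool.Agent.NNb.AFar
import Pool.Agent.NNb.Cnt
import Pool.Agent.NNb.SumVal

/-!
Module CLS1U.  Triangles with largest angle different from `2π/3` and `π/2`, `17 ≤ n ≤ 20`.

By `three_valent` all valences are `≥ 4` (see `Cls1.lean`, copy).  `H3` as there.  `U2`: `|N i| ≥ 3`.
`U3`: vacuous.  `U4`: `A_far` (with `H2`, vacuous).  No `E`-tiles.  Apply `u_noE`.
-/

namespace Pool.Agent.NNb

namespace Sys3

variable {ι : Type} {n : ℕ}

theorem cls1U (S : Sys3 ι n) (hn : 17 ≤ n) (hn' : n ≤ 20) (h1 : S.θ 2 ≠ 2 * Real.pi / 3)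
    (h2 : S.θ 2 ≠ Real.pi / 2) : False := by
  classical
  have h3v : ∀ i x, x ∈ S.N i → S.val x ≠ 3 := by
    intro i x hx hv
    rcases S.three_valent hx hv with h | h
    · exact h1 h.1
    · exact h2 h.1
  have h4v : ∀ i x, x ∈ S.N i → 4 ≤ S.val x := by
    intro i x hx
    have h5 := S.val_ge hx
    have h6 := h3v i x hx
    omega
  have hH2 : S.H2 := by
    intro i x y hx hy hvx hvy
    exact absurd hvx (h3v i x hx)
  refine S.toSys.u_noE hn hn' ?_ ?_ ?_ ?_ ?_
  · intro i x hx hv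
    have hs := S.sum_val i
    rw [← Finset.add_sum_erase _ _ hx] at hs
    have hc : 3 ≤ (S.N i).card := S.card_ge i
    have hc' : ((S.N i).erase x).card = (S.N i).card - 1 := Finset.card_erase_of_mem hx
    have h5 : ((S.N i).erase x).card • 2 ≤ ∑ y ∈ (S.N i).erase x, (S.val y - 2) := by
      refine Finset.card_nsmul_le_sum _ _ _ ?_
      intro y hy
      have h6 := h4v i y (Finset.mem_of_mem_erase hy)
      omega
    rw [smul_eq_mul] at h5
    omega
  · intro i
    have hc : 3 ≤ (S.N i).card := S.card_ge i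
    obtain ⟨x, hx, y, hy, hxy⟩ := Finset.one_lt_card.mp (show 1 < (S.N i).card by omega)
    exact ⟨x, y, hx, hy, hxy, h4v i x hx, h4v i y hy⟩
  · intro i x hx hv
    exact absurd hv (h3v i x hx)
  · intro i j x y hA hji hxy hx hy hvx hvy hxj hyj
    exact S.toSys.A_far (by omega) hH2 hA hji.symm hxy hx hy hvx hvy hxj hyj
  · rintro i ⟨_, g, u, p, hg, hu, hp, hvg, _, _⟩
    exact h3v i g hg hvg

end Sys3

end Pool.Agent.NNb
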