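import Pool.Agent.NNb.Cls2B
import Pool.Agent.NNb.Cls12

/-!
Module CLS2.  Triangles with largest angle `2π/3`.

Scalene: `cls12` with `cls2_H2`, `cls2_H3`, `cls2_H4`.
Isosceles (`θ 0 = θ 1 = π/6`): every corner angle is `≥ π/6`, so by `ang_cnt` `val x ≤ 12` for every node
(if `fl = 0`, `cnt 0 + cnt 1 + cnt 2 ≤ 12`; if `fl = 1`, `≤ 6`).  `H2` holds (`cls2_H2`).  So on each tile
all `k = val - 2 ≤ 10`, at most one is `1`, `∑ k = n ≥ 22`.  By `phi_between` (`a = 2`, `b = 10`):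
`phi k ≥ 1/4 + (k - 2)/48` for `2 ≤ k ≤ 10`.  If all `k ≥ 2`: `∑ phi ≥ 5 s/24 + n/48 ≥ 15/24 + 22/48`.  If
one `k = 1`: the `s - 1` others have sum `n - 1 ≥ 21`, so `s - 1 ≥ 3`, and
`∑ phi ≥ 1/6 + 5 (s-1)/24 + (n-1)/48 ≥ 1/6 + 15/24 + 21/48`.  So `f ≤ -1/12`: `no_neg_f'`.
-/

namespace Pool.Agent.NNb

namespace Sys3

variable {ι : Type} {n : ℕ} (S : Sys3 ι n)

/-- the inequality for one node -/
theorem CLS2_node {v : ℕ} (h3 : 3 ≤ v) (h12 : v ≤ 12) :
    (1 : ℝ) / 4 + ((v : ℝ) - 4) / 48 - (1 / 16) * (if v = 3 then 1 else 0) ≤ 1 / 2 - 1 / (v : ℝ) := by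
  interval_cases v <;> norm_num

/-- the inequality, used again for right triangles -/
theorem f_of_val12 (hn : 22 ≤ n) (i : ι) (h12 : ∀ x ∈ S.N i, S.val x ≤ 12)
    (h1 : ∀ x y, x ∈ S.N i → y ∈ S.N i → S.val x = 3 → S.val y = 3 → x = y) :
    S.f i ≤ -(1 / 12) := by
  classical
  have hval : ∀ x ∈ S.N i, 3 ≤ S.val x := fun x hx => S.toSys.val_ge hx
  set s : ℕ := (S.N i).card with hs
  have hs3 : 3 ≤ s := S.toSys.card_ge i
  have hsum := S.toSys.sum_val_real i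
  set t : ℕ := ((S.N i).filter (fun x => S.val x = 3)).card with ht
  have ht1 : t ≤ 1 := by
    rw [ht, Finset.card_le_one]
    intro x hx y hy
    rw [Finset.mem_filter] at hx hy
    exact h1 x y hx.1 hy.1 hx.2 hy.2
  have htsum : ∑ x ∈ S.N i, (if S.val x = 3 then (1 : ℝ) else 0) = t := by
    rw [Finset.sum_ite, Finset.sum_const_zero, add_zero, Finset.sum_const, nsmul_eq_mul, mul_one]
  -- the number of nodes
  have hup : (n : ℝ) ≤ 10 * s - 9 * t := by
    rw [← hsum, ← htsum]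
    have : ∑ x ∈ S.N i, ((S.val x : ℝ) - 2) ≤
        ∑ x ∈ S.N i, (10 - 9 * (if S.val x = 3 then (1 : ℝ) else 0)) := by
      refine Finset.sum_le_sum fun x hx => ?_
      have h2 := h12 x hx
      by_cases hv : S.val x = 3
      · rw [hv]; norm_num
      · rw [if_neg hv]
        have : (S.val x : ℝ) ≤ 12 := by exact_mod_cast h2
        linarith
    have e2 : ∑ x ∈ S.N i, (10 - 9 * (if S.val x = 3 then (1 : ℝ) else 0)) =
        10 * s - 9 * ∑ x ∈ S.N i, (if S.val x = 3 then (1 : ℝ) else 0) := by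
      rw [Finset.sum_sub_distrib, Finset.sum_const, ← Finset.mul_sum, nsmul_eq_mul]
      ring
    rw [e2] at this
    exact this
  have hn' : (22 : ℝ) ≤ n := by exact_mod_cast hn
  have hs3' : (3 : ℝ) ≤ s := by exact_mod_cast hs3
  -- the sum
  have hlow : 5 * (s : ℝ) / 24 + n / 48 - t / 16 ≤
      ∑ x ∈ S.N i, (1 / 2 - 1 / (S.val x : ℝ)) := by
    have h4 : ∑ x ∈ S.N i, ((1 : ℝ) / 4 + ((S.val x : ℝ) - 4) / 48 -
        (1 / 16) * (if S.val x = 3 then 1 else 0)) ≤ ∑ x ∈ S.N i, (1 / 2 - 1 / (S.val x : ℝ)) :=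
      Finset.sum_le_sum fun x hx => CLS2_node (hval x hx) (h12 x hx)
    refine le_trans (le_of_eq ?_) h4
    have e1 : ∀ x ∈ S.N i, (1 : ℝ) / 4 + ((S.val x : ℝ) - 4) / 48 -
        (1 / 16) * (if S.val x = 3 then 1 else 0) =
        5 / 24 + (1 / 48) * ((S.toSys.val x : ℝ) - 2) -
          (1 / 16) * (if S.val x = 3 then (1 : ℝ) else 0) := by
      intro x _
      ring
    rw [Finset.sum_congr rfl e1, Finset.sum_sub_distrib, Finset.sum_add_distrib, Finset.sum_const,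
      ← Finset.mul_sum, ← Finset.mul_sum, hsum, htsum, nsmul_eq_mul]
    ring
  have hf : S.f i = 1 - ∑ x ∈ S.N i, (1 / 2 - 1 / (S.val x : ℝ)) := rfl
  rw [hf]
  rcases Nat.lt_or_ge t 1 with h0 | h0
  · have ht0 : t = 0 := by omega
    rw [ht0] at hlow
    push_cast at hlow
    linarith
  · have ht0 : t = 1 := by omega
    rw [ht0] at hlow hup
    push_cast at hlow hup
    have hs4 : (4 : ℝ) ≤ s := by
      have h5 : (31 : ℝ) ≤ 10 * s := by linarith
      have h6 : 31 ≤ 10 * s := by exact_mod_cast h5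
      have h7 : 4 ≤ s := by omega
      exact_mod_cast h7
    linarith

theorem cls2 (hn : 22 ≤ n) (h2 : S.θ 2 = 2 * Real.pi / 3) : False := by
  rcases lt_or_eq_of_le S.θ_le01 with h01 | h01
  · exact Sys.cls12 S.toSys hn (S.cls2_H2 h2) (S.cls2_H3 (by omega) h2 h01) (S.cls2_H4 h2 h01)
  · have hpi := Real.pi_pos
    have hsum := S.θ_sum
    have e0 : S.θ 0 = Real.pi / 6 := by linarith
    have e1 : S.θ 1 = Real.pi / 6 := by linarith
    have h12 : ∀ i, ∀ x ∈ S.N i, S.val x ≤ 12 := by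
      intro i x hx
      have h3 := S.ang_cnt hx
      rw [e0, e1, h2] at h3
      have h4 : ((S.cnt 0 x : ℝ) + S.cnt 1 x + 4 * S.cnt 2 x + 6 * S.fl x) * (Real.pi / 6) =
          12 * (Real.pi / 6) := by linarith
      have h5 : (S.cnt 0 x : ℝ) + S.cnt 1 x + 4 * S.cnt 2 x + 6 * S.fl x = 12 :=
        mul_right_cancel₀ (by positivity) h4
      have h6 : S.cnt 0 x + S.cnt 1 x + 4 * S.cnt 2 x + 6 * S.fl x = 12 := by exact_mod_cast h5
      have h7 := S.val_cnt x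
      omega
    exact S.toSys.no_neg_f' (c := 1 / 12) (by norm_num)
      (fun i => S.f_of_val12 hn i (h12 i) (S.cls2_H2 h2 i))

end Sys3

end Pool.Agent.NNb
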