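import Pool.Agent.NNb.Cls2A
import Pool.Agent.NNb.TriS

/-!
Module CLS2B.  Scalene triangles with `θ 2 = 2π/3`: `H4`.

`val g = 3`, `tl g = {i, j, k}`, `g = lab i 2 = lab j 2 = lab k 2` (`cls2_three`).  Lengths: from `g` to
`lab · 0`: `ρ sin (θ 1)` (long), from `g` to `lab · 1`: `ρ sin (θ 0)` (short); `sin (θ 0) < sin (θ 1)` as
`0 < θ 0 < θ 1 < π/3`.
For two tiles `s, t` at `g` there is a node `e ≠ g` on both (`link3`); it is a partner of `g` on `s` and on
`t`; `e ∈ segment g (lab s a)`, `e ∈ segment g (lab t b)` with `a, b ∈ {0, 1}` (`part_corner`).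
`ray_cmp` (with `x = g`): if `|N s| = 3` and `|N t| = 3` then `a = b` (otherwise the shorter end would be a
non-corner node of the other tile; `card3_corner`) and `lab s a = lab t a = e`.
Now let `|N i| = |N k| = 3`.  `e_ik = lab i a = lab k a`.
If `a = 1`: the other partner of `g` on `i` is `lab i 0` (on the long side, `|N i| = 3`), shared with `j`; on
`j` it lies in `segment g (lab j b)`.  Likewise `lab k 0` is shared with `j` and lies in
`segment g (lab j b')`, `b ≠ b'` (`part_corner_two`: two different partners of `g` on `j`).  One of `b, b'`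
is `1`, say `b = 1`: `dist g (lab j 1) < dist g (lab i 0)`, so by `ray_cmp` `lab j 1 ∈ N i`, not a corner:
contradiction to `|N i| = 3`.
So `a = 0`: `p = lab i 0 = lab k 0`, `q = lab i 1`, `w = lab k 1` are the other partners of `g` on `i`, `k`,
both shared with `j`; `q ≠ w` by `three` (`g, p, q` would be on `i` and `k`).
`|N j| ≥ 4`: otherwise `|N j| = 3`, and the argument applied to the pairs `(i, j)`, `(k, j)`, `(i, k)` gives
that all three shared nodes have label `0` on both sides (each pair is a pair of tiles with 3 nodes), but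
the two partners of `g` on `i` are `lab i 0` and `lab i 1`: contradiction.
-/

namespace Pool.Agent.NNb

namespace Sys3

variable {ι : Type} {n : ℕ} (S : Sys3 ι n)

private theorem CLS2B_dist {a b x : ℂ} (h : x ∈ segment ℝ a b) : dist a x ≤ dist a b := by
  have := (dist_add_dist_of_mem_segment h).symm
  have h2 := dist_nonneg (x := x) (y := b)
  linarith

theorem cls2_H4 (h2 : S.θ 2 = 2 * Real.pi / 3) (h01 : S.θ 0 < S.θ 1) : S.H4 := by
  classical
  intro g i j k hv hij hjk hik hgi hgj hgk hci hck
  have li := S.cls2_three h2 hgi hv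
  have lj := S.cls2_three h2 hgj hv
  have lk := S.cls2_three h2 hgk hv
  obtain ⟨p, q, r, hpg, hqg, hrg, hpq, hqr, hpr, hpi, hpj, hqj, hqk, hrk, hri⟩ :=
    S.link3 hv hij hjk hik hgi hgj hgk
  -- the two lengths
  have hsin : Real.sin (S.θ 0) < Real.sin (S.θ 1) := by
    have h0 := S.θ_pos 0
    have hs := S.θ_sum
    have hp := Real.pi_pos
    rw [h2] at hs
    exact Real.sin_lt_sin_of_lt_of_le_pi_div_two (by linarith) (by linarith) h01
  have hlt : S.ρ * Real.sin (S.θ 0) < S.ρ * Real.sin (S.θ 1) :=
    mul_lt_mul_of_pos_left hsin S.ρ_pos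
  have d1 : ∀ t, S.lab t 2 = g → dist g (S.lab t 1) = S.ρ * Real.sin (S.θ 0) := by
    intro t ht
    rw [← (S.side t).1, ht, dist_comm]
  have d0 : ∀ t, S.lab t 2 = g → dist g (S.lab t 0) = S.ρ * Real.sin (S.θ 1) := by
    intro t ht
    rw [← (S.side t).2.1, ht, dist_comm]
  -- nodes of a tile with three nodes
  have hcor : ∀ t, (S.N t).card = 3 → S.lab t 2 = g → ∀ x ∈ S.N t, x ≠ g →
      x = S.lab t 0 ∨ x = S.lab t 1 := by
    intro t ht hl x hx hxg
    rcases (S.card3_mem ht x).1 hx with h | h | h
    · exact Or.inl h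
    · exact Or.inr h
    · rw [hl] at h; exact absurd h hxg
  have hpartp : Part S.N j (S.lab j 2) p := by
    rw [lj]
    exact ⟨hgj, hpj, hpg.symm, i, hij, hgi, hpi⟩
  have hpartq : Part S.N j (S.lab j 2) q := by
    rw [lj]
    exact ⟨hgj, hqj, hqg.symm, k, hjk.symm, hgk, hqk⟩
  -- label of r
  have hr0 : r = S.lab i 0 ∧ r = S.lab k 0 := by
    rcases hcor i hci li r hri hrg with h | h <;> rcases hcor k hck lk r hrk hrg with h' | h'
    · exact ⟨h, h'⟩
    · exfalso
      have e1 := d0 i li
      have e2 := d1 k lk
      rw [← h] at e1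
      rw [← h'] at e2
      linarith
    · exfalso
      have e1 := d1 i li
      have e2 := d0 k lk
      rw [← h] at e1
      rw [← h'] at e2
      linarith
    · exfalso
      -- then p = lab i 0, q = lab k 0
      have hp0 : p = S.lab i 0 := by
        rcases hcor i hci li p hpi hpg with h5 | h5
        · exact h5
        · exact absurd (h5.trans h.symm) hpr
      have hq0 : q = S.lab k 0 := by
        rcases hcor k hck lk q hqk hqg with h5 | h5
        · exact h5
        · exact absurd (h5.trans h'.symm) hqr
      have dp := d0 i li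
      rw [← hp0] at dp
      have dq := d0 k lk
      rw [← hq0] at dq
      obtain ⟨b, hb, hsb⟩ := S.part_corner hpartp
      obtain ⟨b', hb', hsb'⟩ := S.part_corner hpartq
      have hbb : b ≠ b' := by
        rintro rfl
        exact hpq (S.part_corner_two hb hpartp hpartq hsb hsb')
      have hb1 : b = 1 ∨ b' = 1 := by
        revert hb hb' hbb
        generalize b = u
        generalize b' = v
        decide +revert
      rcases hb1 with rfl | rfl
      · rw [lj] at hsb
        have := CLS2B_dist hsb
        rw [dp, d1 j lj] at this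
        linarith
      · rw [lj] at hsb'
        have := CLS2B_dist hsb'
        rw [dq, d1 j lj] at this
        linarith
  have hp1 : p = S.lab i 1 := by
    rcases hcor i hci li p hpi hpg with h5 | h5
    · exact absurd (h5.trans hr0.1.symm) hpr
    · exact h5
  have hq1 : q = S.lab k 1 := by
    rcases hcor k hck lk q hqk hqg with h5 | h5
    · exact absurd (h5.trans hr0.2.symm) hqr
    · exact h5
  refine ⟨?_, r, p, q, hpq, ?_, ?_, hpj, hqj⟩
  · by_contra hlt4
    have hcj : (S.N j).card = 3 := by
      have : 3 ≤ (S.N j).card := S.card_ge j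
      omega
    have dp := d1 i li
    rw [← hp1] at dp
    have dq := d1 k lk
    rw [← hq1] at dq
    have e0 := d0 j lj
    rcases hcor j hcj lj p hpj hpg with h5 | h5
    · rw [← h5] at e0
      linarith
    · rcases hcor j hcj lj q hqj hqg with h6 | h6
      · rw [← h6] at e0
        linarith
      · exact hpq (h5.trans h6.symm)
  · intro x
    rw [S.card3_mem hci x, li, ← hr0.1, ← hp1]
    tauto
  · intro x
    rw [S.card3_mem hck x, lk, ← hr0.2, ← hq1]
    tauto

end Sys3

end Pool.Agent.NNb
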