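import Pool.Agent.NNb.ELoc
import Pool.Agent.NNb.ASwap

/-!
Module NOE2.  Scalene triangles with `θ 2 = 2π/3`, `17 ≤ n ≤ 20`: no `E`-tiles.

Suppose `IsE i`.  By `cls2_E_loc`: `θ 1 = 3 θ 0` (so `θ 0 = π/12`, `θ 1 = π/4`), `p := lab i 0` has valence
`n - 2 ≥ 15`.  By `hubA` (`H2` from `cls2_H2`) every tile at `p` is of type `A` or `E`, in particular it has
exactly three nodes, so `p` is a corner of every tile at `p` (`card3_mem`): `fl p = 0`.  `ang_cnt` divided by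
`π/12`: `a + 3 b + 8 c = 24` with `a, b, c = cnt 0, 1, 2 p`, and `val p = a + b + c = 24 - 2 b - 7 c`.
A tile `t` at `p` with `lab t 1 = p` or `lab t 2 = p` is of type `A` (by `cls2_E_loc` an `E`-tile `t` has
`val (lab t 0) = n - 2`, and `val (lab t 1) = 5`, `val (lab t 2) = 3`).
(1) `b ≥ 1` implies `c ≥ 1`: let `lab j 1 = p`, `j` is of type `A`; let `j'` be the other tile with `p` and
`lab j 2` (`part_of_three`, `part_other`); by `a_swap` (`k = 1, l = 2, m = 0`) `lab j' 2 = p`.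
(2) `c ≥ 1` implies `b ≥ 1` (`k = 2, l = 1, m = 0`).
(3) `c = 0`: then `b = 0`, `a = 24 = val p = n - 2`: contradiction to `n ≤ 20`.
(4) `c ≥ 2`: `val p ≤ 24 - 2 - 14 < 15`.  `c = 1, b ≥ 2`: `val p ≤ 13`.  So `b = c = 1`.
(5) Let `j2` be the unique tile with `lab j2 2 = p`; type `A`; `y := lab j2 0`, `z := lab j2 1`.  Let `j0` be the
other tile with `p, y`: by `a_swap` (`k = 2, l = 0, m = 1`) `IsA j0`, `lab j0 0 = p`, `lab j0 2 = y`;
`x := lab j0 1`.  Let `j1` be the other tile with `p, z`: (`k = 2, l = 1, m = 0`) `IsA j1`, `lab j1 1 = p`,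
`lab j1 2 = z`.  Let `j1'` be the other tile with `p, x` (`≠ j0`): by `a_swap` (from `j0`, `k = 0, l = 1, m = 2`)
`lab j1' 1 = p`, `lab j1' 0 = x`.  As `b = 1`, `j1' = j1`.
Distances (`side`): `dist p y = ρ sin (θ 1)` (`j2`), `dist p z = ρ sin (θ 0)` (`j2`),
`dist y z = ρ sin (θ 2)` (`j2`), `dist p x = ρ sin (θ 2)` (`j0`), `dist y x = ρ sin (θ 0)` (`j0`),
`dist z x = ρ sin (θ 1)` (`j1`).  And `sin² (θ 1) + sin² (θ 0) < sin² (θ 2)`: `sin² (π/4) = 1/2`,
`sin² (π/12) < sin² (π/6) = 1/4`, `sin² (2π/3) = 3/4`.  `no_disphenoid`.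
-/

namespace Pool.Agent.NNb

namespace Sys3

variable {ι : Type} {n : ℕ} (S : Sys3 ι n)

private theorem NOE2_ex {k : Fin 3} {x : ℂ} (h : 1 ≤ S.cnt k x) :
    ∃ t, x ∈ S.N t ∧ S.lab t k = x := by
  classical
  unfold cnt at h
  obtain ⟨t, ht⟩ := Finset.card_pos.1 h
  obtain ⟨h1, h2⟩ := Finset.mem_filter.1 ht
  exact ⟨t, (S.mem_tl t x).1 h1, h2⟩

private theorem NOE2_uq {k : Fin 3} {x : ℂ} (h : S.cnt k x ≤ 1) {t t' : ι} (ht : S.lab t k = x)
    (ht' : S.lab t' k = x) : t = t' := by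
  classical
  unfold cnt at h
  have h1 : ∀ s, S.lab s k = x → s ∈ (S.tl x).filter (fun i => S.lab i k = x) := fun s hs =>
    Finset.mem_filter.2 ⟨(S.mem_tl s x).2 (hs ▸ S.lab_mem s k), hs⟩
  exact Finset.card_le_one.1 h t (h1 t ht) t' (h1 t' ht')

private theorem NOE2_pos {k : Fin 3} {x : ℂ} {t : ι} (ht : S.lab t k = x) : 1 ≤ S.cnt k x := by
  have := S.cnt_pos t k
  rwa [ht] at this

/-- the other tile across the side from `lab j k` to `lab j l` -/
private theorem NOE2_swap (hn : 15 ≤ n) (h2 : S.θ 2 = 2 * Real.pi / 3) (h01 : S.θ 0 < S.θ 1)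
    {j : ι} {k l m : Fin 3} (hkl : k ≠ l) (hkm : k ≠ m) (hlm : l ≠ m) (hA : S.toSys.IsA j)
    (hp : S.val (S.lab j k) + 2 = n) :
    ∃ j', j' ≠ j ∧ S.toSys.IsA j' ∧ S.lab j' l = S.lab j k ∧ S.lab j' k = S.lab j l := by
  have hne : S.lab j k ≠ S.lab j l := fun h => hkl (S.lab_inj j h)
  have hpart := S.part_of_three hA.1 (S.lab_mem j k) (S.lab_mem j l) hne
  obtain ⟨j', hj', hpj, -⟩ := S.part_other hpart
  obtain ⟨h1, h3, h4⟩ := S.a_swap hn h2 h01 hkl hkm hlm hA hp hj' hpj.1 hpj.2.1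
  exact ⟨j', hj', h1, h3, h4⟩

theorem cls2_noE (hn : 17 ≤ n) (hn' : n ≤ 20) (h2 : S.θ 2 = 2 * Real.pi / 3)
    (h01 : S.θ 0 < S.θ 1) (i : ι) : ¬ S.toSys.IsE i := by
  classical
  intro hE
  obtain ⟨h13, hp, -, -⟩ := S.cls2_E_loc (by omega) h2 h01 hE
  have hH2 : S.toSys.H2 := S.cls2_H2 h2
  have hpN : S.lab i 0 ∈ S.N i := S.lab_mem i 0
  generalize S.lab i 0 = p at hp hpN
  have hub : ∀ t, p ∈ S.N t → S.toSys.IsA t ∨ S.toSys.IsE t := fun t ht =>
    Sys.hubA S.toSys (by omega) hH2 ht hp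
  have hAk : ∀ t, ∀ k : Fin 3, k ≠ 0 → S.lab t k = p → S.toSys.IsA t := by
    intro t k hk htk
    have ht : p ∈ S.N t := htk ▸ S.lab_mem t k
    rcases hub t ht with h | h
    · exact h
    · exfalso
      obtain ⟨-, -, h5, h6⟩ := S.cls2_E_loc (by omega) h2 h01 h
      have hk' : k = 1 ∨ k = 2 := by fin_cases k <;> simp_all
      rcases hk' with rfl | rfl
      · rw [htk] at h5; omega
      · rw [htk] at h6; omega
  -- fl p = 0
  have hfl : S.fl p = 0 := by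
    unfold fl
    rw [Finset.card_eq_zero, Finset.filter_eq_empty_iff]
    intro t ht
    have ht' : p ∈ S.N t := (S.mem_tl t p).1 ht
    have hc : (S.N t).card = 3 := by
      rcases hub t ht' with h | h
      · exact h.1
      · exact h.1
    rw [not_not, ← S.card3_corner hc]
    exact ht'
  have hang := S.ang_cnt hpN
  have hval := S.val_cnt p
  rw [hfl] at hang hval
  have hs := S.θ_sum
  have hpi := Real.pi_pos
  have ht0 : S.θ 0 = Real.pi / 12 := by rw [h2, h13] at hs; linarith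
  have ht1 : S.θ 1 = Real.pi / 4 := by rw [h13, ht0]; ring
  have h24 : S.cnt 0 p + 3 * S.cnt 1 p + 8 * S.cnt 2 p = 24 := by
    rw [ht0, ht1, h2] at hang
    have h3 : ((S.cnt 0 p : ℝ) + 3 * S.cnt 1 p + 8 * S.cnt 2 p) * Real.pi = 24 * Real.pi := by
      push_cast at hang
      linarith
    have h4 := mul_right_cancel₀ hpi.ne' h3
    exact_mod_cast h4
  have hn15 : 15 ≤ n := by omega
  have hbc : 1 ≤ S.cnt 1 p → 1 ≤ S.cnt 2 p := by
    intro hb
    obtain ⟨j, -, hj⟩ := S.NOE2_ex hb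
    obtain ⟨j', -, -, h3, -⟩ := S.NOE2_swap hn15 h2 h01 (j := j) (k := 1) (l := 2) (m := 0)
      (by decide) (by decide) (by decide) (hAk j 1 (by decide) hj) (by rw [hj]; exact hp)
    exact S.NOE2_pos (h3.trans hj)
  have hcb : 1 ≤ S.cnt 2 p → 1 ≤ S.cnt 1 p := by
    intro hb
    obtain ⟨j, -, hj⟩ := S.NOE2_ex hb
    obtain ⟨j', -, -, h3, -⟩ := S.NOE2_swap hn15 h2 h01 (j := j) (k := 2) (l := 1) (m := 0)
      (by decide) (by decide) (by decide) (hAk j 2 (by decide) hj) (by rw [hj]; exact hp)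
    exact S.NOE2_pos (h3.trans hj)
  have hb1 : S.cnt 1 p = 1 := by omega
  have hc1 : S.cnt 2 p = 1 := by omega
  obtain ⟨j2, -, hj2⟩ := S.NOE2_ex (k := 2) (x := p) (by omega)
  have hA2 := hAk j2 2 (by decide) hj2
  obtain ⟨j0, -, hA0, h00, h02⟩ := S.NOE2_swap hn15 h2 h01 (j := j2) (k := 2) (l := 0) (m := 1)
      (by decide) (by decide) (by decide) hA2 (by rw [hj2]; exact hp)
  obtain ⟨j1, -, hA1, h11, h12⟩ := S.NOE2_swap hn15 h2 h01 (j := j2) (k := 2) (l := 1) (m := 0)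
      (by decide) (by decide) (by decide) hA2 (by rw [hj2]; exact hp)
  rw [hj2] at h00 h11
  obtain ⟨j1', -, -, h1p, h1x⟩ := S.NOE2_swap hn15 h2 h01 (j := j0) (k := 0) (l := 1) (m := 2)
      (by decide) (by decide) (by decide) hA0 (by rw [h00]; exact hp)
  rw [h00] at h1p
  have hjj : j1' = j1 := S.NOE2_uq hb1.le h1p h11
  rw [hjj] at h1x
  -- distances
  obtain ⟨a1, a2, a3⟩ := S.side j2
  obtain ⟨b1, b2, b3⟩ := S.side j0
  obtain ⟨c1, c2, c3⟩ := S.side j1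
  rw [hj2] at a1 a2
  rw [h00] at b2 b3
  rw [h02] at b1 b2
  rw [h11] at c1 c3
  rw [h12] at c1 c2
  rw [h1x] at c2 c3
  refine no_disphenoid p (S.lab j0 1) (S.lab j2 0) (S.lab j2 1) ?_ ?_ ?_ ?_
  · rw [b2, dist_comm, c2]
  · rw [c1, dist_comm, b1]
  · rw [b3, a3]
  · rw [b2, c1, b3, mul_pow, mul_pow, mul_pow, ← mul_add]
    have hr : 0 < S.ρ ^ 2 := pow_pos S.ρ_pos 2
    refine mul_lt_mul_of_pos_left ?_ hr
    rw [ht0, ht1, h2]
    have e1 : Real.sin (Real.pi / 4) ^ 2 = 1 / 2 := by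
      rw [Real.sin_pi_div_four, div_pow, Real.sq_sqrt (by norm_num)]; norm_num
    have e2 : Real.sin (2 * Real.pi / 3) ^ 2 = 3 / 4 := by
      rw [show 2 * Real.pi / 3 = Real.pi - Real.pi / 3 by ring, Real.sin_pi_sub,
        Real.sin_pi_div_three, div_pow, Real.sq_sqrt (by norm_num)]; norm_num
    have e3 : Real.sin (Real.pi / 12) < 1 / 2 := by
      rw [← Real.sin_pi_div_six]
      exact Real.sin_lt_sin_of_lt_of_le_pi_div_two (by linarith) (by linarith) (by linarith)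
    have e4 : 0 < Real.sin (Real.pi / 12) := Real.sin_pos_of_pos_of_lt_pi (by linarith)
      (by linarith)
    rw [e1, e2]
    nlinarith

end Sys3

end Pool.Agent.NNb
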