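import Pool.Agent.NNb.UThm
import Pool.Agent.NNb.AFar
import Pool.Agent.NNb.NoE2
import Pool.Agent.NNb.Cls2B
import Pool.Agent.NNb.Link

/-!
Module CLS2U.  Triangles with largest angle `2π/3`, `17 ≤ n ≤ 20`: apply `u_noE`.

`H2`: `cls2_H2`.  So `U2` (`|N i| ≥ 3`, at most one 3-valent node), and `U4` by `A_far`.
Scalene: `H3`: `cls2_H3`.  `U3`: `val g = 3`, `tl g = {i, j, k}`; if two of the three tiles are small then the
third one is big by `H4` (`cls2_H4`).  No `E`-tiles: `cls2_noE`.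
Isosceles (`θ 0 = θ 1 = π/6`): by `ang_cnt` with `m = cnt 0 + cnt 1`, `c = cnt 2`: `m + 4 c + 6 fl = 12`, so
`val x = m + c + fl = 12 - 3 c` (`fl = 0`) or `7 - 3 c` (`fl = 1`): the valences are in `{12, 9, 6, 3, 7, 4}`.
So `H3` and no `E`-tiles (`n - 2 ≥ 15`).  `U3`: suppose that all three tiles at a 3-valent node `g` are small.
`link3`: `N i = {g, p, r}`, `N j = {g, p, q}`, `N k = {g, q, r}`, and `sum_val`:
`val p + val r = val p + val q = val q + val r = n + 3`, so `2 val p = n + 3`: `n = 17`, `val p = 10` or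
`n = 19`, `val p = 11` (`n = 18, 20`: parity), contradiction.
-/

namespace Pool.Agent.NNb

namespace Sys3

variable {ι : Type} {n : ℕ} (S : Sys3 ι n)

/-- three tiles at a 3-valent node -/
private theorem CLS2U_tl {i : ι} {g : ℂ} (hi : g ∈ S.N i) (hv : S.val g = 3) :
    ∃ j k, i ≠ j ∧ j ≠ k ∧ i ≠ k ∧ g ∈ S.N j ∧ g ∈ S.N k := by
  classical
  have hi' : i ∈ S.tl g := (S.mem_tl i g).2 hi
  have hc : ((S.tl g).erase i).card = 2 := by
    rw [Finset.card_erase_of_mem hi']
    have : (S.tl g).card = 3 := hv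
    omega
  obtain ⟨j, k, hjk, he⟩ := Finset.card_eq_two.mp hc
  have hj : j ∈ (S.tl g).erase i := by rw [he]; simp
  have hk : k ∈ (S.tl g).erase i := by rw [he]; simp
  rw [Finset.mem_erase] at hj hk
  exact ⟨j, k, hj.1.symm, hjk, hk.1.symm, (S.mem_tl j g).1 hj.2, (S.mem_tl k g).1 hk.2⟩

/-- a small tile with nodes `g, p, r`, `val g = 3` -/
private theorem CLS2U_small {i : ι} {g p r : ℂ} (hc : (S.N i).card = 3) (hg : g ∈ S.N i)
    (hp : p ∈ S.N i) (hr : r ∈ S.N i) (hpg : p ≠ g) (hrg : r ≠ g) (hpr : p ≠ r)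
    (hv : S.val g = 3) : S.val p + S.val r = n + 3 := by
  classical
  have hsub : ({g, p, r} : Finset ℂ) ⊆ S.N i := by
    intro w hw
    simp only [Finset.mem_insert, Finset.mem_singleton] at hw
    rcases hw with rfl | rfl | rfl <;> assumption
  have hcard : ({g, p, r} : Finset ℂ).card = 3 :=
    Finset.card_eq_three.mpr ⟨g, p, r, hpg.symm, hrg.symm, hpr, rfl⟩
  have heq := Finset.eq_of_subset_of_card_le hsub (by omega)
  have hs := S.sum_val i
  rw [← heq, Finset.sum_insert (by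
    simp only [Finset.mem_insert, Finset.mem_singleton, not_or]
    exact ⟨hpg.symm, hrg.symm⟩), Finset.sum_pair hpr, hv] at hs
  have h1 := S.val_ge hp
  have h2 := S.val_ge hr
  omega

/-- the valences in the isosceles case -/
private theorem CLS2U_val (h2 : S.θ 2 = 2 * Real.pi / 3) (h01 : S.θ 0 = S.θ 1) {i : ι} {x : ℂ}
    (hx : x ∈ S.N i) : S.val x = 12 ∨ S.val x = 9 ∨ S.val x = 6 ∨ S.val x = 3 ∨ S.val x = 7 ∨
      S.val x = 4 := by
  have h := S.ang_cnt hx
  have ts := S.θ_sum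
  have hv := S.val_cnt x
  have hf := S.fl_le hx
  have h0 : S.θ 0 = Real.pi / 6 := by linarith
  have h1 : S.θ 1 = Real.pi / 6 := by linarith
  rw [h0, h1, h2] at h
  have hpi := Real.pi_pos
  have h3 : ((S.cnt 0 x : ℝ) + S.cnt 1 x + 4 * S.cnt 2 x + 6 * S.fl x) = 12 := by
    have h4 : ((S.cnt 0 x : ℝ) + S.cnt 1 x + 4 * S.cnt 2 x + 6 * S.fl x - 12) * Real.pi = 0 := by
      linarith
    rcases mul_eq_zero.mp h4 with h5 | h5
    · linarith
    · exact absurd h5 hpi.ne'
  have h6 : S.cnt 0 x + S.cnt 1 x + 4 * S.cnt 2 x + 6 * S.fl x = 12 := by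
    exact_mod_cast h3
  have hc3 : S.cnt 2 x ≤ 3 := by omega
  generalize S.fl x = f at *
  generalize S.cnt 2 x = c at *
  interval_cases f <;> interval_cases c <;> omega

theorem cls2U (hn : 17 ≤ n) (hn' : n ≤ 20) (h2 : S.θ 2 = 2 * Real.pi / 3) : False := by
  classical
  have hH2 : S.H2 := S.cls2_H2 h2
  have hU2 : S.U2 := by
    intro i
    have hc : 3 ≤ (S.N i).card := S.card_ge i
    obtain ⟨a, b, c, hab, hac, hbc, ha, hb, hc'⟩ : ∃ a b c, a ≠ b ∧ a ≠ c ∧ b ≠ c ∧ a ∈ S.N i ∧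
        b ∈ S.N i ∧ c ∈ S.N i := by
      obtain ⟨a, ha, b, hb, c, hc', hab, hac, hbc⟩ :=
        Finset.two_lt_card.mp (show 2 < (S.N i).card by omega)
      exact ⟨a, b, c, hab, hac, hbc, ha, hb, hc'⟩
    have va := S.val_ge ha
    have vb := S.val_ge hb
    have vc := S.val_ge hc'
    by_cases h3a : S.val a = 3
    · have h3b : S.val b ≠ 3 := fun h => hab (hH2 i a b ha hb h3a h)
      have h3c : S.val c ≠ 3 := fun h => hac (hH2 i a c ha hc' h3a h)
      exact ⟨b, c, hb, hc', hbc, by omega, by omega⟩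
    · by_cases h3b : S.val b = 3
      · have h3c : S.val c ≠ 3 := fun h => hbc (hH2 i b c hb hc' h3b h)
        exact ⟨a, c, ha, hc', hac, by omega, by omega⟩
      · exact ⟨a, b, ha, hb, hab, by omega, by omega⟩
  have hU4 : S.U4 := by
    intro i j x y hA hji hxy hx hy hvx hvy hxj hyj
    exact S.toSys.A_far (by omega) hH2 hA hji.symm hxy hx hy hvx hvy hxj hyj
  rcases S.θ_le01.lt_or_eq with h01 | h01
  · -- scalene
    refine S.toSys.u_noE hn hn' (S.cls2_H3 (by omega) h2 h01) hU2 ?_ hU4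
      (fun i => S.cls2_noE hn hn' h2 h01 i)
    intro i g hg hv
    obtain ⟨j, k, hij, hjk, hik, hj, hk⟩ := S.CLS2U_tl hg hv
    by_contra hcon
    push Not at hcon
    have c1 := hcon i hg
    have c2 := hcon k hk
    have c3 := hcon j hj
    have d1 : 3 ≤ (S.N i).card := S.card_ge i
    have d2 : 3 ≤ (S.N k).card := S.card_ge k
    have h4 := S.cls2_H4 h2 h01 g i j k hv hij hjk hik hg hj hk (by omega) (by omega)
    omega
  · -- isosceles
    have hval : ∀ i x, x ∈ S.N i → S.val x = 12 ∨ S.val x = 9 ∨ S.val x = 6 ∨ S.val x = 3 ∨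
        S.val x = 7 ∨ S.val x = 4 := fun i x hx => S.CLS2U_val h2 h01 hx
    refine S.toSys.u_noE hn hn' ?_ hU2 ?_ hU4 ?_
    · intro i x hx hv
      have := hval i x hx
      omega
    · intro i g hg hv
      obtain ⟨j, k, hij, hjk, hik, hj, hk⟩ := S.CLS2U_tl hg hv
      by_contra hcon
      push Not at hcon
      have c1 := hcon i hg
      have c2 := hcon k hk
      have c3 := hcon j hj
      have d1 : 3 ≤ (S.N i).card := S.card_ge i
      have d2 : 3 ≤ (S.N k).card := S.card_ge k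
      have d3 : 3 ≤ (S.N j).card := S.card_ge j
      obtain ⟨p, q, r, hpg, hqg, hrg, hpq, hqr, hpr, hpi, hpj, hqj, hqk, hrk, hri⟩ :=
        S.toSys.link3 hv hij hjk hik hg hj hk
      have e1 := S.CLS2U_small (by omega) hg hpi hri hpg hrg hpr hv
      have e2 := S.CLS2U_small (by omega) hj hpj hqj hpg hqg hpq hv
      have e3 := S.CLS2U_small (by omega) hk hqk hrk hqg hrg hqr hv
      have f1 := hval i p hpi
      omega
    · rintro i ⟨_, g, u, p, hg, hu, hp, hvg, hvu, hvp⟩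
      have := hval i p hp
      omega

end Sys3

end Pool.Agent.NNb
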