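import Pool.Agent.NNb.Cnt
import Pool.Agent.NNb.FPhi
import Pool.Agent.NNb.Disch

/-!
Module COSTD.  The potential `f - λ D`.

`D(i) = ∑_{x ∈ N i} (cnt 0 x - cnt 1 x) / val x` has mean zero: the node potential
`ψ i x = (cnt 0 x - cnt 1 x) / val x - [lab i 0 = x] + [lab i 1 = x]` has zero sum at every node
(`∑_{i ∈ tl x} 1 = val x`), is bounded by `3`, and `∑_{x ∈ N i} ψ i x = D(i)`.
`cost lam x = phi (val x - 2) + lam * (cnt 0 x - cnt 1 x) / val x`, so `f i - lam D(i) = 1 - ∑ cost`.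
-/

namespace Pool.Agent.NNb

namespace Sys3

variable {ι : Type} {n : ℕ} (S : Sys3 ι n)

/-- the cost of a node -/
noncomputable def cost (lam : ℝ) (x : ℂ) : ℝ :=
  phi (S.val x - 2) + lam * (((S.cnt 0 x : ℝ) - S.cnt 1 x) / S.val x)

open Classical in
/-- the potential -/
noncomputable def COSTD_psi (i : ι) (x : ℂ) : ℝ :=
  ((S.cnt 0 x : ℝ) - S.cnt 1 x) / S.val x - (if S.lab i 0 = x then 1 else 0) +
    (if S.lab i 1 = x then 1 else 0)

open Classical in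
theorem COSTD_sum_ind (k : Fin 3) (x : ℂ) :
    ∑ i ∈ S.tl x, (if S.lab i k = x then (1 : ℝ) else 0) = S.cnt k x := by
  rw [cnt, Finset.card_filter]
  push_cast
  exact Finset.sum_congr rfl fun i _ => by split_ifs <;> simp

open Classical in
theorem COSTD_sum_node (k : Fin 3) (i : ι) :
    ∑ x ∈ S.N i, (if S.lab i k = x then (1 : ℝ) else 0) = 1 := by
  rw [Finset.sum_ite_eq]
  rw [if_pos (S.lab_mem i k)]

theorem COSTD_cnt_le (k : Fin 3) (x : ℂ) : S.cnt k x ≤ S.val x := by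
  classical
  exact Finset.card_filter_le _ _

theorem COSTD_zs : S.ZS S.COSTD_psi := by
  classical
  intro i x hx
  have h1 : ∑ j ∈ S.tl x, S.COSTD_psi j x = S.val x * (((S.cnt 0 x : ℝ) - S.cnt 1 x) / S.val x) -
      S.cnt 0 x + S.cnt 1 x := by
    simp only [COSTD_psi]
    rw [Finset.sum_add_distrib, Finset.sum_sub_distrib, S.COSTD_sum_ind, S.COSTD_sum_ind,
      Finset.sum_const, nsmul_eq_mul]
    rfl
  rw [h1]
  have hv : (S.val x : ℝ) ≠ 0 := by
    have := S.val_ge hx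
    positivity
  field_simp
  ring

theorem COSTD_bdd (i : ι) {x : ℂ} (hx : x ∈ S.N i) : |S.COSTD_psi i x| ≤ 3 := by
  classical
  have hv : (0 : ℝ) < S.val x := by
    have := S.val_ge hx
    positivity
  have h0 : (S.cnt 0 x : ℝ) ≤ S.val x := by exact_mod_cast S.COSTD_cnt_le 0 x
  have h1 : (S.cnt 1 x : ℝ) ≤ S.val x := by exact_mod_cast S.COSTD_cnt_le 1 x
  have h0' : (0 : ℝ) ≤ S.cnt 0 x := Nat.cast_nonneg _
  have h1' : (0 : ℝ) ≤ S.cnt 1 x := Nat.cast_nonneg _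
  have h2 : |((S.cnt 0 x : ℝ) - S.cnt 1 x) / S.val x| ≤ 1 := by
    rw [abs_div, abs_of_pos hv, div_le_one hv, abs_le]
    constructor <;> linarith
  rw [abs_le] at h2
  rw [COSTD_psi, abs_le]
  constructor <;> split_ifs <;> linarith [h2.1, h2.2]

theorem COSTD_sum (i : ι) : ∑ x ∈ S.N i, S.COSTD_psi i x =
    ∑ x ∈ S.N i, ((S.cnt 0 x : ℝ) - S.cnt 1 x) / S.val x := by
  classical
  simp only [COSTD_psi]
  rw [Finset.sum_add_distrib, Finset.sum_sub_distrib, S.COSTD_sum_node, S.COSTD_sum_node]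
  ring

theorem COSTD_cost (lam : ℝ) (i : ι) : 1 - ∑ x ∈ S.N i, S.cost lam x =
    S.f i + ∑ x ∈ S.N i, (-lam) * S.COSTD_psi i x := by
  rw [← Finset.mul_sum, S.COSTD_sum, S.f_eq]
  simp only [cost]
  rw [Finset.sum_add_distrib, ← Finset.mul_sum]
  ring

theorem no_neg_cost (lam : ℝ) {φ : ι → ℂ → ℝ} (h : S.ZS φ) (hb : S.Bdd φ) {c : ℝ}
    (hc : 0 < c) (hneg : ∀ i, 1 - ∑ x ∈ S.N i, S.cost lam x + ∑ x ∈ S.N i, φ i x ≤ -c) :
    False := by
  refine S.no_neg_f (φ := fun i x => (-lam) * S.COSTD_psi i x + φ i x)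
    (S.ZS_add (fun i x hx => ?_) h) (S.Bdd_add ⟨|lam| * 3, fun i x hx => ?_⟩ hb) hc fun i => ?_
  · rw [← Finset.mul_sum, S.COSTD_zs i x hx, mul_zero]
  · rw [abs_mul, abs_neg]
    exact mul_le_mul_of_nonneg_left (S.COSTD_bdd i hx) (abs_nonneg _)
  · have h1 := hneg i
    rw [S.COSTD_cost] at h1
    rw [Finset.sum_add_distrib]
    linarith

theorem no_neg_cost' (lam : ℝ) {c : ℝ} (hc : 0 < c)
    (hneg : ∀ i, 1 - ∑ x ∈ S.N i, S.cost lam x ≤ -c) : False := by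
  refine S.no_neg_cost lam (φ := fun _ _ => 0) (fun i x _ => by simp) ⟨0, fun i x _ => by simp⟩
    hc fun i => ?_
  simpa using hneg i

end Sys3

end Pool.Agent.NNb
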