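import Pool.Agent.NNb.TypeDefs
import Pool.Agent.NNb.CostD

/-!
Module TYPE45.  The node types for `θ 0 = π/8` (`K = 4`) and `θ 0 = π/10` (`K = 5`), `θ 2 = π/2`.

`ang_cnt` divided by `θ 0 = π/(2K)` (`θ 1 = (K-1) θ 0`, `θ 2 = K θ 0`, `π = 2 K θ 0`):
`cnt 0 + (K - 1) cnt 1 + K cnt 2 + 2 K fl = 4 K`, `fl ≤ 1` (`fl_le`); enumerate (`cnt 1 ≤ 5`, `cnt 2 ≤ 4`).
`tval_ty`: `val_cnt`.  `cost_ty`: `phi_val` with `val ≥ 3`.
-/

namespace Pool.Agent.NNb

namespace Sys3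

variable {ι : Type} {n : ℕ} (S : Sys3 ι n)

/-- the type of a node -/
noncomputable def ty (x : ℂ) : ℕ × ℕ × ℕ × ℕ := (S.cnt 0 x, S.cnt 1 x, S.cnt 2 x, S.fl x)

theorem tval_ty (x : ℂ) : tval (S.ty x) = S.val x := by
  rw [S.val_cnt]
  rfl

theorem cost_ty (lam : ℚ) {i : ι} {x : ℂ} (hx : x ∈ S.N i) :
    S.cost (lam : ℝ) x = ((cq lam (S.ty x) : ℚ) : ℝ) := by
  have h3 : 2 ≤ S.val x := le_trans (by norm_num) (S.val_ge hx)
  rw [cost, phi_val h3, cq, S.tval_ty]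
  push_cast
  rfl

theorem TYPE45_a (a b c f : ℕ) (hf : f ≤ 1) (h : a + 3 * b + 4 * c + 8 * f = 16) :
    (a, b, c, f) ∈ types4 := by
  obtain rfl : a = 16 - 3 * b - 4 * c - 8 * f := by omega
  have hb : b ≤ 5 := by omega
  have hc : c ≤ 4 := by omega
  interval_cases f <;> interval_cases b <;> interval_cases c <;>
    first
    | (exfalso; omega)
    | decide

theorem TYPE45_b (a b c f : ℕ) (hf : f ≤ 1) (h : a + 4 * b + 5 * c + 10 * f = 20) :
    (a, b, c, f) ∈ types5 := by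
  obtain rfl : a = 20 - 4 * b - 5 * c - 10 * f := by omega
  have hb : b ≤ 5 := by omega
  have hc : c ≤ 4 := by omega
  interval_cases f <;> interval_cases b <;> interval_cases c <;>
    first
    | (exfalso; omega)
    | decide

theorem ty4 (h2 : S.θ 2 = Real.pi / 2) (h0 : S.θ 0 = Real.pi / 8) {i : ι} {x : ℂ}
    (hx : x ∈ S.N i) : S.ty x ∈ types4 := by
  refine TYPE45_a _ _ _ _ (S.fl_le hx) ?_
  have h1 : S.θ 1 = 3 * Real.pi / 8 := by
    have := S.θ_sum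
    rw [h0, h2] at this
    linarith
  have h := S.ang_cnt hx
  rw [h0, h1, h2] at h
  have h3 : ((S.cnt 0 x : ℝ) + 3 * S.cnt 1 x + 4 * S.cnt 2 x + 8 * S.fl x - 16) *
      (Real.pi / 8) = 0 := by linarith
  rcases mul_eq_zero.1 h3 with h4 | h4
  · have h5 : ((S.cnt 0 x + 3 * S.cnt 1 x + 4 * S.cnt 2 x + 8 * S.fl x : ℕ) : ℝ) =
        ((16 : ℕ) : ℝ) := by
      push_cast
      linarith
    exact_mod_cast h5
  · exact absurd h4 (by positivity)

theorem ty5 (h2 : S.θ 2 = Real.pi / 2) (h0 : S.θ 0 = Real.pi / 10) {i : ι} {x : ℂ}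
    (hx : x ∈ S.N i) : S.ty x ∈ types5 := by
  refine TYPE45_b _ _ _ _ (S.fl_le hx) ?_
  have h1 : S.θ 1 = 4 * Real.pi / 10 := by
    have := S.θ_sum
    rw [h0, h2] at this
    linarith
  have h := S.ang_cnt hx
  rw [h0, h1, h2] at h
  have h3 : ((S.cnt 0 x : ℝ) + 4 * S.cnt 1 x + 5 * S.cnt 2 x + 10 * S.fl x - 20) *
      (Real.pi / 10) = 0 := by linarith
  rcases mul_eq_zero.1 h3 with h4 | h4
  · have h5 : ((S.cnt 0 x + 4 * S.cnt 1 x + 5 * S.cnt 2 x + 10 * S.fl x : ℕ) : ℝ) =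
        ((20 : ℕ) : ℝ) := by
      push_cast
      linarith
    exact_mod_cast h5
  · exact absurd h4 (by positivity)

end Sys3

end Pool.Agent.NNb
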