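import Pool.Agent.NNb.NV2
import Pool.Agent.NNb.Type45
import Pool.Agent.NNb.Link

/-!
Module K418.  Right triangles with `θ 0 = π/8` (`θ 1 = 3π/8`), `n = 18`: `A`- and `E`-tiles.

A node `p` of valence `16 = n - 2` has type `(16,0,0,0)` (`ty4`, `tval_ty`), so every tile `t` at `p` has
`lab t 0 = p` (`lab_of_cnt`).  A 4-valent node has type `(0,0,4,0)` or `(1,1,1,1)`, so `cnt 1 ≤ 1`.
Lengths (`side`): `dist (lab 0) (lab 1) = ρ`, `dist (lab 0) (lab 2) = ρ sin (3π/8)`,
`dist (lab 1) (lab 2) = ρ sin (π/8)`; `2 sin (π/8) < sin (3π/8) < 1`, `sin (π/8) + sin (3π/8) > 1`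
(`sin (3π/8) = cos (π/8)`, `tan (π/8) = √2 - 1 < 1/2`; or numerically `sin (π/8) < 0.3927`,
`cos (π/8) ≥ 1 - (π/8)²/2 > 0.92`, `sin x + cos x > 1` for `0 < x < π/2`).

(C) Claim: if `val p = 16`, `t ∋ p`, `val (lab t 1) = 4`, then `p, lab t 1` are not partners on `t`.  Otherwise let
`t'` be the other tile containing them (`part_other`), `lab t' 0 = p`; by `part_corner` `lab t 1` is in
`segment p (lab t' l)`, `l ∈ {1, 2}`, and `dist p (lab t 1) = ρ`.  `l = 2` is impossible (`ρ sin (θ 1) < ρ`), so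
`l = 1` and `lab t 1 = lab t' 1` (a point of a segment from `p` at distance equal to its length), so
`cnt 1 (lab t 1) ≥ 2`.

`k4_noA`: an `A`-tile `t` has three nodes, `p = lab t 0` and `lab t 1`, `lab t 2` 4-valent; `p` and `lab t 1` are
partners (`part_of_three`): (C).

`k4_U5`: Let `IsE i`, `N i = {p, u, g}`, `val p = 16`, `val u = 5`, `val g = 3`: `p = lab i 0`; `g = lab i 2`
(`r90_three`: `cnt 0 g = cnt 1 g = 0`), so `u = lab i 1`.  Let `R ≠ i` be the tile `j` of the statement (it contains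
`g, u`), `tl g = {i, R, Q}`; `link3`: `i` and `Q` share `p` (as `u` is shared with `R`), `R` and `Q` share a node
`s ≠ g`.  `lab Q 0 = p`.  The partners of `g` on `R` are `u` and `s`.  `cnt 2 g = 2`, `fl g = 1`: exactly one of
`R`, `Q` is flat at `g`, the other one has `lab · 2 = g`.

Case 1: `Q` is flat at `g`, `g = lab R 2`.  By `hub3` for `Q` (`p = lab Q 0`, there is the non-corner node `g`):
`|N Q| = 4`, `val (lab Q 1) = 4`, `N Q = {p, lab Q 1, lab Q 2, g}`.  `g` is a partner of `p` on `Q`, so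
`g ∈ segment p (lab Q l)`; `dist p g = ρ sin (θ 1)` (`side` for `i`), which is the length of the side `l = 2`,
and `g ≠ lab Q 2`, so `l = 1`.  `s` is a partner of `g` on `Q`, `s ≠ p`, so `s ∈ segment g (lab Q 1)`
(`part_flat_two`) and `s` is a node of `Q`: `s = lab Q 1`.  So `val s = 4`: this gives the second statement
(a partner `z ≠ u` of `g` on `R` is `s`).  `dist g s = ρ - ρ sin (θ 1) < ρ sin (θ 0)`, `s` is on a side of `R`
at `lab R 2 = g` (`part_corner`) of length `ρ sin (θ 0)` or `ρ sin (θ 1)`, so `s ∉ C R`, and `|N R| ≥ 4`.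

Case 2: `R` is flat at `g`, `g = lab Q 2`.  By `hub3` for `Q` (`p = lab Q 0`; not the first kind because
`val (lab Q 2) = 3`): either `|N Q| = 3`, `val (lab Q 1) = 5`, or `|N Q| = 4`, `val (lab Q 1) = 4` and there is one
node `x ∉ C Q`, `val x = 3`.  Claim `s = lab Q 1`: clear if `|N Q| = 3`.  If `|N Q| = 4`: by (C) `p` and `lab Q 1` are
not partners on `Q`, so there is a node strictly between them on the side `0 1` (`part_dir` from
`lab Q 0` towards `lab Q 1` gives a partner of `p` on this side, it is not `lab Q 1`, so it is `x`); hence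
`x` is not on the other sides (`side_inter`), and `part_dir` from `g = lab Q 2` towards `lab Q 1` gives a
partner of `g` on the side `2 1`, which is `lab Q 1`; it is not `p`, so it is `s` (`part` on `Q`).
So `val s ∈ {4, 5}` and `dist g s = ρ sin (θ 0) = dist g u`.
`R` is flat at `g` (`on_side`): `g` is strictly inside a side `k l` of `R`; by `part_flat_two` `u` and `s` are in
`segment g (lab R k)` and `segment g (lab R l)` (in some order).  If both were corners of `R` they would be
the two ends, and `dist (lab R k) (lab R l) = dist u g + dist g s = 2 ρ sin (θ 0)`, but the sides have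
lengths `ρ sin (θ 0)`, `ρ sin (θ 1)`, `ρ`, all different from this.  So `u` or `s` is not a corner of `R`,
`g` is not a corner either: `|N R| ≥ 5`.
-/

namespace Pool.Agent.NNb

theorem K418_t16 : ∀ t ∈ types4, tval t = 16 → t.1 = 16 := by decide

theorem K418_t4 : ∀ t ∈ types4, tval t = 4 → t.2.1 ≤ 1 := by decide

theorem K418_k0 (k l : Fin 3) (h : (k = 0 ∧ l = 1) ∨ (k = 1 ∧ l = 0)) (hk : k = 0) : l = 1 := by
  rcases h with ⟨_, h⟩ | ⟨h, _⟩
  · exact h
  · rw [hk] at h
    exact absurd h (by decide)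

namespace Sys

variable {ι ν : Type} {m n : ℕ} (S : Sys ι ν m n)

theorem K418_tl3 {x : ν} {i j k : ι} (hv : S.val x = 3) (hij : i ≠ j) (hjk : j ≠ k)
    (hik : i ≠ k) (hi : x ∈ S.N i) (hj : x ∈ S.N j) (hk : x ∈ S.N k) :
    ∀ l, x ∈ S.N l → l = i ∨ l = j ∨ l = k := by
  classical
  have hsub : ({i, j, k} : Finset ι) ⊆ S.tl x := by
    intro l hl
    simp only [Finset.mem_insert, Finset.mem_singleton] at hl
    rw [S.mem_tl]
    rcases hl with rfl | rfl | rfl <;> assumption
  have hcard : ({i, j, k} : Finset ι).card = 3 := by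
    rw [Finset.card_eq_three]
    exact ⟨i, j, k, hij, hik, hjk, rfl⟩
  have heq : ({i, j, k} : Finset ι) = S.tl x := by
    apply Finset.eq_of_subset_of_card_le hsub
    rw [hcard]
    exact hv.le
  intro l hl
  have : l ∈ S.tl x := (S.mem_tl l x).2 hl
  rw [← heq] at this
  simpa using this

end Sys

namespace Sys3

variable {ι : Type} {n : ℕ} (S : Sys3 ι n)

theorem K418_th1 (h2 : S.θ 2 = Real.pi / 2) (h0 : S.θ 0 = Real.pi / 8) :
    S.θ 1 = Real.pi / 2 - Real.pi / 8 := by
  have := S.θ_sum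
  linarith

theorem K418_n1 (h2 : S.θ 2 = Real.pi / 2) (h0 : S.θ 0 = Real.pi / 8) :
    1 < Real.sin (S.θ 0) + Real.sin (S.θ 1) := by
  rw [S.K418_th1 h2 h0, h0, Real.sin_pi_div_two_sub]
  have hpi := Real.pi_pos
  have hs : 0 < Real.sin (Real.pi / 8) := Real.sin_pos_of_pos_of_lt_pi (by linarith) (by linarith)
  have hc : 0 < Real.cos (Real.pi / 8) :=
    Real.cos_pos_of_mem_Ioo ⟨by linarith, by linarith⟩
  have h := Real.sin_sq_add_cos_sq (Real.pi / 8)
  have h3 : 0 < Real.sin (Real.pi / 8) * Real.cos (Real.pi / 8) := mul_pos hs hc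
  nlinarith

theorem K418_n2 (h2 : S.θ 2 = Real.pi / 2) (h0 : S.θ 0 = Real.pi / 8) :
    2 * Real.sin (S.θ 0) < Real.sin (S.θ 1) := by
  rw [S.K418_th1 h2 h0, h0, Real.sin_pi_div_two_sub]
  have hpi := Real.pi_pos
  have hpi2 := Real.pi_lt_d2
  have hs : Real.sin (Real.pi / 8) < Real.pi / 8 := Real.sin_lt (by linarith)
  have hc := Real.one_sub_sq_div_two_le_cos (x := Real.pi / 8)
  have h3 : (Real.pi / 8) ^ 2 ≤ (3.15 / 8) ^ 2 := by
    apply pow_le_pow_left₀ (by linarith)
    linarith
  norm_num at h3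
  norm_num at hpi2
  linarith

theorem K418_lab0 (hn : n = 18) (h2 : S.θ 2 = Real.pi / 2) (h0 : S.θ 0 = Real.pi / 8) {t : ι}
    {p : ℂ} (hp : p ∈ S.N t) (hv : S.val p + 2 = n) : S.lab t 0 = p := by
  apply S.lab_of_cnt hp
  have h := K418_t16 _ (S.ty4 h2 h0 hp) (by rw [S.tval_ty]; omega)
  have h' : S.cnt 0 p = 16 := h
  omega

/-- claim (C) -/
theorem K418_C (hn : n = 18) (h2 : S.θ 2 = Real.pi / 2) (h0 : S.θ 0 = Real.pi / 8) {t : ι}
    (hv : S.val (S.lab t 0) + 2 = n) (h4 : S.val (S.lab t 1) = 4) :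
    ¬ Part S.N t (S.lab t 0) (S.lab t 1) := by
  classical
  intro h
  have hρ := S.ρ_pos
  obtain ⟨t', ht', hpt', _⟩ := S.part_other h
  have hp' : S.lab t' 0 = S.lab t 0 := S.K418_lab0 hn h2 h0 hpt'.1 hv
  have hpart : Part S.N t' (S.lab t' 0) (S.lab t 1) := by
    rw [hp']
    exact hpt'
  obtain ⟨l, hl, hseg⟩ := S.part_corner hpart
  have hd : dist (S.lab t' 0) (S.lab t 1) = S.ρ := by
    rw [hp', (S.side t).2.2, S.NV2_sin2 h2, mul_one]
  rcases NV2_third_ne l hl with rfl | rfl
  · have he : S.lab t 1 = S.lab t' 1 := by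
      by_contra hne
      have h1 := NV2_dist_lt hseg hne
      rw [hd, (S.side t').2.2, S.NV2_sin2 h2, mul_one] at h1
      exact lt_irrefl _ h1
    have hc := K418_t4 _ (S.ty4 h2 h0 (S.lab_mem t 1)) (by rw [S.tval_ty]; exact h4)
    have hc' : S.cnt 1 (S.lab t 1) ≤ 1 := hc
    unfold cnt at hc'
    have h5 := Finset.card_le_one.1 hc' t
      (Finset.mem_filter.2 ⟨(S.mem_tl t _).2 (S.lab_mem t 1), rfl⟩) t'
      (Finset.mem_filter.2 ⟨(S.mem_tl t' _).2 hpt'.2.1, he.symm⟩)
    exact ht' h5.symm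
  · have h1 := NV2_dist_le hseg
    rw [hd, (S.side t').2.1] at h1
    have h3 := S.NV2_sin1 h2
    nlinarith

theorem k4_noA (hn : n = 18) (h2 : S.θ 2 = Real.pi / 2) (h0 : S.θ 0 = Real.pi / 8) (i : ι) :
    ¬ S.toSys.IsA i := by
  rintro ⟨hc, h, hh, hv, hall⟩
  have hp : S.lab i 0 = h := S.K418_lab0 hn h2 h0 hh hv
  have hne : S.lab i 1 ≠ h := by
    rw [← hp]
    exact S.TRIS_ne i (by decide)
  have h4 := hall (S.lab i 1) (S.lab_mem i 1) hne
  refine S.K418_C hn h2 h0 (t := i) (by rw [hp]; exact hv) h4 ?_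
  exact S.part_of_three hc (S.lab_mem i 0) (S.lab_mem i 1) (S.TRIS_ne i (by decide))

theorem K418_card4 {R : ι} {s : ℂ} (hs : s ∈ S.N R) (hsC : s ∉ S.C R) : 4 ≤ (S.N R).card := by
  classical
  have hsub : insert s (S.C R) ⊆ S.N R := Finset.insert_subset hs (S.C_sub R)
  have h := Finset.card_le_card hsub
  rw [Finset.card_insert_of_notMem hsC, S.C_card] at h
  exact h

theorem K418_card5 {R : ι} {s t : ℂ} (hs : s ∈ S.N R) (hsC : s ∉ S.C R) (ht : t ∈ S.N R)
    (htC : t ∉ S.C R) (hst : s ≠ t) : 5 ≤ (S.N R).card := by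
  classical
  have hsub : insert s (insert t (S.C R)) ⊆ S.N R :=
    Finset.insert_subset hs (Finset.insert_subset ht (S.C_sub R))
  have h := Finset.card_le_card hsub
  rw [Finset.card_insert_of_notMem (by simp [hst, hsC]), Finset.card_insert_of_notMem htC,
    S.C_card] at h
  exact h

/-- two points at distance `ρ sin (θ 0)` on both sides of a flat node -/
theorem K418_flat (h2 : S.θ 2 = Real.pi / 2)
    (hn2 : 2 * Real.sin (S.θ 0) < Real.sin (S.θ 1)) {R : ι} {g a b : ℂ} {k l : Fin 3}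
    (hkl : k ≠ l) (hg : g ∈ S.N R) (hgC : g ∉ S.C R)
    (hgs : g ∈ segment ℝ (S.lab R k) (S.lab R l)) (ha : a ∈ S.N R) (hb : b ∈ S.N R)
    (hag : a ≠ g) (hbg : b ≠ g) (has : a ∈ segment ℝ g (S.lab R k))
    (hbs : b ∈ segment ℝ g (S.lab R l)) (hda : dist g a = S.ρ * Real.sin (S.θ 0))
    (hdb : dist g b = S.ρ * Real.sin (S.θ 0)) : 5 ≤ (S.N R).card := by
  have hρ := S.ρ_pos
  have hs0 := S.NV2_sin0
  have hgc : ∀ c, g ≠ S.lab R c := fun c hc => hgC ((S.lab_C R _).2 ⟨c, hc⟩)
  have hgs' : g ∈ segment ℝ (S.lab R l) (S.lab R k) := by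
    rw [segment_symm]
    exact hgs
  have key : ∀ (k l : Fin 3) (a : ℂ), k ≠ l → g ∈ segment ℝ (S.lab R k) (S.lab R l) →
      a ∈ S.N R → a ≠ g → a ∈ segment ℝ g (S.lab R k) → a ≠ S.lab R k → 5 ≤ (S.N R).card := by
    intro k l a hkl hgs ha hag has hak
    have haseg : a ∈ segment ℝ (S.lab R k) (S.lab R l) :=
      (convex_segment (𝕜 := ℝ) (S.lab R k) (S.lab R l)).segment_subset hgs
        (left_mem_segment ℝ _ _) has
    have hal : a ≠ S.lab R l := by
      intro e
      have e1 := NV2_dist hgs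
      have e2 := NV2_dist has
      rw [e] at e2
      have e3 := dist_pos.2 (hgc l)
      have e4 : dist (S.lab R k) g = dist g (S.lab R k) := dist_comm _ _
      have e5 : dist (S.lab R l) (S.lab R k) = dist (S.lab R k) (S.lab R l) := dist_comm _ _
      linarith
    have haC := S.NV2_notC hkl haseg hak hal
    exact S.K418_card5 ha haC hg hgC hag
  by_cases hak : a = S.lab R k
  · by_cases hbl : b = S.lab R l
    · exfalso
      have e1 := NV2_dist hgs
      rw [dist_comm, ← hak, ← hbl, hda, hdb, hak, hbl] at e1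
      have e2 := S.NV2_sin1 h2
      have e3 := S.NV2_sin2 h2
      obtain ⟨c1, c2, c3⟩ := S.side R
      rw [e3] at c3
      have f1 : 0 < S.ρ * Real.sin (S.θ 0) := mul_pos hρ hs0
      have f2 : S.ρ * (2 * Real.sin (S.θ 0)) < S.ρ * Real.sin (S.θ 1) :=
        mul_lt_mul_of_pos_left hn2 hρ
      have f3 : S.ρ * Real.sin (S.θ 1) < S.ρ * 1 := mul_lt_mul_of_pos_left e2 hρ
      have d1 : dist (S.lab R 2) (S.lab R 1) = S.ρ * Real.sin (S.θ 0) := by
        rw [dist_comm]; exact c1
      have d2 : dist (S.lab R 2) (S.lab R 0) = S.ρ * Real.sin (S.θ 1) := by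
        rw [dist_comm]; exact c2
      have d3 : dist (S.lab R 1) (S.lab R 0) = S.ρ * 1 := by
        rw [dist_comm]; exact c3
      have hcase : dist (S.lab R k) (S.lab R l) = S.ρ * Real.sin (S.θ 0) ∨
          dist (S.lab R k) (S.lab R l) = S.ρ * Real.sin (S.θ 1) ∨
          dist (S.lab R k) (S.lab R l) = S.ρ * 1 := by
        clear e1 has hbs hgs hgs' hak hbl
        fin_cases k <;> fin_cases l <;> first
          | exact absurd rfl hkl
          | exact Or.inl c1
          | exact Or.inl d1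
          | exact Or.inr (Or.inl c2)
          | exact Or.inr (Or.inl d2)
          | exact Or.inr (Or.inr c3)
          | exact Or.inr (Or.inr d3)
      rcases hcase with e | e | e
      · linarith
      · linarith
      · linarith
    · exact key l k b hkl.symm hgs' hb hbg hbs hbl
  · exact key k l a hkl hgs ha hag has hak

theorem k4_U5 (hn : n = 18) (h2 : S.θ 2 = Real.pi / 2) (h0 : S.θ 0 = Real.pi / 8) :
    S.toSys.U5 := by
  intro i R g u hE hRi hgi hui hvg hvu hgR huR
  obtain ⟨hc3, g₀, u₀, p, hg₀, hu₀, hpi, hvg₀, hvu₀, hvp⟩ := hE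
  have hρ := S.ρ_pos
  have hs0 := S.NV2_sin0
  have hn1 := S.K418_n1 h2 h0
  have hn2 := S.K418_n2 h2 h0
  have hs1 := S.NV2_sin1 h2
  have hs2 := S.NV2_sin2 h2
  have hp0 : S.lab i 0 = p := S.K418_lab0 hn h2 h0 hpi hvp
  have hgu : g ≠ u := by
    intro e
    rw [e, hvu] at hvg
    omega
  have hgp : g ≠ p := by
    intro e
    rw [← e, hvg] at hvp
    omega
  have hup : u ≠ p := by
    intro e
    rw [← e, hvu] at hvp
    omega
  have hgCi : g ∈ S.C i := by
    rw [← S.card3_corner hc3]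
    exact hgi
  have hgi2 : g = S.lab i 2 := S.NV2_lab2 h2 hvg hgCi
  have hui1 : u = S.lab i 1 := by
    rcases (S.card3_mem hc3 u).1 hui with e | e | e
    · exact absurd (e.trans hp0) hup
    · exact e
    · exact absurd (hgi2.trans e.symm) hgu
  -- the third tile at `g`
  obtain ⟨Q, hQi, hQR, hgQ⟩ := S.NV2_third hvg hRi.symm hgi hgR
  obtain ⟨p', s, r', hp'g, hsg, hr'g, hp's, hsr', hp'r', hp'i, hp'R, hsR, hsQ, hr'Q, hr'i⟩ :=
    S.link3 hvg hRi.symm hQR.symm hQi.symm hgi hgR hgQ
  have hp'u : p' = u := by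
    rcases S.three i R g u p' hRi.symm hgi hui hp'i hgR huR hp'R with e | e | e
    · exact absurd e hgu
    · exact e.symm
    · exact absurd e.symm hp'g
  rw [hp'u] at hp's hp'r'
  have hr'p : r' = p := by
    rcases (S.card3_mem hc3 r').1 hr'i with e | e | e
    · exact e.trans hp0
    · exact absurd (hui1.trans e.symm) hp'r'
    · exact absurd (e.trans hgi2.symm) hr'g
  rw [hr'p] at hsr' hr'Q
  have hQ0 : S.lab Q 0 = p := S.K418_lab0 hn h2 h0 hr'Q hvp
  -- partners
  have pRu : Part S.N R g u := ⟨hgR, huR, hgu, i, hRi.symm, hgi, hui⟩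
  have pRs : Part S.N R g s := ⟨hgR, hsR, hsg.symm, Q, hQR, hgQ, hsQ⟩
  have pQp : Part S.N Q g p := ⟨hgQ, hr'Q, hgp, i, hQi.symm, hgi, hpi⟩
  have pQs : Part S.N Q g s := ⟨hgQ, hsQ, hsg.symm, R, hQR.symm, hgR, hsR⟩
  have hzs : ∀ z, z ≠ u → Part S.N R g z → z = s := by
    intro z hzu hz
    rcases S.not_three_partners pRu pRs hz with e | e | e
    · exact absurd e hp's
    · exact e.symm
    · exact absurd e.symm hzu
  have hdgu : dist g u = S.ρ * Real.sin (S.θ 0) := by
    rw [hgi2, hui1, dist_comm]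
    exact (S.side i).1
  have hdpg : dist p g = S.ρ * Real.sin (S.θ 1) := by
    rw [hgi2, ← hp0]
    exact (S.side i).2.1
  -- the tile `Q`
  obtain ⟨k, l, hkl, hpk, hQ3⟩ : ∃ k l : Fin 3, ((k = 0 ∧ l = 1) ∨ (k = 1 ∧ l = 0)) ∧
      p = S.lab Q k ∧
      (((S.N Q).card = 3 ∧ S.val (S.lab Q l) = 4 ∧ S.val (S.lab Q 2) = 4) ∨
       ((S.N Q).card = 3 ∧ S.val (S.lab Q l) = 5 ∧ S.val (S.lab Q 2) = 3) ∨
       ((S.N Q).card = 4 ∧ S.val (S.lab Q l) = 4 ∧ S.val (S.lab Q 2) = 3 ∧
        ∃ x, x ∈ S.N Q ∧ x ∉ S.C Q ∧ S.val x = 3 ∧ ∀ y ∈ S.N Q, y ∈ S.C Q ∨ y = x)) := by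
    rcases S.hub3 (by omega) h2 hr'Q hvp with ⟨h, _⟩ | h
    · rw [← hQ0] at h
      exact absurd (S.lab_inj Q h) (by decide)
    · exact h
  have hk0 : k = 0 := by
    rw [← hQ0] at hpk
    exact (S.lab_inj Q hpk).symm
  have hl1 : l = 1 := K418_k0 k l hkl hk0
  rw [hl1] at hQ3
  by_cases hgCQ : g ∈ S.C Q
  · -- case 2
    have hgQ2 : g = S.lab Q 2 := S.NV2_lab2 h2 hvg hgCQ
    have hgCR : g ∉ S.C R := by
      intro hcon
      have h3 := (S.r90_three h2 hgi hvg).2.2.2
      classical
      unfold fl at h3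
      obtain ⟨w, hw⟩ := Finset.card_pos.1 (by rw [h3]; exact one_pos)
      rw [Finset.mem_filter, S.mem_tl] at hw
      rcases S.K418_tl3 hvg hRi.symm hQR.symm hQi.symm hgi hgR hgQ w hw.1 with e | e | e
      · rw [e] at hw
        exact hw.2 hgCi
      · rw [e] at hw
        exact hw.2 hcon
      · rw [e] at hw
        exact hw.2 hgCQ
    have hs1v : s = S.lab Q 1 ∧ (S.val s = 4 ∨ S.val s = 5) := by
      rcases hQ3 with ⟨_, _, h⟩ | ⟨hc, h5, _⟩ | ⟨_, h4, _, x, hx, hxC, _, hall⟩
      · rw [← hgQ2, hvg] at h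
        omega
      · have e : s = S.lab Q 1 := by
          rcases (S.card3_mem hc s).1 hsQ with e | e | e
          · exact absurd (e.trans hQ0) hsr'
          · exact e
          · exact absurd (e.trans hgQ2.symm) hsg
        exact ⟨e, Or.inr (by rw [e]; exact h5)⟩
      · have hnp := S.K418_C hn h2 h0 (t := Q) (by rw [hQ0]; exact hvp) h4
        obtain ⟨y, hy, hys⟩ := S.part_dir Q 0 1 (S.lab Q 0) (S.lab_mem Q 0) (by decide)
          (left_mem_segment ℝ _ _) (S.TRIS_ne Q (by decide))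
        have hy1 : y ≠ S.lab Q 1 := by
          intro e
          rw [e] at hy
          exact hnp hy
        have hyC : y ∉ S.C Q := S.NV2_notC (by decide) hys hy.2.2.1.symm hy1
        have hyx : y = x := by
          rcases hall y hy.2.1 with h | h
          · exact absurd h hyC
          · exact h
        obtain ⟨w, hw, hws⟩ := S.part_dir Q 2 1 (S.lab Q 2) (S.lab_mem Q 2) (by decide)
          (left_mem_segment ℝ _ _) (S.TRIS_ne Q (by decide))
        have hw1 : w = S.lab Q 1 := by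
          by_contra hcon
          have hwC : w ∉ S.C Q := S.NV2_notC (by decide) hws hw.2.2.1.symm hcon
          have hwx : w = x := by
            rcases hall w hw.2.1 with h | h
            · exact absurd h hwC
            · exact h
          have hxx : w = y := hwx.trans hyx.symm
          rw [segment_symm] at hws hys
          rw [← hxx] at hys
          exact hcon (S.side_inter Q (by decide) (by decide) (by decide) hws hys)
        have e : s = S.lab Q 1 := by
          rw [← hgQ2] at hw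
          rcases S.not_three_partners pQp pQs hw with e | e | e
          · exact absurd e.symm hsr'
          · exact e.trans hw1
          · exfalso
            rw [hw1, ← hQ0] at e
            exact S.TRIS_ne Q (by decide) e
        exact ⟨e, Or.inl (by rw [e]; exact h4)⟩
    obtain ⟨hs1', hvs⟩ := hs1v
    have hdgs : dist g s = S.ρ * Real.sin (S.θ 0) := by
      rw [hgQ2, hs1', dist_comm]
      exact (S.side Q).1
    obtain ⟨a, b, hab, hsb⟩ := S.on_side R g hgR hgCR
    have hgseg : g ∈ segment ℝ (S.lab R a) (S.lab R b) := hsb.wbtw.mem_segment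
    have hgb : g ≠ S.lab R a := fun e => hgCR ((S.lab_C R _).2 ⟨a, e⟩)
    have h5 : 5 ≤ (S.N R).card := by
      obtain ⟨y, hy, hys⟩ := S.part_dir R b a g hgR hab.symm
        (by rw [segment_symm]; exact hgseg) hgb
      rcases S.not_three_partners pRu pRs hy with e | e | e
      · exact absurd e hp's
      · rw [← e] at hys
        have hu2 := S.part_flat_two hgCR hgseg hab hp's.symm pRs pRu hys
        exact S.K418_flat h2 hn2 hab hgR hgCR hgseg hsR huR hsg hgu.symm hys hu2 hdgs hdgu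
      · rw [← e] at hys
        have hs2' := S.part_flat_two hgCR hgseg hab hp's pRu pRs hys
        exact S.K418_flat h2 hn2 hab hgR hgCR hgseg huR hsR hgu.symm hsg hys hs2' hdgu hdgs
    refine ⟨by omega, fun z hzu hz => ?_⟩
    rw [hzs z hzu hz]
    rcases hvs with h | h
    · exact Or.inl h
    · exact Or.inr ⟨h, h5⟩
  · -- case 1
    have hgCR : g ∈ S.C R := S.NV2_flat hgQ hgR hgCQ hQR.symm
    have hgR2 : g = S.lab R 2 := S.NV2_lab2 h2 hvg hgCR
    have h4 : S.val (S.lab Q 1) = 4 ∧ ∀ y ∈ S.N Q, y ∈ S.C Q ∨ y = g := by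
      rcases hQ3 with ⟨hc, _, _⟩ | ⟨hc, _, _⟩ | ⟨_, h4, _, x, hx, hxC, _, hall⟩
      · exfalso
        apply hgCQ
        rw [← S.card3_corner hc]
        exact hgQ
      · exfalso
        apply hgCQ
        rw [← S.card3_corner hc]
        exact hgQ
      · have hgx : g = x := by
          rcases hall g hgQ with h | h
          · exact absurd h hgCQ
          · exact h
        rw [hgx]
        exact ⟨h4, hall⟩
    obtain ⟨h4, hall⟩ := h4
    have hQpg : Part S.N Q (S.lab Q 0) g := by
      rw [hQ0]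
      exact S.part_symm pQp
    obtain ⟨l', hl', hseg⟩ := S.part_corner hQpg
    have hl'1 : l' = 1 := by
      rcases NV2_third_ne l' hl' with e | e
      · exact e
      · exfalso
        rw [e] at hseg
        apply hgCQ
        have : g = S.lab Q 2 := by
          by_contra hne
          have h1 := NV2_dist_lt hseg hne
          rw [hQ0, hdpg, ← hQ0, (S.side Q).2.1] at h1
          exact lt_irrefl _ h1
        exact (S.lab_C Q g).2 ⟨2, this⟩
    rw [hl'1] at hseg
    have hsseg : s ∈ segment ℝ g (S.lab Q 1) := by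
      refine S.part_flat_two hgCQ hseg (by decide) hsr'.symm pQp pQs ?_
      rw [hQ0]
      exact right_mem_segment ℝ _ _
    have hs1' : s = S.lab Q 1 := by
      by_contra hcon
      have hsseg' : s ∈ segment ℝ (S.lab Q 0) (S.lab Q 1) :=
        (convex_segment (𝕜 := ℝ) (S.lab Q 0) (S.lab Q 1)).segment_subset hseg
          (right_mem_segment ℝ _ _) hsseg
      have hsC : s ∉ S.C Q := S.NV2_notC (by decide) hsseg' (by rw [hQ0]; exact hsr') hcon
      rcases hall s hsQ with h | h
      · exact hsC h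
      · exact hsg h
    have hdgs : dist g s < S.ρ * Real.sin (S.θ 0) := by
      have e1 := NV2_dist hseg
      rw [hQ0, hdpg, ← hQ0, (S.side Q).2.2, hs2, ← hs1'] at e1
      nlinarith
    have hpR : Part S.N R (S.lab R 2) s := by
      rw [← hgR2]
      exact pRs
    obtain ⟨m, hm, hms⟩ := S.part_corner hpR
    have hsm : s ≠ S.lab R m := by
      intro e
      have e0 : S.ρ * Real.sin (S.θ 0) ≤ dist (S.lab R 2) (S.lab R m) := by
        rw [dist_comm]
        obtain ⟨c1, c2, c3⟩ := S.side R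
        have hm2 : m = 0 ∨ m = 1 := by
          revert hm
          generalize m = m'
          revert m'
          decide
        rcases hm2 with e' | e'
        · rw [e', c2]
          exact mul_le_mul_of_nonneg_left (by linarith) hρ.le
        · rw [e', c1]
      rw [← e, ← hgR2] at e0
      linarith
    have hsC : s ∉ S.C R := S.NV2_notC hm.symm hms (by rw [← hgR2]; exact hsg) hsm
    refine ⟨S.K418_card4 hsR hsC, fun z hzu hz => ?_⟩
    rw [hzs z hzu hz, hs1']
    exact Or.inl h4

end Sys3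

end Pool.Agent.NNb
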