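import Pool.Agent.NNb.NV2
import Pool.Agent.NNb.Type45

/-!
Module K5NOHUB.  Right triangles with `θ 0 = π/10` (`θ 1 = 2π/5`), `17 ≤ n ≤ 20`: no node of valence
`n - 2`.

By `ty5`, `tval_ty` the valence `n - 2 ∈ {15, 16, 17, 18}` of `p` must be `16` with type `(15,0,1,0)` or `17`
with type `(16,1,0,0)` (check the 22 types).
`(15,0,1,0)`: let `G` be the tile with `lab G 2 = p` (`cnt 2 p = 1`).  `|N G| = 3` (`hub3`); let `N1` be the other tile
with `p` and `lab G 1` (`part_of_three`, `part_other`).  `fl p = 0`, `cnt 1 p = 0`, `cnt 2 p = 1`, so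
`lab N1 0 = p`.  `hub_gamma`.
`(16,1,0,0)`: let `H` be the tile with `lab H 1 = p` (`cnt 1 p = 1`).  Let `q` be the partner of `p` on `H` with
`q ∈ segment p (lab H 2)` (`part_dir` with `k = 1`, `l = 2`), `N1` the other tile with `p, q`.  `fl p = 0`,
`cnt 2 p = 0`, `cnt 1 p = 1`, so `lab N1 0 = p`.  `hub_beta`: `2 sin (π/10) < sin (2π/5)`, since
`sin (2π/5) = cos (π/10)` and `tan (π/10) < tan (π/8) = √2 - 1 < 1/2` (or: `sin (π/10) ≤ π/10 < 0.3142`, so
`2 sin (π/10) < 0.63`, and `cos (π/10) ≥ 1 - (π/10)²/2 > 0.95`).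
-/

namespace Pool.Agent.NNb

namespace Sys3

variable {ι : Type} {n : ℕ} (S : Sys3 ι n)

theorem K5NOHUB_sin (h2 : S.θ 2 = Real.pi / 2) (h0 : S.θ 0 = Real.pi / 10) :
    2 * Real.sin (S.θ 0) < Real.sin (S.θ 1) := by
  have h1 : S.θ 1 = Real.pi / 2 - Real.pi / 10 := by
    have := S.θ_sum
    rw [h0, h2] at this
    linarith
  have hpi := Real.pi_pos
  have hpi2 := Real.pi_lt_d2
  rw [h1, Real.sin_pi_div_two_sub, h0]
  have a1 : Real.sin (Real.pi / 10) < Real.pi / 10 := Real.sin_lt (by positivity)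
  have a2 := Real.one_sub_sq_div_two_le_cos (x := Real.pi / 10)
  nlinarith

/-- a tile at `p` other than the only one with label `k` has another label -/
theorem K5NOHUB_lab {p : ℂ} {k : Fin 3} (hc : S.cnt k p = 1) {G N1 : ι} (hG : S.lab G k = p)
    (hne : N1 ≠ G) : S.lab N1 k ≠ p := by
  classical
  intro h
  unfold cnt at hc
  obtain ⟨a, ha⟩ := Finset.card_eq_one.1 hc
  have h1 : G ∈ (S.tl p).filter (fun i => S.lab i k = p) :=
    Finset.mem_filter.2 ⟨(S.mem_tl _ _).2 (hG ▸ S.lab_mem G k), hG⟩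
  have h2 : N1 ∈ (S.tl p).filter (fun i => S.lab i k = p) :=
    Finset.mem_filter.2 ⟨(S.mem_tl _ _).2 (h ▸ S.lab_mem N1 k), h⟩
  rw [ha, Finset.mem_singleton] at h1 h2
  exact hne (h2.trans h1.symm)

theorem K5NOHUB_ex {p : ℂ} {k : Fin 3} (hc : S.cnt k p = 1) : ∃ G, S.lab G k = p := by
  classical
  unfold cnt at hc
  obtain ⟨a, ha⟩ := Finset.card_eq_one.1 hc
  have h1 : a ∈ (S.tl p).filter (fun i => S.lab i k = p) := by
    rw [ha]; exact Finset.mem_singleton_self a
  exact ⟨a, (Finset.mem_filter.1 h1).2⟩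

theorem K5NOHUB_zero {p : ℂ} {k : Fin 3} (hc : S.cnt k p = 0) (G : ι) : S.lab G k ≠ p := by
  intro h
  have := S.cnt_pos G k
  rw [h, hc] at this
  omega

theorem K5NOHUB_corner {p : ℂ} (hf : S.fl p = 0) {G : ι} (hG : p ∈ S.N G) : p ∈ S.C G := by
  classical
  by_contra h
  unfold fl at hf
  rw [Finset.card_eq_zero] at hf
  have h1 : G ∈ (S.tl p).filter (fun i => p ∉ S.C i) :=
    Finset.mem_filter.2 ⟨(S.mem_tl _ _).2 hG, h⟩
  rw [hf] at h1
  exact absurd h1 (Finset.notMem_empty _)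

theorem k5_nohub (hn : 17 ≤ n) (hn' : n ≤ 20) (h2 : S.θ 2 = Real.pi / 2)
    (h0 : S.θ 0 = Real.pi / 10) {i : ι} {p : ℂ} (hp : p ∈ S.N i) : S.val p + 2 ≠ n := by
  intro hv
  have hty := S.ty5 h2 h0 hp
  have htv := S.tval_ty p
  have hsum := S.θ_sum
  have hpi := Real.pi_pos
  have h01 : S.θ 0 < S.θ 1 := by
    rw [h0, h2] at hsum
    rw [h0]
    linarith
  have key : S.ty p = (15, 0, 1, 0) ∨ S.ty p = (16, 1, 0, 0) := by
    revert hty htv
    generalize S.ty p = t
    intro hty htv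
    have ha : 15 ≤ tval t := by omega
    have hb : tval t ≤ 18 := by omega
    clear htv
    revert t
    unfold types5
    intro t ht
    simp only [List.mem_cons, List.not_mem_nil, or_false] at ht
    rcases ht with rfl | rfl | rfl | rfl | rfl | rfl | rfl | rfl | rfl | rfl | rfl | rfl | rfl |
      rfl | rfl | rfl | rfl | rfl | rfl | rfl | rfl | rfl <;> simp [tval]
  rcases key with hk | hk
  · simp only [ty, Prod.mk.injEq] at hk
    obtain ⟨-, hc1, hc2, hf⟩ := hk
    obtain ⟨G, hG⟩ := S.K5NOHUB_ex hc2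
    have hpG : p ∈ S.N G := hG ▸ S.lab_mem G 2
    have hcard : (S.N G).card = 3 := by
      rcases S.hub3 (by omega) h2 hpG hv with ⟨_, h, _⟩ | ⟨k, l, hkl, hk, _⟩
      · exact h
      · exfalso
        rw [← hG] at hk
        have := S.lab_inj G hk
        rcases hkl with ⟨rfl, _⟩ | ⟨rfl, _⟩ <;> exact absurd this (by decide)
    have hne : p ≠ S.lab G 1 := by
      rw [← hG]
      intro h
      exact absurd (S.lab_inj G h) (by decide)
    obtain ⟨N1, hN1, hP, -⟩ := S.toSys.part_other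
      (S.toSys.part_of_three hcard hpG (S.lab_mem G 1) hne)
    have hl : S.lab N1 0 = p := by
      rcases (S.C_eq N1 p).1 (S.K5NOHUB_corner hf hP.1) with h | h | h
      · exact h.symm
      · exact absurd h.symm (S.K5NOHUB_zero hc1 N1)
      · exact absurd h.symm (S.K5NOHUB_lab hc2 hG hN1)
    exact S.hub_gamma (by omega) h2 h01 (hG.symm ▸ hv) hN1 (hl.trans hG.symm) hP.2.1
  · simp only [ty, Prod.mk.injEq] at hk
    obtain ⟨-, hc1, hc2, hf⟩ := hk
    obtain ⟨H, hH⟩ := S.K5NOHUB_ex hc1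
    have hpH : p ∈ S.N H := hH ▸ S.lab_mem H 1
    have hne : p ≠ S.lab H 2 := by
      rw [← hH]
      intro h
      exact absurd (S.lab_inj H h) (by decide)
    obtain ⟨q, hq, hqs⟩ := S.part_dir H 1 2 p hpH (by decide)
      (by rw [hH]; exact left_mem_segment ℝ _ _) hne
    obtain ⟨N1, hN1, hP, -⟩ := S.toSys.part_other hq
    have hl : S.lab N1 0 = p := by
      rcases (S.C_eq N1 p).1 (S.K5NOHUB_corner hf hP.1) with h | h | h
      · exact h.symm
      · exact absurd h.symm (S.K5NOHUB_lab hc1 hH hN1)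
      · exact absurd h.symm (S.K5NOHUB_zero hc2 N1)
    subst hH
    exact S.hub_beta (by omega) h2 (S.K5NOHUB_sin h2 h0) hv hN1 hl hq hqs hP.2.1

end Sys3

end Pool.Agent.NNb
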