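import Pool.Agent.NNb.Hub3
import Pool.Agent.NNb.Link

/-!
Module NV1.  Right triangles, `n ≥ 15`: no node of valence `n - 1`.

Suppose `val p = n - 1 ≥ 14`.  By `hub3'` every tile `t` at `p` has exactly three nodes `p`, `lab t 2` (3-valent)
and a 4-valent node `w t`, and `p` has label `0` or `1` and `w t` the other one of these labels.  Let `t'`
be the other tile containing `p` and `w t` (`part_of_three`, `part_other`); `w t' = w t` (it is the only
4-valent node of `t'`), `t'' = t`, `t' ≠ t`.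
Claim: `ang t p + ang t' p ≥ π/3`.  Let `w = w t`, `a, b, c = cnt 0, 1, 2 w`, `a + b + c + fl = 4`.
`ang t p = π/2 - ang t w`, `ang t' p = π/2 - ang t' w` (`θ 0 + θ 1 = π/2`).
The angle equation at `w`: `a θ 0 + b θ 1 + c π/2 + fl π = 2π`, `a + b ≥ 2` (the tiles `t, t'`).  `fl = 0`:
`a + b + c = 4` with `a + b ≥ 2` and `θ 0, θ 1 < π/2`: sum `< 2π`, impossible.  So `fl = 1` (`fl_le`),
`a + b + c = 3`: `c = 0`: `a θ 0 + b θ 1 = π = 2 (θ 0 + θ 1)` with `a + b = 3`, so `(a - 2) θ 0 + (b - 2) θ 1 = 0`: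
only `(0,3)` with `θ 1 = 2 θ 0`, i.e. `θ 0 = π/6` (`(3,0)` would give `θ 0 = 2 θ 1`); then `w = lab t 1 = lab t' 1`,
`ang t p = ang t' p = θ 0 = π/6`.  `c = 1`: `a + b = 2`: `t, t'` are exactly the two tiles with label `0` or `1`
at `w`, and `ang t w + ang t' w = π/2`; so `ang t p + ang t' p = π/2`.  `c ≥ 2` is impossible.
Sum over `tl p` (`t ↦ t'` is a bijection of `tl p`): `4π = ∑ (ang t p + ang t' p) ≥ val p · π/3`, so
`val p ≤ 12`.  Contradiction.
-/

namespace Pool.Agent.NNb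

namespace Sys3

variable {ι : Type} {n : ℕ} (S : Sys3 ι n)

/-- two tiles with the label 1 at a node of valence 4: `θ 0 ≥ π/6` -/
theorem NV1_th (h2 : S.θ 2 = Real.pi / 2) {t t' : ι} (hne : t' ≠ t) {w : ℂ}
    (hv : S.val w = 4) (h1 : S.lab t 1 = w) (h1' : S.lab t' 1 = w) :
    Real.pi / 6 ≤ S.θ 0 := by
  classical
  have hw : w ∈ S.N t := h1 ▸ S.lab_mem t 1
  have hw' : w ∈ S.N t' := h1' ▸ S.lab_mem t' 1
  have hb : 2 ≤ S.cnt 1 w := by
    have hs : ({t, t'} : Finset ι) ⊆ (S.tl w).filter (fun i => S.lab i 1 = w) := by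
      intro k hk
      rw [Finset.mem_insert, Finset.mem_singleton] at hk
      rcases hk with rfl | rfl
      · exact Finset.mem_filter.2 ⟨(S.mem_tl _ _).2 hw, h1⟩
      · exact Finset.mem_filter.2 ⟨(S.mem_tl _ _).2 hw', h1'⟩
    have h := Finset.card_le_card hs
    rwa [Finset.card_pair hne.symm] at h
  have hvc := S.val_cnt w
  have hac := S.ang_cnt hw
  have hfl := S.fl_le hw
  have hpi := Real.pi_pos
  have hp0 := S.θ_pos 0
  have hth : S.θ 1 = Real.pi / 2 - S.θ 0 := by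
    have := S.θ_sum
    rw [h2] at this
    linarith
  rw [hv] at hvc
  rw [hth, h2] at hac
  generalize S.θ 0 = x at *
  generalize S.cnt 0 w = a at *
  generalize S.cnt 1 w = b at *
  generalize S.cnt 2 w = c at *
  generalize S.fl w = d at *
  have ha : a ≤ 2 := by omega
  have hb' : b ≤ 4 := by omega
  have hc : c ≤ 2 := by omega
  interval_cases d <;> interval_cases a <;> interval_cases b <;> interval_cases c <;>
    first
    | (exfalso; omega)
    | (push_cast at hac; linarith)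

/-- the local structure at a node of valence `n - 1` -/
theorem NV1_loc (hn : 15 ≤ n) (h2 : S.θ 2 = Real.pi / 2) {p : ℂ} (hv : S.val p + 1 = n)
    {t : ι} (hp : p ∈ S.N t) : ∃ (w : ℂ) (s : ι), w ∈ S.N t ∧ w ∈ S.N s ∧ p ∈ S.N s ∧ s ≠ t ∧
      w ≠ p ∧ S.val w = 4 ∧ (∀ k, p ∈ S.N k → w ∈ S.N k → k = t ∨ k = s) ∧
      (∀ x ∈ S.N t, x ≠ p → S.val x = 4 → x = w) ∧
      ((S.lab t 0 = p ∧ S.lab t 1 = w) ∨ (S.lab t 1 = p ∧ S.lab t 0 = w)) := by
  obtain ⟨hc, h3, hlab⟩ := S.hub3' hn h2 hp hv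
  have main : ∀ k l : Fin 3, ((k = 0 ∧ l = 1) ∨ (k = 1 ∧ l = 0)) → p = S.lab t k →
      S.val (S.lab t l) = 4 → ∃ (w : ℂ) (s : ι), w ∈ S.N t ∧ w ∈ S.N s ∧ p ∈ S.N s ∧ s ≠ t ∧
      w ≠ p ∧ S.val w = 4 ∧ (∀ k, p ∈ S.N k → w ∈ S.N k → k = t ∨ k = s) ∧
      (∀ x ∈ S.N t, x ≠ p → S.val x = 4 → x = w) ∧
      ((S.lab t 0 = p ∧ S.lab t 1 = w) ∨ (S.lab t 1 = p ∧ S.lab t 0 = w)) := by
    intro k l hkl hk hl
    have hkl' : k ≠ l := by
      rcases hkl with ⟨rfl, rfl⟩ | ⟨rfl, rfl⟩ <;> decide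
    have hne : p ≠ S.lab t l := by
      rw [hk]
      intro h
      exact hkl' (S.lab_inj t h)
    obtain ⟨s, hs, hP, hu⟩ := S.toSys.part_other
      (S.toSys.part_of_three hc hp (S.lab_mem t l) hne)
    refine ⟨S.lab t l, s, S.lab_mem t l, hP.2.1, hP.1, hs, hne.symm, hl, hu, ?_, ?_⟩
    · intro x hx hxp hx4
      have hx' := (S.card3_mem hc x).1 hx
      have hx2 : x ≠ S.lab t 2 := by
        rintro rfl
        omega
      rcases hkl with ⟨rfl, rfl⟩ | ⟨rfl, rfl⟩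
      · rcases hx' with h | h | h
        · exact absurd (h.trans hk.symm) hxp
        · exact h
        · exact absurd h hx2
      · rcases hx' with h | h | h
        · exact h
        · exact absurd (h.trans hk.symm) hxp
        · exact absurd h hx2
    · rcases hkl with ⟨rfl, rfl⟩ | ⟨rfl, rfl⟩
      · exact Or.inl ⟨hk.symm, rfl⟩
      · exact Or.inr ⟨hk.symm, rfl⟩
  rcases hlab with ⟨h, h'⟩ | ⟨h, h'⟩
  · exact main 0 1 (Or.inl ⟨rfl, rfl⟩) h h'
  · exact main 1 0 (Or.inr ⟨rfl, rfl⟩) h h'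

theorem r90_H3 (hn : 15 ≤ n) (h2 : S.θ 2 = Real.pi / 2) : S.toSys.H3 := by
  classical
  intro i p hp hv
  have H : ∀ t, p ∈ S.N t → ∃ (w : ℂ) (s : ι), w ∈ S.N t ∧ w ∈ S.N s ∧ p ∈ S.N s ∧ s ≠ t ∧
      w ≠ p ∧ S.val w = 4 ∧ (∀ k, p ∈ S.N k → w ∈ S.N k → k = t ∨ k = s) ∧
      (∀ x ∈ S.N t, x ≠ p → S.val x = 4 → x = w) ∧
      ((S.lab t 0 = p ∧ S.lab t 1 = w) ∨ (S.lab t 1 = p ∧ S.lab t 0 = w)) :=
    fun t ht => S.NV1_loc hn h2 hv ht
  have : Nonempty ι := ⟨i⟩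
  choose! w s h1 h3 h4 h5 h6 h7 h8 h9 h10 using H
  have hws : ∀ t, p ∈ S.N t → w (s t) = w t := fun t ht =>
    (h9 (s t) (h4 t ht) (w t) (h3 t ht) (h6 t ht) (h7 t ht)).symm
  have hss : ∀ t, p ∈ S.N t → s (s t) = t := by
    intro t ht
    have hst := h4 t ht
    rcases h8 t ht (s (s t)) (h4 _ hst) (by rw [← hws t ht]; exact h3 _ hst) with h | h
    · exact h
    · exact absurd h (h5 _ hst)
  have hsum : ∑ t ∈ S.tl p, S.ang (s t) p = ∑ t ∈ S.tl p, S.ang t p := by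
    refine Finset.sum_nbij' s s ?_ ?_ ?_ ?_ ?_
    · intro t ht
      exact (S.mem_tl _ _).2 (h4 t ((S.mem_tl _ _).1 ht))
    · intro t ht
      exact (S.mem_tl _ _).2 (h4 t ((S.mem_tl _ _).1 ht))
    · intro t ht
      exact hss t ((S.mem_tl _ _).1 ht)
    · intro t ht
      exact hss t ((S.mem_tl _ _).1 ht)
    · intro t _
      rfl
  have hpi := Real.pi_pos
  have hth : S.θ 1 = Real.pi / 2 - S.θ 0 := by
    have := S.θ_sum
    rw [h2] at this
    linarith
  have h01 := S.θ_le01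
  have claim : ∀ t ∈ S.tl p, Real.pi / 3 ≤ S.ang t p + S.ang (s t) p := by
    intro t ht
    have ht' := (S.mem_tl _ _).1 ht
    have hst := h4 t ht'
    rcases h10 t ht' with ⟨a1, a2⟩ | ⟨a1, a2⟩ <;> rcases h10 (s t) hst with ⟨b1, b2⟩ | ⟨b1, b2⟩
    · have e1 : S.ang t p = S.θ 0 := by rw [← a1]; exact S.lab_ang t 0
      have e2 : S.ang (s t) p = S.θ 0 := by
        conv_lhs => rw [← b1]
        exact S.lab_ang (s t) 0
      have h := S.NV1_th h2 (h5 t ht') (h7 t ht') a2 (b2.trans (hws t ht'))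
      rw [e1, e2]
      linarith
    · have e1 : S.ang t p = S.θ 0 := by rw [← a1]; exact S.lab_ang t 0
      have e2 : S.ang (s t) p = S.θ 1 := by
        conv_lhs => rw [← b1]
        exact S.lab_ang (s t) 1
      rw [e1, e2]
      linarith
    · have e1 : S.ang t p = S.θ 1 := by rw [← a1]; exact S.lab_ang t 1
      have e2 : S.ang (s t) p = S.θ 0 := by
        conv_lhs => rw [← b1]
        exact S.lab_ang (s t) 0
      rw [e1, e2]
      linarith
    · have e1 : S.ang t p = S.θ 1 := by rw [← a1]; exact S.lab_ang t 1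
      have e2 : S.ang (s t) p = S.θ 1 := by
        conv_lhs => rw [← b1]
        exact S.lab_ang (s t) 1
      rw [e1, e2]
      linarith
  have hle := Finset.sum_le_sum claim
  rw [Finset.sum_add_distrib, hsum, S.ang_node i p hp, Finset.sum_const, nsmul_eq_mul] at hle
  have h14 : (14 : ℝ) ≤ ((S.tl p).card : ℝ) := by
    have : 14 ≤ (S.tl p).card := by
      have : S.val p = (S.tl p).card := rfl
      omega
    exact_mod_cast this
  nlinarith

end Sys3

end Pool.Agent.NNb
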