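import Pool.Agent.NNb.R90Gen

/-!
Module R90GENU.  Right triangles with `θ 0 ≤ 2π/13`, `θ 0 ≠ π/8`, `θ 0 ≠ π/10`, `n ≥ 17`.

As `r90_gen` (copy the proof from `R90Gen.lean`), with `r90_f12` replaced by
`r90_f8`: if all valences on `i` are `≤ 8` then `f i ≤ -1/100` (`n ≥ 17`).
Proof: `|N i| = s ≥ 4`: two nodes (`lab i 0`, `lab i 1`) have `k = val - 2 ≥ 2`; `conc` with `l = 2` at these two,
`l = 1` elsewhere, `L = 2`, `E = n - s - 2` gives `f ≤ 1/4 - (s - 2)/6 + 1/(n - s + 2)` (see `r90_f4`); `s = 4`: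
`-1/12 + 1/(n - 2) ≤ -1/12 + 1/15 = -1/60`; `s = 5`: `-1/4 + 1/14`; `s ≥ 6`: `s ≤ n - 2`, `1/(n-s+2) ≤ 1/4`,
`f ≤ 1/2 - 4/6`.  `s = 3`: `∑ val = n + 6 ≥ 23`, all `≤ 8`, so the valences are `8, 8, 7` or `8, 8, 8` (or none):
`f = ∑ 1/val - 1/2 ≤ 1/4 + 1/7 - 1/2 < -1/10`.
In `r90_gen`: `gen_ge`: `cnt 1 x ≤ cnt 0 x` always; `gen_gt`: `cnt 1 x < cnt 0 x` if `val x ≥ 9`.
-/

namespace Pool.Agent.NNb

namespace Sys3

variable {ι : Type} {n : ℕ} (S : Sys3 ι n)

theorem R90GENU_f4 (hn : 17 ≤ n) (h2 : S.θ 2 = Real.pi / 2) (i : ι) (hc : 4 ≤ (S.N i).card) :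
    S.f i ≤ -(1 / 100) := by
  classical
  obtain ⟨h40, h41⟩ := S.r90_four h2 i
  set s := (S.N i).card with hs
  let l : ℂ → ℕ := fun x => if x = S.lab i 0 ∨ x = S.lab i 1 then 2 else 1
  have hl : ∀ x ∈ S.N i, l x ≤ S.val x - 2 := by
    intro x hx
    have h3 := S.val_ge hx
    by_cases h : x = S.lab i 0 ∨ x = S.lab i 1
    · have hlx : l x = 2 := if_pos h
      rw [hlx]
      rcases h with rfl | rfl <;> omega
    · have hlx : l x = 1 := if_neg h
      rw [hlx]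
      omega
  have hL : ∀ x ∈ S.N i, l x ≤ 2 := by
    intro x _
    by_cases h : x = S.lab i 0 ∨ x = S.lab i 1
    · exact le_of_eq (if_pos h)
    · have hlx : l x = 1 := if_neg h
      omega
  have hsuml : ((∑ x ∈ S.N i, l x : ℕ) : ℝ) = s + 2 := by
    push_cast
    have h := S.R90_sum i (c := 1) 1
    rw [← hs] at h
    rw [show (s : ℝ) + 2 = s * 1 + 2 * 1 by ring, ← h]
    apply Finset.sum_congr rfl
    intro x _
    by_cases h : x = S.lab i 0 ∨ x = S.lab i 1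
    · have hlx : l x = 2 := if_pos h
      rw [hlx, if_pos h]
      norm_num
    · have hlx : l x = 1 := if_neg h
      rw [hlx, if_neg h]
      norm_num
  have hsuml' : ∑ x ∈ S.N i, l x = s + 2 := by exact_mod_cast hsuml
  have hsk : ∑ x ∈ S.N i, (S.val x - 2) = n := S.sum_val i
  have hle : s + 2 ≤ n := by
    have h := Finset.sum_le_sum hl
    rw [hsuml', hsk] at h
    exact h
  have hE : ∑ x ∈ S.N i, (S.val x - 2) = ∑ x ∈ S.N i, l x + (n - (s + 2)) := by
    rw [hsk, hsuml']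
    omega
  have hconc := conc (S.N i) (fun x => S.val x - 2) l 2 (n - (s + 2)) hl hL hE
  have hphil : ∑ x ∈ S.N i, phi (l x) = (s : ℝ) * (1 / 6) + 2 * (1 / 12) := by
    have h := S.R90_sum i (c := 1 / 6) (1 / 12)
    rw [← hs] at h
    rw [← h]
    apply Finset.sum_congr rfl
    intro x _
    by_cases h : x = S.lab i 0 ∨ x = S.lab i 1
    · have hlx : l x = 2 := if_pos h
      rw [hlx, if_pos h]
      unfold phi
      norm_num
    · have hlx : l x = 1 := if_neg h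
      rw [hlx, if_neg h]
      unfold phi
      norm_num
  have hphi2 : phi 2 = 1 / 4 := by
    unfold phi
    norm_num
  have hphiE : phi (2 + (n - (s + 2))) = 1 / 2 - 1 / ((n : ℝ) - s + 2) := by
    rw [phi_eq]
    have h : ((2 + (n - (s + 2)) : ℕ) : ℝ) = (n : ℝ) - s := by
      have h' : 2 + (n - (s + 2)) = n - s := by omega
      rw [h', Nat.cast_sub (by omega)]
    rw [h]
  rw [hphil, hphi2, hphiE] at hconc
  rw [S.f_eq i]
  have hs4 : (4 : ℝ) ≤ s := by exact_mod_cast hc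
  have hnR : (17 : ℝ) ≤ n := by exact_mod_cast hn
  have hsn : (s : ℝ) + 2 ≤ n := by exact_mod_cast hle
  have hkey : 1 / 4 - ((s : ℝ) - 2) / 6 + 1 / ((n : ℝ) - s + 2) ≤ -(1 / 100) := by
    rcases Nat.lt_or_ge s 6 with h6 | h6
    · have h45 : s = 4 ∨ s = 5 := by omega
      rcases h45 with h | h
      · have hsR : (s : ℝ) = 4 := by exact_mod_cast h
        rw [hsR]
        have h1 : 1 / ((n : ℝ) - 4 + 2) ≤ 1 / 15 := by
          apply one_div_le_one_div_of_le <;> linarith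
        linarith
      · have hsR : (s : ℝ) = 5 := by exact_mod_cast h
        rw [hsR]
        have h1 : 1 / ((n : ℝ) - 5 + 2) ≤ 1 / 14 := by
          apply one_div_le_one_div_of_le <;> linarith
        linarith
    · have hsR : (6 : ℝ) ≤ s := by exact_mod_cast h6
      have h1 : 1 / ((n : ℝ) - s + 2) ≤ 1 / 4 := by
        apply one_div_le_one_div_of_le <;> linarith
      linarith
  linarith

theorem r90_f8 (hn : 17 ≤ n) (h2 : S.θ 2 = Real.pi / 2) (i : ι)
    (h8 : ∀ x ∈ S.N i, S.val x ≤ 8) : S.f i ≤ -(1 / 100) := by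
  classical
  by_cases hc : 4 ≤ (S.N i).card
  · exact S.R90GENU_f4 hn h2 i hc
  · have h3 : (S.N i).card = 3 := by
      have := S.card_ge i
      omega
    have hsk : ∑ x ∈ S.N i, (S.val x - 2) = n := S.sum_val i
    have h7 : ∀ x ∈ S.N i, 7 ≤ S.val x := by
      intro x hx
      have h1 := Finset.add_sum_erase (S.N i) (fun x => S.val x - 2) hx
      have h4 : ∑ y ∈ (S.N i).erase x, (S.val y - 2) ≤ ((S.N i).erase x).card • 6 := by
        apply Finset.sum_le_card_nsmul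
        intro y hy
        have := h8 y (Finset.mem_of_mem_erase hy)
        omega
      rw [Finset.card_erase_of_mem hx, h3] at h4
      simp only [smul_eq_mul] at h4
      omega
    have h5 : ((S.N i).card : ℕ) • (5 / 14 : ℝ) ≤ ∑ x ∈ S.N i, (1 / 2 - 1 / (S.val x : ℝ)) := by
      apply Finset.card_nsmul_le_sum
      intro x hx
      have h6 : (7 : ℝ) ≤ S.val x := by exact_mod_cast h7 x hx
      have : 1 / (S.val x : ℝ) ≤ 1 / 7 := by
        apply one_div_le_one_div_of_le (by norm_num)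
        linarith
      linarith
    rw [h3] at h5
    unfold Sys.f
    simp only [nsmul_eq_mul] at h5
    push_cast at h5
    linarith

theorem r90_genU (hn : 17 ≤ n) (h2 : S.θ 2 = Real.pi / 2) (h0 : S.θ 0 ≤ 2 * Real.pi / 13)
    (h8 : S.θ 0 ≠ Real.pi / 8) (h10 : S.θ 0 ≠ Real.pi / 10) : False := by
  apply S.no_neg_cost' (2 * ((n : ℝ) + 1)) (c := 1 / 100) (by norm_num)
  intro i
  have hterm : ∀ x ∈ S.N i, 0 ≤ ((S.cnt 0 x : ℝ) - S.cnt 1 x) / S.val x := by
    intro x hx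
    have h1 : (S.cnt 1 x : ℝ) ≤ S.cnt 0 x := by exact_mod_cast gen_ge S h2 h0 h8 h10 hx
    exact div_nonneg (by linarith) (Nat.cast_nonneg _)
  have hsplit : 1 - ∑ x ∈ S.N i, S.cost (2 * ((n : ℝ) + 1)) x =
      S.f i - 2 * ((n : ℝ) + 1) * ∑ x ∈ S.N i, ((S.cnt 0 x : ℝ) - S.cnt 1 x) / S.val x := by
    unfold cost
    rw [Finset.sum_add_distrib, ← Finset.mul_sum, S.f_eq i]
    ring
  have hD : 0 ≤ ∑ x ∈ S.N i, ((S.cnt 0 x : ℝ) - S.cnt 1 x) / S.val x := Finset.sum_nonneg hterm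
  have hn0 : (0 : ℝ) ≤ n := Nat.cast_nonneg _
  rw [hsplit]
  by_cases h9 : ∃ x ∈ S.N i, 9 ≤ S.val x
  · obtain ⟨x, hx, hv⟩ := h9
    have hlt : (S.cnt 1 x : ℝ) + 1 ≤ S.cnt 0 x := by
      exact_mod_cast gen_gt S h2 h0 h8 h10 hx hv
    have hvle : (S.val x : ℝ) ≤ n + 1 := by exact_mod_cast S.val_le hx
    have hvpos : (0 : ℝ) < S.val x := by
      have : 0 < S.val x := by omega
      exact_mod_cast this
    have h1 : 1 / ((n : ℝ) + 1) ≤ ((S.cnt 0 x : ℝ) - S.cnt 1 x) / S.val x := by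
      rw [div_le_div_iff₀ (by positivity) hvpos]
      nlinarith
    have h3 : 1 / ((n : ℝ) + 1) ≤ ∑ x ∈ S.N i, ((S.cnt 0 x : ℝ) - S.cnt 1 x) / S.val x :=
      h1.trans (Finset.single_le_sum hterm hx)
    have h4 : 2 ≤ 2 * ((n : ℝ) + 1) * ∑ x ∈ S.N i, ((S.cnt 0 x : ℝ) - S.cnt 1 x) / S.val x := by
      have h5 : 2 * ((n : ℝ) + 1) * (1 / ((n : ℝ) + 1)) = 2 := by field_simp
      have h6 := mul_le_mul_of_nonneg_left h3 (by positivity : (0 : ℝ) ≤ 2 * ((n : ℝ) + 1))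
      linarith
    have hf1 : S.f i ≤ 1 := by
      unfold Sys.f
      have : 0 ≤ ∑ x ∈ S.N i, (1 / 2 - 1 / (S.val x : ℝ)) := by
        apply Finset.sum_nonneg
        intro y hy
        have h3v : (3 : ℝ) ≤ S.val y := by exact_mod_cast S.val_ge hy
        have : 1 / (S.val y : ℝ) ≤ 1 / 2 := by
          apply one_div_le_one_div_of_le (by norm_num)
          linarith
        linarith
      linarith
    linarith
  · push Not at h9
    have hf := S.r90_f8 hn h2 i (fun x hx => by have := h9 x hx; omega)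
    have : 0 ≤ 2 * ((n : ℝ) + 1) * ∑ x ∈ S.N i, ((S.cnt 0 x : ℝ) - S.cnt 1 x) / S.val x :=
      mul_nonneg (by positivity) hD
    linarith

end Sys3

end Pool.Agent.NNb
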