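import Pool.Agent.NNb.UThm
import Pool.Agent.NNb.NV1
import Pool.Agent.NNb.K5NoHub
import Pool.Agent.NNb.K418
import Pool.Agent.NNb.R90GenU

/-!
Module CLS3U.  Right triangles, `17 ≤ n ≤ 20`.

`r90_U2`: `lab i 0 ≠ lab i 1` are not 3-valent (`r90_four`).  `r90_U3`: a 3-valent node `x` has `fl x = 1`
(`r90_three`): some tile `j ∋ x` has `x ∉ C j`, so `|N j| ≥ 4` (`C j` has 3 elements).  `H3`: `r90_H3`.
If there is no node of valence `n - 2`, then there are no `A`- and no `E`-tiles, `U4` holds, and `u_noE` applies: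
* `θ 0 > 2π/13`: all valences are `≤ 12 < n - 2` (see `r90_small`: if `fl = 0`, `(cnt 0 + cnt 1 + cnt 2) θ 0 ≤ 2π
  < 13 θ 0`, if `fl = 1`, `(...) θ 0 ≤ π`).
* `θ 0 = π/8`, `n ≠ 18`: by `ty4`, `tval_ty` the valences are `≤ 14` or `16`; `n - 2 ∈ {15, 17, 18}`.
* `θ 0 = π/10`: `k5_nohub`.
`θ 0 = π/8`, `n = 18`: `u_E` with `k4_noA`, `k4_U5`, and no `B`-tiles (`n - 3 = 15` is not a valence).
Otherwise (`θ 0 ≤ 2π/13`, `≠ π/8, π/10`): `r90_genU`.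
-/

namespace Pool.Agent.NNb

theorem CLS3U_t15 : ∀ t ∈ types4, tval t ≠ 15 ∧ tval t ≠ 17 ∧ tval t ≠ 18 := by decide

namespace Sys3

variable {ι : Type} {n : ℕ} (S : Sys3 ι n)

theorem r90_U2 (h2 : S.θ 2 = Real.pi / 2) : S.toSys.U2 := by
  intro i
  obtain ⟨h40, h41⟩ := S.r90_four h2 i
  exact ⟨S.lab i 0, S.lab i 1, S.lab_mem i 0, S.lab_mem i 1, S.TRIS_ne i (by decide), h40, h41⟩

theorem r90_U3 (h2 : S.θ 2 = Real.pi / 2) : S.toSys.U3 := by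
  classical
  intro i x hx hv
  have h3 := (S.r90_three h2 hx hv).2.2.2
  unfold fl at h3
  obtain ⟨w, hw⟩ := Finset.card_pos.1 (by rw [h3]; exact one_pos)
  rw [Finset.mem_filter, S.mem_tl] at hw
  exact ⟨w, hw.1, S.K418_card4 hw.1 hw.2⟩

/-- no node of valence `n - 2` -/
theorem CLS3U_nohub (hn : 17 ≤ n) (hn' : n ≤ 20) (h2 : S.θ 2 = Real.pi / 2)
    (hno : ∀ i p, p ∈ S.N i → S.val p + 2 ≠ n) : False := by
  refine S.toSys.u_noE hn hn' (S.r90_H3 (by omega) h2) (S.r90_U2 h2) (S.r90_U3 h2) ?_ ?_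
  · intro i j x y hA
    obtain ⟨_, h, hh, hv, _⟩ := hA
    exact absurd hv (hno i h hh)
  · rintro i ⟨_, g, u, p, _, _, hp, _, _, hv⟩
    exact hno i p hp hv

theorem CLS3U_val12 (h2 : S.θ 2 = Real.pi / 2) (h0 : 2 * Real.pi / 13 < S.θ 0) {i : ι} {x : ℂ}
    (hx : x ∈ S.N i) : S.val x ≤ 12 := by
  have hpi := Real.pi_pos
  by_contra hcon
  have h13 : 13 ≤ S.val x := by omega
  have hR : (13 : ℝ) ≤ (S.cnt 0 x : ℝ) + S.cnt 1 x + S.cnt 2 x + S.fl x := by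
    have h := S.val_cnt x
    rw [h] at h13
    exact_mod_cast h13
  have hang := S.ang_cnt hx
  have t0 := S.θ_pos 0
  have t01 := S.θ_le01
  have t12 := S.θ_le12
  have ts := S.θ_sum
  have e1 : (S.cnt 1 x : ℝ) * S.θ 0 ≤ S.cnt 1 x * S.θ 1 :=
    mul_le_mul_of_nonneg_left t01 (Nat.cast_nonneg _)
  have e2 : (S.cnt 2 x : ℝ) * S.θ 0 ≤ S.cnt 2 x * S.θ 2 :=
    mul_le_mul_of_nonneg_left (t01.trans t12) (Nat.cast_nonneg _)
  have e3 : (S.fl x : ℝ) * S.θ 0 ≤ S.fl x * Real.pi :=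
    mul_le_mul_of_nonneg_left (by linarith) (Nat.cast_nonneg _)
  have e4 : 13 * S.θ 0 ≤ ((S.cnt 0 x : ℝ) + S.cnt 1 x + S.cnt 2 x + S.fl x) * S.θ 0 :=
    mul_le_mul_of_nonneg_right hR t0.le
  have e5 : 2 * Real.pi < 13 * S.θ 0 := by
    rw [div_lt_iff₀ (by norm_num)] at h0
    linarith
  nlinarith

theorem cls3U (hn : 17 ≤ n) (hn' : n ≤ 20) (h2 : S.θ 2 = Real.pi / 2) : False := by
  rcases lt_or_ge (2 * Real.pi / 13) (S.θ 0) with h0 | h0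
  · refine S.CLS3U_nohub hn hn' h2 fun i p hp hv => ?_
    have := S.CLS3U_val12 h2 h0 hp
    omega
  · by_cases h8 : S.θ 0 = Real.pi / 8
    · by_cases h18 : n = 18
      · refine S.toSys.u_E h18 (S.r90_H3 (by omega) h2) (S.r90_U2 h2) (S.r90_U3 h2)
          (S.k4_noA h18 h2 h8) ?_ (S.k4_U5 h18 h2 h8)
        rintro i ⟨_, h, y, w, hh, _, _, hv, _⟩
        have ht := (CLS3U_t15 _ (S.ty4 h2 h8 hh)).1
        rw [S.tval_ty] at ht
        omega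
      · refine S.CLS3U_nohub hn hn' h2 fun i p hp hv => ?_
        have ht := CLS3U_t15 _ (S.ty4 h2 h8 hp)
        rw [S.tval_ty] at ht
        omega
    · by_cases h10 : S.θ 0 = Real.pi / 10
      · exact S.CLS3U_nohub hn hn' h2 fun i p hp => S.k5_nohub hn hn' h2 h10 hp
      · exact S.r90_genU hn h2 h0 h8 h10

end Sys3

end Pool.Agent.NNb
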