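import Pool.Agent.NNb.Basic

/-!
Module CONE.  The cone of feasible directions `dcone S x = {v | ∃ t > 0, x + t v ∈ S}` of a convex
polygon at `x ∈ S`.

Everything follows from the representation `S = {z | ∀ p ∈ F, dt p.1 z ≤ p.2}` (`IsPoly.hrep`): with
`A = {p ∈ F | dt p.1 x = p.2}` (active constraints), `dcone S x = {v | ∀ p ∈ A, dt p.1 v ≤ 0}`:
`⊆` clear; `⊇`: for the inactive `p` the inequality `dt p.1 (x + t v) ≤ p.2` holds for small `t`.
`loc`: choose `r` with `‖p.1‖ r ≤ p.2 - dt p.1 x` for all inactive `p`; for `‖v‖ < r` the inactive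
constraints hold at `x + v` automatically, so `x + v ∈ S` iff `dt p.1 v ≤ 0` for all active `p`.
(`|dt a v| ≤ ‖a‖ ‖v‖` is Cauchy-Schwarz.)
`dcone_univ`: no active constraint (all `p.1 ≠ 0`) iff the cone is everything iff `x` is interior
(`loc`).  Interior nonempty: `interior S - x ⊆ interior (dcone S x)`.
-/

namespace Pool.Agent.NNb

open Set

variable {S : Set ℂ} {x : ℂ}

theorem sub_mem_dcone {z : ℂ} (hz : z ∈ S) : z - x ∈ dcone S x :=
  ⟨1, one_pos, by simpa using hz⟩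

theorem dcone_smul {v : ℂ} {t : ℝ} (ht : 0 < t) (hv : v ∈ dcone S x) : t • v ∈ dcone S x := by
  obtain ⟨s, hs, hv⟩ := hv
  refine ⟨s / t, div_pos hs ht, ?_⟩
  rw [smul_smul, div_mul_cancel₀ _ ht.ne']
  exact hv

theorem CONE_dt_add (a v w : ℂ) : dt a (v + w) = dt a v + dt a w := by
  simp only [dt, Complex.add_re, Complex.add_im]; ring

theorem CONE_dt_smul (a v : ℂ) (t : ℝ) : dt a (t • v) = t * dt a v := by
  simp only [dt, Complex.smul_re, Complex.smul_im, smul_eq_mul]; ring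

theorem CONE_dt_self {a : ℂ} (ha : a ≠ 0) : 0 < dt a a := by
  have h : dt a a = Complex.normSq a := by simp only [dt, Complex.normSq_apply]
  rw [h]
  exact Complex.normSq_pos.2 ha

theorem CONE_dt_cont (a : ℂ) : Continuous (fun v => dt a v) := by
  unfold dt
  exact (continuous_const.mul Complex.continuous_re).add
    (continuous_const.mul Complex.continuous_im)

/-- active constraints: local description -/
theorem IsPoly.CONE_aux (h : IsPoly S) (hx : x ∈ S) :
    ∃ A : Finset ℂ, (∀ a ∈ A, a ≠ 0) ∧ ∃ r > 0, ∀ v : ℂ, ‖v‖ < r →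
      (x + v ∈ S ↔ ∀ a ∈ A, dt a v ≤ 0) := by
  classical
  obtain ⟨F, hF0, hF⟩ := h.hrep
  refine ⟨(F.filter (fun p => dt p.1 x = p.2)).image Prod.fst, ?_, ?_⟩
  · intro a ha
    obtain ⟨p, hp, rfl⟩ := Finset.mem_image.1 ha
    exact hF0 p (Finset.mem_filter.1 hp).1
  have hev : ∀ᶠ v in nhds (0 : ℂ), ∀ p ∈ F, dt p.1 x < p.2 → dt p.1 (x + v) ≤ p.2 := by
    rw [Filter.eventually_all_finset]
    intro p _
    by_cases hlt : dt p.1 x < p.2
    · have hc : Filter.Tendsto (fun v : ℂ => dt p.1 (x + v)) (nhds 0) (nhds (dt p.1 (x + 0))) :=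
        ((CONE_dt_cont p.1).comp (continuous_const.add continuous_id)).tendsto 0
      have : ∀ᶠ v in nhds (0 : ℂ), dt p.1 (x + v) < p.2 :=
        hc.eventually_lt_const (by simpa using hlt)
      exact this.mono fun v hv _ => hv.le
    · exact Filter.Eventually.of_forall fun v hv => absurd hv hlt
  obtain ⟨r, hr, hball⟩ := Metric.eventually_nhds_iff.1 hev
  refine ⟨r, hr, fun v hv => ?_⟩
  have hv' := hball (y := v) (by simpa [dist_eq_norm] using hv)
  have hxF : ∀ p ∈ F, dt p.1 x ≤ p.2 := by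
    have := hx
    rw [hF] at this
    exact this
  constructor
  · intro hxv a ha
    obtain ⟨p, hp, rfl⟩ := Finset.mem_image.1 ha
    obtain ⟨hpF, hpe⟩ := Finset.mem_filter.1 hp
    rw [hF] at hxv
    have := hxv p hpF
    rw [CONE_dt_add, hpe] at this
    linarith
  · intro hA
    rw [hF]
    intro p hp
    rcases (hxF p hp).lt_or_eq with hlt | heq
    · exact hv' p hp hlt
    · have := hA p.1 (Finset.mem_image.2 ⟨p, Finset.mem_filter.2 ⟨hp, heq⟩, rfl⟩)
      rw [CONE_dt_add, heq]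
      linarith

theorem CONE_small (v : ℂ) {r : ℝ} (hr : 0 < r) : ∃ t : ℝ, 0 < t ∧ ‖t • v‖ < r := by
  have hv : 0 < ‖v‖ + 1 := by positivity
  refine ⟨r / (‖v‖ + 1), div_pos hr hv, ?_⟩
  rw [norm_smul, Real.norm_of_nonneg (div_pos hr hv).le, div_mul_eq_mul_div, div_lt_iff₀ hv]
  nlinarith [norm_nonneg v]

theorem IsPoly.CONE_aux2 (h : IsPoly S) (hx : x ∈ S) :
    ∃ A : Finset ℂ, (∀ a ∈ A, a ≠ 0) ∧ dcone S x = {v | ∀ a ∈ A, dt a v ≤ 0} ∧
      ∃ r > 0, ∀ v : ℂ, ‖v‖ < r → (x + v ∈ S ↔ ∀ a ∈ A, dt a v ≤ 0) := by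
  obtain ⟨A, hA0, r, hr, hA⟩ := h.CONE_aux hx
  refine ⟨A, hA0, ?_, r, hr, hA⟩
  ext v
  constructor
  · rintro ⟨t, ht, hv⟩
    -- shrink t
    obtain ⟨s, hs, hsv⟩ := CONE_small (t • v) hr
    have hs1 : 0 < min s 1 := lt_min hs one_pos
    have hle : min s 1 ≤ 1 := min_le_right _ _
    have hmem : x + (min s 1) • (t • v) ∈ S := by
      have := h.convex hx hv (a := 1 - min s 1) (b := min s 1) (by linarith) hs1.le (by ring)
      have e : (1 - min s 1) • x + (min s 1) • (x + t • v) = x + (min s 1) • (t • v) := by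
        rw [smul_add, sub_smul, one_smul]; ring
      rw [e] at this
      exact this
    have hn : ‖(min s 1) • (t • v)‖ < r := by
      refine lt_of_le_of_lt ?_ hsv
      rw [norm_smul, norm_smul s, Real.norm_of_nonneg hs1.le, Real.norm_of_nonneg hs.le]
      exact mul_le_mul_of_nonneg_right (min_le_left _ _) (norm_nonneg _)
    intro a ha
    have := (hA _ hn).1 hmem a ha
    rw [CONE_dt_smul, CONE_dt_smul] at this
    by_contra hcon
    push Not at hcon
    have : 0 < min s 1 * (t * dt a v) := by positivity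
    linarith
  · intro hv
    obtain ⟨t, ht, htv⟩ := CONE_small v hr
    refine ⟨t, ht, (hA _ htv).2 fun a ha => ?_⟩
    rw [CONE_dt_smul]
    exact mul_nonpos_of_nonneg_of_nonpos ht.le (hv a ha)

theorem IsPoly.dcone_hrep (h : IsPoly S) (hx : x ∈ S) :
    ∃ A : Finset ℂ, (∀ a ∈ A, a ≠ 0) ∧ dcone S x = {v | ∀ a ∈ A, dt a v ≤ 0} ∧
      (A = ∅ ↔ x ∈ interior S) := by
  obtain ⟨A, hA0, hD, r, hr, hA⟩ := h.CONE_aux2 hx
  refine ⟨A, hA0, hD, ?_⟩
  constructor
  · rintro rfl
    rw [mem_interior_iff_mem_nhds, Metric.mem_nhds_iff]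
    refine ⟨r, hr, fun z hz => ?_⟩
    have := (hA (z - x) (by simpa [dist_eq_norm] using hz)).2 (by simp)
    simpa using this
  · intro hxi
    by_contra hne
    obtain ⟨a, ha⟩ := Finset.nonempty_iff_ne_empty.2 hne
    rw [mem_interior_iff_mem_nhds, Metric.mem_nhds_iff] at hxi
    obtain ⟨ε, hε, hball⟩ := hxi
    obtain ⟨t, ht, htv⟩ := CONE_small a (lt_min hr hε)
    have h1 : x + t • a ∈ S := hball (by
      simpa [dist_eq_norm] using lt_of_lt_of_le htv (min_le_right _ _))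
    have h2 := (hA _ (lt_of_lt_of_le htv (min_le_left _ _))).1 h1 a ha
    rw [CONE_dt_smul] at h2
    have := mul_pos ht (CONE_dt_self (hA0 a ha))
    linarith

theorem IsPoly.loc (h : IsPoly S) (hx : x ∈ S) :
    ∃ r > 0, ∀ v : ℂ, ‖v‖ < r → (x + v ∈ S ↔ v ∈ dcone S x) := by
  obtain ⟨A, hA0, hD, r, hr, hA⟩ := h.CONE_aux2 hx
  refine ⟨r, hr, fun v hv => ?_⟩
  rw [hA v hv, hD]
  rfl

theorem IsPoly.zero_mem_dcone (h : IsPoly S) (hx : x ∈ S) : (0 : ℂ) ∈ dcone S x :=
  ⟨1, one_pos, by simpa using hx⟩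

theorem IsPoly.dcone_closed (h : IsPoly S) (hx : x ∈ S) : IsClosed (dcone S x) := by
  obtain ⟨A, hA0, hD, -⟩ := h.dcone_hrep hx
  rw [hD]
  have : {v : ℂ | ∀ a ∈ A, dt a v ≤ 0} = ⋂ a ∈ A, {v | dt a v ≤ 0} := by
    ext v; simp
  rw [this]
  exact isClosed_biInter fun a _ => isClosed_le (CONE_dt_cont a) continuous_const

theorem IsPoly.dcone_convex (h : IsPoly S) (hx : x ∈ S) : Convex ℝ (dcone S x) := by
  obtain ⟨A, hA0, hD, -⟩ := h.dcone_hrep hx
  rw [hD]
  intro v hv w hw a b ha hb _ c hc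
  rw [CONE_dt_add, CONE_dt_smul, CONE_dt_smul]
  have := hv c hc
  have := hw c hc
  nlinarith

theorem IsPoly.dcone_add (h : IsPoly S) (hx : x ∈ S) {v w : ℂ} (hv : v ∈ dcone S x)
    (hw : w ∈ dcone S x) : v + w ∈ dcone S x := by
  obtain ⟨A, hA0, hD, -⟩ := h.dcone_hrep hx
  rw [hD] at hv hw ⊢
  intro c hc
  rw [CONE_dt_add]
  have := hv c hc
  have := hw c hc
  linarith

theorem IsPoly.dcone_interior (h : IsPoly S) (hx : x ∈ S) : (interior (dcone S x)).Nonempty := by
  obtain ⟨z, hz⟩ := h.2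
  refine ⟨z - x, ?_⟩
  have hsub : (fun v : ℂ => x + v) ⁻¹' S ⊆ dcone S x := fun v hv => ⟨1, one_pos, by simpa using hv⟩
  refine interior_mono hsub ?_
  have hc : Continuous (fun v : ℂ => x + v) := continuous_const.add continuous_id
  refine preimage_interior_subset_interior_preimage hc ?_
  simpa using hz

theorem IsPoly.dcone_univ (h : IsPoly S) (hx : x ∈ S) :
    dcone S x = Set.univ ↔ x ∈ interior S := by
  obtain ⟨A, hA0, hD, hA⟩ := h.dcone_hrep hx
  rw [← hA]
  constructor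
  · intro hu
    by_contra hne
    obtain ⟨a, ha⟩ := Finset.nonempty_iff_ne_empty.2 hne
    have : a ∈ dcone S x := by rw [hu]; trivial
    rw [hD] at this
    have h1 := this a ha
    have h2 := CONE_dt_self (hA0 a ha)
    linarith
  · rintro rfl
    rw [hD]
    ext v
    simp

/-- locally, the interior of `S` is the interior of the cone -/
theorem IsPoly.loc_interior (h : IsPoly S) (hx : x ∈ S) :
    ∃ r > 0, ∀ v : ℂ, ‖v‖ < r → (x + v ∈ interior S ↔ v ∈ interior (dcone S x)) := by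
  obtain ⟨r, hr, hl⟩ := h.loc hx
  refine ⟨r, hr, fun v hv => ?_⟩
  have hset : (fun v : ℂ => x + v) ⁻¹' S ∩ Metric.ball 0 r = dcone S x ∩ Metric.ball 0 r := by
    ext w
    simp only [mem_inter_iff, mem_preimage, Metric.mem_ball, dist_zero_right]
    constructor
    · rintro ⟨h1, h2⟩
      exact ⟨(hl w h2).1 h1, h2⟩
    · rintro ⟨h1, h2⟩
      exact ⟨(hl w h2).2 h1, h2⟩
  have hint := congrArg interior hset
  rw [interior_inter, interior_inter, Metric.isOpen_ball.interior_eq] at hint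
  have hpre : interior ((fun v : ℂ => x + v) ⁻¹' S) = (fun v : ℂ => x + v) ⁻¹' interior S :=
    ((Homeomorph.addLeft x).preimage_interior S).symm
  rw [hpre] at hint
  have hvb : v ∈ Metric.ball (0 : ℂ) r := by simpa using hv
  constructor
  · intro h1
    have : v ∈ interior (dcone S x) ∩ Metric.ball 0 r := by
      rw [← hint]; exact ⟨h1, hvb⟩
    exact this.1
  · intro h1
    have : v ∈ (fun v : ℂ => x + v) ⁻¹' interior S ∩ Metric.ball 0 r := by
      rw [hint]; exact ⟨h1, hvb⟩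
    exact this.1

end Pool.Agent.NNb
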