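import Pool.Agent.NNb.Val

/-!
Module CYC.  The cyclic order of the nodes of a tile with 4 or 5 nodes.

Every node has exactly two partners (`part`), the relation is symmetric (`part_symm`) and irreflexive:
the partner graph on `N i` is 2-regular, so it is a cycle if `|N i| ≤ 5`.
`cyc4`: `x1` with partners `x2, x4`, `x3` the fourth node; `x3` is not a partner of `x1`, so its partners
are `x2, x4`.
`cyc5`: `x1` with partners `x2, x5`, the other nodes are `a, b`.  If `x2, x5` were partners, `a` and `b`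
could only be partners of each other.  So the second partner of `x2` is `a` or `b`, call it `x3`, the
other one `x4`.  If the second partner of `x5` were also `x3`, `x4` would have no partner; so it is `x4`,
and the second partner of `x3` is then `x4`.
-/

namespace Pool.Agent.NNb

namespace Sys

variable {ι ν : Type} {m n : ℕ}

/-- a node has at most two partners -/
private theorem cyc_no3 (S : Sys ι ν m n) {i : ι} {x p q r : ν} (hp : Part S.N i x p)
    (hq : Part S.N i x q) (hr : Part S.N i x r) (h1 : p ≠ q) (h2 : q ≠ r) (h3 : p ≠ r) :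
    False := by
  obtain ⟨y, z, _, _, _, hu⟩ := S.part i x hp.1
  rcases hu p hp with h4 | h4 <;> rcases hu q hq with h5 | h5 <;> rcases hu r hr with h6 | h6
  · exact h1 (h4.trans h5.symm)
  · exact h1 (h4.trans h5.symm)
  · exact h3 (h4.trans h6.symm)
  · exact h2 (h5.trans h6.symm)
  · exact h2 (h5.trans h6.symm)
  · exact h3 (h4.trans h6.symm)
  · exact h1 (h4.trans h5.symm)
  · exact h1 (h4.trans h5.symm)

theorem cyc4 (S : Sys ι ν m n) {i : ι} (hc : (S.N i).card = 4) :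
    ∃ x1 x2 x3 x4, x1 ≠ x2 ∧ x1 ≠ x3 ∧ x1 ≠ x4 ∧ x2 ≠ x3 ∧ x2 ≠ x4 ∧ x3 ≠ x4 ∧
      (∀ x, x ∈ S.N i ↔ x = x1 ∨ x = x2 ∨ x = x3 ∨ x = x4) ∧
      Part S.N i x1 x2 ∧ Part S.N i x2 x3 ∧ Part S.N i x3 x4 ∧ Part S.N i x4 x1 := by
  classical
  obtain ⟨x1, hx1⟩ := Finset.card_pos.1 (by omega : 0 < (S.N i).card)
  obtain ⟨x2, x4, h24, p2, p4, -⟩ := S.part i x1 hx1
  have hsub : ({x1, x2, x4} : Finset ν) ⊆ S.N i := by
    intro x hx
    simp only [Finset.mem_insert, Finset.mem_singleton] at hx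
    rcases hx with rfl | rfl | rfl
    · exact hx1
    · exact p2.2.1
    · exact p4.2.1
  have hcard : ({x1, x2, x4} : Finset ν).card = 3 :=
    Finset.card_eq_three.2 ⟨x1, x2, x4, p2.2.2.1, p4.2.2.1, h24, rfl⟩
  have hd : (S.N i \ {x1, x2, x4}).card = 1 := by
    rw [Finset.card_sdiff_of_subset hsub, hcard, hc]
  obtain ⟨x3, hx3⟩ := Finset.card_eq_one.1 hd
  have h3 : x3 ∈ S.N i \ {x1, x2, x4} := by rw [hx3]; exact Finset.mem_singleton_self _
  rw [Finset.mem_sdiff] at h3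
  obtain ⟨h3m, h3n⟩ := h3
  simp only [Finset.mem_insert, Finset.mem_singleton, not_or] at h3n
  obtain ⟨h31, h32, h34⟩ := h3n
  have hall : ∀ x, x ∈ S.N i → x = x1 ∨ x = x2 ∨ x = x3 ∨ x = x4 := by
    intro x hx
    by_cases h : x ∈ ({x1, x2, x4} : Finset ν)
    · simp only [Finset.mem_insert, Finset.mem_singleton] at h
      tauto
    · have h5 : x ∈ S.N i \ {x1, x2, x4} := Finset.mem_sdiff.2 ⟨hx, h⟩
      rw [hx3, Finset.mem_singleton] at h5
      exact Or.inr (Or.inr (Or.inl h5))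
  have hno : ¬ Part S.N i x1 x3 := fun h =>
    S.cyc_no3 p2 p4 h h24 (fun e => h34 e.symm) (fun e => h32 e.symm)
  obtain ⟨y, z, hyz, py, pz, -⟩ := S.part i x3 h3m
  have hw : ∀ w, Part S.N i x3 w → w = x2 ∨ w = x4 := by
    intro w pw
    rcases hall w pw.2.1 with h | h | h | h
    · exact absurd (S.part_symm (h ▸ pw)) hno
    · exact Or.inl h
    · exact absurd h.symm pw.2.2.1
    · exact Or.inr h
  have hp : Part S.N i x3 x2 ∧ Part S.N i x3 x4 := by
    rcases hw y py with h | h <;> rcases hw z pz with h' | h'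
    · exact absurd (h.trans h'.symm) hyz
    · exact ⟨h ▸ py, h' ▸ pz⟩
    · exact ⟨h' ▸ pz, h ▸ py⟩
    · exact absurd (h.trans h'.symm) hyz
  refine ⟨x1, x2, x3, x4, p2.2.2.1, fun e => h31 e.symm, p4.2.2.1, fun e => h32 e.symm, h24, h34,
    fun x => ⟨hall x, ?_⟩, p2, S.part_symm hp.1, hp.2, S.part_symm p4⟩
  rintro (h | h | h | h)
  · exact h ▸ hx1
  · exact h ▸ p2.2.1
  · exact h ▸ h3m
  · exact h ▸ p4.2.1

theorem cyc5 (S : Sys ι ν m n) {i : ι} (hc : (S.N i).card = 5) :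
    ∃ x1 x2 x3 x4 x5, x1 ≠ x2 ∧ x1 ≠ x3 ∧ x1 ≠ x4 ∧ x1 ≠ x5 ∧ x2 ≠ x3 ∧ x2 ≠ x4 ∧ x2 ≠ x5 ∧
      x3 ≠ x4 ∧ x3 ≠ x5 ∧ x4 ≠ x5 ∧
      (∀ x, x ∈ S.N i ↔ x = x1 ∨ x = x2 ∨ x = x3 ∨ x = x4 ∨ x = x5) ∧
      Part S.N i x1 x2 ∧ Part S.N i x2 x3 ∧ Part S.N i x3 x4 ∧ Part S.N i x4 x5 ∧
      Part S.N i x5 x1 := by
  classical
  obtain ⟨x1, hx1⟩ := Finset.card_pos.1 (by omega : 0 < (S.N i).card)
  obtain ⟨x2, x5, h25, p2, p5, -⟩ := S.part i x1 hx1
  have hsub : ({x1, x2, x5} : Finset ν) ⊆ S.N i := by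
    intro x hx
    simp only [Finset.mem_insert, Finset.mem_singleton] at hx
    rcases hx with rfl | rfl | rfl
    · exact hx1
    · exact p2.2.1
    · exact p5.2.1
  have hcard : ({x1, x2, x5} : Finset ν).card = 3 :=
    Finset.card_eq_three.2 ⟨x1, x2, x5, p2.2.2.1, p5.2.2.1, h25, rfl⟩
  have hd : (S.N i \ {x1, x2, x5}).card = 2 := by
    rw [Finset.card_sdiff_of_subset hsub, hcard, hc]
  obtain ⟨a, b, hab, hdab⟩ := Finset.card_eq_two.1 hd
  have ham : a ∈ S.N i \ {x1, x2, x5} := by rw [hdab]; simp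
  have hbm : b ∈ S.N i \ {x1, x2, x5} := by rw [hdab]; simp
  rw [Finset.mem_sdiff] at ham hbm
  obtain ⟨ham, ha⟩ := ham
  obtain ⟨hbm, hb⟩ := hbm
  simp only [Finset.mem_insert, Finset.mem_singleton, not_or] at ha hb
  have hall : ∀ x, x ∈ S.N i → x = x1 ∨ x = x2 ∨ x = a ∨ x = b ∨ x = x5 := by
    intro x hx
    by_cases h : x ∈ ({x1, x2, x5} : Finset ν)
    · simp only [Finset.mem_insert, Finset.mem_singleton] at h
      tauto
    · have h5 : x ∈ S.N i \ {x1, x2, x5} := Finset.mem_sdiff.2 ⟨hx, h⟩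
      rw [hdab, Finset.mem_insert, Finset.mem_singleton] at h5
      tauto
  -- the second partner of `x2` is one of the two remaining nodes
  have key : ∀ c d : ν, c ≠ d → c ∈ S.N i → d ∈ S.N i → (¬ c = x1 ∧ ¬ c = x2 ∧ ¬ c = x5) →
      (¬ d = x1 ∧ ¬ d = x2 ∧ ¬ d = x5) →
      (∀ x, x ∈ S.N i → x = x1 ∨ x = x2 ∨ x = c ∨ x = d ∨ x = x5) → Part S.N i x2 c →
      ∃ x1 x2 x3 x4 x5, x1 ≠ x2 ∧ x1 ≠ x3 ∧ x1 ≠ x4 ∧ x1 ≠ x5 ∧ x2 ≠ x3 ∧ x2 ≠ x4 ∧ x2 ≠ x5 ∧
      x3 ≠ x4 ∧ x3 ≠ x5 ∧ x4 ≠ x5 ∧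
      (∀ x, x ∈ S.N i ↔ x = x1 ∨ x = x2 ∨ x = x3 ∨ x = x4 ∨ x = x5) ∧
      Part S.N i x1 x2 ∧ Part S.N i x2 x3 ∧ Part S.N i x3 x4 ∧ Part S.N i x4 x5 ∧
      Part S.N i x5 x1 := by
    intro c d hcd hcm hdm hc3 hd3 hcal pc
    obtain ⟨y, z, hyz, py, pz, -⟩ := S.part i d hdm
    have hw : ∀ w, Part S.N i d w → w = c ∨ w = x5 := by
      intro w pw
      rcases hcal w pw.2.1 with h | h | h | h | h
      · subst h
        exact (S.cyc_no3 p2 p5 (S.part_symm pw) h25 (fun e => hd3.2.2 e.symm)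
          (fun e => hd3.2.1 e.symm)).elim
      · subst h
        exact (S.cyc_no3 (S.part_symm p2) pc (S.part_symm pw) (fun e => hc3.1 e.symm) hcd
          (fun e => hd3.1 e.symm)).elim
      · exact Or.inl h
      · exact absurd h.symm pw.2.2.1
      · exact Or.inr h
    have hp : Part S.N i d c ∧ Part S.N i d x5 := by
      rcases hw y py with h | h <;> rcases hw z pz with h' | h'
      · exact absurd (h.trans h'.symm) hyz
      · exact ⟨h ▸ py, h' ▸ pz⟩
      · exact ⟨h' ▸ pz, h ▸ py⟩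
      · exact absurd (h.trans h'.symm) hyz
    refine ⟨x1, x2, c, d, x5, p2.2.2.1, fun e => hc3.1 e.symm, fun e => hd3.1 e.symm, p5.2.2.1,
      fun e => hc3.2.1 e.symm, fun e => hd3.2.1 e.symm, h25, hcd, hc3.2.2, hd3.2.2,
      fun x => ⟨hcal x, ?_⟩, p2, pc, S.part_symm hp.1, hp.2, S.part_symm p5⟩
    rintro (h | h | h | h | h)
    · exact h ▸ hx1
    · exact h ▸ p2.2.1
    · exact h ▸ hcm
    · exact h ▸ hdm
    · exact h ▸ p5.2.1
  obtain ⟨y, z, hyz, py, pz, hu⟩ := S.part i x2 p2.2.1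
  -- a partner of `x2` different from `x1`
  obtain ⟨w, pw, hw1⟩ : ∃ w, Part S.N i x2 w ∧ w ≠ x1 := by
    by_cases h : y = x1
    · exact ⟨z, pz, fun e => hyz (h.trans e.symm)⟩
    · exact ⟨y, py, h⟩
  rcases hall w pw.2.1 with h | h | h | h | h
  · exact absurd h hw1
  · exact absurd h.symm pw.2.2.1
  · exact key a b hab ham hbm ha hb hall (h ▸ pw)
  · refine key b a hab.symm hbm ham hb ha (fun x hx => ?_) (h ▸ pw)
    rcases hall x hx with h | h | h | h | h <;> tauto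
  · exfalso
    subst h
    -- `x1, x2, x5` are pairwise partners, so `a` has only `b` as a partner
    obtain ⟨y', z', hyz', py', pz', -⟩ := S.part i a ham
    have hw : ∀ v, Part S.N i a v → v = b := by
      intro v pv
      rcases hall v pv.2.1 with h | h | h | h | h
      · subst h
        exact (S.cyc_no3 p2 p5 (S.part_symm pv) h25 (fun e => ha.2.2 e.symm)
          (fun e => ha.2.1 e.symm)).elim
      · subst h
        exact (S.cyc_no3 (S.part_symm p2) pw (S.part_symm pv) (fun e => hw1 e.symm)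
          (fun e => ha.2.2 e.symm) (fun e => ha.1 e.symm)).elim
      · exact absurd h.symm pv.2.2.1
      · exact h
      · subst h
        exact (S.cyc_no3 (S.part_symm p5) (S.part_symm pw) (S.part_symm pv) p2.2.2.1
          (fun e => ha.2.1 e.symm) (fun e => ha.1 e.symm)).elim
    exact hyz' ((hw y' py').trans (hw z' pz').symm)

end Sys

end Pool.Agent.NNb
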