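import Pool.Agent.NNb.Stmt

/-!
# Monohedral convex tilings with constant neighbour number (MP_4b6a99_co): definitions

(The definitions which occur in the final statement are in `Stmt.lean`.)
Part B: planar vocabulary for the geometric modules (in `ℂ`).
Part C: the combinatorial structures `Sys`, `Sys3` extracted from a tiling.
-/

namespace Pool.Agent.NNb

open Set

/-! ## Part B: planar vocabulary -/

/-- the planar cross product (determinant) -/
def crs (a b : ℂ) : ℝ := a.re * b.im - a.im * b.re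

/-- the planar inner product -/
def dt (a b : ℂ) : ℝ := a.re * b.re + a.im * b.im

/-- a convex polygon in `ℂ` -/
def IsPoly (S : Set ℂ) : Prop :=
  (∃ V : Set ℂ, V.Finite ∧ S = convexHull ℝ V) ∧ (interior S).Nonempty

/-- the cone of feasible directions of `S` at `x` -/
def dcone (S : Set ℂ) (x : ℂ) : Set ℂ := {v | ∃ t : ℝ, 0 < t ∧ x + t • v ∈ S}

/-- the angle of `S` at `x`: twice the area of the part of the cone of feasible directions
in the unit disc -/
noncomputable def angl (S : Set ℂ) (x : ℂ) : ℝ :=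
  2 * (MeasureTheory.volume (dcone S x ∩ Metric.ball 0 1)).toReal

/-- the closed sector between the directions `c` and `d` (counterclockwise from `c` to `d`,
opening at most `π`) -/
def sector (c d : ℂ) : Set ℂ := {v | 0 ≤ crs c v ∧ 0 ≤ crs v d}

/-- `e` is a boundary direction of `S` at `x`: `S` contains a piece of the ray from `x` in
direction `e`, and `S` lies on one side of the line through `x` with direction `e`. -/
def BDir (S : Set ℂ) (x e : ℂ) : Prop :=
  e ≠ 0 ∧ e ∈ dcone S x ∧ ((∀ z ∈ S, 0 ≤ crs e (z - x)) ∨ (∀ z ∈ S, crs e (z - x) ≤ 0))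

/-- a tiling of `ℂ` by congruent convex polygons in which every tile meets exactly `n` others -/
structure CTil (ι : Type) (n : ℕ) where
  P : Set ℂ
  T : ι → Set ℂ
  poly : IsPoly P
  iso : ∀ i, ∃ e : ℂ ≃ᵢ ℂ, T i = e '' P
  cover : ∀ z, ∃ i, z ∈ T i
  disj : ∀ i j, i ≠ j → Disjoint (interior (T i)) (interior (T j))
  nbn : ∀ i, {j | j ≠ i ∧ (T i ∩ T j).Nonempty}.encard = n

/-- nodes of a tiling: the extreme points of the tiles -/
def IsNode {ι : Type} (T : ι → Set ℂ) (z : ℂ) : Prop := ∃ j, z ∈ (T j).extremePoints ℝ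

/-! ## Part C: the combinatorial structures -/

/-- `x` and `y` are partners on the tile `i`: distinct nodes of `i` which lie on a common other
tile.  (They are consecutive nodes on the boundary of `i`.) -/
def Part {ι ν : Type} (N : ι → Finset ν) (i : ι) (x y : ν) : Prop :=
  x ∈ N i ∧ y ∈ N i ∧ x ≠ y ∧ ∃ j, j ≠ i ∧ x ∈ N j ∧ y ∈ N j

/-- The combinatorial data of a tiling by congruent convex `m`-gons with `n` neighbours for
every tile.  `ν` is the type of points, `N i` the nodes on the tile `i`, `C i` its corners,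
`tl x` the tiles containing the node `x`, `nb i` the neighbours of `i`, `ang i x` the angle of
the tile `i` at `x`. -/
structure Sys (ι ν : Type) (m n : ℕ) where
  N : ι → Finset ν
  C : ι → Finset ν
  tl : ν → Finset ι
  nb : ι → Finset ι
  ang : ι → ν → ℝ
  mem_tl : ∀ i x, i ∈ tl x ↔ x ∈ N i
  mem_nb : ∀ i j, j ∈ nb i ↔ j ≠ i ∧ ∃ x, x ∈ N i ∧ x ∈ N j
  nb_card : ∀ i, (nb i).card = n
  C_sub : ∀ i, C i ⊆ N i
  C_card : ∀ i, (C i).card = m
  /-- every node is a corner of some tile -/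
  corner : ∀ i x, x ∈ N i → ∃ j, x ∈ C j
  /-- two tiles have at most two nodes in common -/
  three : ∀ i j x y z, i ≠ j → x ∈ N i → y ∈ N i → z ∈ N i → x ∈ N j → y ∈ N j → z ∈ N j →
    x = y ∨ y = z ∨ x = z
  /-- two distinct nodes lie together on at most two tiles -/
  edge : ∀ x y i j k, x ≠ y → x ∈ N i → y ∈ N i → x ∈ N j → y ∈ N j → x ∈ N k → y ∈ N k →
    i = j ∨ j = k ∨ i = k
  /-- every node on a tile has exactly two partners there -/
  part : ∀ i x, x ∈ N i → ∃ y z, y ≠ z ∧ Part N i x y ∧ Part N i x z ∧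
    ∀ w, Part N i x w → w = y ∨ w = z
  ang_corner : ∀ i x, x ∈ C i → 0 < ang i x ∧ ang i x < Real.pi
  ang_flat : ∀ i x, x ∈ N i → x ∉ C i → ang i x = Real.pi
  ang_node : ∀ i x, x ∈ N i → ∑ j ∈ tl x, ang j x = 2 * Real.pi
  ang_tile : ∀ i, ∑ x ∈ C i, ang i x = ((m : ℝ) - 2) * Real.pi
  /-- the averaging principle -/
  avg : ∀ K : ι → ι → ℝ, (∀ i j, K i j = - K j i) → (∃ B, ∀ i j, |K i j| ≤ B) →
    ∀ δ, 0 < δ → ∃ i, -δ ≤ ∑ j ∈ nb i, K i j

/-- The additional data for a tiling by congruent triangles: `θ 0 ≤ θ 1 ≤ θ 2` are the angles,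
`lab i k` is the corner of the tile `i` with angle `θ k`. -/
structure Sys3 (ι : Type) (n : ℕ) extends Sys ι ℂ 3 n where
  θ : Fin 3 → ℝ
  θ_pos : ∀ k, 0 < θ k
  θ_le01 : θ 0 ≤ θ 1
  θ_le12 : θ 1 ≤ θ 2
  θ_sum : θ 0 + θ 1 + θ 2 = Real.pi
  lab : ι → Fin 3 → ℂ
  lab_inj : ∀ i, Function.Injective (lab i)
  lab_C : ∀ i x, x ∈ C i ↔ ∃ k, x = lab i k
  lab_ang : ∀ i k, ang i (lab i k) = θ k
  /-- twice the radius of the circumscribed circle -/
  ρ : ℝ
  ρ_pos : 0 < ρ
  /-- law of sines -/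
  side : ∀ i, dist (lab i 1) (lab i 2) = ρ * Real.sin (θ 0) ∧
    dist (lab i 0) (lab i 2) = ρ * Real.sin (θ 1) ∧
    dist (lab i 0) (lab i 1) = ρ * Real.sin (θ 2)
  /-- the corners are not collinear -/
  ncol : ∀ i, crs (lab i 1 - lab i 0) (lab i 2 - lab i 0) ≠ 0
  /-- a node on a tile which is not a corner lies inside a side -/
  on_side : ∀ i x, x ∈ N i → x ∉ C i → ∃ k l, k ≠ l ∧ Sbtw ℝ (lab i k) x (lab i l)
  /-- partners lie on a common side -/
  same_side : ∀ i x y, Part N i x y → ∃ k l, k ≠ l ∧ x ∈ segment ℝ (lab i k) (lab i l) ∧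
    y ∈ segment ℝ (lab i k) (lab i l)
  /-- a node which lies on a side of a tile is a node of this tile -/
  side_mem : ∀ i j k l x, x ∈ N j → x ∈ segment ℝ (lab i k) (lab i l) → x ∈ N i
  /-- there is a partner in each direction -/
  part_dir : ∀ i k l x, x ∈ N i → k ≠ l → x ∈ segment ℝ (lab i k) (lab i l) → x ≠ lab i l →
    ∃ y, Part N i x y ∧ y ∈ segment ℝ x (lab i l)

namespace Sys

variable {ι ν : Type} {m n : ℕ} (S : Sys ι ν m n)

/-- the valence of a node: the number of tiles which contain it -/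
def val (x : ν) : ℕ := (S.tl x).card

/-- the potential of a tile -/
noncomputable def f (i : ι) : ℝ := 1 - ∑ x ∈ S.N i, (1 / 2 - 1 / (S.val x : ℝ))

end Sys

/-- `φ(k) = k / (2 (k + 2)) = 1/2 - 1/(k+2)` -/
noncomputable def phi (k : ℕ) : ℝ := (k : ℝ) / (2 * ((k : ℝ) + 2))

end Pool.Agent.NNb
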