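import Pool.Agent.NNb.DirsA

/-!
Module DIRS.  The two boundary directions of a convex polygon at a boundary point.

`dirs`: `dcone_hrep` and `cone_sector`.

`ext_iff`: `0 < crs c d` implies that `x` is extreme: if `x` is in the open segment of `p, q ∈ S`,
`p ≠ x`, then `±` (p - x) up to positive factors are in the cone, hence `crs c (p-x) = 0` and
`crs (p-x) d = 0`, so `p = x` as `c, d` are independent.  If `d = -c` then `± c ∈ dcone S x`, so
`x` is in the open segment of `x + t c`, `x - t c ∈ S`.

`bdir_iff`: see the statement; `S - x ⊆ dcone S x` and every element of the cone is a positive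
multiple of an element of `S - x`, so the condition in `BDir` says that `crs e` has constant sign on
the cone, in particular on `c` and `d`; write `e = α c + β d` with `α, β ≥ 0` if `0 < crs c d`.
-/

namespace Pool.Agent.NNb

open Set

variable {S : Set ℂ} {x : ℂ}

private lemma crs_self (a : ℂ) : crs a a = 0 := by simp only [crs]; ring

private lemma crs_smul_left (t : ℝ) (a b : ℂ) : crs (t • a) b = t * crs a b := by
  simp [crs]; ring

private lemma crs_smul_right (t : ℝ) (a b : ℂ) : crs a (t • b) = t * crs a b := by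
  simp [crs]; ring

private lemma crs_add_left (a b c : ℂ) : crs (a + b) c = crs a c + crs b c := by
  simp [crs]; ring

private lemma crs_add_right (a b c : ℂ) : crs a (b + c) = crs a b + crs a c := by
  simp [crs]; ring

private lemma crs_neg_right (a b : ℂ) : crs a (-b) = - crs a b := by
  simp [crs]; ring

private lemma crs_neg_left (a b : ℂ) : crs (-a) b = - crs a b := by
  simp [crs]; ring

private lemma crs_swap (a b : ℂ) : crs a b = - crs b a := by
  simp only [crs]; ring

/-- two vectors independent: coordinates -/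
private lemma crs_expand (c d v : ℂ) : crs c d • v = crs v d • c + crs c v • d := by
  apply Complex.ext <;>
  · simp only [crs, Complex.add_re, Complex.add_im, Complex.real_smul, Complex.mul_re, Complex.mul_im,
      Complex.ofReal_re, Complex.ofReal_im]
    ring

private lemma eq_zero_of_crs {c d v : ℂ} (h : 0 < crs c d) (h1 : crs c v = 0) (h2 : crs v d = 0) :
    v = 0 := by
  have := crs_expand c d v
  rw [h1, h2, zero_smul, zero_smul, add_zero] at this
  exact (smul_eq_zero.mp this).resolve_left h.ne'

private lemma ne_zero_of_norm_one {c : ℂ} (hc : ‖c‖ = 1) : c ≠ 0 := by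
  intro h; rw [h, norm_zero] at hc; exact one_ne_zero hc.symm

/-- parallel vectors -/
private lemma exists_mul_of_crs_zero {c v : ℂ} (hc : ‖c‖ = 1) (h : crs c v = 0) :
    v = dt c v • c := by
  have h1 : c.re * c.re + c.im * c.im = 1 := by
    have := Complex.normSq_eq_norm_sq c
    rw [hc, Complex.normSq_apply] at this
    linarith
  simp only [crs] at h
  apply Complex.ext
  · simp only [dt, Complex.real_smul, Complex.mul_re, Complex.ofReal_re, Complex.ofReal_im, zero_mul, sub_zero]
    linear_combination (-v.re) * h1 + (-c.im) * h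
  · simp only [dt, Complex.real_smul, Complex.mul_im, Complex.ofReal_re, Complex.ofReal_im, zero_mul, add_zero]
    linear_combination (-v.im) * h1 + (c.re) * h

theorem IsPoly.dirs (h : IsPoly S) (hx : x ∈ frontier S) :
    ∃ c d : ℂ, ‖c‖ = 1 ∧ ‖d‖ = 1 ∧ (0 < crs c d ∨ d = -c) ∧ dcone S x = sector c d := by
  have hxS : x ∈ S := h.isClosed.frontier_subset hx
  have hxi : x ∉ interior S := by
    rw [h.isClosed.frontier_eq] at hx
    exact hx.2
  obtain ⟨A, hA0, hA, hAe⟩ := h.dcone_hrep hxS
  have hne : A.Nonempty := by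
    rw [Finset.nonempty_iff_ne_empty]
    exact fun hh => hxi (hAe.mp hh)
  have hint := h.dcone_interior hxS
  rw [hA] at hint
  obtain ⟨c, d, hc, hd, hcd, hs⟩ := cone_sector A hne hA0 hint
  exact ⟨c, d, hc, hd, hcd, hA.trans hs⟩

theorem IsPoly.ext_iff (h : IsPoly S) (hx : x ∈ frontier S) {c d : ℂ} (hc : ‖c‖ = 1)
    (hd : ‖d‖ = 1) (hcd : 0 < crs c d ∨ d = -c) (hD : dcone S x = sector c d) :
    x ∈ S.extremePoints ℝ ↔ 0 < crs c d := by
  have hxS : x ∈ S := h.isClosed.frontier_subset hx
  constructor
  · intro hext
    rcases hcd with h1 | h1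
    · exact h1
    · exfalso
      have hc1 : c ∈ dcone S x := by
        rw [hD, h1]
        refine ⟨?_, ?_⟩
        · rw [crs_self]
        · rw [crs_neg_right, crs_self]; simp
      have hc2 : -c ∈ dcone S x := by
        rw [hD, h1]
        refine ⟨?_, ?_⟩
        · rw [crs_neg_right, crs_self]; simp
        · rw [crs_self]
      obtain ⟨s, hs, hs1⟩ := hc1
      obtain ⟨t, ht, ht1⟩ := hc2
      have hseg : x ∈ openSegment ℝ (x + s • c) (x + t • -c) := by
        refine ⟨t / (s + t), s / (s + t), by positivity, by positivity, by field_simp; ring, ?_⟩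
        have hst : s + t ≠ 0 := by positivity
        have e1 : (t / (s + t)) • (x + s • c) + (s / (s + t)) • (x + t • -c) =
            (t / (s + t) + s / (s + t)) • x + (t / (s + t) * s - s / (s + t) * t) • c := by module
        rw [e1]
        have e2 : t / (s + t) + s / (s + t) = 1 := by field_simp; ring
        have e3 : t / (s + t) * s - s / (s + t) * t = 0 := by ring
        rw [e2, e3, one_smul, zero_smul, add_zero]
      have := hext.2 hs1 ht1 hseg
      have h0 : s • c = 0 := by simpa using this
      rcases smul_eq_zero.mp h0 with h2 | h2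
      · exact hs.ne' h2
      · exact ne_zero_of_norm_one hc h2
  · intro hpos
    refine ⟨hxS, ?_⟩
    intro p hp q hq hseg
    obtain ⟨a, b, ha, hb, hab, hxe⟩ := hseg
    have hp1 : p - x ∈ dcone S x := sub_mem_dcone hp
    have hq1 : q - x ∈ dcone S x := sub_mem_dcone hq
    rw [hD] at hp1 hq1
    have hrel : a • (p - x) + b • (q - x) = 0 := by
      have : a • (p - x) + b • (q - x) = (a • p + b • q) - (a + b) • x := by module
      rw [this, hxe, hab, one_smul, sub_self]
    have e1 : a * crs c (p - x) + b * crs c (q - x) = 0 := by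
      rw [← crs_smul_right, ← crs_smul_right, ← crs_add_right, hrel]
      simp [crs]
    have e2 : a * crs (p - x) d + b * crs (q - x) d = 0 := by
      rw [← crs_smul_left, ← crs_smul_left, ← crs_add_left, hrel]
      simp [crs]
    have f1 : crs c (p - x) = 0 := by
      have g1 := hp1.1
      have g2 := hq1.1
      have g3 : 0 ≤ a * crs c (p - x) := mul_nonneg ha.le g1
      have g4 : 0 ≤ b * crs c (q - x) := mul_nonneg hb.le g2
      have g5 : a * crs c (p - x) = 0 := by linarith
      exact (mul_eq_zero.mp g5).resolve_left ha.ne'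
    have f2 : crs (p - x) d = 0 := by
      have g1 := hp1.2
      have g2 := hq1.2
      have g3 : 0 ≤ a * crs (p - x) d := mul_nonneg ha.le g1
      have g4 : 0 ≤ b * crs (q - x) d := mul_nonneg hb.le g2
      have g5 : a * crs (p - x) d = 0 := by linarith
      exact (mul_eq_zero.mp g5).resolve_left ha.ne'
    exact sub_eq_zero.mp (eq_zero_of_crs hpos f1 f2)

/-- the sign condition in `BDir` on the cone -/
private lemma bdir_cone {e : ℂ} (he : BDir S x e) :
    e ≠ 0 ∧ e ∈ dcone S x ∧
      ((∀ v ∈ dcone S x, 0 ≤ crs e v) ∨ (∀ v ∈ dcone S x, crs e v ≤ 0)) := by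
  refine ⟨he.1, he.2.1, ?_⟩
  rcases he.2.2 with h | h
  · left
    rintro v ⟨t, ht, hv⟩
    have := h _ hv
    rw [add_sub_cancel_left, crs_smul_right] at this
    exact nonneg_of_mul_nonneg_right this ht
  · right
    rintro v ⟨t, ht, hv⟩
    have := h _ hv
    rw [add_sub_cancel_left, crs_smul_right] at this
    by_contra hcon
    push Not at hcon
    have := mul_pos ht hcon
    linarith

private lemma bdir_of_cone {e : ℂ} (h0 : e ≠ 0) (h1 : e ∈ dcone S x)
    (h2 : (∀ v ∈ dcone S x, 0 ≤ crs e v) ∨ (∀ v ∈ dcone S x, crs e v ≤ 0)) : BDir S x e := by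
  refine ⟨h0, h1, ?_⟩
  rcases h2 with h | h
  · left; intro z hz; exact h _ (sub_mem_dcone hz)
  · right; intro z hz; exact h _ (sub_mem_dcone hz)

theorem IsPoly.bdir_iff (h : IsPoly S) (hx : x ∈ frontier S) {c d : ℂ} (hc : ‖c‖ = 1)
    (hd : ‖d‖ = 1) (hcd : 0 < crs c d ∨ d = -c) (hD : dcone S x = sector c d) (e : ℂ) :
    BDir S x e ↔ ∃ t : ℝ, 0 < t ∧ (e = t • c ∨ e = t • d) := by
  have hcD : c ∈ dcone S x := by
    rw [hD]
    refine ⟨by rw [crs_self], ?_⟩
    rcases hcd with h1 | h1
    · exact h1.le
    · rw [h1, crs_neg_right, crs_self]; simp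
  have hdD : d ∈ dcone S x := by
    rw [hD]
    refine ⟨?_, by rw [crs_self]⟩
    rcases hcd with h1 | h1
    · exact h1.le
    · rw [h1, crs_neg_right, crs_self]; simp
  constructor
  · intro he
    obtain ⟨he0, heD, hs⟩ := bdir_cone he
    have heD' : e ∈ sector c d := by rw [← hD]; exact heD
    have g1 : 0 ≤ crs c e := heD'.1
    have g2 : 0 ≤ crs e d := heD'.2
    rcases hcd with h1 | h1
    · -- e = (crs e d / crs c d) c + (crs c e / crs c d) d
      have hexp := crs_expand c d e
      rcases hs with h3 | h3
      · -- 0 ≤ crs e v for all v in the cone: crs e c ≥ 0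
        have h4 := h3 c hcD
        rw [crs_swap] at h4
        have h5 : crs c e = 0 := by linarith
        rw [h5, zero_smul, add_zero] at hexp
        refine ⟨crs e d / crs c d, ?_, Or.inl ?_⟩
        · have : crs e d ≠ 0 := by
            intro h6
            rw [h6, zero_smul] at hexp
            exact he0 ((smul_eq_zero.mp hexp).resolve_left h1.ne')
          exact div_pos (lt_of_le_of_ne g2 (Ne.symm this)) h1
        · have h7 : crs c d • e = crs c d • ((crs e d / crs c d) • c) := by
            rw [hexp, smul_smul]; congr 1; field_simp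
          exact smul_right_injective ℂ h1.ne' h7
      · have h4 := h3 d hdD
        have h5 : crs e d = 0 := by linarith
        rw [h5, zero_smul, zero_add] at hexp
        refine ⟨crs c e / crs c d, ?_, Or.inr ?_⟩
        · have : crs c e ≠ 0 := by
            intro h6
            rw [h6, zero_smul] at hexp
            exact he0 ((smul_eq_zero.mp hexp).resolve_left h1.ne')
          exact div_pos (lt_of_le_of_ne g1 (Ne.symm this)) h1
        · have h7 : crs c d • e = crs c d • ((crs c e / crs c d) • d) := by
            rw [hexp, smul_smul]; congr 1; field_simp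
          exact smul_right_injective ℂ h1.ne' h7
    · -- d = -c
      have hcrs : crs c e = 0 := by
        have h5 : crs e c ≤ 0 := by rw [crs_swap]; linarith
        have h6 : crs e (-c) = crs c e := by rw [crs_neg_right, crs_swap c e]
        rcases hs with h3 | h3
        · have h4 := h3 c hcD
          rw [crs_swap] at h4
          linarith
        · have h4 := h3 d hdD
          rw [h1, h6] at h4
          linarith
      have h7 := exists_mul_of_crs_zero hc hcrs
      have h8 : dt c e ≠ 0 := by
        intro h9
        rw [h9, zero_smul] at h7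
        exact he0 h7
      rcases lt_or_gt_of_ne h8 with h9 | h9
      · refine ⟨-dt c e, by linarith, Or.inr ?_⟩
        rw [h1, smul_neg, neg_smul, neg_neg]
        exact h7
      · exact ⟨dt c e, h9, Or.inl h7⟩
  · rintro ⟨t, ht, hh⟩
    have hc0 := ne_zero_of_norm_one hc
    have hd0 := ne_zero_of_norm_one hd
    rcases hh with rfl | rfl
    · refine bdir_of_cone (smul_ne_zero ht.ne' hc0) (dcone_smul ht hcD) (Or.inl ?_)
      intro v hv
      rw [hD] at hv
      rw [crs_smul_left]
      exact mul_nonneg ht.le hv.1
    · refine bdir_of_cone (smul_ne_zero ht.ne' hd0) (dcone_smul ht hdD) (Or.inr ?_)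
      intro v hv
      rw [hD] at hv
      rw [crs_smul_left, crs_swap]
      have := mul_nonneg ht.le hv.2
      linarith

/-- exactly two boundary directions, up to positive factors -/
theorem IsPoly.two_bdir (h : IsPoly S) (hx : x ∈ frontier S) :
    ∃ c d : ℂ, BDir S x c ∧ BDir S x d ∧ (∀ t : ℝ, 0 < t → d ≠ t • c) ∧
      ∀ e, BDir S x e → ∃ t : ℝ, 0 < t ∧ (e = t • c ∨ e = t • d) := by
  obtain ⟨c, d, hc, hd, hcd, hD⟩ := h.dirs hx
  have hiff := fun e => h.bdir_iff hx hc hd hcd hD e
  refine ⟨c, d, (hiff c).mpr ⟨1, one_pos, Or.inl (by simp)⟩,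
    (hiff d).mpr ⟨1, one_pos, Or.inr (by simp)⟩, ?_, fun e he => (hiff e).mp he⟩
  intro t ht hdt
  rcases hcd with h1 | h1
  · rw [hdt, crs_smul_right, crs_self, mul_zero] at h1
    exact lt_irrefl _ h1
  · rw [h1] at hdt
    have : (t + 1) • c = 0 := by rw [add_smul, one_smul, ← hdt]; simp
    rcases smul_eq_zero.mp this with h2 | h2
    · linarith
    · exact ne_zero_of_norm_one hc h2

/-- a boundary direction is not an interior direction -/
theorem IsPoly.bdir_not_interior (h : IsPoly S) (hx : x ∈ S) {e : ℂ} (he : BDir S x e) :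
    e ∉ interior (dcone S x) := by
  intro hi
  obtain ⟨he0, heD, hs⟩ := bdir_cone he
  rw [mem_interior_iff_mem_nhds, Metric.mem_nhds_iff] at hi
  obtain ⟨r, hr, hball⟩ := hi
  have hne : 0 < ‖e‖ := norm_pos_iff.mpr he0
  have hkey : ∀ s : ℝ, |s| * ‖e‖ < r → e + (s : ℂ) * (Complex.I * e) ∈ dcone S x := by
    intro s hs
    apply hball
    rw [Metric.mem_ball, dist_eq_norm]
    have : e + (s : ℂ) * (Complex.I * e) - e = (s : ℂ) * (Complex.I * e) := by ring
    rw [this, norm_mul, norm_mul, Complex.norm_I, one_mul, Complex.norm_real, Real.norm_eq_abs]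
    exact hs
  have hval : ∀ s : ℝ, crs e (e + (s : ℂ) * (Complex.I * e)) = s * (e.re ^ 2 + e.im ^ 2) := by
    intro s
    simp only [crs, Complex.add_re, Complex.add_im, Complex.mul_re, Complex.mul_im,
      Complex.ofReal_re, Complex.ofReal_im, Complex.I_re, Complex.I_im]
    ring
  have h5 : 0 < e.re ^ 2 + e.im ^ 2 := by
    have := Complex.normSq_pos.mpr he0
    rw [Complex.normSq_apply] at this
    nlinarith
  have hr2 : 0 < r / (2 * ‖e‖) := by positivity
  have hr3 : r / (2 * ‖e‖) * ‖e‖ < r := by
    have : r / (2 * ‖e‖) * ‖e‖ = r / 2 := by field_simp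
    rw [this]; linarith
  rcases hs with h3 | h3
  · have := h3 _ (hkey (-(r / (2 * ‖e‖))) (by rw [abs_neg, abs_of_pos hr2]; exact hr3))
    rw [hval] at this
    have := mul_pos hr2 h5
    linarith
  · have := h3 _ (hkey (r / (2 * ‖e‖)) (by rw [abs_of_pos hr2]; exact hr3))
    rw [hval] at this
    have := mul_pos hr2 h5
    linarith

end Pool.Agent.NNb
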