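import Pool.Agent.NNb.Cone

/-!
Module DIRSA.  A planar polyhedral cone with interior points is a sector.

`cone_sector`: a set `D = {v | ∀ a ∈ A, dt a v ≤ 0}` (`A` a finite nonempty set of nonzero vectors)
with nonempty interior is a sector `sector c d` with unit vectors `c, d` and `0 < crs c d` or
`d = -c`.
Proof.  `crs (I * a) v = - dt a v`, so the closed half plane `dt a · ≤ 0` is
`{0 ≤ crs e ·}` with the unit vector `e` of direction `I a`.  Induction on `A`: the
intersection of a `sector c d` with a half plane `{0 ≤ crs e ·}`, if it has nonempty interior, is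
again such a sector, with `c` replaced by `e` or `d` by `-e`: cases according to the signs of
`crs e c`, `crs e d`.
-/

namespace Pool.Agent.NNb

open Set

theorem DIRSA_id (c d v w : ℂ) : crs w v * crs c d = crs v d * crs w c + crs c v * crs w d := by
  unfold crs; ring

theorem DIRSA_neg_right (a b : ℂ) : crs a (-b) = -crs a b := by
  simp only [crs, Complex.neg_re, Complex.neg_im]; ring

theorem DIRSA_neg_left (a b : ℂ) : crs (-a) b = -crs a b := by
  simp only [crs, Complex.neg_re, Complex.neg_im]; ring

theorem DIRSA_swap (a b : ℂ) : crs a b = -crs b a := by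
  unfold crs; ring

/-- a set with nonempty interior is not contained in a line -/
theorem DIRSA_offline {D : Set ℂ} (hD : (interior D).Nonempty) {e : ℂ} (he : e ≠ 0)
    (h : ∀ v ∈ D, crs e v = 0) : False := by
  obtain ⟨v, hv⟩ := hD
  rw [mem_interior_iff_mem_nhds, Metric.mem_nhds_iff] at hv
  obtain ⟨ε, hε, hball⟩ := hv
  obtain ⟨t, ht, htv⟩ := CONE_small (Complex.I * e) hε
  have h1 : v + t • (Complex.I * e) ∈ D := hball (by simpa [dist_eq_norm] using htv)
  have h2 : v ∈ D := hball (by simpa using hε)
  have h3 := h _ h1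
  have h4 := h _ h2
  have h5 : crs e (v + t • (Complex.I * e)) = crs e v + t * (e.re * e.re + e.im * e.im) := by
    simp only [crs, Complex.add_re, Complex.add_im, Complex.smul_re, Complex.smul_im,
      Complex.mul_re, Complex.mul_im, Complex.I_re, Complex.I_im, smul_eq_mul]
    ring
  have h6 : 0 < e.re * e.re + e.im * e.im := by
    have := Complex.normSq_pos.2 he
    rwa [Complex.normSq_apply] at this
  rw [h3, h4, zero_add] at h5
  have := mul_pos ht h6
  linarith

/-- the half plane of `a` in the form `0 ≤ crs e ·` with a unit vector `e` -/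
theorem DIRSA_half {a : ℂ} (ha : a ≠ 0) : ∃ e : ℂ, ‖e‖ = 1 ∧ ∀ v : ℂ, dt a v ≤ 0 ↔ 0 ≤ crs e v := by
  have hn : 0 < ‖a‖ := norm_pos_iff.2 ha
  refine ⟨(‖a‖⁻¹ : ℝ) • (Complex.I * a), ?_, fun v => ?_⟩
  · rw [norm_smul, norm_mul, Complex.norm_I, one_mul, Real.norm_of_nonneg (inv_pos.2 hn).le,
      inv_mul_cancel₀ hn.ne']
  · have h1 : crs ((‖a‖⁻¹ : ℝ) • (Complex.I * a)) v = -(‖a‖⁻¹ * dt a v) := by
      simp only [crs, dt, Complex.smul_re, Complex.smul_im,
        Complex.mul_re, Complex.mul_im, Complex.I_re, Complex.I_im, smul_eq_mul]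
      ring
    rw [h1]
    have hi : 0 < ‖a‖⁻¹ := inv_pos.2 hn
    constructor
    · intro h
      have := mul_nonpos_of_nonneg_of_nonpos hi.le h
      linarith
    · intro h
      by_contra hcon
      push Not at hcon
      have := mul_pos hi hcon
      linarith

theorem DIRSA_unit_par {c e : ℂ} (hc : ‖c‖ = 1) (he : ‖e‖ = 1) (h : crs c e = 0) :
    e = c ∨ e = -c := by
  have hc0 : c.re * c.re + c.im * c.im = 1 := by
    have := Complex.normSq_eq_norm_sq c
    rw [hc, Complex.normSq_apply] at this
    simpa using this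
  have he0 : e.re * e.re + e.im * e.im = 1 := by
    have := Complex.normSq_eq_norm_sq e
    rw [he, Complex.normSq_apply] at this
    simpa using this
  unfold crs at h
  -- e = s c with s = dt c e, s^2 = 1
  set s : ℝ := c.re * e.re + c.im * e.im with hs
  have h1 : e.re = s * c.re := by
    rw [hs]; linear_combination (-e.re) * hc0 - c.im * h
  have h2 : e.im = s * c.im := by
    rw [hs]; linear_combination (-e.im) * hc0 + c.re * h
  have h3 : s * s = 1 := by
    have : (s * c.re) * (s * c.re) + (s * c.im) * (s * c.im) = 1 := by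
      rw [← h1, ← h2]; exact he0
    linear_combination this - s * s * hc0
  have h4 : (s - 1) * (s + 1) = 0 := by linear_combination h3
  rcases mul_eq_zero.1 h4 with h5 | h5
  · left
    have : s = 1 := by linarith
    apply Complex.ext
    · rw [h1, this, one_mul]
    · rw [h2, this, one_mul]
  · right
    have : s = -1 := by linarith
    apply Complex.ext
    · rw [h1, this, Complex.neg_re]; ring
    · rw [h2, this, Complex.neg_im]; ring

theorem DIRSA_step {c d e : ℂ} (hc : ‖c‖ = 1) (hd : ‖d‖ = 1) (he : ‖e‖ = 1)
    (hcd : 0 < crs c d ∨ d = -c)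
    (hi : (interior (sector c d ∩ {v | 0 ≤ crs e v})).Nonempty) :
    ∃ c' d' : ℂ, ‖c'‖ = 1 ∧ ‖d'‖ = 1 ∧ (0 < crs c' d' ∨ d' = -c') ∧
      sector c d ∩ {v | 0 ≤ crs e v} = sector c' d' := by
  have he0 : e ≠ 0 := by
    rintro rfl
    simp at he
  have hne : ‖-e‖ = 1 := by rw [norm_neg]; exact he
  rcases hcd with hcd | rfl
  · rcases le_or_gt 0 (crs e c) with hα | hα
    · rcases le_or_gt 0 (crs e d) with hβ | hβ
      · -- unchanged
        refine ⟨c, d, hc, hd, Or.inl hcd, ?_⟩
        apply inter_eq_left.2
        rintro v ⟨h1, h2⟩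
        show 0 ≤ crs e v
        have h3 := DIRSA_id c d v e
        have h4 : 0 ≤ crs e v * crs c d := by
          rw [h3]
          exact add_nonneg (mul_nonneg h2 hα) (mul_nonneg h1 hβ)
        exact nonneg_of_mul_nonneg_left h4 hcd
      · -- alpha >= 0, beta < 0
        rcases hα.lt_or_eq with hα' | hα'
        · refine ⟨c, -e, hc, hne, Or.inl ?_, ?_⟩
          · rw [DIRSA_neg_right, DIRSA_swap c e, neg_neg]; exact hα'
          · ext v
            simp only [sector, mem_inter_iff, mem_setOf_eq]
            rw [DIRSA_neg_right, DIRSA_swap v e, neg_neg]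
            constructor
            · rintro ⟨⟨h1, _⟩, h3⟩
              exact ⟨h1, h3⟩
            · rintro ⟨h1, h3⟩
              refine ⟨⟨h1, ?_⟩, h3⟩
              -- crs v d * crs e c = crs e v * crs c d + crs c v * (- crs e d)
              have h4 : crs v d * crs e c = crs e v * crs c d + crs c v * (-crs e d) := by
                unfold crs; ring
              have h5 : 0 ≤ crs v d * crs e c := by
                rw [h4]
                exact add_nonneg (mul_nonneg h3 hcd.le) (mul_nonneg h1 (by linarith))
              exact nonneg_of_mul_nonneg_left h5 hα'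
        · -- alpha = 0, beta < 0 : empty interior
          exfalso
          refine DIRSA_offline hi he0 fun v hv => ?_
          obtain ⟨⟨h1, h2⟩, h3⟩ := hv
          have h3' : 0 ≤ crs e v := h3
          have h4 := DIRSA_id c d v e
          rw [← hα', mul_zero, zero_add] at h4
          have h5 : crs e v * crs c d ≤ 0 := by
            rw [h4]; exact mul_nonpos_of_nonneg_of_nonpos h1 hβ.le
          have h6 : 0 ≤ crs e v * crs c d := mul_nonneg h3' hcd.le
          rcases mul_eq_zero.1 (le_antisymm h5 h6) with h7 | h7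
          · exact h7
          · exact absurd h7 hcd.ne'
    · rcases le_or_gt (crs e d) 0 with hβ | hβ
      · -- alpha < 0, beta <= 0
        exfalso
        refine DIRSA_offline hi he0 fun v hv => ?_
        obtain ⟨⟨h1, h2⟩, h3⟩ := hv
        have h3' : 0 ≤ crs e v := h3
        have h4 := DIRSA_id c d v e
        have h5 : crs e v * crs c d ≤ 0 := by
          rw [h4]
          exact add_nonpos (mul_nonpos_of_nonneg_of_nonpos h2 hα.le)
            (mul_nonpos_of_nonneg_of_nonpos h1 hβ)
        have h6 : 0 ≤ crs e v * crs c d := mul_nonneg h3' hcd.le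
        rcases mul_eq_zero.1 (le_antisymm h5 h6) with h7 | h7
        · exact h7
        · exact absurd h7 hcd.ne'
      · -- alpha < 0, beta > 0
        refine ⟨e, d, he, hd, Or.inl hβ, ?_⟩
        ext v
        simp only [sector, mem_inter_iff, mem_setOf_eq]
        constructor
        · rintro ⟨⟨_, h2⟩, h3⟩
          exact ⟨h3, h2⟩
        · rintro ⟨h3, h2⟩
          refine ⟨⟨?_, h2⟩, h3⟩
          have h4 : crs c v * crs e d = crs v d * (-crs e c) + crs e v * crs c d := by
            unfold crs; ring
          have h5 : 0 ≤ crs c v * crs e d := by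
            rw [h4]
            exact add_nonneg (mul_nonneg h2 (by linarith)) (mul_nonneg h3 hcd.le)
          exact nonneg_of_mul_nonneg_left h5 hβ
  · -- d = -c
    have hsec : ∀ v, v ∈ sector c (-c) ↔ 0 ≤ crs c v := by
      intro v
      simp only [sector, mem_setOf_eq]
      rw [DIRSA_neg_right, DIRSA_swap v c, neg_neg]
      exact and_self_iff
    rcases lt_trichotomy (crs c e) 0 with h | h | h
    · refine ⟨c, -e, hc, hne, Or.inl ?_, ?_⟩
      · rw [DIRSA_neg_right]; linarith
      · ext v
        rw [mem_inter_iff, hsec]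
        simp only [sector, mem_setOf_eq]
        rw [DIRSA_neg_right, DIRSA_swap v e, neg_neg]
    · rcases DIRSA_unit_par hc he h with rfl | rfl
      · refine ⟨e, -e, hc, hne, Or.inr rfl, ?_⟩
        ext v
        rw [mem_inter_iff, hsec]
        exact and_self_iff
      · exfalso
        refine DIRSA_offline hi he0 fun v hv => ?_
        have h1 := (hsec v).1 hv.1
        have h2 : 0 ≤ crs (-c) v := hv.2
        rw [DIRSA_neg_left] at h2 ⊢
        linarith
    · refine ⟨e, -c, he, hd, Or.inl ?_, ?_⟩
      · rw [DIRSA_neg_right, DIRSA_swap e c, neg_neg]; exact h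
      · ext v
        rw [mem_inter_iff, hsec]
        simp only [sector, mem_setOf_eq]
        rw [DIRSA_neg_right, DIRSA_swap v c, neg_neg]
        exact and_comm

theorem cone_sector (A : Finset ℂ) (hA : A.Nonempty) (h0 : ∀ a ∈ A, a ≠ 0)
    (hi : (interior {v : ℂ | ∀ a ∈ A, dt a v ≤ 0}).Nonempty) :
    ∃ c d : ℂ, ‖c‖ = 1 ∧ ‖d‖ = 1 ∧ (0 < crs c d ∨ d = -c) ∧
      {v : ℂ | ∀ a ∈ A, dt a v ≤ 0} = sector c d := by
  classical
  induction A using Finset.induction_on with
  | empty => exact absurd hA (by simp)
  | insert a A _ ih =>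
    obtain ⟨e, he, hhalf⟩ := DIRSA_half (h0 a (Finset.mem_insert_self a A))
    rcases A.eq_empty_or_nonempty with rfl | hAn
    · refine ⟨e, -e, he, by rw [norm_neg]; exact he, Or.inr rfl, ?_⟩
      ext v
      simp only [Finset.mem_insert, Finset.notMem_empty, or_false, forall_eq, mem_setOf_eq, sector]
      rw [hhalf v, DIRSA_neg_right, DIRSA_swap v e, neg_neg]
      exact and_self_iff.symm
    · have hset : {v : ℂ | ∀ b ∈ insert a A, dt b v ≤ 0} =
          {v : ℂ | ∀ b ∈ A, dt b v ≤ 0} ∩ {v | 0 ≤ crs e v} := by
        ext v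
        simp only [Finset.mem_insert, forall_eq_or_imp, mem_setOf_eq, mem_inter_iff]
        rw [hhalf v]
        exact and_comm
      rw [hset] at hi ⊢
      obtain ⟨c, d, hc, hd, hcd, hAs⟩ := ih hAn
        (fun b hb => h0 b (Finset.mem_insert_of_mem hb))
        (hi.mono (interior_mono inter_subset_left))
      rw [hAs] at hi ⊢
      exact DIRSA_step hc hd he hcd hi

end Pool.Agent.NNb
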