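import Pool.Agent.NNb.Cnt

/-!
Module FIVE2.  The 5-valent node types of the scalene triangles with `θ 2 = 2π/3`.

`ang_cnt`, `val_cnt`, `fl_le` with `π = 3 (θ 0 + θ 1)`, `θ 2 = 2 (θ 0 + θ 1)`, `0 < θ 0 < θ 1`.  Write
`a, b, c = cnt 0, 1, 2`.
`fl = 1`: `a + b + c = 4`, `(a - 3) θ 0 + (b - 3) θ 1 + 2 c (θ 0 + θ 1) = 0`.  `c = 0`: `(a,b) = (0,4)` gives
`θ 1 = 3 θ 0`; `(1,3)`: `-2 θ 0 = 0`; `(2,2)`: negative; `(3,1)`: `-2 θ 1 = 0`; `(4,0)`: `θ 0 = 3 θ 1`: impossible.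
`c = 1`: `a + b = 3`, `(a - 1) θ 0 + (b - 1) θ 1 = 0`: `(3,0)` gives `θ 1 = 2 θ 0`; `(0,3)`: `θ 0 = 2 θ 1`; `(1,2)`,
`(2,1)`: impossible.  `c ≥ 2`: left side positive.
`fl = 0`: `a + b + c = 5`, `(a - 6) θ 0 + (b - 6) θ 1 + 2 c (θ 0 + θ 1) = 0`.  `c = 0`, `c = 1`: negative.  `c = 2`:
`a + b = 3`, `(a - 2) θ 0 + (b - 2) θ 1 = 0`: `(0,3)` gives `θ 1 = 2 θ 0`; the others are impossible.
`c ≥ 3`: `a + b ≤ 2` and `a θ 0 + b θ 1 + 2 (c - 3)(θ 0 + θ 1) = 0` forces `a = b = 0`, `c = 3`, no.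
-/

namespace Pool.Agent.NNb

namespace Sys3

variable {ι : Type} {n : ℕ} (S : Sys3 ι n)

theorem cls2_five (h2 : S.θ 2 = 2 * Real.pi / 3) (h01 : S.θ 0 < S.θ 1) {i : ι} {x : ℂ}
    (hx : x ∈ S.N i) (hv : S.val x = 5) :
    (S.θ 1 = 3 * S.θ 0 ∧ S.cnt 0 x = 0 ∧ S.cnt 1 x = 4 ∧ S.cnt 2 x = 0 ∧ S.fl x = 1) ∨
    (S.θ 1 = 2 * S.θ 0 ∧ S.cnt 0 x = 3 ∧ S.cnt 1 x = 0 ∧ S.cnt 2 x = 1 ∧ S.fl x = 1) ∨
    (S.θ 1 = 2 * S.θ 0 ∧ S.cnt 0 x = 0 ∧ S.cnt 1 x = 3 ∧ S.cnt 2 x = 2 ∧ S.fl x = 0) := by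
  have hc := S.val_cnt x
  have ha := S.ang_cnt hx
  have hf := S.fl_le hx
  rw [hv] at hc
  have h0 := S.θ_pos 0
  have hs := S.θ_sum
  rw [h2] at ha hs
  have hpi : Real.pi = 3 * (S.θ 0 + S.θ 1) := by linarith
  rw [hpi] at ha
  clear hs hpi h2
  generalize S.cnt 0 x = A at *
  generalize S.cnt 1 x = B at *
  generalize S.cnt 2 x = C at *
  generalize S.fl x = F at *
  generalize S.θ 0 = u at *
  generalize S.θ 1 = v at *
  have hC : C ≤ 5 := by omega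
  have hB : B ≤ 5 := by omega
  interval_cases F
  all_goals interval_cases C
  all_goals interval_cases B
  all_goals first
    | omega
    | skip
  all_goals first
    | (have hA : A = 5 := by omega
       subst hA)
    | (have hA : A = 4 := by omega
       subst hA)
    | (have hA : A = 3 := by omega
       subst hA)
    | (have hA : A = 2 := by omega
       subst hA)
    | (have hA : A = 1 := by omega
       subst hA)
    | (have hA : A = 0 := by omega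
       subst hA)
  all_goals push_cast at ha
  all_goals first
    | (exfalso; linarith)
    | (left; exact ⟨by linarith, rfl, rfl, rfl, rfl⟩)
    | (right; left; exact ⟨by linarith, rfl, rfl, rfl, rfl⟩)
    | (right; right; exact ⟨by linarith, rfl, rfl, rfl, rfl⟩)


end Sys3

end Pool.Agent.NNb
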