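import Pool.Agent.NNb.HubA
import Pool.Agent.NNb.Five2
import Pool.Agent.NNb.Cls2A
import Pool.Agent.NNb.TriS

/-!
Module ELOC.  `E`-tiles (three nodes, valences `3, 5, n - 2`) of a scalene triangle with `θ 2 = 2π/3`:
only possible with `θ 1 = 3 θ 0`, and then the node of valence `n - 2` is `lab i 0`.

Let `N i = {g, w, p}`, `val g = 3`, `val w = 5`, `val p = n - 2` (distinct as `n ≥ 15`).  `g = lab i 2`
(`cls2_three`), `H2` holds (`cls2_H2`).  All three nodes are corners (`card3_mem`), so `{w, p} = {lab i 0, lab i 1}`.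
Let `i'` be the other tile with `g, p` (`part_of_three`, `part_other`); by `hubA3` it has exactly three
nodes `g, p, w'` with `val w' = 5`, and `g = lab i' 2`.
Same label of `p`: if `p = lab i 0` then `dist g p = ρ sin (θ 1)` (`side`), if `p = lab i 1` then
`dist g p = ρ sin (θ 0)`; the same on `i'`; `sin (θ 0) < sin (θ 1)` (`0 < θ 0 < θ 1 < π/3`), so `p` has the same
label on `i` and `i'`.
Third tile `N3` at `g` (`val g = 3`; `link3`): `w` is the common node `≠ g` of `i` and `N3` (the partners of `g`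
on `i` are `p` and `w`, and `p` is shared with `i'`), `w'` the one of `i'` and `N3`; `w ≠ w'` (`three`);
`g = lab N3 2` (`cls2_three`).  `w`, `w'` are partners of `g` on `N3`; by `part_corner` and `part_corner_two` one
of them, `w₀`, is in `segment g (lab N3 0)` and the other one, `w₁`, in `segment g (lab N3 1)`.
(a) `p = lab i 1`, so `w = lab i 0`, `w' = lab i' 0`, `dist g w = dist g w' = ρ sin (θ 1)`; but
`dist g w₁ ≤ dist g (lab N3 1) = ρ sin (θ 0)`: contradiction.
(b) So `p = lab i 0`, `w = lab i 1`, `w' = lab i' 1`, `dist g w₀ = ρ sin (θ 0) < ρ sin (θ 1) = dist g (lab N3 0)`,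
so `w₀` is not a corner of `N3` (it is on the side from `lab N3 2` to `lab N3 0`, different from both ends;
`corner_not_side`), hence `fl w₀ ≥ 1`; and `cnt 1 w₀ ≥ 1` (`cnt_pos` for `i` or `i'`).  By `cls2_five` only the
type `(0,4,0)` with `fl = 1` remains, so `θ 1 = 3 θ 0`.
-/

namespace Pool.Agent.NNb

namespace Sys3

variable {ι : Type} {n : ℕ} (S : Sys3 ι n)

theorem ELOC_side (i : ι) {k l m : Fin 3} (hkl : k ≠ l) (hkm : k ≠ m) (hlm : l ≠ m) :
    dist (S.lab i k) (S.lab i l) = S.ρ * Real.sin (S.θ m) := by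
  obtain ⟨s0, s1, s2⟩ := S.side i
  have hcases : (k = 0 ∧ l = 1 ∧ m = 2) ∨ (k = 0 ∧ l = 2 ∧ m = 1) ∨ (k = 1 ∧ l = 0 ∧ m = 2) ∨
      (k = 1 ∧ l = 2 ∧ m = 0) ∨ (k = 2 ∧ l = 0 ∧ m = 1) ∨ (k = 2 ∧ l = 1 ∧ m = 0) := by
    revert k l m
    decide
  rcases hcases with ⟨rfl, rfl, rfl⟩ | ⟨rfl, rfl, rfl⟩ | ⟨rfl, rfl, rfl⟩ | ⟨rfl, rfl, rfl⟩ |
    ⟨rfl, rfl, rfl⟩ | ⟨rfl, rfl, rfl⟩
  · exact s2
  · exact s1
  · rw [dist_comm]; exact s2
  · exact s0
  · rw [dist_comm]; exact s1
  · rw [dist_comm]; exact s0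

/-- a point of a segment is not farther from the left end than the right end -/
theorem ELOC_dist_le {a b x : ℂ} (h : x ∈ segment ℝ a b) : dist a x ≤ dist a b := by
  obtain ⟨t, h0, h1, rfl⟩ := TRIS_seg.1 h
  have e1 : dist a (a + t • (b - a)) = t * dist a b := by
    rw [dist_eq_norm, dist_eq_norm]
    have : a - (a + t • (b - a)) = t • (a - b) := by
      rw [smul_sub, smul_sub]
      ring
    rw [this, norm_smul, Real.norm_eq_abs, abs_of_nonneg h0]
  rw [e1]
  have := dist_nonneg (x := a) (y := b)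
  nlinarith

theorem ELOC_third {g : ℂ} (i i' : ι) (hv : S.val g = 3) :
    ∃ j, j ≠ i ∧ j ≠ i' ∧ g ∈ S.N j := by
  classical
  by_contra hcon
  push Not at hcon
  have hsub : S.tl g ⊆ {i, i'} := by
    intro j hj
    rw [S.mem_tl] at hj
    by_cases h1 : j = i
    · simp [h1]
    · by_cases h2 : j = i'
      · simp [h2]
      · exact absurd hj (hcon j h1 h2)
  have h1 := Finset.card_le_card hsub
  have h2 := Finset.card_le_two (a := i) (b := i')
  have h3 : (S.tl g).card = 3 := hv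
  omega

theorem cls2_E_loc (hn : 15 ≤ n) (h2 : S.θ 2 = 2 * Real.pi / 3) (h01 : S.θ 0 < S.θ 1) {i : ι}
    (hE : S.toSys.IsE i) : S.θ 1 = 3 * S.θ 0 ∧ S.val (S.lab i 0) + 2 = n ∧
      S.val (S.lab i 1) = 5 ∧ S.val (S.lab i 2) = 3 := by
  classical
  obtain ⟨hc, g, w, p, hg, hw, hp, hvg, hvw, hvp⟩ := hE
  have hgw : g ≠ w := by rintro rfl; omega
  have hgp : g ≠ p := by rintro rfl; omega
  have hwp : w ≠ p := by rintro rfl; omega
  have hgl := S.cls2_three h2 hg hvg
  -- the three nodes of `i`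
  have hmem : ∀ x, x ∈ S.N i → x = g ∨ x = w ∨ x = p := by
    have hsub : ({g, w, p} : Finset ℂ) ⊆ S.N i := by
      intro x hx
      simp only [Finset.mem_insert, Finset.mem_singleton] at hx
      rcases hx with rfl | rfl | rfl <;> assumption
    have hcard : ({g, w, p} : Finset ℂ).card = 3 :=
      Finset.card_eq_three.2 ⟨g, w, p, hgw, hgp, hwp, rfl⟩
    have he := Finset.eq_of_subset_of_card_le hsub (by rw [hcard, hc])
    intro x hx
    rw [← he] at hx
    simpa using hx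
  obtain ⟨i', hi', hpart, hoth⟩ := S.part_other (S.part_of_three hc hg hp hgp)
  have hg' : g ∈ S.N i' := hpart.1
  have hp' : p ∈ S.N i' := hpart.2.1
  obtain ⟨hc', w', hw', hwp', hwg', hvw', hall'⟩ :=
    S.toSys.hubA3 hn (S.cls2_H2 h2) hp' hg' hvp hvg
  have hgl' := S.cls2_three h2 hg' hvg
  -- the angles
  have hp0 := Real.pi_pos
  have h0 := S.θ_pos 0
  have hs := S.θ_sum
  have hsin : Real.sin (S.θ 0) < Real.sin (S.θ 1) := by
    rw [h2] at hs
    exact Real.sin_lt_sin_of_lt_of_le_pi_div_two (by linarith) (by linarith) h01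
  have hlt : S.ρ * Real.sin (S.θ 0) < S.ρ * Real.sin (S.θ 1) :=
    mul_lt_mul_of_pos_left hsin S.ρ_pos
  have d1 : ∀ t, S.lab t 2 = g → dist g (S.lab t 1) = S.ρ * Real.sin (S.θ 0) := by
    intro t ht
    rw [← (S.side t).1, ht, dist_comm]
  have d0 : ∀ t, S.lab t 2 = g → dist g (S.lab t 0) = S.ρ * Real.sin (S.θ 1) := by
    intro t ht
    rw [← (S.side t).2.1, ht, dist_comm]
  -- the third tile at `g`
  obtain ⟨j, hji, hji', hgj⟩ := S.ELOC_third i i' hvg
  have hjl := S.cls2_three h2 hgj hvg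
  obtain ⟨p1, q1, r1, hp1g, hq1g, hr1g, hp1q1, hq1r1, hp1r1, hp1i, hp1j, hq1j, hq1i', hr1i', hr1i⟩ :=
    S.link3 hvg hji.symm hji' hi'.symm hg hgj hg'
  have hr1 : r1 = p := by
    rcases S.three i i' g p r1 hi'.symm hg hp hr1i hg' hp' hr1i' with h | h | h
    · exact absurd h hgp
    · exact h.symm
    · exact absurd h.symm hr1g
  have hp1 : p1 = w := by
    rcases hmem p1 hp1i with h | h | h
    · exact absurd h hp1g
    · exact h
    · exact absurd (h.trans hr1.symm) hp1r1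
  have hq1 : q1 = w' := by
    rcases (hall' q1).1 hq1i' with h | h | h
    · exact absurd (h.trans hr1.symm) hq1r1
    · exact absurd h hq1g
    · exact h
  subst hr1 hp1 hq1
  -- now p1 = w, q1 = w', r1 = p
  have hpartw : Part S.N j (S.lab j 2) p1 := by
    rw [hjl]
    exact ⟨hgj, hp1j, hgw, i, hji.symm, hg, hw⟩
  have hpartw' : Part S.N j (S.lab j 2) q1 := by
    rw [hjl]
    exact ⟨hgj, hq1j, hwg'.symm, i', hji'.symm, hg', hw'⟩
  -- segments
  have hsplit : ∃ w0 w1, ((w0 = p1 ∧ w1 = q1) ∨ (w0 = q1 ∧ w1 = p1)) ∧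
      w0 ∈ segment ℝ g (S.lab j 0) ∧ w1 ∈ segment ℝ g (S.lab j 1) := by
    obtain ⟨l, hl, hls⟩ := S.part_corner hpartw
    obtain ⟨l', hl', hls'⟩ := S.part_corner hpartw'
    have hll : l ≠ l' := by
      rintro rfl
      exact hp1q1 (S.part_corner_two hl hpartw hpartw' hls hls')
    rw [hjl] at hls hls'
    have hcs : (l = 0 ∧ l' = 1) ∨ (l = 1 ∧ l' = 0) := by
      clear hls hls'
      revert l l'
      decide
    rcases hcs with ⟨rfl, rfl⟩ | ⟨rfl, rfl⟩
    · exact ⟨p1, q1, Or.inl ⟨rfl, rfl⟩, hls, hls'⟩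
    · exact ⟨q1, p1, Or.inr ⟨rfl, rfl⟩, hls', hls⟩
  obtain ⟨w0, w1, hw01, hseg0, hseg1⟩ := hsplit
  -- labels on `i` and `i'`
  have hcor : ∀ t, (S.N t).card = 3 → S.lab t 2 = g → ∀ x ∈ S.N t, x ≠ g →
      x = S.lab t 0 ∨ x = S.lab t 1 := by
    intro t ht hl x hx hxg
    rcases (S.card3_mem ht x).1 hx with h | h | h
    · exact Or.inl h
    · exact Or.inr h
    · rw [hl] at h; exact absurd h hxg
  have n01 : ∀ t, S.lab t 0 ≠ S.lab t 1 := fun t => S.TRIS_ne t (by decide)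
  have hcase : (r1 = S.lab i 1 ∧ p1 = S.lab i 0 ∧ q1 = S.lab i' 0) ∨
      (r1 = S.lab i 0 ∧ p1 = S.lab i 1 ∧ q1 = S.lab i' 1) := by
    rcases hcor i hc hgl r1 hp hgp.symm with a1 | a1 <;>
      rcases hcor i hc hgl p1 hw hgw.symm with b1 | b1 <;>
      rcases hcor i' hc' hgl' r1 hp' hgp.symm with a2 | a2 <;>
      rcases hcor i' hc' hgl' q1 hw' hwg' with b2 | b2
    · exact absurd (b1.trans a1.symm) hwp
    · exact absurd (b1.trans a1.symm) hwp
    · exact absurd (b1.trans a1.symm) hwp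
    · exact absurd (b1.trans a1.symm) hwp
    · exact absurd (b2.trans a2.symm) hwp'
    · exact Or.inr ⟨a1, b1, b2⟩
    · exfalso
      have e1 := d0 i hgl
      have e2 := d1 i' hgl'
      rw [← a1] at e1
      rw [← a2] at e2
      linarith
    · exact absurd (b2.trans a2.symm) hwp'
    · exact absurd (b2.trans a2.symm) hwp'
    · exfalso
      have e1 := d1 i hgl
      have e2 := d0 i' hgl'
      rw [← a1] at e1
      rw [← a2] at e2
      linarith
    · exact Or.inl ⟨a1, b1, b2⟩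
    · exact absurd (b2.trans a2.symm) hwp'
    · exact absurd (b1.trans a1.symm) hwp
    · exact absurd (b1.trans a1.symm) hwp
    · exact absurd (b1.trans a1.symm) hwp
    · exact absurd (b1.trans a1.symm) hwp
  rcases hcase with ⟨c1, c2, c3⟩ | ⟨c1, c2, c3⟩
  · exfalso
    have e1 : dist g w1 = S.ρ * Real.sin (S.θ 1) := by
      rcases hw01 with ⟨-, h⟩ | ⟨-, h⟩
      · rw [h, c3]; exact d0 i' hgl'
      · rw [h, c2]; exact d0 i hgl
    have e2 := ELOC_dist_le hseg1
    rw [d1 j hjl] at e2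
    linarith
  · have e1 : dist g w0 = S.ρ * Real.sin (S.θ 0) := by
      rcases hw01 with ⟨h, -⟩ | ⟨h, -⟩
      · rw [h, c2]; exact d1 i hgl
      · rw [h, c3]; exact d1 i' hgl'
    have hw0g : w0 ≠ g := by
      rcases hw01 with ⟨h, -⟩ | ⟨h, -⟩
      · rw [h]; exact hgw.symm
      · rw [h]; exact hwg'
    have hw0j : w0 ∈ S.N j := by
      rcases hw01 with ⟨h, -⟩ | ⟨h, -⟩
      · rw [h]; exact hp1j
      · rw [h]; exact hq1j
    have hv0 : S.val w0 = 5 := by
      rcases hw01 with ⟨h, -⟩ | ⟨h, -⟩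
      · rw [h]; exact hvw
      · rw [h]; exact hvw'
    have hcnt : 1 ≤ S.cnt 1 w0 := by
      rcases hw01 with ⟨h, -⟩ | ⟨h, -⟩
      · rw [h, c2]; exact S.cnt_pos i 1
      · rw [h, c3]; exact S.cnt_pos i' 1
    have hnc : w0 ∉ S.C j := by
      intro hC
      rcases (S.C_eq j w0).1 hC with h | h | h
      · rw [h, d0 j hjl] at e1
        linarith
      · rw [h, ← hjl] at hseg0
        exact S.corner_not_side j (k := 1) (l := 2) (m := 0) (by decide) (by decide) (by decide)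
          hseg0
      · exact hw0g (h.trans hjl)
    have hfl : 1 ≤ S.fl w0 := by
      unfold fl
      rw [Nat.one_le_iff_ne_zero, ← Nat.pos_iff_ne_zero, Finset.card_pos]
      exact ⟨j, Finset.mem_filter.2 ⟨(S.mem_tl j _).2 hw0j, hnc⟩⟩
    rcases S.cls2_five h2 h01 hw0j hv0 with h | h | h
    · refine ⟨h.1, ?_, ?_, ?_⟩
      · rw [← c1]; exact hvp
      · rw [← c2]; exact hvw
      · rw [hgl]; exact hvg
    · exfalso
      have := h.2.2.1
      omega
    · exfalso
      have := h.2.2.2.2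
      omega

end Sys3

end Pool.Agent.NNb
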