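import Pool.Agent.NNb.Defs

/-!
Module HEXT.  A set given by finitely many linear inequalities has finitely many extreme points.

Proof.  Let `Q = {z | ∀ p ∈ F, dt p.1 z ≤ p.2}`.  Map `z ∈ ext Q` to the set of active
constraints `A z = {p ∈ F | dt p.1 z = p.2}` (an element of `F.powerset`).  This map is injective on
`ext Q`: if `z ≠ w` are extreme with the same active set, let `u = w - z`; then `dt p.1 u = 0` for
all active `p`, and for small `ε > 0` both `z + ε u` and `z - ε u` are in `Q` (the inactive
constraints are strict and finite in number), `z` is the midpoint of these two points, so `z` is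
not extreme.  Hence the set of extreme points is finite (`Set.Finite.of_injOn` or similar).
-/

namespace Pool.Agent.NNb

open Set

private lemma dt_add (a b c : ℂ) : dt a (b + c) = dt a b + dt a c := by
  simp [dt]; ring

private lemma dt_smul (a : ℂ) (t : ℝ) (b : ℂ) : dt a (t • b) = t * dt a b := by
  simp [dt]; ring

open Classical in
theorem hpoly_ext_finite (F : Finset (ℂ × ℝ)) :
    (({z | ∀ p ∈ F, dt p.1 z ≤ p.2} : Set ℂ).extremePoints ℝ).Finite := by
  set Q : Set ℂ := {z | ∀ p ∈ F, dt p.1 z ≤ p.2} with hQ
  refine Set.Finite.of_injOn (f := fun z => F.filter (fun p => dt p.1 z = p.2))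
    (t := (F.powerset : Set (Finset (ℂ × ℝ)))) ?_ ?_ (Finset.finite_toSet _)
  · intro z _
    simp only [Finset.coe_powerset, Set.mem_preimage, Set.mem_powerset_iff, Finset.coe_subset]
    exact Finset.filter_subset _ _
  · intro z hz w hw hzw
    by_contra hne
    have hzQ : z ∈ Q := hz.1
    set u : ℂ := w - z with hu
    have hu0 : u ≠ 0 := sub_ne_zero.mpr (Ne.symm hne)
    have hact : ∀ p ∈ F, dt p.1 z = p.2 → dt p.1 u = 0 := by
      intro p hp h1
      have : p ∈ F.filter (fun p => dt p.1 w = p.2) := by
        have h2 : p ∈ F.filter (fun p => dt p.1 z = p.2) := by simp [hp, h1]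
        have h3 : F.filter (fun p => dt p.1 z = p.2) = F.filter (fun p => dt p.1 w = p.2) := hzw
        rwa [h3] at h2
      have h4 : dt p.1 w = p.2 := (Finset.mem_filter.mp this).2
      have h5 : w = z + u := by rw [hu]; ring
      rw [h5, dt_add] at h4
      linarith
    have heps : ∃ ε : ℝ, 0 < ε ∧ ∀ p ∈ F, ε * |dt p.1 u| ≤ p.2 - dt p.1 z := by
      have : ∀ G : Finset (ℂ × ℝ), G ⊆ F → ∃ ε : ℝ, 0 < ε ∧ ∀ p ∈ G, ε * |dt p.1 u| ≤ p.2 - dt p.1 z := by
        intro G
        induction G using Finset.induction_on with
        | empty => intro _; exact ⟨1, one_pos, by simp⟩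
        | insert q G hq ih =>
          intro hG
          obtain ⟨ε, he, hε⟩ := ih (fun x hx => hG (Finset.mem_insert_of_mem hx))
          have hqF : q ∈ F := hG (Finset.mem_insert_self _ _)
          have hq1 : dt q.1 z ≤ q.2 := hzQ q hqF
          by_cases h1 : dt q.1 z = q.2
          · refine ⟨ε, he, ?_⟩
            intro p hp
            rcases Finset.mem_insert.mp hp with rfl | hp
            · rw [hact _ hqF h1]; simp [h1]
            · exact hε p hp
          · have h2 : 0 < q.2 - dt q.1 z := by
              rcases lt_or_eq_of_le hq1 with h | h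
              · linarith
              · exact absurd h h1
            have h3 : 0 < |dt q.1 u| + 1 := by positivity
            refine ⟨min ε ((q.2 - dt q.1 z) / (|dt q.1 u| + 1)), lt_min he (by positivity), ?_⟩
            intro p hp
            rcases Finset.mem_insert.mp hp with rfl | hp
            · calc min ε ((p.2 - dt p.1 z) / (|dt p.1 u| + 1)) * |dt p.1 u|
                  ≤ ((p.2 - dt p.1 z) / (|dt p.1 u| + 1)) * |dt p.1 u| := by
                    apply mul_le_mul_of_nonneg_right (min_le_right _ _) (abs_nonneg _)
                _ ≤ ((p.2 - dt p.1 z) / (|dt p.1 u| + 1)) * (|dt p.1 u| + 1) := by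
                    apply mul_le_mul_of_nonneg_left (by linarith) (by positivity)
                _ = p.2 - dt p.1 z := by field_simp
            · calc min ε ((q.2 - dt q.1 z) / (|dt q.1 u| + 1)) * |dt p.1 u|
                  ≤ ε * |dt p.1 u| := by
                    apply mul_le_mul_of_nonneg_right (min_le_left _ _) (abs_nonneg _)
                _ ≤ _ := hε p hp
      exact this F (Finset.Subset.refl _)
    obtain ⟨ε, he, hε⟩ := heps
    have h1 : z + ε • u ∈ Q := by
      intro p hp
      rw [dt_add, dt_smul]
      have := hε p hp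
      have h2 : ε * dt p.1 u ≤ ε * |dt p.1 u| := mul_le_mul_of_nonneg_left (le_abs_self _) he.le
      linarith
    have h2 : z + (-ε) • u ∈ Q := by
      intro p hp
      rw [dt_add, dt_smul]
      have := hε p hp
      have h2 : ε * (-dt p.1 u) ≤ ε * |dt p.1 u| := mul_le_mul_of_nonneg_left (neg_le_abs _) he.le
      linarith
    have h3 : z ∈ openSegment ℝ (z + ε • u) (z + (-ε) • u) := by
      refine ⟨1 / 2, 1 / 2, by norm_num, by norm_num, by norm_num, ?_⟩
      simp only [smul_add, smul_smul]
      module
    have h4 := hz.2 h1 h2 h3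
    have h5 : ε • u = 0 := by
      have := h4
      simpa using this
    rcases smul_eq_zero.mp h5 with h | h
    · exact he.ne' h
    · exact hu0 h

end Pool.Agent.NNb
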