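import Pool.Agent.NNb.HExt

/-!
Module HREP.  A convex polygon is the intersection of finitely many half planes.

Proof (duality).  Let `S = convexHull ℝ V`, `V` finite, and `p` an interior point of `S`; after
translation by `-p` we may assume that `0` is an interior point.
`Q = {y | ∀ v ∈ V, dt v y ≤ 1}` is closed, convex, contains `0`, and is bounded (a ball around `0`
of radius `r` lies in `S`, hence `dt y z ≤ 1` for `‖z‖ ≤ r`, `y ∈ Q`, so `‖y‖ ≤ 1/r`).  By
`hpoly_ext_finite` it has finitely many extreme points `E`; by Krein-Milman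
(`closure_convexHull_extremePoints`) `Q = closure (convexHull ℝ E) = convexHull ℝ E` (`E` finite, so
the hull is compact).  Claim: `S = {z | ∀ y ∈ E, dt y z ≤ 1}`.  `⊆`: `dt y v ≤ 1` for `v ∈ V`, hence
on the hull.  `⊇`: let `z ∉ S`; `S` is compact convex, so there is a continuous linear functional
`g` with `g < c` on `S` and `g z > c` (`geometric_hahn_banach_closed_point`); `0 ∈ interior S` gives
`c > 0`; `g = dt y0 ·` for some `y0 : ℂ`, and `y = y0 / c` is in `Q` with `dt y z > 1`; but `y` is a
convex combination of elements of `E`, so `dt y' z > 1` for some `y' ∈ E`.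
-/

namespace Pool.Agent.NNb

open Set

private theorem hrep_lin (a : ℂ) : IsLinearMap ℝ (dt a) where
  map_add x y := by simp only [dt, Complex.add_re, Complex.add_im]; ring
  map_smul c x := by
    simp only [dt, Complex.real_smul, Complex.mul_re, Complex.mul_im, Complex.ofReal_re,
      Complex.ofReal_im, smul_eq_mul]
    ring

private theorem hrep_comm (a b : ℂ) : dt a b = dt b a := by
  simp only [dt]; ring

private theorem hrep_cont (a : ℂ) : Continuous (dt a) := by
  unfold dt
  exact (continuous_const.mul Complex.continuous_re).add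
    (continuous_const.mul Complex.continuous_im)

private theorem hrep_sub (a b c : ℂ) : dt a (b - c) = dt a b - dt a c := by
  simp only [dt, Complex.sub_re, Complex.sub_im]; ring

private theorem hrep_self (a : ℂ) : dt a a = ‖a‖ ^ 2 := by
  rw [← Complex.normSq_eq_norm_sq, Complex.normSq_apply]; rfl

theorem IsPoly.hrep {S : Set ℂ} (h : IsPoly S) :
    ∃ F : Finset (ℂ × ℝ), (∀ p ∈ F, p.1 ≠ 0) ∧ S = {z | ∀ p ∈ F, dt p.1 z ≤ p.2} := by
  classical
  obtain ⟨⟨V, hV, hS⟩, ⟨p, hp⟩⟩ := h
  have hSc : Convex ℝ S := by rw [hS]; exact convex_convexHull ℝ V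
  have hSk : IsCompact S := by rw [hS]; exact hV.isCompact_convexHull ℝ
  have hpS : p ∈ S := interior_subset hp
  obtain ⟨r, hr, hball⟩ := Metric.isOpen_iff.1 isOpen_interior p hp
  -- the dual polygon
  set Q : Set ℂ := {y | ∀ q ∈ hV.toFinset.image (fun v => ((v - p, 1) : ℂ × ℝ)), dt q.1 y ≤ q.2}
    with hQdef
  have hQ : ∀ y, y ∈ Q ↔ ∀ v ∈ V, dt (v - p) y ≤ 1 := by
    intro y
    simp only [hQdef, Set.mem_ofPred_eq, Finset.mem_image, Set.Finite.mem_toFinset,
      forall_exists_index, and_imp, forall_apply_eq_imp_iff₂]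
  have hQE : (Q.extremePoints ℝ).Finite := hpoly_ext_finite _
  have hQS : ∀ y ∈ Q, ∀ z ∈ S, dt y (z - p) ≤ 1 := by
    intro y hy z hz
    have hconv : Convex ℝ {z : ℂ | dt y z ≤ 1 + dt y p} := convex_halfSpace_le (hrep_lin y) _
    have hsub : S ⊆ {z : ℂ | dt y z ≤ 1 + dt y p} := by
      rw [hS]
      refine convexHull_min ?_ hconv
      intro v hv
      have := (hQ y).1 hy v hv
      rw [hrep_comm, hrep_sub] at this
      simp only [Set.mem_ofPred_eq]
      linarith
    have := hsub hz
    simp only [Set.mem_ofPred_eq] at this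
    rw [hrep_sub]
    linarith
  have hQconv : Convex ℝ Q := by
    intro a ha b hb s t hs ht hst
    rw [hQ] at ha hb ⊢
    intro v hv
    have h1 := ha v hv
    have h2 := hb v hv
    have e : dt (v - p) (s • a + t • b) = s * dt (v - p) a + t * dt (v - p) b := by
      rw [(hrep_lin (v - p)).map_add, (hrep_lin (v - p)).map_smul, (hrep_lin (v - p)).map_smul]
      rfl
    rw [e]
    calc s * dt (v - p) a + t * dt (v - p) b ≤ s * 1 + t * 1 := by gcongr
      _ = 1 := by linarith
  have hQclosed : IsClosed Q := by
    have : Q = ⋂ v ∈ V, {y | dt (v - p) y ≤ 1} := by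
      ext y; simp only [hQ, Set.mem_iInter, Set.mem_ofPred_eq]
    rw [this]
    exact isClosed_biInter fun v _ => isClosed_le (hrep_cont _) continuous_const
  have hQbdd : Bornology.IsBounded Q := by
    refine (Metric.isBounded_closedBall (x := (0 : ℂ)) (r := 2 / r)).subset ?_
    intro y hy
    rw [mem_closedBall_zero_iff]
    by_cases hy0 : y = 0
    · rw [hy0, norm_zero]; positivity
    have hny : 0 < ‖y‖ := norm_pos_iff.2 hy0
    have hz : p + (r / 2 / ‖y‖ : ℝ) • y ∈ S := by
      apply interior_subset
      apply hball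
      rw [Metric.mem_ball, dist_eq_norm, add_sub_cancel_left, norm_smul, Real.norm_of_nonneg
        (by positivity), div_mul_cancel₀ _ hny.ne']
      linarith
    have h1 := hQS y hy _ hz
    rw [add_sub_cancel_left, (hrep_lin y).map_smul, hrep_self, smul_eq_mul] at h1
    have h2 : r / 2 / ‖y‖ * ‖y‖ ^ 2 = r / 2 * ‖y‖ := by
      field_simp
    rw [h2] at h1
    rw [le_div_iff₀ hr]
    linarith
  have hQcomp : IsCompact Q := Metric.isCompact_of_isClosed_isBounded hQclosed hQbdd
  have hKM : convexHull ℝ (Q.extremePoints ℝ) = Q := by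
    have h1 := closure_convexHull_extremePoints hQcomp hQconv
    rwa [(hQE.isCompact_convexHull ℝ).isClosed.closure_eq] at h1
  refine ⟨(hQE.toFinset.filter (fun y => y ≠ 0)).image (fun y => ((y, 1 + dt y p) : ℂ × ℝ)),
    ?_, ?_⟩
  · intro q hq
    obtain ⟨y, hy, rfl⟩ := Finset.mem_image.1 hq
    exact (Finset.mem_filter.1 hy).2
  · apply Set.Subset.antisymm
    · intro z hz
      rw [Set.mem_ofPred_eq]
      intro q hq
      obtain ⟨y, hy, rfl⟩ := Finset.mem_image.1 hq
      have hyE : y ∈ Q.extremePoints ℝ := by
        have := (Finset.mem_filter.1 hy).1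
        rwa [Set.Finite.mem_toFinset] at this
      have := hQS y hyE.1 z hz
      rw [hrep_sub] at this
      show dt y z ≤ 1 + dt y p
      linarith
    · intro z hz
      rw [Set.mem_ofPred_eq] at hz
      by_contra hzS
      obtain ⟨f, u, hf1, hf2⟩ := geometric_hahn_banach_closed_point hSc hSk.isClosed hzS
      set y0 : ℂ := ⟨f 1, f Complex.I⟩ with hy0
      have hf : ∀ w, f w = dt y0 w := by
        intro w
        have hw : w = w.re • (1 : ℂ) + w.im • Complex.I := by
          apply Complex.ext <;> simp
        conv_lhs => rw [hw]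
        rw [map_add, map_smul, map_smul, smul_eq_mul, smul_eq_mul]
        simp only [dt, hy0]
        ring
      set c : ℝ := u - f p with hc
      have hcpos : 0 < c := by have := hf1 p hpS; rw [hc]; linarith
      set y : ℂ := (1 / c : ℝ) • y0 with hy
      have hdy : ∀ w, dt y w = f w / c := by
        intro w
        rw [hrep_comm, hy, (hrep_lin w).map_smul, hrep_comm, ← hf, smul_eq_mul]
        ring
      have hyQ : y ∈ Q := by
        rw [hQ]
        intro v hv
        have hvS : v ∈ S := by rw [hS]; exact subset_convexHull ℝ V hv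
        rw [hrep_comm, hdy, map_sub, div_le_one hcpos, hc]
        have := hf1 v hvS
        linarith
      have hyz : dt y (z - p) ≤ 1 := by
        have hconv : Convex ℝ {y : ℂ | dt (z - p) y ≤ 1} := convex_halfSpace_le (hrep_lin _) _
        have hsub : Q ⊆ {y : ℂ | dt (z - p) y ≤ 1} := by
          rw [← hKM]
          refine convexHull_min ?_ hconv
          intro y' hy'
          by_cases hy0' : y' = 0
          · rw [hy0']
            simp [dt]
          · have h1 := hz (y', 1 + dt y' p) (Finset.mem_image.2 ⟨y', Finset.mem_filter.2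
              ⟨by rw [Set.Finite.mem_toFinset]; exact hy', hy0'⟩, rfl⟩)
            have h2 : dt y' z ≤ 1 + dt y' p := h1
            rw [Set.mem_ofPred_eq, hrep_comm, hrep_sub]
            linarith
        have := hsub hyQ
        rwa [Set.mem_ofPred_eq, hrep_comm] at this
      rw [hdy, map_sub, div_le_one hcpos, hc] at hyz
      linarith

end Pool.Agent.NNb
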