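import Pool.Agent.NNb.R90
import Pool.Agent.NNb.UDefs

/-!
Module HUB3.  Right triangles (`θ 2 = π/2`): tiles at a node of valence `n - 1` or `n - 2`.

`r90_four`: `val (lab t 0) ≥ 4`, `val (lab t 1) ≥ 4`; all valences are `≥ 3`.  Write `k = val - 2`,
`∑_{N t} k = n` (`sum_val`).
`hub3'`: `val p = n - 1`: the other nodes of `t` have `∑ k = 3`.  If `p ∉ C t` or `p = lab t 2`, the nodes
`lab t 0`, `lab t 1` give `≥ 4`.  So `p = lab t k` with `k = 0` or `1`; with `l` the other one of `0, 1`: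
`lab t l` gives `≥ 2`, `lab t 2` gives `≥ 1`, hence equality and there is no further node.
`hub3`: `val p = n - 2`: `∑ k = 4` for the others.  `p ∉ C t`: `lab t 0`, `lab t 1`, `lab t 2` give `≥ 5`.
`p = lab t 2`: `lab t 0`, `lab t 1` give `≥ 4`, equality.  `p = lab t k`, `k ∈ {0, 1}`, `l` the other one:
`lab t l` and `lab t 2` give `2 + 1`, `2 + 2`, `3 + 1`, or `2 + 1` and one further 3-valent node `x ∉ C t`.
-/

namespace Pool.Agent.NNb

namespace Sys3

variable {ι : Type} {n : ℕ} (S : Sys3 ι n)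

theorem HUB3_sum (t : ι) : ∃ R : Finset ℂ, (∀ x, x ∈ R ↔ x ∈ S.N t ∧ x ∉ S.C t) ∧
    (S.val (S.lab t 0) - 2) + (S.val (S.lab t 1) - 2) + (S.val (S.lab t 2) - 2) +
      ∑ x ∈ R, (S.val x - 2) = n ∧ (S.N t).card = 3 + R.card ∧
      R.card ≤ ∑ x ∈ R, (S.val x - 2) ∧ (R.card = 0 → ∑ x ∈ R, (S.val x - 2) = 0) := by
  classical
  obtain ⟨h01, h02, h12⟩ := S.CNT_ne t
  have hs := S.sum_val t
  set R : Finset ℂ := (S.N t).filter (fun x => x ∉ S.C t) with hR
  have hRm : ∀ x, x ∈ R ↔ x ∈ S.N t ∧ x ∉ S.C t := fun x => by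
    rw [hR, Finset.mem_filter]
  have hfil : (S.N t).filter (fun x => x ∈ S.C t) = {S.lab t 0, S.lab t 1, S.lab t 2} := by
    ext x
    rw [Finset.mem_filter, S.C_eq]
    simp only [Finset.mem_insert, Finset.mem_singleton]
    constructor
    · exact fun h => h.2
    · intro h
      refine ⟨?_, h⟩
      rcases h with rfl | rfl | rfl
      · exact S.lab_mem t 0
      · exact S.lab_mem t 1
      · exact S.lab_mem t 2
  have hsum3 : ∑ x ∈ ({S.lab t 0, S.lab t 1, S.lab t 2} : Finset ℂ), (S.val x - 2) =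
      (S.val (S.lab t 0) - 2) + (S.val (S.lab t 1) - 2) + (S.val (S.lab t 2) - 2) := by
    rw [Finset.sum_insert, Finset.sum_pair h12]
    · ring
    · simp only [Finset.mem_insert, Finset.mem_singleton, not_or]
      exact ⟨h01, h02⟩
  have hcard3 : ({S.lab t 0, S.lab t 1, S.lab t 2} : Finset ℂ).card = 3 := by
    rw [Finset.card_eq_three]
    exact ⟨_, _, _, h01, h02, h12, rfl⟩
  have hsplit := Finset.sum_filter_add_sum_filter_not (S.N t) (fun x => x ∈ S.C t)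
    (fun x => S.val x - 2)
  have hcsplit := Finset.card_filter_add_card_filter_not (s := S.N t) (fun x => x ∈ S.C t)
  rw [hfil] at hsplit hcsplit
  rw [hsum3] at hsplit
  rw [hcard3] at hcsplit
  refine ⟨R, hRm, ?_, hcsplit.symm, ?_, ?_⟩
  · exact hsplit.trans hs
  · have h1 : R.card • 1 ≤ ∑ x ∈ R, (S.val x - 2) := by
      refine Finset.card_nsmul_le_sum _ _ _ ?_
      intro x hx
      have h3 := S.val_ge ((hRm x).1 hx).1
      omega
    rwa [smul_eq_mul, mul_one] at h1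
  · intro h0
    rw [Finset.card_eq_zero] at h0
    rw [h0, Finset.sum_empty]

theorem HUB3_one {t : ι} {R : Finset ℂ} (hRm : ∀ x, x ∈ R ↔ x ∈ S.N t ∧ x ∉ S.C t)
    (hc1 : R.card = 1) (hs1 : ∑ x ∈ R, (S.val x - 2) = 1) :
    ∃ x, x ∈ S.N t ∧ x ∉ S.C t ∧ S.val x = 3 ∧ ∀ y ∈ S.N t, y ∈ S.C t ∨ y = x := by
  obtain ⟨x, hx⟩ := Finset.card_eq_one.mp hc1
  have hxR : x ∈ R := by
    rw [hx]
    exact Finset.mem_singleton_self x
  obtain ⟨hxN, hxC⟩ := (hRm x).1 hxR
  rw [hx, Finset.sum_singleton] at hs1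
  refine ⟨x, hxN, hxC, by omega, ?_⟩
  intro y hy
  by_cases hyC : y ∈ S.C t
  · exact Or.inl hyC
  · right
    have hyR : y ∈ R := (hRm y).2 ⟨hy, hyC⟩
    rw [hx, Finset.mem_singleton] at hyR
    exact hyR

theorem hub3' (hn : 15 ≤ n) (h2 : S.θ 2 = Real.pi / 2) {t : ι} {p : ℂ} (hp : p ∈ S.N t)
    (hv : S.val p + 1 = n) :
    (S.N t).card = 3 ∧ S.val (S.lab t 2) = 3 ∧
      ((p = S.lab t 0 ∧ S.val (S.lab t 1) = 4) ∨ (p = S.lab t 1 ∧ S.val (S.lab t 0) = 4)) := by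
  obtain ⟨R, hRm, hs, hc, hle, h0⟩ := S.HUB3_sum t
  obtain ⟨h40, h41⟩ := S.r90_four h2 t
  have h32 := S.val_ge (S.lab_mem t 2)
  by_cases hpC : p ∈ S.C t
  · rcases (S.C_eq t p).1 hpC with h | h | h
    · subst h
      refine ⟨?_, ?_, Or.inl ⟨rfl, ?_⟩⟩ <;> omega
    · subst h
      refine ⟨?_, ?_, Or.inr ⟨rfl, ?_⟩⟩ <;> omega
    · subst h
      exfalso
      omega
  · exfalso
    have hpR : p ∈ R := (hRm p).2 ⟨hp, hpC⟩
    have h5 : S.val p - 2 ≤ ∑ x ∈ R, (S.val x - 2) :=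
      Finset.single_le_sum (f := fun x => S.val x - 2) (fun _ _ => Nat.zero_le _) hpR
    omega

/-- the three possible tiles at a node of valence `n - 2` which has label `k` there, `l` is the other
one of the labels `0, 1` -/
theorem hub3 (hn : 15 ≤ n) (h2 : S.θ 2 = Real.pi / 2) {t : ι} {p : ℂ} (hp : p ∈ S.N t)
    (hv : S.val p + 2 = n) :
    (p = S.lab t 2 ∧ (S.N t).card = 3 ∧ S.val (S.lab t 0) = 4 ∧ S.val (S.lab t 1) = 4) ∨
    (∃ k l : Fin 3, ((k = 0 ∧ l = 1) ∨ (k = 1 ∧ l = 0)) ∧ p = S.lab t k ∧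
      (((S.N t).card = 3 ∧ S.val (S.lab t l) = 4 ∧ S.val (S.lab t 2) = 4) ∨
       ((S.N t).card = 3 ∧ S.val (S.lab t l) = 5 ∧ S.val (S.lab t 2) = 3) ∨
       ((S.N t).card = 4 ∧ S.val (S.lab t l) = 4 ∧ S.val (S.lab t 2) = 3 ∧
        ∃ x, x ∈ S.N t ∧ x ∉ S.C t ∧ S.val x = 3 ∧ ∀ y ∈ S.N t, y ∈ S.C t ∨ y = x))) := by
  obtain ⟨R, hRm, hs, hc, hle, h0⟩ := S.HUB3_sum t
  obtain ⟨h40, h41⟩ := S.r90_four h2 t
  have h32 := S.val_ge (S.lab_mem t 2)
  by_cases hpC : p ∈ S.C t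
  · rcases (S.C_eq t p).1 hpC with h | h | h
    · subst h
      right
      refine ⟨0, 1, Or.inl ⟨rfl, rfl⟩, rfl, ?_⟩
      by_cases hA : S.val (S.lab t 1) = 5
      · right; left
        refine ⟨?_, hA, ?_⟩ <;> omega
      · have hB : S.val (S.lab t 1) = 4 := by omega
        by_cases hC : S.val (S.lab t 2) = 4
        · left
          refine ⟨?_, hB, hC⟩
          omega
        · right; right
          have hD : S.val (S.lab t 2) = 3 := by omega
          have hc1 : R.card = 1 := by omega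
          have hs1 : ∑ x ∈ R, (S.val x - 2) = 1 := by omega
          exact ⟨by omega, hB, hD, S.HUB3_one hRm hc1 hs1⟩
    · subst h
      right
      refine ⟨1, 0, Or.inr ⟨rfl, rfl⟩, rfl, ?_⟩
      by_cases hA : S.val (S.lab t 0) = 5
      · right; left
        refine ⟨?_, hA, ?_⟩ <;> omega
      · have hB : S.val (S.lab t 0) = 4 := by omega
        by_cases hC : S.val (S.lab t 2) = 4
        · left
          refine ⟨?_, hB, hC⟩
          omega
        · right; right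
          have hD : S.val (S.lab t 2) = 3 := by omega
          have hc1 : R.card = 1 := by omega
          have hs1 : ∑ x ∈ R, (S.val x - 2) = 1 := by omega
          exact ⟨by omega, hB, hD, S.HUB3_one hRm hc1 hs1⟩
    · subst h
      left
      refine ⟨rfl, ?_, ?_, ?_⟩ <;> omega
  · exfalso
    have hpR : p ∈ R := (hRm p).2 ⟨hp, hpC⟩
    have h5 : S.val p - 2 ≤ ∑ x ∈ R, (S.val x - 2) :=
      Finset.single_le_sum (f := fun x => S.val x - 2) (fun _ _ => Nat.zero_le _) hpR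
    omega

end Sys3

end Pool.Agent.NNb
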