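import Pool.Agent.NNb.SumVal
import Pool.Agent.NNb.UDefs

/-!
Module HUBA.  Tiles at a node of valence `n - 2` under `H2` (at most one 3-valent node per tile).

`∑ (val - 2) = n` leaves `4` for the at least two other nodes of the tile (`|N t| ≥ 3`), at most one of
them contributes `1`, the others `≥ 2`: two other nodes (three would give `≥ 5`), `{2, 2}` or `{1, 3}`.
-/

namespace Pool.Agent.NNb

namespace Sys

variable {ι ν : Type} {n : ℕ}

theorem HUBA_two (S : Sys ι ν 3 n) (hn : 15 ≤ n) (h2 : S.H2) {t : ι} {p : ν} (hp : p ∈ S.N t)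
    (hv : S.val p + 2 = n) : (S.N t).card = 3 ∧ ∃ x y, x ∈ S.N t ∧ y ∈ S.N t ∧ x ≠ p ∧ y ≠ p ∧
      x ≠ y ∧ S.val x + S.val y = 8 ∧ (∀ z, z ∈ S.N t ↔ z = p ∨ z = x ∨ z = y) := by
  classical
  have hs := S.sum_val t
  rw [← Finset.add_sum_erase _ _ hp] at hs
  have hc : 3 ≤ (S.N t).card := S.card_ge t
  have hc' : ((S.N t).erase p).card = (S.N t).card - 1 := Finset.card_erase_of_mem hp
  have hs4 : ∑ x ∈ (S.N t).erase p, (S.val x - 2) = 4 := by omega
  have hge : ∀ x ∈ (S.N t).erase p, 3 ≤ S.val x := fun x hx =>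
    S.val_ge (Finset.mem_of_mem_erase hx)
  have hB : (((S.N t).erase p).filter (fun x => S.val x = 3)).card ≤ 1 := by
    rw [Finset.card_le_one]
    intro a ha b hb
    rw [Finset.mem_filter] at ha hb
    exact h2 t a b (Finset.mem_of_mem_erase ha.1) (Finset.mem_of_mem_erase hb.1) ha.2 hb.2
  have hlow : ∑ x ∈ (S.N t).erase p, (2 : ℕ) ≤
      ∑ x ∈ (S.N t).erase p, ((S.val x - 2) + (if S.val x = 3 then 1 else 0)) := by
    refine Finset.sum_le_sum fun x hx => ?_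
    have h3 := hge x hx
    split_ifs with h
    · omega
    · omega
  rw [Finset.sum_add_distrib, hs4, Finset.sum_const, smul_eq_mul,
    ← Finset.card_filter] at hlow
  have hcard : ((S.N t).erase p).card = 2 := by omega
  obtain ⟨x, y, hxy, hA⟩ := Finset.card_eq_two.mp hcard
  have hx : x ∈ (S.N t).erase p := by rw [hA]; simp
  have hy : y ∈ (S.N t).erase p := by rw [hA]; simp
  rw [hA, Finset.sum_pair hxy] at hs4
  have hx3 := hge x hx
  have hy3 := hge y hy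
  refine ⟨by omega, x, y, Finset.mem_of_mem_erase hx, Finset.mem_of_mem_erase hy,
    Finset.ne_of_mem_erase hx, Finset.ne_of_mem_erase hy, hxy, by omega, ?_⟩
  intro z
  have hz : z ∈ (S.N t).erase p ↔ z = x ∨ z = y := by
    rw [hA]
    simp
  rw [Finset.mem_erase] at hz
  constructor
  · intro h
    by_cases hzp : z = p
    · exact Or.inl hzp
    · exact Or.inr (hz.mp ⟨hzp, h⟩)
  · rintro (rfl | h)
    · exact hp
    · exact (hz.mpr h).2

theorem hubA (S : Sys ι ν 3 n) (hn : 15 ≤ n) (h2 : S.H2) {t : ι} {p : ν} (hp : p ∈ S.N t)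
    (hv : S.val p + 2 = n) : S.IsA t ∨ S.IsE t := by
  obtain ⟨hc, x, y, hx, hy, hxp, hyp, hxy, hsum, hN⟩ := S.HUBA_two hn h2 hp hv
  have hx3 := S.val_ge hx
  have hy3 := S.val_ge hy
  by_cases h4 : S.val x = 4
  · left
    refine ⟨hc, p, hp, hv, ?_⟩
    intro z hz hzp
    rcases (hN z).mp hz with h | h | h
    · exact absurd h hzp
    · rw [h]; exact h4
    · rw [h]; omega
  · right
    by_cases h3 : S.val x = 3
    · exact ⟨hc, x, y, p, hx, hy, hp, h3, by omega, hv⟩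
    · exact ⟨hc, y, x, p, hy, hx, hp, by omega, by omega, hv⟩

/-- if there is a 3-valent node `g` besides -/
theorem hubA3 (S : Sys ι ν 3 n) (hn : 15 ≤ n) (h2 : S.H2) {t : ι} {p g : ν} (hp : p ∈ S.N t)
    (hg : g ∈ S.N t) (hv : S.val p + 2 = n) (h3 : S.val g = 3) :
    (S.N t).card = 3 ∧ ∃ w, w ∈ S.N t ∧ w ≠ p ∧ w ≠ g ∧ S.val w = 5 ∧
      (∀ x, x ∈ S.N t ↔ x = p ∨ x = g ∨ x = w) := by
  obtain ⟨hc, x, y, hx, hy, hxp, hyp, hxy, hsum, hN⟩ := S.HUBA_two hn h2 hp hv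
  refine ⟨hc, ?_⟩
  have hgp : g ≠ p := by
    rintro rfl
    omega
  rcases (hN g).mp hg with h | h | h
  · exact absurd h hgp
  · subst h
    exact ⟨y, hy, hyp, hxy.symm, by omega, hN⟩
  · subst h
    refine ⟨x, hx, hxp, hxy, by omega, ?_⟩
    intro z
    rw [hN z]
    tauto

/-- if there is a 4-valent node `y` besides -/
theorem hubA4 (S : Sys ι ν 3 n) (hn : 15 ≤ n) (h2 : S.H2) {t : ι} {p y : ν} (hp : p ∈ S.N t)
    (hy : y ∈ S.N t) (hv : S.val p + 2 = n) (h4 : S.val y = 4) :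
    (S.N t).card = 3 ∧ ∃ w, w ∈ S.N t ∧ w ≠ p ∧ w ≠ y ∧ S.val w = 4 ∧
      (∀ x, x ∈ S.N t ↔ x = p ∨ x = y ∨ x = w) := by
  obtain ⟨hc, a, b, ha, hb, hap, hbp, hab, hsum, hN⟩ := S.HUBA_two hn h2 hp hv
  refine ⟨hc, ?_⟩
  have hyp : y ≠ p := by
    rintro rfl
    omega
  rcases (hN y).mp hy with h | h | h
  · exact absurd h hyp
  · subst h
    exact ⟨b, hb, hbp, hab.symm, by omega, hN⟩
  · subst h
    refine ⟨a, ha, hap, hab, by omega, ?_⟩
    intro z
    rw [hN z]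
    tauto

end Sys

end Pool.Agent.NNb
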