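import Pool.Agent.NNb.Type45
import Pool.Agent.NNb.SumVal

/-!
Module K4.  Right triangles with `θ 0 = π/8`, `n ≥ 22`.

Use `cost` with `lam = 1/100`.  Claim: `∑_{x ∈ N i} cost x ≥ 1 + 7/1000` for every tile.
Linear bounds (check the 23 types): with `lin t = cq (1/100) t - (19/1000) (tval t - 2)`:
`lin t ≥ 1476/10000` for all types, `lin t ≥ 181/1000` if `a ≥ 1`, `lin t ≥ 209/1000` if `b ≥ 1`.
* `|N i| = s ≥ 4`: `∑ cost ≥ (19/1000) n + 181/1000 (at lab i 0) + 209/1000 (at lab i 1) + 2 · 1476/10000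
  ≥ 418/1000 + 181/1000 + 209/1000 + 295/1000 > 1.1`.
* `|N i| = 3`: the nodes are `lab i 0`, `lab i 1`, `lab i 2` with types `A, B, C ∈ types4`, `A.1 ≥ 1`,
  `B.2.1 ≥ 1`, `C.2.2.1 ≥ 1` (`cnt_pos`) and `tval A + tval B + tval C = n + 6 ≥ 28`.  For all such triples
  `cq A + cq B + cq C ≥ 1 + 7/1000`: finite check (23³ triples; the minimum over all triples is
  `1.0075`, at `(16,0,0,0), (6,2,1,0), (0,0,2,1)`), by `decide` after scaling to natural numbers, or
  with the kernel: e.g. replace `cq` by integers `⌊10^6 cq⌋` (lower bounds checked by `norm_num`/`decide`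
  for the 23 types) and evaluate the triple check with `decide +kernel`/`by decide`.
Then `no_neg_cost'`.
-/

namespace Pool.Agent.NNb

/-- the finite check -/
theorem check4 : ∀ A ∈ types4, ∀ B ∈ types4, ∀ C ∈ types4, 1 ≤ A.1 → 1 ≤ B.2.1 → 1 ≤ C.2.2.1 →
    28 ≤ tval A + tval B + tval C →
    1 + 7 / 1000 ≤ cq (1 / 100) A + cq (1 / 100) B + cq (1 / 100) C := by
  decide +kernel

private theorem K4_lin : ∀ t ∈ types4,
    (1476 / 10000 ≤ cq (1 / 100) t - 19 / 1000 * ((tval t : ℚ) - 2)) ∧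
    (1 ≤ t.1 → 181 / 1000 ≤ cq (1 / 100) t - 19 / 1000 * ((tval t : ℚ) - 2)) ∧
    (1 ≤ t.2.1 → 209 / 1000 ≤ cq (1 / 100) t - 19 / 1000 * ((tval t : ℚ) - 2)) := by
  decide +kernel

namespace Sys3

variable {ι : Type} {n : ℕ} (S : Sys3 ι n)

private theorem K4_cost {i : ι} {x : ℂ} (hx : x ∈ S.N i) :
    S.cost (1 / 100) x = ((cq (1 / 100) (S.ty x) : ℚ) : ℝ) := by
  have h := S.cost_ty (1 / 100) hx
  rw [← h]
  norm_num

private theorem K4_tile (hn : 22 ≤ n) (h2 : S.θ 2 = Real.pi / 2) (h0 : S.θ 0 = Real.pi / 8)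
    (i : ι) : 1 - ∑ x ∈ S.N i, S.cost (1 / 100) x ≤ -(7 / 1000) := by
  classical
  have hT : ∀ k, S.ty (S.lab i k) ∈ types4 := fun k => S.ty4 h2 h0 (S.lab_mem i k)
  have p0 : 1 ≤ (S.ty (S.lab i 0)).1 := S.cnt_pos i 0
  have p1 : 1 ≤ (S.ty (S.lab i 1)).2.1 := S.cnt_pos i 1
  have p2 : 1 ≤ (S.ty (S.lab i 2)).2.2.1 := S.cnt_pos i 2
  have n01 : S.lab i 0 ≠ S.lab i 1 := fun h => absurd (S.lab_inj i h) (by decide)
  have n02 : S.lab i 0 ≠ S.lab i 2 := fun h => absurd (S.lab_inj i h) (by decide)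
  have n12 : S.lab i 1 ≠ S.lab i 2 := fun h => absurd (S.lab_inj i h) (by decide)
  have hcard : 3 ≤ (S.N i).card := S.card_ge i
  rcases Nat.lt_or_ge (S.N i).card 4 with h4 | h4
  · have h3 : (S.N i).card = 3 := by omega
    have hN : S.N i = {S.lab i 0, S.lab i 1, S.lab i 2} := by
      ext x
      rw [S.card3_mem h3 x]
      simp
    have hsum := S.sum_val i
    rw [hN, Finset.sum_insert (by simp [n01, n02]), Finset.sum_insert (by simp [n12]),
      Finset.sum_singleton] at hsum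
    have v0 := S.val_ge (S.lab_mem i 0)
    have v1 := S.val_ge (S.lab_mem i 1)
    have v2 := S.val_ge (S.lab_mem i 2)
    have hv : 28 ≤ tval (S.ty (S.lab i 0)) + tval (S.ty (S.lab i 1)) + tval (S.ty (S.lab i 2)) := by
      rw [S.tval_ty, S.tval_ty, S.tval_ty]
      omega
    have hc := check4 _ (hT 0) _ (hT 1) _ (hT 2) p0 p1 p2 hv
    have hc' : ((1 + 7 / 1000 : ℚ) : ℝ) ≤ ((cq (1 / 100) (S.ty (S.lab i 0)) +
      cq (1 / 100) (S.ty (S.lab i 1)) + cq (1 / 100) (S.ty (S.lab i 2)) : ℚ) : ℝ) := by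
      exact_mod_cast hc
    rw [Rat.cast_add (cq _ _ + _), Rat.cast_add (cq _ _), ← K4_cost S (S.lab_mem i 0),
      ← K4_cost S (S.lab_mem i 1), ← K4_cost S (S.lab_mem i 2)] at hc'
    rw [hN, Finset.sum_insert (by simp [n01, n02]), Finset.sum_insert (by simp [n12]),
      Finset.sum_singleton]
    norm_num at hc'
    linarith
  · have hlow : ∀ x ∈ S.N i, 19 / 1000 * ((S.val x : ℝ) - 2) + 1476 / 10000 +
        ((if x = S.lab i 0 then (181 / 1000 - 1476 / 10000 : ℝ) else 0) +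
        (if x = S.lab i 1 then (209 / 1000 - 1476 / 10000 : ℝ) else 0)) ≤
        S.cost (1 / 100) x := by
      intro x hx
      rw [K4_cost S hx]
      obtain ⟨l1, l2, l3⟩ := K4_lin _ (S.ty4 h2 h0 hx)
      rw [S.tval_ty] at l1 l2 l3
      have l1' : ((1476 / 10000 : ℚ) : ℝ) ≤ ((cq (1 / 100) (S.ty x) -
        19 / 1000 * ((S.val x : ℚ) - 2) : ℚ) : ℝ) := by exact_mod_cast l1
      push_cast at l1'
      by_cases e0 : x = S.lab i 0
      · subst e0
        have l2' : ((181 / 1000 : ℚ) : ℝ) ≤ ((cq (1 / 100) (S.ty (S.lab i 0)) -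
          19 / 1000 * ((S.val (S.lab i 0) : ℚ) - 2) : ℚ) : ℝ) := by exact_mod_cast l2 p0
        push_cast at l2'
        rw [if_pos rfl, if_neg n01]
        linarith
      · by_cases e1 : x = S.lab i 1
        · subst e1
          have l3' : ((209 / 1000 : ℚ) : ℝ) ≤ ((cq (1 / 100) (S.ty (S.lab i 1)) -
            19 / 1000 * ((S.val (S.lab i 1) : ℚ) - 2) : ℚ) : ℝ) := by exact_mod_cast l3 p1
          push_cast at l3'
          rw [if_neg (Ne.symm n01), if_pos rfl]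
          linarith
        · rw [if_neg e0, if_neg e1]
          linarith
    have hs := Finset.sum_le_sum hlow
    rw [Finset.sum_add_distrib, Finset.sum_add_distrib, Finset.sum_add_distrib, ← Finset.mul_sum,
      S.sum_val_real i, Finset.sum_const, Finset.sum_ite_eq', Finset.sum_ite_eq',
      if_pos (S.lab_mem i 0), if_pos (S.lab_mem i 1), nsmul_eq_mul] at hs
    have hn' : (22 : ℝ) ≤ n := by exact_mod_cast hn
    have h4' : (4 : ℝ) ≤ ((S.N i).card : ℝ) := by exact_mod_cast h4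
    linarith

theorem r90_k4 (hn : 22 ≤ n) (h2 : S.θ 2 = Real.pi / 2) (h0 : S.θ 0 = Real.pi / 8) : False :=
  S.no_neg_cost' (1 / 100) (c := 7 / 1000) (by norm_num) (K4_tile S hn h2 h0)

end Sys3

end Pool.Agent.NNb
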