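import Pool.Agent.NNb.K5Lin
import Pool.Agent.NNb.TransB

/-!
Module K5BIG.  Right triangles with `θ 0 = π/10`, `n ≥ 23`.

`n ≥ 24`: `k5_four`, `k5_three`, `no_neg_cost'`.
`n = 23`: tiles with `IsE 4` have value `0`, all others `≤ -6/1000`.  Let `u` be a node of type
`(0,5,0,0)` (5 tiles, all with `lab · 1 = u`).  Not all five are of type `IsE 4`: otherwise each of them
has exactly three nodes, exactly one of them 4-valent (valences 20, 5, 4): `parity5` with
`Q x = (val x = 4)`.  Choose `R u ∈ tl u` with `¬ IsE 4 (R u)`, `σ u i j = 1/1000` if `ty u = (0,5,0,0)`,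
`IsE 4 i`, `j = R u`.  A tile with `IsE 4` sends `1/1000` (at `lab i 1`) and receives nothing; any other
tile `j` receives at most `4/1000`: only at the node `u = lab j 1` (all five tiles at a node of type
`(0,5,0,0)` have `lab · 1 = u`, `lab_of_cnt`).  Total `≤ -1/1000`.
-/

namespace Pool.Agent.NNb

namespace Sys3

variable {ι : Type} {n : ℕ} (S : Sys3 ι n)

theorem r90_k5_24 (hn : 24 ≤ n) (h2 : S.θ 2 = Real.pi / 2) (h0 : S.θ 0 = Real.pi / 10) :
    False := by
  refine S.no_neg_cost' (9 / 100) (c := 6 / 1000) (by norm_num) fun i => ?_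
  have h3 : 3 ≤ (S.N i).card := S.card_ge i
  rcases Nat.lt_or_ge (S.N i).card 4 with h | h
  · rcases S.k5_three (by omega) h2 h0 i (by omega) with ⟨h, -⟩ | ⟨h, -⟩ | h
    · omega
    · omega
    · exact h
  · exact S.k5_four (by omega) h2 h0 i h

/-- all tiles at a node of type `(0,5,0,0)` have it as the corner with label 1 -/
theorem K5Big_lab {i : ι} {x : ℂ} (hx : x ∈ S.N i) (h : S.ty x = (0, 5, 0, 0)) :
    S.lab i 1 = x := by
  refine S.lab_of_cnt hx ?_
  rw [S.val_cnt]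
  simp only [ty, Prod.mk.injEq] at h
  omega

theorem K5Big_val {x : ℂ} (h : S.ty x = (0, 5, 0, 0)) : S.val x = 5 := by
  rw [← S.tval_ty, h]; rfl

theorem K5Big_R {x : ℂ} (h : S.ty x = (0, 5, 0, 0)) : ∃ j ∈ S.tl x, ¬ S.IsE 4 j := by
  by_contra hc
  push Not at hc
  refine S.toSys.parity5 (S.K5Big_val h) (fun y => S.val y = 4) fun i hi => ?_
  have hE := hc i hi
  have hx : x ∈ S.N i := (S.mem_tl i x).mp hi
  have h1 : S.lab i 1 = x := S.K5Big_lab hx h
  have h5 : S.val x = 5 := S.K5Big_val h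
  obtain ⟨ha, hb, hc', hd⟩ := hE
  have h20 : S.val (S.lab i 0) = 20 := by rw [← S.tval_ty, hb]; rfl
  refine ⟨ha, S.lab i 2, S.lab_mem i 2, ?_, hd, ?_⟩
  · intro he
    rw [he, h5] at hd
    omega
  · intro e' he' hne hv
    rcases (S.card3_mem ha e').mp he' with h6 | h6 | h6
    · rw [h6, h20] at hv; omega
    · exact absurd (h6.trans h1) hne
    · exact h6

open Classical in
/-- the chosen tile at a node of type `(0,5,0,0)` -/
noncomputable def K5Big_Rf (j0 : ι) (x : ℂ) : ι :=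
  if h : S.ty x = (0, 5, 0, 0) then (S.K5Big_R h).choose else j0

theorem r90_k5_23 (hn : n = 23) (h2 : S.θ 2 = Real.pi / 2) (h0 : S.θ 0 = Real.pi / 10) :
    False := by
  classical
  rcases isEmpty_or_nonempty ι with he | ⟨⟨j0⟩⟩
  · exact S.no_neg_cost' (9 / 100) (c := 1) one_pos fun i => (he.false i).elim
  set σ : ℂ → ι → ι → ℝ := fun x i j =>
    if S.ty x = (0, 5, 0, 0) ∧ S.IsE 4 i ∧ j = S.K5Big_Rf j0 x then 1 / 1000 else 0 with hσ
  have hσ0 : ∀ x i j, 0 ≤ σ x i j := by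
    intro x i j; simp only [hσ]; split_ifs <;> norm_num
  have hσ1 : ∀ x i j, σ x i j ≤ 1 / 1000 := by
    intro x i j; simp only [hσ]; split_ifs <;> norm_num
  have hR : ∀ x, S.ty x = (0, 5, 0, 0) → S.K5Big_Rf j0 x ∈ S.tl x ∧ ¬ S.IsE 4 (S.K5Big_Rf j0 x) := by
    intro x hx
    have := (S.K5Big_R hx).choose_spec
    simp only [K5Big_Rf, dif_pos hx]
    exact this
  have hZ := S.toSys.ZS_of_pairs σ
  have hB := S.toSys.Bdd_of_pairs σ (1 / 1000) (fun x i j => by
    rw [abs_of_nonneg (hσ0 x i j)]; exact hσ1 x i j)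
  refine S.no_neg_cost (9 / 100) hZ hB (c := 1 / 1000) (by norm_num) fun j => ?_
  -- only the node `lab j 1` matters
  have hnode : ∀ x ∈ S.N j, x ≠ S.lab j 1 → ∑ i ∈ S.tl x, (σ x i j - σ x j i) = 0 := by
    intro x hx hne
    refine Finset.sum_eq_zero fun i _ => ?_
    have hty : S.ty x ≠ (0, 5, 0, 0) := fun h => hne (S.K5Big_lab hx h).symm
    simp [hσ, hty]
  have hsum : ∑ x ∈ S.N j, ∑ i ∈ S.tl x, (σ x i j - σ x j i) =
      ∑ i ∈ S.tl (S.lab j 1), (σ (S.lab j 1) i j - σ (S.lab j 1) j i) := by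
    rw [← Finset.sum_subset (Finset.singleton_subset_iff.mpr (S.lab_mem j 1)),
      Finset.sum_singleton]
    intro x hx hne
    exact hnode x hx (by simpa using hne)
  rw [hsum]
  set u := S.lab j 1 with hu
  by_cases hE : S.IsE 4 j
  · -- an exceptional tile
    have hty : S.ty u = (0, 5, 0, 0) := hE.2.2.1
    obtain ⟨hR1, hR2⟩ := hR u hty
    have hj : j ∈ S.tl u := (S.mem_tl j u).mpr (S.lab_mem j 1)
    have h1 : ∑ i ∈ S.tl u, (σ u i j - σ u j i) = -(1 / 1000) := by
      rw [Finset.sum_eq_single (S.K5Big_Rf j0 u)]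
      · have h3 : j ≠ S.K5Big_Rf j0 u := fun h => hR2 (h ▸ hE)
        simp [hσ, hty, hE, hR2]
      · intro i _ hi
        have h3 : j ≠ S.K5Big_Rf j0 u := fun h => hR2 (h ▸ hE)
        simp [hσ, hi, h3]
      · intro h; exact absurd hR1 h
    rw [h1]
    have hc : (S.N j).card = 3 := hE.1
    have h0' : 1 - ∑ x ∈ S.N j, S.cost (9 / 100) x ≤ 0 := by
      rcases S.k5_three (by omega) h2 h0 j hc with ⟨h, -⟩ | ⟨-, -, h⟩ | h
      · omega
      · exact h.le
      · linarith
    linarith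
  · have hval : 1 - ∑ x ∈ S.N j, S.cost (9 / 100) x ≤ -(6 / 1000) := by
      have h3 : 3 ≤ (S.N j).card := S.card_ge j
      rcases Nat.lt_or_ge (S.N j).card 4 with h | h
      · rcases S.k5_three (by omega) h2 h0 j (by omega) with ⟨h, -⟩ | ⟨-, h, -⟩ | h
        · omega
        · exact absurd h hE
        · exact h
      · exact S.k5_four (by omega) h2 h0 j h
    have hsend : ∀ i, σ u j i = 0 := by intro i; simp [hσ, hE]
    have h1 : ∑ i ∈ S.tl u, (σ u i j - σ u j i) ≤ 5 / 1000 := by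
      by_cases hty : S.ty u = (0, 5, 0, 0)
      · have h5 : (S.tl u).card = 5 := S.K5Big_val hty
        calc ∑ i ∈ S.tl u, (σ u i j - σ u j i) ≤ ∑ i ∈ S.tl u, (1 / 1000 : ℝ) :=
              Finset.sum_le_sum fun i _ => by rw [hsend, sub_zero]; exact hσ1 _ _ _
          _ = 5 / 1000 := by rw [Finset.sum_const, h5]; norm_num
      · have : ∑ i ∈ S.tl u, (σ u i j - σ u j i) = 0 :=
          Finset.sum_eq_zero fun i _ => by simp [hσ, hty]
        rw [this]; norm_num
    linarith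

end Sys3

end Pool.Agent.NNb
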