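import Pool.Agent.NNb.K5Lin
import Pool.Agent.NNb.TriS
import Pool.Agent.NNb.Link

/-!
Module K5GEO.  Right triangles with `θ 0 = π/10`, `n = 22`: the tile across the short side of an
exceptional tile.

Angles `θ = (π/10, 2π/5, π/2)`; lengths `lab 1 lab 2 : a = ρ sin (π/10)`, `lab 0 lab 2 : b = ρ sin (2π/5)`,
`lab 0 lab 1 : c = ρ`.  `a < b < c`, `2 a < c` (`sin (π/10) < sin (π/6) = 1/2`), `c < 2 b`
(`sin (2π/5) > sin (π/6)`).
Let `IsE 3 i`: `N i = {p, u, x}` with `p = lab i 0` (type `(20,0,0,0)`: all tiles at `p` have `lab · 0 = p`),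
`u = lab i 1` (type `(0,5,0,0)`: all tiles at `u` have `lab · 1 = u`), `x = lab i 2` of valence 3: by
`three_valent` `cnt 2 x = 2`, `fl x = 1`: `tl x = {i, i', F}` with `lab i' 2 = x`, `x ∉ C F`.  The partners of
`x` on `i` are `p` and `u`; one is shared with `F`, the other with `i'` (`link3`).
Let `j ≠ i` be the tile with `x, u ∈ N j`.
Case A, `x ∉ C j`, i.e. `j = F`, and `p ∈ N i'`.  `lab F 1 = u`, `lab i' 0 = p`.  `x` is inside a side of `F`
(`on_side`), `u` is on the same side (`flat_side`), so it is a side at the corner `lab F 1`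
(`corner_not_side`); not the side to `lab F 2`, which has length `a = dist u x` (a point strictly inside has
smaller distance from `u`).  So `x` is inside the side from `lab F 1 = u` to `lab F 0`.  The second
partner `y` of `x` on `i'` (not `p`) lies in `segment x (lab i' 1)` (`part_dir`; `side_inter`), and it is
shared with `F`: the third common node of `link3` at `x` (not with `i` by `three`).  It is a partner of
`x` on `F`, `≠ u` (`edge` or `three`), so `y ∈ segment x (lab F 0)` (`part_flat_two`).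
`dist x (lab i' 1) = a < c - a = dist x (lab F 0)`, so by `ray_cmp` (with `i := i'`, `j := F`)
`u' := lab i' 1 ∈ N F`, `u' ∉ C F`, `u' ≠ x`.  So `u, x, u', lab F 0, lab F 2` are five different nodes of `F`,
with `ty u = (0,5,0,0)`, `val x = 3`, `cnt 1 u' ≥ 1`, `fl u' = 1`.
By `lin5`: `∑_{N F} cost ≥ (19/1000) · 22 + 153/1000 + 1476/10000 + 212/1000 + 198/1000 + 1476/10000
> 1.27`  (further nodes only help).
Case B, `x ∈ C j`, i.e. `j = i'`, `lab j 2 = x`, `lab j 1 = u`, and `p ∈ N F`, so `lab F 0 = p`.  As before `x` is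
inside a side of `F` at the corner `lab F 0`, not the side to `lab F 2` of length `b = dist p x`; so it is
inside the side from `p = lab F 0` to `z := lab F 1`, and `dist x z = c - b < b`.  The other partner `y` of
`x` on `j` (not `u`) lies in `segment x (lab j 0)`, is shared with `F`, and lies in `segment x z`.  By
`ray_cmp` (with `i := F`, `a := 1`, `j := j`, `b := 0`): `dist x z = c - b < b = dist x (lab j 0)`, so `z ∈ N j`,
`z ∉ C j`.  So `x, u, lab j 0, z` are four different nodes of `j`, `cnt 1 z ≥ 1`, `fl z = 1`: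
`∑_{N j} cost ≥ (19/1000) · 22 + 1476/10000 + 153/1000 + 198/1000 + 212/1000 > 1.12`.
-/

namespace Pool.Agent.NNb

namespace Sys3

variable {ι : Type} {n : ℕ} (S : Sys3 ι n)

/-- cost minus the linear part -/
noncomputable def K5Geo_e (x : ℂ) : ℝ := S.cost (9 / 100) x - 19 / 1000 * ((S.val x : ℝ) - 2)

theorem K5Geo_lin (h2 : S.θ 2 = Real.pi / 2) (h0 : S.θ 0 = Real.pi / 10) {i : ι} {x : ℂ}
    (hx : x ∈ S.N i) : 1476 / 10000 ≤ S.K5Geo_e x ∧
      (1 ≤ S.cnt 0 x → 198 / 1000 ≤ S.K5Geo_e x) ∧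
      (1 ≤ S.cnt 1 x → 153 / 1000 ≤ S.K5Geo_e x) ∧
      (1 ≤ S.cnt 1 x → S.fl x = 1 → 212 / 1000 ≤ S.K5Geo_e x) := by
  have he : S.K5Geo_e x = ((cq (9 / 100) (S.ty x) - 19 / 1000 * ((tval (S.ty x) : ℚ) - 2) : ℚ) :
      ℝ) := by
    have h1 := S.cost_ty (9 / 100) hx
    push_cast at h1 ⊢
    rw [K5Geo_e, h1, S.tval_ty]
  obtain ⟨l1, l2, l3, l4⟩ := lin5 (S.ty x) (S.ty5 h2 h0 hx)
  rw [he]
  refine ⟨?_, fun h => ?_, fun h => ?_, fun h h' => ?_⟩
  · have := (Rat.cast_le (K := ℝ)).mpr l1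
    push_cast at this ⊢
    exact this
  · have := (Rat.cast_le (K := ℝ)).mpr (l2 h)
    push_cast at this ⊢
    exact this
  · have := (Rat.cast_le (K := ℝ)).mpr (l3 h)
    push_cast at this ⊢
    exact this
  · have := (Rat.cast_le (K := ℝ)).mpr (l4 h h')
    push_cast at this ⊢
    exact this

theorem K5Geo_sum (hn : n = 22) (h2 : S.θ 2 = Real.pi / 2) (h0 : S.θ 0 = Real.pi / 10) (j : ι)
    (A : Finset ℂ) (hA : A ⊆ S.N j) (B : ℝ) (hB : B ≤ ∑ x ∈ A, S.K5Geo_e x) :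
    1 - ∑ x ∈ S.N j, S.cost (9 / 100) x ≤ 1 - (19 / 1000 * 22 + B) := by
  have h1 : ∑ x ∈ A, S.K5Geo_e x ≤ ∑ x ∈ S.N j, S.K5Geo_e x :=
    Finset.sum_le_sum_of_subset_of_nonneg hA fun x hx _ => by
      have := (S.K5Geo_lin h2 h0 hx).1
      linarith
  have h3 : ∑ x ∈ S.N j, S.K5Geo_e x = ∑ x ∈ S.N j, S.cost (9 / 100) x - 19 / 1000 * 22 := by
    have h4 := S.sum_val_real j
    simp only [K5Geo_e]
    rw [Finset.sum_sub_distrib, ← Finset.mul_sum, h4]
    have h5 : (n : ℝ) = 22 := by exact_mod_cast hn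
    linarith
  linarith

/-- lengths -/
theorem K5Geo_len (h2 : S.θ 2 = Real.pi / 2) (h0 : S.θ 0 = Real.pi / 10) :
    ∃ a b c : ℝ, 2 * a < c ∧ c < 2 * b ∧ (∀ i, dist (S.lab i 1) (S.lab i 2) = a) ∧
      (∀ i, dist (S.lab i 0) (S.lab i 2) = b) ∧ (∀ i, dist (S.lab i 0) (S.lab i 1) = c) := by
  have hpi := Real.pi_pos
  have h1 : S.θ 1 = 2 * Real.pi / 5 := by have := S.θ_sum; rw [h2, h0] at this; linarith
  have hs : Real.sin (S.θ 2) = 1 := by rw [h2, Real.sin_pi_div_two]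
  have hs0 : Real.sin (S.θ 0) < 1 / 2 := by
    rw [h0, ← Real.sin_pi_div_six]
    exact Real.sin_lt_sin_of_lt_of_le_pi_div_two (by linarith) (by linarith) (by linarith)
  have hs1 : 1 / 2 < Real.sin (S.θ 1) := by
    rw [h1, ← Real.sin_pi_div_six]
    exact Real.sin_lt_sin_of_lt_of_le_pi_div_two (by linarith) (by linarith) (by linarith)
  refine ⟨S.ρ * Real.sin (S.θ 0), S.ρ * Real.sin (S.θ 1), S.ρ * Real.sin (S.θ 2), ?_, ?_,
    fun i => (S.side i).1, fun i => (S.side i).2.1, fun i => (S.side i).2.2⟩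
  · rw [hs]; nlinarith [S.ρ_pos]
  · rw [hs]; nlinarith [S.ρ_pos]

theorem K5Geo_lab0 {i : ι} {x : ℂ} (hx : x ∈ S.N i) (h : S.ty x = (20, 0, 0, 0)) :
    S.lab i 0 = x := by
  refine S.lab_of_cnt hx ?_
  rw [S.val_cnt]
  simp only [ty, Prod.mk.injEq] at h
  omega

theorem K5Geo_lab1 {i : ι} {x : ℂ} (hx : x ∈ S.N i) (h : S.ty x = (0, 5, 0, 0)) :
    S.lab i 1 = x := by
  refine S.lab_of_cnt hx ?_
  rw [S.val_cnt]
  simp only [ty, Prod.mk.injEq] at h
  omega

/-- counts at the 3-valent node -/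
theorem K5Geo_cnt (h2 : S.θ 2 = Real.pi / 2) {i : ι} {x : ℂ} (hx : x ∈ S.N i)
    (hv : S.val x = 3) : S.cnt 0 x = 0 ∧ S.cnt 1 x = 0 ∧ S.cnt 2 x = 2 ∧ S.fl x = 1 := by
  have hpi := Real.pi_pos
  rcases S.three_valent hx hv with ⟨h, -⟩ | ⟨-, h3, h4⟩
  · rw [h2] at h; linarith
  · have := S.val_cnt x
    omega

/-- a strictly inner point is closer to the end -/
theorem K5Geo_sbtw {p x q : ℂ} (h : Sbtw ℝ p x q) : dist p x < dist p q := by
  have h1 := h.wbtw.dist_add_dist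
  have h2 : 0 < dist x q := dist_pos.mpr h.ne_right
  linarith

/-- a flat node `x` of `F` with a partner which is the corner `lab F k`; the side through `x` starts
at `lab F k` -/
theorem K5Geo_side {F : ι} {k : Fin 3} {x : ℂ} (hx : x ∈ S.N F) (hC : x ∉ S.C F)
    (hp : Part S.N F x (S.lab F k)) : ∃ l, l ≠ k ∧ Sbtw ℝ (S.lab F k) x (S.lab F l) := by
  obtain ⟨k', l', hkl, hs⟩ := S.on_side F x hx hC
  have h1 : S.lab F k ∈ segment ℝ (S.lab F k') (S.lab F l') :=
    S.flat_side hC (mem_segment_iff_wbtw.mpr hs.wbtw) hkl hp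
  by_cases hk : k = k'
  · subst hk; exact ⟨l', hkl.symm, hs⟩
  · by_cases hl : k = l'
    · subst hl; exact ⟨k', hkl, hs.symm⟩
    · exact absurd h1 (S.corner_not_side F hk hl hkl)

theorem k5_caseA (hn : n = 22) (h2 : S.θ 2 = Real.pi / 2) (h0 : S.θ 0 = Real.pi / 10)
    {i j : ι} (hE : S.IsE 3 i) (hij : j ≠ i) (hx : S.lab i 2 ∈ S.N j) (hu : S.lab i 1 ∈ S.N j)
    (hC : S.lab i 2 ∉ S.C j) :
    1 - ∑ x ∈ S.N j, S.cost (9 / 100) x ≤ -(27 / 100) := by
  classical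
  obtain ⟨hc, hp20, hu5, hv⟩ := hE
  obtain ⟨a, b, c, hac, hcb, ha, hb, hcc⟩ := S.K5Geo_len h2 h0
  have hxi : S.lab i 2 ∈ S.N i := S.lab_mem i 2
  have hui : S.lab i 1 ∈ S.N i := S.lab_mem i 1
  have hpi : S.lab i 0 ∈ S.N i := S.lab_mem i 0
  have h01 : S.lab i 0 ≠ S.lab i 1 := fun h => by simpa using S.lab_inj i h
  have h02 : S.lab i 0 ≠ S.lab i 2 := fun h => by simpa using S.lab_inj i h
  have h12 : S.lab i 1 ≠ S.lab i 2 := fun h => by simpa using S.lab_inj i h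
  obtain ⟨hc0, hc1, hc2, hf⟩ := S.K5Geo_cnt h2 hxi hv
  -- the third tile
  obtain ⟨i', hi'x, hi'i⟩ : ∃ i', S.lab i' 2 = S.lab i 2 ∧ i' ≠ i := by
    have h3 : 1 < ((S.tl (S.lab i 2)).filter (fun k => S.lab k 2 = S.lab i 2)).card := by
      have : ((S.tl (S.lab i 2)).filter (fun k => S.lab k 2 = S.lab i 2)).card = 2 := by
        have h5 := hc2
        unfold cnt at h5
        convert h5
      omega
    obtain ⟨k, hk, hki⟩ := Finset.exists_mem_ne h3 i
    exact ⟨k, (Finset.mem_filter.mp hk).2, hki⟩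
  have hxi' : S.lab i 2 ∈ S.N i' := hi'x ▸ S.lab_mem i' 2
  have hi'j : i' ≠ j := by
    rintro rfl
    exact hC ((S.lab_C i' _).mpr ⟨2, hi'x.symm⟩)
  obtain ⟨P, Q, R, hPx, hQx, hRx, hPQ, hQR, hPR, hPi, hPj, hQj, hQi', hRi', hRi⟩ :=
    S.link3 hv hij.symm hi'j.symm hi'i.symm hxi hx hxi'
  have hmem := S.card3_mem hc
  have hpj : S.lab i 0 ∉ S.N j := fun h => by
    rcases S.three i j _ _ _ hij.symm hpi hui hxi h hu hx with h3 | h3 | h3
    · exact h01 h3
    · exact h12 h3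
    · exact h02 h3
  have hPu : P = S.lab i 1 := by
    rcases (hmem P).mp hPi with h3 | h3 | h3
    · exact absurd (h3 ▸ hPj) hpj
    · exact h3
    · exact absurd h3 hPx
  have hRp : R = S.lab i 0 := by
    rcases (hmem R).mp hRi with h3 | h3 | h3
    · exact h3
    · exact absurd (hPu.trans h3.symm) hPR
    · exact absurd h3 hRx
  subst hPu hRp
  have hlj : S.lab j 1 = S.lab i 1 := S.K5Geo_lab1 hu hu5
  have hli' : S.lab i' 0 = S.lab i 0 := S.K5Geo_lab0 hRi' hp20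
  -- the side of `j` through `x`
  have hPartu : Part S.N j (S.lab i 2) (S.lab i 1) := ⟨hx, hu, h12.symm, i, hij.symm, hxi, hui⟩
  obtain ⟨l, hl1, hsb⟩ := S.K5Geo_side (k := 1) hx hC (by rw [hlj]; exact hPartu)
  rw [hlj] at hsb
  have hl0 : l = 0 := by
    have h3 := K5Geo_sbtw hsb
    rw [ha i] at h3
    fin_cases l
    · rfl
    · exact absurd rfl hl1
    · exfalso
      have h4 := ha j
      rw [hlj] at h4
      simp only [Fin.reduceFinMk] at h3
      rw [h4] at h3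
      exact lt_irrefl _ h3
  subst hl0
  have hdist : dist (S.lab i 2) (S.lab j 0) = c - a := by
    have h3 := hsb.wbtw.dist_add_dist
    rw [ha i] at h3
    have h4 := hcc j
    rw [dist_comm, hlj] at h4
    linarith
  -- the node `Q`
  have hQu : Q ≠ S.lab i 1 := hPQ.symm
  have hPartQi' : Part S.N i' (S.lab i 2) Q := ⟨hxi', hQi', hQx.symm, j, hi'j.symm, hx, hQj⟩
  have hPartpi' : Part S.N i' (S.lab i 2) (S.lab i 0) :=
    ⟨hxi', hRi', h02.symm, i, hi'i.symm, hxi, hpi⟩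
  have hQseg : Q ∈ segment ℝ (S.lab i 2) (S.lab i' 1) := by
    rw [← hi'x] at hPartQi' hPartpi' ⊢
    obtain ⟨m, hm2, hQm⟩ := S.part_corner hPartQi'
    have hm : m = 0 ∨ m = 1 := by
      fin_cases m
      · exact Or.inl rfl
      · exact Or.inr rfl
      · exact absurd rfl hm2
    rcases hm with rfl | rfl
    · exfalso
      apply hQR
      refine S.part_corner_two (l := 0) (by decide) hPartQi' hPartpi' hQm ?_
      rw [← hli']
      exact right_mem_segment ℝ _ _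
    · exact hQm
  have hPartQj : Part S.N j (S.lab i 2) Q := ⟨hx, hQj, hQx.symm, i', hi'j, hxi', hQi'⟩
  have hsegj : S.lab i 2 ∈ segment ℝ (S.lab j 1) (S.lab j 0) := by
    rw [hlj]; exact mem_segment_iff_wbtw.mpr hsb.wbtw
  have hQseg2 : Q ∈ segment ℝ (S.lab i 2) (S.lab j 0) := by
    refine S.part_flat_two hC hsegj (by decide) hQu.symm hPartu hPartQj ?_
    rw [hlj]
    exact right_mem_segment ℝ _ _
  have hray := (S.ray_cmp (i := i') (j := j) (a := 1) (b := 0) (b' := 1) hQx hQseg hQseg2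
    (by decide) hsegj).1
  have hda : dist (S.lab i 2) (S.lab i' 1) = a := by rw [← hi'x, dist_comm]; exact ha i'
  obtain ⟨hu'j, hu'C⟩ := hray (by rw [hda, hdist]; linarith)
  have hu'x : S.lab i' 1 ≠ S.lab i 2 := by
    rw [← hi'x]
    intro h
    simpa using S.lab_inj i' h
  -- the five nodes
  have hCj : ∀ k, S.lab j k ∈ S.C j := fun k => (S.lab_C j _).mpr ⟨k, rfl⟩
  have hfl : S.fl (S.lab i' 1) = 1 := by
    have h3 := S.fl_le hu'j
    have h4 : 1 ≤ S.fl (S.lab i' 1) := by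
      rw [fl]
      refine Finset.card_pos.mpr ⟨j, ?_⟩
      rw [Finset.mem_filter, S.mem_tl]
      exact ⟨hu'j, hu'C⟩
    omega
  have hj01 : S.lab j 0 ≠ S.lab j 1 := fun h => by simpa using S.lab_inj j h
  have hj02 : S.lab j 0 ≠ S.lab j 2 := fun h => by simpa using S.lab_inj j h
  have hj12 : S.lab j 1 ≠ S.lab j 2 := fun h => by simpa using S.lab_inj j h
  have hxk : ∀ k, S.lab j k ≠ S.lab i 2 := fun k h => hC (h ▸ hCj k)
  have hu'k : ∀ k, S.lab j k ≠ S.lab i' 1 := fun k h => hu'C (h ▸ hCj k)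
  have e0 := (S.K5Geo_lin h2 h0 (S.lab_mem j 0)).2.1 (S.cnt_pos j 0)
  have e1 := (S.K5Geo_lin h2 h0 (S.lab_mem j 1)).2.2.1 (S.cnt_pos j 1)
  have e2 := (S.K5Geo_lin h2 h0 (S.lab_mem j 2)).1
  have e3 := (S.K5Geo_lin h2 h0 hx).1
  have e4 := (S.K5Geo_lin h2 h0 hu'j).2.2.2 (S.cnt_pos i' 1) hfl
  have hA : ({S.lab j 0, S.lab j 1, S.lab j 2, S.lab i 2, S.lab i' 1} : Finset ℂ) ⊆ S.N j := by
    intro v hv
    simp only [Finset.mem_insert, Finset.mem_singleton] at hv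
    rcases hv with rfl | rfl | rfl | rfl | rfl
    · exact S.lab_mem j 0
    · exact S.lab_mem j 1
    · exact S.lab_mem j 2
    · exact hx
    · exact hu'j
  have hsum : ∑ v ∈ ({S.lab j 0, S.lab j 1, S.lab j 2, S.lab i 2, S.lab i' 1} : Finset ℂ),
      S.K5Geo_e v = S.K5Geo_e (S.lab j 0) + (S.K5Geo_e (S.lab j 1) + (S.K5Geo_e (S.lab j 2) +
        (S.K5Geo_e (S.lab i 2) + S.K5Geo_e (S.lab i' 1)))) := by
    rw [Finset.sum_insert, Finset.sum_insert, Finset.sum_insert, Finset.sum_insert,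
      Finset.sum_singleton]
    · simp only [Finset.mem_singleton]; exact hu'x.symm
    · simp only [Finset.mem_insert, Finset.mem_singleton, not_or]
      exact ⟨hxk 2, hu'k 2⟩
    · simp only [Finset.mem_insert, Finset.mem_singleton, not_or]
      exact ⟨hj12, hxk 1, hu'k 1⟩
    · simp only [Finset.mem_insert, Finset.mem_singleton, not_or]
      exact ⟨hj01, hj02, hxk 0, hu'k 0⟩
  have := S.K5Geo_sum hn h2 h0 j _ hA (8582 / 10000) (by rw [hsum]; linarith)
  linarith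

theorem k5_caseB (hn : n = 22) (h2 : S.θ 2 = Real.pi / 2) (h0 : S.θ 0 = Real.pi / 10)
    {i j : ι} (hE : S.IsE 3 i) (hij : j ≠ i) (hx : S.lab i 2 ∈ S.N j) (hu : S.lab i 1 ∈ S.N j)
    (hC : S.lab i 2 ∈ S.C j) :
    1 - ∑ x ∈ S.N j, S.cost (9 / 100) x ≤ -(12 / 100) := by
  classical
  obtain ⟨hc, hp20, hu5, hv⟩ := hE
  obtain ⟨a, b, c, hac, hcb, ha, hb, hcc⟩ := S.K5Geo_len h2 h0
  have hxi : S.lab i 2 ∈ S.N i := S.lab_mem i 2
  have hui : S.lab i 1 ∈ S.N i := S.lab_mem i 1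
  have hpi : S.lab i 0 ∈ S.N i := S.lab_mem i 0
  have h01 : S.lab i 0 ≠ S.lab i 1 := fun h => by simpa using S.lab_inj i h
  have h02 : S.lab i 0 ≠ S.lab i 2 := fun h => by simpa using S.lab_inj i h
  have h12 : S.lab i 1 ≠ S.lab i 2 := fun h => by simpa using S.lab_inj i h
  obtain ⟨hc0, hc1, hc2, hf⟩ := S.K5Geo_cnt h2 hxi hv
  have hlj2 : S.lab j 2 = S.lab i 2 := by
    obtain ⟨k, hk⟩ := (S.lab_C j _).mp hC
    have h3 := S.cnt_pos j k
    rw [← hk] at h3
    fin_cases k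
    · simp only [Fin.zero_eta] at h3; omega
    · simp only [Fin.mk_one] at h3; omega
    · exact hk.symm
  have hlj : S.lab j 1 = S.lab i 1 := S.K5Geo_lab1 hu hu5
  -- the flat tile
  obtain ⟨F, hxF, hCF⟩ : ∃ F, S.lab i 2 ∈ S.N F ∧ S.lab i 2 ∉ S.C F := by
    have h3 : 0 < ((S.tl (S.lab i 2)).filter (fun k => S.lab i 2 ∉ S.C k)).card := by
      have : ((S.tl (S.lab i 2)).filter (fun k => S.lab i 2 ∉ S.C k)).card = 1 := by
        have h5 := hf
        unfold fl at h5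
        convert h5
      omega
    obtain ⟨k, hk⟩ := Finset.card_pos.mp h3
    rw [Finset.mem_filter, S.mem_tl] at hk
    exact ⟨k, hk.1, hk.2⟩
  have hFi : F ≠ i := by
    rintro rfl
    exact hCF ((S.lab_C F _).mpr ⟨2, rfl⟩)
  have hFj : F ≠ j := fun h => hCF (h ▸ hC)
  obtain ⟨P, Q, R, hPx, hQx, hRx, hPQ, hQR, hPR, hPi, hPj, hQj, hQF, hRF, hRi⟩ :=
    S.link3 hv hij.symm hFj.symm hFi.symm hxi hx hxF
  have hmem := S.card3_mem hc
  have hpj : S.lab i 0 ∉ S.N j := fun h => by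
    rcases S.three i j _ _ _ hij.symm hpi hui hxi h hu hx with h3 | h3 | h3
    · exact h01 h3
    · exact h12 h3
    · exact h02 h3
  have hPu : P = S.lab i 1 := by
    rcases (hmem P).mp hPi with h3 | h3 | h3
    · exact absurd (h3 ▸ hPj) hpj
    · exact h3
    · exact absurd h3 hPx
  have hRp : R = S.lab i 0 := by
    rcases (hmem R).mp hRi with h3 | h3 | h3
    · exact h3
    · exact absurd (hPu.trans h3.symm) hPR
    · exact absurd h3 hRx
  subst hPu hRp
  have hlF : S.lab F 0 = S.lab i 0 := S.K5Geo_lab0 hRF hp20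
  have hPartp : Part S.N F (S.lab i 2) (S.lab i 0) := ⟨hxF, hRF, h02.symm, i, hFi.symm, hxi, hpi⟩
  obtain ⟨l, hl1, hsb⟩ := S.K5Geo_side (k := 0) hxF hCF (by rw [hlF]; exact hPartp)
  rw [hlF] at hsb
  have hl0 : l = 1 := by
    have h3 := K5Geo_sbtw hsb
    rw [hb i] at h3
    fin_cases l
    · exact absurd rfl hl1
    · rfl
    · exfalso
      have h4 := hb F
      rw [hlF] at h4
      simp only [Fin.reduceFinMk] at h3
      rw [h4] at h3
      exact lt_irrefl _ h3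
  subst hl0
  have hdist : dist (S.lab i 2) (S.lab F 1) = c - b := by
    have h3 := hsb.wbtw.dist_add_dist
    rw [hb i] at h3
    have h4 := hcc F
    rw [hlF] at h4
    linarith
  have hQu : Q ≠ S.lab i 1 := hPQ.symm
  have hPartQj : Part S.N j (S.lab i 2) Q := ⟨hx, hQj, hQx.symm, F, hFj, hxF, hQF⟩
  have hPartuj : Part S.N j (S.lab i 2) (S.lab i 1) := ⟨hx, hu, h12.symm, i, hij.symm, hxi, hui⟩
  have hQseg : Q ∈ segment ℝ (S.lab i 2) (S.lab j 0) := by
    rw [← hlj2] at hPartQj hPartuj ⊢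
    obtain ⟨m, hm2, hQm⟩ := S.part_corner hPartQj
    have hm : m = 0 ∨ m = 1 := by
      fin_cases m
      · exact Or.inl rfl
      · exact Or.inr rfl
      · exact absurd rfl hm2
    rcases hm with rfl | rfl
    · exact hQm
    · exfalso
      apply hQu
      refine S.part_corner_two (l := 1) (by decide) hPartQj hPartuj hQm ?_
      rw [← hlj]
      exact right_mem_segment ℝ _ _
  have hPartQF : Part S.N F (S.lab i 2) Q := ⟨hxF, hQF, hQx.symm, j, hFj.symm, hx, hQj⟩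
  have hsegF : S.lab i 2 ∈ segment ℝ (S.lab F 0) (S.lab F 1) := by
    rw [hlF]; exact mem_segment_iff_wbtw.mpr hsb.wbtw
  have hQseg2 : Q ∈ segment ℝ (S.lab i 2) (S.lab F 1) := by
    refine S.part_flat_two hCF hsegF (by decide) hQR.symm hPartp hPartQF ?_
    rw [hlF]
    exact right_mem_segment ℝ _ _
  have hray := (S.ray_cmp (i := F) (j := j) (a := 1) (b := 0) (b' := 2) hQx hQseg2 hQseg
    (by decide) (by rw [hlj2]; exact left_mem_segment ℝ _ _)).1
  have hdb : dist (S.lab i 2) (S.lab j 0) = b := by rw [← hlj2, dist_comm]; exact hb j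
  obtain ⟨hzj, hzC⟩ := hray (by rw [hdb, hdist]; linarith)
  have hCj : ∀ k, S.lab j k ∈ S.C j := fun k => (S.lab_C j _).mpr ⟨k, rfl⟩
  have hfl : S.fl (S.lab F 1) = 1 := by
    have h3 := S.fl_le hzj
    have h4 : 1 ≤ S.fl (S.lab F 1) := by
      rw [fl]
      refine Finset.card_pos.mpr ⟨j, ?_⟩
      rw [Finset.mem_filter, S.mem_tl]
      exact ⟨hzj, hzC⟩
    omega
  have hj01 : S.lab j 0 ≠ S.lab j 1 := fun h => by simpa using S.lab_inj j h
  have hj02 : S.lab j 0 ≠ S.lab j 2 := fun h => by simpa using S.lab_inj j h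
  have hj12 : S.lab j 1 ≠ S.lab j 2 := fun h => by simpa using S.lab_inj j h
  have hzk : ∀ k, S.lab j k ≠ S.lab F 1 := fun k h => hzC (h ▸ hCj k)
  have e0 := (S.K5Geo_lin h2 h0 (S.lab_mem j 0)).2.1 (S.cnt_pos j 0)
  have e1 := (S.K5Geo_lin h2 h0 (S.lab_mem j 1)).2.2.1 (S.cnt_pos j 1)
  have e2 := (S.K5Geo_lin h2 h0 (S.lab_mem j 2)).1
  have e4 := (S.K5Geo_lin h2 h0 hzj).2.2.2 (S.cnt_pos F 1) hfl
  have hA : ({S.lab j 0, S.lab j 1, S.lab j 2, S.lab F 1} : Finset ℂ) ⊆ S.N j := by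
    intro v hv
    simp only [Finset.mem_insert, Finset.mem_singleton] at hv
    rcases hv with rfl | rfl | rfl | rfl
    · exact S.lab_mem j 0
    · exact S.lab_mem j 1
    · exact S.lab_mem j 2
    · exact hzj
  have hsum : ∑ v ∈ ({S.lab j 0, S.lab j 1, S.lab j 2, S.lab F 1} : Finset ℂ),
      S.K5Geo_e v = S.K5Geo_e (S.lab j 0) + (S.K5Geo_e (S.lab j 1) + (S.K5Geo_e (S.lab j 2) +
        S.K5Geo_e (S.lab F 1))) := by
    rw [Finset.sum_insert, Finset.sum_insert, Finset.sum_insert, Finset.sum_singleton]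
    · simp only [Finset.mem_singleton]; exact hzk 2
    · simp only [Finset.mem_insert, Finset.mem_singleton, not_or]
      exact ⟨hj12, hzk 1⟩
    · simp only [Finset.mem_insert, Finset.mem_singleton, not_or]
      exact ⟨hj01, hj02, hzk 0⟩
  have := S.K5Geo_sum hn h2 h0 j _ hA (7106 / 10000) (by rw [hsum]; linarith)
  linarith

end Sys3

end Pool.Agent.NNb
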