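import Pool.Agent.NNb.Type45
import Pool.Agent.NNb.SumVal

/-!
Module K5LIN.  Right triangles with `θ 0 = π/10`, `n ≥ 22`: bounds for the cost with `lam = 9/100`.

Linear bounds (check the 22 types): with `lin t = cq (9/100) t - (19/1000) (tval t - 2)`:
`lin t ≥ 1476/10000` for all types; `≥ 198/1000` if `a ≥ 1`; `≥ 153/1000` if `b ≥ 1`; `≥ 212/1000` if
`b ≥ 1` and `f = 1`.
`k5_four`: `|N i| ≥ 4`: `∑ cost ≥ (19/1000) n + 198/1000 (lab i 0) + 153/1000 (lab i 1) + 2 · 1476/10000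
≥ 1.064`.
`k5_three`: `|N i| = 3`: finite check `check5` over the triples of types `A, B, C ∈ types5` with
`A.1 ≥ 1`, `B.2.1 ≥ 1`, `C.2.2.1 ≥ 1`, `tval A + tval B + tval C = n + 6`: `cq` sum `≥ 1 + 6/1000`
except for `A = (20,0,0,0)`, `B = (0,5,0,0)` and (`C = (0,0,2,1)`, `n = 22`, sum `11/12`) or
(`C = (0,0,4,0)` or `(1,1,1,1)`, i.e. `tval C = 4`, `n = 23`, sum `1`).
-/

namespace Pool.Agent.NNb

set_option maxRecDepth 100000 in
/-- the finite check -/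
theorem check5 : ∀ A ∈ types5, ∀ B ∈ types5, ∀ C ∈ types5, 1 ≤ A.1 → 1 ≤ B.2.1 → 1 ≤ C.2.2.1 →
    28 ≤ tval A + tval B + tval C →
    (A = (20, 0, 0, 0) ∧ B = (0, 5, 0, 0) ∧ tval C ≤ 4) ∨
    1 + 6 / 1000 ≤ cq (9 / 100) A + cq (9 / 100) B + cq (9 / 100) C := by
  decide +kernel

theorem lin5 : ∀ t ∈ types5, (1476 / 10000 ≤ cq (9 / 100) t - 19 / 1000 * ((tval t : ℚ) - 2)) ∧
    (1 ≤ t.1 → 198 / 1000 ≤ cq (9 / 100) t - 19 / 1000 * ((tval t : ℚ) - 2)) ∧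
    (1 ≤ t.2.1 → 153 / 1000 ≤ cq (9 / 100) t - 19 / 1000 * ((tval t : ℚ) - 2)) ∧
    (1 ≤ t.2.1 → t.2.2.2 = 1 → 212 / 1000 ≤ cq (9 / 100) t - 19 / 1000 * ((tval t : ℚ) - 2)) := by
  decide +kernel

private theorem chk3 : ∀ C ∈ types5, 1 ≤ C.2.2.1 →
    (tval C = 3 → cq (9 / 100) C = 1 / 6) ∧ (tval C = 4 → cq (9 / 100) C = 1 / 4) := by
  decide +kernel

private theorem chkAB : cq (9 / 100) (20, 0, 0, 0) + cq (9 / 100) (0, 5, 0, 0) = 3 / 4 := by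
  decide +kernel

namespace Sys3

variable {ι : Type} {n : ℕ} (S : Sys3 ι n)

/-- exceptional tiles: three nodes, of types `(20,0,0,0)`, `(0,5,0,0)` and of valence `v` -/
def IsE (v : ℕ) (i : ι) : Prop :=
  (S.N i).card = 3 ∧ S.ty (S.lab i 0) = (20, 0, 0, 0) ∧ S.ty (S.lab i 1) = (0, 5, 0, 0) ∧
    S.val (S.lab i 2) = v

private theorem cost5 {i : ι} {x : ℂ} (hx : x ∈ S.N i) :
    S.cost (9 / 100) x = ((cq (9 / 100) (S.ty x) : ℚ) : ℝ) := by
  have h := S.cost_ty (9 / 100) hx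
  rw [← h]
  norm_num

private theorem cast5 {i : ι} {x : ℂ} (hx : x ∈ S.N i) (c : ℚ)
    (h : c ≤ cq (9 / 100) (S.ty x) - 19 / 1000 * ((tval (S.ty x) : ℚ) - 2)) :
    (c : ℝ) + 19 / 1000 * ((S.val x : ℝ) - 2) ≤ S.cost (9 / 100) x := by
  rw [S.tval_ty] at h
  have h' : (c : ℝ) ≤ ((cq (9 / 100) (S.ty x) - 19 / 1000 * ((S.val x : ℚ) - 2) : ℚ) : ℝ) := by
    exact_mod_cast h
  rw [cost5 S hx]
  push_cast at h'
  linarith

theorem k5_four (hn : 22 ≤ n) (h2 : S.θ 2 = Real.pi / 2) (h0 : S.θ 0 = Real.pi / 10) (i : ι)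
    (hc : 4 ≤ (S.N i).card) : 1 - ∑ x ∈ S.N i, S.cost (9 / 100) x ≤ -(6 / 1000) := by
  have hm : ∀ x ∈ S.N i, S.ty x ∈ types5 := fun x hx => S.ty5 h2 h0 hx
  set a := S.lab i 0 with ha
  set b := S.lab i 1 with hb
  have haN : a ∈ S.N i := S.lab_mem i 0
  have hbN : b ∈ S.N i := S.lab_mem i 1
  have hab : b ≠ a := by
    intro h
    have := S.lab_inj i h
    exact absurd this (by decide)
  have hg : ∀ x ∈ S.N i, (1476 / 10000 : ℝ) + 19 / 1000 * ((S.val x : ℝ) - 2) ≤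
      S.cost (9 / 100) x := by
    intro x hx
    have := cast5 S hx _ (lin5 _ (hm x hx)).1
    push_cast at this
    exact this
  have hga : (198 / 1000 : ℝ) + 19 / 1000 * ((S.val a : ℝ) - 2) ≤ S.cost (9 / 100) a := by
    have := cast5 S haN _ ((lin5 _ (hm a haN)).2.1 (S.cnt_pos i 0))
    push_cast at this
    exact this
  have hgb : (153 / 1000 : ℝ) + 19 / 1000 * ((S.val b : ℝ) - 2) ≤ S.cost (9 / 100) b := by
    have := cast5 S hbN _ ((lin5 _ (hm b hbN)).2.2.1 (S.cnt_pos i 1))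
    push_cast at this
    exact this
  classical
  have hbE : b ∈ (S.N i).erase a := Finset.mem_erase.2 ⟨hab, hbN⟩
  have hsum := S.toSys.sum_val_real i
  rw [← Finset.add_sum_erase _ _ haN, ← Finset.add_sum_erase _ _ hbE] at hsum
  rw [← Finset.add_sum_erase _ _ haN, ← Finset.add_sum_erase _ _ hbE]
  have hcard : 2 ≤ (((S.N i).erase a).erase b).card := by
    rw [Finset.card_erase_of_mem hbE, Finset.card_erase_of_mem haN]
    omega
  have hrest : ∑ x ∈ ((S.N i).erase a).erase b, ((1476 / 10000 : ℝ) +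
      19 / 1000 * ((S.val x : ℝ) - 2)) ≤ ∑ x ∈ ((S.N i).erase a).erase b, S.cost (9 / 100) x := by
    apply Finset.sum_le_sum
    intro x hx
    exact hg x (Finset.mem_of_mem_erase (Finset.mem_of_mem_erase hx))
  rw [Finset.sum_add_distrib, Finset.sum_const, ← Finset.mul_sum, nsmul_eq_mul] at hrest
  have hcard' : (2 : ℝ) ≤ ((((S.N i).erase a).erase b).card : ℝ) := by exact_mod_cast hcard
  have hn' : (22 : ℝ) ≤ n := by exact_mod_cast hn
  nlinarith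

theorem k5_three (hn : 22 ≤ n) (h2 : S.θ 2 = Real.pi / 2) (h0 : S.θ 0 = Real.pi / 10) (i : ι)
    (hc : (S.N i).card = 3) :
    (n = 22 ∧ S.IsE 3 i ∧ 1 - ∑ x ∈ S.N i, S.cost (9 / 100) x = 1 / 12) ∨
    (n = 23 ∧ S.IsE 4 i ∧ 1 - ∑ x ∈ S.N i, S.cost (9 / 100) x = 0) ∨
    1 - ∑ x ∈ S.N i, S.cost (9 / 100) x ≤ -(6 / 1000) := by
  classical
  have hm : ∀ x ∈ S.N i, S.ty x ∈ types5 := fun x hx => S.ty5 h2 h0 hx
  have l0 := S.lab_mem i 0
  have l1 := S.lab_mem i 1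
  have l2 := S.lab_mem i 2
  have n01 : S.lab i 0 ≠ S.lab i 1 := fun h => absurd (S.lab_inj i h) (by decide)
  have n02 : S.lab i 0 ≠ S.lab i 2 := fun h => absurd (S.lab_inj i h) (by decide)
  have n12 : S.lab i 1 ≠ S.lab i 2 := fun h => absurd (S.lab_inj i h) (by decide)
  have hN : S.N i = {S.lab i 0, S.lab i 1, S.lab i 2} := by
    ext x
    rw [S.card3_mem hc x]
    simp
  have hs3 : ∀ g : ℂ → ℝ, ∑ x ∈ S.N i, g x = g (S.lab i 0) + g (S.lab i 1) + g (S.lab i 2) := by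
    intro g
    rw [hN, Finset.sum_insert (by simp [n01, n02]), Finset.sum_insert (by simp [n12]),
      Finset.sum_singleton]
    ring
  have hsum := S.toSys.sum_val_real i
  rw [hs3] at hsum
  have hv : S.val (S.lab i 0) + S.val (S.lab i 1) + S.val (S.lab i 2) = n + 6 := by
    have : ((S.val (S.lab i 0) + S.val (S.lab i 1) + S.val (S.lab i 2) : ℕ) : ℝ) =
        ((n + 6 : ℕ) : ℝ) := by
      push_cast
      linarith
    exact_mod_cast this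
  have hc0 : 1 ≤ (S.ty (S.lab i 0)).1 := S.cnt_pos i 0
  have hc1 : 1 ≤ (S.ty (S.lab i 1)).2.1 := S.cnt_pos i 1
  have hc2 : 1 ≤ (S.ty (S.lab i 2)).2.2.1 := S.cnt_pos i 2
  have hchk := check5 _ (hm _ l0) _ (hm _ l1) _ (hm _ l2) hc0 hc1 hc2 (by
    rw [S.tval_ty, S.tval_ty, S.tval_ty]; omega)
  rw [hs3, cost5 S l0, cost5 S l1, cost5 S l2]
  rcases hchk with ⟨hA, hB, hC⟩ | h
  · have tA : S.val (S.lab i 0) = 20 := by rw [← S.tval_ty, hA]; rfl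
    have tB : S.val (S.lab i 1) = 5 := by rw [← S.tval_ty, hB]; rfl
    rw [S.tval_ty] at hC
    have hAB : ((cq (9 / 100) (S.ty (S.lab i 0)) : ℚ) : ℝ) +
        ((cq (9 / 100) (S.ty (S.lab i 1)) : ℚ) : ℝ) = 3 / 4 := by
      rw [hA, hB]
      have := chkAB
      have h' : ((cq (9 / 100) (20, 0, 0, 0) + cq (9 / 100) (0, 5, 0, 0) : ℚ) : ℝ) =
          ((3 / 4 : ℚ) : ℝ) := by rw [this]
      push_cast at h'
      exact h'
    obtain ⟨c3, c4⟩ := chk3 _ (hm _ l2) hc2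
    rw [S.tval_ty] at c3 c4
    have hcase : (n = 22 ∧ S.val (S.lab i 2) = 3) ∨ (n = 23 ∧ S.val (S.lab i 2) = 4) := by omega
    rcases hcase with ⟨hn1, hv2⟩ | ⟨hn1, hv2⟩
    · left
      refine ⟨hn1, ⟨hc, hA, hB, hv2⟩, ?_⟩
      rw [c3 hv2, hAB]
      norm_num
    · right; left
      refine ⟨hn1, ⟨hc, hA, hB, hv2⟩, ?_⟩
      rw [c4 hv2, hAB]
      norm_num
  · right; right
    have h' : ((1 + 6 / 1000 : ℚ) : ℝ) ≤ ((cq (9 / 100) (S.ty (S.lab i 0)) +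
        cq (9 / 100) (S.ty (S.lab i 1)) + cq (9 / 100) (S.ty (S.lab i 2)) : ℚ) : ℝ) := by
      exact_mod_cast h
    push_cast at h'
    linarith

end Sys3

end Pool.Agent.NNb
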