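import Pool.Agent.NNb.K5Geo

/-!
Module K5N22.  Right triangles with `θ 0 = π/10`, `n = 22`.

Exceptional tiles (`IsE 3`) have value `1/12`, all others `≤ -6/1000` (`k5_three`, `k5_four`).
Transfers: for `IsE 3 i`, at the node `u = lab i 1`, `i` sends `84/1000` to the tile `j ≠ i` with
`lab i 2, lab i 1 ∈ N j` (it exists and is unique: `part_of_three`, `part_other`):
`σ u i j = 84/1000` if `IsE 3 i`, `u = lab i 1`, `j ≠ i`, `lab i 2 ∈ N j`, `u ∈ N j`; else `0`.
* `IsE 3 j`: sends `84/1000`, value `1/12 - 84/1000 < 0`; receives nothing, because by `k5_caseA`,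
  `k5_caseB` a receiver has value `≤ -12/100`.
* A receiver `j`: it receives only at the node `u = lab j 1` (all tiles at a node of type `(0,5,0,0)`
  have `lab · 1 = u`), and at most from the two tiles `i` which share a partner of `u` with `j` (`{u, lab i 2}`
  is a partner pair on `j`, the partner determines `i` by `edge`).  If it receives once:
  value `≤ -12/100 + 84/1000`.  If it receives twice, from `i1 ≠ i2`, then
  `lab i1 2 ≠ lab i2 2` (`edge`), and not both are corners of `j`: for a corner `x = lab i 2 ∈ C j` one has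
  `x = lab j 2` (`val x = 3`, so `cnt 2 x = 2`, `fl x = 1`, `cnt 0 = cnt 1 = 0` by `r90_three`-type facts:
  `three_valent`, `val_cnt`).  So `k5_caseA` applies: value `≤ -27/100 + 168/1000`.
* All other tiles: `≤ -6/1000`.
So `no_neg_cost` with `c = 1/2000`  (`1/12 - 84/1000 = -1/1500`).
-/

namespace Pool.Agent.NNb

namespace Sys3

variable {ι : Type} {n : ℕ} (S : Sys3 ι n)

/-- `i` sends to `j` at the node `u` -/
private def K5N22_R (u : ℂ) (i j : ι) : Prop :=
  S.IsE 3 i ∧ u = S.lab i 1 ∧ j ≠ i ∧ S.lab i 2 ∈ S.N j ∧ u ∈ S.N j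

private theorem K5N22_u {u : ℂ} {i j : ι} (h : K5N22_R S u i j) : S.lab j 1 = u := by
  obtain ⟨h1, h2, h3, h4, h5⟩ := h
  have ht := h1.2.2.1
  rw [← h2] at ht
  apply S.lab_of_cnt h5
  rw [← S.tval_ty, ht]
  have : (S.ty u).2.1 = 5 := by rw [ht]
  exact this

private theorem K5N22_ne (i : ι) : S.lab i 1 ≠ S.lab i 2 :=
  fun h => absurd (S.lab_inj i h) (by decide)

private theorem K5N22_part {u : ℂ} {i j : ι} (h : K5N22_R S u i j) :
    Part S.N j u (S.lab i 2) := by
  obtain ⟨h1, h2, h3, h4, h5⟩ := h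
  refine ⟨h5, h4, ?_, i, h3.symm, ?_, S.lab_mem i 2⟩
  · rw [h2]; exact K5N22_ne S i
  · rw [h2]; exact S.lab_mem i 1

private theorem K5N22_inj {u : ℂ} {i i' j : ι} (h : K5N22_R S u i j) (h' : K5N22_R S u i' j)
    (he : S.lab i 2 = S.lab i' 2) : i = i' := by
  obtain ⟨h1, h2, h3, h4, h5⟩ := h
  obtain ⟨h1', h2', h3', h4', h5'⟩ := h'
  have hu : u ≠ S.lab i 2 := by rw [h2]; exact K5N22_ne S i
  rcases S.edge u (S.lab i 2) i i' j hu (by rw [h2]; exact S.lab_mem i 1) (S.lab_mem i 2)
    (by rw [h2']; exact S.lab_mem i' 1) (by rw [he]; exact S.lab_mem i' 2) h5 h4 with h | h | h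
  · exact h
  · exact absurd h.symm h3'
  · exact absurd h.symm h3

private theorem K5N22_val (hn : n = 22) (h2 : S.θ 2 = Real.pi / 2) (h0 : S.θ 0 = Real.pi / 10)
    {u : ℂ} {i j : ι} (h : K5N22_R S u i j) :
    1 - ∑ x ∈ S.N j, S.cost (9 / 100) x ≤ -(12 / 100) := by
  obtain ⟨h1, h3, h4, h5, h6⟩ := h
  rw [h3] at h6
  by_cases hC : S.lab i 2 ∈ S.C j
  · exact S.k5_caseB hn h2 h0 h1 h4 h5 h6 hC
  · have := S.k5_caseA hn h2 h0 h1 h4 h5 h6 hC
    linarith

private theorem K5N22_val2 (hn : n = 22) (h2 : S.θ 2 = Real.pi / 2) (h0 : S.θ 0 = Real.pi / 10)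
    {u : ℂ} {i i' j : ι} (h : K5N22_R S u i j) (h' : K5N22_R S u i' j) (hne : i ≠ i') :
    1 - ∑ x ∈ S.N j, S.cost (9 / 100) x ≤ -(27 / 100) := by
  have key : ∀ {i : ι}, K5N22_R S u i j → S.lab i 2 ∈ S.C j → S.lab i 2 = S.lab j 2 := by
    intro i h hC
    have hv := S.val_cnt (S.lab i 2)
    rw [h.1.2.2.2] at hv
    have hr : S.cnt 2 (S.lab i 2) = 2 ∧ S.fl (S.lab i 2) = 1 := by
      rcases S.three_valent (S.lab_mem i 2) h.1.2.2.2 with h3 | h3
      · exfalso
        have h4 := h3.1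
        rw [h2] at h4
        have := Real.pi_pos
        linarith
      · exact h3.2
    rcases (S.C_eq j _).mp hC with e | e | e
    · exfalso
      have := S.cnt_pos j 0
      rw [← e] at this
      omega
    · exfalso
      have := S.cnt_pos j 1
      rw [← e] at this
      omega
    · exact e
  by_cases hC : S.lab i 2 ∈ S.C j
  · by_cases hC' : S.lab i' 2 ∈ S.C j
    · exact absurd (K5N22_inj S h h' ((key h hC).trans (key h' hC').symm)) hne
    · obtain ⟨h1, h3, h4, h5, h6⟩ := h'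
      rw [h3] at h6
      exact S.k5_caseA hn h2 h0 h1 h4 h5 h6 hC'
  · obtain ⟨h1, h3, h4, h5, h6⟩ := h
    rw [h3] at h6
    exact S.k5_caseA hn h2 h0 h1 h4 h5 h6 hC

open Classical in
private noncomputable def K5N22_s (u : ℂ) (i j : ι) : ℝ :=
  if K5N22_R S u i j then 84 / 1000 else 0

private theorem K5N22_s_nonneg (u : ℂ) (i j : ι) : 0 ≤ K5N22_s S u i j := by
  unfold K5N22_s
  split_ifs <;> norm_num

open Classical in
/-- what `j` receives -/
private theorem K5N22_rec (j : ι) : ∑ x ∈ S.N j, ∑ i ∈ S.tl x, K5N22_s S x i j =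
    (((S.tl (S.lab j 1)).filter fun i => K5N22_R S (S.lab j 1) i j).card : ℝ) * (84 / 1000) := by
  rw [Finset.sum_eq_single (S.lab j 1)]
  · unfold K5N22_s
    rw [← Finset.sum_filter, Finset.sum_const, nsmul_eq_mul]
  · intro x _ hne
    apply Finset.sum_eq_zero
    intro i _
    unfold K5N22_s
    rw [if_neg]
    intro h
    exact hne (K5N22_u S h).symm
  · intro h
    exact absurd (S.lab_mem j 1) h

open Classical in
private theorem K5N22_card (j : ι) :
    ((S.tl (S.lab j 1)).filter fun i => K5N22_R S (S.lab j 1) i j).card ≤ 2 := by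
  obtain ⟨y, z, hyz, hy, hz, hall⟩ := S.part j _ (S.lab_mem j 1)
  have hsub : (((S.tl (S.lab j 1)).filter fun i => K5N22_R S (S.lab j 1) i j).image
      fun i => S.lab i 2) ⊆ {y, z} := by
    intro w hw
    rw [Finset.mem_image] at hw
    obtain ⟨i, hi, rfl⟩ := hw
    rw [Finset.mem_filter] at hi
    rcases hall _ (K5N22_part S hi.2) with h | h
    · rw [h]; simp
    · rw [h]; simp
  have hcard := Finset.card_le_card hsub
  rw [Finset.card_image_of_injOn] at hcard
  · exact hcard.trans (Finset.card_le_two)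
  · intro i hi i' hi' he
    rw [Finset.mem_coe, Finset.mem_filter] at hi hi'
    exact K5N22_inj S hi.2 hi'.2 he

private theorem K5N22_send {i : ι} (hE : S.IsE 3 i) :
    84 / 1000 ≤ ∑ x ∈ S.N i, ∑ j ∈ S.tl x, K5N22_s S x i j := by
  have hp := S.part_of_three hE.1 (S.lab_mem i 1) (S.lab_mem i 2) (K5N22_ne S i)
  obtain ⟨j, hj, hj2, -⟩ := S.part_other hp
  have hR : K5N22_R S (S.lab i 1) i j := ⟨hE, rfl, hj, hj2.2.1, hj2.1⟩
  have h1 : (84 / 1000 : ℝ) = K5N22_s S (S.lab i 1) i j := by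
    unfold K5N22_s
    rw [if_pos hR]
  rw [h1]
  have hjt : j ∈ S.tl (S.lab i 1) := (S.mem_tl j _).mpr hj2.1
  refine (Finset.single_le_sum (f := fun j => K5N22_s S (S.lab i 1) i j)
    (fun j _ => K5N22_s_nonneg S _ _ _) hjt).trans ?_
  exact Finset.single_le_sum (f := fun x => ∑ j ∈ S.tl x, K5N22_s S x i j)
    (fun x _ => Finset.sum_nonneg fun j _ => K5N22_s_nonneg S _ _ _) (S.lab_mem i 1)

theorem r90_k5_22 (hn : n = 22) (h2 : S.θ 2 = Real.pi / 2) (h0 : S.θ 0 = Real.pi / 10) :
    False := by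
  classical
  refine S.no_neg_cost (9 / 100) (S.ZS_of_pairs (K5N22_s S))
    (S.Bdd_of_pairs (K5N22_s S) 1 ?_) (c := 1 / 2000) (by norm_num) ?_
  · intro x i j
    unfold K5N22_s
    split_ifs <;> norm_num
  · intro j
    have hsum : ∑ x ∈ S.N j, ∑ i ∈ S.tl x, (K5N22_s S x i j - K5N22_s S x j i) =
        ∑ x ∈ S.N j, ∑ i ∈ S.tl x, K5N22_s S x i j -
        ∑ x ∈ S.N j, ∑ i ∈ S.tl x, K5N22_s S x j i := by
      rw [← Finset.sum_sub_distrib]
      apply Finset.sum_congr rfl
      intro x _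
      rw [← Finset.sum_sub_distrib]
    rw [hsum, K5N22_rec]
    have hsend0 : 0 ≤ ∑ x ∈ S.N j, ∑ i ∈ S.tl x, K5N22_s S x j i :=
      Finset.sum_nonneg fun x _ => Finset.sum_nonneg fun i _ => K5N22_s_nonneg S _ _ _
    have hc2 := K5N22_card S j
    set F := (S.tl (S.lab j 1)).filter fun i => K5N22_R S (S.lab j 1) i j with hF
    rcases (by omega : F.card = 0 ∨ F.card = 1 ∨ F.card = 2) with h | h | h
    · rw [h]
      have hcard : 3 ≤ (S.N j).card := S.card_ge j
      rcases Nat.lt_or_ge (S.N j).card 4 with h4 | h4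
      · rcases S.k5_three (by omega) h2 h0 j (by omega) with h5 | h5 | h5
        · have := K5N22_send S h5.2.1
          rw [h5.2.2]
          push_cast
          linarith
        · omega
        · push_cast
          linarith
      · have := S.k5_four (by omega) h2 h0 j h4
        push_cast
        linarith
    · obtain ⟨i, hi⟩ := Finset.card_pos.mp (by omega : 0 < F.card)
      rw [hF, Finset.mem_filter] at hi
      have := K5N22_val S hn h2 h0 hi.2
      rw [h]
      push_cast
      linarith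
    · obtain ⟨i, i', hne, he⟩ := Finset.card_eq_two.mp h
      have hi : i ∈ F := by rw [he]; simp
      have hi' : i' ∈ F := by rw [he]; simp
      rw [hF, Finset.mem_filter] at hi hi'
      have := K5N22_val2 S hn h2 h0 hi.2 hi'.2 hne
      rw [h]
      push_cast
      linarith

end Sys3

end Pool.Agent.NNb
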