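import Pool.Agent.NNb.XCnt
import Pool.Agent.NNb.FPhi
import Pool.Agent.NNb.Disch

/-!
Module NO4.  No tiling by quadrangles with `n ≥ 15`.

Let `a = 1/(n - 1) + 1/1000`, and `σ x i j = a/2` if `IsX j x` and `i ≠ j`, else `0`; potential
`φ j x = ∑_{i ∈ tl x} (σ x i j - σ x j i)` (`ZS_of_pairs`, `Bdd_of_pairs`).
* If `j` contains a node `h` with `val h = n - 1` (hub tile): `|N j| = 4`, so `¬ IsX j x` for all `x`
  (`isX_card`).  `f j ≤ 1/(n - 1)` (`f_le` with `s = 4`).  For the two partners `x` of `h` on `j`: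
  `tl x = {j, j', u}` with `h ∈ N j'`, `h ∉ N u` (`edge`), so `IsX u x`, and `φ j x ≤ - a/2`; at other
  nodes `φ j x ≤ 0`.  So `f j + ∑ φ ≤ 1/(n-1) - a = -1/1000`.
* Otherwise: `∑_x φ j x ≤ a |X|` with `X = {x | IsX j x}` (at `x ∈ X`: the two other tiles send `a/2`
  each, nothing is sent since `isX_unique`; at the other nodes `φ ≤ 0`).
  If `|N j| = 4` then `X = ∅`, and `f j ≤ -1/12 + 1/(n - 2)`: the values `k = val - 2` have sum `n`, are
  `≥ 1` and none is `n - 3`, so at least two are `≥ 2`: `conc` with `l = 1, 1, 2, 2`, `L = 2`, `E = n - 6`.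
  If `|N j| = s ≥ 5`: `f j ≤ 2/3 - s/6 + 1/(n - s + 3)`, `2 |X| ≤ s - 2` if some valence is `≥ 4`
  (then `s < n`), and otherwise `s = n`, `f j = 1 - n/6`, `2 |X| ≤ n`.  For `n ≥ 15` all values
  `f j + a |X|` are `≤ -1/1000`: `s = 5`: `-1/6 + 1/13 + 1/14 + 1/1000 < -1/1000`; `s = 6`:
  `-1/3 + 1/12 + 2 a`; `7 ≤ s < n`: `2/3 - s/6 + 1/4 + (s - 2)/2 · (1/14 + 1/1000)`.
-/

namespace Pool.Agent.NNb

namespace Sys

variable {ι ν : Type} {n : ℕ}

open Classical in
/-- the charge sent by `i` to `j` at `x` -/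
private noncomputable def NO4_sig (S : Sys ι ν 4 n) (a : ℝ) (x : ν) (i j : ι) : ℝ :=
  if S.IsX j x ∧ i ≠ j then a / 2 else 0

/-- the node potential -/
private noncomputable def NO4_phi (S : Sys ι ν 4 n) (a : ℝ) (j : ι) (x : ν) : ℝ :=
  ∑ i ∈ S.tl x, (NO4_sig S a x i j - NO4_sig S a x j i)

private theorem NO4_sig_nonneg (S : Sys ι ν 4 n) {a : ℝ} (ha : 0 ≤ a) (x : ν) (i j : ι) :
    0 ≤ NO4_sig S a x i j := by
  unfold NO4_sig
  split_ifs
  · positivity
  · exact le_rfl

open Classical in
private theorem NO4_le (S : Sys ι ν 4 n) {a : ℝ} (ha : 0 ≤ a) (j : ι) (x : ν) :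
    NO4_phi S a j x ≤ if S.IsX j x then a else 0 := by
  unfold NO4_phi
  rw [Finset.sum_sub_distrib]
  have h2 : 0 ≤ ∑ i ∈ S.tl x, NO4_sig S a x j i :=
    Finset.sum_nonneg (fun i _ => NO4_sig_nonneg S ha x j i)
  split_ifs with hX
  · have hj : j ∈ S.tl x := (S.mem_tl j x).2 hX.1
    have hc : (S.tl x).card = 3 := hX.2.1
    have h1 : ∑ i ∈ S.tl x, NO4_sig S a x i j = a := by
      have h3 : ∑ i ∈ S.tl x, NO4_sig S a x i j = ∑ i ∈ (S.tl x).erase j, a / 2 := by
        rw [← Finset.add_sum_erase _ _ hj]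
        have h4 : NO4_sig S a x j j = 0 := by
          unfold NO4_sig
          rw [if_neg]
          exact fun h => h.2 rfl
        rw [h4, zero_add]
        refine Finset.sum_congr rfl (fun i hi => ?_)
        unfold NO4_sig
        rw [if_pos ⟨hX, Finset.ne_of_mem_erase hi⟩]
      rw [h3, Finset.sum_const, Finset.card_erase_of_mem hj, hc, nsmul_eq_mul]
      push_cast
      ring
    linarith
  · have h1 : ∑ i ∈ S.tl x, NO4_sig S a x i j = 0 := by
      apply Finset.sum_eq_zero
      intro i _
      unfold NO4_sig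
      rw [if_neg]
      exact fun h => hX h.1
    linarith

private theorem NO4_neg (S : Sys ι ν 4 n) (hn : 15 ≤ n) {a : ℝ} (ha : 0 ≤ a) {u j : ι} {x : ν}
    (hX : S.IsX u x) (huj : u ≠ j) : NO4_phi S a j x ≤ -(a / 2) := by
  classical
  unfold NO4_phi
  rw [Finset.sum_sub_distrib]
  have hnj : ¬ S.IsX j x := fun h => huj (S.isX_unique hn hX h)
  have h1 : ∑ i ∈ S.tl x, NO4_sig S a x i j = 0 := by
    apply Finset.sum_eq_zero
    intro i _
    unfold NO4_sig
    rw [if_neg]
    exact fun h => hnj h.1
  have h2 : NO4_sig S a x j u ≤ ∑ i ∈ S.tl x, NO4_sig S a x j i :=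
    Finset.single_le_sum (f := fun i => NO4_sig S a x j i)
      (fun i _ => NO4_sig_nonneg S ha x j i) ((S.mem_tl u x).2 hX.1)
  have h3 : NO4_sig S a x j u = a / 2 := by
    unfold NO4_sig
    rw [if_pos ⟨hX, Ne.symm huj⟩]
  linarith

open Classical in
private theorem NO4_sum (S : Sys ι ν 4 n) {a : ℝ} (ha : 0 ≤ a) (j : ι) :
    ∑ x ∈ S.N j, NO4_phi S a j x ≤ a * ((S.N j).filter (fun x => S.IsX j x)).card := by
  calc ∑ x ∈ S.N j, NO4_phi S a j x ≤ ∑ x ∈ S.N j, if S.IsX j x then a else 0 :=
        Finset.sum_le_sum (fun x _ => NO4_le S ha j x)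
    _ = a * ((S.N j).filter (fun x => S.IsX j x)).card := by
        rw [← Finset.sum_filter, Finset.sum_const, nsmul_eq_mul, mul_comm]

/-- a partner of a hub is an `X` node of a third tile -/
private theorem NO4_partner (S : Sys ι ν 4 n) (hn : 15 ≤ n) {j : ι} {g x : ν}
    (hg : S.val g + 1 = n) (hp : Part S.N j g x) : ∃ u, u ≠ j ∧ S.IsX u x := by
  classical
  obtain ⟨hgj, hxj, hgx, j', hj', hgj', hxj'⟩ := hp
  have hv : S.val x = 3 := (S.hub4_tile hn hgj hg).2 x hxj (Ne.symm hgx)
  have hc : (S.tl x).card = 3 := hv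
  obtain ⟨u, hu, hun⟩ := Finset.exists_mem_notMem_of_card_lt_card
    (show ({j, j'} : Finset ι).card < (S.tl x).card by
      rw [Finset.card_pair (Ne.symm hj'), hc]; norm_num)
  have huj : u ≠ j := by rintro rfl; simp at hun
  have huj' : u ≠ j' := by rintro rfl; simp at hun
  have hxu : x ∈ S.N u := (S.mem_tl u x).1 hu
  have hgu : g ∉ S.N u := by
    intro hgu
    rcases S.edge g x j j' u hgx hgj hxj hgj' hxj' hgu hxu with h | h | h
    · exact hj' h.symm
    · exact huj' h.symm
    · exact huj h.symm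
  refine ⟨u, huj, hxu, hv, g, hg, hgu, ?_⟩
  intro i hi hiu
  have hE : ({j, j', u} : Finset ι) = S.tl x := by
    apply Finset.eq_of_subset_of_card_le
    · intro b hb
      simp only [Finset.mem_insert, Finset.mem_singleton] at hb
      rcases hb with rfl | rfl | rfl
      · exact (S.mem_tl _ x).2 hxj
      · exact (S.mem_tl _ x).2 hxj'
      · exact hu
    · rw [hc, Finset.card_insert_of_notMem, Finset.card_pair (Ne.symm huj')]
      simp only [Finset.mem_insert, Finset.mem_singleton, not_or]
      exact ⟨Ne.symm hj', Ne.symm huj⟩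
  rw [← hE] at hi
  simp only [Finset.mem_insert, Finset.mem_singleton] at hi
  rcases hi with rfl | rfl | rfl
  · exact hgj
  · exact hgj'
  · exact absurd rfl hiu

/-- four nodes, no hub -/
private theorem NO4_four (S : Sys ι ν 4 n) (hn : 15 ≤ n) {j : ι} (hc : (S.N j).card = 4)
    (hub : ∀ x ∈ S.N j, S.val x + 1 ≠ n) : S.f j ≤ -(1 / 12) + 1 / ((n : ℝ) - 2) := by
  classical
  have hsum := S.sum_val j
  have hge : ∀ x ∈ S.N j, 1 ≤ S.val x - 2 := fun x hx => by
    have := S.val_ge hx
    omega
  have hex : ∃ p ∈ S.N j, ∃ q ∈ S.N j, p ≠ q ∧ 2 ≤ S.val p - 2 ∧ 2 ≤ S.val q - 2 := by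
    set F := (S.N j).filter (fun x => 2 ≤ S.val x - 2) with hF
    have hsplit := Finset.card_filter_add_card_filter_not (s := S.N j)
      (fun x => 2 ≤ S.val x - 2)
    have hs2 := Finset.sum_filter_add_sum_filter_not (S.N j)
      (fun x => 2 ≤ S.val x - 2) (fun x => S.val x - 2)
    have hs3 : ∑ x ∈ (S.N j).filter (fun x => ¬ 2 ≤ S.val x - 2), (S.val x - 2) =
        ((S.N j).filter (fun x => ¬ 2 ≤ S.val x - 2)).card := by
      rw [Finset.card_eq_sum_ones]
      refine Finset.sum_congr rfl (fun x hx => ?_)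
      obtain ⟨hx1, hx2⟩ := Finset.mem_filter.1 hx
      have := hge x hx1
      omega
    by_contra hno
    push Not at hno
    have hF1 : F.card ≤ 1 := by
      rw [Finset.card_le_one]
      intro p hp q hq
      by_contra hpq
      obtain ⟨hp1, hp2⟩ := Finset.mem_filter.1 hp
      obtain ⟨hq1, hq2⟩ := Finset.mem_filter.1 hq
      have := hno p hp1 q hq1 hpq hp2
      omega
    rcases Nat.lt_or_ge F.card 1 with h0 | h1
    · have h0' : F = ∅ := Finset.card_eq_zero.1 (by omega)
      rw [← hF, h0', Finset.sum_empty, hs3, hsum] at hs2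
      rw [← hF, h0', Finset.card_empty, hc] at hsplit
      omega
    · obtain ⟨p, hp⟩ := Finset.card_eq_one.1 (le_antisymm hF1 h1)
      rw [← hF, hp, Finset.sum_singleton, hs3, hsum] at hs2
      rw [← hF, hp, Finset.card_singleton, hc] at hsplit
      have hpj : p ∈ S.N j := by
        have : p ∈ F := by rw [hp]; simp
        exact (Finset.mem_filter.1 this).1
      have := hub p hpj
      have := S.val_ge hpj
      omega
  obtain ⟨p, hp, q, hq, hpq, hp2, hq2⟩ := hex
  have hsub : ({p, q} : Finset ν) ⊆ S.N j := by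
    intro b hb
    simp only [Finset.mem_insert, Finset.mem_singleton] at hb
    rcases hb with rfl | rfl
    · exact hp
    · exact hq
  have hfil : (S.N j).filter (fun x => x ∈ ({p, q} : Finset ν)) = {p, q} := by
    ext b
    rw [Finset.mem_filter]
    exact ⟨fun h => h.2, fun h => ⟨hsub h, h⟩⟩
  have hl : ∑ x ∈ S.N j, (if x ∈ ({p, q} : Finset ν) then 2 else 1) = 6 := by
    rw [Finset.sum_ite, hfil, Finset.sum_const, Finset.sum_const, Finset.card_pair hpq]
    have := Finset.card_filter_add_card_filter_not (s := S.N j)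
      (fun x => x ∈ ({p, q} : Finset ν))
    rw [hfil, Finset.card_pair hpq, hc] at this
    simp only [smul_eq_mul]
    omega
  have hphi : ∑ x ∈ S.N j, phi (if x ∈ ({p, q} : Finset ν) then 2 else 1) = 5 / 6 := by
    have h1 : ∀ x ∈ S.N j, phi (if x ∈ ({p, q} : Finset ν) then 2 else 1) =
        if x ∈ ({p, q} : Finset ν) then phi 2 else phi 1 := fun x _ => by
      split_ifs <;> rfl
    rw [Finset.sum_congr rfl h1, Finset.sum_ite, hfil, Finset.sum_const, Finset.sum_const,
      Finset.card_pair hpq]
    have := Finset.card_filter_add_card_filter_not (s := S.N j)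
      (fun x => x ∈ ({p, q} : Finset ν))
    rw [hfil, Finset.card_pair hpq, hc] at this
    have h2 : ((S.N j).filter (fun x => x ∉ ({p, q} : Finset ν))).card = 2 := by omega
    rw [h2, phi_eq, phi_eq]
    norm_num
  have hconc := conc (S.N j) (fun x => S.val x - 2)
    (fun x => if x ∈ ({p, q} : Finset ν) then 2 else 1) 2 (n - 6)
    (fun x hx => by
      have := hge x hx
      simp only [Finset.mem_insert, Finset.mem_singleton]
      split_ifs with h
      · rcases h with rfl | rfl
        · exact hp2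
        · exact hq2
      · exact this)
    (fun x _ => by
      split_ifs <;> norm_num)
    (by
      show ∑ x ∈ S.N j, (S.val x - 2) = _
      rw [hsum, hl]
      omega)
  rw [hphi, phi_eq (2 + (n - 6)), phi_eq 2] at hconc
  have hcast : (((2 + (n - 6) : ℕ) : ℝ)) + 2 = (n : ℝ) - 2 := by
    rw [Nat.cast_add, Nat.cast_sub (by omega)]
    push_cast
    ring
  rw [hcast] at hconc
  rw [S.f_eq j]
  norm_num at hconc ⊢
  linarith

theorem no4 (S : Sys ι ν 4 n) (hn : 15 ≤ n) : False := by
  classical
  have hn1 : (15 : ℝ) ≤ n := by exact_mod_cast hn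
  obtain ⟨a, ha⟩ : ∃ a : ℝ, a = 1 / ((n : ℝ) - 1) + 1 / 1000 := ⟨_, rfl⟩
  have h14 : 1 / ((n : ℝ) - 1) ≤ 1 / 14 := one_div_le_one_div_of_le (by norm_num) (by linarith)
  have hpos : 0 < 1 / ((n : ℝ) - 1) := one_div_pos.2 (by linarith)
  have ha0 : 0 < a := by rw [ha]; linarith
  have ha1 : a ≤ 1 / 14 + 1 / 1000 := by rw [ha]; linarith
  refine S.no_neg_f (φ := fun j x => NO4_phi S a j x) (S.ZS_of_pairs (NO4_sig S a))
    (S.Bdd_of_pairs (NO4_sig S a) (a / 2) ?_) (c := 1 / 1000) (by norm_num) ?_
  · intro x i j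
    unfold NO4_sig
    split_ifs
    · rw [abs_of_nonneg (by positivity)]
    · rw [abs_zero]; positivity
  intro j
  have hcard4 : 4 ≤ (S.N j).card := S.card_ge j
  have hsumX := NO4_sum S ha0.le j
  by_cases hub : ∃ g ∈ S.N j, S.val g + 1 = n
  · obtain ⟨g, hgj, hg⟩ := hub
    obtain ⟨hc, -⟩ := S.hub4_tile hn hgj hg
    obtain ⟨x1, x2, h12, p1, p2, -⟩ := S.part j g hgj
    have hnX : ∀ x, ¬ S.IsX j x := by
      intro x hX
      have := S.isX_card hn hX
      omega
    obtain ⟨u1, hu1, hX1⟩ := NO4_partner S hn hg p1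
    obtain ⟨u2, hu2, hX2⟩ := NO4_partner S hn hg p2
    have n1 := NO4_neg S hn ha0.le hX1 hu1
    have n2 := NO4_neg S hn ha0.le hX2 hu2
    have hf := S.f_le j (by omega)
    rw [hc] at hf
    have hsub : ({x1, x2} : Finset ν) ⊆ S.N j := by
      intro b hb
      simp only [Finset.mem_insert, Finset.mem_singleton] at hb
      rcases hb with rfl | rfl
      · exact p1.2.1
      · exact p2.2.1
    have h5 : ∑ x ∈ ({x1, x2} : Finset ν), (-(NO4_phi S a j x)) ≤
        ∑ x ∈ S.N j, (-(NO4_phi S a j x)) := by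
      apply Finset.sum_le_sum_of_subset_of_nonneg hsub
      intro x _ _
      have := NO4_le S ha0.le j x
      rw [if_neg (hnX x)] at this
      linarith
    rw [Finset.sum_pair h12, Finset.sum_neg_distrib] at h5
    have h6 : (n : ℝ) - ((4 : ℕ) : ℝ) + 3 = (n : ℝ) - 1 := by push_cast; ring
    rw [h6] at hf
    push_cast at hf
    show S.f j + ∑ x ∈ S.N j, NO4_phi S a j x ≤ -(1 / 1000)
    linarith
  · push Not at hub
    show S.f j + ∑ x ∈ S.N j, NO4_phi S a j x ≤ -(1 / 1000)
    rcases Nat.lt_or_ge (S.N j).card 5 with h5 | h5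
    · have hc : (S.N j).card = 4 := by omega
      have hX0 : ((S.N j).filter (fun x => S.IsX j x)).card = 0 := by
        rw [Finset.card_eq_zero, Finset.filter_eq_empty_iff]
        intro x _ hX
        have := S.isX_card hn hX
        omega
      rw [hX0, Nat.cast_zero, mul_zero] at hsumX
      have hf := NO4_four S hn hc hub
      have h13 : 1 / ((n : ℝ) - 2) ≤ 1 / 13 :=
        one_div_le_one_div_of_le (by norm_num) (by linarith)
      linarith
    · have hf := S.f_le j (by omega)
      have hval := S.sum_val j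
      have hcle := S.card_le j
      have hcleR : ((S.N j).card : ℝ) ≤ n := by exact_mod_cast hcle
      by_cases hw : ∃ w ∈ S.N j, 4 ≤ S.val w
      · obtain ⟨w, hwj, hw4⟩ := hw
        have hX2 := S.isX_count hn hwj hw4
        have hsn : (S.N j).card + 1 ≤ n := by
          have h1 : ∑ x ∈ S.N j, (1 + if x = w then 1 else 0) ≤ ∑ x ∈ S.N j, (S.val x - 2) := by
            refine Finset.sum_le_sum (fun x hx => ?_)
            have := S.val_ge hx
            split_ifs with h
            · subst h; omega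
            · omega
          rw [Finset.sum_add_distrib, Finset.sum_ite_eq' (S.N j) w, if_pos hwj, hval,
            Finset.sum_const, smul_eq_mul, mul_one] at h1
          exact h1
        have hsnR : ((S.N j).card : ℝ) + 1 ≤ n := by exact_mod_cast hsn
        set s := (S.N j).card with hs
        set X := ((S.N j).filter (fun x => S.IsX j x)).card with hX
        have hX2R : 2 * (X : ℝ) + 2 ≤ s := by exact_mod_cast hX2
        rcases Nat.lt_or_ge s 7 with h7 | h7
        · rcases Nat.lt_or_ge s 6 with h6 | h6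
          · have hs5 : s = 5 := by omega
            have hX1 : X ≤ 1 := by omega
            have hX1R : (X : ℝ) ≤ 1 := by exact_mod_cast hX1
            have h13 : 1 / ((n : ℝ) - s + 3) ≤ 1 / 13 := by
              apply one_div_le_one_div_of_le (by norm_num)
              rw [hs5]; push_cast; linarith
            have haX : a * X ≤ a := by nlinarith
            rw [hs5] at hf h13
            push_cast at hf h13
            linarith
          · have hs6 : s = 6 := by omega
            have hX1 : X ≤ 2 := by omega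
            have hX1R : (X : ℝ) ≤ 2 := by exact_mod_cast hX1
            have h13 : 1 / ((n : ℝ) - s + 3) ≤ 1 / 12 := by
              apply one_div_le_one_div_of_le (by norm_num)
              rw [hs6]; push_cast; linarith
            have haX : a * X ≤ a * 2 := by nlinarith
            rw [hs6] at hf h13
            push_cast at hf h13
            linarith
        · have h7R : (7 : ℝ) ≤ s := by exact_mod_cast h7
          have h13 : 1 / ((n : ℝ) - s + 3) ≤ 1 / 4 := by
            apply one_div_le_one_div_of_le (by norm_num)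
            linarith
          have haX : a * X ≤ (1 / 14 + 1 / 1000) * ((s - 2) / 2) := by
            apply mul_le_mul ha1 (by linarith) (by positivity) (by norm_num)
          linarith
      · push Not at hw
        have hsn : (S.N j).card = n := by
          refine Eq.trans ?_ hval
          rw [Finset.card_eq_sum_ones]
          refine Finset.sum_congr rfl (fun x hx => ?_)
          have h1 := S.val_ge hx
          have h2 := hw x hx
          omega
        have hX2 := S.isX_count' hn j
        set X := ((S.N j).filter (fun x => S.IsX j x)).card with hX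
        have hX2R : 2 * (X : ℝ) ≤ n := by
          rw [hsn] at hX2
          exact_mod_cast hX2
        rw [hsn] at hf
        have h3 : (n : ℝ) - n + 3 = 3 := by ring
        rw [h3] at hf
        have haX : a * X ≤ (1 / 14 + 1 / 1000) * (n / 2) := by
          apply mul_le_mul ha1 (by linarith) (by positivity) (by norm_num)
        linarith

end Sys

end Pool.Agent.NNb
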