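import Pool.Agent.NNb.FPhi
import Pool.Agent.NNb.Disch

/-!
Module NO5, SMALL.  Polygons with at least five corners; lower bound for `n`.

`no5`: every tile has `s ≥ 5` nodes; by `f_le` `f ≤ 2/3 - s/6 + 1/(n - s + 3)`, for `s = 5`:
`-1/6 + 1/(n-2) ≤ -1/6 + 1/13`; for `s = 6`: `-1/3 + 1/(n-3)`; for `s ≥ 7` (`s ≤ n`):
`≤ 1 - s/6 ≤ -1/6`.  Apply `no_neg_f'`.
`six_le`: `phi k ≤ k / 6` for `k ≥ 1` (valences are `≥ 3`), so `f ≥ 1 - n/6 > 0` if `n ≤ 5`; `no_pos_f'`.
-/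

namespace Pool.Agent.NNb

namespace Sys

variable {ι ν : Type} {m n : ℕ}

theorem no5 (S : Sys ι ν m n) (hm : 5 ≤ m) (hn : 15 ≤ n) : False := by
  apply S.no_neg_f' (c := 7 / 78) (by norm_num)
  intro i
  have h1 := S.card_ge i
  have h2 := S.card_le i
  have h3 := S.f_le i (by omega)
  have hnR : (15 : ℝ) ≤ n := by exact_mod_cast hn
  have hsn : ((S.N i).card : ℝ) ≤ n := by exact_mod_cast h2
  have hcases : (S.N i).card = 5 ∨ (S.N i).card = 6 ∨ 7 ≤ (S.N i).card := by omega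
  rcases hcases with h | h | h
  · rw [h] at h3
    have h4 : (1 : ℝ) / ((n : ℝ) - (5 : ℕ) + 3) ≤ 1 / 13 := by
      apply one_div_le_one_div_of_le (by norm_num)
      push_cast
      linarith
    push_cast at h3 h4
    linarith
  · rw [h] at h3
    have h4 : (1 : ℝ) / ((n : ℝ) - (6 : ℕ) + 3) ≤ 1 / 12 := by
      apply one_div_le_one_div_of_le (by norm_num)
      push_cast
      linarith
    push_cast at h3 h4
    linarith
  · have h7 : (7 : ℝ) ≤ (S.N i).card := by exact_mod_cast h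
    have h4 : (1 : ℝ) / ((n : ℝ) - (S.N i).card + 3) ≤ 1 / 3 := by
      apply one_div_le_one_div_of_le (by norm_num)
      linarith
    linarith

private theorem phi_le_sixth (k : ℕ) (hk : 1 ≤ k) : phi k ≤ (k : ℝ) / 6 := by
  unfold phi
  have hkR : (1 : ℝ) ≤ k := by exact_mod_cast hk
  rw [div_le_div_iff₀ (by linarith) (by norm_num)]
  nlinarith

theorem six_le (S : Sys ι ν m n) : 6 ≤ n := by
  by_contra hcon
  push Not at hcon
  apply S.no_pos_f' (c := 1 / 6) (by norm_num)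
  intro i
  rw [S.f_eq i]
  have h1 : ∑ x ∈ S.N i, phi (S.val x - 2) ≤ ∑ x ∈ S.N i, ((S.val x - 2 : ℕ) : ℝ) / 6 := by
    apply Finset.sum_le_sum
    intro x hx
    apply phi_le_sixth
    have := S.val_ge hx
    omega
  have h2 : ∑ x ∈ S.N i, ((S.val x - 2 : ℕ) : ℝ) / 6 = (n : ℝ) / 6 := by
    rw [← Finset.sum_div, ← Nat.cast_sum, S.sum_val i]
  have h3 : (n : ℝ) ≤ 5 := by exact_mod_cast (by omega : n ≤ 5)
  linarith

end Sys

end Pool.Agent.NNb
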