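import Pool.Agent.NNb.R90

/-!
Module R90GEN.  Right triangles with `θ 0 ≤ 2π/13`, `θ 0 ≠ π/8`, `θ 0 ≠ π/10`, `n ≥ 22`.

Write `κ = π / (2 θ 0) ≥ 13/4`; `θ 1 = (κ - 1) θ 0`, `θ 2 = κ θ 0`.  With `a, b, c = cnt 0, 1, 2 x`, `ang_cnt` becomes
`a + (κ - 1) b + κ c = 4 κ` (`fl = 0`) or `= 2 κ` (`fl = 1`), i.e. `a - b = κ (4 - b - c)` resp.
`a - b = κ (2 - b - c)`.
`gen_ge`: `b ≤ a`.  Suppose `a < b`.  `fl = 0`: `b + c ≥ 5`, `b ≥ b - a = κ (b + c - 4)`; `(κ - 1) b ≤ 4 κ`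
and `κ ≥ 13/4` give `b ≤ 4κ/(κ-1) ≤ 52/9 < 6`, so `b ≤ 5`, `b + c = 5` (as `2 κ > 5`), `κ = b - a` is an
integer `≤ 5`, `≥ 13/4`: `κ = 4` or `5`, excluded (`θ 0 = π/(2κ)`).  `fl = 1`: `b + c ≥ 3`, `b ≥ κ > 3`, but
`(κ - 1) b ≤ 2 κ` gives `b ≤ 2κ/(κ-1) < 3`.
`gen_gt`: if `val x ≥ 9` then `b < a`: if `a = b` then `b + c = 4` and `val = a + b + c ≤ 8`, resp. `b + c = 2`,
`val ≤ 5`.
`r90_gen`: take `lam = 2 (n + 1)`.  `D(i) = ∑ (a - b)/val ≥ 0`, and if some node of `i` has valence `≥ 9` then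
`D(i) ≥ 1/(n + 1)` (`val_le`), so `1 - ∑ cost = f - lam D ≤ 1 - 2 = -1` (`f ≤ 1`).  Otherwise
`1 - ∑ cost ≤ f ≤ -1/30` (`r90_f12`).  `no_neg_cost'`.
-/

namespace Pool.Agent.NNb

namespace Sys3

variable {ι : Type} {n : ℕ} (S : Sys3 ι n)

/-- the equation with `κ = π / (2 θ 0)` -/
private theorem R90GEN_eq (h2 : S.θ 2 = Real.pi / 2) (h0 : S.θ 0 ≤ 2 * Real.pi / 13) {i : ι}
    {x : ℂ} (hx : x ∈ S.N i) : ∃ K : ℝ, 13 / 4 ≤ K ∧ 2 * (K * S.θ 0) = Real.pi ∧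
      (S.cnt 0 x : ℝ) + (K - 1) * S.cnt 1 x + K * S.cnt 2 x + 2 * K * S.fl x = 4 * K := by
  have hp := S.θ_pos 0
  have hs := S.θ_sum
  have hc := S.ang_cnt hx
  refine ⟨Real.pi / (2 * S.θ 0), ?_, ?_, ?_⟩
  · rw [le_div_iff₀ (by positivity)]
    linarith
  · field_simp
  · have h1 : S.θ 1 = Real.pi / 2 - S.θ 0 := by linarith
    rw [h1, h2] at hc
    have hne : S.θ 0 ≠ 0 := hp.ne'
    have key : ((S.cnt 0 x : ℝ) + (Real.pi / (2 * S.θ 0) - 1) * S.cnt 1 x +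
        Real.pi / (2 * S.θ 0) * S.cnt 2 x + 2 * (Real.pi / (2 * S.θ 0)) * S.fl x) * S.θ 0 =
        4 * (Real.pi / (2 * S.θ 0)) * S.θ 0 := by
      have e1 : ((S.cnt 0 x : ℝ) + (Real.pi / (2 * S.θ 0) - 1) * S.cnt 1 x +
        Real.pi / (2 * S.θ 0) * S.cnt 2 x + 2 * (Real.pi / (2 * S.θ 0)) * S.fl x) * S.θ 0 =
        (S.cnt 0 x : ℝ) * S.θ 0 + S.cnt 1 x * (Real.pi / 2 - S.θ 0) + S.cnt 2 x * (Real.pi / 2) +
        S.fl x * Real.pi := by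
        field_simp
      rw [e1, hc]
      field_simp
      ring
    exact mul_right_cancel₀ hne key

theorem gen_ge (h2 : S.θ 2 = Real.pi / 2) (h0 : S.θ 0 ≤ 2 * Real.pi / 13)
    (h8 : S.θ 0 ≠ Real.pi / 8) (h10 : S.θ 0 ≠ Real.pi / 10) {i : ι} {x : ℂ} (hx : x ∈ S.N i) :
    S.cnt 1 x ≤ S.cnt 0 x := by
  obtain ⟨K, hK, hK2, he⟩ := R90GEN_eq S h2 h0 hx
  have hf := S.fl_le hx
  by_contra hlt
  push Not at hlt
  have hlt' : (S.cnt 0 x : ℝ) + 1 ≤ S.cnt 1 x := by exact_mod_cast hlt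
  have ha0 : (0 : ℝ) ≤ S.cnt 0 x := Nat.cast_nonneg _
  have hb0 : (0 : ℝ) ≤ S.cnt 1 x := Nat.cast_nonneg _
  have hc0 : (0 : ℝ) ≤ S.cnt 2 x := Nat.cast_nonneg _
  rcases (by omega : S.fl x = 0 ∨ S.fl x = 1) with hf0 | hf1
  · rw [hf0] at he
    simp only [Nat.cast_zero, mul_zero, add_zero] at he
    -- b ≤ 5
    have hb5 : S.cnt 1 x ≤ 5 := by
      by_contra hcon
      push Not at hcon
      have h6 : (6 : ℝ) ≤ S.cnt 1 x := by exact_mod_cast hcon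
      nlinarith
    -- b + c ≥ 5
    have hbc : 5 ≤ S.cnt 1 x + S.cnt 2 x := by
      by_contra hcon
      push Not at hcon
      have h4 : (S.cnt 1 x : ℝ) + S.cnt 2 x ≤ 4 := by
        have : S.cnt 1 x + S.cnt 2 x ≤ 4 := by omega
        exact_mod_cast this
      nlinarith
    have hbc' : S.cnt 1 x + S.cnt 2 x ≤ 5 := by
      by_contra hcon
      push Not at hcon
      have h6 : (6 : ℝ) ≤ S.cnt 1 x + S.cnt 2 x := by exact_mod_cast hcon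
      have h5 : (S.cnt 1 x : ℝ) ≤ 5 := by exact_mod_cast hb5
      nlinarith
    have hbc5 : (S.cnt 1 x : ℝ) + S.cnt 2 x = 5 := by
      have : S.cnt 1 x + S.cnt 2 x = 5 := by omega
      exact_mod_cast this
    have hKe : K = (S.cnt 1 x : ℝ) - S.cnt 0 x := by
      have : (S.cnt 2 x : ℝ) = 5 - S.cnt 1 x := by linarith
      rw [this] at he
      linarith
    have hd : S.cnt 1 x = S.cnt 0 x + (S.cnt 1 x - S.cnt 0 x) := by omega
    have hKn : K = ((S.cnt 1 x - S.cnt 0 x : ℕ) : ℝ) := by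
      rw [Nat.cast_sub hlt.le]; exact hKe
    have hdle : S.cnt 1 x - S.cnt 0 x ≤ 5 := by omega
    have hdge : 4 ≤ S.cnt 1 x - S.cnt 0 x := by
      by_contra hcon
      push Not at hcon
      have : ((S.cnt 1 x - S.cnt 0 x : ℕ) : ℝ) ≤ 3 := by
        have : S.cnt 1 x - S.cnt 0 x ≤ 3 := by omega
        exact_mod_cast this
      rw [← hKn] at this
      linarith
    rcases (by omega : S.cnt 1 x - S.cnt 0 x = 4 ∨ S.cnt 1 x - S.cnt 0 x = 5) with h | h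
    · rw [h] at hKn
      apply h8
      rw [hKn] at hK2
      push_cast at hK2
      linarith
    · rw [h] at hKn
      apply h10
      rw [hKn] at hK2
      push_cast at hK2
      linarith
  · rw [hf1] at he
    simp only [Nat.cast_one, mul_one] at he
    have hb2 : S.cnt 1 x ≤ 2 := by
      by_contra hcon
      push Not at hcon
      have h3 : (3 : ℝ) ≤ S.cnt 1 x := by exact_mod_cast hcon
      nlinarith
    have hb2' : (S.cnt 1 x : ℝ) ≤ 2 := by exact_mod_cast hb2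
    have hbc : 3 ≤ S.cnt 1 x + S.cnt 2 x := by
      by_contra hcon
      push Not at hcon
      have h4 : (S.cnt 1 x : ℝ) + S.cnt 2 x ≤ 2 := by
        have : S.cnt 1 x + S.cnt 2 x ≤ 2 := by omega
        exact_mod_cast this
      nlinarith
    have hbc' : (3 : ℝ) ≤ S.cnt 1 x + S.cnt 2 x := by exact_mod_cast hbc
    nlinarith

theorem gen_gt (h2 : S.θ 2 = Real.pi / 2) (h0 : S.θ 0 ≤ 2 * Real.pi / 13)
    (h8 : S.θ 0 ≠ Real.pi / 8) (h10 : S.θ 0 ≠ Real.pi / 10) {i : ι} {x : ℂ} (hx : x ∈ S.N i)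
    (hv : 9 ≤ S.val x) : S.cnt 1 x < S.cnt 0 x := by
  have hge := gen_ge S h2 h0 h8 h10 hx
  obtain ⟨K, hK, hK2, he⟩ := R90GEN_eq S h2 h0 hx
  have hf := S.fl_le hx
  rw [S.val_cnt] at hv
  rcases hge.lt_or_eq with h | h
  · exact h
  · exfalso
    have h' : (S.cnt 1 x : ℝ) = S.cnt 0 x := by exact_mod_cast h
    have hKpos : 0 < K := by linarith
    have e1 : K * ((S.cnt 1 x : ℝ) + S.cnt 2 x + 2 * S.fl x) = K * 4 := by
      rw [← h'] at he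
      linarith
    have e2 : (S.cnt 1 x : ℝ) + S.cnt 2 x + 2 * S.fl x = 4 := mul_left_cancel₀ hKpos.ne' e1
    have e3 : S.cnt 1 x + S.cnt 2 x + 2 * S.fl x = 4 := by exact_mod_cast e2
    omega

theorem r90_gen (hn : 22 ≤ n) (h2 : S.θ 2 = Real.pi / 2) (h0 : S.θ 0 ≤ 2 * Real.pi / 13)
    (h8 : S.θ 0 ≠ Real.pi / 8) (h10 : S.θ 0 ≠ Real.pi / 10) : False := by
  apply S.no_neg_cost' (2 * ((n : ℝ) + 1)) (c := 1 / 30) (by norm_num)
  intro i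
  have hterm : ∀ x ∈ S.N i, 0 ≤ ((S.cnt 0 x : ℝ) - S.cnt 1 x) / S.val x := by
    intro x hx
    have h1 : (S.cnt 1 x : ℝ) ≤ S.cnt 0 x := by exact_mod_cast gen_ge S h2 h0 h8 h10 hx
    exact div_nonneg (by linarith) (Nat.cast_nonneg _)
  have hsplit : 1 - ∑ x ∈ S.N i, S.cost (2 * ((n : ℝ) + 1)) x =
      S.f i - 2 * ((n : ℝ) + 1) * ∑ x ∈ S.N i, ((S.cnt 0 x : ℝ) - S.cnt 1 x) / S.val x := by
    unfold cost
    rw [Finset.sum_add_distrib, ← Finset.mul_sum, S.f_eq i]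
    ring
  have hD : 0 ≤ ∑ x ∈ S.N i, ((S.cnt 0 x : ℝ) - S.cnt 1 x) / S.val x := Finset.sum_nonneg hterm
  have hn0 : (0 : ℝ) ≤ n := Nat.cast_nonneg _
  rw [hsplit]
  by_cases h9 : ∃ x ∈ S.N i, 9 ≤ S.val x
  · obtain ⟨x, hx, hv⟩ := h9
    have hlt : (S.cnt 1 x : ℝ) + 1 ≤ S.cnt 0 x := by
      exact_mod_cast gen_gt S h2 h0 h8 h10 hx hv
    have hvle : (S.val x : ℝ) ≤ n + 1 := by exact_mod_cast S.val_le hx
    have hvpos : (0 : ℝ) < S.val x := by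
      have : 0 < S.val x := by omega
      exact_mod_cast this
    have h1 : 1 / ((n : ℝ) + 1) ≤ ((S.cnt 0 x : ℝ) - S.cnt 1 x) / S.val x := by
      rw [div_le_div_iff₀ (by positivity) hvpos]
      nlinarith
    have h3 : 1 / ((n : ℝ) + 1) ≤ ∑ x ∈ S.N i, ((S.cnt 0 x : ℝ) - S.cnt 1 x) / S.val x :=
      h1.trans (Finset.single_le_sum hterm hx)
    have h4 : 2 ≤ 2 * ((n : ℝ) + 1) * ∑ x ∈ S.N i, ((S.cnt 0 x : ℝ) - S.cnt 1 x) / S.val x := by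
      have h5 : 2 * ((n : ℝ) + 1) * (1 / ((n : ℝ) + 1)) = 2 := by field_simp
      have h6 := mul_le_mul_of_nonneg_left h3 (by positivity : (0 : ℝ) ≤ 2 * ((n : ℝ) + 1))
      linarith
    have hf1 : S.f i ≤ 1 := by
      unfold Sys.f
      have : 0 ≤ ∑ x ∈ S.N i, (1 / 2 - 1 / (S.val x : ℝ)) := by
        apply Finset.sum_nonneg
        intro y hy
        have h3v : (3 : ℝ) ≤ S.val y := by exact_mod_cast S.val_ge hy
        have : 1 / (S.val y : ℝ) ≤ 1 / 2 := by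
          apply one_div_le_one_div_of_le (by norm_num)
          linarith
        linarith
      linarith
    linarith
  · push Not at h9
    have hf := S.r90_f12 hn h2 i (fun x hx => by have := h9 x hx; omega)
    have : 0 ≤ 2 * ((n : ℝ) + 1) * ∑ x ∈ S.N i, ((S.cnt 0 x : ℝ) - S.cnt 1 x) / S.val x :=
      mul_nonneg (by positivity) hD
    linarith

end Sys3

end Pool.Agent.NNb
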