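import Pool.Agent.NNb.Pair

/-!
Module TRANS.  From the Euclidean plane to `ℂ`.

Proof.  `Complex.orthonormalBasisOneI.repr : ℂ ≃ₗᵢ[ℝ] EuclideanSpace ℝ (Fin 2)`; let `Φ` be its
inverse, a linear isometry equivalence from `Plane` to `ℂ`.  Put `P' = Φ '' P`, `T' i = Φ '' T i`.
Homeomorphisms commute with `interior` and `frontier`, linear maps with `convexHull`; congruences
are conjugated by `Φ`.  Neighbours: for `i ≠ j` the interiors of `T' i`, `T' j` are disjoint, so
(`pair_int`) `T' i ∩ T' j` is contained in both frontiers; conversely frontiers are contained in the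
closed sets.  Hence the sets of neighbours are the same.
-/

namespace Pool.Agent.NNb

open Set in
theorem exists_ctil {n : ℕ} (h : KEqOne n) : ∃ (ι : Type), Nonempty (CTil ι n) := by
  obtain ⟨P, ⟨⟨V, hV, hPV⟩, hint⟩, ι, T, hT, hN, hiso⟩ := h
  let Φ : Plane ≃ₗᵢ[ℝ] ℂ := Complex.orthonormalBasisOneI.repr.symm
  have himg_int : ∀ S : Set Plane, interior (Φ '' S) = Φ '' interior S := fun S =>
    (Φ.toHomeomorph.image_interior S).symm
  have hpoly : IsPoly (Φ '' P) := by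
    refine ⟨⟨Φ '' V, hV.image _, ?_⟩, ?_⟩
    · rw [hPV]
      exact LinearMap.image_convexHull (Φ.toLinearEquiv : Plane →ₗ[ℝ] ℂ) V
    · rw [himg_int]
      exact hint.image _
  have hiso' : ∀ i, ∃ e : ℂ ≃ᵢ ℂ, Φ '' T i = e '' (Φ '' P) := by
    intro i
    obtain ⟨e, he⟩ := hiso i
    refine ⟨(Φ.symm.toIsometryEquiv.trans e).trans Φ.toIsometryEquiv, ?_⟩
    rw [he]
    ext z
    constructor
    · rintro ⟨w, ⟨p, hp, rfl⟩, rfl⟩
      refine ⟨Φ p, ⟨p, hp, rfl⟩, ?_⟩
      simp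
    · rintro ⟨w, ⟨p, hp, rfl⟩, rfl⟩
      refine ⟨e p, ⟨p, hp, rfl⟩, ?_⟩
      simp
  have hpolyT : ∀ i, IsPoly (Φ '' T i) := by
    intro i
    obtain ⟨e, he⟩ := hiso' i
    rw [he]
    exact hpoly.image e
  have hdisj : ∀ i j, i ≠ j → Disjoint (interior (Φ '' T i)) (interior (Φ '' T j)) := by
    intro i j hij
    rw [himg_int, himg_int]
    exact (Set.disjoint_image_iff Φ.injective).mpr (hT.disj i j hij)
  refine ⟨ι, ⟨{ P := Φ '' P, T := fun i => Φ '' T i, poly := hpoly, iso := hiso', cover := ?_, disj := hdisj, nbn := ?_ }⟩⟩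
  · intro z
    have : Φ.symm z ∈ ⋃ i, T i := by rw [hT.cover]; trivial
    obtain ⟨i, hi⟩ := Set.mem_iUnion.mp this
    exact ⟨i, Φ.symm z, hi, by simp⟩
  · intro i
    rw [← hN i]
    congr 1
    ext j
    constructor
    · rintro ⟨hji, z, ⟨x, hx, rfl⟩, y, hy, hxy⟩
      have hyx : y = x := Φ.injective hxy
      subst hyx
      refine ⟨Ne.symm hji, y, ?_, ?_⟩
      · rw [(hT.closed i).frontier_eq]
        refine ⟨hx, ?_⟩
        intro hyi
        have h1 : Φ y ∈ interior (Φ '' T i) := by rw [himg_int]; exact ⟨y, hyi, rfl⟩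
        exact Set.disjoint_left.mp (pair_int (hpolyT i) (hpolyT j) (hdisj i j (Ne.symm hji))) h1 ⟨y, hy, rfl⟩
      · rw [(hT.closed j).frontier_eq]
        refine ⟨hy, ?_⟩
        intro hyi
        have h1 : Φ y ∈ interior (Φ '' T j) := by rw [himg_int]; exact ⟨y, hyi, rfl⟩
        exact Set.disjoint_left.mp (pair_int (hpolyT j) (hpolyT i) (hdisj j i hji)) h1 ⟨y, hx, rfl⟩
    · rintro ⟨hij, z, hz1, hz2⟩
      refine ⟨Ne.symm hij, Φ z, ⟨z, ?_, rfl⟩, ⟨z, ?_, rfl⟩⟩
      · exact (hT.closed i).frontier_subset hz1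
      · exact (hT.closed j).frontier_subset hz2

end Pool.Agent.NNb
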