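import Pool.Agent.NNb.Sys3Mk
import Pool.Agent.NNb.Transfer
import Pool.Agent.NNb.No5
import Pool.Agent.NNb.No4
import Pool.Agent.NNb.Cls1
import Pool.Agent.NNb.R90Gen
import Pool.Agent.NNb.K4
import Pool.Agent.NNb.K5Big
import Pool.Agent.NNb.K5N22

/-!
The main theorem (final, nothing to prove here).
-/

namespace Pool.Agent.NNb

theorem Sys3.bound {ι : Type} {n : ℕ} (S : Sys3 ι n) : n ≤ 21 := by
  by_contra hlt
  have hn : 22 ≤ n := by omega
  by_cases h1 : S.θ 2 = 2 * Real.pi / 3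
  · exact S.cls2 hn h1
  by_cases h2 : S.θ 2 = Real.pi / 2
  · rcases lt_or_ge (2 * Real.pi / 13) (S.θ 0) with h | h
    · exact S.r90_small hn h2 h
    by_cases h8 : S.θ 0 = Real.pi / 8
    · exact S.r90_k4 hn h2 h8
    by_cases h10 : S.θ 0 = Real.pi / 10
    · rcases Nat.lt_or_ge n 24 with hl | hl
      · rcases Nat.lt_or_ge n 23 with hm | hm
        · exact S.r90_k5_22 (by omega) h2 h10
        · exact S.r90_k5_23 (by omega) h2 h10
      · exact S.r90_k5_24 hl h2 h10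
    · exact S.r90_gen hn h2 h h8 h10
  · exact S.cls1 hn h1 h2

theorem CTil.bound {ι : Type} {n : ℕ} (t : CTil ι n) : 6 ≤ n ∧ n ≤ 21 := by
  refine ⟨(t.toSys t.m rfl).six_le, ?_⟩
  by_contra hlt
  have hn : 22 ≤ n := by omega
  have h3 := t.three_le_m
  rcases Nat.lt_or_ge t.m 4 with h | h
  · have hm : t.m = 3 := by omega
    obtain ⟨S⟩ := t.exists_sys3 hm
    have := S.bound
    omega
  · rcases Nat.lt_or_ge t.m 5 with h' | h'
    · have hm : t.m = 4 := by omega
      exact (t.toSys 4 hm).no4 (by omega)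
    · exact (t.toSys t.m rfl).no5 h' (by omega)

theorem keqone_bound (n : ℕ) (h : KEqOne n) : 6 ≤ n ∧ n ≤ 21 := by
  obtain ⟨ι, ⟨t⟩⟩ := exists_ctil h
  exact t.bound

end Pool.Agent.NNb
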