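import Pool.Agent.NNb.Main
import Pool.Agent.NNb.Cls1U
import Pool.Agent.NNb.Cls2U
import Pool.Agent.NNb.Cls3U

/-!
The main theorem, second form (final, nothing to prove here).
-/

namespace Pool.Agent.NNb

theorem Sys3.boundU {ι : Type} {n : ℕ} (S : Sys3 ι n) : ¬ (17 ≤ n ∧ n ≤ 20) := by
  rintro ⟨hn, hn'⟩
  by_cases h1 : S.θ 2 = 2 * Real.pi / 3
  · exact S.cls2U hn hn' h1
  by_cases h2 : S.θ 2 = Real.pi / 2
  · exact S.cls3U hn hn' h2
  · exact S.cls1U hn hn' h1 h2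

theorem CTil.boundU {ι : Type} {n : ℕ} (t : CTil ι n) : ¬ (17 ≤ n ∧ n ≤ 20) := by
  rintro ⟨hn, hn'⟩
  have h3 := t.three_le_m
  rcases Nat.lt_or_ge t.m 4 with h | h
  · have hm : t.m = 3 := by omega
    obtain ⟨S⟩ := t.exists_sys3 hm
    exact S.boundU ⟨hn, hn'⟩
  · rcases Nat.lt_or_ge t.m 5 with h' | h'
    · have hm : t.m = 4 := by omega
      exact (t.toSys 4 hm).no4 (by omega)
    · exact (t.toSys t.m rfl).no5 h' (by omega)

theorem keqone_bound2 (n : ℕ) (h : KEqOne n) : (6 ≤ n ∧ n ≤ 16) ∨ n = 21 := by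
  obtain ⟨ι, ⟨t⟩⟩ := exists_ctil h
  have h1 := t.bound
  have h2 := t.boundU
  omega

end Pool.Agent.NNb
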