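import Pool.Agent.NNb.Hub3
import Pool.Agent.NNb.TriS

/-!
Module NV2.  Right triangles: two local facts at a node `p` of valence `n - 2`.

`hub_gamma`: `p = lab G 2`, by `hub3` `|N G| = 3` and `z := lab G 1` has valence 4; `N1 ≠ G` contains `p` and `z`,
and `p = lab N1 0`.  `p, z` are partners on `N1` (definition of `Part`), so by `part_corner`
`z ∈ segment p (lab N1 l)` with `l = 1` or `2`.  `dist p z = ρ sin (θ 0)` (`side` for `G`), while
`dist p (lab N1 1) = ρ sin (θ 2) = ρ` and `dist p (lab N1 2) = ρ sin (θ 1)` are larger (`θ 0 < θ 1 < π/2`).  So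
`z ≠ lab N1 l`, `z ≠ p`, and it is not the third corner (`corner_not_side`): `z ∉ C N1`.  The nodes
`lab N1 1`, `lab N1 2`, `z` of `N1` have `∑ (val - 2) ≥ 2 + 1 + 2 > 4` (`r90_four`): contradiction to
`sum_val` (`val p = n - 2`).

`hub_beta` (`2 sin (θ 0) < sin (θ 1)`): `p = lab H 1`; `q` is a partner of `p` on `H` with
`q ∈ segment p (lab H 2)`; `N1 ≠ H` contains `p, q`, `p = lab N1 0`.
(1) `dist p q ≤ ρ sin (θ 0)`, so as before `q ∈ segment p (lab N1 l)`, `l ∈ {1, 2}`, `q ∉ C N1`.  By `sum_val` the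
nodes `lab N1 1` (`k ≥ 2`), `lab N1 2` (`k ≥ 1`), `q` (`k ≥ 1`) give exactly `4`: `val q = 3`, `N N1` consists of
`p, lab N1 1, lab N1 2, q` only.
(2) `r90_three`: `cnt 2 q = 2`, `fl q = 1`.  `N1` is the tile which is flat at `q`, so `q ∈ C H` and
`q = lab H 2` (`cnt 0 q = cnt 1 q = 0`).  `tl q = {H, N1, V}` with `lab V 2 = q`.
(3) `link3` at `q`: `r ≠ q` common to `H` and `V`, `s ≠ q` common to `N1` and `V`, `p` common to `H` and `N1`.
`s` is a partner of `q` on `N1`, `s ≠ p`, so `s ∈ segment q (lab N1 l)` (`part_flat_two`, `flat_side`) and `s` is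
one of the four nodes of `N1`, so `s = lab N1 l`; `dist q s = dist p (lab N1 l) - dist p q ≥
ρ sin (θ 1) - ρ sin (θ 0) > ρ sin (θ 0)`.
(4) `r, s` are the two partners of `q = lab V 2` on `V`: by `part_corner`, `part_corner_two` one of them is
in `segment q (lab V 0)`, the other one in `segment q (lab V 1)`; the latter has length `ρ sin (θ 0) < dist q s`,
so `r ∈ segment q (lab V 1)`, `dist q r ≤ ρ sin (θ 0)`.
(5) `r` is a partner of `q = lab H 2` on `H`, different from `p`, which is on the side to `lab H 1`; so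
`r ∈ segment q (lab H 0)` (`part_corner`, `part_corner_two`), of length `ρ sin (θ 1) > dist q r`, so
`r ∉ C H`.  `H` has the nodes `lab H 0` (`k ≥ 2`), `q` (`k = 1`), `r` (`k ≥ 1`) besides `p`: so `val r = 3`
(`sum_val`), `fl r = 1` and `H` is the flat tile at `r` (`r90_three`); so `r ∈ C V`, `r = lab V 2`
(`cnt 0 r = cnt 1 r = 0`).  But `lab V 2 = q ≠ r`.  Contradiction.
-/

namespace Pool.Agent.NNb

namespace Sys

variable {ι ν : Type} {m n : ℕ} (S : Sys ι ν m n)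

theorem NV2_sum4 {i : ι} {a b c d : ν} (ha : a ∈ S.N i) (hb : b ∈ S.N i) (hc : c ∈ S.N i)
    (hd : d ∈ S.N i) (hab : a ≠ b) (hac : a ≠ c) (had : a ≠ d) (hbc : b ≠ c) (hbd : b ≠ d)
    (hcd : c ≠ d) :
    (S.val a - 2) + (S.val b - 2) + (S.val c - 2) + (S.val d - 2) ≤ n := by
  classical
  have h := S.sum_val i
  have hs : ({a, b, c, d} : Finset ν) ⊆ S.N i := by
    intro x hx
    simp only [Finset.mem_insert, Finset.mem_singleton] at hx
    rcases hx with rfl | rfl | rfl | rfl <;> assumption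
  have h2 := Finset.sum_le_sum_of_subset (f := fun x => S.val x - 2) hs
  rw [h] at h2
  rw [Finset.sum_insert (by simp [hab, hac, had]), Finset.sum_insert (by simp [hbc, hbd]),
    Finset.sum_insert (by simp [hcd]), Finset.sum_singleton] at h2
  omega

theorem NV2_sum5 {i : ι} {a b c d e : ν} (ha : a ∈ S.N i) (hb : b ∈ S.N i) (hc : c ∈ S.N i)
    (hd : d ∈ S.N i) (he : e ∈ S.N i) (hab : a ≠ b) (hac : a ≠ c) (had : a ≠ d) (hae : a ≠ e)
    (hbc : b ≠ c) (hbd : b ≠ d) (hbe : b ≠ e) (hcd : c ≠ d) (hce : c ≠ e) (hde : d ≠ e) :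
    (S.val a - 2) + (S.val b - 2) + (S.val c - 2) + (S.val d - 2) + (S.val e - 2) ≤ n := by
  classical
  have h := S.sum_val i
  have hs : ({a, b, c, d, e} : Finset ν) ⊆ S.N i := by
    intro x hx
    simp only [Finset.mem_insert, Finset.mem_singleton] at hx
    rcases hx with rfl | rfl | rfl | rfl | rfl <;> assumption
  have h2 := Finset.sum_le_sum_of_subset (f := fun x => S.val x - 2) hs
  rw [h] at h2
  rw [Finset.sum_insert (by simp [hab, hac, had, hae]),
    Finset.sum_insert (by simp [hbc, hbd, hbe]),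
    Finset.sum_insert (by simp [hcd, hce]), Finset.sum_insert (by simp [hde]),
    Finset.sum_singleton] at h2
  omega

/-- the third tile at a 3-valent node -/
theorem NV2_third {x : ν} {i j : ι} (hv : S.val x = 3) (hij : i ≠ j) (hi : x ∈ S.N i)
    (hj : x ∈ S.N j) : ∃ k, k ≠ i ∧ k ≠ j ∧ x ∈ S.N k := by
  classical
  have hsub : ({i, j} : Finset ι) ⊆ S.tl x := by
    intro l hl
    simp only [Finset.mem_insert, Finset.mem_singleton] at hl
    rw [S.mem_tl]
    rcases hl with rfl | rfl <;> assumption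
  have hcard : ({i, j} : Finset ι).card = 2 := Finset.card_pair hij
  have hlt : 0 < (S.tl x \ {i, j}).card := by
    rw [Finset.card_sdiff_of_subset hsub, hcard]
    have : (S.tl x).card = 3 := hv
    omega
  obtain ⟨k, hk⟩ := Finset.card_pos.1 hlt
  rw [Finset.mem_sdiff, S.mem_tl] at hk
  simp only [Finset.mem_insert, Finset.mem_singleton, not_or] at hk
  exact ⟨k, hk.2.1, hk.2.2, hk.1⟩

end Sys

namespace Sys3

variable {ι : Type} {n : ℕ} (S : Sys3 ι n)

/-- at most one tile is flat at a node -/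
theorem NV2_flat {x : ℂ} {i j : ι} (hi : x ∈ S.N i) (hj : x ∈ S.N j) (hic : x ∉ S.C i)
    (hij : j ≠ i) : x ∈ S.C j := by
  classical
  by_contra hjc
  have h := S.fl_le hi
  unfold fl at h
  have h2 := Finset.card_le_one.1 h i
    (Finset.mem_filter.2 ⟨(S.mem_tl i x).2 hi, hic⟩) j
    (Finset.mem_filter.2 ⟨(S.mem_tl j x).2 hj, hjc⟩)
  exact hij h2.symm

/-- a corner of valence 3 has the label 2 -/
theorem NV2_lab2 (h2 : S.θ 2 = Real.pi / 2) {x : ℂ} {j : ι} (hv : S.val x = 3) (hj : x ∈ S.C j) :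
    x = S.lab j 2 := by
  have h := S.r90_three h2 (S.C_sub j hj) hv
  rcases (S.C_eq j x).1 hj with e | e | e
  · exfalso
    have := S.cnt_pos j 0
    rw [← e] at this
    omega
  · exfalso
    have := S.cnt_pos j 1
    rw [← e] at this
    omega
  · exact e

theorem NV2_dist {a b x : ℂ} (h : x ∈ segment ℝ a b) : dist a x + dist x b = dist a b :=
  dist_add_dist_of_mem_segment h

theorem NV2_dist_lt {a b x : ℂ} (h : x ∈ segment ℝ a b) (hx : x ≠ b) : dist a x < dist a b := by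
  have h1 := dist_add_dist_of_mem_segment h
  have h2 := dist_pos.2 hx
  linarith

theorem NV2_dist_le {a b x : ℂ} (h : x ∈ segment ℝ a b) : dist a x ≤ dist a b := by
  have h1 := dist_add_dist_of_mem_segment h
  have h2 := dist_nonneg (x := x) (y := b)
  linarith

theorem NV2_sin2 (h2 : S.θ 2 = Real.pi / 2) : Real.sin (S.θ 2) = 1 := by
  rw [h2, Real.sin_pi_div_two]

theorem NV2_sin01 (h2 : S.θ 2 = Real.pi / 2) (h01 : S.θ 0 < S.θ 1) :
    Real.sin (S.θ 0) < Real.sin (S.θ 1) := by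
  have h0 := S.θ_pos 0
  have h1 := S.θ_pos 1
  have hs := S.θ_sum
  apply Real.sin_lt_sin_of_lt_of_le_pi_div_two <;> linarith [Real.pi_pos]

theorem NV2_sin1 (h2 : S.θ 2 = Real.pi / 2) : Real.sin (S.θ 1) < 1 := by
  have h0 := S.θ_pos 0
  have h1 := S.θ_pos 1
  have hs := S.θ_sum
  rw [← Real.sin_pi_div_two]
  apply Real.sin_lt_sin_of_lt_of_le_pi_div_two <;> linarith [Real.pi_pos]

theorem NV2_sin0 : 0 < Real.sin (S.θ 0) := by
  have h0 := S.θ_pos 0
  have h1 := S.θ_pos 1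
  have h2 := S.θ_pos 2
  have hs := S.θ_sum
  exact Real.sin_pos_of_pos_of_lt_pi h0 (by linarith)

/-- sides at the corner with label 0 are longer than `ρ sin (θ 0)` -/
theorem NV2_len0 (h2 : S.θ 2 = Real.pi / 2) (h01 : Real.sin (S.θ 0) < Real.sin (S.θ 1)) (i : ι)
    {l : Fin 3} (hl : l ≠ 0) :
    S.ρ * Real.sin (S.θ 1) ≤ dist (S.lab i 0) (S.lab i l) ∧
      S.ρ * Real.sin (S.θ 0) < dist (S.lab i 0) (S.lab i l) := by
  obtain ⟨a, b, c⟩ := S.side i
  have hρ := S.ρ_pos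
  have e1 := S.NV2_sin1 h2
  have e2 := S.NV2_sin2 h2
  have k1 : S.ρ * Real.sin (S.θ 0) < S.ρ * Real.sin (S.θ 1) := mul_lt_mul_of_pos_left h01 hρ
  have k2 : S.ρ * Real.sin (S.θ 1) < S.ρ * 1 := mul_lt_mul_of_pos_left e1 hρ
  fin_cases l
  · exact absurd rfl hl
  · rw [e2] at c
    constructor
    · show _ ≤ dist (S.lab i 0) (S.lab i 1)
      rw [c]
      exact k2.le
    · show _ < dist (S.lab i 0) (S.lab i 1)
      rw [c]
      exact k1.trans k2
  · constructor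
    · show _ ≤ dist (S.lab i 0) (S.lab i 2)
      rw [b]
    · show _ < dist (S.lab i 0) (S.lab i 2)
      rw [b]
      exact k1

/-- a node inside a side is not a corner -/
theorem NV2_notC {i : ι} {k l : Fin 3} {x : ℂ} (hkl : k ≠ l)
    (hs : x ∈ segment ℝ (S.lab i k) (S.lab i l)) (hk : x ≠ S.lab i k) (hl : x ≠ S.lab i l) :
    x ∉ S.C i := by
  intro hC
  obtain ⟨c, hc⟩ := (S.lab_C i x).1 hC
  obtain ⟨m, hkm, hlm⟩ := TRIS_third k l hkl
  rcases TRIS_cases k l m c hkl hkm hlm with e | e | e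
  · rw [e] at hc
    exact hk hc
  · rw [e] at hc
    exact hl hc
  · rw [hc, e] at hs
    exact S.corner_not_side i hkm.symm hlm.symm hkl hs

theorem NV2_third_ne (l : Fin 3) (hl : l ≠ 0) : l = 1 ∨ l = 2 := by
  revert l
  decide

theorem hub_gamma (hn : 15 ≤ n) (h2 : S.θ 2 = Real.pi / 2) (h01 : S.θ 0 < S.θ 1) {G N1 : ι}
    (hv : S.val (S.lab G 2) + 2 = n) (hne : N1 ≠ G) (hp : S.lab N1 0 = S.lab G 2)
    (hz : S.lab G 1 ∈ S.N N1) : False := by
  have hs01 := S.NV2_sin01 h2 h01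
  have hz4 : S.val (S.lab G 1) = 4 := by
    rcases S.hub3 hn h2 (S.lab_mem G 2) hv with ⟨_, _, _, h⟩ | ⟨k, l, hkl, hk, _⟩
    · exact h
    · exfalso
      have := S.lab_inj G hk
      rcases hkl with ⟨rfl, _⟩ | ⟨rfl, _⟩ <;> simp at this
  have hpz : S.lab N1 0 ≠ S.lab G 1 := by
    rw [hp]
    exact S.TRIS_ne G (by decide)
  have hpart : Part S.N N1 (S.lab N1 0) (S.lab G 1) :=
    ⟨S.lab_mem N1 0, hz, hpz, G, hne.symm, by rw [hp]; exact S.lab_mem G 2, S.lab_mem G 1⟩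
  obtain ⟨l, hl, hseg⟩ := S.part_corner hpart
  have hd : dist (S.lab N1 0) (S.lab G 1) = S.ρ * Real.sin (S.θ 0) := by
    rw [hp, dist_comm]
    exact (S.side G).1
  have hlen := (S.NV2_len0 h2 hs01 N1 hl).2
  have hzl : S.lab G 1 ≠ S.lab N1 l := by
    intro e
    rw [← e, hd] at hlen
    exact lt_irrefl _ hlen
  have hzC : S.lab G 1 ∉ S.C N1 := S.NV2_notC hl.symm hseg hpz.symm hzl
  have hzc : ∀ c, S.lab G 1 ≠ S.lab N1 c := fun c hc => hzC ((S.lab_C N1 _).2 ⟨c, hc⟩)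
  have hsum := S.NV2_sum4 (S.lab_mem N1 0) (S.lab_mem N1 1) (S.lab_mem N1 2) hz
    (S.TRIS_ne N1 (by decide)) (S.TRIS_ne N1 (by decide)) (hzc 0).symm
    (S.TRIS_ne N1 (by decide)) (hzc 1).symm (hzc 2).symm
  have h4 := (S.r90_four h2 N1).2
  have h3 := S.val_ge (S.lab_mem N1 2)
  rw [hp] at hsum
  omega

theorem hub_beta (hn : 15 ≤ n) (h2 : S.θ 2 = Real.pi / 2)
    (h01 : 2 * Real.sin (S.θ 0) < Real.sin (S.θ 1)) {H N1 : ι} {q : ℂ}
    (hv : S.val (S.lab H 1) + 2 = n) (hne : N1 ≠ H) (hp : S.lab N1 0 = S.lab H 1)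
    (hq : Part S.N H (S.lab H 1) q) (hqs : q ∈ segment ℝ (S.lab H 1) (S.lab H 2))
    (hq1 : q ∈ S.N N1) : False := by
  have hs0 := S.NV2_sin0
  have hρ := S.ρ_pos
  have hs01 : Real.sin (S.θ 0) < Real.sin (S.θ 1) := by linarith
  have hpN : S.lab H 1 ∈ S.N N1 := by rw [← hp]; exact S.lab_mem N1 0
  have hpq : S.lab H 1 ≠ q := hq.2.2.1
  -- (1)
  have hpart : Part S.N N1 (S.lab N1 0) q :=
    ⟨S.lab_mem N1 0, hq1, by rw [hp]; exact hpq, H, hne.symm, by rw [hp]; exact S.lab_mem H 1,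
      hq.2.1⟩
  obtain ⟨l, hl, hseg⟩ := S.part_corner hpart
  have hdpq : dist (S.lab H 1) q ≤ S.ρ * Real.sin (S.θ 0) := by
    rw [← (S.side H).1]
    exact NV2_dist_le hqs
  have hlen := S.NV2_len0 h2 hs01 N1 hl
  have hql : q ≠ S.lab N1 l := by
    intro e
    rw [← e, hp] at hlen
    linarith [hlen.2]
  have hqC : q ∉ S.C N1 := S.NV2_notC hl.symm hseg (by rw [hp]; exact hpq.symm) hql
  have hqc : ∀ c, q ≠ S.lab N1 c := fun c hc => hqC ((S.lab_C N1 _).2 ⟨c, hc⟩)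
  have hsum := S.NV2_sum4 (S.lab_mem N1 0) (S.lab_mem N1 1) (S.lab_mem N1 2) hq1
    (S.TRIS_ne N1 (by decide)) (S.TRIS_ne N1 (by decide)) (hqc 0).symm
    (S.TRIS_ne N1 (by decide)) (hqc 1).symm (hqc 2).symm
  have h4 := (S.r90_four h2 N1).2
  have h3 := S.val_ge (S.lab_mem N1 2)
  have h3q := S.val_ge hq1
  have hvq : S.val q = 3 := by
    rw [hp] at hsum
    omega
  have hN1 : ∀ y ∈ S.N N1, y ≠ S.lab N1 0 → y ≠ S.lab N1 1 → y ≠ S.lab N1 2 → y ≠ q → False := by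
    intro y hy y0 y1 y2 yq
    have hsum5 := S.NV2_sum5 (S.lab_mem N1 0) (S.lab_mem N1 1) (S.lab_mem N1 2) hq1 hy
      (S.TRIS_ne N1 (by decide)) (S.TRIS_ne N1 (by decide)) (hqc 0).symm y0.symm
      (S.TRIS_ne N1 (by decide)) (hqc 1).symm y1.symm (hqc 2).symm y2.symm yq.symm
    have h3y := S.val_ge hy
    rw [hp] at hsum5
    omega
  -- (2)
  have hqCH : q ∈ S.C H := S.NV2_flat hq1 hq.2.1 hqC hne.symm
  have hqH : q = S.lab H 2 := S.NV2_lab2 h2 hvq hqCH
  -- (3)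
  obtain ⟨V, hVH, hVN, hqV⟩ := S.NV2_third hvq hne.symm hq.2.1 hq1
  have hqCV : q ∈ S.C V := S.NV2_flat hq1 hqV hqC hVN
  have hqV2 : q = S.lab V 2 := S.NV2_lab2 h2 hvq hqCV
  obtain ⟨p', s, r, hp'q, hsq, hrq, hp's, hsr, hp'r, hp'H, hp'N, hsN, hsV, hrV, hrH⟩ :=
    S.link3 hvq hne.symm hVN.symm hVH.symm hq.2.1 hq1 hqV
  have hp' : p' = S.lab H 1 := by
    rcases S.three H N1 q (S.lab H 1) p' hne.symm hq.2.1 (S.lab_mem H 1) hp'H hq1 hpN hp'N with
      e | e | e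
    · exact absurd e hpq.symm
    · exact e.symm
    · exact absurd e.symm hp'q
  rw [hp'] at hp's hp'r
  have hsp : s ≠ S.lab N1 0 := by
    rw [hp]
    exact hp's.symm
  have hpartqp : Part S.N N1 q (S.lab N1 0) :=
    ⟨hq1, S.lab_mem N1 0, hqc 0, H, hne.symm, hq.2.1, by rw [hp]; exact S.lab_mem H 1⟩
  have hpartqs : Part S.N N1 q s := ⟨hq1, hsN, hsq.symm, V, hVN, hqV, hsV⟩
  have hsseg : s ∈ segment ℝ q (S.lab N1 l) :=
    S.part_flat_two hqC hseg hl.symm hsp.symm hpartqp hpartqs (right_mem_segment ℝ _ _)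
  have hsseg' : s ∈ segment ℝ (S.lab N1 0) (S.lab N1 l) :=
    (convex_segment (𝕜 := ℝ) (S.lab N1 0) (S.lab N1 l)).segment_subset hseg
      (right_mem_segment ℝ _ _) hsseg
  have hsl : s = S.lab N1 l := by
    by_contra hcon
    have hsC : s ∉ S.C N1 := S.NV2_notC hl.symm hsseg' hsp hcon
    have hsc : ∀ c, s ≠ S.lab N1 c := fun c hc => hsC ((S.lab_C N1 _).2 ⟨c, hc⟩)
    exact hN1 s hsN (hsc 0) (hsc 1) (hsc 2) hsq
  have hdqs : S.ρ * Real.sin (S.θ 0) < dist q s := by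
    have e1 := NV2_dist hseg
    rw [hp] at e1
    rw [hsl]
    have e2 := hlen.1
    rw [hp] at e2
    have e3 : S.ρ * (2 * Real.sin (S.θ 0)) < S.ρ * Real.sin (S.θ 1) :=
      mul_lt_mul_of_pos_left h01 hρ
    linarith
  -- (4)
  have hVr : Part S.N V (S.lab V 2) r := by
    rw [← hqV2]
    exact ⟨hqV, hrV, hrq.symm, H, hVH.symm, hq.2.1, hrH⟩
  have hVs : Part S.N V (S.lab V 2) s := by
    rw [← hqV2]
    exact ⟨hqV, hsV, hsq.symm, N1, hVN.symm, hq1, hsN⟩
  obtain ⟨a, ha, har⟩ := S.part_corner hVr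
  obtain ⟨b, hb, hbs⟩ := S.part_corner hVs
  have hab : a ≠ b := by
    intro e
    rw [e] at har
    exact hsr (S.part_corner_two hb hVs hVr hbs har)
  have hb0 : b = 0 := by
    have hb1 : b ≠ 1 := by
      intro e
      rw [e, ← hqV2] at hbs
      have e1 := NV2_dist_le hbs
      have e2 := (S.side V).1
      rw [← hqV2, dist_comm] at e2
      linarith
    revert hb hb1
    generalize b = b'
    revert b'
    decide
  have ha1 : a = 1 := by
    rw [hb0] at hab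
    revert ha hab
    generalize a = a'
    revert a'
    decide
  have hdqr : dist q r ≤ S.ρ * Real.sin (S.θ 0) := by
    rw [ha1, ← hqV2] at har
    have e1 := NV2_dist_le har
    have e2 := (S.side V).1
    rw [← hqV2, dist_comm] at e2
    linarith
  -- (5)
  have hHr : Part S.N H (S.lab H 2) r := by
    rw [← hqH]
    exact ⟨hq.2.1, hrH, hrq.symm, V, hVH, hqV, hrV⟩
  have hHp : Part S.N H (S.lab H 2) (S.lab H 1) := by
    rw [← hqH]
    exact ⟨hq.2.1, S.lab_mem H 1, hpq.symm, N1, hne, hq1, hpN⟩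
  obtain ⟨c, hc, hcr⟩ := S.part_corner hHr
  have hc0 : c = 0 := by
    have hc1 : c ≠ 1 := by
      intro e
      rw [e] at hcr
      exact hp'r (S.part_corner_two (by decide) hHp hHr (right_mem_segment ℝ _ _) hcr)
    revert hc hc1
    generalize c = c'
    revert c'
    decide
  rw [hc0] at hcr
  have hr0 : r ≠ S.lab H 0 := by
    intro e
    have e2 := (S.side H).2.1
    rw [← hqH, ← e, dist_comm] at e2
    have e3 : S.ρ * Real.sin (S.θ 0) < S.ρ * Real.sin (S.θ 1) := mul_lt_mul_of_pos_left hs01 hρ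
    linarith
  have hr2 : r ≠ S.lab H 2 := by
    rw [← hqH]
    exact hrq
  have hrC : r ∉ S.C H := S.NV2_notC (by decide) hcr hr2 hr0
  have hsumH := S.NV2_sum4 (S.lab_mem H 0) (S.lab_mem H 1) (S.lab_mem H 2) hrH
    (S.TRIS_ne H (by decide)) (S.TRIS_ne H (by decide)) hr0.symm
    (S.TRIS_ne H (by decide)) hp'r hr2.symm
  have h4H := (S.r90_four h2 H).1
  have h3r := S.val_ge hrH
  rw [← hqH, hvq] at hsumH
  have hvr : S.val r = 3 := by omega
  have hrCV : r ∈ S.C V := S.NV2_flat hrH hrV hrC hVH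
  have hrV2 : r = S.lab V 2 := S.NV2_lab2 h2 hvr hrCV
  rw [← hqV2] at hrV2
  exact hrq hrV2

end Sys3

end Pool.Agent.NNb
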