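import Pool.Agent.NNb.Dirs

/-!
Module PAIR.  Two convex polygons with disjoint interiors.

* `pair_int`: `S2 = closure (interior S2)`, and an open set disjoint from a set is disjoint from its
  closure.
* `pair_side`: separate the interiors by a line: Hahn-Banach (`geometric_hahn_banach_open_open` or
  `geometric_hahn_banach_open`) gives a linear functional `g` (`g = dt y`) and `c` with `g < c` on
  `interior S1` and `g ≥ c` on `interior S2`, so `g ≤ c` on `S1` and `g ≥ c` on `S2` by closure;
  `x, y ∈ S1 ∩ S2` gives `g x = g y = c`, so `g (z - x)` is a nonzero multiple of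
  `crs (y - x) (z - x)`.
* `pair_nhds`: `dcone S1 z` contains `± (y - x)`, lies in `{0 ≤ crs (y-x) ·}` (say), and has interior
  points, so it is equal to this half plane (`IsPoly.dcone_add`, `dcone_smul`); `dcone S2 z` is the
  opposite half plane; now `IsPoly.loc` for both.
* `pair_third`: otherwise the open neighbourhood `interior (S1 ∪ S2)` of `z` meets `interior S3`
  (`closure (interior S3) = S3`) in an open nonempty set `U ⊆ S1 ∪ S2`; `U` is disjoint from `S1`
  and from `S2` by `pair_int`.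
* `pair_bdir`: from `pair_side`.
* `pair_ext`: `S1 ∩ S2` is compact, convex, nonempty, so it has an extreme point `x`
  (`IsCompact.extremePoints_nonempty`).  `x ∈ frontier S1` and `x ∈ frontier S2` by `pair_int`.
  Suppose `x` is extreme in neither.  By `dirs`, `ext_iff` both cones are half planes
  `{0 ≤ crs c1 ·}`, `{0 ≤ crs c2 ·}` with disjoint interiors (`IsPoly.loc_interior`), so they are
  opposite and both contain `± c1`; by `IsPoly.loc` `x ± ε c1 ∈ S1 ∩ S2`, so `x` is not extreme in
  `S1 ∩ S2`.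
-/

namespace Pool.Agent.NNb

open Set Topology

variable {S1 S2 S3 : Set ℂ} {x y z : ℂ}

private theorem pair_crs_add (a b c : ℂ) : crs a (b + c) = crs a b + crs a c := by
  simp only [crs, Complex.add_re, Complex.add_im]; ring

private theorem pair_crs_sub (a b c : ℂ) : crs a (b - c) = crs a b - crs a c := by
  simp only [crs, Complex.sub_re, Complex.sub_im]; ring

private theorem pair_crs_smul (a b : ℂ) (t : ℝ) : crs a (t • b) = t * crs a b := by
  simp only [crs, Complex.real_smul, Complex.mul_re, Complex.mul_im, Complex.ofReal_re,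
    Complex.ofReal_im]
  ring

private theorem pair_crs_neg (a b : ℂ) : crs (-a) b = - crs a b := by
  simp only [crs, Complex.neg_re, Complex.neg_im]; ring

private theorem pair_crs_neg' (a b : ℂ) : crs a (-b) = - crs a b := by
  simp only [crs, Complex.neg_re, Complex.neg_im]; ring

private theorem pair_crs_self (a : ℂ) : crs a a = 0 := by
  simp only [crs]; ring

private theorem pair_crs_cont (a : ℂ) : Continuous (crs a) := by
  unfold crs
  exact (continuous_const.mul Complex.continuous_im).sub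
    (continuous_const.mul Complex.continuous_re)

theorem pair_int (h1 : IsPoly S1) (h2 : IsPoly S2) (hd : Disjoint (interior S1) (interior S2)) :
    Disjoint (interior S1) S2 := by
  have h := hd.closure_right isOpen_interior
  rwa [h2.closure_interior] at h

theorem pair_side (h1 : IsPoly S1) (h2 : IsPoly S2) (hd : Disjoint (interior S1) (interior S2))
    (hxy : x ≠ y) (hx1 : x ∈ S1) (hx2 : x ∈ S2) (hy1 : y ∈ S1) (hy2 : y ∈ S2) :
    ((∀ z ∈ S1, 0 ≤ crs (y - x) (z - x)) ∧ (∀ z ∈ S2, crs (y - x) (z - x) ≤ 0)) ∨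
    ((∀ z ∈ S1, crs (y - x) (z - x) ≤ 0) ∧ (∀ z ∈ S2, 0 ≤ crs (y - x) (z - x))) := by
  obtain ⟨f, u, hf1, hf2⟩ := geometric_hahn_banach_open h1.convex.interior isOpen_interior
    h2.convex (pair_int h1 h2 hd)
  have hf1' : ∀ a ∈ S1, f a ≤ u := by
    intro a ha
    have hsub : closure (interior S1) ⊆ {a | f a ≤ u} :=
      closure_minimal (fun a ha => (hf1 a ha).le) (isClosed_le f.continuous continuous_const)
    rw [h1.closure_interior] at hsub
    exact hsub ha
  have hfx : f x = u := le_antisymm (hf1' x hx1) (hf2 x hx2)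
  have hfy : f y = u := le_antisymm (hf1' y hy1) (hf2 y hy2)
  set D : ℂ := y - x with hD
  have hD0 : D ≠ 0 := sub_ne_zero.2 (Ne.symm hxy)
  have hf : ∀ w, f w = w.re * f 1 + w.im * f Complex.I := by
    intro w
    have hw : w = w.re • (1 : ℂ) + w.im • Complex.I := by
      apply Complex.ext <;> simp
    conv_lhs => rw [hw]
    rw [map_add, map_smul, map_smul, smul_eq_mul, smul_eq_mul]
  have hfD : D.re * f 1 + D.im * f Complex.I = 0 := by
    rw [← hf, hD, map_sub, hfx, hfy, sub_self]
  have hn : 0 < D.re * D.re + D.im * D.im := by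
    have := Complex.normSq_pos.2 hD0
    rwa [Complex.normSq_apply] at this
  set l : ℝ := (D.re * f Complex.I - D.im * f 1) / (D.re * D.re + D.im * D.im) with hl
  have ha : f 1 = l * (- D.im) := by
    rw [hl, div_mul_eq_mul_div, eq_div_iff hn.ne']
    linear_combination (D.re) * hfD
  have hb : f Complex.I = l * D.re := by
    rw [hl, div_mul_eq_mul_div, eq_div_iff hn.ne']
    linear_combination (D.im) * hfD
  have hfc : ∀ w, f w = l * crs D w := by
    intro w
    rw [hf, ha, hb]
    simp only [crs]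
    ring
  have hl0 : l ≠ 0 := by
    intro h0
    obtain ⟨p, hp⟩ := h1.2
    have := hf1 p hp
    rw [← hfx, hfc p, hfc x, h0, zero_mul, zero_mul] at this
    exact lt_irrefl _ this
  have key1 : ∀ z ∈ S1, l * crs D (z - x) ≤ 0 := by
    intro z hz
    rw [← hfc, map_sub, hfx]
    have := hf1' z hz
    linarith
  have key2 : ∀ z ∈ S2, 0 ≤ l * crs D (z - x) := by
    intro z hz
    rw [← hfc, map_sub, hfx]
    have := hf2 z hz
    linarith
  rcases lt_or_gt_of_ne hl0 with hneg | hpos
  · left
    refine ⟨fun z hz => ?_, fun z hz => ?_⟩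
    · by_contra hc
      push Not at hc
      have := key1 z hz
      nlinarith [mul_pos_of_neg_of_neg hneg hc]
    · by_contra hc
      push Not at hc
      have := key2 z hz
      nlinarith [mul_neg_of_neg_of_pos hneg hc]
  · right
    refine ⟨fun z hz => ?_, fun z hz => ?_⟩
    · by_contra hc
      push Not at hc
      have := key1 z hz
      nlinarith [mul_pos hpos hc]
    · by_contra hc
      push Not at hc
      have := key2 z hz
      nlinarith [mul_neg_of_pos_of_neg hpos hc]

theorem pair_bdir (h1 : IsPoly S1) (h2 : IsPoly S2) (hd : Disjoint (interior S1) (interior S2))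
    (hxy : x ≠ y) (hx1 : x ∈ S1) (hx2 : x ∈ S2) (hy1 : y ∈ S1) (hy2 : y ∈ S2) :
    BDir S1 x (y - x) := by
  refine ⟨sub_ne_zero.2 (Ne.symm hxy), sub_mem_dcone hy1, ?_⟩
  rcases pair_side h1 h2 hd hxy hx1 hx2 hy1 hy2 with h | h
  · exact Or.inl h.1
  · exact Or.inr h.1

/-- if `S` lies on one side of a line through `z` and the cone at `z` contains both directions of
this line, then the cone contains the half plane -/
theorem pair_half {S : Set ℂ} (h : IsPoly S) {D : ℂ} (hz : z ∈ S)
    (hp : D ∈ dcone S z) (hm : -D ∈ dcone S z) (hs : ∀ w ∈ S, 0 ≤ crs D (w - z))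
    (hD : D ≠ 0) {v : ℂ} (hv : 0 ≤ crs D v) : v ∈ dcone S z := by
  have hex : ∃ w ∈ S, 0 < crs D (w - z) := by
    by_contra hcon
    push Not at hcon
    obtain ⟨p, hp'⟩ := h.2
    obtain ⟨r, hr, hball⟩ := Metric.isOpen_iff.1 isOpen_interior p hp'
    have hnD : 0 < ‖D‖ := norm_pos_iff.2 hD
    have hmem : p + (r / 2 / ‖D‖ : ℝ) • (Complex.I * D) ∈ S := by
      apply interior_subset
      apply hball
      rw [Metric.mem_ball, dist_eq_norm, add_sub_cancel_left, norm_smul, norm_mul, Complex.norm_I,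
        one_mul, Real.norm_of_nonneg (by positivity), div_mul_cancel₀ _ hnD.ne']
      linarith
    have e1 := hcon _ hmem
    have e2 := hs _ (interior_subset hp')
    have e3 : crs D (Complex.I * D) = D.re * D.re + D.im * D.im := by
      simp only [crs, Complex.mul_re, Complex.mul_im, Complex.I_re, Complex.I_im]
      ring
    have e4 : 0 < D.re * D.re + D.im * D.im := by
      have := Complex.normSq_pos.2 hD
      rwa [Complex.normSq_apply] at this
    rw [add_sub_right_comm, pair_crs_add, pair_crs_smul, e3] at e1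
    have : 0 < r / 2 / ‖D‖ * (D.re * D.re + D.im * D.im) := by positivity
    linarith
  obtain ⟨w, hw, hpos⟩ := hex
  have hn : 0 < D.re * D.re + D.im * D.im := by
    have := Complex.normSq_pos.2 hD
    rwa [Complex.normSq_apply] at this
  set b : ℝ := crs D v / crs D (w - z) with hb
  have hb0 : 0 ≤ b := div_nonneg hv hpos.le
  have hc0 : crs D (v - b • (w - z)) = 0 := by
    rw [pair_crs_sub, pair_crs_smul, hb, div_mul_cancel₀ _ hpos.ne', sub_self]
  set q : ℂ := v - b • (w - z) with hq
  set a : ℝ := (D.re * q.re + D.im * q.im) / (D.re * D.re + D.im * D.im) with ha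
  have hqa : q = a • D := by
    have hc0' : D.re * q.im - D.im * q.re = 0 := hc0
    apply Complex.ext
    · rw [Complex.real_smul, Complex.mul_re, Complex.ofReal_re, Complex.ofReal_im, zero_mul,
        sub_zero, ha, div_mul_eq_mul_div, eq_div_iff hn.ne']
      linear_combination (-D.im) * hc0'
    · rw [Complex.real_smul, Complex.mul_im, Complex.ofReal_re, Complex.ofReal_im, zero_mul,
        add_zero, ha, div_mul_eq_mul_div, eq_div_iff hn.ne']
      linear_combination (D.re) * hc0'
  have hqm : q ∈ dcone S z := by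
    rw [hqa]
    rcases lt_trichotomy a 0 with h' | h' | h'
    · have : a • D = (-a) • (-D) := by rw [smul_neg, neg_smul, neg_neg]
      rw [this]
      exact dcone_smul (by linarith) hm
    · rw [h', zero_smul]
      exact h.zero_mem_dcone hz
    · exact dcone_smul h' hp
  have hwm : b • (w - z) ∈ dcone S z := by
    rcases hb0.eq_or_lt with h' | h'
    · rw [← h', zero_smul]
      exact h.zero_mem_dcone hz
    · exact dcone_smul h' (sub_mem_dcone hw)
  have hv' : v = q + b • (w - z) := by rw [hq]; ring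
  rw [hv']
  exact h.dcone_add hz hqm hwm

theorem pair_nhds (h1 : IsPoly S1) (h2 : IsPoly S2) (hd : Disjoint (interior S1) (interior S2))
    (hxy : x ≠ y) (hx1 : x ∈ S1) (hx2 : x ∈ S2) (hy1 : y ∈ S1) (hy2 : y ∈ S2)
    (hz : z ∈ openSegment ℝ x y) : S1 ∪ S2 ∈ 𝓝 z := by
  have hD0 : y - x ≠ 0 := sub_ne_zero.2 (Ne.symm hxy)
  have hz1 : z ∈ S1 := h1.convex.segment_subset hx1 hy1 (openSegment_subset_segment ℝ x y hz)
  have hz2 : z ∈ S2 := h2.convex.segment_subset hx2 hy2 (openSegment_subset_segment ℝ x y hz)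
  obtain ⟨s, t, hs, ht, hst, hzz⟩ := hz
  have hyz : y - z = s • (y - x) := by
    rw [← hzz, ← sub_eq_zero]
    have : (t : ℝ) = 1 - s := by linarith
    rw [this]
    module
  have hxz : x - z = t • (-(y - x)) := by
    rw [← hzz, ← sub_eq_zero]
    have : (s : ℝ) = 1 - t := by linarith
    rw [this]
    module
  have hpS : ∀ S : Set ℂ, x ∈ S → y ∈ S → (y - x) ∈ dcone S z ∧ -(y - x) ∈ dcone S z := by
    intro S hxS hyS
    constructor
    · have := dcone_smul (inv_pos.2 hs) (sub_mem_dcone (x := z) hyS)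
      rwa [hyz, inv_smul_smul₀ hs.ne'] at this
    · have := dcone_smul (inv_pos.2 ht) (sub_mem_dcone (x := z) hxS)
      rwa [hxz, inv_smul_smul₀ ht.ne'] at this
  have hcz : ∀ w, crs (y - x) (w - z) = crs (y - x) (w - x) := by
    intro w
    have : w - z = (w - x) + t • (-(y - x)) := by rw [← hxz]; ring
    rw [this, pair_crs_add, pair_crs_smul, pair_crs_neg', pair_crs_self]
    ring
  obtain ⟨r1, hr1, hl1⟩ := h1.loc hz1
  obtain ⟨r2, hr2, hl2⟩ := h2.loc hz2
  -- every vector lies in one of the two cones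
  have hall : ∀ v : ℂ, v ∈ dcone S1 z ∨ v ∈ dcone S2 z := by
    intro v
    rcases pair_side h1 h2 hd hxy hx1 hx2 hy1 hy2 with ⟨ha, hb⟩ | ⟨ha, hb⟩
    · rcases le_total 0 (crs (y - x) v) with hv | hv
      · left
        exact pair_half h1 hz1 (hpS S1 hx1 hy1).1 (hpS S1 hx1 hy1).2
          (fun w hw => by rw [hcz]; exact ha w hw) hD0 hv
      · right
        refine pair_half h2 (D := -(y - x)) hz2 (hpS S2 hx2 hy2).2 ?_
          (fun w hw => ?_) (neg_ne_zero.2 hD0) ?_
        · rw [neg_neg]; exact (hpS S2 hx2 hy2).1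
        · rw [pair_crs_neg, hcz]
          have := hb w hw
          linarith
        · rw [pair_crs_neg]; linarith
    · rcases le_total 0 (crs (y - x) v) with hv | hv
      · right
        exact pair_half h2 hz2 (hpS S2 hx2 hy2).1 (hpS S2 hx2 hy2).2
          (fun w hw => by rw [hcz]; exact hb w hw) hD0 hv
      · left
        refine pair_half h1 (D := -(y - x)) hz1 (hpS S1 hx1 hy1).2 ?_
          (fun w hw => ?_) (neg_ne_zero.2 hD0) ?_
        · rw [neg_neg]; exact (hpS S1 hx1 hy1).1
        · rw [pair_crs_neg, hcz]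
          have := ha w hw
          linarith
        · rw [pair_crs_neg]; linarith
  refine Filter.mem_of_superset (Metric.ball_mem_nhds z (lt_min hr1 hr2)) ?_
  intro w hw
  rw [Metric.mem_ball, dist_eq_norm] at hw
  have hw' : w = z + (w - z) := by ring
  rcases hall (w - z) with h' | h'
  · left
    rw [hw']
    exact (hl1 _ (lt_of_lt_of_le hw (min_le_left _ _))).2 h'
  · right
    rw [hw']
    exact (hl2 _ (lt_of_lt_of_le hw (min_le_right _ _))).2 h'

theorem pair_third (h1 : IsPoly S1) (h2 : IsPoly S2) (h3 : IsPoly S3)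
    (hd : Disjoint (interior S1) (interior S2)) (hd1 : Disjoint (interior S1) (interior S3))
    (hd2 : Disjoint (interior S2) (interior S3))
    (hxy : x ≠ y) (hx1 : x ∈ S1) (hx2 : x ∈ S2) (hy1 : y ∈ S1) (hy2 : y ∈ S2)
    (hz : z ∈ openSegment ℝ x y) : z ∉ S3 := by
  intro hz3
  have hn := pair_nhds h1 h2 hd hxy hx1 hx2 hy1 hy2 hz
  rw [← h3.closure_interior] at hz3
  obtain ⟨w, hw1, hw2⟩ := mem_closure_iff_nhds.1 hz3 _ hn
  rcases hw1 with hw1 | hw1
  · exact Set.disjoint_left.1 (pair_int h3 h1 hd1.symm) hw2 hw1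
  · exact Set.disjoint_left.1 (pair_int h3 h2 hd2.symm) hw2 hw1

theorem pair_ext (h1 : IsPoly S1) (h2 : IsPoly S2) (hd : Disjoint (interior S1) (interior S2))
    (hne : (S1 ∩ S2).Nonempty) :
    ∃ x ∈ S1 ∩ S2, x ∈ S1.extremePoints ℝ ∨ x ∈ S2.extremePoints ℝ := by
  have hk : IsCompact (S1 ∩ S2) := h1.isCompact.inter_right h2.isClosed
  obtain ⟨x, hx⟩ := hk.extremePoints_nonempty hne
  have hx12 : x ∈ S1 ∩ S2 := hx.1
  refine ⟨x, hx12, ?_⟩
  by_contra hcon
  push Not at hcon
  have hf1 : x ∈ frontier S1 := by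
    rw [h1.isClosed.frontier_eq]
    exact ⟨hx12.1, fun hi => Set.disjoint_left.1 (pair_int h1 h2 hd) hi hx12.2⟩
  have hf2 : x ∈ frontier S2 := by
    rw [h2.isClosed.frontier_eq]
    exact ⟨hx12.2, fun hi => Set.disjoint_left.1 (pair_int h2 h1 hd.symm) hi hx12.1⟩
  obtain ⟨c1, d1, hc1, hd1, hcd1, hS1⟩ := h1.dirs hf1
  obtain ⟨c2, d2, hc2, hd2, hcd2, hS2⟩ := h2.dirs hf2
  have he1 : d1 = -c1 := by
    rcases hcd1 with h | h
    · exact absurd ((h1.ext_iff hf1 hc1 hd1 (Or.inl h) hS1).2 h) hcon.1
    · exact h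
  have he2 : d2 = -c2 := by
    rcases hcd2 with h | h
    · exact absurd ((h2.ext_iff hf2 hc2 hd2 (Or.inl h) hS2).2 h) hcon.2
    · exact h
  subst he1 he2
  have hsec : ∀ c v : ℂ, v ∈ sector c (-c) ↔ 0 ≤ crs c v := by
    intro c v
    have : crs v (-c) = crs c v := by
      simp only [crs, Complex.neg_re, Complex.neg_im]; ring
    simp only [sector, Set.mem_ofPred_eq, this, and_self]
  obtain ⟨r1, hr1, hl1⟩ := h1.loc hx12.1
  obtain ⟨r2, hr2, hl2⟩ := h2.loc hx12.2
  rw [hS1] at hl1
  rw [hS2] at hl2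
  simp only [hsec] at hl1 hl2
  set r := min r1 r2 with hr
  have hr0 : 0 < r := lt_min hr1 hr2
  -- no common interior direction
  have hno : ∀ v : ℂ, v ≠ 0 → ¬ (0 < crs c1 v ∧ 0 < crs c2 v) := by
    rintro v hv0 ⟨hv1, hv2⟩
    have hnv : 0 < ‖v‖ := norm_pos_iff.2 hv0
    set w : ℂ := (r / 2 / ‖v‖ : ℝ) • v with hw
    have hwn : ‖w‖ < r := by
      rw [hw, norm_smul, Real.norm_of_nonneg (by positivity), div_mul_cancel₀ _ hnv.ne']
      linarith
    have hop : IsOpen {v : ℂ | 0 < crs c1 v ∧ 0 < crs c2 v ∧ ‖v‖ < r} :=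
      (isOpen_lt continuous_const (pair_crs_cont c1)).inter
        ((isOpen_lt continuous_const (pair_crs_cont c2)).inter
          (isOpen_lt continuous_norm continuous_const))
    have hop' : IsOpen ((fun z => z - x) ⁻¹' {v : ℂ | 0 < crs c1 v ∧ 0 < crs c2 v ∧ ‖v‖ < r}) :=
      hop.preimage (continuous_id.sub continuous_const)
    have hmem : x + w ∈ (fun z => z - x) ⁻¹' {v : ℂ | 0 < crs c1 v ∧ 0 < crs c2 v ∧ ‖v‖ < r} := by
      rw [Set.mem_preimage, add_sub_cancel_left]
      refine ⟨?_, ?_, hwn⟩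
      · rw [hw, pair_crs_smul]; positivity
      · rw [hw, pair_crs_smul]; positivity
    have hi1 : x + w ∈ interior S1 := by
      rw [mem_interior]
      refine ⟨_, ?_, hop', hmem⟩
      intro z hz
      have hz' : 0 < crs c1 (z - x) ∧ 0 < crs c2 (z - x) ∧ ‖z - x‖ < r := hz
      have : z = x + (z - x) := by ring
      rw [this]
      exact (hl1 _ (lt_of_lt_of_le hz'.2.2 (min_le_left _ _))).2 hz'.1.le
    have hi2 : x + w ∈ interior S2 := by
      rw [mem_interior]
      refine ⟨_, ?_, hop', hmem⟩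
      intro z hz
      have hz' : 0 < crs c1 (z - x) ∧ 0 < crs c2 (z - x) ∧ ‖z - x‖ < r := hz
      have : z = x + (z - x) := by ring
      rw [this]
      exact (hl2 _ (lt_of_lt_of_le hz'.2.2 (min_le_right _ _))).2 hz'.2.1.le
    exact Set.disjoint_left.1 hd hi1 hi2
  -- the two half planes are opposite
  have hu1 : c1.re * c1.re + c1.im * c1.im = 1 := by
    rw [← Complex.normSq_apply, Complex.normSq_eq_norm_sq, hc1]; norm_num
  have hu2 : c2.re * c2.re + c2.im * c2.im = 1 := by
    rw [← Complex.normSq_apply, Complex.normSq_eq_norm_sq, hc2]; norm_num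
  have hopp : c2 = -c1 := by
    set v : ℂ := Complex.I * (c1 + c2) with hv
    have e1 : crs c1 v = 1 + (c1.re * c2.re + c1.im * c2.im) := by
      rw [hv]
      simp only [crs, Complex.mul_re, Complex.mul_im, Complex.I_re, Complex.I_im, Complex.add_re,
        Complex.add_im]
      linear_combination hu1
    have e2 : crs c2 v = 1 + (c1.re * c2.re + c1.im * c2.im) := by
      rw [hv]
      simp only [crs, Complex.mul_re, Complex.mul_im, Complex.I_re, Complex.I_im, Complex.add_re,
        Complex.add_im]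
      linear_combination hu2
    have hle : 1 + (c1.re * c2.re + c1.im * c2.im) ≤ 0 := by
      by_contra hc
      push Not at hc
      have hv0 : v ≠ 0 := by
        intro h0
        rw [h0] at e1
        have : crs c1 0 = 0 := by simp [crs]
        rw [this] at e1
        linarith
      exact hno v hv0 ⟨by rw [e1]; exact hc, by rw [e2]; exact hc⟩
    have hsq : (c1.re + c2.re) ^ 2 + (c1.im + c2.im) ^ 2 ≤ 0 := by nlinarith
    have hre : c1.re + c2.re = 0 := by
      have h' : (c1.re + c2.re) ^ 2 = 0 := by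
        nlinarith [sq_nonneg (c1.re + c2.re), sq_nonneg (c1.im + c2.im)]
      exact pow_eq_zero_iff (two_ne_zero) |>.1 h'
    have him : c1.im + c2.im = 0 := by
      have h' : (c1.im + c2.im) ^ 2 = 0 := by
        nlinarith [sq_nonneg (c1.re + c2.re), sq_nonneg (c1.im + c2.im)]
      exact pow_eq_zero_iff (two_ne_zero) |>.1 h'
    apply Complex.ext
    · rw [Complex.neg_re]; linarith
    · rw [Complex.neg_im]; linarith
  have hmem : ∀ v : ℂ, crs c1 v = 0 → ‖v‖ < r → x + v ∈ S1 ∩ S2 := by
    intro v hv hvn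
    refine ⟨(hl1 v (lt_of_lt_of_le hvn (min_le_left _ _))).2 hv.ge,
      (hl2 v (lt_of_lt_of_le hvn (min_le_right _ _))).2 ?_⟩
    rw [hopp, pair_crs_neg, hv, neg_zero]
  have hn1 : ‖(r / 2 : ℝ) • c1‖ < r := by
    rw [norm_smul, hc1, mul_one, Real.norm_of_nonneg (by positivity)]
    linarith
  have hm1 : x + (r / 2 : ℝ) • c1 ∈ S1 ∩ S2 := by
    refine hmem _ ?_ hn1
    rw [pair_crs_smul, pair_crs_self, mul_zero]
  have hm2 : x + -((r / 2 : ℝ) • c1) ∈ S1 ∩ S2 := by
    refine hmem _ ?_ ?_
    · rw [pair_crs_neg', pair_crs_smul, pair_crs_self, mul_zero, neg_zero]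
    · rw [norm_neg]; exact hn1
  have hseg : x ∈ openSegment ℝ (x + (r / 2 : ℝ) • c1) (x + -((r / 2 : ℝ) • c1)) := by
    refine ⟨1 / 2, 1 / 2, by norm_num, by norm_num, by norm_num, ?_⟩
    module
  have heq := (mem_extremePoints.1 hx).2 _ hm1 _ hm2 hseg
  have hz : (r / 2 : ℝ) • c1 = 0 := by
    have := heq.1
    simpa using this
  have : ‖(r / 2 : ℝ) • c1‖ = r / 2 := by
    rw [norm_smul, hc1, mul_one, Real.norm_of_nonneg (by positivity)]
  rw [hz, norm_zero] at this
  linarith

end Pool.Agent.NNb
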