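import Pool.Agent.NNb.Cls2
import Pool.Agent.NNb.CostD

/-!
Module R90.  Right triangles (`θ 2 = π/2`): general facts, `n ≥ 22`.

`r90_three`: a 3-valent node has `cnt 2 = 2`, `fl = 1`, `cnt 0 = cnt 1 = 0` (`three_valent`; `π/2 ≠ 2π/3`).
So `lab i 0`, `lab i 1` are not 3-valent (`cnt_pos`), and if `|N i| = 3` then `i` has at most one 3-valent
node (`lab i 2`).
`r90_f4`: `|N i| = s ≥ 4`: two nodes (`lab i 0`, `lab i 1`) have `k ≥ 2`, so by `conc` (`l = 2` at these two,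
`l = 1` elsewhere, `L = 2`, `E = n - s - 2`):
`f ≤ 1 - (s - 2)/6 - 1/4 - phi (n - s) = 1/4 - (s - 2)/6 + 1/(n - s + 2)`, for `s = 4`:
`-1/12 + 1/(n - 2) ≤ -1/30`; `s = 5`: `-1/4 + 1/(n - 3)`; `s ≥ 6`: `s ≤ n - 2`, so `1/(n - s + 2) ≤ 1/4` and
`f ≤ 1/2 - (s - 2)/6 ≤ -1/6`.
`r90_f12`: if all valences on `i` are `≤ 12`: `|N i| ≥ 4`: `r90_f4`; `|N i| = 3`: `f_of_val12`.
`r90_small` (`θ 0 > 2π/13`): all valences are `≤ 12`: `θ 1 ≥ θ 0`, `θ 2 ≥ θ 0`: if `fl = 0`,
`(cnt 0 + cnt 1 + cnt 2) θ 0 ≤ 2π < 13 θ 0`; if `fl = 1`, `(...) θ 0 ≤ π`.  So `no_neg_f'`.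
-/

namespace Pool.Agent.NNb

namespace Sys3

variable {ι : Type} {n : ℕ} (S : Sys3 ι n)

theorem r90_three (h2 : S.θ 2 = Real.pi / 2) {i : ι} {x : ℂ} (hx : x ∈ S.N i)
    (hv : S.val x = 3) : S.cnt 0 x = 0 ∧ S.cnt 1 x = 0 ∧ S.cnt 2 x = 2 ∧ S.fl x = 1 := by
  have hpi := Real.pi_pos
  rcases S.three_valent hx hv with ⟨h, _, _⟩ | ⟨_, hc, hf⟩
  · exfalso
    rw [h2] at h
    linarith
  · have h1 := S.val_cnt x
    rw [hv, hc, hf] at h1
    refine ⟨by omega, by omega, hc, hf⟩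

theorem r90_four (h2 : S.θ 2 = Real.pi / 2) (i : ι) :
    4 ≤ S.val (S.lab i 0) ∧ 4 ≤ S.val (S.lab i 1) := by
  have h3 : ∀ k, 3 ≤ S.val (S.lab i k) := fun k => S.val_ge (S.lab_mem i k)
  constructor
  · by_contra hcon
    have hv : S.val (S.lab i 0) = 3 := by
      have := h3 0
      omega
    have h := (S.r90_three h2 (S.lab_mem i 0) hv).1
    have h' := S.cnt_pos i 0
    omega
  · by_contra hcon
    have hv : S.val (S.lab i 1) = 3 := by
      have := h3 1
      omega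
    have h := (S.r90_three h2 (S.lab_mem i 1) hv).2.1
    have h' := S.cnt_pos i 1
    omega

open Classical in
theorem R90_sum (i : ι) {c : ℝ} (d : ℝ) :
    ∑ x ∈ S.N i, (c + (if x = S.lab i 0 ∨ x = S.lab i 1 then d else 0)) =
      ((S.N i).card : ℝ) * c + 2 * d := by
  have hne : S.lab i 0 ≠ S.lab i 1 := by
    intro h
    exact absurd (S.lab_inj i h) (by decide)
  have hfil : (S.N i).filter (fun x => x = S.lab i 0 ∨ x = S.lab i 1) =
      {S.lab i 0, S.lab i 1} := by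
    ext x
    simp only [Finset.mem_filter, Finset.mem_insert, Finset.mem_singleton]
    constructor
    · exact fun h => h.2
    · intro h
      refine ⟨?_, h⟩
      rcases h with rfl | rfl
      · exact S.lab_mem i 0
      · exact S.lab_mem i 1
  rw [Finset.sum_add_distrib, ← Finset.sum_filter, hfil]
  rw [Finset.sum_const, Finset.sum_const, Finset.card_pair hne]
  simp only [nsmul_eq_mul]
  push_cast
  ring

theorem r90_f4 (hn : 22 ≤ n) (h2 : S.θ 2 = Real.pi / 2) (i : ι) (hc : 4 ≤ (S.N i).card) :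
    S.f i ≤ -(1 / 30) := by
  classical
  obtain ⟨h40, h41⟩ := S.r90_four h2 i
  set s := (S.N i).card with hs
  let l : ℂ → ℕ := fun x => if x = S.lab i 0 ∨ x = S.lab i 1 then 2 else 1
  have hl : ∀ x ∈ S.N i, l x ≤ S.val x - 2 := by
    intro x hx
    have h3 := S.val_ge hx
    by_cases h : x = S.lab i 0 ∨ x = S.lab i 1
    · have hlx : l x = 2 := if_pos h
      rw [hlx]
      rcases h with rfl | rfl <;> omega
    · have hlx : l x = 1 := if_neg h
      rw [hlx]
      omega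
  have hL : ∀ x ∈ S.N i, l x ≤ 2 := by
    intro x _
    by_cases h : x = S.lab i 0 ∨ x = S.lab i 1
    · exact le_of_eq (if_pos h)
    · have hlx : l x = 1 := if_neg h
      omega
  have hsuml : ((∑ x ∈ S.N i, l x : ℕ) : ℝ) = s + 2 := by
    push_cast
    have h := S.R90_sum i (c := 1) 1
    rw [← hs] at h
    rw [show (s : ℝ) + 2 = s * 1 + 2 * 1 by ring, ← h]
    apply Finset.sum_congr rfl
    intro x _
    by_cases h : x = S.lab i 0 ∨ x = S.lab i 1
    · have hlx : l x = 2 := if_pos h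
      rw [hlx, if_pos h]
      norm_num
    · have hlx : l x = 1 := if_neg h
      rw [hlx, if_neg h]
      norm_num
  have hsuml' : ∑ x ∈ S.N i, l x = s + 2 := by exact_mod_cast hsuml
  have hsk : ∑ x ∈ S.N i, (S.val x - 2) = n := S.sum_val i
  have hle : s + 2 ≤ n := by
    have h := Finset.sum_le_sum hl
    rw [hsuml', hsk] at h
    exact h
  have hE : ∑ x ∈ S.N i, (S.val x - 2) = ∑ x ∈ S.N i, l x + (n - (s + 2)) := by
    rw [hsk, hsuml']
    omega
  have hconc := conc (S.N i) (fun x => S.val x - 2) l 2 (n - (s + 2)) hl hL hE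
  have hphil : ∑ x ∈ S.N i, phi (l x) = (s : ℝ) * (1 / 6) + 2 * (1 / 12) := by
    have h := S.R90_sum i (c := 1 / 6) (1 / 12)
    rw [← hs] at h
    rw [← h]
    apply Finset.sum_congr rfl
    intro x _
    by_cases h : x = S.lab i 0 ∨ x = S.lab i 1
    · have hlx : l x = 2 := if_pos h
      rw [hlx, if_pos h]
      unfold phi
      norm_num
    · have hlx : l x = 1 := if_neg h
      rw [hlx, if_neg h]
      unfold phi
      norm_num
  have hphi2 : phi 2 = 1 / 4 := by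
    unfold phi
    norm_num
  have hphiE : phi (2 + (n - (s + 2))) = 1 / 2 - 1 / ((n : ℝ) - s + 2) := by
    rw [phi_eq]
    have h : ((2 + (n - (s + 2)) : ℕ) : ℝ) = (n : ℝ) - s := by
      have h' : 2 + (n - (s + 2)) = n - s := by omega
      rw [h', Nat.cast_sub (by omega)]
    rw [h]
  rw [hphil, hphi2, hphiE] at hconc
  rw [S.f_eq i]
  have hs4 : (4 : ℝ) ≤ s := by exact_mod_cast hc
  have hnR : (22 : ℝ) ≤ n := by exact_mod_cast hn
  have hsn : (s : ℝ) + 2 ≤ n := by exact_mod_cast hle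
  have hkey : 1 / 4 - ((s : ℝ) - 2) / 6 + 1 / ((n : ℝ) - s + 2) ≤ -(1 / 30) := by
    rcases Nat.lt_or_ge s 6 with h6 | h6
    · have h45 : s = 4 ∨ s = 5 := by omega
      rcases h45 with h | h
      · have hsR : (s : ℝ) = 4 := by exact_mod_cast h
        rw [hsR]
        have h1 : 1 / ((n : ℝ) - 4 + 2) ≤ 1 / 20 := by
          apply one_div_le_one_div_of_le <;> linarith
        linarith
      · have hsR : (s : ℝ) = 5 := by exact_mod_cast h
        rw [hsR]
        have h1 : 1 / ((n : ℝ) - 5 + 2) ≤ 1 / 19 := by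
          apply one_div_le_one_div_of_le <;> linarith
        linarith
    · have hsR : (6 : ℝ) ≤ s := by exact_mod_cast h6
      have h1 : 1 / ((n : ℝ) - s + 2) ≤ 1 / 4 := by
        apply one_div_le_one_div_of_le <;> linarith
      linarith
  linarith

theorem r90_f12 (hn : 22 ≤ n) (h2 : S.θ 2 = Real.pi / 2) (i : ι)
    (h12 : ∀ x ∈ S.N i, S.val x ≤ 12) : S.f i ≤ -(1 / 30) := by
  by_cases hc : 4 ≤ (S.N i).card
  · exact S.r90_f4 hn h2 i hc
  · have h3 : (S.N i).card = 3 := by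
      have := S.card_ge i
      omega
    obtain ⟨h40, h41⟩ := S.r90_four h2 i
    have hl : ∀ x ∈ S.N i, S.val x = 3 → x = S.lab i 2 := by
      intro x hx hv
      rcases (S.card3_mem h3 x).1 hx with rfl | rfl | rfl
      · omega
      · omega
      · rfl
    have h := S.f_of_val12 hn i h12 (by
      intro x y hx hy hvx hvy
      rw [hl x hx hvx, hl y hy hvy])
    linarith

theorem r90_small (hn : 22 ≤ n) (h2 : S.θ 2 = Real.pi / 2) (h0 : 2 * Real.pi / 13 < S.θ 0) :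
    False := by
  have hpi := Real.pi_pos
  have hval : ∀ i, ∀ x ∈ S.N i, S.val x ≤ 12 := by
    intro i x hx
    by_contra hcon
    have h13 : 13 ≤ S.val x := by omega
    have hR : (13 : ℝ) ≤ (S.cnt 0 x : ℝ) + S.cnt 1 x + S.cnt 2 x + S.fl x := by
      have h := S.val_cnt x
      rw [h] at h13
      exact_mod_cast h13
    have hang := S.ang_cnt hx
    have t0 := S.θ_pos 0
    have t01 := S.θ_le01
    have t12 := S.θ_le12
    have ts := S.θ_sum
    have e1 : (S.cnt 1 x : ℝ) * S.θ 0 ≤ S.cnt 1 x * S.θ 1 :=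
      mul_le_mul_of_nonneg_left t01 (Nat.cast_nonneg _)
    have e2 : (S.cnt 2 x : ℝ) * S.θ 0 ≤ S.cnt 2 x * S.θ 2 :=
      mul_le_mul_of_nonneg_left (t01.trans t12) (Nat.cast_nonneg _)
    have e3 : (S.fl x : ℝ) * S.θ 0 ≤ S.fl x * Real.pi :=
      mul_le_mul_of_nonneg_left (by linarith) (Nat.cast_nonneg _)
    have e4 : 13 * S.θ 0 ≤ ((S.cnt 0 x : ℝ) + S.cnt 1 x + S.cnt 2 x + S.fl x) * S.θ 0 :=
      mul_le_mul_of_nonneg_right hR t0.le
    have e5 : 2 * Real.pi < 13 * S.θ 0 := by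
      rw [div_lt_iff₀ (by norm_num)] at h0
      linarith
    nlinarith
  exact S.no_neg_f' (c := 1 / 30) (by norm_num) (fun i => S.r90_f12 hn h2 i (hval i))

end Sys3

end Pool.Agent.NNb
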