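import Pool.Agent.NNb.Cone

/-!
Module RAY.  The side of a polygon in a boundary direction ends in an extreme point.

Proof.  `{t ≥ 0 | x + t e ∈ S}` is closed, bounded, convex, contains `0` and some `t > 0`; let `t1`
be its maximum.  If `x + t1 e` is in the open segment of `p, q ∈ S`, then `crs e (p - x)` and
`crs e (q - x)` have the same sign (`BDir`), and a strict convex combination of them is
`crs e (t1 e) = 0`, so both vanish: `p = x + s e`, `q = x + s' e` (as `e ≠ 0`), with `s, s' ≤ t1`
(maximality), and `t1` is a strict convex combination of `s, s'`: `s = s' = t1`.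
-/

namespace Pool.Agent.NNb

open Set

variable {S : Set ℂ} {x : ℂ}

theorem RAY_par {e w : ℂ} (he : e ≠ 0) (h : crs e w = 0) : ∃ s : ℝ, w = s • e := by
  have hn : 0 < e.re * e.re + e.im * e.im := by
    have := Complex.normSq_pos.2 he
    rwa [Complex.normSq_apply] at this
  refine ⟨(e.re * w.re + e.im * w.im) / (e.re * e.re + e.im * e.im), ?_⟩
  unfold crs at h
  apply Complex.ext
  · rw [Complex.smul_re, smul_eq_mul, div_mul_eq_mul_div, eq_div_iff hn.ne']
    linear_combination (e.im) * (-h)
  · rw [Complex.smul_im, smul_eq_mul, div_mul_eq_mul_div, eq_div_iff hn.ne']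
    linear_combination (e.re) * h

theorem IsPoly.ray_end (h : IsPoly S) (hx : x ∈ S) {e : ℂ} (he : BDir S x e) :
    ∃ t1 : ℝ, 0 < t1 ∧ x + t1 • e ∈ S.extremePoints ℝ ∧
      ∀ t : ℝ, 0 ≤ t → (x + t • e ∈ S ↔ t ≤ t1) := by
  obtain ⟨he0, ⟨t0, ht0, hmem0⟩, hside⟩ := he
  have hne : 0 < ‖e‖ := norm_pos_iff.2 he0
  have hcont : Continuous (fun t : ℝ => x + t • e) := by fun_prop
  have hclosed : IsClosed {t : ℝ | x + t • e ∈ S} := h.isClosed.preimage hcont
  obtain ⟨R, hR⟩ := h.isCompact.isBounded.exists_norm_le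
  have hbdd : BddAbove {t : ℝ | x + t • e ∈ S} := by
    refine ⟨(R + ‖x‖) / ‖e‖, fun t ht => ?_⟩
    rw [le_div_iff₀ hne]
    have h1 : ‖x + t • e‖ ≤ R := hR _ ht
    have h2 : ‖t • e‖ ≤ ‖x + t • e‖ + ‖x‖ := by
      have := norm_sub_le (x + t • e) x
      simpa using this
    rw [norm_smul, Real.norm_eq_abs] at h2
    nlinarith [le_abs_self t, norm_nonneg e]
  have hnonempty : {t : ℝ | x + t • e ∈ S}.Nonempty := ⟨t0, hmem0⟩
  have hmax : sSup {t : ℝ | x + t • e ∈ S} ∈ {t : ℝ | x + t • e ∈ S} :=
    hclosed.csSup_mem hnonempty hbdd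
  set t1 := sSup {t : ℝ | x + t • e ∈ S} with ht1
  have hle : ∀ t : ℝ, x + t • e ∈ S → t ≤ t1 := fun t ht => le_csSup hbdd ht
  have ht1pos : 0 < t1 := lt_of_lt_of_le ht0 (hle t0 hmem0)
  refine ⟨t1, ht1pos, ?_, ?_⟩
  · rw [mem_extremePoints]
    refine ⟨hmax, fun p hp q hq hpq => ?_⟩
    obtain ⟨a, b, ha, hb, hab, hcomb⟩ := hpq
    have hcr : a * crs e (p - x) + b * crs e (q - x) = 0 := by
      have h1 : a • (p - x) + b • (q - x) = t1 • e := by
        have : a • (p - x) + b • (q - x) = (a • p + b • q) - (a + b) • x := by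
          rw [smul_sub, smul_sub, add_smul]; ring
        rw [this, hcomb, hab, one_smul]; ring
      have h2 : crs e (a • (p - x) + b • (q - x)) = a * crs e (p - x) + b * crs e (q - x) := by
        simp only [crs, Complex.add_re, Complex.add_im, Complex.smul_re, Complex.smul_im,
          smul_eq_mul]
        ring
      rw [← h2, h1]
      simp only [crs, Complex.smul_re, Complex.smul_im, smul_eq_mul]
      ring
    have hp0 : crs e (p - x) = 0 := by
      rcases hside with hs | hs
      · have h1 := hs p hp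
        have h2 := hs q hq
        nlinarith [mul_nonneg ha.le h1, mul_nonneg hb.le h2]
      · have h1 := hs p hp
        have h2 := hs q hq
        nlinarith [mul_nonneg ha.le (neg_nonneg.2 h1), mul_nonneg hb.le (neg_nonneg.2 h2)]
    have hq0 : crs e (q - x) = 0 := by
      rw [hp0, mul_zero, zero_add] at hcr
      rcases mul_eq_zero.1 hcr with h1 | h1
      · exact absurd h1 hb.ne'
      · exact h1
    obtain ⟨s, hs⟩ := RAY_par he0 hp0
    obtain ⟨s', hs'⟩ := RAY_par he0 hq0
    have hpx : p = x + s • e := by rw [← hs]; ring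
    have hqx : q = x + s' • e := by rw [← hs']; ring
    have hs1 : s ≤ t1 := hle s (by rw [← hpx]; exact hp)
    have hs2 : s' ≤ t1 := hle s' (by rw [← hqx]; exact hq)
    have heq : a * s + b * s' = t1 := by
      have h1 : (a * s + b * s') • e = t1 • e := by
        have h2 : a • p + b • q = (a + b) • x + (a * s + b * s') • e := by
          rw [hpx, hqx, smul_add, smul_add, smul_smul, smul_smul, add_smul, add_smul]; ring
        rw [hcomb, hab, one_smul] at h2
        exact (add_left_cancel h2).symm
      exact smul_left_injective ℝ he0 h1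
    have hs1' : s = t1 := by
      by_contra hcon
      have hlt : s < t1 := lt_of_le_of_ne hs1 hcon
      have h1 : a * s < a * t1 := mul_lt_mul_of_pos_left hlt ha
      have h2 : b * s' ≤ b * t1 := mul_le_mul_of_nonneg_left hs2 hb.le
      have h3 : a * t1 + b * t1 = t1 := by rw [← add_mul, hab, one_mul]
      linarith
    have hs2' : s' = t1 := by
      by_contra hcon
      have hlt : s' < t1 := lt_of_le_of_ne hs2 hcon
      have h1 : b * s' < b * t1 := mul_lt_mul_of_pos_left hlt hb
      have h2 : a * s ≤ a * t1 := mul_le_mul_of_nonneg_left hs1 ha.le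
      have h3 : a * t1 + b * t1 = t1 := by rw [← add_mul, hab, one_mul]
      linarith
    rw [hpx, hqx, hs1', hs2']
    try exact ⟨rfl, rfl⟩
  · intro t ht
    constructor
    · exact hle t
    · intro htt
      have := h.convex hx hmax (a := 1 - t / t1) (b := t / t1)
        (by rw [sub_nonneg, div_le_one ht1pos]; exact htt) (div_nonneg ht ht1pos.le) (by ring)
      have e' : (1 - t / t1) • x + (t / t1) • (x + t1 • e) = x + t • e := by
        rw [smul_add, sub_smul, one_smul, smul_smul, div_mul_cancel₀ _ ht1pos.ne']; ring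
      rw [e'] at this
      exact this

end Pool.Agent.NNb
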