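import Mathlib

/-!
# Monohedral convex tilings with constant neighbour number (MP_4b6a99_co): the statement
-/

namespace Pool.Agent.NNb

open Set

/-- The Euclidean plane. -/
abbrev Plane := EuclideanSpace ℝ (Fin 2)

/-- A convex polygon: the convex hull of a finite set of points, with nonempty interior. -/
def IsConvexPolygon (P : Set Plane) : Prop :=
  (∃ V : Set Plane, V.Finite ∧ P = convexHull ℝ V) ∧ (interior P).Nonempty

/-- A tiling of the plane: a countable family of closed sets which cover the plane and have
pairwise disjoint interiors. -/
structure IsTiling {ι : Type} (T : ι → Set Plane) : Prop where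
  countable : Countable ι
  closed : ∀ i, IsClosed (T i)
  cover : ⋃ i, T i = Set.univ
  disj : ∀ i j, i ≠ j → Disjoint (interior (T i)) (interior (T j))

/-- Two distinct tiles are neighbours if they have a common boundary point. -/
def IsNeighbour {ι : Type} (T : ι → Set Plane) (i j : ι) : Prop :=
  i ≠ j ∧ (frontier (T i) ∩ frontier (T j)).Nonempty

/-- Every tile has exactly `n` neighbours. -/
def IsNNeighbour {ι : Type} (n : ℕ) (T : ι → Set Plane) : Prop :=
  ∀ i, {j | IsNeighbour T i j}.encard = n

/-- `K(n) = 1`: there are a convex polygon `P` and an `n`-neighbour tiling of the plane all of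
whose tiles are congruent to `P` (images of `P` under isometries, reflections allowed). -/
def KEqOne (n : ℕ) : Prop :=
  ∃ P : Set Plane, IsConvexPolygon P ∧ ∃ (ι : Type) (T : ι → Set Plane),
    IsTiling T ∧ IsNNeighbour n T ∧ ∀ i, ∃ e : Plane ≃ᵢ Plane, T i = e '' P

end Pool.Agent.NNb
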