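import Pool.Agent.NNb.SysData

/-!
Module SYSA.  The combinatorial data of a tiling satisfy the axioms of `Sys` (first part).
-/

namespace Pool.Agent.NNb

open Set

variable {ι : Type} {n : ℕ} (t : CTil ι n)

/-- a vector with vanishing cross product with `a` is a multiple of `a` -/
private theorem SYSA_col {a b : ℂ} (ha : a ≠ 0) (h : crs a b = 0) : ∃ s : ℝ, b = s • a := by
  unfold crs at h
  have hn : 0 < a.re * a.re + a.im * a.im := by
    rcases lt_or_eq_of_le (add_nonneg (mul_self_nonneg a.re) (mul_self_nonneg a.im)) with h1 | h1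
    · exact h1
    · exfalso
      apply ha
      have h2 : a.re * a.re = 0 := by
        have := mul_self_nonneg a.re
        have := mul_self_nonneg a.im
        linarith
      have h3 : a.im * a.im = 0 := by
        have := mul_self_nonneg a.re
        have := mul_self_nonneg a.im
        linarith
      apply Complex.ext
      · simpa using h2
      · simpa using h3
  refine ⟨(a.re * b.re + a.im * b.im) / (a.re * a.re + a.im * a.im), ?_⟩
  apply Complex.ext
  · simp only [Complex.real_smul, Complex.mul_re, Complex.ofReal_re, Complex.ofReal_im]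
    rw [zero_mul, sub_zero, div_mul_eq_mul_div, eq_div_iff hn.ne']
    linear_combination (-a.im) * h
  · simp only [Complex.real_smul, Complex.mul_im, Complex.ofReal_re, Complex.ofReal_im]
    rw [zero_mul, add_zero, div_mul_eq_mul_div, eq_div_iff hn.ne']
    linear_combination a.re * h

/-- the three positions of three collinear points -/
private theorem SYSA_three {x y z : ℂ} (_hxy : x ≠ y) (hyz : y ≠ z) (hxz : x ≠ z) {s : ℝ}
    (h : z - x = s • (y - x)) :
    z ∈ openSegment ℝ x y ∨ x ∈ openSegment ℝ z y ∨ y ∈ openSegment ℝ x z := by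
  have hz : z = x + s • (y - x) := by rw [← h]; ring
  have hs0 : s ≠ 0 := by
    rintro rfl
    apply hxz
    rw [hz]; simp
  have hs1 : s ≠ 1 := by
    rintro rfl
    apply hyz
    rw [hz]; simp
  rcases lt_or_gt_of_ne hs0 with h0 | h0
  · right; left
    refine ⟨1 / (1 - s), -s / (1 - s), by apply div_pos <;> linarith, by apply div_pos <;> linarith,
      ?_, ?_⟩
    · have : (1 - s) ≠ 0 := by linarith
      field_simp
      ring
    · have h1 : (1 - s) ≠ 0 := by linarith
      have h2 : (1 - s : ℂ) ≠ 0 := by exact_mod_cast h1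
      rw [hz]
      simp only [Complex.real_smul]
      push_cast
      field_simp
      ring
  · rcases lt_or_gt_of_ne hs1 with h1 | h1
    · left
      refine ⟨1 - s, s, by linarith, h0, by ring, ?_⟩
      rw [hz]
      simp only [Complex.real_smul]
      push_cast
      ring
    · right; right
      refine ⟨(s - 1) / s, 1 / s, by apply div_pos <;> linarith, by apply div_pos <;> linarith,
        ?_, ?_⟩
      · field_simp
        ring
      · have h2 : (s : ℂ) ≠ 0 := by exact_mod_cast hs0
        rw [hz]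
        simp only [Complex.real_smul]
        push_cast
        field_simp
        ring

/-- Two tiles have at most two nodes in common.  Proof: three distinct common points of `T i` and
`T j` are collinear (`pair_side` for two of them: the third is on both sides of the line), so one of
them lies in the open segment of the two others and is not a node by `CTil.third`. -/
theorem CTil.three_aux (i j : ι) (x y z : ℂ) (hij : i ≠ j) (h1 : x ∈ t.N i) (h2 : y ∈ t.N i)
    (h3 : z ∈ t.N i) (h4 : x ∈ t.N j) (h5 : y ∈ t.N j) (h6 : z ∈ t.N j) :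
    x = y ∨ y = z ∨ x = z := by
  rw [t.mem_N] at h1 h2 h3 h4 h5 h6
  by_contra hcon
  push Not at hcon
  obtain ⟨hxy, hyz, hxz⟩ := hcon
  have hside := pair_side (t.polyT i) (t.polyT j) (t.disj i j hij) hxy h1.2 h4.2 h2.2 h5.2
  have hcr : crs (y - x) (z - x) = 0 := by
    rcases hside with ⟨ha, hb⟩ | ⟨ha, hb⟩
    · exact le_antisymm (hb z h6.2) (ha z h3.2)
    · exact le_antisymm (ha z h3.2) (hb z h6.2)
  obtain ⟨s, hs⟩ := SYSA_col (sub_ne_zero.2 hxy.symm) hcr
  rcases SYSA_three hxy hyz hxz hs with h | h | h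
  · exact (t.third hij hxy h1.2 h4.2 h2.2 h5.2 h).2 h3.1
  · exact (t.third hij hyz.symm h3.2 h6.2 h2.2 h5.2 h).2 h1.1
  · exact (t.third hij hxz h1.2 h4.2 h3.2 h6.2 h).2 h2.1

/-- Proof: the midpoint of `x` and `y` is in all three tiles; if the tiles are distinct this
contradicts `CTil.third`. -/
theorem CTil.edge_aux (x y : ℂ) (i j k : ι) (hxy : x ≠ y) (h1 : x ∈ t.N i) (h2 : y ∈ t.N i)
    (h3 : x ∈ t.N j) (h4 : y ∈ t.N j) (h5 : x ∈ t.N k) (h6 : y ∈ t.N k) :
    i = j ∨ j = k ∨ i = k := by
  rw [t.mem_N] at h1 h2 h3 h4 h5 h6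
  by_cases hij : i = j
  · exact Or.inl hij
  · right
    have hz : (1 / 2 : ℝ) • x + (1 / 2 : ℝ) • y ∈ openSegment ℝ x y :=
      ⟨1 / 2, 1 / 2, by norm_num, by norm_num, by norm_num, rfl⟩
    have hk : (1 / 2 : ℝ) • x + (1 / 2 : ℝ) • y ∈ t.T k :=
      (t.polyT k).convex h5.2 h6.2 (by norm_num) (by norm_num) (by norm_num)
    rcases (t.third hij hxy h1.2 h3.2 h2.2 h4.2 hz).1 k hk with h | h
    · exact Or.inr h.symm
    · exact Or.inl h.symm

/-- Proof: `x ∈ frontier (T i)` (`node_frontier`); `two_bdir` gives the two boundary directions `c`,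
`d`; `partner_dir` gives a partner in each of these directions (distinct, as `d` is not a positive
multiple of `c`).  If `w` is a partner of `x` on `i`, then `w - x` is a boundary direction
(`pair_bdir`), so `w = x + s c` or `w = x + s d`, and `partner_unique` shows that it is one of the two
partners. -/
theorem CTil.part_aux (i : ι) (x : ℂ) (hx : x ∈ t.N i) : ∃ y z, y ≠ z ∧ Part t.N i x y ∧
    Part t.N i x z ∧ ∀ w, Part t.N i x w → w = y ∨ w = z := by
  have hx' := hx
  rw [t.mem_N] at hx'
  obtain ⟨hn, hxi⟩ := hx'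
  obtain ⟨c, d, hc, hd, hcd, hall⟩ := (t.polyT i).two_bdir (t.node_frontier hn hxi)
  obtain ⟨s, hs, hsn, hsi, ⟨j, hji, hxj, hyj⟩, -⟩ := t.partner_dir hxi hc
  obtain ⟨s', hs', hsn', hsi', ⟨j', hji', hxj', hyj'⟩, -⟩ := t.partner_dir hxi hd
  refine ⟨x + s • c, x + s' • d, ?_, ?_, ?_, ?_⟩
  · intro h
    have h1 : s • c = s' • d := add_left_cancel h
    apply hcd (s / s') (div_pos hs hs')
    have h2 : d = (1 / s') • (s' • d) := by
      rw [smul_smul, one_div_mul_cancel hs'.ne', one_smul]
    rw [h2, ← h1, smul_smul]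
    congr 1
    ring
  · refine ⟨hx, (t.mem_N i _).2 ⟨hsn, hsi⟩, ?_, j, hji, (t.mem_N j _).2 ⟨hn, hxj⟩,
      (t.mem_N j _).2 ⟨hsn, hyj⟩⟩
    intro h
    have h1 : s • c = 0 := by
      have := h.symm
      simpa using this
    rcases smul_eq_zero.1 h1 with h2 | h2
    · exact hs.ne' h2
    · exact hc.1 h2
  · refine ⟨hx, (t.mem_N i _).2 ⟨hsn', hsi'⟩, ?_, j', hji', (t.mem_N j' _).2 ⟨hn, hxj'⟩,
      (t.mem_N j' _).2 ⟨hsn', hyj'⟩⟩
    intro h
    have h1 : s' • d = 0 := by
      have := h.symm
      simpa using this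
    rcases smul_eq_zero.1 h1 with h2 | h2
    · exact hs'.ne' h2
    · exact hd.1 h2
  · rintro w ⟨-, hwi, hxw, k, hki, hxk, hwk⟩
    rw [t.mem_N] at hwi hxk hwk
    have hb := pair_bdir (t.polyT i) (t.polyT k) (t.disj i k hki.symm) hxw hxi hxk.2 hwi.2 hwk.2
    obtain ⟨r, hr, h | h⟩ := hall _ hb
    · left
      have hw : w = x + r • c := by rw [← h]; ring
      have hsr : s = r := by
        refine t.partner_unique hji hki hc.1 hs hr hsn (hw ▸ hwi.1) hxi hxj hxk.2 hsi hyj
          (hw ▸ hwi.2) (hw ▸ hwk.2)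
      rw [hw, hsr]
    · right
      have hw : w = x + r • d := by rw [← h]; ring
      have hsr : s' = r := by
        refine t.partner_unique hji' hki hd.1 hs' hr hsn' (hw ▸ hwi.1) hxi hxj' hxk.2 hsi' hyj'
          (hw ▸ hwi.2) (hw ▸ hwk.2)
      rw [hw, hsr]

end Pool.Agent.NNb
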