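import Pool.Agent.NNb.SysData

/-!
Module SYSB.  The combinatorial data of a tiling satisfy the axioms of `Sys` (second part).
-/

namespace Pool.Agent.NNb

open Set

variable {ι : Type} {n : ℕ} (t : CTil ι n)

private theorem SYSB_mem_nb (i j : ι) : j ∈ t.nb i ↔ j ≠ i ∧ (t.T i ∩ t.T j).Nonempty := by
  simp [CTil.nb]

/-- Proof: `common_ext`. -/
theorem CTil.nb_aux (i j : ι) : j ∈ t.nb i ↔ j ≠ i ∧ ∃ x, x ∈ t.N i ∧ x ∈ t.N j := by
  rw [SYSB_mem_nb]
  constructor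
  · rintro ⟨hji, hne⟩
    obtain ⟨x, hn, hi, hj⟩ := t.common_ext (Ne.symm hji) hne
    exact ⟨hji, x, (t.mem_N i x).2 ⟨hn, hi⟩, (t.mem_N j x).2 ⟨hn, hj⟩⟩
  · rintro ⟨hji, x, hi, hj⟩
    exact ⟨hji, x, ((t.mem_N i x).1 hi).2, ((t.mem_N j x).1 hj).2⟩

theorem CTil.nb_card_aux (i : ι) : (t.nb i).card = n := by
  have h := t.nbn i
  rw [(t.nb_finite i).encard_eq_coe_toFinset_card] at h
  exact_mod_cast h

theorem CTil.C_sub_aux (i : ι) : t.C i ⊆ t.N i := by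
  intro x hx
  rw [t.mem_C] at hx
  exact (t.mem_N i x).2 ⟨⟨i, hx⟩, hx.1⟩

/-- Proof: `T i = e '' P` and `image_extremePoints`. -/
theorem CTil.C_card_aux (i : ι) : (t.C i).card = t.m := by
  obtain ⟨e, he⟩ := t.iso i
  have h1 : (t.C i).card = ((t.T i).extremePoints ℝ).ncard := by
    unfold CTil.C
    rw [Set.ncard_eq_toFinset_card _ (t.polyT i).ext_finite]
  have h2 : t.m = (t.P.extremePoints ℝ).ncard := by
    unfold CTil.m
    rw [Set.ncard_eq_toFinset_card _ t.poly.ext_finite]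
  rw [h1, h2, he, image_extremePoints, Set.ncard_image_of_injective _ e.injective]

theorem CTil.ang_tile_aux (i : ι) :
    ∑ x ∈ t.C i, angl (t.T i) x = ((t.m : ℝ) - 2) * Real.pi := by
  have h := (t.polyT i).angl_sum
  rw [← t.C_card_aux i]
  exact h

theorem CTil.ang_node_aux (i : ι) (x : ℂ) (hx : x ∈ t.N i) :
    ∑ j ∈ t.tl x, angl (t.T j) x = 2 * Real.pi := by
  have hn := ((t.mem_N i x).1 hx).1
  have h : t.tl x = (t.finite_at x).toFinset := by
    unfold CTil.tl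
    rw [if_pos hn]
  rw [h]
  exact t.ang_node x

/-- Proof: `avg_abs` with a base point `b i ∈ T i`, `CTil.count`, `CTil.locfin`, `CTil.diam`
(`L = 2 D`), `nbn`. -/
theorem CTil.avg_aux (K : ι → ι → ℝ) (hK : ∀ i j, K i j = - K j i)
    (hB : ∃ B, ∀ i j, |K i j| ≤ B) (δ : ℝ) (hδ : 0 < δ) : ∃ i, -δ ≤ ∑ j ∈ t.nb i, K i j := by
  obtain ⟨i0, -⟩ := t.cover 0
  have hne : Nonempty ι := ⟨i0⟩
  choose b hb using fun i => (t.polyT i).nonempty
  obtain ⟨D, hD, hDd⟩ := t.diam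
  obtain ⟨C, hC⟩ := t.count
  have hsub : ∀ R : ℝ, {i | ‖b i‖ ≤ R} ⊆ {i | (t.T i ∩ Metric.closedBall 0 R).Nonempty} := by
    intro R i hi
    refine ⟨b i, hb i, ?_⟩
    rw [Metric.mem_closedBall, dist_zero_right]
    exact hi
  refine avg_abs b C (2 * D) (fun R => (t.locfin R).subset (hsub R)) ?_ t.nb n
    t.nb_card_aux ?_ ?_ K hK hB δ hδ
  · intro R hR
    refine le_trans ?_ (hC R hR)
    exact_mod_cast Set.ncard_le_ncard (hsub R) (t.locfin R)
  · intro i j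
    rw [SYSB_mem_nb, SYSB_mem_nb, Set.inter_comm, ne_comm]
  · intro i j hj
    rw [SYSB_mem_nb] at hj
    obtain ⟨-, x, hxi, hxj⟩ := hj
    rw [← dist_eq_norm]
    have h1 := hDd i (b i) (hb i) x hxi
    have h2 := hDd j x hxj (b j) (hb j)
    have h3 := dist_triangle (b i) x (b j)
    linarith

end Pool.Agent.NNb
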