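import Pool.Agent.NNb.TilPart
import Pool.Agent.NNb.Avg
import Pool.Agent.NNb.AngSum
import Pool.Agent.NNb.AngImg

/-!
The combinatorial data of a tiling (definitions and trivial facts; nothing to prove).
-/

namespace Pool.Agent.NNb

open Set

variable {ι : Type} {n : ℕ} (t : CTil ι n)

/-- the nodes on a tile -/
noncomputable def CTil.N (i : ι) : Finset ℂ := (t.nodes_finite i).toFinset

/-- the corners of a tile -/
noncomputable def CTil.C (i : ι) : Finset ℂ := (t.polyT i).ext_finite.toFinset

open Classical in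
/-- the tiles at a node -/
noncomputable def CTil.tl (x : ℂ) : Finset ι :=
  if IsNode t.T x then (t.finite_at x).toFinset else ∅

theorem CTil.nb_finite (i : ι) : {j | j ≠ i ∧ (t.T i ∩ t.T j).Nonempty}.Finite := by
  have h := t.nbn i
  exact Set.finite_of_encard_eq_coe h

/-- the neighbours of a tile -/
noncomputable def CTil.nb (i : ι) : Finset ι := (t.nb_finite i).toFinset

/-- the number of corners of the prototile -/
noncomputable def CTil.m : ℕ := t.poly.ext_finite.toFinset.card

/-- membership -/
theorem CTil.mem_N (i : ι) (x : ℂ) : x ∈ t.N i ↔ IsNode t.T x ∧ x ∈ t.T i := by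
  simp [CTil.N]

theorem CTil.mem_C (i : ι) (x : ℂ) : x ∈ t.C i ↔ x ∈ (t.T i).extremePoints ℝ := by
  simp [CTil.C]

theorem CTil.mem_tl (i : ι) (x : ℂ) : i ∈ t.tl x ↔ x ∈ t.N i := by
  rw [t.mem_N]
  unfold CTil.tl
  split_ifs with h
  · simp [h]
  · simp [h]

end Pool.Agent.NNb
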