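import Pool.Agent.NNb.SysA
import Pool.Agent.NNb.SysB

/-!
The combinatorial system of a tiling (final, nothing to prove).
-/

namespace Pool.Agent.NNb

open Set

variable {ι : Type} {n : ℕ} (t : CTil ι n)

theorem CTil.three_le_m : 3 ≤ t.m := t.poly.three_le_card

/-- the combinatorial system of a tiling -/
noncomputable def CTil.toSys (m : ℕ) (hm : t.m = m) : Sys ι ℂ m n where
  N := t.N
  C := t.C
  tl := t.tl
  nb := t.nb
  ang := fun i x => angl (t.T i) x
  mem_tl := t.mem_tl
  mem_nb := t.nb_aux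
  nb_card := t.nb_card_aux
  C_sub := t.C_sub_aux
  C_card := fun i => by rw [← hm]; exact t.C_card_aux i
  corner := fun i x hx => by
    obtain ⟨⟨j, hj⟩, _⟩ := (t.mem_N i x).1 hx
    exact ⟨j, (t.mem_C j x).2 hj⟩
  three := t.three_aux
  edge := t.edge_aux
  part := t.part_aux
  ang_corner := fun i x hx => (t.polyT i).angl_corner ((t.mem_C i x).1 hx)
  ang_flat := fun i x hx hc => (t.polyT i).angl_flat
    (t.node_frontier ((t.mem_N i x).1 hx).1 ((t.mem_N i x).1 hx).2)
    (fun h => hc ((t.mem_C i x).2 h))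
  ang_node := t.ang_node_aux
  ang_tile := fun i => by rw [← hm]; exact t.ang_tile_aux i
  avg := t.avg_aux

end Pool.Agent.NNb
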