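import Pool.Agent.NNb.Pair

/-!
Module TILA.  Local finiteness of a tiling by congruent convex polygons.

`polyT`: `IsPoly.image`.  `diam`: all tiles are isometric to the bounded set `P`.
`count`: let `A = volume P > 0` (interior nonempty) and `D` a bound for the diameters.  A tile which
meets `closedBall 0 R` is contained in `closedBall 0 (R + D)`; the interiors of the tiles are open,
pairwise disjoint, of measure `A` (isometries of `ℂ` preserve the volume: they are affine with a
linear isometry as linear part).  So any finite set of such tiles has at most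
`π (R + D)² / A` elements; hence the set of these tiles is finite with
`ncard ≤ π (R + D)² / A ≤ C (R + 1)²`.
-/

namespace Pool.Agent.NNb

open Set MeasureTheory

variable {ι : Type} {n : ℕ} (t : CTil ι n)

theorem TILA_mp (e : ℂ ≃ᵢ ℂ) : MeasurePreserving (e : ℂ → ℂ) volume volume := by
  set A : ℂ ≃ᵃⁱ[ℝ] ℂ := e.toRealAffineIsometryEquiv with hA
  have hcoe : ∀ z, e z = A z := fun z => by
    rw [hA, IsometryEquiv.coeFn_toRealAffineIsometryEquiv]
  have h1 : MeasurePreserving (fun z : ℂ => A.linearIsometryEquiv z) volume volume :=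
    A.linearIsometryEquiv.measurePreserving
  have h2 : MeasurePreserving (fun z : ℂ => z + A 0) volume volume :=
    measurePreserving_add_right volume (A 0)
  have h3 := h2.comp h1
  have h4 : (e : ℂ → ℂ) = (fun z : ℂ => z + A 0) ∘ (fun z : ℂ => A.linearIsometryEquiv z) := by
    funext z
    simp only [Function.comp_apply]
    rw [hcoe]
    have := A.map_vadd 0 z
    simpa using this
  rw [h4]
  exact h3

theorem TILA_vol (e : ℂ ≃ᵢ ℂ) (S : Set ℂ) :
    volume (interior (e '' S)) = volume (interior S) := by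
  have h1 : interior (e '' S) = e '' interior S := (e.toHomeomorph.image_interior S).symm
  have h2 : e '' interior S = e.symm ⁻¹' interior S := e.toEquiv.image_eq_preimage_symm _
  rw [h1, h2]
  exact (TILA_mp e.symm).measure_preimage isOpen_interior.measurableSet.nullMeasurableSet

theorem CTil.polyT (i : ι) : IsPoly (t.T i) := by
  obtain ⟨e, he⟩ := t.iso i
  rw [he]
  exact t.poly.image e

theorem CTil.diam : ∃ D : ℝ, 0 < D ∧ ∀ i, ∀ x ∈ t.T i, ∀ y ∈ t.T i, dist x y ≤ D := by
  have hb : Bornology.IsBounded t.P := t.poly.isCompact.isBounded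
  refine ⟨Metric.diam t.P + 1, by have := Metric.diam_nonneg (s := t.P); linarith, ?_⟩
  intro i x hx y hy
  obtain ⟨e, he⟩ := t.iso i
  rw [he] at hx hy
  obtain ⟨a, ha, rfl⟩ := hx
  obtain ⟨b, hb', rfl⟩ := hy
  rw [e.isometry.dist_eq]
  have := Metric.dist_le_diam_of_mem hb ha hb'
  linarith

theorem TILA_key : ∃ C : ℝ, 0 ≤ C ∧ ∀ R : ℝ, 0 ≤ R → ∀ s : Finset ι,
    (∀ i ∈ s, (t.T i ∩ Metric.closedBall 0 R).Nonempty) → (s.card : ℝ) ≤ C * (R + 1) ^ 2 := by
  obtain ⟨D, hD0, hD⟩ := t.diam
  set V := volume (interior t.P) with hV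
  have hVpos : 0 < V := isOpen_interior.measure_pos volume t.poly.2
  have hVfin : V < ⊤ :=
    lt_of_le_of_lt (measure_mono interior_subset) t.poly.isCompact.measure_lt_top
  have hVr : 0 < V.toReal := ENNReal.toReal_pos hVpos.ne' hVfin.ne
  refine ⟨Real.pi * (D + 1) ^ 2 / V.toReal, by positivity, ?_⟩
  intro R hR s hs
  have hsub : (⋃ i ∈ s, interior (t.T i)) ⊆ Metric.closedBall (0 : ℂ) (R + D) := by
    intro z hz
    simp only [mem_iUnion] at hz
    obtain ⟨i, hi, hz⟩ := hz
    obtain ⟨w, hw1, hw2⟩ := hs i hi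
    have h1 := hD i z (interior_subset hz) w hw1
    rw [Metric.mem_closedBall] at hw2 ⊢
    calc dist z 0 ≤ dist z w + dist w 0 := dist_triangle _ _ _
      _ ≤ R + D := by linarith
  have hvol : ∀ i, volume (interior (t.T i)) = V := by
    intro i
    obtain ⟨e, he⟩ := t.iso i
    rw [he, TILA_vol]
  have hsum : volume (⋃ i ∈ s, interior (t.T i)) = s.card * V := by
    rw [measure_biUnion_finset]
    · simp [hvol]
    · intro i _ j _ hij
      exact t.disj i j hij
    · intro i _
      exact isOpen_interior.measurableSet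
  have hle : (s.card : ENNReal) * V ≤ volume (Metric.closedBall (0 : ℂ) (R + D)) := by
    rw [← hsum]; exact measure_mono hsub
  rw [Complex.volume_closedBall] at hle
  have hreal : (s.card : ℝ) * V.toReal ≤ Real.pi * (R + D) ^ 2 := by
    have h1 : ((s.card : ENNReal) * V).toReal
        ≤ (ENNReal.ofReal (R + D) ^ 2 * (NNReal.pi : ENNReal)).toReal := by
      refine ENNReal.toReal_mono ?_ hle
      exact ENNReal.mul_ne_top (ENNReal.pow_ne_top ENNReal.ofReal_ne_top) ENNReal.coe_ne_top
    rw [ENNReal.toReal_mul, ENNReal.toReal_mul, ENNReal.toReal_pow,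
      ENNReal.toReal_ofReal (by linarith)] at h1
    simp only [ENNReal.toReal_natCast, ENNReal.coe_toReal, NNReal.coe_real_pi] at h1
    linarith
  have h3 : (R + D) ^ 2 ≤ (D + 1) ^ 2 * (R + 1) ^ 2 := by
    rw [← mul_pow]
    apply pow_le_pow_left₀ (by linarith)
    nlinarith
  rw [div_mul_eq_mul_div, le_div_iff₀ hVr]
  calc (s.card : ℝ) * V.toReal ≤ Real.pi * (R + D) ^ 2 := hreal
    _ ≤ Real.pi * ((D + 1) ^ 2 * (R + 1) ^ 2) :=
        mul_le_mul_of_nonneg_left h3 Real.pi_pos.le
    _ = Real.pi * (D + 1) ^ 2 * (R + 1) ^ 2 := by ring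

theorem CTil.locfin (R : ℝ) : {i | (t.T i ∩ Metric.closedBall 0 R).Nonempty}.Finite := by
  obtain ⟨C, _, hC⟩ := TILA_key t
  by_contra hinf
  have hinf' : {i | (t.T i ∩ Metric.closedBall 0 R).Nonempty}.Infinite := hinf
  obtain ⟨s, hs, hcard⟩ := hinf'.exists_subset_card_eq (⌊C * (|R| + 1) ^ 2⌋₊ + 1)
  have h1 := hC |R| (abs_nonneg R) s (fun i hi => by
    obtain ⟨z, hz1, hz2⟩ := hs hi
    exact ⟨z, hz1, Metric.closedBall_subset_closedBall (le_abs_self R) hz2⟩)
  rw [hcard] at h1
  have h2 := Nat.lt_floor_add_one (C * (|R| + 1) ^ 2)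
  push_cast at h1
  linarith

theorem CTil.count : ∃ C : ℝ, ∀ R : ℝ, 0 ≤ R →
    ({i | (t.T i ∩ Metric.closedBall 0 R).Nonempty}.ncard : ℝ) ≤ C * (R + 1) ^ 2 := by
  obtain ⟨C, _, hC⟩ := TILA_key t
  refine ⟨C, fun R hR => ?_⟩
  have hf := t.locfin R
  rw [Set.ncard_eq_toFinset_card _ hf]
  exact hC R hR hf.toFinset (fun i hi => by simpa using hi)

end Pool.Agent.NNb
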