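import Pool.Agent.NNb.TilA

/-!
Module TILB.  First consequences of local finiteness.

`near`: among the finitely many tiles meeting `closedBall x 1` (they meet `closedBall 0 (‖x‖ + 1)`)
those which do not contain `x` have positive distance from `x` (they are closed).
`frontier_of_two`: `pair_int`.
`third`: a point inside the segment between two common points of two tiles is not in a third tile
(`pair_third`) and is not a node (it is in the open segment of two distinct points of `T i` and of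
`T j`, so it is not extreme in them).
-/

namespace Pool.Agent.NNb

open Set

variable {ι : Type} {n : ℕ} (t : CTil ι n)

theorem CTil.finite_at (x : ℂ) : {i | x ∈ t.T i}.Finite := by
  refine (t.locfin ‖x‖).subset ?_
  intro i hi
  exact ⟨x, hi, by simp⟩

theorem CTil.near (x : ℂ) : ∃ r > 0, ∀ i, (t.T i ∩ Metric.ball x r).Nonempty → x ∈ t.T i := by
  have hfin : {i | (t.T i ∩ Metric.closedBall 0 (‖x‖ + 1)).Nonempty ∧ x ∉ t.T i}.Finite :=
    (t.locfin (‖x‖ + 1)).subset (fun i hi => hi.1)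
  set C : Set ℂ := ⋃ i ∈ {i | (t.T i ∩ Metric.closedBall 0 (‖x‖ + 1)).Nonempty ∧ x ∉ t.T i}, t.T i
    with hC
  have hcl : IsClosed C := by
    apply hfin.isClosed_biUnion
    intro i _
    exact (t.polyT i).isClosed
  have hx : x ∉ C := by
    intro h
    simp only [hC, mem_iUnion, mem_ofPred_eq] at h
    obtain ⟨i, hi, hxi⟩ := h
    exact hi.2 hxi
  obtain ⟨r, hr, hball⟩ := Metric.isOpen_iff.mp hcl.isOpen_compl x hx
  refine ⟨min r 1, by positivity, ?_⟩
  rintro i ⟨z, hz1, hz2⟩
  by_contra hxi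
  rw [Metric.mem_ball] at hz2
  have hz3 : z ∈ C := by
    simp only [hC, mem_iUnion, mem_ofPred_eq]
    refine ⟨i, ⟨⟨z, hz1, ?_⟩, hxi⟩, hz1⟩
    rw [Metric.mem_closedBall]
    have h1 : dist z x < 1 := lt_of_lt_of_le hz2 (min_le_right _ _)
    have h2 : dist z 0 ≤ dist z x + dist x 0 := dist_triangle _ _ _
    have h3 : dist x 0 = ‖x‖ := dist_zero_right x
    linarith
  exact hball (Metric.mem_ball.mpr (lt_of_lt_of_le hz2 (min_le_left _ _))) hz3

/-- a common point of two tiles is a boundary point of both -/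
theorem CTil.frontier_of_two {i j : ι} (hij : i ≠ j) {x : ℂ} (hi : x ∈ t.T i) (hj : x ∈ t.T j) :
    x ∈ frontier (t.T i) := by
  have h := pair_int (t.polyT i) (t.polyT j) (t.disj i j hij)
  refine ⟨subset_closure hi, fun hint => ?_⟩
  exact Set.disjoint_left.mp h hint hj

theorem CTil.third {i j : ι} (hij : i ≠ j) {x y z : ℂ} (hxy : x ≠ y) (hx1 : x ∈ t.T i)
    (hx2 : x ∈ t.T j) (hy1 : y ∈ t.T i) (hy2 : y ∈ t.T j) (hz : z ∈ openSegment ℝ x y) :
    (∀ k, z ∈ t.T k → k = i ∨ k = j) ∧ ¬ IsNode t.T z := by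
  have h1 : ∀ k, z ∈ t.T k → k = i ∨ k = j := by
    intro k hk
    by_contra hcon
    push Not at hcon
    exact pair_third (t.polyT i) (t.polyT j) (t.polyT k) (t.disj i j hij)
      (t.disj i k hcon.1.symm) (t.disj j k hcon.2.symm) hxy hx1 hx2 hy1 hy2 hz hk
  refine ⟨h1, ?_⟩
  rintro ⟨k, hk⟩
  have hne : ∀ S : Set ℂ, x ∈ S → y ∈ S → z ∈ S.extremePoints ℝ → False := by
    intro S hxS hyS hzS
    have h2 := (mem_extremePoints.mp hzS).2 x hxS y hyS hz
    exact hxy (h2.1.trans h2.2.symm)
  rcases h1 k (extremePoints_subset hk) with rfl | rfl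
  · exact hne _ hx1 hy1 hk
  · exact hne _ hx2 hy2 hk

end Pool.Agent.NNb
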