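import Pool.Agent.NNb.TilBasic
import Pool.Agent.NNb.Angl

/-!
Module TILN.  Around a point the tiles fill the full angle.

`cones_cover`: with `r` from `CTil.near x` take `s > 0` with `‖s v‖ < r`; the point `x + s v` is in
some tile `T i`, this tile meets the ball, so `x ∈ T i`, and `v ∈ dcone (T i) x`.
`cones_null`: for `i ≠ j` the set `dcone (T i) x ∩ dcone (T j) x` is convex with empty interior
(an interior point `v`, scaled to be small, would give by `IsPoly.loc_interior` a common interior
point of `T i` and `T j`), hence a null set (`Convex.addHaar_frontier`: a convex set with empty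
interior is contained in its frontier).
`ang_node`: the sets `dcone (T i) x ∩ ball 0 1`, `x ∈ T i`, cover `ball 0 1` (volume `π`), overlap in
null sets, and are null-measurable (closed ∩ open).
`bdir_other`: `e` is not in the interior of the closed set `dcone (T i) x`
(`IsPoly.bdir_not_interior`), so it is in the closure of the complement, which is contained in the
finite union of the closed cones `dcone (T j) x`, `j ≠ i`, `x ∈ T j` (`cones_cover`).
-/

namespace Pool.Agent.NNb

open Set

/-- a positive multiple of an interior direction is an interior direction -/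
theorem interior_dcone_smul {S : Set ℂ} {x v : ℂ} {t : ℝ} (ht : 0 < t)
    (hv : v ∈ interior (dcone S x)) : t • v ∈ interior (dcone S x) := by
  refine mem_interior.mpr ⟨(fun w : ℂ => t • w) '' interior (dcone S x), ?_, ?_, ?_⟩
  · rintro w ⟨u, hu, rfl⟩
    exact dcone_smul ht (interior_subset hu)
  · exact isOpenMap_smul₀ ht.ne' _ isOpen_interior
  · exact mem_image_of_mem _ hv

/-- small positive multiples -/
theorem exists_small_smul {r : ℝ} (hr : 0 < r) (v : ℂ) : ∃ s : ℝ, 0 < s ∧ ‖s • v‖ < r := by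
  have h1 : 0 < ‖v‖ + 1 := by positivity
  refine ⟨r / (‖v‖ + 1), div_pos hr h1, ?_⟩
  rw [norm_smul, Real.norm_eq_abs, abs_of_pos (div_pos hr h1), div_mul_eq_mul_div, div_lt_iff₀ h1]
  nlinarith

variable {ι : Type} {n : ℕ} (t : CTil ι n)

theorem CTil.cones_cover (x v : ℂ) : ∃ i, x ∈ t.T i ∧ v ∈ dcone (t.T i) x := by
  obtain ⟨r, hr, h⟩ := t.near x
  obtain ⟨s, hs, hsv⟩ := exists_small_smul hr v
  obtain ⟨i, hi⟩ := t.cover (x + s • v)
  refine ⟨i, h i ⟨x + s • v, hi, ?_⟩, s, hs, hi⟩
  rw [Metric.mem_ball, dist_eq_norm, add_sub_cancel_left]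
  exact hsv

theorem CTil.cones_null (x : ℂ) {i j : ι} (hij : i ≠ j) (hi : x ∈ t.T i) (hj : x ∈ t.T j) :
    MeasureTheory.volume (dcone (t.T i) x ∩ dcone (t.T j) x) = 0 := by
  have hc : Convex ℝ (dcone (t.T i) x ∩ dcone (t.T j) x) :=
    ((t.polyT i).dcone_convex hi).inter ((t.polyT j).dcone_convex hj)
  have hint : interior (dcone (t.T i) x ∩ dcone (t.T j) x) = ∅ := by
    rw [Set.eq_empty_iff_forall_notMem]
    intro v hv
    rw [interior_inter] at hv
    obtain ⟨r1, hr1, h1⟩ := (t.polyT i).loc_interior hi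
    obtain ⟨r2, hr2, h2⟩ := (t.polyT j).loc_interior hj
    obtain ⟨s, hs, hsv⟩ := exists_small_smul (lt_min hr1 hr2) v
    have a1 := (h1 (s • v) (lt_of_lt_of_le hsv (min_le_left _ _))).mpr
      (interior_dcone_smul hs hv.1)
    have a2 := (h2 (s • v) (lt_of_lt_of_le hsv (min_le_right _ _))).mpr
      (interior_dcone_smul hs hv.2)
    exact Set.disjoint_left.mp (t.disj i j hij) a1 a2
  refine MeasureTheory.measure_mono_null ?_
    (hc.addHaar_frontier MeasureTheory.volume)
  intro v hv
  rw [frontier, hint, sdiff_empty]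
  exact subset_closure hv

theorem CTil.ang_node (x : ℂ) :
    ∑ i ∈ (t.finite_at x).toFinset, angl (t.T i) x = 2 * Real.pi := by
  have hmem : ∀ i, i ∈ (t.finite_at x).toFinset ↔ x ∈ t.T i := by
    intro i
    simp
  have hU : (⋃ i ∈ (t.finite_at x).toFinset, (dcone (t.T i) x ∩ Metric.ball 0 1)) =
      Metric.ball (0 : ℂ) 1 := by
    ext v
    constructor
    · intro hv
      simp only [mem_iUnion] at hv
      obtain ⟨i, _, hv⟩ := hv
      exact hv.2
    · intro hv
      obtain ⟨i, hi, hvi⟩ := t.cones_cover x v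
      simp only [mem_iUnion]
      exact ⟨i, (hmem i).mpr hi, hvi, hv⟩
  have hmeas := MeasureTheory.measure_biUnion_finset₀ (μ := MeasureTheory.volume)
    (s := (t.finite_at x).toFinset) (f := fun i => dcone (t.T i) x ∩ Metric.ball 0 1) ?_ ?_
  · rw [hU, Complex.volume_ball] at hmeas
    have h2 : (∑ i ∈ (t.finite_at x).toFinset,
        MeasureTheory.volume (dcone (t.T i) x ∩ Metric.ball 0 1)).toReal = Real.pi := by
      rw [← hmeas]
      simp [NNReal.coe_real_pi]
    rw [ENNReal.toReal_sum] at h2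
    · unfold angl
      rw [← Finset.mul_sum, h2]
    · intro i _
      refine ne_of_lt (lt_of_le_of_lt (MeasureTheory.measure_mono inter_subset_right) ?_)
      exact MeasureTheory.measure_ball_lt_top
  · intro i hi j hj hij
    have hi' := (hmem i).mp (by simpa using hi)
    have hj' := (hmem j).mp (by simpa using hj)
    refine MeasureTheory.measure_mono_null ?_ (t.cones_null x hij hi' hj')
    intro v hv
    exact ⟨hv.1.1, hv.2.1⟩
  · intro i hi
    have hi' := (hmem i).mp hi
    exact ((((t.polyT i).dcone_closed hi').measurableSet).inter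
      measurableSet_ball).nullMeasurableSet

theorem CTil.bdir_other {i : ι} {x e : ℂ} (hx : x ∈ t.T i) (he : BDir (t.T i) x e) :
    ∃ j, j ≠ i ∧ x ∈ t.T j ∧ e ∈ dcone (t.T j) x := by
  have h1 := (t.polyT i).bdir_not_interior hx he
  have h2 : e ∈ closure (dcone (t.T i) x)ᶜ := by
    rw [closure_compl]
    exact h1
  have hfin : {j | j ≠ i ∧ x ∈ t.T j}.Finite := (t.finite_at x).subset fun j hj => hj.2
  have hcl : IsClosed (⋃ j ∈ {j | j ≠ i ∧ x ∈ t.T j}, dcone (t.T j) x) :=
    hfin.isClosed_biUnion fun j hj => (t.polyT j).dcone_closed hj.2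
  have hsub : (dcone (t.T i) x)ᶜ ⊆ ⋃ j ∈ {j | j ≠ i ∧ x ∈ t.T j}, dcone (t.T j) x := by
    intro v hv
    obtain ⟨j, hj, hvj⟩ := t.cones_cover x v
    simp only [mem_iUnion]
    refine ⟨j, ⟨?_, hj⟩, hvj⟩
    rintro rfl
    exact hv hvj
  have h3 := (hcl.closure_subset_iff.mpr hsub) h2
  simp only [mem_iUnion] at h3
  obtain ⟨j, ⟨hj1, hj2⟩, hj3⟩ := h3
  exact ⟨j, hj1, hj2, hj3⟩

end Pool.Agent.NNb
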