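import Pool.Agent.NNb.TilNode
import Pool.Agent.NNb.Ray

/-!
Module TILP.  Nodes and partners.

`node_frontier`: a node `x ∈ T i` is extreme in some `T j`; if `j = i` use `IsPoly.ext_frontier`,
otherwise `CTil.frontier_of_two`.
`nodes_finite`: a node `z ∈ T i` is an extreme point of one of the finitely many tiles which meet
`T i` (`CTil.locfin`), each with finitely many extreme points.
`partner_dir`: let `e` be a boundary direction of `T i` at `x ∈ T i`.  By `ray_end` the ray ends in an
extreme point `x + t1 e` of `T i`, which is a node; let `s0 ∈ (0, t1]` be the least parameter with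
`x + s0 e` a node of `T i` (finite set).  Take `j ≠ i` from `bdir_other`: `x ∈ T j`,
`e ∈ dcone (T j) x`.  `x` and `x + s e` (small `s > 0`) are common points of `T i` and `T j`, so by
`pair_bdir` (for `T j`, `T i`) `e` is a boundary direction of `T j` at `x` too (`BDir` is invariant
under positive multiples), and by `ray_end` for `T j` the ray leaves `T j` in an extreme point
`x + t2 e` of `T j`.  If `t2 < s0` then `x + t2 e` is a node in `T i` (`t2 < t1`), contradiction with
the choice of `s0`.  So `s0 ≤ t2` and `x + s0 e ∈ T j`.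
`partner_unique`: if `s < s'` then `x + s e` is in the open segment of `x` and `x + s' e`, two common
points of `T i` and `T j'`; it is not a node by `CTil.third`.
`common_ext`: from `pair_ext`.
-/

namespace Pool.Agent.NNb

open Set

/-- the boundary directions are invariant under positive factors -/
theorem BDir.of_smul {S : Set ℂ} {x e : ℂ} {c : ℝ} (hc : 0 < c) (h : BDir S x (c • e)) :
    BDir S x e := by
  obtain ⟨h1, h2, h3⟩ := h
  have key : ∀ w : ℂ, crs (c • e) w = c * crs e w := by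
    intro w
    unfold crs
    simp only [Complex.real_smul, Complex.mul_re, Complex.mul_im, Complex.ofReal_re,
      Complex.ofReal_im]
    ring
  refine ⟨?_, ?_, ?_⟩
  · rintro rfl
    exact h1 (smul_zero c)
  · have := dcone_smul (inv_pos.mpr hc) h2
    rwa [smul_smul, inv_mul_cancel₀ hc.ne', one_smul] at this
  · rcases h3 with h3 | h3
    · left
      intro z hz
      have := h3 z hz
      rw [key] at this
      exact nonneg_of_mul_nonneg_right this hc
    · right
      intro z hz
      have := h3 z hz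
      rw [key] at this
      by_contra hcon
      push Not at hcon
      have := mul_pos hc hcon
      linarith

/-- convexity along a ray -/
theorem ray_convex {S : Set ℂ} (hS : Convex ℝ S) {x e : ℂ} (hx : x ∈ S) {a b : ℝ} (ha : 0 ≤ a)
    (hab : a ≤ b) (hb : x + b • e ∈ S) : x + a • e ∈ S := by
  rcases eq_or_lt_of_le (ha.trans hab) with hb0 | hb0
  · have : a = 0 := le_antisymm (hab.trans hb0.ge) ha
    rw [this, zero_smul, add_zero]
    exact hx
  · have h := hS.add_smul_sub_mem hx hb (t := a / b)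
      ⟨div_nonneg ha hb0.le, (div_le_one hb0).mpr hab⟩
    rwa [add_sub_cancel_left, smul_smul, div_mul_cancel₀ _ hb0.ne'] at h

theorem mem_openSegment_ray {x e : ℂ} {a b : ℝ} (ha : 0 < a) (hab : a < b) :
    x + a • e ∈ openSegment ℝ x (x + b • e) := by
  have hb : 0 < b := ha.trans hab
  refine ⟨1 - a / b, a / b, sub_pos.mpr ((div_lt_one hb).mpr hab), div_pos ha hb, by ring, ?_⟩
  rw [smul_add, smul_smul, div_mul_cancel₀ _ hb.ne', ← add_assoc, ← add_smul,
    sub_add_cancel, one_smul]

variable {ι : Type} {n : ℕ} (t : CTil ι n)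

theorem CTil.node_frontier {i : ι} {x : ℂ} (hn : IsNode t.T x) (hx : x ∈ t.T i) :
    x ∈ frontier (t.T i) := by
  obtain ⟨j, hj⟩ := hn
  by_cases hij : i = j
  · subst hij
    exact (t.polyT i).ext_frontier hj
  · exact t.frontier_of_two hij hx hj.1

theorem CTil.nodes_finite (i : ι) : {z | IsNode t.T z ∧ z ∈ t.T i}.Finite := by
  obtain ⟨R, hR⟩ := (t.polyT i).isCompact.isBounded.subset_closedBall 0
  have hf : (⋃ j ∈ {j | (t.T j ∩ Metric.closedBall 0 R).Nonempty},
      (t.T j).extremePoints ℝ).Finite :=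
    (t.locfin R).biUnion fun j _ => (t.polyT j).ext_finite
  refine hf.subset ?_
  rintro z ⟨⟨j, hj⟩, hz⟩
  simp only [mem_iUnion]
  exact ⟨j, ⟨z, hj.1, hR hz⟩, hj⟩

theorem CTil.partner_dir {i : ι} {x e : ℂ} (hx : x ∈ t.T i) (he : BDir (t.T i) x e) :
    ∃ s : ℝ, 0 < s ∧ IsNode t.T (x + s • e) ∧ x + s • e ∈ t.T i ∧
      (∃ j, j ≠ i ∧ x ∈ t.T j ∧ x + s • e ∈ t.T j) ∧
      ∀ s' : ℝ, 0 < s' → s' < s → ¬ IsNode t.T (x + s' • e) := by
  obtain ⟨t1, ht1, hext, hray⟩ := (t.polyT i).ray_end hx he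
  have he0 : e ≠ 0 := he.1
  have hinj : Function.Injective (fun s : ℝ => x + s • e) := by
    intro a b hab
    have h : a • e = b • e := add_left_cancel hab
    exact smul_left_injective ℝ he0 h
  have hfin : {s : ℝ | 0 < s ∧ IsNode t.T (x + s • e) ∧ x + s • e ∈ t.T i}.Finite := by
    have h1 : ((fun s : ℝ => x + s • e) ⁻¹' {z | IsNode t.T z ∧ z ∈ t.T i}).Finite :=
      (t.nodes_finite i).preimage hinj.injOn
    exact h1.subset fun s hs => hs.2
  have hne : {s : ℝ | 0 < s ∧ IsNode t.T (x + s • e) ∧ x + s • e ∈ t.T i}.Nonempty :=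
    ⟨t1, ht1, ⟨i, hext⟩, hext.1⟩
  obtain ⟨s0, hs0, hmin⟩ := hfin.exists_minimalFor id _ hne
  have hle : ∀ s : ℝ, 0 < s → IsNode t.T (x + s • e) → x + s • e ∈ t.T i → s0 ≤ s := by
    intro s h1 h2 h3
    by_contra hcon
    push Not at hcon
    have := hmin (j := s) ⟨h1, h2, h3⟩ hcon.le
    exact absurd this (not_le.mpr hcon)
  have hs01 : s0 ≤ t1 := hle t1 ht1 ⟨i, hext⟩ hext.1
  obtain ⟨j, hji, hxj, hej⟩ := t.bdir_other hx he
  obtain ⟨b, hb, hbj⟩ := hej
  have hc : 0 < min t1 b := lt_min ht1 hb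
  have hci : x + (min t1 b) • e ∈ t.T i := (hray _ hc.le).mpr (min_le_left _ _)
  have hcj : x + (min t1 b) • e ∈ t.T j :=
    ray_convex (t.polyT j).convex hxj hc.le (min_le_right _ _) hbj
  have hxne : x ≠ x + (min t1 b) • e := by
    intro h
    have h0 : (min t1 b) • e = 0 := by
      have h' : x + 0 = x + (min t1 b) • e := by rw [add_zero]; exact h
      exact (add_left_cancel h').symm
    rcases smul_eq_zero.mp h0 with h0 | h0
    · exact hc.ne' h0
    · exact he0 h0
  have hbd : BDir (t.T j) x e := by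
    have h := pair_bdir (t.polyT j) (t.polyT i) (t.disj j i hji) hxne hxj hx hcj hci
    rw [add_sub_cancel_left] at h
    exact BDir.of_smul hc h
  obtain ⟨t2, ht2, hext2, hray2⟩ := (t.polyT j).ray_end hxj hbd
  have h02 : s0 ≤ t2 := by
    by_contra hcon
    push Not at hcon
    have h1 : x + t2 • e ∈ t.T i := (hray t2 ht2.le).mpr (hcon.le.trans hs01)
    have := hle t2 ht2 ⟨j, hext2⟩ h1
    exact absurd this (not_le.mpr hcon)
  refine ⟨s0, hs0.1, hs0.2.1, hs0.2.2, ⟨j, hji, hxj, (hray2 s0 hs0.1.le).mpr h02⟩, ?_⟩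
  intro s' h1 h2 hn
  have h3 : x + s' • e ∈ t.T i := (hray s' h1.le).mpr (h2.le.trans hs01)
  exact absurd (hle s' h1 hn h3) (not_le.mpr h2)

theorem CTil.partner_unique {i j j' : ι} (hj : j ≠ i) (hj' : j' ≠ i) {x e : ℂ} (he : e ≠ 0)
    {s s' : ℝ} (hs : 0 < s) (hs' : 0 < s') (hn : IsNode t.T (x + s • e))
    (hn' : IsNode t.T (x + s' • e)) (hx : x ∈ t.T i) (hxj : x ∈ t.T j) (hxj' : x ∈ t.T j')
    (hyi : x + s • e ∈ t.T i) (hyj : x + s • e ∈ t.T j)
    (hyi' : x + s' • e ∈ t.T i) (hyj' : x + s' • e ∈ t.T j') : s = s' := by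
  have hne : ∀ a : ℝ, 0 < a → x ≠ x + a • e := by
    intro a ha h
    have h0 : a • e = 0 := by
      have h' : x + 0 = x + a • e := by rw [add_zero]; exact h
      exact (add_left_cancel h').symm
    rcases smul_eq_zero.mp h0 with h0 | h0
    · exact ha.ne' h0
    · exact he h0
  rcases lt_trichotomy s s' with h | h | h
  · exact absurd hn (t.third hj'.symm (hne s' hs') hx hxj' hyi' hyj'
      (mem_openSegment_ray hs h)).2
  · exact h
  · exact absurd hn' (t.third hj.symm (hne s hs) hx hxj hyi hyj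
      (mem_openSegment_ray hs' h)).2

theorem CTil.common_ext {i j : ι} (hij : i ≠ j) (h : (t.T i ∩ t.T j).Nonempty) :
    ∃ x, IsNode t.T x ∧ x ∈ t.T i ∧ x ∈ t.T j := by
  obtain ⟨x, hx, h1 | h1⟩ := pair_ext (t.polyT i) (t.polyT j) (t.disj i j hij) h
  · exact ⟨x, ⟨i, h1⟩, hx.1, hx.2⟩
  · exact ⟨x, ⟨j, h1⟩, hx.1, hx.2⟩

end Pool.Agent.NNb
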