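import Pool.Agent.NNb.SumVal
import Pool.Agent.NNb.Link
import Pool.Agent.NNb.Disch
import Pool.Agent.NNb.UDefs

/-!
Module TRANS3.  The transfers of the small tiles with a 3-valent node (bookkeeping only).

At a 3-valent node `g` with `tl g = {i, j, k}` (`link3`: the tiles share pairwise exactly one further
node: `N i ∩ N j = {g, y}` etc., `three`).  If `i` is small and `j` is big, `i` sends to `j` at `g` the
amount `sh (val y)` if `k` is big and `db (val y)` if `k` is small, where `y ≠ g` is the common node of `i`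
and `j`.  Formally e.g.
`σ g i j = if val g = 3 ∧ i ≠ j ∧ g ∈ N i ∧ g ∈ N j ∧ |N i| = 3 ∧ 4 ≤ |N j| then (if ∃ k ∈ tl g, k ≠ i ∧
  |N k| = 3 then db V else sh V) else 0` with `V = ∑ x ∈ (N i ∩ N j).erase g, val x` (`= val y`);
`φ j g = ∑_{i ∈ tl g} (σ g i j - σ g j i)` (`ZS_of_pairs`, `Bdd_of_pairs` with `B`).

A small tile `i` with a 3-valent node `g` has exactly one 3-valent node (`U2`, `|N i| = 3`); say
`N i = {g, y, z}`, `tl g = {i, j, k}`, `y ∈ N j`, `z ∈ N k`.  It receives nothing (only big tiles receive).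
If `j`, `k` are both big it sends `sh (val y) + sh (val z)` (`hs`); if only `j` is big it sends
`db (val y)` (`hd`); not both are small by `U3`.  At its other nodes (valence `≠ 3`) `φ i x = 0`.
Small tiles without 3-valent node: `φ = 0`.  Big tiles send nothing; at a node of valence `≠ 3` they
receive nothing; the amount received at a 3-valent node is the claimed one (only `i` and `k` are in
`tl g \ {j}`, as `|tl g| = 3`).
-/

namespace Pool.Agent.NNb

namespace Sys

variable {ι ν : Type} {n : ℕ}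

private theorem T3_tl (S : Sys ι ν 3 n) {x : ν} {i j k : ι} (hv : S.val x = 3) (hij : i ≠ j)
    (hjk : j ≠ k) (hik : i ≠ k) (hi : x ∈ S.N i) (hj : x ∈ S.N j) (hk : x ∈ S.N k) :
    ∀ l, x ∈ S.N l → l = i ∨ l = j ∨ l = k := by
  classical
  have hsub : ({i, j, k} : Finset ι) ⊆ S.tl x := by
    intro l hl
    simp only [Finset.mem_insert, Finset.mem_singleton] at hl
    rw [S.mem_tl]
    rcases hl with rfl | rfl | rfl <;> assumption
  have hcard : ({i, j, k} : Finset ι).card = 3 := by
    rw [Finset.card_eq_three]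
    exact ⟨i, j, k, hij, hik, hjk, rfl⟩
  have heq : ({i, j, k} : Finset ι) = S.tl x := by
    apply Finset.eq_of_subset_of_card_le hsub
    rw [hcard]
    exact hv.le
  intro l hl
  have : l ∈ S.tl x := (S.mem_tl l x).2 hl
  rw [← heq] at this
  simpa using this

private theorem T3_card (S : Sys ι ν 3 n) (i : ι) : 3 ≤ (S.N i).card := by
  exact (S.C_card i).symm.le.trans (Finset.card_le_card (S.C_sub i))

open Classical in
private theorem T3_V (S : Sys ι ν 3 n) {g y : ν} {i j : ι} (hij : i ≠ j) (hgi : g ∈ S.N i)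
    (hgj : g ∈ S.N j) (hyg : y ≠ g) (hyi : y ∈ S.N i) (hyj : y ∈ S.N j) :
    ∑ x ∈ (S.N i ∩ S.N j).erase g, S.val x = S.val y := by
  have : (S.N i ∩ S.N j).erase g = {y} := by
    ext x
    rw [Finset.mem_erase, Finset.mem_inter, Finset.mem_singleton]
    constructor
    · rintro ⟨hxg, hxi, hxj⟩
      rcases S.three i j g y x hij hgi hyi hxi hgj hyj hxj with h | h | h
      · exact absurd h.symm hyg
      · exact h.symm
      · exact absurd h.symm hxg
    · rintro rfl
      exact ⟨hyg, hyi, hyj⟩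
  rw [this, Finset.sum_singleton]

theorem trans3 (S : Sys ι ν 3 n) (h2 : S.U2) (h3 : S.U3) (sh db : ℕ → ℝ) (B e : ℝ)
    (hsh : ∀ z, 0 ≤ sh z ∧ sh z ≤ B) (hdb : ∀ z, 0 ≤ db z ∧ db z ≤ B)
    (hs : ∀ i g y z, (S.N i).card = 3 → g ∈ S.N i → y ∈ S.N i → z ∈ S.N i → y ≠ g → z ≠ g →
      y ≠ z → S.val g = 3 → S.f i + e ≤ sh (S.val y) + sh (S.val z))
    (hd : ∀ i j k g y, (S.N i).card = 3 → 4 ≤ (S.N j).card → (S.N k).card = 3 → i ≠ k →
      g ∈ S.N i → g ∈ S.N j → g ∈ S.N k → S.val g = 3 → y ∈ S.N i → y ∈ S.N j → y ≠ g →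
      S.f i + e ≤ db (S.val y)) :
    ∃ φ : ι → ν → ℝ, S.ZS φ ∧ S.Bdd φ ∧
      (∀ i g, (S.N i).card = 3 → g ∈ S.N i → S.val g = 3 → S.f i + ∑ x ∈ S.N i, φ i x ≤ -e) ∧
      (∀ i, (S.N i).card = 3 → (∀ g ∈ S.N i, S.val g ≠ 3) → ∑ x ∈ S.N i, φ i x ≤ 0) ∧
      (∀ j x, 4 ≤ (S.N j).card → x ∈ S.N j → S.val x ≠ 3 → φ j x ≤ 0) ∧
      (∀ j g y z i k, 4 ≤ (S.N j).card → S.val g = 3 → g ∈ S.N j → g ∈ S.N i → g ∈ S.N k →
        i ≠ j → k ≠ j → i ≠ k → y ≠ g → z ≠ g → y ∈ S.N i → y ∈ S.N j → z ∈ S.N k →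
        z ∈ S.N j →
        φ j g ≤ (if (S.N i).card = 3 then
            (if (S.N k).card = 3 then db (S.val y) else sh (S.val y)) else 0) +
          (if (S.N k).card = 3 then
            (if (S.N i).card = 3 then db (S.val z) else sh (S.val z)) else 0)) := by
  classical
  set σ : ν → ι → ι → ℝ := fun g i j =>
    if S.val g = 3 ∧ i ≠ j ∧ g ∈ S.N i ∧ g ∈ S.N j ∧ (S.N i).card = 3 ∧ 4 ≤ (S.N j).card then
      (if ∃ k ∈ S.tl g, k ≠ i ∧ (S.N k).card = 3 then
        db (∑ x ∈ (S.N i ∩ S.N j).erase g, S.val x) else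
        sh (∑ x ∈ (S.N i ∩ S.N j).erase g, S.val x)) else 0 with hσ
  have hB : 0 ≤ B := (hsh 0).1.trans (hsh 0).2
  have hσ0 : ∀ x i j, 0 ≤ σ x i j ∧ σ x i j ≤ B := by
    intro x i j
    simp only [hσ]
    split_ifs
    · exact hdb _
    · exact hsh _
    · exact ⟨le_rfl, hB⟩
  -- small tiles receive nothing, big tiles send nothing, nothing happens at other nodes
  have hrec : ∀ i, (S.N i).card = 3 → ∀ x k, σ x k i = 0 := by
    intro i hi x k
    simp only [hσ]
    rw [if_neg]
    rintro ⟨-, -, -, -, -, q⟩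
    omega
  have hbig : ∀ j, 4 ≤ (S.N j).card → ∀ x k, σ x j k = 0 := by
    intro j hj x k
    simp only [hσ]
    rw [if_neg]
    rintro ⟨-, -, -, -, q, -⟩
    omega
  have hval : ∀ x, S.val x ≠ 3 → ∀ i j, σ x i j = 0 := by
    intro x hx i j
    simp only [hσ]
    rw [if_neg]
    rintro ⟨q, -⟩
    exact hx q
  -- the value
  have hσv : ∀ {g i j k y}, S.val g = 3 → i ≠ j → j ≠ k → i ≠ k → g ∈ S.N i → g ∈ S.N j →
      g ∈ S.N k → (S.N i).card = 3 → 4 ≤ (S.N j).card → y ≠ g → y ∈ S.N i → y ∈ S.N j →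
      σ g i j = if (S.N k).card = 3 then db (S.val y) else sh (S.val y) := by
    intro g i j k y hv hij hjk hik gi gj gk ci cj hyg yi yj
    simp only [hσ]
    rw [if_pos ⟨hv, hij, gi, gj, ci, cj⟩, S.T3_V hij gi gj hyg yi yj]
    by_cases hk3 : (S.N k).card = 3
    · rw [if_pos hk3, if_pos ⟨k, (S.mem_tl _ _).2 gk, hik.symm, hk3⟩]
    · rw [if_neg hk3, if_neg]
      rintro ⟨l, hl, hli, hl3⟩
      rcases S.T3_tl hv hij hjk hik gi gj gk l ((S.mem_tl _ _).1 hl) with rfl | rfl | rfl
      · exact hli rfl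
      · omega
      · exact hk3 hl3
  refine ⟨fun j x => ∑ i ∈ S.tl x, (σ x i j - σ x j i), S.ZS_of_pairs σ,
    S.Bdd_of_pairs σ B ?_, ?_, ?_, ?_, ?_⟩
  · intro x i j
    rw [abs_of_nonneg (hσ0 x i j).1]
    exact (hσ0 x i j).2
  · intro i g hi hg hv
    have e1 : ∑ x ∈ S.N i, ∑ k ∈ S.tl x, (σ x k i - σ x i k) =
        - ∑ x ∈ S.N i, ∑ k ∈ S.tl x, σ x i k := by
      rw [← Finset.sum_neg_distrib]
      refine Finset.sum_congr rfl fun x _ => ?_
      rw [← Finset.sum_neg_distrib]
      refine Finset.sum_congr rfl fun k _ => ?_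
      rw [hrec i hi x k, zero_sub]
    show S.f i + ∑ x ∈ S.N i, ∑ k ∈ S.tl x, (σ x k i - σ x i k) ≤ -e
    rw [e1]
    have e2 : ∑ k ∈ S.tl g, σ g i k ≤ ∑ x ∈ S.N i, ∑ k ∈ S.tl x, σ x i k :=
      Finset.single_le_sum (f := fun x => ∑ k ∈ S.tl x, σ x i k)
        (fun x _ => Finset.sum_nonneg fun k _ => (hσ0 _ _ _).1) hg
    have e3 : S.f i + e ≤ ∑ k ∈ S.tl g, σ g i k := by
      -- the big tile
      obtain ⟨j, gj, cj⟩ := h3 i g hg hv
      have hij : i ≠ j := by
        rintro rfl
        omega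
      -- the third tile
      obtain ⟨k, gk, hki, hkj⟩ : ∃ k, g ∈ S.N k ∧ k ≠ i ∧ k ≠ j := by
        have hc : ({i, j} : Finset ι).card < (S.tl g).card := by
          have h1 : (S.tl g).card = 3 := hv
          have h2 : ({i, j} : Finset ι).card ≤ 2 := Finset.card_le_two
          omega
        obtain ⟨k, hk, hk'⟩ := Finset.exists_mem_notMem_of_card_lt_card hc
        rw [Finset.mem_insert, Finset.mem_singleton, not_or] at hk'
        exact ⟨k, (S.mem_tl _ _).1 hk, hk'.1, hk'.2⟩
      obtain ⟨p, q, r, hpg, hqg, hrg, hpq, hqr, hpr, hpi, hpj, hqj, hqk, hrk, hri⟩ :=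
        S.link3 hv hij hkj.symm hki.symm hg gj gk
      have hj1 : σ g i j = if (S.N k).card = 3 then db (S.val p) else sh (S.val p) :=
        hσv hv hij hkj.symm hki.symm hg gj gk hi cj hpg hpi hpj
      by_cases hk3 : (S.N k).card = 3
      · rw [if_pos hk3] at hj1
        have h5 := hd i j k g p hi cj hk3 hki.symm hg gj gk hv hpi hpj hpg
        rw [← hj1] at h5
        exact h5.trans (Finset.single_le_sum (f := fun k => σ g i k)
          (fun k _ => (hσ0 _ _ _).1) ((S.mem_tl _ _).2 gj))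
      · rw [if_neg hk3] at hj1
        have hk4 : 4 ≤ (S.N k).card := by
          have := S.T3_card k
          omega
        have hk1 : σ g i k = if (S.N j).card = 3 then db (S.val r) else sh (S.val r) :=
          hσv hv hki.symm hkj hij hg gk gj hi hk4 hrg hri hrk
        rw [if_neg (by omega)] at hk1
        have h5 := hs i g p r hi hg hpi hri hpg hrg hpr hv
        rw [← hj1, ← hk1] at h5
        refine h5.trans ?_
        have h6 : ∑ l ∈ ({j, k} : Finset ι), σ g i l = σ g i j + σ g i k := by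
          rw [Finset.sum_insert (by simpa using hkj.symm), Finset.sum_singleton]
        rw [← h6]
        refine Finset.sum_le_sum_of_subset_of_nonneg ?_ fun l _ _ => (hσ0 _ _ _).1
        intro l hl
        simp only [Finset.mem_insert, Finset.mem_singleton] at hl
        rcases hl with rfl | rfl
        · exact (S.mem_tl _ _).2 gj
        · exact (S.mem_tl _ _).2 gk
    linarith
  · intro i hi _
    refine Finset.sum_nonpos fun x _ => Finset.sum_nonpos fun k _ => ?_
    rw [hrec i hi x k, zero_sub]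
    exact neg_nonpos.2 (hσ0 _ _ _).1
  · intro j x _ _ hv
    refine le_of_eq (Finset.sum_eq_zero fun k _ => ?_)
    rw [hval x hv, hval x hv, sub_zero]
  · intro j g y z i k cj hv gj gi gk hij hkj hik hyg hzg yi yj zk zj
    show ∑ l ∈ S.tl g, (σ g l j - σ g j l) ≤ _
    have e1 : S.tl g = {j, i, k} := by
      ext l
      rw [S.mem_tl]
      constructor
      · intro hl
        rcases S.T3_tl hv hij.symm hik hkj.symm gj gi gk l hl with rfl | rfl | rfl <;> simp
      · intro hl
        simp only [Finset.mem_insert, Finset.mem_singleton] at hl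
        rcases hl with rfl | rfl | rfl <;> assumption
    have e2 : σ g j j = 0 := hbig j cj g j
    rw [e1, Finset.sum_insert (by simp [hij.symm, hkj.symm]), Finset.sum_insert (by simpa using hik),
      Finset.sum_singleton, hbig j cj g i, hbig j cj g k, e2]
    have f1 : σ g i j ≤ if (S.N i).card = 3 then
        (if (S.N k).card = 3 then db (S.val y) else sh (S.val y)) else 0 := by
      by_cases ci : (S.N i).card = 3
      · rw [if_pos ci, hσv hv hij hkj.symm hik gi gj gk ci cj hyg yi yj]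
      · rw [if_neg ci]
        have : 4 ≤ (S.N i).card := by
          have := S.T3_card i
          omega
        rw [hbig i this]
    have f2 : σ g k j ≤ if (S.N k).card = 3 then
        (if (S.N i).card = 3 then db (S.val z) else sh (S.val z)) else 0 := by
      by_cases ck : (S.N k).card = 3
      · rw [if_pos ck, hσv hv hkj hij.symm hik.symm gk gj gi ck cj hzg zk zj]
      · rw [if_neg ck]
        have : 4 ≤ (S.N k).card := by
          have := S.T3_card k
          omega
        rw [hbig k this]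
    linarith

end Sys

end Pool.Agent.NNb
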