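import Pool.Agent.NNb.TransA
import Pool.Agent.NNb.UDefs

/-!
Module TRANSA2.  The transfers of the `A`-tiles (valences `n - 2, 4, 4`), pointwise form.

Same transfers as in `TransA.lean` (copy from there): `σ x i j = a/2` if `IsA i`, `i ≠ j`, `val x = 4`,
`x ∈ N i`, `x ∈ N j` and there is `y ≠ x`, `val y = 4`, with `y ∈ N i`, `y ∈ N j`; otherwise `0`;
`φ j x = ∑_{i ∈ tl x} (σ x i j - σ x j i)`.
* A small tile `i` receives nothing by `U4` and sends exactly `a` if it is of type `A` (`a/2` at each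
  4-valent node), nothing otherwise.  (`n ≥ 15`, so `n - 2 ≠ 4`.)
* A big tile `j` sends nothing (`IsA j` implies `|N j| = 3`).  It receives at `x` (`val x = 4`) `a/2` for
  every `i ∈ tl x` with `σ x i j ≠ 0`; the node `y ≠ x` with `x, y ∈ N i ∩ N j` is a partner of `x` on `j`
  (definition of `Part`), hence one of the two given partners `y, z` (`part`), it has valence 4, and it
  determines `i` (`edge`).
-/

namespace Pool.Agent.NNb

namespace Sys

variable {ι ν : Type} {n : ℕ}

private lemma TA2_nodes (S : Sys ι ν 3 n) {i : ι} (hA : S.IsA i) :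
    ∃ h p q, h ≠ p ∧ h ≠ q ∧ p ≠ q ∧ (∀ x, x ∈ S.N i ↔ x = h ∨ x = p ∨ x = q) ∧
      S.val h + 2 = n ∧ S.val p = 4 ∧ S.val q = 4 := by
  classical
  obtain ⟨hc, h, hh, hv, hall⟩ := hA
  have hce : ((S.N i).erase h).card = 2 := by
    rw [Finset.card_erase_of_mem hh, hc]
  obtain ⟨p, q, hpq, hpqs⟩ := Finset.card_eq_two.mp hce
  have hp : p ∈ (S.N i).erase h := by rw [hpqs]; simp
  have hq : q ∈ (S.N i).erase h := by rw [hpqs]; simp
  refine ⟨h, p, q, (Finset.ne_of_mem_erase hp).symm, (Finset.ne_of_mem_erase hq).symm, hpq, ?_, hv,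
    hall p (Finset.mem_of_mem_erase hp) (Finset.ne_of_mem_erase hp),
    hall q (Finset.mem_of_mem_erase hq) (Finset.ne_of_mem_erase hq)⟩
  intro x
  constructor
  · intro hx
    by_cases hxh : x = h
    · exact Or.inl hxh
    · right
      have : x ∈ (S.N i).erase h := Finset.mem_erase.mpr ⟨hxh, hx⟩
      rw [hpqs] at this
      simpa using this
  · rintro (rfl | rfl | rfl)
    · exact hh
    · exact Finset.mem_of_mem_erase hp
    · exact Finset.mem_of_mem_erase hq

private lemma TA2_four (S : Sys ι ν 3 n) (hn : 15 ≤ n) {i : ι} (hA : S.IsA i) {x y z : ν}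
    (hx : x ∈ S.N i) (hy : y ∈ S.N i) (hz : z ∈ S.N i) (vx : S.val x = 4) (vy : S.val y = 4)
    (vz : S.val z = 4) (hxy : x ≠ y) (hxz : x ≠ z) : y = z := by
  obtain ⟨h, p, q, _, _, _, hN, hv, vp, vq⟩ := S.TA2_nodes hA
  have key : ∀ w, w ∈ S.N i → S.val w = 4 → w = p ∨ w = q := by
    intro w hw vw
    rcases (hN w).mp hw with rfl | h1 | h1
    · omega
    · exact Or.inl h1
    · exact Or.inr h1
  rcases key x hx vx with rfl | rfl
  · rcases key y hy vy with rfl | rfl
    · exact absurd rfl hxy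
    · rcases key z hz vz with rfl | rfl
      · exact absurd rfl hxz
      · rfl
  · rcases key y hy vy with rfl | rfl
    · rcases key z hz vz with rfl | rfl
      · rfl
      · exact absurd rfl hxz
    · exact absurd rfl hxy

/-- a sum of equal terms over a subsingleton -/
theorem TRANSA2_sum_le {α : Type*} (s : Finset α) (P : α → Prop) [DecidablePred P] {c : ℝ}
    (hc : 0 ≤ c) (h : ∀ y ∈ s, ∀ y' ∈ s, P y → P y' → y = y') :
    ∑ y ∈ s, (if P y then c else 0) ≤ c := by
  by_cases hex : ∃ y ∈ s, P y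
  · obtain ⟨y, hy, hPy⟩ := hex
    rw [Finset.sum_eq_single y]
    · rw [if_pos hPy]
    · intro y' hy' hne
      exact if_neg fun hP => hne (h y' hy' y hy hP hPy)
    · intro h'
      exact absurd hy h'
  · rw [Finset.sum_eq_zero fun y hy => if_neg fun hP => hex ⟨y, hy, hP⟩]
    exact hc

/-- the partners of a node -/
theorem TRANSA2_part (S : Sys ι ν 3 n) {j : ι} {x y z w : ν} (hyz : y ≠ z) (hy : Part S.N j x y)
    (hz : Part S.N j x z) (hw : Part S.N j x w) : w = y ∨ w = z := by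
  obtain ⟨p, q, _, _, _, h⟩ := S.part j x hy.1
  rcases h y hy with rfl | rfl <;> rcases h z hz with rfl | rfl <;> rcases h w hw with rfl | rfl <;>
    first
    | exact absurd rfl hyz
    | exact Or.inl rfl
    | exact Or.inr rfl

theorem transA2 (S : Sys ι ν 3 n) (hn : 15 ≤ n) (h4 : S.U4) (a : ℝ) (ha : 0 ≤ a) :
    ∃ φ : ι → ν → ℝ, S.ZS φ ∧ S.Bdd φ ∧
      (∀ i, (S.N i).card = 3 → S.IsA i → ∑ x ∈ S.N i, φ i x ≤ -a) ∧
      (∀ i, (S.N i).card = 3 → ∑ x ∈ S.N i, φ i x ≤ 0) ∧
      (∀ j x y z, 4 ≤ (S.N j).card → x ∈ S.N j → y ≠ z → Part S.N j x y → Part S.N j x z →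
        φ j x ≤ if S.val x = 4 then a / 2 * ((if S.val y = 4 then 1 else 0) +
          (if S.val z = 4 then 1 else 0)) else 0) := by
  classical
  set σ : ν → ι → ι → ℝ := fun x i j =>
    if S.IsA i ∧ i ≠ j ∧ S.val x = 4 ∧ x ∈ S.N i ∧ x ∈ S.N j ∧
      ∃ y, x ≠ y ∧ S.val y = 4 ∧ y ∈ S.N i ∧ y ∈ S.N j then a / 2 else 0 with hσ
  have hσ0 : ∀ x i j, 0 ≤ σ x i j := by
    intro x i j
    simp only [hσ]
    split_ifs
    · positivity
    · exact le_rfl
  -- small tiles receive nothing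
  have hrec : ∀ i, (S.N i).card = 3 → ∀ x k, σ x k i = 0 := by
    intro i hi x k
    simp only [hσ]
    rw [if_neg]
    rintro ⟨q1, q2, q3, q4, q5, y, q6, q7, q8, q9⟩
    have := h4 k i x y q1 (Ne.symm q2) q6 q4 q8 q3 q7 q5 q9
    omega
  -- big tiles send nothing
  have hbig : ∀ j, 4 ≤ (S.N j).card → ∀ x k, σ x j k = 0 := by
    intro j hj x k
    simp only [hσ]
    rw [if_neg]
    rintro ⟨q1, _⟩
    have := q1.1
    omega
  have hsent : ∀ j, S.IsA j → ∑ x ∈ S.N j, ∑ i ∈ S.tl x, σ x j i = a := by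
    intro j hA
    obtain ⟨h, p, q, hhp, hhq, hpq, hN, hv, vp, vq⟩ := S.TA2_nodes hA
    have hcard : (S.N j).card = 3 := hA.1
    have hNs : S.N j = {h, p, q} := by
      ext x
      rw [hN x]
      simp
    have h0 : ∑ i ∈ S.tl h, σ h j i = 0 := by
      refine Finset.sum_eq_zero fun i _ => ?_
      simp only [hσ]
      rw [if_neg]
      rintro ⟨_, _, h4, _⟩
      omega
    have hside : ∀ x y, x ∈ S.N j → y ∈ S.N j → x ≠ y → S.val x = 4 → S.val y = 4 →
        ∑ i ∈ S.tl x, σ x j i = a / 2 := by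
      intro x y hx hy hxy vx vy
      obtain ⟨k, hkj, hpk, huniq⟩ := S.part_other (S.part_of_three hcard hx hy hxy)
      rw [Finset.sum_eq_single k]
      · simp only [hσ]
        rw [if_pos ⟨hA, hkj.symm, vx, hx, hpk.1, y, hxy, vy, hy, hpk.2.1⟩]
      · intro i _ hik
        simp only [hσ]
        rw [if_neg]
        rintro ⟨_, hji, _, _, hxi, y', hxy', vy', hy'j, hy'i⟩
        have : y = y' := S.TA2_four hn hA hx hy hy'j vx vy vy' hxy hxy'
        subst this
        rcases huniq i hxi hy'i with h1 | h1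
        · exact hji h1.symm
        · exact hik h1
      · intro hk
        exact absurd ((S.mem_tl k x).mpr hpk.1) hk
    have hp : p ∈ S.N j := (hN p).mpr (Or.inr (Or.inl rfl))
    have hq : q ∈ S.N j := (hN q).mpr (Or.inr (Or.inr rfl))
    rw [hNs, Finset.sum_insert (by simp [hhp, hhq]), Finset.sum_insert (by simp [hpq]),
      Finset.sum_singleton, h0, hside p q hp hq hpq vp vq, hside q p hq hp hpq.symm vq vp]
    ring
  refine ⟨fun j x => ∑ i ∈ S.tl x, (σ x i j - σ x j i), S.ZS_of_pairs σ,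
    S.Bdd_of_pairs σ (a / 2) ?_, ?_, ?_, ?_⟩
  · intro x i j
    simp only [hσ]
    split_ifs
    · rw [abs_of_nonneg (by positivity)]
    · rw [abs_zero]
      positivity
  · intro i hi hA
    have h3 : ∑ x ∈ S.N i, ∑ k ∈ S.tl x, (σ x k i - σ x i k) =
        - ∑ x ∈ S.N i, ∑ k ∈ S.tl x, σ x i k := by
      rw [← Finset.sum_neg_distrib]
      refine Finset.sum_congr rfl fun x _ => ?_
      rw [← Finset.sum_neg_distrib]
      refine Finset.sum_congr rfl fun k _ => ?_
      rw [hrec i hi x k, zero_sub]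
    show ∑ x ∈ S.N i, ∑ k ∈ S.tl x, (σ x k i - σ x i k) ≤ -a
    rw [h3, hsent i hA]
  · intro i hi
    refine Finset.sum_nonpos fun x _ => Finset.sum_nonpos fun k _ => ?_
    rw [hrec i hi x k, zero_sub]
    exact neg_nonpos.2 (hσ0 _ _ _)
  · intro j x y z hj hx hyz hy hz
    have h3 : ∀ i ∈ S.tl x, σ x i j - σ x j i = σ x i j := by
      intro i _
      rw [hbig j hj x i, sub_zero]
    show ∑ i ∈ S.tl x, (σ x i j - σ x j i) ≤ _
    rw [Finset.sum_congr rfl h3]
    by_cases vx : S.val x = 4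
    · rw [if_pos vx]
      have h5 : ∀ i ∈ S.tl x, σ x i j ≤
          (if (S.val y = 4 ∧ i ≠ j ∧ x ∈ S.N i ∧ y ∈ S.N i) then a / 2 else 0) +
          (if (S.val z = 4 ∧ i ≠ j ∧ x ∈ S.N i ∧ z ∈ S.N i) then a / 2 else 0) := by
        intro i _
        have hp1 : 0 ≤ (if (S.val y = 4 ∧ i ≠ j ∧ x ∈ S.N i ∧ y ∈ S.N i) then a / 2 else 0) := by
          split_ifs
          · positivity
          · exact le_rfl
        have hp2 : 0 ≤ (if (S.val z = 4 ∧ i ≠ j ∧ x ∈ S.N i ∧ z ∈ S.N i) then a / 2 else 0) := by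
          split_ifs
          · positivity
          · exact le_rfl
        by_cases hc : S.IsA i ∧ i ≠ j ∧ S.val x = 4 ∧ x ∈ S.N i ∧ x ∈ S.N j ∧
            ∃ y, x ≠ y ∧ S.val y = 4 ∧ y ∈ S.N i ∧ y ∈ S.N j
        · have e1 : σ x i j = a / 2 := by
            simp only [hσ]
            rw [if_pos hc]
          rw [e1]
          obtain ⟨q1, q2, q3, q4, q5, w, q6, q7, q8, q9⟩ := hc
          have hw : Part S.N j x w := ⟨q5, q9, q6, i, q2, q4, q8⟩
          rcases S.TRANSA2_part hyz hy hz hw with rfl | rfl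
          · rw [if_pos ⟨q7, q2, q4, q8⟩]
            linarith
          · rw [if_pos (show S.val w = 4 ∧ i ≠ j ∧ x ∈ S.N i ∧ w ∈ S.N i from ⟨q7, q2, q4, q8⟩)]
            linarith
        · have e1 : σ x i j = 0 := by
            simp only [hσ]
            rw [if_neg hc]
          rw [e1]
          linarith
      refine (Finset.sum_le_sum h5).trans ?_
      rw [Finset.sum_add_distrib, mul_add]
      have hone : ∀ w, Part S.N j x w →
          ∑ i ∈ S.tl x, (if (S.val w = 4 ∧ i ≠ j ∧ x ∈ S.N i ∧ w ∈ S.N i) then a / 2 else 0) ≤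
            a / 2 * (if S.val w = 4 then 1 else 0) := by
        intro w hw
        by_cases vw : S.val w = 4
        · rw [if_pos vw, mul_one]
          refine TRANSA2_sum_le _ _ (by positivity) ?_
          rintro i _ i' _ ⟨_, q2, q3, q4⟩ ⟨_, r2, r3, r4⟩
          rcases S.edge x w i i' j hw.2.2.1 q3 q4 r3 r4 hw.1 hw.2.1 with h | h | h
          · exact h
          · exact absurd h r2
          · exact absurd h q2
        · rw [if_neg vw, mul_zero]
          refine le_of_eq (Finset.sum_eq_zero fun i _ => if_neg ?_)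
          rintro ⟨q, _⟩
          exact vw q
      exact add_le_add (hone y hy) (hone z hz)
    · rw [if_neg vx]
      refine le_of_eq (Finset.sum_eq_zero fun i _ => ?_)
      simp only [hσ]
      rw [if_neg]
      rintro ⟨_, _, q, _⟩
      exact vx q

end Sys

end Pool.Agent.NNb
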