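import Pool.Agent.NNb.BNbr
import Pool.Agent.NNb.Disch

/-!
Module TRANSB2.  The transfers of the `B`-tiles (valences `n - 3, 5, 4`), pointwise form.

By `b_target` choose for every `B`-tile `i` with 5-valent node `y` a tile `R i y ∋ y` (big).  A `B`-tile has
exactly one 5-valent node (`n - 3 ≠ 5`).  `σ y i j = b` if `IsB i`, `val y = 5`, `y ∈ N i`, `j = R i y`; else
`0`; `φ j y = ∑_{i ∈ tl y} (σ y i j - σ y j i)`.  A `B`-tile sends exactly `b` (`R i y ≠ i` because `R i y` is
big), small tiles receive nothing.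
Big tile `j`: it sends nothing.  At a node `x` of valence `≠ 5` it receives nothing.  At `x` with
`val x = 5` and partners `y ≠ z` on `j`, count the `B`-tiles `i ∈ tl x` with `R i x = j`:
first alternative of `b_target`: `w ∈ N i ∩ N j`, `w ≠ x`, so `w` is a partner of `x` on `j`, i.e. `w = y` or
`w = z`, and `i` is determined by `w` (`edge`, `i ≠ j`);
second alternative: `w ∈ N t ∩ N j`, `w ∈ {y, z}`, `val w = 4`, `t` is determined by `w`; `h` is the unique
node of `t` of valence `n - 3` (`N t = {x, w, h}` as `|N t| = 3`), and `i` is the tile different from `t` which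
contains `x, h` (`edge`).
So every partner `w ∈ {y, z}` of valence 4 accounts for at most two tiles `i`, every partner of
valence `n - 3` for at most one (`n - 3 ≠ 4`).
-/

namespace Pool.Agent.NNb

namespace Sys

variable {ι ν : Type} {n : ℕ}

/-- a sum of equal terms over a subsingleton -/
private theorem TB2_sum_le {α : Type*} (s : Finset α) (P : α → Prop) [DecidablePred P] {c : ℝ}
    (hc : 0 ≤ c) (h : ∀ y ∈ s, ∀ y' ∈ s, P y → P y' → y = y') :
    ∑ y ∈ s, (if P y then c else 0) ≤ c := by
  by_cases hex : ∃ y ∈ s, P y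
  · obtain ⟨y, hy, hPy⟩ := hex
    rw [Finset.sum_eq_single y]
    · rw [if_pos hPy]
    · intro y' hy' hne
      exact if_neg fun hP => hne (h y' hy' y hy hP hPy)
    · intro h'
      exact absurd hy h'
  · rw [Finset.sum_eq_zero fun y hy => if_neg fun hP => hex ⟨y, hy, hP⟩]
    exact hc

/-- the partners of a node -/
private theorem TB2_part (S : Sys ι ν 3 n) {j : ι} {x y z w : ν} (hyz : y ≠ z) (hy : Part S.N j x y)
    (hz : Part S.N j x z) (hw : Part S.N j x w) : w = y ∨ w = z := by
  obtain ⟨p, q, _, _, _, h⟩ := S.part j x hy.1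
  rcases h y hy with rfl | rfl <;> rcases h z hz with rfl | rfl <;> rcases h w hw with rfl | rfl <;>
    first
    | exact absurd rfl hyz
    | exact Or.inl rfl
    | exact Or.inr rfl

/-- two nodes of a small tile determine the third -/
private theorem TB2_third (S : Sys ι ν 3 n) {t : ι} (ht : (S.N t).card = 3) {x w h h' : ν}
    (hx : x ∈ S.N t) (hw : w ∈ S.N t) (hh : h ∈ S.N t) (hh' : h' ∈ S.N t) (hxw : x ≠ w) (hhx : h ≠ x)
    (hhw : h ≠ w) (hh'x : h' ≠ x) (hh'w : h' ≠ w) : h = h' := by
  classical
  by_contra hne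
  have hsub : ({x, w, h, h'} : Finset ν) ⊆ S.N t := by
    intro u hu
    simp only [Finset.mem_insert, Finset.mem_singleton] at hu
    rcases hu with rfl | rfl | rfl | rfl <;> assumption
  have hcard : ({x, w, h, h'} : Finset ν).card = 4 := by
    rw [Finset.card_insert_of_notMem (by simp [hxw, hhx.symm, hh'x.symm]),
      Finset.card_insert_of_notMem (by simp [hhw.symm, hh'w.symm]),
      Finset.card_insert_of_notMem (by simp [hne]), Finset.card_singleton]
  have := Finset.card_le_card hsub
  omega

theorem transB2 (S : Sys ι ν 3 n) (hn : 15 ≤ n) (b : ℝ) (hb : 0 ≤ b) :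
    ∃ φ : ι → ν → ℝ, S.ZS φ ∧ S.Bdd φ ∧
      (∀ i, (S.N i).card = 3 → S.IsB i → ∑ x ∈ S.N i, φ i x ≤ -b) ∧
      (∀ i, (S.N i).card = 3 → ∑ x ∈ S.N i, φ i x ≤ 0) ∧
      (∀ j x y z, 4 ≤ (S.N j).card → x ∈ S.N j → y ≠ z → Part S.N j x y → Part S.N j x z →
        φ j x ≤ if S.val x = 5 then b * (2 * (if S.val y = 4 then 1 else 0) +
          2 * (if S.val z = 4 then 1 else 0) + (if S.val y + 3 = n then 1 else 0) +
          (if S.val z + 3 = n then 1 else 0)) else 0) := by
  classical
  obtain ⟨i0, -⟩ := S.avg (fun _ _ => 0) (by simp) ⟨0, by simp⟩ 1 one_pos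
  have hex : ∀ (i : ι) (y : ν), ∃ j : ι, S.IsB i → y ∈ S.N i → S.val y = 5 →
      y ∈ S.N j ∧ 4 ≤ (S.N j).card ∧
      ((∃ w, w ∈ S.N i ∧ w ∈ S.N j ∧ w ≠ y ∧ (S.val w = 4 ∨ S.val w + 3 = n)) ∨
       (∃ t w h, t ≠ i ∧ t ≠ j ∧ (S.N t).card = 3 ∧ y ∈ S.N t ∧ h ∈ S.N i ∧ h ∈ S.N t ∧ h ≠ y ∧
          S.val h + 3 = n ∧ w ∈ S.N t ∧ w ∈ S.N j ∧ w ≠ y ∧ S.val w = 4)) := by
    intro i y
    by_cases hc : S.IsB i ∧ y ∈ S.N i ∧ S.val y = 5
    · obtain ⟨j, hj⟩ := S.b_target hn hc.1 hc.2.1 hc.2.2
      exact ⟨j, fun _ _ _ => hj⟩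
    · exact ⟨i0, fun h1 h2 h3 => absurd ⟨h1, h2, h3⟩ hc⟩
  choose R hR using hex
  set σ : ν → ι → ι → ℝ := fun x i j =>
    if S.IsB i ∧ x ∈ S.N i ∧ S.val x = 5 ∧ j = R i x then b else 0 with hσ
  have hσ0 : ∀ x i j, 0 ≤ σ x i j := by
    intro x i j
    simp only [hσ]
    split_ifs
    · exact hb
    · exact le_rfl
  have hrec : ∀ i, (S.N i).card = 3 → ∀ x k, σ x k i = 0 := by
    intro i hi x k
    simp only [hσ]
    rw [if_neg]
    rintro ⟨q1, q2, q3, q4⟩
    have := (hR k x q1 q2 q3).2.1
    rw [← q4] at this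
    omega
  have hbig : ∀ j, 4 ≤ (S.N j).card → ∀ x k, σ x j k = 0 := by
    intro j hj x k
    simp only [hσ]
    rw [if_neg]
    rintro ⟨q1, _⟩
    have := q1.1
    omega
  refine ⟨fun j x => ∑ i ∈ S.tl x, (σ x i j - σ x j i), S.ZS_of_pairs σ,
    S.Bdd_of_pairs σ b ?_, ?_, ?_, ?_⟩
  · intro x i j
    simp only [hσ]
    split_ifs
    · rw [abs_of_nonneg hb]
    · rw [abs_zero]
      exact hb
  · intro i hi hB
    have h3 : ∑ x ∈ S.N i, ∑ k ∈ S.tl x, (σ x k i - σ x i k) =
        - ∑ x ∈ S.N i, ∑ k ∈ S.tl x, σ x i k := by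
      rw [← Finset.sum_neg_distrib]
      refine Finset.sum_congr rfl fun x _ => ?_
      rw [← Finset.sum_neg_distrib]
      refine Finset.sum_congr rfl fun k _ => ?_
      rw [hrec i hi x k, zero_sub]
    show ∑ x ∈ S.N i, ∑ k ∈ S.tl x, (σ x k i - σ x i k) ≤ -b
    rw [h3]
    obtain ⟨_, a, y, w, ha, hy, hw, va, vy, vw⟩ := id hB
    have hRy := hR i y hB hy vy
    have h4 : b ≤ ∑ k ∈ S.tl y, σ y i k := by
      have h5 : σ y i (R i y) = b := by
        simp only [hσ]
        rw [if_pos ⟨hB, hy, vy, trivial⟩]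
      rw [← h5]
      exact Finset.single_le_sum (f := fun k => σ y i k) (fun k _ => hσ0 _ _ _)
        ((S.mem_tl _ _).2 hRy.1)
    have h5 : ∑ k ∈ S.tl y, σ y i k ≤ ∑ x ∈ S.N i, ∑ k ∈ S.tl x, σ x i k :=
      Finset.single_le_sum (f := fun x => ∑ k ∈ S.tl x, σ x i k)
        (fun x _ => Finset.sum_nonneg fun k _ => hσ0 _ _ _) hy
    linarith
  · intro i hi
    refine Finset.sum_nonpos fun x _ => Finset.sum_nonpos fun k _ => ?_
    rw [hrec i hi x k, zero_sub]
    exact neg_nonpos.2 (hσ0 _ _ _)
  · intro j x y z hj hx hyz hy hz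
    have h3 : ∀ i ∈ S.tl x, σ x i j - σ x j i = σ x i j := by
      intro i _
      rw [hbig j hj x i, sub_zero]
    show ∑ i ∈ S.tl x, (σ x i j - σ x j i) ≤ _
    rw [Finset.sum_congr rfl h3]
    by_cases vx : S.val x = 5
    · rw [if_pos vx]
      set P1 : ν → ι → Prop := fun w i => i ≠ j ∧ x ∈ S.N i ∧ w ∈ S.N i ∧
        (S.val w = 4 ∨ S.val w + 3 = n) with hP1
      set P2 : ν → ι → Prop := fun w i => S.val w = 4 ∧ x ∈ S.N i ∧ ∃ t h, t ≠ i ∧ t ≠ j ∧
        (S.N t).card = 3 ∧ x ∈ S.N t ∧ w ∈ S.N t ∧ h ∈ S.N i ∧ h ∈ S.N t ∧ h ≠ x ∧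
        S.val h + 3 = n with hP2
      have hn1 : ∀ w i, 0 ≤ (if P1 w i then b else 0) := by
        intro w i
        split_ifs
        · exact hb
        · exact le_rfl
      have hn2 : ∀ w i, 0 ≤ (if P2 w i then b else 0) := by
        intro w i
        split_ifs
        · exact hb
        · exact le_rfl
      have h5 : ∀ i ∈ S.tl x, σ x i j ≤
          ((if P1 y i then b else 0) + (if P2 y i then b else 0)) +
          ((if P1 z i then b else 0) + (if P2 z i then b else 0)) := by
        intro i _
        have g1 := hn1 y i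
        have g2 := hn2 y i
        have g3 := hn1 z i
        have g4 := hn2 z i
        by_cases hc : S.IsB i ∧ x ∈ S.N i ∧ S.val x = 5 ∧ j = R i x
        · have e1 : σ x i j = b := by
            simp only [hσ]
            rw [if_pos hc]
          rw [e1]
          obtain ⟨q1, q2, q3, q4⟩ := hc
          have hij : i ≠ j := by
            rintro rfl
            have := q1.1
            omega
          have hRi := hR i x q1 q2 q3
          rw [← q4] at hRi
          obtain ⟨-, -, ⟨w, w1, w2, w3, w4⟩ | ⟨t, w, h, t1, t2, t3, t4, t5, t6, t7, t8, w1, w2, w3, w4⟩⟩ := hRi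
          · have hw : Part S.N j x w := ⟨hx, w2, w3.symm, i, hij, q2, w1⟩
            rcases S.TB2_part hyz hy hz hw with rfl | rfl
            · rw [if_pos (show P1 w i from ⟨hij, q2, w1, w4⟩)]
              linarith
            · rw [if_pos (show P1 w i from ⟨hij, q2, w1, w4⟩)]
              linarith
          · have hw : Part S.N j x w := ⟨hx, w2, w3.symm, t, t2, t4, w1⟩
            rcases S.TB2_part hyz hy hz hw with rfl | rfl
            · rw [if_pos (show P2 w i from ⟨w4, q2, t, h, t1, t2, t3, t4, w1, t5, t6, t7, t8⟩)]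
              linarith
            · rw [if_pos (show P2 w i from ⟨w4, q2, t, h, t1, t2, t3, t4, w1, t5, t6, t7, t8⟩)]
              linarith
        · have e1 : σ x i j = 0 := by
            simp only [hσ]
            rw [if_neg hc]
          rw [e1]
          linarith
      refine (Finset.sum_le_sum h5).trans ?_
      rw [Finset.sum_add_distrib, Finset.sum_add_distrib, Finset.sum_add_distrib]
      have hone : ∀ w, Part S.N j x w →
          ∑ i ∈ S.tl x, (if P1 w i then b else 0) + ∑ i ∈ S.tl x, (if P2 w i then b else 0) ≤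
            b * (2 * (if S.val w = 4 then 1 else 0) + (if S.val w + 3 = n then 1 else 0)) := by
        intro w hw
        have s1 : ∑ i ∈ S.tl x, (if P1 w i then b else 0) ≤
            b * ((if S.val w = 4 then 1 else 0) + (if S.val w + 3 = n then 1 else 0)) := by
          by_cases hv : S.val w = 4 ∨ S.val w + 3 = n
          · have s2 : ∑ i ∈ S.tl x, (if P1 w i then b else 0) ≤ b := by
              refine TB2_sum_le _ _ hb ?_
              rintro i _ i' _ ⟨p1, p2, p3, _⟩ ⟨r1, r2, r3, _⟩
              rcases S.edge x w i i' j hw.2.2.1 p2 p3 r2 r3 hw.1 hw.2.1 with h | h | h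
              · exact h
              · exact absurd h r1
              · exact absurd h p1
            refine s2.trans ?_
            rcases hv with hv | hv
            · rw [if_pos hv, if_neg (by omega)]
              linarith
            · rw [if_pos hv, if_neg (by omega)]
              linarith
          · have s2 : ∑ i ∈ S.tl x, (if P1 w i then b else 0) = 0 :=
              Finset.sum_eq_zero fun i _ => if_neg fun hp => hv hp.2.2.2
            rw [s2]
            rw [not_or] at hv
            rw [if_neg hv.1, if_neg hv.2]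
            linarith
        have s3 : ∑ i ∈ S.tl x, (if P2 w i then b else 0) ≤ b * (if S.val w = 4 then 1 else 0) := by
          by_cases hv : S.val w = 4
          · rw [if_pos hv, mul_one]
            refine TB2_sum_le _ _ hb ?_
            rintro i _ i' _ ⟨-, xi, t, h, t1, t2, t3, t4, t5, t6, t7, t8, t9⟩
              ⟨-, xi', t', h', r1, r2, r3, r4, r5, r6, r7, r8, r9⟩
            have htt : t = t' := by
              rcases S.edge x w t t' j hw.2.2.1 t4 t5 r4 r5 hw.1 hw.2.1 with e | e | e
              · exact e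
              · exact absurd e r2
              · exact absurd e t2
            subst htt
            have hhw : h ≠ w := by
              rintro rfl
              omega
            have hhw' : h' ≠ w := by
              rintro rfl
              omega
            have hhh : h = h' := S.TB2_third t3 t4 t5 t7 r7 hw.2.2.1 t8 hhw r8 hhw'
            subst hhh
            rcases S.edge x h i i' t t8.symm xi t6 xi' r6 t4 t7 with e | e | e
            · exact e
            · exact absurd e.symm r1
            · exact absurd e.symm t1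
          · rw [if_neg hv, mul_zero]
            exact le_of_eq (Finset.sum_eq_zero fun i _ => if_neg fun hp => hv hp.1)
        calc ∑ i ∈ S.tl x, (if P1 w i then b else 0) + ∑ i ∈ S.tl x, (if P2 w i then b else 0)
            ≤ b * ((if S.val w = 4 then 1 else 0) + (if S.val w + 3 = n then 1 else 0)) +
              b * (if S.val w = 4 then 1 else 0) := add_le_add s1 s3
          _ = b * (2 * (if S.val w = 4 then 1 else 0) + (if S.val w + 3 = n then 1 else 0)) := by
              ring
      refine (add_le_add (hone y hy) (hone z hz)).trans (le_of_eq ?_)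
      ring
    · rw [if_neg vx]
      refine le_of_eq (Finset.sum_eq_zero fun i _ => ?_)
      simp only [hσ]
      rw [if_neg]
      rintro ⟨_, _, q, _⟩
      exact vx q

end Sys

end Pool.Agent.NNb
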