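import Pool.Agent.NNb.Ray

/-!
Module TRI1.  Sides of a triangle `convexHull ℝ (range p)` with `crs (p 1 - p 0) (p 2 - p 0) ≠ 0`.

Every point is `∑ λ k • p k` with `λ ≥ 0`, `∑ λ = 1`
(`convexHull_range_eq_exists_affineCombination`, `Finset.mem_convexHull'` or
`convexHull_insert`/`segment` lemmas); if all `λ k > 0` the point is in the interior (barycentric
coordinates: the map is a linear isomorphism, or: `AffineBasis.interior_convexHull`).
`tri_same`: `S` lies on one side of the line through `x, y`, say `0 ≤ crs (y-x) (p k - x)` for all `k`;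
`0 = crs (y-x) (x - x) = ∑ λ k crs (y-x) (p k - x)`, so `λ k = 0` or `crs (y-x) (p k - x) = 0`; not all
three `p k` are on the line `xy`; for `k` with `p k` not on this line, the `k`-th coordinates of `x`
and of `y` vanish.
`tri_bdir`: `x ∈ segment (p k) (p l)`, `x ≠ p l`: the direction `p l - x` is a positive multiple of
`p l - p k`, and `crs (p l - p k) (· - x)` is `0` at `p k`, `p l` and nonzero at the third corner.
-/

namespace Pool.Agent.NNb

open Set

/-- barycentric coordinate with respect to `a` of the triangle `a b c` -/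
noncomputable def TRI1_bc (a b c z : ℂ) : ℝ := crs (b - z) (c - z) / crs (b - a) (c - a)

theorem TRI1_cyc (a b c : ℂ) : crs (c - b) (a - b) = crs (b - a) (c - a) := by
  simp only [crs, Complex.sub_re, Complex.sub_im]
  ring

theorem TRI1_sum {a b c : ℂ} (h : crs (b - a) (c - a) ≠ 0) (z : ℂ) :
    TRI1_bc a b c z + TRI1_bc b c a z + TRI1_bc c a b z = 1 := by
  unfold TRI1_bc
  rw [TRI1_cyc b c a, TRI1_cyc a b c, ← add_div, ← add_div, div_eq_one_iff_eq h]
  simp only [crs, Complex.sub_re, Complex.sub_im]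
  ring

theorem TRI1_comb {a b c : ℂ} (h : crs (b - a) (c - a) ≠ 0) (z : ℂ) :
    TRI1_bc a b c z • a + TRI1_bc b c a z • b + TRI1_bc c a b z • c = z := by
  unfold TRI1_bc
  rw [TRI1_cyc b c a, TRI1_cyc a b c]
  apply Complex.ext
  · simp only [Complex.add_re, Complex.smul_re, smul_eq_mul]
    field_simp
    simp only [crs, Complex.sub_re, Complex.sub_im]
    ring
  · simp only [Complex.add_im, Complex.smul_im, smul_eq_mul]
    field_simp
    simp only [crs, Complex.sub_re, Complex.sub_im]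
    ring

theorem TRI1_affine (a b c : ℂ) {α β : ℝ} (hαβ : α + β = 1) (y z : ℂ) :
    TRI1_bc a b c (α • y + β • z) = α * TRI1_bc a b c y + β * TRI1_bc a b c z := by
  unfold TRI1_bc
  have hβ : β = 1 - α := by linarith
  subst hβ
  rw [mul_div_assoc', mul_div_assoc', ← add_div]
  congr 1
  simp only [crs, Complex.sub_re, Complex.sub_im, Complex.add_re, Complex.add_im, Complex.smul_re,
    Complex.smul_im, smul_eq_mul]
  ring

theorem TRI1_continuous (a b c : ℂ) : Continuous (TRI1_bc a b c) := by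
  unfold TRI1_bc crs
  fun_prop

theorem TRI1_self {a b c : ℂ} (h : crs (b - a) (c - a) ≠ 0) : TRI1_bc a b c a = 1 :=
  div_self h

theorem TRI1_zero1 (a b c : ℂ) : TRI1_bc a b c b = 0 := by
  unfold TRI1_bc
  simp [crs]

theorem TRI1_zero2 (a b c : ℂ) : TRI1_bc a b c c = 0 := by
  unfold TRI1_bc
  simp [crs]

/-- membership in a triangle -/
theorem TRI1_mem {a b c : ℂ} (h : crs (b - a) (c - a) ≠ 0) (z : ℂ) :
    z ∈ convexHull ℝ ({a, b, c} : Set ℂ) ↔
      0 ≤ TRI1_bc a b c z ∧ 0 ≤ TRI1_bc b c a z ∧ 0 ≤ TRI1_bc c a b z := by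
  have h1 : crs (c - b) (a - b) ≠ 0 := by rwa [TRI1_cyc]
  have h2 : crs (a - c) (b - c) ≠ 0 := by rwa [TRI1_cyc]
  constructor
  · intro hz
    have hconv : Convex ℝ {z : ℂ | 0 ≤ TRI1_bc a b c z ∧ 0 ≤ TRI1_bc b c a z ∧
        0 ≤ TRI1_bc c a b z} := by
      intro y hy z hz α β hα hβ hαβ
      simp only [mem_ofPred_eq] at hy hz ⊢
      rw [TRI1_affine _ _ _ hαβ, TRI1_affine _ _ _ hαβ, TRI1_affine _ _ _ hαβ]
      exact ⟨add_nonneg (mul_nonneg hα hy.1) (mul_nonneg hβ hz.1),
        add_nonneg (mul_nonneg hα hy.2.1) (mul_nonneg hβ hz.2.1),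
        add_nonneg (mul_nonneg hα hy.2.2) (mul_nonneg hβ hz.2.2)⟩
    refine convexHull_min ?_ hconv hz
    rintro w (rfl | rfl | rfl)
    · simp only [mem_ofPred_eq]
      rw [TRI1_self h, TRI1_zero2, TRI1_zero1]
      norm_num
    · simp only [mem_ofPred_eq]
      rw [TRI1_self h1, TRI1_zero2, TRI1_zero1]
      norm_num
    · simp only [mem_ofPred_eq]
      rw [TRI1_self h2, TRI1_zero2, TRI1_zero1]
      norm_num
  · rintro ⟨ha, hb, hc⟩
    have hs := TRI1_sum h z
    rw [← TRI1_comb h z]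
    have hC := convex_convexHull ℝ ({a, b, c} : Set ℂ)
    have ma : a ∈ convexHull ℝ ({a, b, c} : Set ℂ) := subset_convexHull ℝ _ (by simp)
    have mb : b ∈ convexHull ℝ ({a, b, c} : Set ℂ) := subset_convexHull ℝ _ (by simp)
    have mc : c ∈ convexHull ℝ ({a, b, c} : Set ℂ) := subset_convexHull ℝ _ (by simp)
    by_cases h0 : TRI1_bc a b c z + TRI1_bc b c a z = 0
    · have e1 : TRI1_bc a b c z = 0 := by linarith
      have e2 : TRI1_bc b c a z = 0 := by linarith
      have e3 : TRI1_bc c a b z = 1 := by linarith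
      rw [e1, e2, e3]
      simpa using mc
    · have hpos : 0 < TRI1_bc a b c z + TRI1_bc b c a z :=
        lt_of_le_of_ne (add_nonneg ha hb) (Ne.symm h0)
      have m1 := hC ma mb (a := TRI1_bc a b c z / (TRI1_bc a b c z + TRI1_bc b c a z))
        (b := TRI1_bc b c a z / (TRI1_bc a b c z + TRI1_bc b c a z))
        (div_nonneg ha hpos.le) (div_nonneg hb hpos.le) (by rw [← add_div, div_self h0])
      have m2 := hC m1 mc (a := TRI1_bc a b c z + TRI1_bc b c a z) (b := TRI1_bc c a b z)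
        hpos.le hc (by linarith)
      rw [smul_add, smul_smul, smul_smul, mul_div_cancel₀ _ h0, mul_div_cancel₀ _ h0] at m2
      exact m2

theorem TRI1_interior {a b c : ℂ} (h : crs (b - a) (c - a) ≠ 0) {z : ℂ}
    (ha : 0 < TRI1_bc a b c z) (hb : 0 < TRI1_bc b c a z) (hc : 0 < TRI1_bc c a b z) :
    z ∈ interior (convexHull ℝ ({a, b, c} : Set ℂ)) := by
  rw [mem_interior]
  refine ⟨{z : ℂ | 0 < TRI1_bc a b c z ∧ 0 < TRI1_bc b c a z ∧ 0 < TRI1_bc c a b z}, ?_, ?_,
    ⟨ha, hb, hc⟩⟩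
  · rintro w ⟨h1, h2, h3⟩
    exact (TRI1_mem h w).2 ⟨h1.le, h2.le, h3.le⟩
  · exact (isOpen_lt continuous_const (TRI1_continuous _ _ _)).inter
      ((isOpen_lt continuous_const (TRI1_continuous _ _ _)).inter
        (isOpen_lt continuous_const (TRI1_continuous _ _ _)))

/-- the range of `p` in any order -/
theorem TRI1_range (p : Fin 3 → ℂ) {k l m : Fin 3} (hkl : k ≠ l) (hkm : k ≠ m) (hlm : l ≠ m) :
    range p = {p k, p l, p m} := by
  have hall : ∀ n : Fin 3, n = k ∨ n = l ∨ n = m := by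
    intro n
    revert n k l m
    decide
  ext z
  simp only [mem_range, mem_insert_iff, mem_singleton_iff]
  constructor
  · rintro ⟨n, rfl⟩
    rcases hall n with h | h | h
    · exact Or.inl (by rw [h])
    · exact Or.inr (Or.inl (by rw [h]))
    · exact Or.inr (Or.inr (by rw [h]))
  · rintro (h | h | h)
    · exact ⟨k, h.symm⟩
    · exact ⟨l, h.symm⟩
    · exact ⟨m, h.symm⟩

/-- the determinant in any order -/
theorem TRI1_ne (p : Fin 3 → ℂ) (hp : crs (p 1 - p 0) (p 2 - p 0) ≠ 0) {k l m : Fin 3}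
    (hkl : k ≠ l) (hkm : k ≠ m) (hlm : l ≠ m) : crs (p l - p k) (p m - p k) ≠ 0 := by
  have key : crs (p l - p k) (p m - p k) = crs (p 1 - p 0) (p 2 - p 0) ∨
      crs (p l - p k) (p m - p k) = - crs (p 1 - p 0) (p 2 - p 0) := by
    have hcases : (k = 0 ∧ l = 1 ∧ m = 2) ∨ (k = 0 ∧ l = 2 ∧ m = 1) ∨ (k = 1 ∧ l = 0 ∧ m = 2) ∨
        (k = 1 ∧ l = 2 ∧ m = 0) ∨ (k = 2 ∧ l = 0 ∧ m = 1) ∨ (k = 2 ∧ l = 1 ∧ m = 0) := by
      revert k l m
      decide
    rcases hcases with ⟨rfl, rfl, rfl⟩ | ⟨rfl, rfl, rfl⟩ | ⟨rfl, rfl, rfl⟩ | ⟨rfl, rfl, rfl⟩ |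
      ⟨rfl, rfl, rfl⟩ | ⟨rfl, rfl, rfl⟩
    · left; rfl
    · right; simp only [crs, Complex.sub_re, Complex.sub_im]; ring
    · right; simp only [crs, Complex.sub_re, Complex.sub_im]; ring
    · left; simp only [crs, Complex.sub_re, Complex.sub_im]; ring
    · left; simp only [crs, Complex.sub_re, Complex.sub_im]; ring
    · right; simp only [crs, Complex.sub_re, Complex.sub_im]; ring
  rcases key with h | h
  · rw [h]; exact hp
  · rw [h]; exact neg_ne_zero.2 hp

/-- a point of the triangle with vanishing coordinate lies on the opposite side -/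
theorem TRI1_seg {a b c : ℂ} (h : crs (b - a) (c - a) ≠ 0) {z : ℂ}
    (hz : z ∈ convexHull ℝ ({a, b, c} : Set ℂ)) (h0 : TRI1_bc a b c z = 0) :
    z ∈ segment ℝ b c := by
  obtain ⟨-, hb, hc⟩ := (TRI1_mem h z).1 hz
  have hs := TRI1_sum h z
  have hcomb := TRI1_comb h z
  rw [h0, zero_smul, zero_add] at hcomb
  exact ⟨_, _, hb, hc, by linarith, hcomb⟩

/-- a point of the frontier of a triangle is a corner or inside a side -/
theorem tri_frontier (p : Fin 3 → ℂ) (hp : crs (p 1 - p 0) (p 2 - p 0) ≠ 0) {x : ℂ}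
    (hx : x ∈ frontier (convexHull ℝ (range p))) :
    (∃ k, x = p k) ∨ ∃ k l, k ≠ l ∧ Sbtw ℝ (p k) x (p l) := by
  have hclosed : IsClosed (convexHull ℝ (range p)) :=
    ((finite_range p).isCompact_convexHull (𝕜 := ℝ)).isClosed
  rw [frontier, hclosed.closure_eq] at hx
  obtain ⟨hxS, hxi⟩ := hx
  have hcase : ∃ k l m : Fin 3, k ≠ l ∧ k ≠ m ∧ l ≠ m ∧ TRI1_bc (p k) (p l) (p m) x = 0 := by
    by_contra hcon
    push Not at hcon
    have hr := TRI1_range p (k := 0) (l := 1) (m := 2) (by decide) (by decide) (by decide)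
    rw [hr] at hxS hxi
    obtain ⟨h1, h2, h3⟩ := (TRI1_mem hp x).1 hxS
    apply hxi
    apply TRI1_interior hp
    · exact lt_of_le_of_ne h1 (Ne.symm (hcon 0 1 2 (by decide) (by decide) (by decide)))
    · exact lt_of_le_of_ne h2 (Ne.symm (hcon 1 2 0 (by decide) (by decide) (by decide)))
    · exact lt_of_le_of_ne h3 (Ne.symm (hcon 2 0 1 (by decide) (by decide) (by decide)))
  obtain ⟨k, l, m, hkl, hkm, hlm, h0⟩ := hcase
  rw [TRI1_range p hkl hkm hlm] at hxS
  have hseg := TRI1_seg (TRI1_ne p hp hkl hkm hlm) hxS h0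
  by_cases h1 : x = p l
  · exact Or.inl ⟨l, h1⟩
  by_cases h2 : x = p m
  · exact Or.inl ⟨m, h2⟩
  exact Or.inr ⟨l, m, hlm, mem_segment_iff_wbtw.1 hseg, h1, h2⟩

theorem TRI1_crs_comb {a b c : ℂ} (h : crs (b - a) (c - a) ≠ 0) (x y z : ℂ) :
    crs (y - x) (z - x) = TRI1_bc a b c z * crs (y - x) (a - x) +
      TRI1_bc b c a z * crs (y - x) (b - x) + TRI1_bc c a b z * crs (y - x) (c - x) := by
  have hs := TRI1_sum h z
  have hcomb := TRI1_comb h z
  have e3 : TRI1_bc c a b z = 1 - TRI1_bc a b c z - TRI1_bc b c a z := by linarith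
  have hre := congrArg Complex.re hcomb
  have him := congrArg Complex.im hcomb
  simp only [Complex.add_re, Complex.smul_re, Complex.add_im, Complex.smul_im, smul_eq_mul] at hre him
  rw [e3] at hre him ⊢
  simp only [crs, Complex.sub_re, Complex.sub_im]
  rw [← hre, ← him]
  ring

theorem tri_same (p : Fin 3 → ℂ) (hp : crs (p 1 - p 0) (p 2 - p 0) ≠ 0) {x y : ℂ}
    (hx : x ∈ convexHull ℝ (range p)) (hy : y ∈ convexHull ℝ (range p)) (hxy : x ≠ y)
    (hb : BDir (convexHull ℝ (range p)) x (y - x)) :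
    ∃ k l, k ≠ l ∧ x ∈ segment ℝ (p k) (p l) ∧ y ∈ segment ℝ (p k) (p l) := by
  -- one corner is not on the line `x y`
  have hne : ∃ k, crs (y - x) (p k - x) ≠ 0 := by
    by_contra hcon
    push Not at hcon
    have h0 := hcon 0
    have h1 := hcon 1
    have h2 := hcon 2
    have hyx : y - x ≠ 0 := sub_ne_zero.2 (Ne.symm hxy)
    have hv : (y - x).re ≠ 0 ∨ (y - x).im ≠ 0 := by
      by_contra hc
      push Not at hc
      exact hyx (Complex.ext hc.1 hc.2)
    apply hp
    simp only [crs, Complex.sub_re, Complex.sub_im] at h0 h1 h2 hv ⊢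
    rcases hv with hv | hv
    · have e : (y.re - x.re) * (((p 1).re - (p 0).re) * ((p 2).im - (p 0).im) -
          ((p 1).im - (p 0).im) * ((p 2).re - (p 0).re)) = 0 := by
        linear_combination ((p 1).re - (p 0).re) * (h2 - h0) - ((p 2).re - (p 0).re) * (h1 - h0)
      exact (mul_eq_zero.1 e).resolve_left hv
    · have e : (y.im - x.im) * (((p 1).re - (p 0).re) * ((p 2).im - (p 0).im) -
          ((p 1).im - (p 0).im) * ((p 2).re - (p 0).re)) = 0 := by
        linear_combination ((p 1).im - (p 0).im) * (h2 - h0) - ((p 2).im - (p 0).im) * (h1 - h0)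
      exact (mul_eq_zero.1 e).resolve_left hv
  obtain ⟨k, hk⟩ := hne
  obtain ⟨l, m, hkl, hkm, hlm⟩ : ∃ l m : Fin 3, k ≠ l ∧ k ≠ m ∧ l ≠ m := by
    clear hk
    revert k
    decide
  have hD := TRI1_ne p hp hkl hkm hlm
  have hr := TRI1_range p hkl hkm hlm
  have mem : ∀ n : Fin 3, p n ∈ convexHull ℝ (range p) := fun n =>
    subset_convexHull ℝ _ (mem_range_self n)
  -- the coordinate of `k` vanishes at every point of the triangle on the line
  have hz0 : ∀ z ∈ convexHull ℝ (range p), crs (y - x) (z - x) = 0 →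
      TRI1_bc (p k) (p l) (p m) z = 0 := by
    intro z hz hzero
    rw [hr] at hz
    obtain ⟨c1, c2, c3⟩ := (TRI1_mem hD z).1 hz
    have hc := TRI1_crs_comb hD x y z
    rw [hzero] at hc
    rcases hb.2.2 with hside | hside
    · have s1 := hside _ (mem k)
      have s2 := hside _ (mem l)
      have s3 := hside _ (mem m)
      have t1 := mul_nonneg c1 s1
      have t2 := mul_nonneg c2 s2
      have t3 := mul_nonneg c3 s3
      have : TRI1_bc (p k) (p l) (p m) z * crs (y - x) (p k - x) = 0 := by linarith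
      exact (mul_eq_zero.1 this).resolve_right hk
    · have s1 := hside _ (mem k)
      have s2 := hside _ (mem l)
      have s3 := hside _ (mem m)
      have t1 := mul_nonpos_of_nonneg_of_nonpos c1 s1
      have t2 := mul_nonpos_of_nonneg_of_nonpos c2 s2
      have t3 := mul_nonpos_of_nonneg_of_nonpos c3 s3
      have : TRI1_bc (p k) (p l) (p m) z * crs (y - x) (p k - x) = 0 := by linarith
      exact (mul_eq_zero.1 this).resolve_right hk
  have hx0 := hz0 x hx (by simp [crs])
  have hy0 := hz0 y hy (by simp only [crs]; ring)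
  rw [hr] at hx hy
  exact ⟨l, m, hlm, TRI1_seg hD hx hx0, TRI1_seg hD hy hy0⟩

theorem tri_bdir (p : Fin 3 → ℂ) (hp : crs (p 1 - p 0) (p 2 - p 0) ≠ 0) {x : ℂ} {k l : Fin 3}
    (hkl : k ≠ l) (hx : x ∈ segment ℝ (p k) (p l)) (hxl : x ≠ p l) :
    BDir (convexHull ℝ (range p)) x (p l - x) := by
  obtain ⟨m, hkm, hlm⟩ : ∃ m : Fin 3, k ≠ m ∧ l ≠ m := by
    clear hx hxl
    revert k l
    decide
  have hD := TRI1_ne p hp hkl hkm hlm
  have hr := TRI1_range p hkl hkm hlm
  refine ⟨sub_ne_zero.2 (Ne.symm hxl), ⟨1, one_pos, ?_⟩, ?_⟩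
  · rw [one_smul, add_sub_cancel]
    exact subset_convexHull ℝ _ (mem_range_self l)
  · obtain ⟨s, t, hs, ht, hst, hxe⟩ := hx
    have hs' : s = 1 - t := by linarith
    -- value at a point of the triangle
    have hval : ∀ z, crs (p l - x) (z - x) =
        s * (TRI1_bc (p m) (p k) (p l) z * crs (p l - p k) (p m - p k)) := by
      intro z
      have e1 := TRI1_crs_comb hD (p k) (p l) z
      have e2 : crs (p l - p k) (p k - p k) = 0 := by simp [crs]
      have e3 : crs (p l - p k) (p l - p k) = 0 := by simp only [crs]; ring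
      rw [e2, e3, mul_zero, mul_zero, zero_add, zero_add] at e1
      rw [← e1, ← hxe]
      subst hs'
      simp only [crs, Complex.sub_re, Complex.sub_im, Complex.add_re, Complex.add_im,
        Complex.smul_re, Complex.smul_im, smul_eq_mul]
      ring
    rcases lt_or_gt_of_ne hD with hneg | hpos
    · right
      intro z hz
      rw [hr] at hz
      obtain ⟨-, -, c3⟩ := (TRI1_mem hD z).1 hz
      rw [hval z]
      exact mul_nonpos_of_nonneg_of_nonpos hs (mul_nonpos_of_nonneg_of_nonpos c3 hneg.le)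
    · left
      intro z hz
      rw [hr] at hz
      obtain ⟨-, -, c3⟩ := (TRI1_mem hD z).1 hz
      rw [hval z]
      exact mul_nonneg hs (mul_nonneg c3 hpos.le)

end Pool.Agent.NNb
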