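import Pool.Agent.NNb.Angl
import Pool.Agent.NNb.Tri1

/-!
Module TRI2.  The angle of a triangle at a corner.

`dcone S (p k)` is the cone spanned by `p l - p k` and `p m - p k`, i.e. the sector of the
corresponding unit vectors (in the order with positive `crs`); then `IsPoly.angl_eq`.
(`InnerProductGeometry.angle` is symmetric and invariant under positive multiples;
`EuclideanGeometry.angle (p l) (p k) (p m) = InnerProductGeometry.angle (p l - p k) (p m - p k)`.)
-/

namespace Pool.Agent.NNb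

open Set

/-- a nondegenerate triangle is a convex polygon -/
theorem TRI2_poly {a b c : ℂ} (h : crs (b - a) (c - a) ≠ 0) :
    IsPoly (convexHull ℝ ({a, b, c} : Set ℂ)) := by
  refine ⟨⟨{a, b, c}, by simp, rfl⟩, ⟨(3 : ℝ)⁻¹ • a + (3 : ℝ)⁻¹ • b + (3 : ℝ)⁻¹ • c, ?_⟩⟩
  have key : ∀ a b c : ℂ, crs (b - a) (c - a) ≠ 0 →
      TRI1_bc a b c ((3 : ℝ)⁻¹ • a + (3 : ℝ)⁻¹ • b + (3 : ℝ)⁻¹ • c) = 3⁻¹ := by
    intro a b c h
    unfold TRI1_bc
    rw [div_eq_iff h]
    simp only [crs, Complex.sub_re, Complex.sub_im, Complex.add_re, Complex.add_im, Complex.smul_re,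
      Complex.smul_im, smul_eq_mul]
    ring
  have k1 := key a b c h
  have k2 := key b c a (by rwa [TRI1_cyc])
  have k3 := key c a b (by rwa [TRI1_cyc b c a, TRI1_cyc a b c])
  have e2 : (3 : ℝ)⁻¹ • b + (3 : ℝ)⁻¹ • c + (3 : ℝ)⁻¹ • a =
      (3 : ℝ)⁻¹ • a + (3 : ℝ)⁻¹ • b + (3 : ℝ)⁻¹ • c := by abel
  have e3 : (3 : ℝ)⁻¹ • c + (3 : ℝ)⁻¹ • a + (3 : ℝ)⁻¹ • b =
      (3 : ℝ)⁻¹ • a + (3 : ℝ)⁻¹ • b + (3 : ℝ)⁻¹ • c := by abel
  rw [e2] at k2
  rw [e3] at k3
  apply TRI1_interior h
  · rw [k1]; norm_num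
  · rw [k2]; norm_num
  · rw [k3]; norm_num

/-- the cone of feasible directions of a triangle at a corner -/
theorem TRI2_dcone {a b c : ℂ} (h : 0 < crs (b - a) (c - a)) :
    dcone (convexHull ℝ ({a, b, c} : Set ℂ)) a = sector (b - a) (c - a) := by
  have hval : ∀ (t : ℝ) (v : ℂ),
      TRI1_bc b c a (a + t • v) = t * crs v (c - a) / crs (b - a) (c - a) ∧
      TRI1_bc c a b (a + t • v) = t * crs (b - a) v / crs (b - a) (c - a) := by
    intro t v
    constructor
    · unfold TRI1_bc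
      rw [TRI1_cyc a b c]
      congr 1
      simp only [crs, Complex.sub_re, Complex.sub_im, Complex.add_re, Complex.add_im,
        Complex.smul_re, Complex.smul_im, smul_eq_mul]
      ring
    · unfold TRI1_bc
      rw [TRI1_cyc b c a, TRI1_cyc a b c]
      congr 1
      simp only [crs, Complex.sub_re, Complex.sub_im, Complex.add_re, Complex.add_im,
        Complex.smul_re, Complex.smul_im, smul_eq_mul]
      ring
  ext v
  simp only [dcone, sector, mem_ofPred_eq]
  constructor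
  · rintro ⟨t, ht, hv⟩
    obtain ⟨-, h2, h3⟩ := (TRI1_mem h.ne' _).1 hv
    obtain ⟨e2, e3⟩ := hval t v
    rw [e2] at h2
    rw [e3] at h3
    have h2' := mul_nonneg h2 h.le
    have h3' := mul_nonneg h3 h.le
    rw [div_mul_cancel₀ _ h.ne'] at h2' h3'
    exact ⟨nonneg_of_mul_nonneg_right h3' ht, nonneg_of_mul_nonneg_right h2' ht⟩
  · rintro ⟨h1, h2⟩
    set s : ℝ := crs (b - a) v + crs v (c - a) with hs
    have hs0 : 0 ≤ s := add_nonneg h1 h2
    refine ⟨crs (b - a) (c - a) / (1 + s), div_pos h (by linarith), ?_⟩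
    have ht : 0 < crs (b - a) (c - a) / (1 + s) := div_pos h (by linarith)
    rw [TRI1_mem h.ne']
    obtain ⟨e2, e3⟩ := hval (crs (b - a) (c - a) / (1 + s)) v
    have hsum := TRI1_sum h.ne' (a + (crs (b - a) (c - a) / (1 + s)) • v)
    refine ⟨?_, ?_, ?_⟩
    · have e1 : TRI1_bc a b c (a + (crs (b - a) (c - a) / (1 + s)) • v) =
          1 - s / (1 + s) := by
        rw [e2, e3] at hsum
        have e4 : crs (b - a) (c - a) / (1 + s) * crs v (c - a) / crs (b - a) (c - a) =
            crs v (c - a) / (1 + s) := by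
          field_simp
        have e5 : crs (b - a) (c - a) / (1 + s) * crs (b - a) v / crs (b - a) (c - a) =
            crs (b - a) v / (1 + s) := by
          field_simp
        rw [e4, e5] at hsum
        rw [hs, add_div]
        rw [hs] at hsum
        linarith
      rw [e1]
      have : s / (1 + s) ≤ 1 := by
        rw [div_le_one (by linarith)]
        linarith
      linarith
    · rw [e2]
      exact div_nonneg (mul_nonneg ht.le h2) h.le
    · rw [e3]
      exact div_nonneg (mul_nonneg ht.le h1) h.le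

theorem TRI2_main {a b c : ℂ} (h : 0 < crs (b - a) (c - a)) :
    angl (convexHull ℝ ({a, b, c} : Set ℂ)) a = InnerProductGeometry.angle (b - a) (c - a) := by
  have hu : b - a ≠ 0 := by
    intro h0
    rw [h0] at h
    simp [crs] at h
  have hw : c - a ≠ 0 := by
    intro h0
    rw [h0] at h
    simp [crs] at h
  have hun : 0 < ‖b - a‖ := norm_pos_iff.2 hu
  have hwn : 0 < ‖c - a‖ := norm_pos_iff.2 hw
  have hcrs : ∀ (s t : ℝ) (x y : ℂ), crs (s • x) (t • y) = s * t * crs x y := by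
    intro s t x y
    simp only [crs, Complex.smul_re, Complex.smul_im, smul_eq_mul]
    ring
  have hcrs1 : ∀ (s : ℝ) (x y : ℂ), crs (s • x) y = s * crs x y := by
    intro s x y
    simp only [crs, Complex.smul_re, Complex.smul_im, smul_eq_mul]
    ring
  have hcrs2 : ∀ (s : ℝ) (x y : ℂ), crs x (s • y) = s * crs x y := by
    intro s x y
    simp only [crs, Complex.smul_re, Complex.smul_im, smul_eq_mul]
    ring
  have hi1 : 0 < ‖b - a‖⁻¹ := inv_pos.2 hun
  have hi2 : 0 < ‖c - a‖⁻¹ := inv_pos.2 hwn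
  have hsec : sector (b - a) (c - a) = sector (‖b - a‖⁻¹ • (b - a)) (‖c - a‖⁻¹ • (c - a)) := by
    ext v
    simp only [sector, mem_ofPred_eq]
    rw [hcrs1, hcrs2, mul_nonneg_iff_of_pos_left hi1, mul_nonneg_iff_of_pos_left hi2]
  have hn1 : ‖‖b - a‖⁻¹ • (b - a)‖ = 1 := by
    rw [norm_smul, norm_inv, norm_norm, inv_mul_cancel₀ hun.ne']
  have hn2 : ‖‖c - a‖⁻¹ • (c - a)‖ = 1 := by
    rw [norm_smul, norm_inv, norm_norm, inv_mul_cancel₀ hwn.ne']
  have hpos : 0 < crs (‖b - a‖⁻¹ • (b - a)) (‖c - a‖⁻¹ • (c - a)) := by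
    rw [hcrs]
    exact mul_pos (mul_pos hi1 hi2) h
  rw [(TRI2_poly h.ne').angl_eq hn1 hn2 hpos (by rw [TRI2_dcone h, hsec]),
    InnerProductGeometry.angle_smul_left_of_pos _ _ hi1,
    InnerProductGeometry.angle_smul_right_of_pos _ _ hi2]

theorem tri_angl (p : Fin 3 → ℂ) (hp : crs (p 1 - p 0) (p 2 - p 0) ≠ 0) (k l m : Fin 3)
    (hkl : k ≠ l) (hkm : k ≠ m) (hlm : l ≠ m) :
    angl (convexHull ℝ (range p)) (p k) = EuclideanGeometry.angle (p l) (p k) (p m) := by
  have hD := TRI1_ne p hp hkl hkm hlm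
  unfold EuclideanGeometry.angle
  simp only [vsub_eq_sub]
  rcases lt_or_gt_of_ne hD with hneg | hpos
  · rw [TRI1_range p hkm hkl hlm.symm]
    have hpos : 0 < crs (p m - p k) (p l - p k) := by
      have : crs (p m - p k) (p l - p k) = - crs (p l - p k) (p m - p k) := by
        simp only [crs]; ring
      rw [this]
      linarith
    rw [TRI2_main hpos, InnerProductGeometry.angle_comm]
  · rw [TRI1_range p hkl hkm hlm]
    exact TRI2_main hpos

end Pool.Agent.NNb
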