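import Pool.Agent.NNb.SysMk
import Pool.Agent.NNb.Tri1
import Pool.Agent.NNb.Tri2

/-!
Module TRI3.  All tiles are congruent labelled triangles.

Sort the three extreme points of `P` by their angles; the corners are not collinear because the
interior of `P = convexHull (ext P)` is nonempty; angle sum from `IsPoly.angl_sum` (or
`EuclideanGeometry.angle_add_angle_add_angle_eq_pi`), law of sines `EuclideanGeometry.law_sin` with
`tri_angl`; transport to the tiles by the isometries (`angl_image`, `image_extremePoints`,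
`IsometryEquiv.toRealAffineIsometryEquiv`): `lab i k = e_i (p k)`.
-/

namespace Pool.Agent.NNb

open Set

private lemma ncol_of_hull {p : Fin 3 → ℂ} (hinj : Function.Injective p)
    (hint : (interior (convexHull ℝ (range p))).Nonempty) :
    crs (p 1 - p 0) (p 2 - p 0) ≠ 0 := by
  intro h0
  have ha : p 1 - p 0 ≠ 0 := sub_ne_zero.mpr (fun h => by
    have := hinj h
    exact absurd this (by decide))
  set a := p 1 - p 0 with hadef
  have hconv : Convex ℝ {z : ℂ | crs a (z - p 0) = 0} := by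
    intro z hz w hw s t hs ht hst
    simp only [Set.mem_ofPred_eq, crs] at hz hw ⊢
    simp only [Complex.sub_re, Complex.sub_im, Complex.add_re, Complex.add_im, Complex.real_smul,
      Complex.mul_re, Complex.mul_im, Complex.ofReal_re, Complex.ofReal_im, zero_mul, sub_zero,
      add_zero] at hz hw ⊢
    have e : a.re * (s * z.im + t * w.im - (p 0).im) - a.im * (s * z.re + t * w.re - (p 0).re) =
        s * (a.re * (z.im - (p 0).im) - a.im * (z.re - (p 0).re)) +
        t * (a.re * (w.im - (p 0).im) - a.im * (w.re - (p 0).re)) +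
        (s + t - 1) * (a.re * (p 0).im - a.im * (p 0).re) := by ring
    have e2 : a.re * (s * z.im + t * w.im - (p 0).im) - a.im * (s * z.re + t * w.re - (p 0).re) = 0 := by
      rw [e, hz, hw, hst]; ring
    linarith
  have hsub : convexHull ℝ (range p) ⊆ {z : ℂ | crs a (z - p 0) = 0} := by
    apply convexHull_min _ hconv
    rintro _ ⟨k, rfl⟩
    fin_cases k
    · simp [crs]
    · show crs a (p 1 - p 0) = 0
      rw [← hadef]
      simp only [crs]; ring
    · exact h0
  obtain ⟨z, hz⟩ := hint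
  have hz1 := interior_mono hsub hz
  rw [mem_interior_iff_mem_nhds, Metric.mem_nhds_iff] at hz1
  obtain ⟨r, hr, hball⟩ := hz1
  have hna : 0 < ‖a‖ := norm_pos_iff.mpr ha
  have hz0 : crs a (z - p 0) = 0 := hball (Metric.mem_ball_self hr)
  have hz2 : crs a (z + ((r / (2 * ‖a‖) : ℝ) : ℂ) * (Complex.I * a) - p 0) = 0 := by
    apply hball
    rw [Metric.mem_ball, dist_eq_norm]
    have : z + ((r / (2 * ‖a‖) : ℝ) : ℂ) * (Complex.I * a) - z = ((r / (2 * ‖a‖) : ℝ) : ℂ) * (Complex.I * a) := by ring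
    rw [this, norm_mul, norm_mul, Complex.norm_I, one_mul, Complex.norm_real, Real.norm_eq_abs,
      abs_of_pos (by positivity)]
    have : r / (2 * ‖a‖) * ‖a‖ = r / 2 := by field_simp
    rw [this]; linarith
  have e3 : crs a (z + ((r / (2 * ‖a‖) : ℝ) : ℂ) * (Complex.I * a) - p 0) =
      crs a (z - p 0) + r / (2 * ‖a‖) * (a.re ^ 2 + a.im ^ 2) := by
    simp only [crs, Complex.sub_re, Complex.sub_im, Complex.add_re, Complex.add_im,
      Complex.mul_re, Complex.mul_im, Complex.ofReal_re, Complex.ofReal_im, Complex.I_re, Complex.I_im]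
    ring
  rw [e3, hz0, zero_add] at hz2
  have h5 : 0 < a.re ^ 2 + a.im ^ 2 := by
    have := Complex.normSq_pos.mpr ha
    rw [Complex.normSq_apply] at this
    nlinarith
  have : 0 < r / (2 * ‖a‖) * (a.re ^ 2 + a.im ^ 2) := by positivity
  linarith

theorem tri_label {P : Set ℂ} (h : IsPoly P) (hc : h.ext_finite.toFinset.card = 3) :
    ∃ p : Fin 3 → ℂ, Function.Injective p ∧ (∀ x, x ∈ P.extremePoints ℝ ↔ ∃ k, x = p k) ∧
      P = convexHull ℝ (range p) ∧ crs (p 1 - p 0) (p 2 - p 0) ≠ 0 ∧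
      angl P (p 0) ≤ angl P (p 1) ∧ angl P (p 1) ≤ angl P (p 2) := by
  set F := h.ext_finite.toFinset with hF
  let e := (F.equivFinOfCardEq hc).symm
  let q : Fin 3 → ℂ := fun k => (e k : ℂ)
  let σ := Tuple.sort (fun k => angl P (q k))
  let p : Fin 3 → ℂ := fun k => q (σ k)
  have hqinj : Function.Injective q := fun a b hab => e.injective (Subtype.ext hab)
  have hpinj : Function.Injective p := hqinj.comp σ.injective
  have hmem : ∀ x, x ∈ P.extremePoints ℝ ↔ ∃ k, x = p k := by
    intro x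
    constructor
    · intro hx
      have hxF : x ∈ F := by simp [hF, hx]
      refine ⟨σ.symm (e.symm ⟨x, hxF⟩), ?_⟩
      simp [p, q]
    · rintro ⟨k, rfl⟩
      exact (Set.Finite.mem_toFinset _).mp (e (σ k)).2
  have hrange : range p = P.extremePoints ℝ := by
    ext x
    rw [hmem]
    constructor
    · rintro ⟨k, rfl⟩; exact ⟨k, rfl⟩
    · rintro ⟨k, rfl⟩; exact ⟨k, rfl⟩
  have hull : P = convexHull ℝ (range p) := by rw [hrange, h.hull_ext]
  have hmono : Monotone ((fun k => angl P (q k)) ∘ σ) := Tuple.monotone_sort _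
  refine ⟨p, hpinj, hmem, hull, ncol_of_hull hpinj (by rw [← hull]; exact h.2), ?_, ?_⟩
  · exact hmono (show (0 : Fin 3) ≤ 1 by decide)
  · exact hmono (show (1 : Fin 3) ≤ 2 by decide)

variable {ι : Type} {n : ℕ} (t : CTil ι n)

/-- all tiles are congruent labelled triangles -/
theorem CTil.lab_exists (hm : t.m = 3) :
    ∃ (θ : Fin 3 → ℝ) (ρ : ℝ) (lab : ι → Fin 3 → ℂ),
      (∀ k, 0 < θ k) ∧ θ 0 ≤ θ 1 ∧ θ 1 ≤ θ 2 ∧ θ 0 + θ 1 + θ 2 = Real.pi ∧ 0 < ρ ∧
      (∀ i, Function.Injective (lab i)) ∧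
      (∀ i x, x ∈ (t.T i).extremePoints ℝ ↔ ∃ k, x = lab i k) ∧
      (∀ i k, angl (t.T i) (lab i k) = θ k) ∧
      (∀ i, dist (lab i 1) (lab i 2) = ρ * Real.sin (θ 0) ∧
        dist (lab i 0) (lab i 2) = ρ * Real.sin (θ 1) ∧
        dist (lab i 0) (lab i 1) = ρ * Real.sin (θ 2)) ∧
      (∀ i, crs (lab i 1 - lab i 0) (lab i 2 - lab i 0) ≠ 0) ∧
      (∀ i, t.T i = convexHull ℝ (range (lab i))) := by
  have hP := t.poly
  obtain ⟨p, hinj, hmem, hull, hncol, h01, h12⟩ := tri_label t.poly hm
  choose e he using t.iso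
  have hpext : ∀ k, p k ∈ (t.P).extremePoints ℝ := fun k => (hmem _).mpr ⟨k, rfl⟩
  have hpos : ∀ k, 0 < angl t.P (p k) ∧ angl t.P (p k) < Real.pi := fun k => hP.angl_corner (hpext k)
  have hsum : angl t.P (p 0) + angl t.P (p 1) + angl t.P (p 2) = Real.pi := by
    have h1 := hP.angl_sum
    have h2 : hP.ext_finite.toFinset = Finset.univ.image p := by
      ext x
      simp only [Set.Finite.mem_toFinset, Finset.mem_image, Finset.mem_univ, true_and]
      rw [hmem]
      exact ⟨fun ⟨k, hk⟩ => ⟨k, hk.symm⟩, fun ⟨k, hk⟩ => ⟨k, hk.symm⟩⟩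
    have h3 : hP.ext_finite.toFinset.card = 3 := hm
    rw [h3] at h1
    rw [h2, Finset.sum_image (fun a _ b _ hab => hinj hab), Fin.sum_univ_three] at h1
    rw [h1]; push_cast; ring
  have hang : ∀ k l m : Fin 3, k ≠ l → k ≠ m → l ≠ m →
      angl t.P (p k) = EuclideanGeometry.angle (p l) (p k) (p m) := by
    intro k l m h1 h2 h3
    have := tri_angl p hncol k l m h1 h2 h3
    rw [← hull] at this
    exact this
  have hsin : ∀ k, 0 < Real.sin (angl t.P (p k)) := fun k => Real.sin_pos_of_pos_of_lt_pi (hpos k).1 (hpos k).2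
  have l1 := EuclideanGeometry.law_sin (p 1) (p 0) (p 2)
  have l2 := EuclideanGeometry.law_sin (p 1) (p 2) (p 0)
  rw [← hang 0 1 2 (by decide) (by decide) (by decide),
    ← hang 1 2 0 (by decide) (by decide) (by decide), dist_comm (p 2) (p 1)] at l1
  rw [← hang 2 1 0 (by decide) (by decide) (by decide),
    ← hang 1 0 2 (by decide) (by decide) (by decide), dist_comm (p 2) (p 0)] at l2
  have hd02 : 0 < dist (p 0) (p 2) := dist_pos.mpr (fun hh => absurd (hinj hh) (by decide))
  have hs1 := hsin 1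
  have hlabinj : ∀ i, Function.Injective (fun k => e i (p k)) := fun i => (e i).injective.comp hinj
  have hlabext : ∀ i x, x ∈ (t.T i).extremePoints ℝ ↔ ∃ k, x = e i (p k) := by
    intro i x
    rw [he i, image_extremePoints]
    constructor
    · rintro ⟨y, hy, rfl⟩
      obtain ⟨k, rfl⟩ := (hmem y).mp hy
      exact ⟨k, rfl⟩
    · rintro ⟨k, rfl⟩
      exact ⟨p k, hpext k, rfl⟩
  have hpolyT : ∀ i, IsPoly (t.T i) := by
    intro i
    rw [he i]
    exact hP.image (e i)
  have hullT : ∀ i, t.T i = convexHull ℝ (range (fun k => e i (p k))) := by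
    intro i
    have : range (fun k => e i (p k)) = (t.T i).extremePoints ℝ := by
      ext x
      rw [hlabext]
      exact ⟨fun ⟨k, hk⟩ => ⟨k, hk.symm⟩, fun ⟨k, hk⟩ => ⟨k, hk.symm⟩⟩
    rw [this, (hpolyT i).hull_ext]
  refine ⟨fun k => angl t.P (p k), dist (p 0) (p 2) / Real.sin (angl t.P (p 1)), fun i k => e i (p k),
    fun k => (hpos k).1, h01, h12, hsum, div_pos hd02 hs1, hlabinj, hlabext, ?_, ?_, ?_, hullT⟩
  · intro i k
    show angl (t.T i) (e i (p k)) = angl t.P (p k)
    rw [he i]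
    exact angl_image _ _ _
  · intro i
    simp only [(e i).isometry.dist_eq]
    refine ⟨?_, ?_, ?_⟩
    · rw [div_mul_eq_mul_div, eq_div_iff hs1.ne']
      linarith
    · field_simp
    · rw [div_mul_eq_mul_div, eq_div_iff hs1.ne']
      linarith
  · intro i
    exact ncol_of_hull (hlabinj i) (by rw [← hullT i]; exact (hpolyT i).2)

end Pool.Agent.NNb
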