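import Pool.Agent.NNb.Defs

/-!
Node types of the right triangles with `θ 0 = π/(2 K)`, `K = 4, 5` (definitions only).
A type is `(a, b, c, f)` with `a + (K - 1) b + K c + 2 K f = 4 K`, `f ≤ 1`.
`cq p q t` is the rational cost `phi (v - 2) + (p/q) (a - b)/v` of a node of type `t`, `v = a + b + c + f`.
-/

namespace Pool.Agent.NNb

/-- the node types for `K = 4` -/
def types4 : List (ℕ × ℕ × ℕ × ℕ) :=
  [(16, 0, 0, 0), (12, 0, 1, 0), (8, 0, 2, 0), (4, 0, 3, 0), (0, 0, 4, 0), (13, 1, 0, 0),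
   (9, 1, 1, 0), (5, 1, 2, 0), (1, 1, 3, 0), (10, 2, 0, 0), (6, 2, 1, 0), (2, 2, 2, 0),
   (7, 3, 0, 0), (3, 3, 1, 0), (4, 4, 0, 0), (0, 4, 1, 0), (1, 5, 0, 0), (8, 0, 0, 1),
   (4, 0, 1, 1), (0, 0, 2, 1), (5, 1, 0, 1), (1, 1, 1, 1), (2, 2, 0, 1)]

/-- the node types for `K = 5` -/
def types5 : List (ℕ × ℕ × ℕ × ℕ) :=
  [(20, 0, 0, 0), (15, 0, 1, 0), (10, 0, 2, 0), (5, 0, 3, 0), (0, 0, 4, 0), (16, 1, 0, 0),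
   (11, 1, 1, 0), (6, 1, 2, 0), (1, 1, 3, 0), (12, 2, 0, 0), (7, 2, 1, 0), (2, 2, 2, 0),
   (8, 3, 0, 0), (3, 3, 1, 0), (4, 4, 0, 0), (0, 5, 0, 0), (10, 0, 0, 1), (5, 0, 1, 1),
   (0, 0, 2, 1), (6, 1, 0, 1), (1, 1, 1, 1), (2, 2, 0, 1)]

/-- valence of a type -/
def tval (t : ℕ × ℕ × ℕ × ℕ) : ℕ := t.1 + t.2.1 + t.2.2.1 + t.2.2.2

/-- the rational cost -/
def cq (lam : ℚ) (t : ℕ × ℕ × ℕ × ℕ) : ℚ :=
  1 / 2 - 1 / (tval t : ℚ) + lam * (((t.1 : ℚ) - t.2.1) / tval t)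

end Pool.Agent.NNb
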