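import Pool.Agent.NNb.TransA2
import Pool.Agent.NNb.TransB2
import Pool.Agent.NNb.C3Bd
import Pool.Agent.NNb.Big45
import Pool.Agent.NNb.Big6
import Pool.Agent.NNb.Big6E

/-!
Module UTHM.  The abstract theorems for `17 ≤ n ≤ 20`.

`u_noE`: `U5` is vacuous.  `φA` from `transA2` with `a = aq n`, `φB` from `transB2` with `b = bq n ≥ 0`,
`φC` from `trans3'` with `E = 0`.  `φ = φA + φB + φC` (`ZS_add`, `Bdd_add`).  Values `f i + ∑ φ`:
* small with a 3-valent node: `≤ -epsq` (`trans3'`, and `∑ φA ≤ 0`, `∑ φB ≤ 0`);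
* small without: `∑ φC ≤ 0`; all valences `≥ 4` (`val_ge`); `A`: `1/(n-2) - aq n = -epsq`; `B`:
  `1/(n-3) - 1/20 - bq n = -epsq`; other: `small_other`;
* big: `ψ x = φA i x + φB i x + φC i x ≤ wq n 0 (aq n) (bq n) s (val x) (val y) (val z)`: for `val x = 3` only
  `φC` contributes (`φA, φB ≤ 0`), for `val x = 4` only `φA`, for `val x = 5` only `φB`, otherwise `≤ 0`.
  Then `big45` or `big6`.
So all values are `≤ -epsq`: `no_neg_f` with `c = epsq`.
`u_E` (`n = 18`, no `A`- and `B`-tiles): only `φC` with `E = eq18` (`1/5 + 1/16 - 1/6 + epsq`), `big45E`, `big6E`.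
-/

namespace Pool.Agent.NNb

namespace Sys

variable {ι ν : Type} {n : ℕ}

theorem UTHM_eps : ((epsq : ℚ) : ℝ) = 1 / 100000 := by
  unfold epsq
  norm_num

theorem UTHM_aq (n : ℕ) : ((aq n : ℚ) : ℝ) = 1 / ((n : ℝ) - 2) + ((epsq : ℚ) : ℝ) := by
  unfold aq
  push_cast
  ring

theorem UTHM_bq (n : ℕ) : ((bq n : ℚ) : ℝ) = 1 / ((n : ℝ) - 3) - 1 / 20 + ((epsq : ℚ) : ℝ) := by
  unfold bq
  push_cast
  ring

theorem UTHM_ite (p : Prop) [Decidable p] : (((if p then 1 else 0 : ℚ)) : ℝ) =
    (if p then 1 else 0 : ℝ) := by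
  split_ifs <;> simp

theorem u_noE (S : Sys ι ν 3 n) (hn : 17 ≤ n) (hn' : n ≤ 20) (h1 : S.H3) (h2 : S.U2)
    (h3 : S.U3) (h4 : S.U4) (h5 : ∀ i, ¬ S.IsE i) : False := by
  have hnR : (17 : ℝ) ≤ n := by exact_mod_cast hn
  have hnR' : (n : ℝ) ≤ 20 := by exact_mod_cast hn'
  have heps := UTHM_eps
  have ha : 0 ≤ ((aq n : ℚ) : ℝ) := by
    rw [UTHM_aq, heps]
    have : 0 ≤ 1 / ((n : ℝ) - 2) := by
      apply div_nonneg <;> linarith
    linarith
  have hb : 0 ≤ ((bq n : ℚ) : ℝ) := by
    rw [UTHM_bq, heps]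
    have : (1 : ℝ) / 20 ≤ 1 / ((n : ℝ) - 3) := by
      apply one_div_le_one_div_of_le <;> linarith
    linarith
  have hU5 : S.U5 := fun i j g u hE => absurd hE (h5 i)
  obtain ⟨φA, zA, bA, A1, A2, A3⟩ := S.transA2 (by omega) h4 ((aq n : ℚ) : ℝ) ha
  obtain ⟨φB, zB, bB, B1, B2, B3⟩ := S.transB2 (by omega) ((bq n : ℚ) : ℝ) hb
  obtain ⟨φC, zC, bC, C1, C2, C3, C4⟩ := S.trans3' hn hn' h1 h2 h3 hU5 0 le_rfl
    (fun i hE => absurd hE (h5 i))
  refine S.no_neg_f (S.ZS_add (S.ZS_add zA zB) zC) (S.Bdd_add (S.Bdd_add bA bB) bC)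
    (c := ((epsq : ℚ) : ℝ)) (by rw [heps]; norm_num) ?_
  intro i
  have hsum : ∑ x ∈ S.N i, (φA i x + φB i x + φC i x) =
      ∑ x ∈ S.N i, φA i x + ∑ x ∈ S.N i, φB i x + ∑ x ∈ S.N i, φC i x := by
    rw [Finset.sum_add_distrib, Finset.sum_add_distrib]
  have hc := S.card_ge i
  rcases Nat.lt_or_ge (S.N i).card 4 with hlt | hge
  · have hc3 : (S.N i).card = 3 := by omega
    have sA := A2 i hc3
    have sB := B2 i hc3
    by_cases hg : ∃ g ∈ S.N i, S.val g = 3
    · obtain ⟨g, hg, hv⟩ := hg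
      have := C1 i g hc3 hg hv
      rw [hsum]
      linarith
    · push Not at hg
      have sC := C2 i hc3 hg
      by_cases hA : S.IsA i
      · have f1 := S.small_A (by omega) hA
        have f2 := A1 i hc3 hA
        rw [UTHM_aq] at f2
        rw [hsum]
        linarith
      · by_cases hB : S.IsB i
        · have f1 := S.small_B (by omega) hB
          have f2 := B1 i hc3 hB
          rw [UTHM_bq] at f2
          rw [hsum]
          linarith
        · have f1 := S.small_other hn hc3 (fun x hx => by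
            have := S.val_ge hx
            have := hg x hx
            omega) hA hB
          rw [hsum, heps]
          linarith
  · have hψ : ∀ x y z, x ∈ S.N i → y ≠ z → Part S.N i x y → Part S.N i x z →
        φA i x + φB i x + φC i x ≤
          ((wq n 0 (aq n) (bq n) (S.N i).card (S.val x) (S.val y) (S.val z) : ℚ) : ℝ) := by
      intro x y z hx hyz hxy hxz
      have a3 := A3 i x y z hge hx hyz hxy hxz
      have b3 := B3 i x y z hge hx hyz hxy hxz
      have c3 := C3 i x hge hx
      have c4 := C4 i x y z hge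
      unfold wq
      by_cases v3 : S.val x = 3
      · have c4' := c4 v3 hx hyz hxy hxz
        rw [if_pos v3]
        rw [v3, if_neg (by norm_num)] at a3 b3
        linarith
      · have c3' := c3 v3
        rw [if_neg v3]
        by_cases v4 : S.val x = 4
        · rw [if_pos v4]
          rw [if_pos v4] at a3
          rw [v4, if_neg (by norm_num)] at b3
          push_cast
          simp only [UTHM_ite]
          linarith
        · rw [if_neg v4]
          rw [if_neg v4] at a3
          by_cases v5 : S.val x = 5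
          · rw [if_pos v5]
            rw [if_pos v5] at b3
            push_cast
            simp only [UTHM_ite]
            linarith
          · rw [if_neg v5]
            rw [if_neg v5] at b3
            push_cast
            linarith
    rcases Nat.lt_or_ge (S.N i).card 6 with h6 | h6
    · exact S.big45 hn hn' h2 hge (by omega) _ hψ
    · exact S.big6 hn hn' h2 h6 _ hψ

theorem u_E (S : Sys ι ν 3 n) (hn : n = 18) (h1 : S.H3) (h2 : S.U2) (h3 : S.U3)
    (hA : ∀ i, ¬ S.IsA i) (hB : ∀ i, ¬ S.IsB i) (h5 : S.U5) : False := by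
  have heps := UTHM_eps
  have hE0 : (0 : ℚ) ≤ eq18 := by
    unfold eq18 epsq
    norm_num
  obtain ⟨φC, zC, bC, C1, C2, C3, C4⟩ := S.trans3' (by omega) (by omega) h1 h2 h3 h5 eq18 hE0
    (fun i _ => by
      have hnR : (n : ℝ) = 18 := by exact_mod_cast hn
      rw [hnR]
      unfold eq18
      push_cast
      norm_num)
  refine S.no_neg_f zC bC (c := ((epsq : ℚ) : ℝ)) (by rw [heps]; norm_num) ?_
  intro i
  have hc := S.card_ge i
  rcases Nat.lt_or_ge (S.N i).card 4 with hlt | hge
  · have hc3 : (S.N i).card = 3 := by omega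
    by_cases hg : ∃ g ∈ S.N i, S.val g = 3
    · obtain ⟨g, hg, hv⟩ := hg
      exact C1 i g hc3 hg hv
    · push Not at hg
      have sC := C2 i hc3 hg
      have f1 := S.small_other (by omega) hc3 (fun x hx => by
        have := S.val_ge hx
        have := hg x hx
        omega) (hA i) (hB i)
      rw [heps]
      linarith
  · have hψ : ∀ x y z, x ∈ S.N i → y ≠ z → Part S.N i x y → Part S.N i x z →
        φC i x ≤ ((wq n eq18 0 0 (S.N i).card (S.val x) (S.val y) (S.val z) : ℚ) : ℝ) := by
      intro x y z hx hyz hxy hxz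
      have c3 := C3 i x hge hx
      have c4 := C4 i x y z hge
      unfold wq
      by_cases v3 : S.val x = 3
      · rw [if_pos v3]
        exact c4 v3 hx hyz hxy hxz
      · have c3' := c3 v3
        rw [if_neg v3]
        split_ifs <;> simpa using c3'
    rcases Nat.lt_or_ge (S.N i).card 6 with h6 | h6
    · exact S.big45E hn h2 hge (by omega) _ hψ
    · exact S.big6E hn h2 h6 _ hψ

end Sys

end Pool.Agent.NNb
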