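import Pool.Agent.NNb.Defs

/-!
Module VAL.  First facts about `Sys`.

* `ang_le`, `ang_pos`: `ang_corner`, `ang_flat`.
* `val_ge`: the angles at `x` add up to `2 π`, all are `≤ π` and one (the tile of which `x` is a
  corner, `corner`, it is in `tl x`) is `< π`; so there are at least three tiles.
* `val_le`: the tiles at `x` other than `i` are neighbours of `i`.
* `part_symm`: clear.  `part_other`: the other tile of a partner pair is unique (`edge`).
* `card_ge`: `C i ⊆ N i`.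
* `card_le`: `card (N i) ≤ n`: `N i` has a partner pairing: map `x ∈ N i` ... simplest: for every
  `x ∈ N i` and its two partners `y, z` on `i`, the tiles across `{x,y}` are distinct neighbours for
  distinct pairs (`three`), and there are `card (N i)` unordered partner pairs (each node is in two of
  them): number of ordered partner pairs `= 2 card (N i) ≤ 2 n`.
* `nonempty`: `avg` with `K = 0`, `δ = 1`.
-/

namespace Pool.Agent.NNb

namespace Sys

variable {ι ν : Type} {m n : ℕ} (S : Sys ι ν m n)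

include S in
theorem nonempty : Nonempty ι := by
  obtain ⟨i, -⟩ := S.avg (fun _ _ => 0) (by simp) ⟨0, by simp⟩ 1 one_pos
  exact ⟨i⟩

theorem ang_le {i : ι} {x : ν} (hx : x ∈ S.N i) : S.ang i x ≤ Real.pi := by
  by_cases h : x ∈ S.C i
  · exact (S.ang_corner i x h).2.le
  · exact (S.ang_flat i x hx h).le

theorem ang_pos {i : ι} {x : ν} (hx : x ∈ S.N i) : 0 < S.ang i x := by
  by_cases h : x ∈ S.C i
  · exact (S.ang_corner i x h).1
  · rw [S.ang_flat i x hx h]; exact Real.pi_pos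

theorem val_ge {i : ι} {x : ν} (hx : x ∈ S.N i) : 3 ≤ S.val x := by
  obtain ⟨j, hj⟩ := S.corner i x hx
  have hj' : j ∈ S.tl x := (S.mem_tl j x).2 (S.C_sub j hj)
  have h1 : ∑ k ∈ S.tl x, S.ang k x < ∑ k ∈ S.tl x, Real.pi :=
    Finset.sum_lt_sum (fun k hk => S.ang_le ((S.mem_tl k x).1 hk))
      ⟨j, hj', (S.ang_corner j x hj).2⟩
  rw [S.ang_node i x hx, Finset.sum_const, nsmul_eq_mul] at h1
  have h2 : (2 : ℝ) < ((S.tl x).card : ℝ) := lt_of_mul_lt_mul_right h1 Real.pi_pos.le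
  have h3 : 2 < (S.tl x).card := by exact_mod_cast h2
  exact h3

theorem val_le {i : ι} {x : ν} (hx : x ∈ S.N i) : S.val x ≤ n + 1 := by
  classical
  have h1 : S.tl x ⊆ insert i (S.nb i) := by
    intro k hk
    rw [Finset.mem_insert]
    by_cases h : k = i
    · exact Or.inl h
    · exact Or.inr ((S.mem_nb i k).2 ⟨h, x, hx, (S.mem_tl k x).1 hk⟩)
  have h2 := Finset.card_le_card h1
  have h3 := Finset.card_insert_le i (S.nb i)
  rw [S.nb_card i] at h3
  exact h2.trans h3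

theorem card_ge (i : ι) : m ≤ (S.N i).card := by
  have h := Finset.card_le_card (S.C_sub i)
  rwa [S.C_card i] at h

open Classical in
/-- the ordered partner pairs -/
noncomputable def VAL_Pr (i : ι) : Finset (ν × ν) :=
  (S.N i ×ˢ S.N i).filter (fun p => Part S.N i p.1 p.2)

theorem VAL_mem_Pr (i : ι) (p : ν × ν) : p ∈ S.VAL_Pr i ↔ Part S.N i p.1 p.2 := by
  classical
  unfold VAL_Pr
  rw [Finset.mem_filter, Finset.mem_product]
  exact ⟨fun h => h.2, fun h => ⟨⟨h.1, h.2.1⟩, h⟩⟩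

theorem VAL_card_Pr (i : ι) : (S.VAL_Pr i).card = 2 * (S.N i).card := by
  classical
  rw [Finset.card_eq_sum_card_fiberwise (f := Prod.fst) (t := S.N i)
    (fun p hp => ((S.VAL_mem_Pr i p).1 hp).1)]
  rw [Finset.sum_const_nat (m := 2), mul_comm]
  intro x hx
  obtain ⟨y, z, hyz, hy, hz, hw⟩ := S.part i x hx
  have e : (S.VAL_Pr i).filter (fun p => p.1 = x) = {(x, y), (x, z)} := by
    ext ⟨a, b⟩
    simp only [Finset.mem_filter, VAL_mem_Pr, Finset.mem_insert, Finset.mem_singleton,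
      Prod.mk.injEq]
    constructor
    · rintro ⟨h1, rfl⟩
      rcases hw b h1 with h | h
      · exact Or.inl ⟨rfl, h⟩
      · exact Or.inr ⟨rfl, h⟩
    · rintro (⟨rfl, rfl⟩ | ⟨rfl, rfl⟩)
      · exact ⟨hy, rfl⟩
      · exact ⟨hz, rfl⟩
  rw [e, Finset.card_pair]
  intro h
  exact hyz (Prod.mk.inj h).2

theorem part_symm {i : ι} {x y : ν} (h : Part S.N i x y) : Part S.N i y x := by
  obtain ⟨h1, h2, h3, j, h4, h5, h6⟩ := h
  exact ⟨h2, h1, h3.symm, j, h4, h6, h5⟩

theorem part_other {i : ι} {x y : ν} (h : Part S.N i x y) :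
    ∃ j, j ≠ i ∧ Part S.N j x y ∧ ∀ k, x ∈ S.N k → y ∈ S.N k → k = i ∨ k = j := by
  obtain ⟨h1, h2, h3, j, h4, h5, h6⟩ := h
  refine ⟨j, h4, ⟨h5, h6, h3, i, h4.symm, h1, h2⟩, fun k hk1 hk2 => ?_⟩
  rcases S.edge x y i j k h3 h1 h2 h5 h6 hk1 hk2 with h | h | h
  · exact absurd h.symm h4
  · exact Or.inr h.symm
  · exact Or.inl h.symm

open Classical in
/-- every partner pair lies on exactly one other tile -/
theorem VAL_sum_fib (i : ι) : ∑ j ∈ S.nb i,
    ((S.VAL_Pr i).filter (fun p => p.1 ∈ S.N j ∧ p.2 ∈ S.N j)).card = (S.VAL_Pr i).card := by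
  simp_rw [Finset.card_filter]
  rw [Finset.sum_comm, Finset.card_eq_sum_ones]
  refine Finset.sum_congr rfl fun p hp => ?_
  rw [← Finset.card_filter, Finset.card_eq_one]
  have hP := (S.VAL_mem_Pr i p).1 hp
  obtain ⟨j, hj, hPj, hu⟩ := S.part_other hP
  refine ⟨j, ?_⟩
  ext k
  simp only [Finset.mem_filter, Finset.mem_singleton]
  constructor
  · rintro ⟨hk, hk1, hk2⟩
    rcases hu k hk1 hk2 with h | h
    · exact absurd h ((S.mem_nb i k).1 hk).1
    · exact h
  · rintro rfl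
    exact ⟨(S.mem_nb i k).2 ⟨hj, p.1, hP.1, hPj.1⟩, hPj.1, hPj.2.1⟩

open Classical in
theorem VAL_fib_eq {i j : ι} (hj : j ∈ S.nb i) :
    (S.VAL_Pr i).filter (fun p => p.1 ∈ S.N j ∧ p.2 ∈ S.N j) = (S.N i ∩ S.N j).offDiag := by
  ext ⟨a, b⟩
  simp only [Finset.mem_filter, VAL_mem_Pr, Finset.mem_offDiag, Finset.mem_inter]
  constructor
  · rintro ⟨⟨h1, h2, h3, -⟩, h4, h5⟩
    exact ⟨⟨h1, h4⟩, ⟨h2, h5⟩, h3⟩
  · rintro ⟨⟨h1, h4⟩, ⟨h2, h5⟩, h3⟩
    exact ⟨⟨h1, h2, h3, j, ((S.mem_nb i j).1 hj).1, h4, h5⟩, h4, h5⟩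

open Classical in
theorem VAL_inter_le {i j : ι} (hj : j ∈ S.nb i) : (S.N i ∩ S.N j).card ≤ 2 := by
  by_contra hc
  push Not at hc
  obtain ⟨a, ha, b, hb, c, hc', hab, hac, hbc⟩ := Finset.two_lt_card.1 hc
  rw [Finset.mem_inter] at ha hb hc'
  rcases S.three i j a b c ((S.mem_nb i j).1 hj).1.symm ha.1 hb.1 hc'.1 ha.2 hb.2 hc'.2 with
    h | h | h
  · exact hab h
  · exact hbc h
  · exact hac h

open Classical in
theorem VAL_inter_ge {i j : ι} (hj : j ∈ S.nb i) : 1 ≤ (S.N i ∩ S.N j).card := by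
  obtain ⟨-, x, h1, h2⟩ := (S.mem_nb i j).1 hj
  exact Finset.card_pos.2 ⟨x, Finset.mem_inter.2 ⟨h1, h2⟩⟩

theorem card_le (i : ι) : (S.N i).card ≤ n := by
  classical
  have h1 := S.VAL_sum_fib i
  rw [S.VAL_card_Pr i] at h1
  have h2 : ∑ j ∈ S.nb i,
      ((S.VAL_Pr i).filter (fun p => p.1 ∈ S.N j ∧ p.2 ∈ S.N j)).card ≤ ∑ j ∈ S.nb i, 2 := by
    refine Finset.sum_le_sum fun j hj => ?_
    rw [S.VAL_fib_eq hj, Finset.offDiag_card]
    have a1 := S.VAL_inter_le hj
    generalize (S.N i ∩ S.N j).card = c at a1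
    interval_cases c <;> simp
  rw [h1, Finset.sum_const, S.nb_card i, smul_eq_mul] at h2
  omega

/-- if a tile has exactly three nodes then any two of them are partners -/
theorem part_of_three {i : ι} (h : (S.N i).card = 3) {x y : ν} (hx : x ∈ S.N i)
    (hy : y ∈ S.N i) (hxy : x ≠ y) : Part S.N i x y := by
  classical
  obtain ⟨p, q, hpq, hp, hq, -⟩ := S.part i x hx
  have hs : ({x, p, q} : Finset ν) ⊆ S.N i := by
    intro z hz
    simp only [Finset.mem_insert, Finset.mem_singleton] at hz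
    rcases hz with rfl | rfl | rfl
    · exact hx
    · exact hp.2.1
    · exact hq.2.1
  have hc : ({x, p, q} : Finset ν).card = 3 :=
    Finset.card_eq_three.2 ⟨x, p, q, hp.2.2.1, hq.2.2.1, hpq, rfl⟩
  have he := Finset.eq_of_subset_of_card_le hs (by rw [hc, h])
  rw [← he] at hy
  simp only [Finset.mem_insert, Finset.mem_singleton] at hy
  rcases hy with h1 | h1 | h1
  · exact absurd h1.symm hxy
  · rw [h1]; exact hp
  · rw [h1]; exact hq

end Sys

end Pool.Agent.NNb
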