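import Pool.Agent.NNb.FPhi
import Pool.Agent.NNb.TransA
import Pool.Agent.NNb.TransB

/-!
Module WONE.  `n ≥ 22`: the value `w` of a tile without nodes of valence 3.

All `k = val - 2` are `≥ 2`, `∑ k = n`.  `w = f + recA · 51/2000 - [A] 51/1000 + rB · 12/1000
- [B] 3/1000`, `rB ≤ cv 5` (filter), `rB = 0` for `B`-tiles (hypothesis `hR`).
* `|N i| = 3`: `recA = 0` (`recA_three`).
  - `IsA`: `f = 1 - 1/4 - 1/4 - phi (n-4) = 1/(n - 2) ≤ 1/20`, `rB = 0` (valences 4, 4, n - 2):
    `w ≤ 1/20 - 51/1000`.
  - `IsB`: `f = 1 - 1/4 - 3/10 - phi (n - 5) = 1/(n-3) - 1/20 ≤ 1/380`: `w ≤ 1/380 - 3/1000`.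
  - otherwise, sorted `k1 ≤ k2 ≤ k3`: `k1 = 2`: then `k2 ≥ 4` and `f ≤ 1 - 1/4 - 1/3 - phi (n - 6)
    = -1/12 + 1/(n - 4) ≤ -1/12 + 1/18`, `rB = 0`.  `k1 ≥ 3`: `f ≤ 1 - 3/10 - 3/10 - phi (n - 6)
    ≤ -1/10 + 1/18`, `rB ≤ 2` (not all three `k` are `3`).
* `|N i| = s ≥ 4`: not of type `A`, `B`; `recA ≤ 2 cv 4`, so
  `w ≤ f + (51/1000)(cv 4 + cv 5)`, and `cv 4 + cv 5 ≤ s`, `f ≤ 3/4 - s/4 + 1/(n - 2 s + 4)` (`f_le2`,
  `2 s ≤ n`).  `s = 4`: `cv 4 + cv 5 ≤ 3` (otherwise `n ≤ 12`), `w ≤ -1/4 + 1/18 + 153/1000`.
  `s = 5`: `-1/2 + 1/16 + 255/1000`.  `s ≥ 6`: `1/(n - 2 s + 4) ≤ 1/4`, `w ≤ 1 - s/4 + 51 s/1000`.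
-/

namespace Pool.Agent.NNb

namespace Sys

variable {ι ν : Type} {n : ℕ}

private theorem WONE_phi2 (b c m : ℕ) (l : ℕ) (hb : l ≤ b) (hc : l ≤ c) (h : b + c = l + m) :
    phi l + phi m ≤ phi b + phi c := by
  have h1 := conc_const (Finset.univ : Finset (Fin 2)) ![b, c] l (l + m) Finset.univ_nonempty
    (by intro x _; fin_cases x <;> simp [hb, hc]) (by simp [h])
  have h2 : l + m - (2 - 1) * l = m := by omega
  simp only [Finset.card_univ, Fintype.card_fin, Fin.sum_univ_two] at h1
  rw [h2] at h1
  norm_num at h1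
  exact h1

open Classical in
private theorem WONE_rB_le (S : Sys ι ν 3 n) (R : ν → ι) (i : ι) : S.rB R i ≤ S.cv 5 i := by
  unfold rB cv
  apply Finset.card_le_card
  intro x hx
  rw [Finset.mem_filter] at hx ⊢
  exact ⟨hx.1, hx.2.1⟩

open Classical in
private theorem WONE_cv_add (S : Sys ι ν 3 n) (i : ι) : S.cv 4 i + S.cv 5 i =
    ((S.N i).filter (fun x => S.val x = 4 ∨ S.val x = 5)).card := by
  unfold cv
  rw [Finset.filter_or, Finset.card_union_of_disjoint]
  rw [Finset.disjoint_filter]
  intro x _ h1 h2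
  omega

open Classical in
/-- the sorted case of three nodes -/
private theorem WONE_three (S : Sys ι ν 3 n) (hn : 22 ≤ n) (R : ν → ι)
    (hR : ∀ i, S.IsB i → S.rB R i = 0) (i : ι) (hrec : S.recA i = 0) {x y z : ν} (hxy : x ≠ y)
    (hxz : x ≠ z) (hyz : y ≠ z) (hN : S.N i = {x, y, z}) (h4 : ∀ x ∈ S.N i, 4 ≤ S.val x)
    (hab : S.val x ≤ S.val y) (hbc : S.val y ≤ S.val z) :
    S.w R i ≤ -(3 / 10000) := by
  have hx : x ∈ S.N i := by rw [hN]; simp
  have hy : y ∈ S.N i := by rw [hN]; simp
  have hz : z ∈ S.N i := by rw [hN]; simp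
  have hcard : (S.N i).card = 3 := by
    rw [hN, Finset.card_eq_three]
    exact ⟨x, y, z, hxy, hxz, hyz, rfl⟩
  have hsum := S.sum_val i
  rw [hN, Finset.sum_insert (by simp [hxy, hxz]), Finset.sum_insert (by simp [hyz]),
    Finset.sum_singleton] at hsum
  have hf := S.f_eq i
  rw [hN, Finset.sum_insert (by simp [hxy, hxz]), Finset.sum_insert (by simp [hyz]),
    Finset.sum_singleton] at hf
  have hx4 := h4 x hx
  have hy4 := h4 y hy
  have hz4 := h4 z hz
  have hnR : (22 : ℝ) ≤ n := by exact_mod_cast hn
  have hrB5 : S.rB R i ≤ S.cv 5 i := WONE_rB_le S R i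
  have hcv : S.cv 5 i = (({x, y, z} : Finset ν).filter (fun x => S.val x = 5)).card := by
    unfold cv
    rw [hN]
  have hmem : ∀ t ∈ S.N i, t = x ∨ t = y ∨ t = z := by
    intro t ht
    rw [hN] at ht
    simpa using ht
  have p2 : phi 2 = 1 / 4 := by unfold phi; norm_num
  have p3 : phi 3 = 3 / 10 := by unfold phi; norm_num
  have p4 : phi 4 = 1 / 3 := by unfold phi; norm_num
  unfold w
  rw [hrec]
  by_cases hA : S.IsA i
  · -- type A
    have hval : S.val x = 4 ∧ S.val y = 4 ∧ S.val z + 2 = n := by
      obtain ⟨_, h, hh, hv, hall⟩ := hA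
      rcases hmem h hh with rfl | rfl | rfl
      · have := hall y hy hxy.symm
        have := hall z hz hxz.symm
        omega
      · have := hall x hx hxy
        have := hall z hz hyz.symm
        omega
      · have := hall x hx hxz
        have := hall y hy hyz
        omega
    have hrB0 : S.rB R i = 0 := by
      have : S.cv 5 i = 0 := by
        rw [hcv, Finset.card_eq_zero, Finset.filter_eq_empty_iff]
        intro t ht
        simp only [Finset.mem_insert, Finset.mem_singleton] at ht
        rcases ht with rfl | rfl | rfl <;> omega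
      omega
    have ez : S.val z - 2 = n - 4 := by omega
    have ex : S.val x - 2 = 2 := by omega
    have ey : S.val y - 2 = 2 := by omega
    rw [ex, ey, ez, p2, phi_eq, Nat.cast_sub (by omega)] at hf
    have e1 : ((n : ℝ) - (4 : ℕ) + 2) = n - 2 := by push_cast; ring
    rw [e1] at hf
    have h5 : 1 / ((n : ℝ) - 2) ≤ 1 / 20 := one_div_le_one_div_of_le (by norm_num) (by linarith)
    rw [if_pos hA, hrB0]
    split_ifs
    · push_cast
      linarith
    · push_cast
      linarith
  · rw [if_neg hA]
    by_cases hB : S.IsB i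
    · -- type B
      rw [if_pos hB, hR i hB]
      have hval : S.val x = 4 ∧ S.val y = 5 ∧ S.val z + 3 = n := by
        obtain ⟨_, h, u, v, hh, hu, hv, h1, h2, h3⟩ := hB
        rcases hmem h hh with rfl | rfl | rfl <;> rcases hmem u hu with rfl | rfl | rfl <;>
          rcases hmem v hv with rfl | rfl | rfl <;> omega
      have ez : S.val z - 2 = n - 5 := by omega
      have ex : S.val x - 2 = 2 := by omega
      have ey : S.val y - 2 = 3 := by omega
      rw [ex, ey, ez, p2, p3, phi_eq, Nat.cast_sub (by omega)] at hf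
      have e1 : ((n : ℝ) - (5 : ℕ) + 2) = n - 3 := by push_cast; ring
      rw [e1] at hf
      have h5 : 1 / ((n : ℝ) - 3) ≤ 1 / 19 := one_div_le_one_div_of_le (by norm_num) (by linarith)
      push_cast
      linarith
    · rw [if_neg hB]
      have hn4 : (n : ℝ) - 4 = ((n - 6 : ℕ) : ℝ) + 2 := by
        rw [Nat.cast_sub (by omega)]
        push_cast
        ring
      have h5 : 1 / ((n : ℝ) - 4) ≤ 1 / 18 := one_div_le_one_div_of_le (by norm_num) (by linarith)
      have pn : phi (n - 6) = 1 / 2 - 1 / ((n : ℝ) - 4) := by rw [phi_eq, hn4]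
      by_cases hx4' : S.val x = 4
      · have hy6 : 6 ≤ S.val y := by
          by_contra hc
          have : S.val y = 4 ∨ S.val y = 5 := by omega
          rcases this with h | h
          · apply hA
            refine ⟨hcard, z, hz, by omega, fun t ht htz => ?_⟩
            rcases hmem t ht with rfl | rfl | rfl
            · exact hx4'
            · exact h
            · exact absurd rfl htz
          · apply hB
            exact ⟨hcard, z, y, x, hz, hy, hx, by omega, h, hx4'⟩
        have hrB0 : S.rB R i = 0 := by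
          have : S.cv 5 i = 0 := by
            rw [hcv, Finset.card_eq_zero, Finset.filter_eq_empty_iff]
            intro t ht
            simp only [Finset.mem_insert, Finset.mem_singleton] at ht
            rcases ht with rfl | rfl | rfl <;> omega
          omega
        have h6 := WONE_phi2 (S.val y - 2) (S.val z - 2) (n - 6) 4 (by omega) (by omega) (by omega)
        have ex : S.val x - 2 = 2 := by omega
        rw [ex, p2] at hf
        rw [hrB0]
        rw [p4, pn] at h6
        push_cast
        linarith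
      · have hrB2 : S.rB R i ≤ 2 := by
          have : S.cv 5 i ≤ 2 := by
            rw [hcv]
            have hsub : (({x, y, z} : Finset ν).filter (fun x => S.val x = 5)) ⊆ {x, y} := by
              intro t ht
              simp only [Finset.mem_filter, Finset.mem_insert, Finset.mem_singleton] at ht ⊢
              rcases ht.1 with rfl | rfl | rfl
              · exact Or.inl rfl
              · exact Or.inr rfl
              · omega
            exact (Finset.card_le_card hsub).trans Finset.card_le_two
          omega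
        have hrB2' : (S.rB R i : ℝ) ≤ 2 := by exact_mod_cast hrB2
        have h6 := WONE_phi2 (S.val y - 2) (S.val z - 2) (n - 3 - (S.val x - 2)) 3 (by omega)
          (by omega) (by omega)
        have h7 := WONE_phi2 (S.val x - 2) (n - 3 - (S.val x - 2)) (n - 6) 3 (by omega)
          (by omega) (by omega)
        rw [p3] at h6 h7
        rw [pn] at h7
        push_cast
        linarith

theorem w_noncluster (S : Sys ι ν 3 n) (hn : 22 ≤ n) (h2 : S.H2) (R : ν → ι)
    (hR : ∀ i, S.IsB i → S.rB R i = 0) (i : ι) (h : ∀ x ∈ S.N i, S.val x ≠ 3) :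
    S.w R i ≤ -(3 / 10000) := by
  classical
  have h4 : ∀ x ∈ S.N i, 4 ≤ S.val x := fun x hx => by
    have h1 := S.val_ge hx
    have h2 := h x hx
    omega
  have hge : 3 ≤ (S.N i).card := S.card_ge i
  have hnR : (22 : ℝ) ≤ n := by exact_mod_cast hn
  rcases hge.eq_or_lt with h3 | h3
  · have hrec := recA_three S (by omega) h2 i h3.symm
    obtain ⟨x, y, z, hxy, hxz, hyz, hN⟩ := Finset.card_eq_three.mp h3.symm
    have e1 : ({x, y, z} : Finset ν) = {x, z, y} := by
      ext t; simp only [Finset.mem_insert, Finset.mem_singleton]; tauto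
    have e2 : ({x, y, z} : Finset ν) = {y, x, z} := by
      ext t; simp only [Finset.mem_insert, Finset.mem_singleton]; tauto
    have e3 : ({x, y, z} : Finset ν) = {y, z, x} := by
      ext t; simp only [Finset.mem_insert, Finset.mem_singleton]; tauto
    have e4 : ({x, y, z} : Finset ν) = {z, x, y} := by
      ext t; simp only [Finset.mem_insert, Finset.mem_singleton]; tauto
    have e5 : ({x, y, z} : Finset ν) = {z, y, x} := by
      ext t; simp only [Finset.mem_insert, Finset.mem_singleton]; tauto
    rcases le_total (S.val x) (S.val y) with a | a <;> rcases le_total (S.val y) (S.val z) with b | b <;>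
      rcases le_total (S.val x) (S.val z) with c | c
    · exact WONE_three S hn R hR i hrec hxy hxz hyz hN h4 a b
    · exact WONE_three S hn R hR i hrec hxy hxz hyz hN h4 a b
    · exact WONE_three S hn R hR i hrec hxz hxy hyz.symm (hN.trans e1) h4 c b
    · exact WONE_three S hn R hR i hrec hxz.symm hyz.symm hxy (hN.trans e4) h4 c a
    · exact WONE_three S hn R hR i hrec hxy.symm hyz hxz (hN.trans e2) h4 a c
    · exact WONE_three S hn R hR i hrec hyz hxy.symm hxz.symm (hN.trans e3) h4 b c
    · exact WONE_three S hn R hR i hrec hyz.symm hxz.symm hxy.symm (hN.trans e5) h4 b a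
    · exact WONE_three S hn R hR i hrec hyz.symm hxz.symm hxy.symm (hN.trans e5) h4 b a
  · have hA : ¬ S.IsA i := fun hA => by
      have := hA.1
      omega
    have hB : ¬ S.IsB i := fun hB => by
      have := hB.1
      omega
    unfold w
    rw [if_neg hA, if_neg hB]
    obtain ⟨h2s, hf⟩ := S.f_le2 i (by omega) h4
    have hrec : (S.recA i : ℝ) ≤ 2 * S.cv 4 i := by exact_mod_cast recA_le S i
    have hrB : (S.rB R i : ℝ) ≤ S.cv 5 i := by exact_mod_cast WONE_rB_le S R i
    have hcv5 : (0 : ℝ) ≤ S.cv 5 i := Nat.cast_nonneg _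
    have hcv : S.cv 4 i + S.cv 5 i ≤ (S.N i).card := by
      rw [WONE_cv_add]
      exact Finset.card_filter_le _ _
    have hcvR : (S.cv 4 i : ℝ) + S.cv 5 i ≤ (S.N i).card := by exact_mod_cast hcv
    have h2sR : 2 * ((S.N i).card : ℝ) ≤ n := by exact_mod_cast h2s
    rcases Nat.lt_or_ge (S.N i).card 6 with h6 | h6
    · rcases Nat.lt_or_ge (S.N i).card 5 with h5 | h5
      · have hs : (S.N i).card = 4 := by omega
        have hcv3 : S.cv 4 i + S.cv 5 i ≤ 3 := by
          by_contra hc
          have hall : ((S.N i).filter (fun x => S.val x = 4 ∨ S.val x = 5)).card = (S.N i).card := by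
            rw [← WONE_cv_add]
            omega
          rw [Finset.card_filter_eq_iff] at hall
          have hsum := S.sum_val i
          have : ∑ x ∈ S.N i, (S.val x - 2) ≤ ∑ x ∈ S.N i, 3 := by
            refine Finset.sum_le_sum fun x hx => ?_
            have := hall x hx
            omega
          rw [Finset.sum_const, hs, smul_eq_mul] at this
          omega
        have hcv3R : (S.cv 4 i : ℝ) + S.cv 5 i ≤ 3 := by exact_mod_cast hcv3
        rw [hs] at hf
        have h7 : 1 / ((n : ℝ) - 2 * (4 : ℕ) + 4) ≤ 1 / 18 :=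
          one_div_le_one_div_of_le (by norm_num) (by push_cast; linarith)
        push_cast at hf h7
        linarith
      · have hs : (S.N i).card = 5 := by omega
        rw [hs] at hf hcvR
        have h7 : 1 / ((n : ℝ) - 2 * (5 : ℕ) + 4) ≤ 1 / 16 :=
          one_div_le_one_div_of_le (by norm_num) (by push_cast; linarith)
        push_cast at hf h7 hcvR
        linarith
    · have h6R : (6 : ℝ) ≤ (S.N i).card := by exact_mod_cast h6
      have h7 : 1 / ((n : ℝ) - 2 * (S.N i).card + 4) ≤ 1 / 4 :=
        one_div_le_one_div_of_le (by norm_num) (by linarith)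
      linarith

end Sys

end Pool.Agent.NNb
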