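import Pool.Agent.NNb.Hub4

/-!
Module XCNT.  Quadrangles: the nodes at which a tile receives charge.

`IsX u x`: `x` is a 3-valent node of `u` and the two other tiles at `x` have a common node `h` of
valence `n - 1` which is not on `u`.
* `isX_card`: `hub4`.
* `isX_unique`: if `IsX u x` (with `h`) and `IsX u' x` (with `h'`), `u ≠ u'`: the third tile `t` at `x`
  contains `h` and `h'`, both of valence `n - 1`, so `h = h'` by `hub4_tile`; but `h ∈ N u'` (as `u' ≠ u`)
  and `h' ∉ N u'`.
* `isX_partner`: if `IsX u x` and `y` is a partner of `x` on `u`, then `val y = 3` and `¬ IsX u y`: the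
  other tile `t` with `x, y ∈ N t` contains `h`, `|N t| = 4`, so `val y = 3` (`y ≠ h` since `h ∉ N u`).  If
  `IsX u y` with `h'`, then `t ∋ h'`, so `h' = h`, and the third tile `t'` at `y` (`t' ≠ t, u`) contains
  `h' = h`; so `h, y` are partners on `t`; also `h, x` are partners on `t` (the other tile at `x` contains
  `h` too) and `x, y` are partners on `t`; then `{h, x, y}` is closed under partners on `t` (two partners
  each), and the fourth node of `t` has no partner, contradiction.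
* `isX_count`: if some node `w ∈ N u` has `val w ≥ 4` then `2 |X| ≤ |N u| - 2` for
  `X = {x ∈ N u | IsX u x}`: count the ordered partner pairs `(x, y)` with `x ∈ X`, `y ∉ X`: there are
  `2 |X|`; a `y ∉ X` has at most 2 partners in `X`, `w` has none (partners of elements of `X` have valence
  3), and the two partners of `w` (not in `X`) have at most one each (`w` is one of their two partners):
  `2 |X| ≤ 2 (|N u| - |X| - 3) + 2`.
* `isX_count'`: always `2 |X| ≤ |N u|` (same count).
-/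

namespace Pool.Agent.NNb

namespace Sys

variable {ι ν : Type} {n : ℕ}

/-- see the header -/
def IsX (S : Sys ι ν 4 n) (u : ι) (x : ν) : Prop :=
  x ∈ S.N u ∧ S.val x = 3 ∧ ∃ h, S.val h + 1 = n ∧ h ∉ S.N u ∧ ∀ i ∈ S.tl x, i ≠ u → h ∈ S.N i

private theorem XCNT_others (S : Sys ι ν 4 n) {u : ι} {x : ν} (h : S.IsX u x) :
    ∃ i j g, i ≠ j ∧ i ≠ u ∧ j ≠ u ∧ x ∈ S.N i ∧ x ∈ S.N j ∧ g ∈ S.N i ∧ g ∈ S.N j ∧ g ∉ S.N u ∧
      S.val g + 1 = n ∧ x ≠ g := by
  classical
  obtain ⟨hxu, hv, g, hg, hgu, hall⟩ := h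
  have hu : u ∈ S.tl x := (S.mem_tl u x).2 hxu
  have hc : ((S.tl x).erase u).card = 2 := by
    rw [Finset.card_erase_of_mem hu]
    have : (S.tl x).card = 3 := hv
    omega
  obtain ⟨i, j, hij, hE⟩ := Finset.card_eq_two.1 hc
  have hi : i ∈ (S.tl x).erase u := by rw [hE]; simp
  have hj : j ∈ (S.tl x).erase u := by rw [hE]; simp
  obtain ⟨hiu, hi2⟩ := Finset.mem_erase.1 hi
  obtain ⟨hju, hj2⟩ := Finset.mem_erase.1 hj
  refine ⟨i, j, g, hij, hiu, hju, (S.mem_tl i x).1 hi2, (S.mem_tl j x).1 hj2, hall i hi2 hiu,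
    hall j hj2 hju, hgu, hg, ?_⟩
  rintro rfl
  exact hgu hxu

/-- on a tile there is at most one node of valence `n - 1` -/
private theorem XCNT_hub (S : Sys ι ν 4 n) (hn : 15 ≤ n) {t : ι} {g g' : ν} (h1 : g ∈ S.N t)
    (h2 : g' ∈ S.N t) (hg : S.val g + 1 = n) (hg' : S.val g' + 1 = n) : g' = g := by
  by_contra hne
  have := (S.hub4_tile hn h1 hg).2 g' h2 hne
  omega

theorem isX_card (S : Sys ι ν 4 n) (hn : 15 ≤ n) {u : ι} {x : ν} (h : S.IsX u x) :
    5 ≤ (S.N u).card := by
  obtain ⟨i, j, g, hij, hiu, hju, hxi, hxj, hgi, hgj, hgu, hg, hxg⟩ := XCNT_others S h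
  exact S.hub4 hn hg hij hxg hgi hxi hgj hxj h.1 hgu

theorem isX_unique (S : Sys ι ν 4 n) (hn : 15 ≤ n) {u u' : ι} {x : ν} (h : S.IsX u x)
    (h' : S.IsX u' x) : u = u' := by
  classical
  by_contra hne
  obtain ⟨hxu, hv, g, hg, hgu, hall⟩ := h
  obtain ⟨hxu', hv', g', hg', hgu', hall'⟩ := h'
  have hu : u ∈ S.tl x := (S.mem_tl u x).2 hxu
  have hu' : u' ∈ S.tl x := (S.mem_tl u' x).2 hxu'
  have hc : (S.tl x).card = 3 := hv
  obtain ⟨t, ht, htn⟩ := Finset.exists_mem_notMem_of_card_lt_card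
    (show ({u, u'} : Finset ι).card < (S.tl x).card by
      rw [Finset.card_pair hne, hc]; norm_num)
  have htu : t ≠ u := by rintro rfl; simp at htn
  have htu' : t ≠ u' := by rintro rfl; simp at htn
  have h1 := hall t ht htu
  have h2 := hall' t ht htu'
  have h3 := XCNT_hub S hn h1 h2 hg hg'
  apply hgu'
  rw [h3]
  exact hall u' hu' (Ne.symm hne)

theorem isX_partner (S : Sys ι ν 4 n) (hn : 15 ≤ n) {u : ι} {x y : ν} (h : S.IsX u x)
    (hp : Part S.N u x y) : S.val y = 3 ∧ ¬ S.IsX u y := by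
  classical
  obtain ⟨hxu, hyu, hxy, t, htu, hxt, hyt⟩ := hp
  have hX := h
  obtain ⟨-, hv, g, hg, hgu, hall⟩ := h
  have hgt : g ∈ S.N t := hall t ((S.mem_tl t x).2 hxt) htu
  have hyg : y ≠ g := by rintro rfl; exact hgu hyu
  have hxg : x ≠ g := by rintro rfl; exact hgu hxu
  obtain ⟨hc4, hval⟩ := S.hub4_tile hn hgt hg
  refine ⟨hval y hyt hyg, ?_⟩
  intro hY
  obtain ⟨-, hvy, g', hg', hgu', hall'⟩ := hY
  have hg't : g' ∈ S.N t := hall' t ((S.mem_tl t y).2 hyt) htu
  have hgg : g' = g := XCNT_hub S hn hgt hg't hg hg'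
  subst hgg
  -- the third tiles
  have third : ∀ z, S.val z = 3 → z ∈ S.N u → z ∈ S.N t → ∃ s, s ≠ u ∧ s ≠ t ∧ s ∈ S.tl z := by
    intro z hz hzu hzt
    have hc : (S.tl z).card = 3 := hz
    obtain ⟨s, hs, hsn⟩ := Finset.exists_mem_notMem_of_card_lt_card
      (show ({u, t} : Finset ι).card < (S.tl z).card by
        rw [Finset.card_pair (Ne.symm htu), hc]; norm_num)
    refine ⟨s, ?_, ?_, hs⟩
    · rintro rfl; simp at hsn
    · rintro rfl; simp at hsn
  obtain ⟨s, hsu, hst, hs⟩ := third x hv hxu hxt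
  obtain ⟨s', hsu', hst', hs'⟩ := third y hvy hyu hyt
  have p1 : Part S.N t g' x :=
    ⟨hgt, hxt, Ne.symm hxg, s, hst, hall s hs hsu, (S.mem_tl s x).1 hs⟩
  have p2 : Part S.N t g' y :=
    ⟨hgt, hyt, Ne.symm hyg, s', hst', hall' s' hs' hsu', (S.mem_tl s' y).1 hs'⟩
  have p3 : Part S.N t x y := ⟨hxt, hyt, hxy, u, Ne.symm htu, hxu, hyu⟩
  -- the fourth node
  have hc3 : ({g', x, y} : Finset ν).card = 3 := by
    rw [Finset.card_insert_of_notMem, Finset.card_pair hxy]
    simp only [Finset.mem_insert, Finset.mem_singleton, not_or]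
    exact ⟨Ne.symm hxg, Ne.symm hyg⟩
  obtain ⟨z, hz, hzn⟩ := Finset.exists_mem_notMem_of_card_lt_card
    (show ({g', x, y} : Finset ν).card < (S.N t).card by rw [hc3, hc4]; norm_num)
  have hzn' : z ≠ g' ∧ z ≠ x ∧ z ≠ y := by
    simpa only [Finset.mem_insert, Finset.mem_singleton, not_or] using hzn
  obtain ⟨hz1, hz2, hz3⟩ := hzn'
  have hsub : insert z ({g', x, y} : Finset ν) ⊆ S.N t := by
    intro a ha
    simp only [Finset.mem_insert, Finset.mem_singleton] at ha
    rcases ha with rfl | rfl | rfl | rfl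
    · exact hz
    · exact hgt
    · exact hxt
    · exact hyt
  have heq : insert z ({g', x, y} : Finset ν) = S.N t := by
    apply Finset.eq_of_subset_of_card_le hsub
    rw [Finset.card_insert_of_notMem hzn, hc3, hc4]
  obtain ⟨a, b, -, pa, -, -⟩ := S.part t z hz
  have hat : a ∈ S.N t := pa.2.1
  have haz : a ≠ z := Ne.symm pa.2.2.1
  rw [← heq] at hat
  simp only [Finset.mem_insert, Finset.mem_singleton] at hat
  have pa' := S.part_symm pa
  rcases hat with h1 | h1 | h1 | h1
  · exact haz h1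
  · rw [h1] at pa'
    rcases S.not_three_partners p1 p2 pa' with h2 | h2 | h2
    · exact hxy h2
    · exact hz3 h2.symm
    · exact hz2 h2.symm
  · rw [h1] at pa'
    rcases S.not_three_partners (S.part_symm p1) p3 pa' with h2 | h2 | h2
    · exact hyg h2.symm
    · exact hz3 h2.symm
    · exact hz1 h2.symm
  · rw [h1] at pa'
    rcases S.not_three_partners (S.part_symm p2) (S.part_symm p3) pa' with h2 | h2 | h2
    · exact hxg h2.symm
    · exact hz2 h2.symm
    · exact hz1 h2.symm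

open Classical in
private theorem XCNT_two (S : Sys ι ν 4 n) {u : ι} {x : ν} (hx : x ∈ S.N u) :
    ((S.N u).filter (fun y => Part S.N u x y)).card = 2 := by
  obtain ⟨y, z, hyz, py, pz, hall⟩ := S.part u x hx
  have : (S.N u).filter (fun y => Part S.N u x y) = {y, z} := by
    ext w
    simp only [Finset.mem_filter, Finset.mem_insert, Finset.mem_singleton]
    constructor
    · rintro ⟨-, hw⟩
      exact hall w hw
    · rintro (rfl | rfl)
      · exact ⟨py.2.1, py⟩
      · exact ⟨pz.2.1, pz⟩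
  rw [this, Finset.card_pair hyz]

open Classical in
private theorem XCNT_double (S : Sys ι ν 4 n) (hn : 15 ≤ n) (u : ι) :
    2 * ((S.N u).filter (fun x => S.IsX u x)).card =
      ∑ b ∈ (S.N u).filter (fun x => ¬ S.IsX u x),
        (((S.N u).filter (fun x => S.IsX u x)).filter (fun x => Part S.N u x b)).card := by
  have h := Finset.sum_card_bipartiteAbove_eq_sum_card_bipartiteBelow
    (s := (S.N u).filter (fun x => S.IsX u x)) (t := (S.N u).filter (fun x => ¬ S.IsX u x))
    (fun x y => Part S.N u x y)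
  unfold Finset.bipartiteAbove Finset.bipartiteBelow at h
  rw [← h]
  have h1 : ∀ a ∈ (S.N u).filter (fun x => S.IsX u x),
      (((S.N u).filter (fun x => ¬ S.IsX u x)).filter (fun y => Part S.N u a y)).card = 2 := by
    intro a ha
    obtain ⟨ha1, ha2⟩ := Finset.mem_filter.1 ha
    rw [← XCNT_two S ha1]
    congr 1
    ext y
    simp only [Finset.mem_filter]
    constructor
    · rintro ⟨⟨h2, -⟩, h3⟩
      exact ⟨h2, h3⟩
    · rintro ⟨h2, h3⟩
      exact ⟨⟨h2, (S.isX_partner hn ha2 h3).2⟩, h3⟩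
  rw [Finset.sum_congr rfl h1, Finset.sum_const, smul_eq_mul, mul_comm]

open Classical in
private theorem XCNT_le_two (S : Sys ι ν 4 n) {u : ι} {b : ν} (hb : b ∈ S.N u) :
    (((S.N u).filter (fun x => S.IsX u x)).filter (fun x => Part S.N u x b)).card ≤ 2 := by
  rw [← XCNT_two S hb]
  apply Finset.card_le_card
  intro x hx
  simp only [Finset.mem_filter] at hx ⊢
  exact ⟨hx.1.1, S.part_symm hx.2⟩

open Classical in
theorem isX_count (S : Sys ι ν 4 n) (hn : 15 ≤ n) {u : ι} {w : ν} (hw : w ∈ S.N u)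
    (hw4 : 4 ≤ S.val w) : 2 * ((S.N u).filter (fun x => S.IsX u x)).card + 2 ≤ (S.N u).card := by
  have hD := XCNT_double S hn u
  have hsplit := Finset.card_filter_add_card_filter_not (s := S.N u) (fun x => S.IsX u x)
  set X := (S.N u).filter (fun x => S.IsX u x) with hX
  set Y := (S.N u).filter (fun x => ¬ S.IsX u x) with hY
  set c : ν → ℕ := fun b => (X.filter (fun x => Part S.N u x b)).card with hc
  have hc2 : ∀ b ∈ Y, c b ≤ 2 := fun b hb => XCNT_le_two S (Finset.mem_filter.1 hb).1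
  obtain ⟨w1, w2, hw12, p1, p2, -⟩ := S.part u w hw
  -- partners of `w` are not in `X`
  have hnX : ∀ z, Part S.N u w z → ¬ S.IsX u z := by
    intro z hz hzX
    have := (S.isX_partner hn hzX (S.part_symm hz)).1
    omega
  have hwX : ¬ S.IsX u w := by
    intro h
    have := h.2.1
    omega
  have hwY : w ∈ Y := Finset.mem_filter.2 ⟨hw, hwX⟩
  have hY1 : ∀ z, Part S.N u w z → z ∈ Y := fun z hz =>
    Finset.mem_filter.2 ⟨hz.2.1, hnX z hz⟩
  have cw : c w = 0 := by
    rw [hc]
    simp only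
    rw [Finset.card_eq_zero, Finset.filter_eq_empty_iff]
    intro x hx hp
    exact hnX x (S.part_symm hp) (Finset.mem_filter.1 hx).2
  have cz : ∀ z, Part S.N u w z → c z ≤ 1 := by
    intro z hz
    have hzN := hz.2.1
    have h2 := XCNT_two S hzN
    have hwmem : w ∈ (S.N u).filter (fun y => Part S.N u z y) :=
      Finset.mem_filter.2 ⟨hw, S.part_symm hz⟩
    have h3 : (((S.N u).filter (fun y => Part S.N u z y)).erase w).card = 1 := by
      rw [Finset.card_erase_of_mem hwmem, h2]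
    rw [← h3]
    apply Finset.card_le_card
    intro x hx
    obtain ⟨hx1, hx2⟩ := Finset.mem_filter.1 hx
    obtain ⟨hx3, hx4⟩ := Finset.mem_filter.1 hx1
    rw [Finset.mem_erase, Finset.mem_filter]
    refine ⟨?_, hx3, S.part_symm hx2⟩
    rintro rfl
    exact hwX hx4
  have hsum : ∑ b ∈ Y, c b + ∑ b ∈ Y, (2 - c b) = 2 * Y.card := by
    rw [← Finset.sum_add_distrib, Finset.sum_congr rfl (g := fun _ => 2)
      (fun b hb => by have := hc2 b hb; omega), Finset.sum_const, smul_eq_mul, mul_comm]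
  have hsub : ({w, w1, w2} : Finset ν) ⊆ Y := by
    intro a ha
    simp only [Finset.mem_insert, Finset.mem_singleton] at ha
    rcases ha with rfl | rfl | rfl
    · exact hwY
    · exact hY1 _ p1
    · exact hY1 _ p2
  have hthree : ∑ b ∈ ({w, w1, w2} : Finset ν), (2 - c b) ≤ ∑ b ∈ Y, (2 - c b) :=
    Finset.sum_le_sum_of_subset hsub
  have hval : ∑ b ∈ ({w, w1, w2} : Finset ν), (2 - c b) =
      (2 - c w) + ((2 - c w1) + (2 - c w2)) := by
    rw [Finset.sum_insert, Finset.sum_pair hw12]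
    simp only [Finset.mem_insert, Finset.mem_singleton, not_or]
    exact ⟨p1.2.2.1, p2.2.2.1⟩
  have c1 := cz w1 p1
  have c2 := cz w2 p2
  have hD' : 2 * X.card = ∑ b ∈ Y, c b := hD
  clear hD
  omega

open Classical in
theorem isX_count' (S : Sys ι ν 4 n) (hn : 15 ≤ n) (u : ι) :
    2 * ((S.N u).filter (fun x => S.IsX u x)).card ≤ (S.N u).card := by
  have hD := XCNT_double S hn u
  have hsplit := Finset.card_filter_add_card_filter_not (s := S.N u) (fun x => S.IsX u x)
  have h1 : ∑ b ∈ (S.N u).filter (fun x => ¬ S.IsX u x),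
        (((S.N u).filter (fun x => S.IsX u x)).filter (fun x => Part S.N u x b)).card ≤
      ∑ _b ∈ (S.N u).filter (fun x => ¬ S.IsX u x), 2 :=
    Finset.sum_le_sum (fun b hb => XCNT_le_two S (Finset.mem_filter.1 hb).1)
  rw [Finset.sum_const, smul_eq_mul] at h1
  omega

end Sys

end Pool.Agent.NNb
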